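import Mathlib

set_option autoImplicit false

namespace Pool.Agent.Lib.helper9.AffTwo

@[ext] structure Aff (F : Type) [Field F] where
  x : F
  y : F
  l : Fˣ

variable {F : Type} [Field F]

instance : Mul (Aff F) := ⟨fun a b => ⟨a.x + a.l * b.x, a.y + a.l * b.y, a.l * b.l⟩⟩
instance : One (Aff F) := ⟨⟨0, 0, 1⟩⟩
instance : Inv (Aff F) := ⟨fun a => ⟨-(a.l⁻¹ * a.x), -(a.l⁻¹ * a.y), a.l⁻¹⟩⟩

@[simp] lemma mul_x (a b : Aff F) : (a * b).x = a.x + a.l * b.x := rfl
@[simp] lemma mul_y (a b : Aff F) : (a * b).y = a.y + a.l * b.y := rfl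
@[simp] lemma mul_l (a b : Aff F) : (a * b).l = a.l * b.l := rfl
@[simp] lemma one_x : (1 : Aff F).x = 0 := rfl
@[simp] lemma one_y : (1 : Aff F).y = 0 := rfl
@[simp] lemma one_l : (1 : Aff F).l = 1 := rfl
@[simp] lemma inv_x (a : Aff F) : (a⁻¹).x = -(a.l⁻¹ * a.x) := rfl
@[simp] lemma inv_y (a : Aff F) : (a⁻¹).y = -(a.l⁻¹ * a.y) := rfl
@[simp] lemma inv_l (a : Aff F) : (a⁻¹).l = a.l⁻¹ := rfl

instance : Group (Aff F) where
  mul_assoc a b c := by ext <;> simp [mul_assoc] <;> ring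
  one_mul a := by ext <;> simp
  mul_one a := by ext <;> simp
  inv_mul_cancel a := by ext <;> simp

def equivProd : Aff F ≃ F × F × Fˣ where
  toFun a := (a.x, a.y, a.l)
  invFun a := ⟨a.1, a.2.1, a.2.2⟩
  left_inv _ := rfl
  right_inv _ := rfl

instance [Finite F] : Finite (Aff F) := Finite.of_equiv _ equivProd.symm

def lin : Aff F →* Fˣ where
  toFun a := a.l
  map_one' := rfl
  map_mul' _ _ := rfl

def tr : Multiplicative (F × F) →* Aff F where
  toFun v := ⟨v.toAdd.1, v.toAdd.2, 1⟩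
  map_one' := rfl
  map_mul' _ _ := by ext <;> simp

instance : Group.IsSolvable (Aff F) :=
  Group.isSolvable_of_ker_le_range tr lin (by
    intro g hg
    have : g.l = 1 := hg
    exact ⟨Multiplicative.ofAdd (g.x, g.y), by ext <;> simp [tr, this]⟩)

def f (a b c : F) (g : Aff F) : F := a * g.x + b * g.y + (g.l - 1) * c

lemma f_mul (a b c : F) (g h : Aff F) : f a b c (g * h) = f a b c g + g.l * f a b c h := by
  simp [f]; ring

def M (a b c : F) : Subgroup (Aff F) where
  carrier := {g | f a b c g = 0}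
  mul_mem' := by
    intro g h hg hh
    simp only [Set.mem_ofPred_eq] at *
    rw [f_mul, hg, hh]; simp
  one_mem' := by simp [f]
  inv_mem' := by
    intro g hg
    simp only [Set.mem_ofPred_eq] at *
    have h := f_mul a b c g g⁻¹
    rw [mul_inv_cancel, hg] at h
    simpa [f] using h.symm

lemma mem_M {a b c : F} {g : Aff F} : g ∈ M a b c ↔ f a b c g = 0 := Iff.rfl

lemma exists_f (a b c : F) (hab : a ≠ 0 ∨ b ≠ 0) (t : F) (l : Fˣ) :
    ∃ g : Aff F, g.l = l ∧ f a b c g = t := by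
  rcases hab with h | h
  · exact ⟨⟨(t - (l - 1) * c) / a, 0, l⟩, rfl, by simp [f]; field_simp; ring⟩
  · exact ⟨⟨0, (t - (l - 1) * c) / b, l⟩, rfl, by simp [f]; field_simp; ring⟩

lemma coatom (a b c : F) (hab : a ≠ 0 ∨ b ≠ 0) : IsCoatom (M a b c) := by
  constructor
  · intro h
    obtain ⟨g, -, hg⟩ := exists_f a b c hab 1 1
    have : g ∈ M a b c := h ▸ Subgroup.mem_top g
    rw [mem_M, hg] at this
    exact one_ne_zero this
  · intro K hK
    obtain ⟨g, hgK, hg⟩ := SetLike.exists_of_lt hK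
    rw [eq_top_iff]
    intro h _
    by_cases hh : f a b c h = 0
    · exact hK.le hh
    have hg' : f a b c g ≠ 0 := hg
    obtain ⟨m, hm, hm0⟩ := exists_f a b c hab 0 (Units.mk0 (f a b c h / f a b c g)
      (div_ne_zero hh hg'))
    have hk : m * g ∈ K := K.mul_mem (hK.le hm0) hgK
    have h1 : f a b c (m * g) = f a b c h := by
      rw [f_mul, hm0, hm]; simp; field_simp
    have h2 : f a b c ((m * g)⁻¹ * h) = 0 := by
      have := f_mul a b c (m * g) ((m * g)⁻¹ * h)
      rw [mul_inv_cancel_left, h1] at this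
      simpa using this
    have := K.mul_mem hk (hK.le h2)
    rwa [mul_inv_cancel_left] at this

lemma inconj (a b c a' b' c' : F) (h : a' * b - b' * a ≠ 0) (g : Aff F) :
    (M a b c).map (MulAut.conj g).toMonoidHom ≠ M a' b' c' := by
  intro e
  have h1 : (⟨b, -a, 1⟩ : Aff F) ∈ M a b c := by simp [mem_M, f]; ring
  have h2 : g * ⟨b, -a, 1⟩ * g⁻¹ ∈ M a' b' c' := by
    rw [← e]; exact ⟨_, h1, rfl⟩
  rw [mem_M] at h2
  apply h
  have h3 : (g.l : F) * (a' * b - b' * a) = 0 := by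
    rw [← h2]; simp [f]; ring
  simpa using h3

end Pool.Agent.Lib.helper9.AffTwo
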