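import Mathlib

set_option autoImplicit false

namespace H9B

open MeasureTheory ProbabilityTheory unitInterval Finset

/-- weight of a subset `s` of `u` -/
noncomputable def wt {ι : Type} [DecidableEq ι] (u : Finset ι) (p : ℝ) (s : Finset ι) : ℝ :=
  p ^ s.card * (1 - p) ^ (u \ s).card

lemma wt_nonneg {ι : Type} [DecidableEq ι] (u : Finset ι) {p : ℝ} (h0 : 0 ≤ p) (h1 : p ≤ 1)
    (s : Finset ι) : 0 ≤ wt u p s := by
  unfold wt
  have : 0 ≤ 1 - p := by linarith
  positivity

open Classical in
lemma setBer_real {ι : Type} [Fintype ι] [DecidableEq ι] (u : Finset ι) (p : I)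
    (S : Set (Set ι)) :
    (setBernoulli (u : Set ι) p).real S =
      ∑ s ∈ u.powerset, if (s : Set ι) ∈ S then wt u p s else 0 := by
  rw [measureReal_def, setBernoulli_apply_eq_apply_subsets, ← measureReal_def]
  have h : {s ∈ S | s ⊆ (u : Set ι)} =
      ⋃ s ∈ u.powerset.filter (fun s : Finset ι => (s : Set ι) ∈ S), {(s : Set ι)} := by
    ext t
    simp only [Set.mem_ofPred_eq, mem_filter, mem_powerset, Set.mem_iUnion, Set.mem_singleton_iff,
      exists_prop]
    constructor
    · rintro ⟨h1, h2⟩
      refine ⟨t.toFinset, ⟨?_, by simpa using h1⟩, by simp⟩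
      intro x hx
      exact h2 (by simpa using hx)
    · rintro ⟨s, ⟨h1, h2⟩, rfl⟩
      exact ⟨h2, by simpa using h1⟩
  rw [h, measureReal_biUnion_finset, sum_filter]
  · refine sum_congr rfl fun s hs => ?_
    split_ifs with hS
    · rw [setBernoulli_real_singleton p (by simpa using hs) u.finite_toSet, wt,
        Set.ncard_coe_finset, ← coe_sdiff, Set.ncard_coe_finset]
    · rfl
  · intro a _ b _ hab
    simp only [Function.onFun, Set.disjoint_singleton]
    exact fun h => hab (coe_injective h)
  · intro s _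
    exact MeasurableSet.of_discrete

lemma sum_wt_prod {ι : Type} [DecidableEq ι] (u : Finset ι) (p : ℝ) (w : ι → ℝ) :
    ∑ s ∈ u.powerset, wt u p s * ∏ e ∈ s, w e = ∏ e ∈ u, (p * w e + (1 - p)) := by
  rw [prod_add]
  refine sum_congr rfl fun s _ => ?_
  rw [prod_mul_distrib, prod_const, prod_const, wt]
  ring

end H9B
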