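import Mathlib
import Pool.Agent.Lib.helper9.Bern

set_option autoImplicit false

namespace H9B

open Finset

variable {ι : Type} [DecidableEq ι]

/-- expectation of `f` under the product Bernoulli weights on subsets of `u` -/
noncomputable def Ex (u : Finset ι) (p : ℝ) (f : Finset ι → ℝ) : ℝ :=
  ∑ s ∈ u.powerset, wt u p s * f s

lemma Ex_insert {u : Finset ι} {a : ι} (ha : a ∉ u) (p : ℝ) (f : Finset ι → ℝ) :
    Ex (insert a u) p f = (1 - p) * Ex u p f + p * Ex u p (fun s => f (insert a s)) := by
  unfold Ex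
  rw [sum_powerset_insert ha, mul_sum, mul_sum]
  congr 1
  · refine sum_congr rfl fun s hs => ?_
    have hs' := mem_powerset.1 hs
    have h1 : insert a u \ s = insert a (u \ s) := insert_sdiff_of_notMem _ (fun h => ha (hs' h))
    rw [wt, wt, h1, card_insert_of_notMem (fun h => ha (mem_sdiff.1 h).1)]
    ring
  · refine sum_congr rfl fun s hs => ?_
    have hs' := mem_powerset.1 hs
    have h1 : insert a u \ insert a s = u \ s := by
      rw [insert_sdiff_insert, sdiff_insert_of_notMem ha]
    rw [wt, wt, h1, card_insert_of_notMem (fun h => ha (hs' h))]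
    ring

/-- `f` depends only on the trace on `B` -/
def Dep (B : Finset ι) (f : Finset ι → ℝ) : Prop :=
  ∀ s t : Finset ι, (∀ e ∈ B, e ∈ s ↔ e ∈ t) → f s = f t

lemma Dep.ins {B : Finset ι} {f : Finset ι → ℝ} (h : Dep B f) (a : ι) :
    Dep B (fun s => f (insert a s)) := fun s t hst =>
  h _ _ fun e he => by simp [hst e he]

lemma Dep.ins_eq {B : Finset ι} {f : Finset ι → ℝ} (h : Dep B f) {a : ι} (ha : a ∉ B) :
    (fun s => f (insert a s)) = f := funext fun s =>
  h _ _ fun e he => by
    have : e ≠ a := fun h' => ha (h' ▸ he)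
    simp [this]

lemma Ex_mul (p : ℝ) {B B' : Finset ι} (hB : Disjoint B B') (u : Finset ι) :
    ∀ f g : Finset ι → ℝ, Dep B f → Dep B' g →
      Ex u p (fun s => f s * g s) = Ex u p f * Ex u p g := by
  induction u using Finset.induction_on with
  | empty => intro f g _ _; simp [Ex, wt]
  | insert a u ha ih =>
    intro f g hf hg
    rw [Ex_insert ha, Ex_insert ha, Ex_insert ha, ih f g hf hg,
      ih _ _ (hf.ins a) (hg.ins a)]
    by_cases haB : a ∈ B
    · rw [hg.ins_eq (disjoint_left.1 hB haB)]; ring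
    · rw [hf.ins_eq haB]; ring

lemma Ex_one (p : ℝ) (u : Finset ι) : Ex u p (fun _ => 1) = 1 := by
  have := sum_wt_prod u p (fun _ => 1)
  simpa [Ex] using this

lemma Ex_prod {κ : Type} [DecidableEq κ] (p : ℝ) (u : Finset ι) (B : κ → Finset ι)
    (f : κ → Finset ι → ℝ) (hf : ∀ c, Dep (B c) (f c)) (C : Finset κ)
    (hC : ∀ c ∈ C, ∀ d ∈ C, c ≠ d → Disjoint (B c) (B d)) :
    Ex u p (fun s => ∏ c ∈ C, f c s) = ∏ c ∈ C, Ex u p (f c) := by
  induction C using Finset.induction_on with
  | empty => simpa using Ex_one p u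
  | insert a C ha ih =>
    simp only [prod_insert ha]
    rw [Ex_mul p (B := B a) (B' := C.biUnion B) _ u _ _ (hf a), ih]
    · exact fun c hc d hd => hC c (mem_insert_of_mem hc) d (mem_insert_of_mem hd)
    · intro s t hst
      exact prod_congr rfl fun c hc => hf c s t fun e he => hst e (mem_biUnion.2 ⟨c, hc, he⟩)
    · rw [disjoint_biUnion_right]
      intro c hc
      exact hC a (mem_insert_self _ _) c (mem_insert_of_mem hc) (fun h => ha (h ▸ hc))

lemma Ex_pattern (p : ℝ) (u A N : Finset ι) (hA : A ⊆ u) (hN : N ⊆ u) (hAN : Disjoint A N) :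
    Ex u p (fun s => if A ⊆ s ∧ Disjoint N s then 1 else 0) = p ^ A.card * (1 - p) ^ N.card := by
  have h1 := prod_add (fun e => p * (if e ∈ N then (0 : ℝ) else 1))
    (fun e => (1 - p) * (if e ∈ A then (0 : ℝ) else 1)) u
  have h2 : ∏ e ∈ u, (p * (if e ∈ N then (0 : ℝ) else 1) + (1 - p) * (if e ∈ A then (0 : ℝ) else 1))
      = p ^ A.card * (1 - p) ^ N.card := by
    have : ∀ e ∈ u, (p * (if e ∈ N then (0 : ℝ) else 1) + (1 - p) * (if e ∈ A then (0 : ℝ) else 1))
        = (if e ∈ A then p else 1) * (if e ∈ N then 1 - p else 1) := by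
      intro e _
      by_cases h : e ∈ A
      · have := disjoint_left.1 hAN h
        simp [*]
      · by_cases h' : e ∈ N <;> simp [*]
    rw [prod_congr rfl this, prod_mul_distrib, prod_ite_mem, prod_ite_mem, inter_eq_right.2 hA,
      inter_eq_right.2 hN, prod_const, prod_const]
  rw [← h2, h1, Ex]
  refine sum_congr rfl fun s hs => ?_
  rw [prod_mul_distrib, prod_mul_distrib, prod_const, prod_const, wt]
  split_ifs with h
  · rw [prod_eq_one, prod_eq_one]
    · ring
    · intro e he
      rw [if_neg (fun h' => (mem_sdiff.1 he).2 (h.1 h'))]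
    · intro e he
      rw [if_neg (fun h' => disjoint_left.1 h.2 h' he)]
  · rcases not_and_or.1 h with h | h
    · obtain ⟨e, he, he'⟩ := not_subset.1 h
      rw [prod_eq_zero (s := u \ s) (f := fun e => if e ∈ A then (0 : ℝ) else 1)
        (mem_sdiff.2 ⟨hA he, he'⟩) (if_pos he)]
      ring
    · obtain ⟨e, he, he'⟩ := not_disjoint_iff.1 h
      rw [prod_eq_zero (s := s) (f := fun e => if e ∈ N then (0 : ℝ) else 1) he' (if_pos he)]
      ring

lemma greedy {V : Type} [Fintype V] [DecidableEq V] (R : V → V → Prop) [DecidableRel R]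
    (hrefl : ∀ x, R x x) (hsymm : ∀ x y, R x y → R y x) (K : ℕ)
    (hK : ∀ c, (univ.filter (fun x => R c x)).card ≤ K) :
    ∃ C : Finset V, (∀ c ∈ C, ∀ d ∈ C, c ≠ d → ¬ R c d) ∧ Fintype.card V ≤ C.card * K := by
  classical
  obtain ⟨C, hC, hmax⟩ := exists_max_image
    (univ.filter (fun C : Finset V => ∀ c ∈ C, ∀ d ∈ C, c ≠ d → ¬ R c d)) card ⟨∅, by simp⟩
  have hC' := (mem_filter.1 hC).2
  refine ⟨C, hC', ?_⟩
  have hcov : (univ : Finset V) ⊆ C.biUnion (fun c => univ.filter (fun x => R c x)) := by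
    intro x _
    by_contra hx
    simp only [mem_biUnion, mem_filter, mem_univ, true_and, not_exists, not_and] at hx
    have hxC : x ∉ C := fun h => hx x h (hrefl x)
    have := hmax (insert x C) (mem_filter.2 ⟨mem_univ _, by
      intro c hc d hd hcd
      rcases mem_insert.1 hc with rfl | hc' <;> rcases mem_insert.1 hd with rfl | hd'
      · exact absurd rfl hcd
      · exact fun h => hx d hd' (hsymm _ _ h)
      · exact hx c hc'
      · exact hC' c hc' d hd' hcd⟩)
    rw [card_insert_of_notMem hxC] at this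
    omega
  calc Fintype.card V = (univ : Finset V).card := rfl
    _ ≤ _ := card_le_card hcov
    _ ≤ ∑ c ∈ C, (univ.filter (fun x => R c x)).card := card_biUnion_le
    _ ≤ C.card * K := by
      rw [← smul_eq_mul]
      exact sum_le_card_nsmul _ _ _ fun c _ => hK c

end H9B
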