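import Pool.Agent.Lib.helper10.Kit2

/-! Integers in binary: polynomial-time arithmetic. -/

namespace Pool.Agent.Cx

open Polynomial List

variable {α β : Type} [Enc α] [Enc β]

lemma bin_bits (n : ℕ) : bin n.bits = n := by
  induction n using Nat.binaryRec' with
  | zero => simp [bin]
  | bit b n h ih => rw [Nat.bits_append_bit n b h, bin, ih, Nat.bit_val]; omega

lemma bin_lt (l : List Bool) : bin l < 2 ^ l.length := by
  induction l with
  | nil => simp [bin]
  | cons b l ih => cases b <;> simp [bin, pow_succ] <;> omega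

lemma bin_pad (l : List Bool) (n : ℕ) : bin (l ++ replicate n false) = bin l := by
  induction l with
  | nil => induction n with
    | zero => rfl
    | succ n ih => simp_all [replicate_succ, bin]
  | cons b l ih => simp [bin, ih]

lemma size_bools (l : List Bool) : size l ≤ 4 * l.length + 1 :=
  (size_list_le l 3 fun b _ => size_bool b).trans (by omega)

/-- `f` is computable in binary -/
@[fun_prop] def PB (f : α → ℕ) : Prop := PT fun a => (f a).bits

def nrm (l : List Bool) : List Bool :=
  l.reverse.foldl (fun c b => bif c.isEmpty && !b then [] else b :: c) []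

lemma nrm_eq (l : List Bool) : nrm l = (bin l).bits := by
  unfold nrm; rw [foldl_reverse]
  induction l with
  | nil => simp [bin]
  | cons b l ih =>
    rw [foldr_cons, ih, bin, add_comm, ← Nat.bit_val]
    by_cases h : bin l = 0 → b = true
    · rw [Nat.bits_append_bit _ _ h]
      by_cases h0 : bin l = 0
      · simp [h h0]
      · have : (bin l).bits ≠ [] := fun e => h0 (by rw [← bin_bits (bin l), e]; rfl)
        cases e : (bin l).bits <;> simp_all
    · simp at h; simp [h.1, h.2, Nat.bit_val]

@[fun_prop] lemma PB.bin {l : α → List Bool} (h : PT l) : PB fun a => bin (l a) :=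
  (PT.foldl_add (f := fun _ (c : List Bool) (b : Bool) => bif c.isEmpty && !b then [] else b :: c)
    (l := fun a => (l a).reverse) (init := fun _ => []) (by fun_prop) (by fun_prop) (by fun_prop)
    (X + 1) fun a c b => by
      have := size_pos c
      cases (c.isEmpty && !b) <;> simp <;> omega).of_eq fun a => (nrm_eq _).symm

def zp (x y : List Bool) : List (Bool × Bool) :=
  (x ++ replicate y.length false).zip (y ++ replicate x.length false)

lemma zp1 (x y : List Bool) : bin ((zp x y).map Prod.fst) = bin x := by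
  rw [zp, map_fst_zip (by simp; omega), bin_pad]

lemma zp2 (x y : List Bool) : bin ((zp x y).map Prod.snd) = bin y := by
  rw [zp, map_snd_zip (by simp; omega), bin_pad]

def run (g h : Bool → Bool × Bool → Bool) (l : List (Bool × Bool)) (s : List Bool × Bool) :=
  l.foldl (fun s p => (s.1 ++ [g s.2 p], h s.2 p)) s

lemma run_cons (g h : Bool → Bool × Bool → Bool) (p : Bool × Bool) (l : List (Bool × Bool)) (c : Bool) :
    run g h (p :: l) ([], c) = (g c p :: (run g h l ([], h c p)).1, (run g h l ([], h c p)).2) := by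
  have e : ∀ (l : List (Bool × Bool)) (s : List Bool × Bool),
      run g h l s = (s.1 ++ (run g h l ([], s.2)).1, (run g h l ([], s.2)).2) := fun l => by
    induction l with
    | nil => simp [run]
    | cons p l ih =>
      intro s
      simp only [run, foldl_cons] at *
      rw [ih, ih ([] ++ _, _)]; simp
  simp only [run, foldl_cons] at *
  rw [e]; simp

lemma PT.run {g h : Bool → Bool × Bool → Bool} (hg : PT fun p : Bool × Bool × Bool => g p.1 p.2)
    (hh : PT fun p : Bool × Bool × Bool => h p.1 p.2) {x y : α → List Bool} (hx : PT x) (hy : PT y) :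
    PT fun a => run g h (zp (x a) (y a)) ([], false) := by
  unfold Cx.run zp
  refine PT.foldl_add (f := fun _ (s : List Bool × Bool) p => (s.1 ++ [g s.2 p], h s.2 p))
    (PT.pair (PT.append (by fun_prop) (PT.cons (hg.comp (f := fun p : α × (List Bool × Bool) × Bool × Bool
      => (p.2.1.2, p.2.2)) (by fun_prop)) (by fun_prop)))
      (hh.comp (f := fun p : α × (List Bool × Bool) × Bool × Bool => (p.2.1.2, p.2.2)) (by fun_prop)))
    (by fun_prop) (by fun_prop) 7 fun a c b => ?_
  obtain ⟨c, d⟩ := c
  have h1 := size_append c [g d b]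
  have h2 := size_bool (g d b)
  have h3 := size_bool (h d b)
  have h4 := size_pos d
  simp at *; omega

def x3 (c : Bool) (p : Bool × Bool) : Bool := xor c (xor p.1 p.2)
def cy (c : Bool) (p : Bool × Bool) : Bool := (p.1 && p.2) || (c && (p.1 || p.2))
def bw (c : Bool) (p : Bool × Bool) : Bool := (!p.1 && p.2) || (c && (!p.1 || p.2))

lemma run_add (l : List (Bool × Bool)) (c : Bool) :
    bin ((run x3 cy l ([], c)).1 ++ [(run x3 cy l ([], c)).2]) =
      bin (l.map Prod.fst) + bin (l.map Prod.snd) + c.toNat := by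
  induction l generalizing c with
  | nil => simp [run, bin]
  | cons p l ih =>
    rw [run_cons]
    simp only [cons_append, bin, ih, map_cons]
    obtain ⟨a, b⟩ := p
    cases a <;> cases b <;> cases c <;> simp [x3, cy] <;> omega

lemma run_sub (l : List (Bool × Bool)) (c : Bool) :
    (run x3 bw l ([], c)).1.length = l.length ∧
    bin (run x3 bw l ([], c)).1 + bin (l.map Prod.snd) + c.toNat =
      bin (l.map Prod.fst) + 2 ^ l.length * (run x3 bw l ([], c)).2.toNat := by
  induction l generalizing c with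
  | nil => simp [run, bin]
  | cons p l ih =>
    rw [run_cons]
    have := ih (bw c p)
    simp only [bin, map_cons, length_cons, this.1, pow_succ, true_and, mul_right_comm _ 2]
    obtain ⟨a, b⟩ := p
    cases a <;> cases b <;> cases c <;> simp [x3, bw] at * <;> omega

lemma PB.add {f g : α → ℕ} (hf : PB f) (hg : PB g) : PB fun a => f a + g a := by
  have := PT.run (g := x3) (h := cy) (by unfold x3; fun_prop) (by unfold cy; fun_prop) hf hg
  exact (PB.bin (this.fst.append (this.snd.cons (PT.const [])))).of_eq fun a => by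
    simp [run_add, zp1, zp2, bin_bits]

lemma sub_spec (x y : ℕ) : ((run x3 bw (zp x.bits y.bits) ([], false)).2 = true ↔ x < y) ∧
    (y ≤ x → bin (run x3 bw (zp x.bits y.bits) ([], false)).1 = x - y) := by
  have h := run_sub (zp x.bits y.bits) false
  have h2 := bin_lt (run x3 bw (zp x.bits y.bits) ([], false)).1
  rw [zp1, zp2, bin_bits, bin_bits] at h
  rw [h.1] at h2
  cases e : (run x3 bw (zp x.bits y.bits) ([], false)).2 <;> simp [e] at h ⊢ <;> omega

lemma PB.lt {f g : α → ℕ} (hf : PB f) (hg : PB g) : PP fun a => f a < g a :=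
  ⟨_, (PT.run (g := x3) (h := bw) (by unfold x3; fun_prop) (by unfold bw; fun_prop) hf hg).snd,
    fun _ => (sub_spec _ _).1.symm⟩

lemma PB.ite {c : α → Prop} [DecidablePred c] {f g : α → ℕ} (hc : PP c) (hf : PB f) (hg : PB g) :
    PB fun a => if c a then f a else g a :=
  (PP.ite hc hf hg).of_eq fun a => by beta_reduce; split_ifs <;> rfl

lemma PB.sub {f g : α → ℕ} (hf : PB f) (hg : PB g) : PB fun a => f a - g a :=
  (PB.ite (f := fun _ => 0) (hf.lt hg) (PT.const _) (PB.bin (PT.run (g := x3) (h := bw) (by unfold x3; fun_prop)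
    (by unfold bw; fun_prop) hf hg).fst)).of_eq fun a => by
    beta_reduce
    split_ifs with h
    · rw [Nat.sub_eq_zero_of_le h.le]
    · rw [(sub_spec _ _).2 (not_lt.1 h)]

/-- integers: sign and binary digits of the absolute value -/
instance encInt : Enc ℤ := ⟨fun z => Enc.toBT (decide (z < 0), z.natAbs.bits)⟩

lemma size_int (z : ℤ) : size z = size (decide (z < 0), z.natAbs.bits) := rfl

lemma size_int_le {z : ℤ} {k : ℕ} (h : |z| < 2 ^ k) : size z ≤ 4 * k + 5 := by
  have h1 := size_bools z.natAbs.bits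
  have h2 := size_bool (decide (z < 0))
  have h3 : z.natAbs.size ≤ k := Nat.size_le.2 (by zify; exact h)
  rw [Nat.size_eq_bits_len] at h1
  rw [size_int, size_pair]; omega

lemma abs_lt_size (z : ℤ) : |z| < 2 ^ size z := by
  have h1 := length_lt_size z.natAbs.bits
  have h3 : z.natAbs < 2 ^ size z := Nat.size_le.1 (by
    rw [size_int, size_pair, ← Nat.size_eq_bits_len]; omega)
  zify at h3; exact h3

lemma PT.sm {z : α → ℤ} (h : PT z) : PT fun a => (decide (z a < 0), (z a).natAbs.bits) :=
  h.of_tree fun _ => rfl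

lemma PT.natAbs {z : α → ℤ} (h : PT z) : PB fun a => (z a).natAbs := h.sm.snd

lemma PP.neg {z : α → ℤ} (h : PT z) : PP fun a => z a < 0 := .of_decide h.sm.fst

lemma PT.posPart {z : α → ℤ} (h : PT z) : PB fun a => (z a).toNat :=
  (PB.ite (f := fun _ => 0) (PP.neg h) (PT.const _) h.natAbs).of_eq fun a => by
    beta_reduce; congr 1; split_ifs <;> omega

lemma PT.negPart {z : α → ℤ} (h : PT z) : PB fun a => (-z a).toNat :=
  (PB.ite (g := fun _ => 0) (PP.neg h) h.natAbs (PT.const _)).of_eq fun a => by
    beta_reduce; congr 1; split_ifs <;> omega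

lemma PB.diff {f g : α → ℕ} (hf : PB f) (hg : PB g) : PT fun a => (f a : ℤ) - g a :=
  (PT.pair (f := fun a => decide (f a < g a)) (PP.decide (hf.lt hg))
    ((hf.sub hg).add (hg.sub hf))).of_tree fun a => by
    change Enc.toBT (decide ((f a : ℤ) - g a < 0), ((f a : ℤ) - g a).natAbs.bits) = _
    congr 3
    · simp
    · beta_reduce; omega

@[fun_prop] lemma PT.addZ {f g : α → ℤ} (hf : PT f) (hg : PT g) : PT fun a => f a + g a :=
  ((hf.posPart.add hg.posPart).diff (hf.negPart.add hg.negPart)).of_eq fun a => by omega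

@[fun_prop] lemma PT.negZ {f : α → ℤ} (hf : PT f) : PT fun a => -f a :=
  (hf.negPart.diff hf.posPart).of_eq fun a => by omega

@[fun_prop] lemma PT.subZ {f g : α → ℤ} (hf : PT f) (hg : PT g) : PT fun a => f a - g a :=
  (hf.addZ hg.negZ).of_eq fun _ => sub_eq_add_neg _ _

@[fun_prop] lemma PT.binZ {l : α → List Bool} (h : PT l) : PT fun a => (bin (l a) : ℤ) :=
  ((PB.bin h).diff (g := fun _ => 0) (PT.const _)).of_eq fun a => by simp

@[fun_prop] lemma PP.ltZ {f g : α → ℤ} (hf : PT f) (hg : PT g) : PP fun a => f a < g a :=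
  let ⟨_, h, e⟩ := PP.neg (hf.subZ hg); ⟨_, h, fun a => by rw [← e]; omega⟩

@[fun_prop] lemma PP.leZ {f g : α → ℤ} (hf : PT f) (hg : PT g) : PP fun a => f a ≤ g a :=
  let ⟨_, h, e⟩ := (PP.ltZ hg hf).not; ⟨_, h, fun a => by rw [← e]; omega⟩

instance decInt : Dec ℤ where
  ofBT t := bif (Dec.ofBT t : Bool × List Bool).1 then -(bin (Dec.ofBT t : Bool × List Bool).2 : ℤ)
    else bin (Dec.ofBT t : Bool × List Bool).2
  ofBT_toBT z := by
    change (bif (Dec.ofBT (Enc.toBT (decide (z < 0), z.natAbs.bits)) : Bool × List Bool).1 then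
      -(bin (Dec.ofBT (Enc.toBT (decide (z < 0), z.natAbs.bits)) : Bool × List Bool).2 : ℤ)
      else bin (Dec.ofBT (Enc.toBT (decide (z < 0), z.natAbs.bits)) : Bool × List Bool).2) = z
    rw [Dec.ofBT_toBT]
    by_cases h : z < 0 <;> simp [h, bin_bits, -Nat.cast_natAbs] <;> omega
  pt := by fun_prop

lemma horner (z : ℤ) (l : List Bool) :
    l.reverse.foldl (fun c b => c + c + bif b then z else 0) 0 = z * bin l := by
  rw [foldl_reverse]
  induction l with
  | nil => simp [bin]
  | cons b l ih => rw [foldr_cons, ih]; cases b <;> simp [bin] <;> ring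

lemma PT.mulB {f : α → ℤ} {l : α → List Bool} (hf : PT f) (hl : PT l) :
    PT fun a => f a * bin (l a) := by
  obtain ⟨p, hp⟩ := hf.bound
  obtain ⟨q, hq⟩ := hl.bound
  refine (PT.foldl (f := fun a (c : ℤ) (b : Bool) => c + c + bif b then f a else 0)
    (l := fun a => (l a).reverse) (init := fun _ => 0) (by fun_prop) (by fun_prop) (by fun_prop)
    (4 * (p + q) + 5) fun a i => ?_).of_eq fun a => (horner _ _).symm
  rw [← List.reverse_reverse (List.take i _), horner]
  simp only [eval_add, eval_mul, eval_ofNat]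
  refine size_int_le ?_
  have h1 := (abs_lt_size (f a)).trans_le (pow_le_pow_right₀ one_le_two (hp a))
  have h2 := bin_lt (List.take i (l a).reverse).reverse
  have h3 := length_lt_size (l a)
  have h4 : (bin (List.take i (l a).reverse).reverse : ℤ) < 2 ^ q.eval (Cx.size a) := by
    exact_mod_cast h2.trans_le (Nat.pow_le_pow_right two_pos (by have := hq a; simp; omega))
  rw [abs_mul, pow_add, Nat.abs_cast]
  exact mul_lt_mul'' h1 h4 (abs_nonneg _) (Nat.cast_nonneg _)

@[fun_prop] lemma PT.mulZ {f g : α → ℤ} (hf : PT f) (hg : PT g) : PT fun a => f a * g a :=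
  (PP.ite (PP.neg hg) (hf.mulB hg.natAbs).negZ (hf.mulB hg.natAbs)).of_eq fun a => by
    rw [bin_bits, Int.natCast_natAbs]
    split_ifs with h
    · rw [abs_of_neg h]; ring
    · rw [abs_of_nonneg (not_lt.1 h)]

lemma prod_lt (l : List ℤ) : |l.prod| < 2 ^ size l ∧ |l.sum| < 2 ^ size l := by
  induction l with
  | nil => simp
  | cons z l ih =>
    have h := abs_lt_size z
    rw [size_cons, prod_cons, sum_cons, abs_mul, pow_succ, pow_add]
    have h1 : (1 : ℤ) ≤ 2 ^ size z := one_le_pow₀ one_le_two
    have h2 : (1 : ℤ) ≤ 2 ^ size l := one_le_pow₀ one_le_two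
    have h3 := mul_lt_mul'' h ih.1 (abs_nonneg _) (abs_nonneg _)
    exact ⟨by nlinarith, (abs_add_le _ _).trans_lt (by nlinarith [ih.2])⟩

lemma PT.sumprod {l : α → List ℤ} (hl : PT l) :
    (PT fun a => (l a).prod) ∧ PT fun a => (l a).sum := by
  obtain ⟨q, hq⟩ := hl.bound
  have h : ∀ a i, (2 : ℤ) ^ Cx.size (List.take i (l a)) ≤ 2 ^ q.eval (Cx.size a) := fun a i =>
    pow_le_pow_right₀ one_le_two ((size_le_of_sublist (take_sublist _ _)).trans (hq a))
  constructor
  · refine (PT.foldl (f := fun _ (c b : ℤ) => c * b) (init := fun _ => 1) (by fun_prop) hl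
      (by fun_prop) (4 * q + 5) fun a i => ?_).of_eq fun a => prod_eq_foldl
    rw [← prod_eq_foldl]
    simpa using size_int_le ((prod_lt _).1.trans_le (h a i))
  · refine (PT.foldl (f := fun _ (c b : ℤ) => c + b) (init := fun _ => 0) (by fun_prop) hl
      (by fun_prop) (4 * q + 5) fun a i => ?_).of_eq fun a => sum_eq_foldl
    rw [← sum_eq_foldl]
    simpa using size_int_le ((prod_lt _).2.trans_le (h a i))

@[fun_prop] lemma PT.prodZ {l : α → List ℤ} (hl : PT l) : PT fun a => (l a).prod := hl.sumprod.1

@[fun_prop] lemma PT.sumZ {l : α → List ℤ} (hl : PT l) : PT fun a => (l a).sum := hl.sumprod.2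

@[fun_prop] lemma PT.powZ {f : α → ℤ} {n : α → ℕ} (hf : PT f) (hn : PT n) : PT fun a => f a ^ n a :=
  (hn.replicate hf).prodZ.of_eq fun a => by simp

@[fun_prop] lemma PT.maxZ {f g : α → ℤ} (hf : PT f) (hg : PT g) : PT fun a => Max.max (f a) (g a) :=
  (PP.ite (PP.leZ hf hg) hg hf).of_eq fun _ => max_def _ _

end Pool.Agent.Cx
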