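import Pool.Agent.Lib.helper9.BinA

/-! Determinants of integer matrices in polynomial time (Bird's algorithm). -/

namespace Pool.Agent.Cx

open Polynomial List

variable {α β : Type} [Enc α] [Enc β]

def enz (M : List (List ℤ)) (i j : ℕ) : ℤ := (M.getD i []).getD j 0

def mkM (n : ℕ) (f : ℕ → ℕ → ℤ) : List (List ℤ) := (range n).map fun i => (range n).map fun j => f i j

def toM (n : ℕ) (M : List (List ℤ)) : Matrix (Fin n) (Fin n) ℤ := .of fun i j => enz M i j

lemma enz_mkM {n i j : ℕ} (f : ℕ → ℕ → ℤ) (hi : i < n) (hj : j < n) : enz (mkM n f) i j = f i j := by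
  simp [enz, mkM, hi, hj]

@[fun_prop] lemma PT.enz {M : α → List (List ℤ)} {i j : α → ℕ} (hM : PT M) (hi : PT i) (hj : PT j) :
    PT fun a => enz (M a) (i a) (j a) := by unfold Cx.enz; fun_prop

lemma getD_lt (l : List ℤ) (j : ℕ) : |l.getD j 0| < 2 ^ size l := by
  rcases lt_or_ge j l.length with h | h
  · rw [getD_eq_getElem _ _ h]
    exact (abs_lt_size _).trans (pow_lt_pow_right₀ one_lt_two (size_lt_of_mem (getElem_mem h)))
  · rw [getD_eq_default _ _ h]; simp

lemma enz_lt (M : List (List ℤ)) (i j : ℕ) : |enz M i j| < 2 ^ size M := by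
  rcases lt_or_ge i M.length with h | h
  · rw [enz, getD_eq_getElem _ _ h]
    exact (getD_lt _ _).trans (pow_lt_pow_right₀ one_lt_two (size_lt_of_mem (getElem_mem h)))
  · rw [enz, getD_eq_default _ _ h]; simp

def sf (n lo : ℕ) (f : ℕ → ℤ) : ℤ := ((range' lo (n - lo)).map f).sum

lemma sf_eq (n lo : ℕ) (f g : ℕ → ℤ) (h : ∀ k < n, f k = g k) : sf n lo f = BirdDet.sumFrom n lo g := by
  induction lo using BirdDet.sumFrom_induct n with
  | step lo hl ih =>
    rw [BirdDet.sumFrom_step _ _ _ hl, ← ih, sf, sf, show n - lo = n - (lo + 1) + 1 by omega,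
      range'_succ, map_cons, sum_cons, h lo hl]
  | stop lo hl => simp [BirdDet.sumFrom_stop _ _ _ hl, sf, show n - lo = 0 by omega]

lemma sf_le (n lo : ℕ) (f : ℕ → ℤ) (B : ℤ) (hB : 0 ≤ B) (h : ∀ k < n, |f k| ≤ B) : |sf n lo f| ≤ n * B := by
  have : ∀ l : List ℕ, (∀ k ∈ l, k < n) → |(l.map f).sum| ≤ l.length * B := fun l hl => by
    induction l with
    | nil => simp
    | cons k l ih =>
      have := h k (hl k (by simp))
      have := ih fun x hx => hl x (by simp [hx])
      have := abs_add_le (f k) (l.map f).sum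
      simp only [map_cons, sum_cons, length_cons]; push_cast; linarith
  refine (this _ fun k hk => by simp at hk; omega).trans ?_
  gcongr; simp

def stp (n : ℕ) (M F : List (List ℤ)) : List (List ℤ) := mkM n fun i j =>
  -(sf n (i + 1) fun k => enz F k k) * enz M i j + sf n (i + 1) fun k => enz F i k * enz M k j

lemma det_eq (n : ℕ) (M : List (List ℤ)) : (toM n M).det =
    if n = 0 then 1 else (-1) ^ (n - 1) * enz ((stp n M)^[n - 1] (mkM n (enz M))) 0 0 := by
  rcases n with _ | n
  · simp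
  set A : Array ℤ := Array.ofFn fun k : Fin ((n + 1) * (n + 1)) => toM (n + 1) M k.divNat k.modNat
  have g : ∀ i < n + 1, ∀ j < n + 1, BirdDet.get (n + 1) A i j = enz M i j := fun i hi j hj => by
    have : (n + 1) * i + j < (n + 1) * (n + 1) := by nlinarith
    rw [BirdDet.get_eq, Array.getD_eq_getD_getElem?, Array.getElem?_eq_getElem (by simpa [A])]
    simp [A, toM, Fin.divNat, Fin.modNat, Nat.mul_add_div, Nat.div_eq_of_lt hj, Nat.mod_eq_of_lt hj]
  have e : ∀ t, ∀ i < n + 1, ∀ j < n + 1, enz ((stp (n + 1) M)^[t] (mkM (n + 1) (enz M))) i j =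
      (BirdDet.stepEntry (n + 1) A)^[t] (BirdDet.get (n + 1) A) i j := fun t => by
    induction t with
    | zero => exact fun i hi j hj => (enz_mkM _ hi hj).trans (g i hi j hj).symm
    | succ t ih =>
      intro i hi j hj
      rw [Function.iterate_succ_apply', Function.iterate_succ_apply', stp, enz_mkM _ hi hj,
        BirdDet.stepEntry_eq, g i hi j hj, sf_eq _ _ _ _ fun k hk => ih k hk k hk,
        sf_eq _ _ _ _ fun k hk => by rw [ih i hi k hk, ← g k hk j hj]]
  have := BirdDet.det_eq_birdDet (n := n + 1) A (by simp [A])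
  rw [Matrix.ofArray_ofFn] at this
  rw [this, BirdDet.birdDet_succ, if_neg n.succ_ne_zero, Nat.add_sub_cancel,
    e _ _ n.succ_pos _ n.succ_pos]

lemma size_mkM {n k : ℕ} {f : ℕ → ℕ → ℤ} (h : ∀ i < n, ∀ j < n, |f i j| < 2 ^ k) :
    size (mkM n f) ≤ n * (n * (4 * k + 5 + 1) + 1 + 1) + 1 := by
  refine (size_list_le _ (n * (4 * k + 5 + 1) + 1) fun r hr => ?_).trans (by simp [mkM])
  obtain ⟨i, hi, rfl⟩ := mem_map.1 hr
  refine (size_list_le _ (4 * k + 5) fun z hz => ?_).trans (by simp)
  obtain ⟨j, hj, rfl⟩ := mem_map.1 hz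
  exact size_int_le (h i (mem_range.1 hi) j (mem_range.1 hj))

lemma stp_bound (n : ℕ) (M : List (List ℤ)) (t : ℕ) :
    ∃ f, (stp n M)^[t] (mkM n (enz M)) = mkM n f ∧
      ∀ i < n, ∀ j < n, |f i j| < 2 ^ ((t + 1) * (n + 1 + size M)) := by
  have hM := enz_lt M
  induction t with
  | zero => exact ⟨_, rfl, fun i _ j _ => (hM i j).trans_le (pow_le_pow_right₀ one_le_two (by omega))⟩
  | succ t ih =>
    obtain ⟨f, e, h⟩ := ih
    rw [Function.iterate_succ_apply', e]
    refine ⟨_, rfl, fun i hi j hj => ?_⟩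
    set B : ℤ := 2 ^ ((t + 1) * (n + 1 + size M))
    set C : ℤ := 2 ^ size M
    have hB : 0 < B := by positivity
    have hC : 0 < C := by positivity
    have h1 := sf_le n (i + 1) (fun k => enz (mkM n f) k k) B hB.le fun k hk => by
      rw [enz_mkM _ hk hk]; exact (h k hk k hk).le
    have h2 := sf_le n (i + 1) (fun k => enz (mkM n f) i k * enz M k j) (B * C) (by positivity)
      fun k hk => by
        rw [enz_mkM _ hi hk, abs_mul]
        exact mul_le_mul (h i hi k hk).le (hM k j).le (abs_nonneg _) hB.le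
    have h3 : (n : ℤ) < 2 ^ n := by exact_mod_cast Nat.lt_two_pow_self
    have h4 := mul_le_mul h1 (hM i j).le (abs_nonneg _) (by positivity)
    refine (abs_add_le _ _).trans_lt ?_
    rw [abs_mul, abs_neg, add_mul (t + 1) 1, one_mul, pow_add, pow_add, pow_succ]
    have h5 := mul_lt_mul_of_pos_right h3 (mul_pos hB hC)
    nlinarith

@[fun_prop] lemma PT.det {n : α → ℕ} {M : α → List (List ℤ)} (hn : PT n) (hM : PT M) :
    PT fun a => (toM (n a) (M a)).det := by
  obtain ⟨p, hp⟩ := hn.bound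
  obtain ⟨q, hq⟩ := hM.bound
  have h : PT fun a => (stp (n a) (M a))^[n a - 1] (mkM (n a) (Cx.enz (M a))) := by
    refine PT.iterate (by unfold stp mkM sf; fun_prop) (by fun_prop) (by unfold mkM; fun_prop)
      (p * (p * (4 * ((p + 1) * (p + 1 + q)) + 5 + 1) + 1 + 1) + 1) fun a i hi => ?_
    obtain ⟨f, e, h⟩ := stp_bound (n a) (M a) i
    have h1 := hp a
    have h2 := hq a
    rw [size_nat] at h1
    rw [e]
    refine (size_mkM h).trans ?_
    simp only [eval_add, eval_mul, eval_one, eval_ofNat]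
    gcongr <;> omega
  exact (PP.ite (c := fun a => n a = 0) (by fun_prop) (PT.const 1) (by fun_prop)).of_eq
    fun a => det_eq _ _

end Pool.Agent.Cx
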