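import Pool.Agent.Lib.helper9.Planch

set_option autoImplicit false

namespace Pool.Agent.H9Cov

open MeasureTheory FourierTransform Real Set Filter Topology ProbabilityTheory
open scoped RealInnerProductSpace Convolution Pointwise

variable {V : Type*} [NormedAddCommGroup V] [InnerProductSpace ℝ V] [FiniteDimensional ℝ V]
  [MeasurableSpace V] [BorelSpace V]

/-- exponentially weighted indicator -/
noncomputable def ph (K : Set V) (s : V) : V → ℂ :=
  K.indicator fun x => ((Real.exp ⟪s, x⟫ : ℝ) : ℂ)

/-- real Laplace transform of the indicator -/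
noncomputable def Lap (K : Set V) (s : V) : ℝ := ∫ x in K, Real.exp ⟪s, x⟫

lemma ph_memLp {K : Set V} (hK : IsCompact K) (s : V) (p : ENNReal) : MemLp (ph K s) p := by
  unfold ph
  rw [memLp_indicator_iff_restrict hK.measurableSet]
  have : IsFiniteMeasure (volume.restrict K) := ⟨by simpa using hK.measure_lt_top⟩
  have hc : Continuous fun x : V => ((Real.exp ⟪s, x⟫ : ℝ) : ℂ) := by fun_prop
  obtain ⟨B, hB⟩ := hK.exists_bound_of_continuousOn hc.continuousOn
  refine MemLp.of_bound hc.aestronglyMeasurable B ?_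
  exact (ae_restrict_iff' hK.measurableSet).2 (Eventually.of_forall hB)

lemma ph_int {K : Set V} (hK : IsCompact K) (s : V) : Integrable (ph K s) :=
  memLp_one_iff_integrable.1 (ph_memLp hK s 1)

lemma ph_sq {K : Set V} (hK : IsCompact K) (s : V) :
    ∫ x, ‖ph K s x‖ ^ 2 = Lap K ((2 : ℝ) • s) := by
  unfold Lap
  rw [← integral_indicator hK.measurableSet]
  congr 1
  ext x
  by_cases hx : x ∈ K
  · simp only [ph, indicator_of_mem hx, Complex.norm_real, Real.norm_eq_abs, Real.abs_exp,
      real_inner_smul_left]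
    rw [← Real.exp_nat_mul]; norm_num
  · simp [ph, hx]

lemma ph_zero {K : Set V} (hK : IsCompact K) (s : V) : 𝓕 (ph K s) 0 = (Lap K s : ℂ) := by
  rw [Real.fourier_eq]
  simp only [inner_zero_right, neg_zero, AddChar.map_zero_eq_one, one_smul]
  unfold ph Lap
  rw [integral_indicator hK.measurableSet, integral_complex_ofReal]

lemma Lap_neg {K : Set V} (s : V) : Lap (-K) s = Lap K (-s) := by
  unfold Lap
  have := (Measure.measurePreserving_neg (volume : Measure V)).setIntegral_preimage_emb
    (MeasurableEquiv.neg V).measurableEmbedding (fun x => Real.exp ⟪-s, x⟫) K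
  rw [← this]
  simp only [inner_neg_left, inner_neg_right, neg_neg]
  rfl

lemma ph_conv {K : Set V} (hK : IsCompact K) (s x : V) :
    (ph K s ⋆[ContinuousLinearMap.mul ℂ ℂ] ph (-K) s) x =
      ((Real.exp ⟪s, x⟫ : ℝ) : ℂ) * ((volume (K ∩ ((fun y => y + x) '' K))).toReal : ℂ) := by
  have hm : MeasurableSet (K ∩ ((fun y => y + x) '' K)) :=
    hK.measurableSet.inter (hK.image (by fun_prop)).measurableSet
  rw [convolution_def]
  have : (fun t => (ContinuousLinearMap.mul ℂ ℂ (ph K s t)) (ph (-K) s (x - t))) =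
      (K ∩ ((fun y => y + x) '' K)).indicator fun _ => ((Real.exp ⟪s, x⟫ : ℝ) : ℂ) := by
    ext t
    have e : t ∈ (fun y => y + x) '' K ↔ x - t ∈ -K := by
      simp only [mem_image, Set.mem_neg, neg_sub]
      constructor
      · rintro ⟨y, hy, rfl⟩; simpa using hy
      · intro h; exact ⟨t - x, h, by simp⟩
    by_cases h1 : t ∈ K
    · by_cases h2 : x - t ∈ -K
      · rw [indicator_of_mem (show t ∈ K ∩ _ from ⟨h1, e.2 h2⟩)]
        simp only [ph, indicator_of_mem h1, indicator_of_mem h2, ContinuousLinearMap.mul_apply']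
        rw [← Complex.ofReal_mul, ← Real.exp_add, ← inner_add_right]; simp
      · rw [indicator_of_notMem (fun h => h2 (e.1 h.2))]
        simp [ph, indicator_of_notMem h2]
    · rw [indicator_of_notMem (fun h => h1 h.1)]
      simp [ph, indicator_of_notMem h1]
  rw [this, integral_indicator hm, setIntegral_const]
  simp [Measure.real, mul_comm]

lemma Lap_pos {K : Set V} (hK : IsCompact K) (h0 : volume K ≠ 0) (s : V) : 0 < Lap K s := by
  unfold Lap
  have hc : Continuous fun x : V => Real.exp ⟪s, x⟫ := by fun_prop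
  rw [setIntegral_pos_iff_support_of_nonneg_ae (Eventually.of_forall fun x => (Real.exp_pos _).le)
    (hc.continuousOn.integrableOn_compact hK)]
  have : Function.support (fun x : V => Real.exp ⟪s, x⟫) = univ := by
    ext x; simp [(Real.exp_pos _).ne']
  rw [this, univ_inter]
  exact pos_iff_ne_zero.2 h0

section main

variable {C D : Set V} (hC : IsCompact C) (hD : IsCompact D) (hs : -C = C)
  (hcov : ∀ x : V, volume (D ∩ ((fun y => y + x) '' D)) = volume (C ∩ ((fun y => y + x) '' C)))

include hC hD hs hcov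

lemma four_mul (s t : V) : 𝓕 (ph D s) t * 𝓕 (ph (-D) s) t = 𝓕 (ph C s) t * 𝓕 (ph C s) t := by
  have h1 := Real.fourier_mul_convolution_eq (ph_int hD s) (ph_int hD.neg s) t
  have h2 := Real.fourier_mul_convolution_eq (ph_int hC s) (ph_int hC.neg s) t
  have : (ph D s ⋆[ContinuousLinearMap.mul ℂ ℂ] ph (-D) s) =
      (ph C s ⋆[ContinuousLinearMap.mul ℂ ℂ] ph (-C) s) := by
    ext x; rw [ph_conv hD, ph_conv hC, hcov]
  rw [← h1, this, h2, hs]

lemma lap_mul (s : V) : Lap D s * Lap D (-s) = Lap C s ^ 2 := by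
  have := four_mul hC hD hs hcov s 0
  rw [ph_zero hD, ph_zero hD.neg, ph_zero hC, Lap_neg] at this
  rw [sq]; exact_mod_cast this

lemma lap_double (h0 : volume D ≠ 0) (h0' : volume C ≠ 0) (s : V) :
    Lap D (-((2 : ℝ) • s)) * Lap D s ^ 2 = Lap D ((2 : ℝ) • s) * Lap D (-s) ^ 2 := by
  obtain ⟨ma, pa⟩ := plancherel (ph_int hD s) (ph_memLp hD s 2)
  obtain ⟨mb, pb⟩ := plancherel (ph_int hD.neg s) (ph_memLp hD.neg s 2)
  obtain ⟨mc, pc⟩ := plancherel (ph_int hC s) (ph_memLp hC s 2)
  rw [ph_sq hD] at pa
  rw [ph_sq hD.neg, Lap_neg] at pb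
  rw [ph_sq hC] at pc
  set A := Lap D ((2 : ℝ) • s) with hA
  set B := Lap D (-((2 : ℝ) • s)) with hB
  set G := Lap C ((2 : ℝ) • s) with hG
  have hAp : 0 < A := Lap_pos hD h0 _
  have hBp : 0 < B := Lap_pos hD h0 _
  have hGp : 0 < G := Lap_pos hC h0' _
  have hABG : A * B = G ^ 2 := lap_mul hC hD hs hcov _
  set a := 𝓕 (ph D s)
  set b := 𝓕 (ph (-D) s)
  set c := 𝓕 (ph C s)
  have ia : Integrable fun x => ‖a x‖ ^ 2 := (memLp_two_iff_integrable_sq_norm ma.1).1 ma
  have ib : Integrable fun x => ‖b x‖ ^ 2 := (memLp_two_iff_integrable_sq_norm mb.1).1 mb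
  have ic : Integrable fun x => ‖c x‖ ^ 2 := (memLp_two_iff_integrable_sq_norm mc.1).1 mc
  have hab : ∀ x, ‖a x‖ * ‖b x‖ = ‖c x‖ ^ 2 := fun x => by
    rw [← norm_mul, four_mul hC hD hs hcov s x, norm_mul, sq]
  -- w = (B |a| - G |b|)^2
  set w : V → ℝ := fun x => (B * ‖a x‖ - G * ‖b x‖) ^ 2 with hw
  have hw' : w = fun x => B ^ 2 * ‖a x‖ ^ 2 + G ^ 2 * ‖b x‖ ^ 2 - 2 * B * G * ‖c x‖ ^ 2 := by
    ext x; simp only [hw]; rw [← hab]; ring
  have iw : Integrable w := by
    rw [hw']; exact ((ia.const_mul _).add (ib.const_mul _)).sub (ic.const_mul _)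
  have hw0 : ∫ x, w x = 0 := by
    have i1 : Integrable fun x => B ^ 2 * ‖a x‖ ^ 2 + G ^ 2 * ‖b x‖ ^ 2 :=
      (ia.const_mul _).add (ib.const_mul _)
    rw [hw']
    simp only []
    rw [integral_sub i1 (ic.const_mul _),
      integral_add (ia.const_mul _) (ib.const_mul _), integral_const_mul, integral_const_mul,
      integral_const_mul, pa, pb, pc]
    linear_combination B * hABG
  have cw : Continuous w := by
    have ca := fourier_cont (ph_int hD s)
    have cb := fourier_cont (ph_int hD.neg s)
    simp only [hw]; fun_prop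
  have hz : w = 0 := by
    have := (integral_eq_zero_iff_of_nonneg (fun x => sq_nonneg _) iw).1 hw0
    exact (cw.ae_eq_iff_eq volume continuous_zero).1 this
  have h00 := congrFun hz 0
  simp only [hw, a, b, ph_zero hD, ph_zero hD.neg, Lap_neg, Pi.zero_apply, Complex.norm_real,
    Real.norm_eq_abs, abs_of_pos (Lap_pos hD h0 _)] at h00
  have h1 : B * Lap D s = G * Lap D (-s) := by
    have := pow_eq_zero_iff (two_ne_zero) |>.1 h00
    linarith
  have h2 : B * (B * Lap D s ^ 2) = B * (A * Lap D (-s) ^ 2) := by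
    have : (B * Lap D s) ^ 2 = (G * Lap D (-s)) ^ 2 := by rw [h1]
    linear_combination this - Lap D (-s) ^ 2 * hABG
  exact mul_left_cancel₀ hBp.ne' h2

end main

lemma expset {K : Set V} (hK : IsCompact K) (s : V) :
    integrableExpSet (fun x => ⟪s, x⟫) (volume.restrict K) = univ := by
  ext t
  simp only [integrableExpSet, mem_ofPred_eq, mem_univ, iff_true]
  have hc : Continuous fun x : V => Real.exp (t * ⟪s, x⟫) := by fun_prop
  exact hc.continuousOn.integrableOn_compact hK

lemma mgf_eq (K : Set V) (s : V) (t : ℝ) :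
    mgf (fun x => ⟪s, x⟫) (volume.restrict K) t = Lap K (t • s) := by
  simp [mgf, Lap, real_inner_smul_left]

lemma lin_of_double {ψ : ℝ → ℝ} {d : ℝ} (h0 : ψ 0 = 0) (hd : HasDerivAt ψ d 0)
    (h2 : ∀ t, ψ (2 * t) = 2 * ψ t) : ψ 1 = d := by
  have hk : ∀ k : ℕ, ψ ((1 / 2) ^ k) = (1 / 2) ^ k * ψ 1 := by
    intro k
    induction k with
    | zero => simp
    | succ k ih =>
      have := h2 ((1 / 2) ^ (k + 1))
      rw [show (2 : ℝ) * (1 / 2) ^ (k + 1) = (1 / 2) ^ k by ring, ih] at this
      rw [pow_succ ((1 : ℝ) / 2) k] at this ⊢; linarith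
  have ht := hasDerivAt_iff_tendsto_slope_zero.1 hd
  have hs : Tendsto (fun k : ℕ => ((1 : ℝ) / 2) ^ k) atTop (𝓝[≠] 0) := by
    rw [tendsto_nhdsWithin_iff]
    exact ⟨tendsto_pow_atTop_nhds_zero_of_lt_one (by norm_num) (by norm_num),
      Eventually.of_forall fun k => by simp⟩
  have := ht.comp hs
  have e : ((fun t : ℝ => t⁻¹ • (ψ (0 + t) - ψ 0)) ∘ fun k : ℕ => ((1 : ℝ) / 2) ^ k) =
      fun _ => ψ 1 := by
    ext k
    simp only [Function.comp, zero_add, h0, sub_zero, hk, smul_eq_mul]
    have : ((1 : ℝ) / 2) ^ k ≠ 0 := by positivity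
    field_simp
  rw [e] at this
  exact tendsto_nhds_unique tendsto_const_nhds this

lemma restrict_eq {K L : Set V} (hK : IsCompact K) (hL : IsCompact L) (hK0 : volume K ≠ 0)
    (hL0 : volume L ≠ 0) (h : ∀ s, Lap K s = Lap L s) :
    (volume : Measure V).restrict K = volume.restrict L := by
  have : IsFiniteMeasure (volume.restrict K) := ⟨by simpa using hK.measure_lt_top⟩
  have : IsFiniteMeasure (volume.restrict L) := ⟨by simpa using hL.measure_lt_top⟩
  apply Measure.ext_of_charFun
  ext t
  have hm : mgf (fun x => ⟪t, x⟫) (volume.restrict K) =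
      mgf (fun x => ⟪t, x⟫) (volume.restrict L) := by
    ext r; rw [mgf_eq, mgf_eq, h]
  have := eqOn_complexMGF_of_mgf' hm (by simp [hK0, hL0]) (x := Complex.I)
    (by simp [expset hK])
  simp only [complexMGF] at this
  simp only [charFun_apply]
  convert this using 4 <;> rw [real_inner_comm, mul_comm]

lemma sub_of_restrict {K L : Set V} (hK : closure (interior K) = K) (hL : IsClosed L)
    (h : (volume : Measure V).restrict K = volume.restrict L) : K ⊆ L := by
  rw [← hK]
  apply closure_minimal _ hL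
  have ho : IsOpen (interior K \ L) := isOpen_interior.sdiff hL
  have h1 : (volume : Measure V).restrict L (interior K \ L) = 0 := by
    rw [Measure.restrict_apply ho.measurableSet]; simp
  rw [← h, Measure.restrict_apply ho.measurableSet,
    inter_eq_left.2 (sdiff_subset.trans interior_subset)] at h1
  have := (ho.measure_eq_zero_iff volume).1 h1
  exact sdiff_eq_empty.1 this

lemma Lap_add {K : Set V} (s a : V) :
    Lap ((fun y => y + a) '' K) s = Real.exp ⟪s, a⟫ * Lap K s := by
  unfold Lap
  have := (measurePreserving_add_right (volume : Measure V) a).setIntegral_image_emb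
    (MeasurableEquiv.addRight a).measurableEmbedding (fun x => Real.exp ⟪s, x⟫) K
  rw [this, ← integral_const_mul]
  congr 1; ext x
  rw [inner_add_right, Real.exp_add, mul_comm]

theorem centered {C D : Set V} (hC : IsCompact C) (hD : IsCompact D) (hs : -C = C)
    (hC' : closure (interior C) = C) (hD' : closure (interior D) = D)
    (hcov : ∀ x : V, volume (D ∩ ((fun y => y + x) '' D)) = volume (C ∩ ((fun y => y + x) '' C))) :
    ∃ t : V, D = (fun y => y + t) '' C := by
  have hv : volume D = volume C := by simpa using hcov 0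
  have hem : ∀ K : Set V, closure (interior K) = K → volume K = 0 → K = ∅ := by
    intro K hK h
    have : interior K = ∅ := (isOpen_interior.measure_eq_zero_iff volume).1
      (measure_mono_null interior_subset h)
    rw [← hK, this, closure_empty]
  by_cases h0 : volume D = 0
  · refine ⟨0, ?_⟩
    rw [hem D hD' h0, hem C hC' (hv ▸ h0)]; simp
  have h0' : volume C ≠ 0 := hv ▸ h0
  set a : V := (Lap D 0)⁻¹ • ∫ x in D, x with ha
  have hF : ∀ s, Lap D s = Real.exp ⟪s, a⟫ * Lap C s := by
    intro s
    have hd : HasDerivAt (fun t : ℝ => Lap D (t • s)) ⟪s, ∫ x in D, x⟫ 0 := by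
      have := hasDerivAt_mgf (X := fun x => ⟪s, x⟫) (μ := volume.restrict D) (t := 0)
        (by simp [expset hD])
      have e : mgf (fun x => ⟪s, x⟫) (volume.restrict D) = fun t : ℝ => Lap D (t • s) :=
        funext (mgf_eq D s)
      rw [e] at this
      convert this using 1
      simp only [zero_mul, Real.exp_zero, mul_one]
      exact (integral_inner (continuous_id.continuousOn.integrableOn_compact hD) s).symm
    have hp0 := Lap_pos hD h0 0
    have hd1 := hd.log (by simpa using hp0.ne')
    have hd2 : HasDerivAt (fun t : ℝ => Real.log (Lap D ((-t) • s)))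
        (-(⟪s, ∫ x in D, x⟫ / Lap D ((0 : ℝ) • s))) 0 := by
      have h1 : HasDerivAt (fun t : ℝ => Real.log (Lap D (t • s)))
        (⟪s, ∫ x in D, x⟫ / Lap D ((0 : ℝ) • s)) (-0) := by simpa using hd1
      simpa [Function.comp_def] using h1.comp (0 : ℝ) (hasDerivAt_neg (0 : ℝ))
    have hl := lin_of_double (ψ := fun t : ℝ => Real.log (Lap D (t • s)) -
      Real.log (Lap D ((-t) • s))) (by simp) (hd1.sub hd2) (by
        intro t
        have := lap_double hC hD hs hcov h0 h0' (t • s)
        have p1 := Lap_pos hD h0 (-((2 : ℝ) • t • s))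
        have p2 := Lap_pos hD h0 ((2 : ℝ) • t • s)
        have p3 := Lap_pos hD h0 (t • s)
        have p4 := Lap_pos hD h0 (-(t • s))
        have := congrArg Real.log this
        rw [Real.log_mul p1.ne' (by positivity), Real.log_mul p2.ne' (by positivity),
          Real.log_pow, Real.log_pow] at this
        simp only [neg_smul, mul_smul]
        push_cast at this
        linarith)
    simp only [one_smul, neg_smul, zero_smul] at hl
    have hsa : ⟪s, a⟫ = ⟪s, ∫ x in D, x⟫ / Lap D 0 := by
      rw [ha, real_inner_smul_right]; ring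
    rw [← hsa] at hl
    have p3 := Lap_pos hD h0 s
    have p4 := Lap_pos hD h0 (-s)
    have p5 := Lap_pos hC h0' s
    have hm := congrArg Real.log (lap_mul hC hD hs hcov s)
    rw [Real.log_mul p3.ne' p4.ne', Real.log_pow] at hm
    push_cast at hm
    rw [← Real.exp_log p3, ← Real.exp_log p5, ← Real.exp_add]
    congr 1
    linarith
  refine ⟨a, ?_⟩
  have hCa : IsCompact ((fun y => y + a) '' C) := hC.image (by fun_prop)
  have hCa' : closure (interior ((fun y => y + a) '' C)) = (fun y => y + a) '' C := by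
    have e : (fun y : V => y + a) = Homeomorph.addRight a := rfl
    rw [e, ← Homeomorph.image_interior, ← Homeomorph.image_closure, hC']
  have hCa0 : volume ((fun y => y + a) '' C) ≠ 0 := by
    rw [image_add_right, measure_preimage_add_right]; exact h0'
  have hr := restrict_eq hD hCa h0 hCa0 (fun s => by rw [hF, Lap_add])
  exact (sub_of_restrict hD' hCa.isClosed hr).antisymm (sub_of_restrict hCa' hD.isClosed hr.symm)

theorem general {C D : Set V} (hC : IsCompact C) (hC' : closure (interior C) = C)
    (hs : ∃ c : V, ∀ x ∈ C, (2 : ℝ) • c - x ∈ C)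
    (hD : IsCompact D) (hD' : closure (interior D) = D)
    (hcov : ∀ x : V, volume (D ∩ ((fun y => y + x) '' D)) = volume (C ∩ ((fun y => y + x) '' C))) :
    ∃ t : V, D = (fun y => y + t) '' C := by
  obtain ⟨c, hc⟩ := hs
  set C0 : Set V := (fun y => y + -c) '' C with hC0
  have hm : ∀ y, y ∈ C0 ↔ y + c ∈ C := by
    intro y; simp [hC0]
  obtain ⟨t, ht⟩ := centered (C := C0) (D := D) (hC.image (by fun_prop)) hD
    (by
      ext y
      rw [Set.mem_neg, hm, hm]
      constructor
      · intro h; convert hc _ h using 1; rw [two_smul]; abel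
      · intro h; convert hc _ h using 1; rw [two_smul]; abel)
    (by
      have e : (fun y : V => y + -c) = Homeomorph.addRight (-c) := rfl
      rw [hC0, e, ← Homeomorph.image_interior, ← Homeomorph.image_closure, hC'])
    hD' (by
      intro x
      rw [hcov, ← measure_preimage_add_right volume c (C ∩ _)]
      congr 1
      ext y
      simp only [mem_preimage, mem_inter_iff, image_add_right, hm]
      rw [show y + c + -x = y + -x + c by abel])
  refine ⟨-c + t, ?_⟩
  rw [ht, hC0, image_image]
  simp only [add_assoc]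

end Pool.Agent.H9Cov
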