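import Pool.Agent.Lib.helper10.NPGraph

/-! Digraphs given by adjacency matrices. -/

namespace Pool.Agent.Cx

/-- `M` is a square 0-1 matrix with zero diagonal -/
def IsDi (M : List (List Bool)) : Prop := (∀ r ∈ M, r.length = M.length) ∧ ∀ i, ¬ Entry M i i

end Pool.Agent.Cx
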