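import Pool.Agent.Lib.helper9.DiDefs
import Pool.Agent.Lib.helper10.Clo

/-! Digraphs on explicit lists, reachability in polynomial time, matrices as certificates. -/

namespace Pool.Agent.Cx

open Relation

lemma di_kit {β : Type} (E : List β) (r : β → β → Prop) [DecidableRel r]
    (ir : ∀ p, ¬ r p p) (nd : E.Nodup) {M : List (List Bool)}
    (hM : M = mat E fun p q => decide (r p q)) : IsDi M ∧ ∃ f : Fin M.length → β,
      (∀ a b : Fin M.length, Entry M a b ↔ r (f a) (f b)) ∧ (∀ p, (∃ a, f a = p) ↔ p ∈ E) ∧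
      f.Injective := by
  subst hM
  have l : ∀ a : Fin (mat E fun p q => decide (r p q)).length, a.1 < E.length := fun a => by
    simpa using a.2
  refine ⟨⟨mat_row _ _, fun i h => ?_⟩, fun i => E[i.1]'(l i), fun a b => ?_,
    fun p => ⟨fun ⟨i, e⟩ => e ▸ List.getElem_mem _, fun h =>
      let ⟨i, hi, e⟩ := List.getElem_of_mem h; ⟨⟨i, by simpa using hi⟩, e⟩⟩,
    fun a b e => Fin.ext (nd.getElem_inj_iff.1 e)⟩
  · obtain ⟨_, _, h⟩ := (mat_get _ _ i i).1 h
    exact ir _ (by simpa using h)
  · simp only [Entry, mat_get, l a, l b, exists_true_left, decide_eq_true_eq]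

lemma pp_isDi : PP IsDi := by
  have : IsDi = fun M => (¬ ∃ r ∈ M, r.length ≠ M.length) ∧ ¬ ∃ i < M.length, ent M i i = true := by
    ext M
    unfold IsDi Entry ent
    push Not
    refine and_congr_right fun _ => ⟨fun g i _ => g i, fun g i e => ?_⟩
    by_cases hi : i < M.length
    · exact g i hi e
    · rw [List.getD_eq_default M _ (by omega)] at e
      simp at e
  rw [this]; fun_prop

/-- reachability inside `{0, ..., n-1}` -/
def Rch (n : ℕ) (r : ℕ → ℕ → Prop) (x y : ℕ) : Prop :=
  ReflTransGen (fun i j => i < n ∧ j < n ∧ r i j) x y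

lemma PP.rch {α : Type} [Enc α] {n x y : α → ℕ} {r : α → ℕ → ℕ → Prop} (hn : PT n) (hx : PT x)
    (hy : PT y) (hr : PP fun p : α × ℕ × ℕ => r p.1 p.2.1 p.2.2) :
    PP fun a => Rch (n a) (r a) (x a) (y a) := by
  classical
  have h : PT fun a => Cx.clo (n a) (fun D j => Decidable.decide (j ∈ D ∨ ∃ i ∈ D, i < n a ∧ r a i j))
      [x a] := by
    refine PT.clo hn (PP.decide (PP.or (by fun_prop) (PP.bex (PP.and (by fun_prop) ?_) (by fun_prop))))
      (by fun_prop)
    exact PP.comp (f := fun p : ((α × List ℕ) × ℕ) × ℕ => (p.1.1.1, p.2, p.1.2)) hr (by fun_prop)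
  have : (fun a => Rch (n a) (r a) (x a) (y a)) = fun a => x a = y a ∨ y a ∈ Cx.clo (n a)
      (fun D j => Decidable.decide (j ∈ D ∨ ∃ i ∈ D, i < n a ∧ r a i j)) [x a] := by
    ext a
    constructor
    · intro g
      unfold Rch at g
      generalize y a = z at g
      induction g with
      | refl => exact Or.inl rfl
      | tail _ e ih =>
        refine Or.inr (clo_fix (by simp +contextual) _ e.2.1 (decide_eq_true (Or.inr ⟨_, ?_, e.1, e.2.2⟩)))
        rcases ih with rfl | ih
        · exact sub_clo (by simp +contextual) _ (by simp) e.1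
        · exact ih
    · rintro (g | g)
      · rw [g]; exact .refl
      · refine clo_ind (P := Rch (n a) (r a) (x a)) _ (by simp [Rch, ReflTransGen.refl])
          (fun E hE j hj e => ?_) _ g
        rcases of_decide_eq_true e with e | ⟨i, i1, i2, i3⟩
        · exact hE _ e
        · exact (hE _ i1).tail ⟨i2, hj, i3⟩
  rw [this]; fun_prop

lemma rch_iff {n : ℕ} {r : ℕ → ℕ → Prop} (x y : Fin n) :
    ReflTransGen (fun i j : Fin n => r i j) x y ↔ Rch n r x y := by
  refine ⟨fun h => ?_, fun h => ?_⟩
  · induction h with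
    | refl => exact .refl
    | @tail a b _ e ih => exact ih.tail ⟨a.2, b.2, e⟩
  suffices ∀ z, Rch n r x z → ∀ y : Fin n, z = y → ReflTransGen (fun i j : Fin n => r i j) x y from
    this _ h y rfl
  intro z h
  induction h with
  | refl => exact fun y e => Fin.ext e ▸ .refl
  | tail _ e ih => rintro y rfl; exact (ih ⟨_, e.1⟩ rfl).tail e.2.2

lemma exists_mat {n : ℕ} (A : Fin n → Fin n → Prop) :
    ∃ M : List (List Bool), size M ≤ n * (4 * n + 2) + 1 ∧ ∀ x y : Fin n, A x y ↔ ent M x y = true := by
  classical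
  refine ⟨mat (List.finRange n) fun x y => decide (A x y), ?_, fun x y => ?_⟩
  · have := size_list_le (mat (List.finRange n) fun x y => decide (A x y)) (4 * n + 1) fun r hr => by
      have := size_list_le r 3 fun b _ => size_bool b
      rw [mat_row _ _ r hr, mat_length, List.length_finRange] at this
      omega
    simpa using this
  · rw [ent, mat_get]; simp

end Pool.Agent.Cx
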