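import Mathlib

set_option autoImplicit false
set_option linter.unusedSectionVars false

namespace Pool.Agent.Lib.helper9.Doig

open Submodule Finset

variable {W : Type} [AddCommGroup W] [Module ℝ W] [DecidableEq W]

theorem duals (T : Finset W) (hT : LinearIndepOn ℝ id (T : Set W)) :
    ∃ f : W → (W →ₗ[ℝ] ℝ), (∀ t ∈ T, ∀ s ∈ T, f t s = if s = t then 1 else 0) ∧
      ∀ v ∈ span ℝ (T : Set W), v = ∑ s ∈ T, f s v • s := by
  classical
  let b := Module.Basis.extend hT
  let f : W → (W →ₗ[ℝ] ℝ) := fun t =>
    if h : t ∈ T then b.coord ⟨t, hT.subset_extend _ (by exact_mod_cast h)⟩ else 0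
  have h1 : ∀ t ∈ T, ∀ s ∈ T, f t s = if s = t then 1 else 0 := by
    intro t ht s hs
    have hs' : s = b ⟨s, hT.subset_extend _ (by exact_mod_cast hs)⟩ :=
      (Module.Basis.extend_apply_self hT ⟨s, hT.subset_extend _ (by exact_mod_cast hs)⟩).symm
    simp only [f, dif_pos ht]
    rw [hs', Module.Basis.coord_apply, Module.Basis.repr_self, Finsupp.single_apply]
    rw [← hs']
    simp [Subtype.ext_iff]
  refine ⟨f, h1, fun v hv => ?_⟩
  induction hv using Submodule.span_induction with
  | mem x hx =>
    have hx' : x ∈ T := by exact_mod_cast hx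
    rw [Finset.sum_eq_single x]
    · rw [h1 x hx' x hx']; simp
    · intro s hs hne
      rw [h1 s hs x hx', if_neg (Ne.symm hne)]; simp
    · intro h; exact absurd hx' h
  | zero => simp
  | add x y _ _ hx hy =>
    simp only [map_add, add_smul, Finset.sum_add_distrib]
    rw [← hx, ← hy]
  | smul a x _ hx =>
    simp only [map_smul, smul_eq_mul, mul_smul]
    rw [← Finset.smul_sum, ← hx]

theorem vanish (g : W →ₗ[ℝ] ℝ) (S : Set W) (h : ∀ s ∈ S, g s = 0) {v : W} (hv : v ∈ span ℝ S) :
    g v = 0 := by
  have : span ℝ S ≤ LinearMap.ker g := span_le.2 fun s hs => h s hs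
  exact this hv

theorem sum_mem_span (T : Finset W) (a : W → ℝ) (S : Set W) (h : ∀ s ∈ T, a s ≠ 0 → s ∈ S) :
    ∑ s ∈ T, a s • s ∈ span ℝ S := by
  refine Submodule.sum_mem _ fun s hs => ?_
  by_cases h0 : a s = 0
  · simp [h0]
  · exact Submodule.smul_mem _ _ (subset_span (h s hs h0))

/-- solve an expansion for one vector -/
theorem solve (T : Finset W) (a : W → ℝ) (x y : W) (hy : y ∈ T) (ha : a y ≠ 0)
    (hx : x = ∑ s ∈ T, a s • s) (S : Set W) (hxS : x ∈ S)
    (h : ∀ s ∈ T, s ≠ y → a s ≠ 0 → s ∈ S) : y ∈ span ℝ S := by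
  have h1 : a y • y = x - ∑ s ∈ T.erase y, a s • s := by
    rw [hx, ← Finset.add_sum_erase T (fun s => a s • s) hy]; simp
  have h2 : a y • y ∈ span ℝ S := by
    rw [h1]
    exact Submodule.sub_mem _ (subset_span hxS)
      (sum_mem_span _ _ _ fun s hs h0 => h s (mem_of_mem_erase hs) (ne_of_mem_erase hs) h0)
  have := Submodule.smul_mem _ (a y)⁻¹ h2
  rwa [smul_smul, inv_mul_cancel₀ ha, one_smul] at this

open Classical in
noncomputable def lev (X I J : Finset W) : ℕ → Finset W
  | 0 => X
  | k + 1 => (lev X I J k).filter fun y =>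
      y ∈ span ℝ ((I ∩ lev X I J k : Finset W) : Set W) ∧
        y ∈ span ℝ ((J ∩ lev X I J k : Finset W) : Set W)

theorem mem_lev (X I J : Finset W) (k : ℕ) (y : W) : y ∈ lev X I J (k + 1) ↔
    y ∈ lev X I J k ∧ y ∈ span ℝ ((I ∩ lev X I J k : Finset W) : Set W) ∧
        y ∈ span ℝ ((J ∩ lev X I J k : Finset W) : Set W) := by
  simp only [lev, Finset.mem_filter]

theorem lev_symm (X I J : Finset W) (k : ℕ) : lev X I J k = lev X J I k := by
  induction k with
  | zero => rfl
  | succ k ih => ext y; rw [mem_lev, mem_lev, ih]; tauto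

theorem lev_anti (X I J : Finset W) {j k : ℕ} (h : j ≤ k) : lev X I J k ⊆ lev X I J j := by
  induction h with
  | refl => exact Subset.refl _
  | step _ ih => exact fun y hy => ih ((mem_lev _ _ _ _ _).1 hy).1

def Pair (X I J : Finset W) : Prop :=
  I ⊆ X ∧ J ⊆ X ∧ Disjoint I J ∧ LinearIndepOn ℝ id (I : Set W) ∧ LinearIndepOn ℝ id (J : Set W)

theorem Pair.symm {X I J : Finset W} (h : Pair X I J) : Pair X J I :=
  ⟨h.2.1, h.1, h.2.2.1.symm, h.2.2.2.2, h.2.2.2.1⟩

theorem ins_indep {I : Finset W} (hI : LinearIndepOn ℝ id (I : Set W)) {x : W}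
    (hx : x ∉ span ℝ (I : Set W)) : LinearIndepOn ℝ id ((insert x I : Finset W) : Set W) := by
  rw [Finset.coe_insert]; exact hI.id_insert hx

theorem augment (X : Finset W) (k : ℕ) : ∀ I J : Finset W, Pair X I J → ∀ x ∈ X, x ∉ I → x ∉ J →
    x ∉ lev X I J k → ∃ I' J', Pair X I' J' ∧ I'.card + J'.card = I.card + J.card + 1 := by
  induction k with
  | zero => intro I J _ x hx _ _ h; exact absurd hx h
  | succ k ih =>
    have key : ∀ I J : Finset W, Pair X I J → ∀ x ∈ X, x ∉ I → x ∉ J → x ∈ lev X I J k →
        x ∉ span ℝ ((I ∩ lev X I J k : Finset W) : Set W) →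
        ∃ I' J', Pair X I' J' ∧ I'.card + J'.card = I.card + J.card + 1 := by
      intro I J hP x hx hI hJ hk hs
      obtain ⟨hIX, hJX, hd, iI, iJ⟩ := hP
      by_cases hsp : x ∈ span ℝ (I : Set W)
      swap
      · refine ⟨insert x I, J, ⟨insert_subset hx hIX, hJX, ?_, ins_indep iI hsp, iJ⟩, ?_⟩
        · exact disjoint_insert_left.2 ⟨hJ, hd⟩
        · rw [card_insert_of_notMem hI]; omega
      obtain ⟨f, hf, hexp⟩ := duals I iI
      have hxe := hexp x hsp
      have : ∃ y ∈ I, f y x ≠ 0 ∧ y ∉ lev X I J k := by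
        by_contra hc
        push Not at hc
        apply hs
        rw [hxe]
        exact sum_mem_span _ _ _ fun s hs h0 => by
          simp only [coe_inter, Set.mem_inter_iff, mem_coe]; exact ⟨hs, hc s hs h0⟩
      obtain ⟨y, hyI, hy0, hyk⟩ := this
      have hsupp : ∀ j < k, ∀ s ∈ I, f s x ≠ 0 → s ∈ lev X I J j := by
        intro j hj s hs h0
        by_contra hc
        apply h0
        have hxj := ((mem_lev _ _ _ _ _).1 (lev_anti X I J (show j + 1 ≤ k from hj) hk)).2.1
        refine vanish _ _ (fun t ht => ?_) hxj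
        simp only [coe_inter, Set.mem_inter_iff, mem_coe] at ht
        rw [hf s hs t ht.1, if_neg]
        rintro rfl; exact hc ht.2
      have hxs : x ∉ span ℝ ((I.erase y : Finset W) : Set W) := by
        intro h
        apply hy0
        refine vanish _ _ (fun t ht => ?_) h
        simp only [coe_erase, Set.mem_sdiff, mem_coe, Set.mem_singleton_iff] at ht
        rw [hf y hyI t ht.1, if_neg ht.2]
      have hP' : Pair X (insert x (I.erase y)) J := by
        refine ⟨insert_subset hx ((erase_subset _ _).trans hIX), hJX, ?_, ?_, iJ⟩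
        · exact disjoint_insert_left.2 ⟨hJ, hd.mono_left (erase_subset _ _)⟩
        · exact ins_indep (iI.mono (by exact_mod_cast erase_subset _ _)) hxs
      have hlev : ∀ j ≤ k, lev X (insert x (I.erase y)) J j = lev X I J j := by
        intro j hj
        induction j with
        | zero => rfl
        | succ j ihj =>
          have e := ihj (by omega)
          have hxj : x ∈ lev X I J j := lev_anti X I J (by omega) hk
          have hsp' : span ℝ (((insert x (I.erase y)) ∩ lev X I J j : Finset W) : Set W) =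
              span ℝ ((I ∩ lev X I J j : Finset W) : Set W) := by
            apply le_antisymm
            · refine span_le.2 fun t ht => ?_
              simp only [coe_inter, Set.mem_inter_iff, mem_coe, mem_insert, mem_erase] at ht
              rcases ht with ⟨rfl | ht, ht2⟩
              · exact ((mem_lev _ _ _ _ _).1 (lev_anti X I J (show j + 1 ≤ k from hj) hk)).2.1
              · exact subset_span (by
                  simp only [coe_inter, Set.mem_inter_iff, mem_coe]; exact ⟨ht.2, ht2⟩)
            · refine span_le.2 fun t ht => ?_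
              simp only [coe_inter, Set.mem_inter_iff, mem_coe] at ht
              by_cases hty : t = y
              · subst hty
                refine solve I (fun s => f s x) x t hyI hy0 hxe _ ?_ ?_
                · simp only [coe_inter, Set.mem_inter_iff, mem_coe, mem_insert]
                  exact ⟨Or.inl trivial, hxj⟩
                · intro s hs hne h0
                  simp only [coe_inter, Set.mem_inter_iff, mem_coe, mem_insert, mem_erase]
                  exact ⟨Or.inr ⟨hne, hs⟩, hsupp j (by omega) s hs h0⟩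
              · exact subset_span (by
                  simp only [coe_inter, Set.mem_inter_iff, mem_coe, mem_insert, mem_erase]
                  exact ⟨Or.inr ⟨hty, ht.1⟩, ht.2⟩)
          ext t
          rw [mem_lev, mem_lev, e, hsp']
      obtain ⟨I', J', hP'', hc⟩ := ih _ _ hP' y (hIX hyI)
        (by
          simp only [mem_insert, mem_erase, not_or]
          exact ⟨by rintro rfl; exact hI hyI, by simp⟩)
        (disjoint_left.1 hd hyI) (by rw [hlev k le_rfl]; exact hyk)
      refine ⟨I', J', hP'', ?_⟩
      rw [hc, card_insert_of_notMem (by simp [hI]), card_erase_of_mem hyI]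
      have := card_pos.2 ⟨y, hyI⟩
      omega
    intro I J hP x hx hI hJ hk
    by_cases h0 : x ∈ lev X I J k
    swap
    · exact ih I J hP x hx hI hJ h0
    rw [mem_lev] at hk
    by_cases h1 : x ∈ span ℝ ((I ∩ lev X I J k : Finset W) : Set W)
    · have h2 : x ∉ span ℝ ((J ∩ lev X I J k : Finset W) : Set W) := fun h => hk ⟨h0, h1, h⟩
      rw [lev_symm] at h0 h2
      obtain ⟨I', J', hP', hc⟩ := key J I hP.symm x hx hJ hI h0 h2
      exact ⟨I', J', hP', by omega⟩
    · exact key I J hP x hx hI hJ h0 h1

noncomputable def rk (S : Finset W) : ℕ := Module.finrank ℝ (span ℝ (S : Set W))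

theorem rk_le [FiniteDimensional ℝ W] {S T : Finset W} (h : ∀ s ∈ S, s ∈ span ℝ (T : Set W)) :
    rk S ≤ T.card :=
  (Submodule.finrank_mono (span_le.2 fun s hs => h s hs)).trans (finrank_span_finset_le_card T)

theorem cover [FiniteDimensional ℝ W] (X : Finset W) (h : ∀ S ⊆ X, S.card ≤ 2 * rk S) :
    ∃ I J, Pair X I J ∧ I.card + J.card = X.card := by
  classical
  have hb : ∀ I J, Pair X I J → I.card + J.card ≤ X.card := fun I J hP => by
    rw [← card_union_of_disjoint hP.2.2.1]
    exact card_le_card (union_subset hP.1 hP.2.1)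
  have step : ∀ I J, Pair X I J → I.card + J.card < X.card →
      ∃ I' J', Pair X I' J' ∧ I'.card + J'.card = I.card + J.card + 1 := by
    intro I J hP hlt
    rw [← card_union_of_disjoint hP.2.2.1] at hlt
    obtain ⟨x, hx, hx'⟩ := exists_mem_notMem_of_card_lt_card hlt
    rw [mem_union, not_or] at hx'
    obtain ⟨k, hk⟩ : ∃ k, ∀ j, (lev X I J k).card ≤ (lev X I J j).card :=
      ⟨Function.argmin fun k => (lev X I J k).card, fun j => Function.argmin_le (fun k => (lev X I J k).card) j⟩
    have he : lev X I J (k + 1) = lev X I J k :=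
      eq_of_subset_of_card_le (lev_anti X I J (Nat.le_succ k)) (hk _)
    refine augment X k I J hP x hx hx'.1 hx'.2 fun hxk => ?_
    have h1 : rk (lev X I J k) ≤ (I ∩ lev X I J k).card :=
      rk_le fun s hs => ((mem_lev _ _ _ _ _).1 (he ▸ hs)).2.1
    have h2 : rk (lev X I J k) ≤ (J ∩ lev X I J k).card :=
      rk_le fun s hs => ((mem_lev _ _ _ _ _).1 (he ▸ hs)).2.2
    have h3 := h _ (lev_anti X I J (Nat.zero_le k))
    have h4 : (insert x ((I ∩ lev X I J k) ∪ (J ∩ lev X I J k))).card ≤ (lev X I J k).card :=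
      card_le_card (insert_subset hxk (union_subset inter_subset_right inter_subset_right))
    rw [card_insert_of_notMem (by simp [hx'.1, hx'.2]), card_union_of_disjoint
      (hP.2.2.1.mono inter_subset_left inter_subset_left)] at h4
    omega
  have : ∀ n ≤ X.card, ∃ I J, Pair X I J ∧ I.card + J.card = n := by
    intro n hn
    induction n with
    | zero => exact ⟨∅, ∅, ⟨by simp, by simp, by simp, by simp, by simp⟩, by simp⟩
    | succ n ih =>
      obtain ⟨I, J, hP, hc⟩ := ih (by omega)
      obtain ⟨I', J', hP', hc'⟩ := step I J hP (by omega)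
      exact ⟨I', J', hP', by omega⟩
  exact this _ le_rfl

end Pool.Agent.Lib.helper9.Doig
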