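import Pool.Agent.Lib.helper9.DoigA

set_option autoImplicit false
set_option linter.unusedSectionVars false

namespace Pool.Agent.Lib.helper9.Doig

open Submodule Finset

variable {W : Type} [AddCommGroup W] [Module ℝ W] [DecidableEq W]

def Good (X : Finset W) : Prop :=
  ∃ c : W → ℝ, ∑ v ∈ X, c v • v = 0 ∧ (∃ v ∈ X, 0 < c v) ∧
    ∀ v ∈ X, 0 < c v → v ∈ span ℝ {w | w ∈ X ∧ c w < 0}

theorem Good.mono {S X : Finset W} (h : Good S) (hS : S ⊆ X) : Good X := by
  obtain ⟨c, h1, ⟨v, hv, hv'⟩, h3⟩ := h
  refine ⟨fun w => if w ∈ S then c w else 0, ?_, ⟨v, hS hv, by simp [hv, hv']⟩, ?_⟩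
  · rw [← h1, ← Finset.sum_subset hS (fun x _ hx => by simp [hx])]
    exact Finset.sum_congr rfl fun x hx => by simp [hx]
  · intro w _ hw
    by_cases hwS : w ∈ S
    · simp only [hwS, if_true] at hw
      refine span_mono ?_ (h3 w hwS hw)
      rintro u ⟨hu, hu'⟩
      exact ⟨hS hu, by simp [hu, hu']⟩
    · simp [hwS] at hw

theorem good_of_signs (φ : W →ₗ[ℝ] ℝ) (X B R : Finset W) (hφ : ∀ v ∈ X, φ v = 1)
    (hB : B ⊆ X) (hR : R ⊆ X) (hd : Disjoint B R) (hsp : ∀ v ∈ X, v ∈ span ℝ (B : Set W))
    (g : W →ₗ[ℝ] ℝ) (hg : ∀ v ∈ span ℝ (X : Set W), g v = 0 → v ∈ span ℝ (R : Set W))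
    {b1 b2 : W} (h1 : b1 ∈ B) (h2 : b2 ∈ B) (p1 : 0 < g b1) (p2 : g b2 < 0) : Good X := by
  set s := ∑ b ∈ B, g b with hs
  let y : W → ℝ := fun b => 1 + (if b = b1 then max (-s) 0 / g b1 else 0) +
    (if b = b2 then max s 0 / (-g b2) else 0)
  have hy : ∀ b, 0 < y b := fun b => by
    have a1 : 0 ≤ (if b = b1 then max (-s) 0 / g b1 else 0) := by
      split_ifs
      · exact div_nonneg (le_max_right _ _) p1.le
      · exact le_rfl
    have a2 : 0 ≤ (if b = b2 then max s 0 / (-g b2) else 0) := by
      split_ifs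
      · exact div_nonneg (le_max_right _ _) (by linarith)
      · exact le_rfl
    simp only [y]; linarith
  have hw : g (∑ b ∈ B, y b • b) = 0 := by
    simp only [map_sum, map_smul, smul_eq_mul, y, add_mul, one_mul, Finset.sum_add_distrib,
      ite_mul, zero_mul, Finset.sum_ite_eq', h1, h2, if_true]
    rw [← hs, div_mul_cancel₀ _ p1.ne']
    have : max s 0 / (-g b2) * g b2 = -max s 0 := by
      have := p2.ne
      field_simp
    rw [this]
    rcases le_total s 0 with h | h
    · rw [max_eq_right h, max_eq_left (by linarith)]; ring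
    · rw [max_eq_left h, max_eq_right (by linarith)]; ring
  have hwR := hg _ (sum_mem_span B y _ fun s hs _ => by exact_mod_cast hB hs) hw
  obtain ⟨l, -, hl⟩ := Submodule.mem_span_finset.1 hwR
  let c : W → ℝ := fun v => if v ∈ B then -y v else if v ∈ R then l v else 0
  have hsum : ∑ v ∈ X, c v • v = 0 := by
    rw [← Finset.sum_subset (union_subset hB hR) (fun x _ hx => by
      rw [mem_union, not_or] at hx; simp [c, hx.1, hx.2]), Finset.sum_union hd]
    have e1 : ∑ v ∈ B, c v • v = -∑ b ∈ B, y b • b := by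
      rw [← Finset.sum_neg_distrib]
      exact Finset.sum_congr rfl fun x hx => by simp [c, hx]
    have e2 : ∑ v ∈ R, c v • v = ∑ v ∈ R, l v • v :=
      Finset.sum_congr rfl fun x hx => by simp [c, hx, disjoint_right.1 hd hx]
    rw [e1, e2, hl]; simp
  refine ⟨c, hsum, ?_, fun v hv _ => span_mono ?_ (hsp v hv)⟩
  · by_contra hc
    push Not at hc
    have h0 : ∑ v ∈ X, c v = 0 := by
      have := congrArg φ hsum
      rw [map_sum, map_zero] at this
      rw [← this]
      exact Finset.sum_congr rfl fun x hx => by simp [hφ x hx]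
    have := (Finset.sum_eq_zero_iff_of_nonpos hc).1 h0 b1 (hB h1)
    have h3 := hy b1
    simp only [c, h1, if_true] at this
    linarith
  · intro b hb
    have hb' : b ∈ B := by exact_mod_cast hb
    exact ⟨hB hb', by simp only [c, hb', if_true]; linarith [hy b]⟩

theorem core [FiniteDimensional ℝ W] (φ : W →ₗ[ℝ] ℝ) (X B R : Finset W) (hφ : ∀ v ∈ X, φ v = 1)
    (hP : Pair X B R) (hBc : B.card = rk X) (hRc : R.card + 1 = rk X) (hng : ¬ Good X) :
    ∃ I ⊆ B, I ≠ B ∧ I.card = R.card ∧ ∀ b ∈ I, b ∈ span ℝ (R : Set W) := by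
  classical
  obtain ⟨hB, hR, hd, iB, iR⟩ := hP
  have hBs : span ℝ (B : Set W) = span ℝ (X : Set W) :=
    Submodule.eq_of_le_of_finrank_eq (span_mono (by exact_mod_cast hB))
      ((finrank_span_finset_eq_card iB).trans hBc)
  obtain ⟨b0, hb0, hb0R⟩ : ∃ b0 ∈ B, b0 ∉ span ℝ (R : Set W) := by
    by_contra hc
    push Not at hc
    have h1 : rk B ≤ R.card := rk_le hc
    have h2 : rk B = B.card := finrank_span_finset_eq_card iB
    omega
  have hb0R' : b0 ∉ R := disjoint_left.1 hd hb0
  have iT := ins_indep iR hb0R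
  have hTs : span ℝ ((insert b0 R : Finset W) : Set W) = span ℝ (X : Set W) :=
    Submodule.eq_of_le_of_finrank_eq (span_mono (by exact_mod_cast insert_subset (hB hb0) hR))
      ((finrank_span_finset_eq_card iT).trans (by rw [card_insert_of_notMem hb0R']; exact hRc))
  obtain ⟨f, hf, hfe⟩ := duals _ iT
  obtain ⟨β, hβ, hβe⟩ := duals _ iB
  have hXB : ∀ v ∈ X, v ∈ span ℝ (B : Set W) := fun v hv => hBs ▸ subset_span (by exact_mod_cast hv)
  have hXX : ∀ v ∈ X, v ∈ span ℝ (X : Set W) := fun v hv => subset_span (by exact_mod_cast hv)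
  have exT : ∀ v ∈ span ℝ (X : Set W), v = f b0 v • b0 + ∑ s ∈ R, f s v • s := fun v hv => by
    have := hfe v (hTs ▸ hv)
    rwa [Finset.sum_insert hb0R'] at this
  have hker : ∀ v ∈ span ℝ (X : Set W), f b0 v = 0 → v ∈ span ℝ (R : Set W) := fun v hv h0 => by
    rw [exT v hv, h0, zero_smul, zero_add]
    exact sum_mem_span _ _ _ fun s hs _ => by exact_mod_cast hs
  have hb00 : f b0 b0 = 1 := by rw [hf b0 (by simp) b0 (by simp)]; simp
  have hhR : ∀ r ∈ R, f b0 r = 0 := fun r hr => by
    rw [hf b0 (by simp) r (by simp [hr]), if_neg]; rintro rfl; exact hb0R' hr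
  have hpos : ∀ b ∈ B, 0 ≤ f b0 b := fun b hb => by
    by_contra hc
    exact hng (good_of_signs φ X B R hφ hB hR hd hXB (f b0) hker hb0 hb (by rw [hb00]; norm_num)
      (not_le.1 hc))
  have swap : ∀ r ∈ R, ∀ b ∈ B, f b0 b ≠ 0 → β b r ≠ 0 → ∀ b' ∈ B,
      0 ≤ f r b' - f r b / f b0 b * f b0 b' := by
    intro r hr b hb h0 hβ0 b' hb'
    by_cases hbb : b' = b
    · subst hbb; rw [div_mul_cancel₀ _ h0]; simp
    by_contra hc
    have hrB : r ∉ B := disjoint_right.1 hd hr
    have hbR : b ∉ R := disjoint_left.1 hd hb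
    let g : W →ₗ[ℝ] ℝ := f r - (f r b / f b0 b) • f b0
    have hg : ∀ v, g v = f r v - f r b / f b0 b * f b0 v := fun v => by simp [g]
    refine hng (good_of_signs φ X (insert r (B.erase b)) (insert b (R.erase r)) hφ
      (insert_subset (hR hr) ((erase_subset _ _).trans hB))
      (insert_subset (hB hb) ((erase_subset _ _).trans hR)) ?_ ?_ g ?_
      (b1 := r) (b2 := b') (by simp) (by simp [hbb, hb']) ?_ ?_)
    · rw [Finset.disjoint_left]
      intro a ha ha'
      simp only [mem_insert, mem_erase] at ha ha'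
      rcases ha with rfl | ha <;> rcases ha' with h | h
      · exact hrB (h ▸ hb)
      · exact h.1 rfl
      · exact ha.1 h
      · exact disjoint_left.1 hd ha.2 h.2
    · intro v hv
      refine (span_le.2 fun t ht => ?_ : span ℝ (B : Set W) ≤ _) (hXB v hv)
      have ht' : t ∈ B := by exact_mod_cast ht
      by_cases htb : t = b
      · subst htb
        exact solve B (fun s => β s r) r t hb hβ0 (hβe r (hXB r (hR hr))) _ (by simp)
          fun s hs hne _ => by simp [hne, hs]
      · exact subset_span (by simp [htb, ht'])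
    · intro v hv hgv
      have e1 := exT v hv
      have e2 := exT b (hXX b (hB hb))
      have e3 : v = (f b0 v / f b0 b) • b + ∑ s ∈ R, (f s v - f b0 v / f b0 b * f s b) • s := by
        simp only [sub_smul, Finset.sum_sub_distrib, mul_smul, ← Finset.smul_sum]
        have e4 : ∑ s ∈ R, f s b • s = b - f b0 b • b0 := by
          rw [eq_sub_iff_add_eq, add_comm]; exact e2.symm
        have e5 : ∑ s ∈ R, f s v • s = v - f b0 v • b0 := by
          rw [eq_sub_iff_add_eq, add_comm]; exact e1.symm
        rw [e4, e5, smul_sub, smul_smul, div_mul_cancel₀ _ h0]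
        abel
      rw [e3]
      refine Submodule.add_mem _ (Submodule.smul_mem _ _ (subset_span (by simp)))
        (sum_mem_span _ _ _ fun s hs hne => ?_)
      have : s ≠ r := by
        rintro rfl
        apply hne
        rw [hg] at hgv
        rw [← hgv]; field_simp
      simp [this, hs]
    · rw [hg, hhR r hr, hf r (by simp [hr]) r (by simp [hr])]; simp
    · rw [hg]; exact not_le.1 hc
  let I := B.filter fun b => f b0 b = 0
  have row : ∀ r ∈ R, ∑ b ∈ I, β b r * f r b = 1 := by
    intro r hr
    obtain ⟨t, ht⟩ : ∃ t : ℝ, ∀ b ∈ B, f b0 b ≠ 0 → β b r ≠ 0 → f r b = t * f b0 b := by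
      by_cases hex : ∃ b ∈ B, f b0 b ≠ 0 ∧ β b r ≠ 0
      · obtain ⟨b, hb, h0, h1⟩ := hex
        refine ⟨f r b / f b0 b, fun b' hb' h0' h1' => ?_⟩
        have a1 := swap r hr b hb h0 h1 b' hb'
        have a2 := swap r hr b' hb' h0' h1' b hb
        have p : 0 < f b0 b := lt_of_le_of_ne (hpos b hb) (Ne.symm h0)
        have p' : 0 < f b0 b' := lt_of_le_of_ne (hpos b' hb') (Ne.symm h0')
        have a3 : f r b' / f b0 b' ≤ f r b / f b0 b := by
          rw [le_div_iff₀ p]; linarith
        have a4 : f r b' ≤ f r b / f b0 b * f b0 b' := by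
          rwa [div_le_iff₀ p'] at a3
        linarith
      · push Not at hex
        exact ⟨0, fun b hb h0 h1 => absurd (hex b hb h0) h1⟩
    have er := hβe r (hXB r (hR hr))
    have e1 : f r r = ∑ b ∈ B, β b r * f r b := by
      have := congrArg (f r) er
      simpa [map_sum] using this
    have e2 : f b0 r = ∑ b ∈ B, β b r * f b0 b := by
      conv_lhs => rw [er]
      simp [map_sum]
    rw [hf r (by simp [hr]) r (by simp [hr]), if_pos rfl] at e1
    rw [hhR r hr] at e2
    have e3 : ∑ b ∈ B, β b r * f r b =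
        ∑ b ∈ B, ((if f b0 b = 0 then β b r * f r b else 0) + t * (β b r * f b0 b)) := by
      refine Finset.sum_congr rfl fun b hb => ?_
      by_cases h0 : f b0 b = 0
      · simp [h0]
      · by_cases h1 : β b r = 0
        · simp [h1]
        · rw [if_neg h0, ht b hb h0 h1]; ring
    rw [e3, Finset.sum_add_distrib, ← Finset.mul_sum, ← e2, ← Finset.sum_filter] at e1
    rw [e1]; simp [I]
  have col : ∀ b ∈ I, ∑ r ∈ R, β b r * f r b = 1 := by
    intro b hb
    obtain ⟨hbB, h0⟩ := mem_filter.1 hb
    have e := exT b (hXX b (hB hbB))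
    rw [h0, zero_smul, zero_add] at e
    have e1 : β b b = ∑ r ∈ R, β b r * f r b := by
      have := congrArg (β b) e
      simpa [map_sum, mul_comm] using this
    rw [← e1, hβ b hbB b hbB, if_pos rfl]
  refine ⟨I, filter_subset _ _, fun h => ?_, ?_, fun b hb => ?_⟩
  · have : b0 ∈ I := h ▸ hb0
    have := (mem_filter.1 this).2
    rw [hb00] at this; norm_num at this
  · have h1 : ∑ r ∈ R, ∑ b ∈ I, β b r * f r b = R.card := by
      rw [Finset.sum_congr rfl row]; simp
    have h2 : ∑ b ∈ I, ∑ r ∈ R, β b r * f r b = I.card := by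
      rw [Finset.sum_congr rfl col]; simp
    rw [Finset.sum_comm, h2] at h1
    exact_mod_cast h1
  · obtain ⟨hbB, h0⟩ := mem_filter.1 hb
    exact hker b (hXX b (hB hbB)) h0

theorem two_le_rk [FiniteDimensional ℝ W] (φ : W →ₗ[ℝ] ℝ) (X : Finset W) (hφ : ∀ v ∈ X, φ v = 1) :
    min X.card 2 ≤ rk X := by
  classical
  have one : ∀ a ∈ X, LinearIndepOn ℝ id ((insert a ∅ : Finset W) : Set W) := fun a ha =>
    ins_indep (by simp) (by
      simp only [coe_empty, span_empty, mem_bot]
      rintro rfl
      have := hφ _ ha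
      simp at this)
  have mono : ∀ T ⊆ X, LinearIndepOn ℝ id (T : Set W) → T.card ≤ rk X := fun T hT iT => by
    rw [← finrank_span_finset_eq_card iT]
    exact Submodule.finrank_mono (span_mono (by exact_mod_cast hT))
  rcases Nat.lt_or_ge 1 X.card with h | h
  · obtain ⟨a, ha, b, hb, hab⟩ := one_lt_card.1 h
    have : LinearIndepOn ℝ id ((insert b (insert a ∅) : Finset W) : Set W) :=
      ins_indep (one a ha) (by
        simp only [insert_empty_eq, coe_singleton, mem_span_singleton, not_exists]
        intro t ht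
        have h1 := congrArg φ ht
        rw [map_smul, hφ a ha, hφ b hb, smul_eq_mul, mul_one] at h1
        rw [h1, one_smul] at ht
        exact hab ht)
    have h2 := mono _ (by simp [insert_subset_iff, ha, hb]) this
    rw [card_insert_of_notMem (by simp [Ne.symm hab])] at h2
    simp at h2
    omega
  · rcases X.eq_empty_or_nonempty with rfl | ⟨a, ha⟩
    · simp
    · have h2 := mono _ (by simp [ha]) (one a ha)
      simp at h2
      omega

theorem main [FiniteDimensional ℝ W] (φ : W →ₗ[ℝ] ℝ) (X : Finset W) :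
    (∀ v ∈ X, φ v = 1) → 2 ≤ X.card → 2 * rk X ≤ X.card + 1 → Good X := by
  classical
  induction X using Finset.strongInduction with
  | H X ih =>
    intro hφ h2 hr
    by_contra hng
    have sp : ∀ S ⊂ X, 2 ≤ S.card → S.card + 2 ≤ 2 * rk S := fun S hS h => by
      by_contra hc
      exact hng ((ih S hS (fun v hv => hφ v (hS.1 hv)) h (by omega)).mono hS.1)
    have r2 := two_le_rk φ X hφ
    have hc : X.card + 1 = 2 * rk X := by
      obtain ⟨x, hx⟩ := card_pos.1 (show 0 < X.card by omega)
      by_contra hne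
      have h1 := sp (X.erase x) (erase_ssubset hx) (by rw [card_erase_of_mem hx]; omega)
      have h3 : rk (X.erase x) ≤ rk X :=
        Submodule.finrank_mono (span_mono (by exact_mod_cast erase_subset _ _))
      rw [card_erase_of_mem hx] at h1
      omega
    obtain ⟨I, J, hP, hIJ⟩ := cover X fun S hS => by
      rcases eq_or_ne S X with rfl | hne
      · omega
      · have h1 := sp S (ssubset_of_subset_of_ne hS hne)
        have h3 := two_le_rk φ S fun v hv => hφ v (hS hv)
        omega
    have mono : ∀ T ⊆ X, LinearIndepOn ℝ id (T : Set W) → T.card ≤ rk X := fun T hT iT => by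
      rw [← finrank_span_finset_eq_card iT]
      exact Submodule.finrank_mono (span_mono (by exact_mod_cast hT))
    have fin : ∀ B R, Pair X B R → B.card = rk X → R.card + 1 = rk X → False := by
      intro B R hP hB hR
      obtain ⟨K, hK, hne, hKc, hKs⟩ := core φ X B R hφ hP hB hR hng
      have hd : Disjoint K R := hP.2.2.1.mono_left hK
      have hss : K ∪ R ⊂ X := by
        refine ssubset_of_subset_of_ne (union_subset (hK.trans hP.1) hP.2.1) fun h => ?_
        have := congrArg Finset.card h
        rw [card_union_of_disjoint hd] at this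
        omega
      have h1 := sp _ hss (by rw [card_union_of_disjoint hd]; omega)
      have h3 : rk (K ∪ R) ≤ R.card := rk_le fun s hs => by
        rcases mem_union.1 hs with h | h
        · exact hKs s h
        · exact subset_span (by exact_mod_cast h)
      rw [card_union_of_disjoint hd] at h1
      omega
    have a1 := mono I hP.1 hP.2.2.2.1
    have a2 := mono J hP.2.1 hP.2.2.2.2
    rcases Nat.lt_or_ge I.card (rk X) with h | h
    · exact fin J I hP.symm (by omega) (by omega)
    · exact fin I J hP (by omega) (by omega)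

end Pool.Agent.Lib.helper9.Doig
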