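import Pool.Agent.Lib.helper9.DoigB

set_option autoImplicit false
set_option linter.unusedSectionVars false

namespace Pool.Agent.Lib.helper9.Doig

open Submodule Finset

variable {E : Type} [AddCommGroup E] [Module ℝ E] [DecidableEq E]

theorem affine_good [FiniteDimensional ℝ E] (S : Finset E) (h2 : 2 ≤ S.card)
    (hS : 2 * Module.finrank ℝ E + 1 ≤ S.card) :
    ∃ a : E → ℝ, ∑ x ∈ S, a x = 0 ∧ ∑ x ∈ S, a x • x = 0 ∧ (∃ x ∈ S, 0 < a x) ∧
      ∀ z ∈ S, 0 < a z → ∃ μ : E → ℝ, (∀ w, ¬ a w < 0 → μ w = 0) ∧ ∑ w ∈ S, μ w = 1 ∧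
        ∑ w ∈ S, μ w • w = z := by
  classical
  let ι : E → ℝ × E := fun x => (1, x)
  have hι : Function.Injective ι := fun x y h => congrArg Prod.snd h
  have hc : (S.image ι).card = S.card := card_image_of_injective _ hι
  have hr : rk (S.image ι) ≤ Module.finrank ℝ E + 1 := by
    refine (Submodule.finrank_le _).trans ?_
    rw [Module.finrank_prod]; simp [add_comm]
  obtain ⟨c, h1, ⟨v, hv, hv'⟩, h3⟩ := main (LinearMap.fst ℝ ℝ E) (S.image ι)
    (fun v hv => by obtain ⟨x, -, rfl⟩ := mem_image.1 hv; rfl) (by omega) (by omega)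
  rw [Finset.sum_image fun x _ y _ h => hι h] at h1
  refine ⟨fun x => c (ι x), ?_, ?_, ?_, fun z hz hz' => ?_⟩
  · simpa [Prod.fst_sum, ι] using congrArg Prod.fst h1
  · simpa [Prod.snd_sum, ι] using congrArg Prod.snd h1
  · obtain ⟨x, hx, rfl⟩ := mem_image.1 hv; exact ⟨x, hx, hv'⟩
  · have h4 := h3 (ι z) (mem_image_of_mem _ hz) hz'
    have e : {w | w ∈ S.image ι ∧ c w < 0} = (((S.image ι).filter fun w => c w < 0 : Finset _) :
        Set (ℝ × E)) := by ext w; simp
    rw [e] at h4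
    obtain ⟨m, -, hm⟩ := Submodule.mem_span_finset.1 h4
    rw [Finset.sum_filter, Finset.sum_image fun x _ y _ h => hι h] at hm
    have hm' : ∑ x ∈ S, (if c (ι x) < 0 then m (ι x) else 0) • ι x = ι z := by
      rw [← hm]; exact Finset.sum_congr rfl fun x _ => by split_ifs <;> simp
    refine ⟨fun x => if c (ι x) < 0 then m (ι x) else 0, fun w hw => if_neg hw, ?_, ?_⟩
    · have := congrArg Prod.fst hm'
      rw [Prod.fst_sum] at this
      simpa only [ι, Prod.smul_fst, smul_eq_mul, mul_one] using this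
    · have := congrArg Prod.snd hm'
      rw [Prod.snd_sum] at this
      simpa only [ι, Prod.smul_snd] using this

theorem hull_mem (T : Finset E) (w : E → ℝ) (h0 : ∀ x ∈ T, 0 ≤ w x) (h1 : ∑ x ∈ T, w x = 1) :
    ∑ x ∈ T, w x • x ∈ convexHull ℝ (T : Set E) :=
  (convex_convexHull ℝ _).sum_mem h0 h1 fun x hx => subset_convexHull ℝ _ (by exact_mod_cast hx)

theorem split [FiniteDimensional ℝ E] (S : Finset E) (h2 : 2 ≤ S.card)
    (hS : 2 * Module.finrank ℝ E + 1 ≤ S.card) :
    ∃ S₁ S₂ : Finset E, S₁ ∪ S₂ = S ∧ Disjoint S₁ S₂ ∧ S₁.Nonempty ∧ S₂.Nonempty ∧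
      (convexHull ℝ (S₁ : Set E) ∩ convexHull ℝ (S₂ : Set E)).Nonempty ∧
      vectorSpan ℝ (convexHull ℝ (S₁ : Set E)) ≤
        vectorSpan ℝ (convexHull ℝ (S₁ : Set E) ∩ convexHull ℝ (S₂ : Set E)) := by
  classical
  obtain ⟨a, s0, s1, ⟨x0, hx0, hx0'⟩, hz⟩ := affine_good S h2 hS
  set A := S.filter fun x => 0 < a x with hA
  set B := S.filter fun x => ¬ 0 < a x with hB
  set σ := ∑ x ∈ A, a x with hσ
  have hx0A : x0 ∈ A := mem_filter.2 ⟨hx0, hx0'⟩
  have σpos : 0 < σ := Finset.sum_pos (fun x hx => (mem_filter.1 hx).2) ⟨x0, hx0A⟩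
  have sB : ∑ x ∈ B, a x = -σ := by
    have := Finset.sum_filter_add_sum_filter_not S (fun x => 0 < a x) a
    rw [s0] at this; linarith
  have vB : ∑ x ∈ B, a x • x = -∑ x ∈ A, a x • x := by
    have := Finset.sum_filter_add_sum_filter_not S (fun x => 0 < a x) fun x => a x • x
    rw [s1] at this
    exact eq_neg_of_add_eq_zero_right this
  set p := ∑ x ∈ A, (σ⁻¹ * a x) • x with hp
  have pA : p ∈ convexHull ℝ (A : Set E) := hull_mem A _
    (fun x hx => mul_nonneg (inv_pos.2 σpos).le (mem_filter.1 hx).2.le)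
    (by rw [← Finset.mul_sum, inv_mul_cancel₀ σpos.ne'])
  have pB' : p = ∑ x ∈ B, (-σ⁻¹ * a x) • x := by
    simp only [hp, mul_smul, ← Finset.smul_sum]
    rw [vB, neg_smul_neg]
  have wB : ∑ x ∈ B, -σ⁻¹ * a x = 1 := by
    rw [← Finset.mul_sum, sB, neg_mul_neg, inv_mul_cancel₀ σpos.ne']
  have pB : p ∈ convexHull ℝ (B : Set E) := by
    rw [pB']
    exact hull_mem B _ (fun x hx => mul_nonneg_of_nonpos_of_nonpos
      (neg_nonpos.2 (inv_pos.2 σpos).le) (not_lt.1 (mem_filter.1 hx).2)) wB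
  have key : ∀ z ∈ A, z - p ∈
      vectorSpan ℝ (convexHull ℝ (A : Set E) ∩ convexHull ℝ (B : Set E)) := by
    intro z hzA
    obtain ⟨μ, m0, m1, m2⟩ := hz z (mem_filter.1 hzA).1 (mem_filter.1 hzA).2
    have mA : ∀ x ∈ S, x ∉ B → μ x = 0 := fun x hx hxB => m0 x fun h =>
      hxB (mem_filter.2 ⟨hx, not_lt.2 h.le⟩)
    have m1' : ∑ w ∈ B, μ w = 1 := by
      rw [← m1]; exact Finset.sum_subset (filter_subset _ _) mA
    have m2' : ∑ w ∈ B, μ w • w = z := by
      rw [← m2]; exact Finset.sum_subset (filter_subset _ _) fun x hx hxB => by simp [mA x hx hxB]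
    have ev : ∀ᶠ ε in nhdsWithin (0 : ℝ) (Set.Ioi 0), ε < 1 ∧
        ∀ w ∈ B, 0 ≤ (1 - ε) * (-σ⁻¹ * a w) + ε * μ w := by
      refine Filter.Eventually.filter_mono nhdsWithin_le_nhds ?_
      have lt1 : ∀ᶠ ε in nhds (0 : ℝ), ε < 1 := eventually_lt_nhds one_pos
      refine lt1.and ((Filter.eventually_all_finset B).2 fun w hw => ?_)
      by_cases haw : a w < 0
      · have hc : Continuous fun ε : ℝ => (1 - ε) * (-σ⁻¹ * a w) + ε * μ w := by fun_prop
        have h0 : 0 < (1 - 0) * (-σ⁻¹ * a w) + 0 * μ w := by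
          have := mul_pos_of_neg_of_neg (neg_neg_of_pos (inv_pos.2 σpos)) haw
          simpa using this
        exact ((hc.tendsto 0).eventually (lt_mem_nhds h0)).mono fun ε h => h.le
      · have : a w = 0 := le_antisymm (not_lt.1 (mem_filter.1 hw).2) (not_lt.1 haw)
        simp [this, m0 w haw]
    obtain ⟨ε, ⟨e1, e2⟩, e0⟩ := (ev.and self_mem_nhdsWithin).exists
    have e0' : 0 < ε := e0
    have qA : (1 - ε) • p + ε • z ∈ convexHull ℝ (A : Set E) :=
      convex_convexHull ℝ _ pA (subset_convexHull ℝ _ (by exact_mod_cast hzA)) (by linarith)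
        e0'.le (by ring)
    have qB : (1 - ε) • p + ε • z ∈ convexHull ℝ (B : Set E) := by
      have := hull_mem B _ e2 (by
        rw [Finset.sum_add_distrib, ← Finset.mul_sum, wB, ← Finset.mul_sum, m1']; ring)
      convert this using 1
      rw [pB', ← m2']
      simp only [add_smul, Finset.sum_add_distrib, Finset.smul_sum, smul_smul]
    have := vsub_mem_vectorSpan ℝ (s := convexHull ℝ (A : Set E) ∩ convexHull ℝ (B : Set E))
      ⟨qA, qB⟩ ⟨pA, pB⟩
    have h5 := Submodule.smul_mem _ ε⁻¹ this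
    convert h5 using 1
    rw [vsub_eq_sub, sub_smul, one_smul]
    have : p - ε • p + ε • z - p = ε • (z - p) := by rw [smul_sub]; abel
    rw [this, smul_smul, inv_mul_cancel₀ e0'.ne', one_smul]
  have key2 : ∀ u ∈ convexHull ℝ (A : Set E), u - p ∈
      vectorSpan ℝ (convexHull ℝ (A : Set E) ∩ convexHull ℝ (B : Set E)) := by
    refine convexHull_min (t := {u | u - p ∈
      vectorSpan ℝ (convexHull ℝ (A : Set E) ∩ convexHull ℝ (B : Set E))})
      (fun z hz => key z (by exact_mod_cast hz)) ?_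
    intro u hu v hv s t _ _ hst
    have : s • u + t • v - p = s • (u - p) + t • (v - p) := by
      rw [smul_sub, smul_sub]
      have h7 : s • p + t • p = p := by rw [← add_smul, hst, one_smul]
      calc s • u + t • v - p = s • u + t • v - (s • p + t • p) := by rw [h7]
        _ = _ := by abel
    rw [Set.mem_setOf_eq, this]
    exact Submodule.add_mem _ (Submodule.smul_mem _ _ hu) (Submodule.smul_mem _ _ hv)
  refine ⟨A, B, filter_union_filter_not_eq _ _, disjoint_filter_filter_not _ _ _, ⟨x0, hx0A⟩, ?_,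
    ⟨p, pA, pB⟩, ?_⟩
  · by_contra hc
    rw [not_nonempty_iff_eq_empty] at hc
    rw [hc] at wB; simp at wB
  · rw [vectorSpan_def]
    refine span_le.2 ?_
    rintro _ ⟨u, hu, v, hv, rfl⟩
    have := Submodule.sub_mem _ (key2 u hu) (key2 v hv)
    simpa using this

end Pool.Agent.Lib.helper9.Doig
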