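import Pool.Agent.Lib.helper10.NPDefs

/-! Exponential time over Mathlib's multi-stack Turing machines. -/

namespace Pool.Agent.Cx

open Turing

/-- The class EXPTIME: a deterministic Turing machine outputs the single bit that says whether
the input lies in `L` within `2 ^ p(n)` steps, for a polynomial `p`. -/
def InEXPTIME (L : Language) : Prop :=
  ∃ (f : List Bool → Bool) (M : TM2ComputableInTime (fun x : List Bool => x) (fun b : Bool => [b]) f)
    (p : Polynomial ℕ), (∀ n, M.time n ≤ 2 ^ p.eval n) ∧ ∀ x, x ∈ L ↔ f x = true

/-- Every language in EXPTIME reduces to `L'`. -/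
def EXPTIMEHard (L' : Language) : Prop := ∀ L, InEXPTIME L → Reduces L L'

/-- In EXPTIME and EXPTIME-hard. -/
def EXPTIMEComplete (L : Language) : Prop := InEXPTIME L ∧ EXPTIMEHard L

end Pool.Agent.Cx
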