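import Pool.Agent.Lib.helper10.NPSim
import Pool.Agent.Lib.helper10.NPPred
import Pool.Agent.Lib.helper9.EXDefs

/-! Membership in EXPTIME: padding, safety games. -/

namespace Pool.Agent.Cx

open Function Polynomial Turing

/-- bounded by an exponential of a polynomial -/
def EB (f : ℕ → ℕ) : Prop := ∃ r : ℕ[X], ∀ n, f n ≤ 2 ^ r.eval n

lemma EB.add {f g : ℕ → ℕ} (hf : EB f) (hg : EB g) : EB fun n => f n + g n := by
  obtain ⟨r, h⟩ := hf
  obtain ⟨s, h'⟩ := hg
  refine ⟨r + s + 1, fun n => ?_⟩
  have a := h n
  have b := h' n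
  have c : 1 ≤ 2 ^ r.eval n := Nat.one_le_two_pow
  have d : 1 ≤ 2 ^ s.eval n := Nat.one_le_two_pow
  simp only [eval_add, eval_one, pow_add]
  nlinarith

lemma EB.mul {f g : ℕ → ℕ} (hf : EB f) (hg : EB g) : EB fun n => f n * g n := by
  obtain ⟨r, h⟩ := hf
  obtain ⟨s, h'⟩ := hg
  exact ⟨r + s, fun n => by simp only [eval_add, pow_add]; exact Nat.mul_le_mul (h n) (h' n)⟩

lemma EB.const (c : ℕ) : EB fun _ => c := ⟨C c, fun _ => by simpa using Nat.lt_two_pow_self.le⟩

lemma EB.id : EB fun n => n := ⟨X, fun _ => by simpa using Nat.lt_two_pow_self.le⟩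

lemma EB.exp (p : ℕ[X]) : EB fun n => 2 ^ p.eval n := ⟨p, fun _ => le_rfl⟩

lemma EB.eval {f : ℕ → ℕ} (hf : EB f) (p : ℕ[X]) : EB fun n => p.eval (f n) := by
  induction p using Polynomial.induction_on' with
  | add p q hp hq => simpa using hp.add hq
  | monomial k c =>
    simp only [eval_monomial]
    refine (EB.const c).mul ?_
    induction k with
    | zero => simpa using EB.const 1
    | succ k ih => simpa [pow_succ] using ih.mul hf

lemma iter_comp {α : Type} {ea : α → List Bool} {g : α → α} (hg : PTe ea ea g) :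
    ∃ (P : Prog) (N : ℕ) (p : ℕ[X]), ∀ (n : ℕ) (a : α) (B : ℕ),
      (∀ i ≤ n, (ea (g^[i] a)).length ≤ B) →
      Comp P N (true :: (enc n ++ ea a)) (ea (g^[n] a)) (n * (p.eval B + 30) + 20) := by
  obtain ⟨P, N1, p, h⟩ := hg
  obtain ⟨N, hN1, hN⟩ : ∃ N, N1 ≤ N ∧ 3 ≤ N := ⟨N1 + 3, by omega, by omega⟩
  refine ⟨.seq (.pop 0) (.seq parse (.seq (tr1 1 N (fun b => if b then [true] else []))
    (.loop N (.seq (.pop N) P)))), N + 1, p, fun n a B hq s h0 h1 => ?_⟩
  have h11 : s 1 = [] := h1 1 le_rfl (by omega)
  have h12 : s 2 = [] := h1 2 (by omega) (by omega)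
  have hsN : s N = [] := h1 N (by omega) (by omega)
  have e : enc n = (natBT n).code := rfl
  have n0 : N ≠ 0 := by omega
  have n1 : N ≠ 1 := by omega
  refine RunLe.mono (RunLe.of_eq ((Run.pop 0 s).le.seq ((parse_run (natBT n) _ (ea a)
    (by simp [h0, e]) (by simp [h12])).seq ((tr1_run n1 _ 1 (by intro b; cases b <;> simp) _).seq
    (loop_iter hN1 n0 h _ n a _ ?_ ?_ ?_ hq)))) ?_) ?_
  · simp [n0.symm]
  · simp only [update_self, h11, List.append_nil, natBT_count, update_of_ne (show (1 : ℕ) ≠ 0 by omega),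
      update_of_ne n1, update_of_ne n0, hsN, List.reverse_replicate]
  · intro i hi hi'
    by_cases hi1 : i = 1
    · subst hi1; simp [n1.symm]
    · simp [show i ≠ 0 by omega, show i ≠ N by omega, hi1, h1 i hi (by omega)]
  · funext i
    by_cases hi : i = 0
    · subst hi; simp
    · by_cases hi1 : i = N
      · subst hi1; simp [hi, hsN]
      · by_cases hi2 : i = 1
        · subst hi2; simp [h11, hi1]
        · simp [hi, hi1, hi2]
  · simp only [update_self, List.length_append, natBT_length, List.length_reverse,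
      update_of_ne (show (1 : ℕ) ≠ 0 by omega), h11, List.length_nil]
    generalize eval _ p = z
    nlinarith

lemma Comp.seq {P Q N M x y z n m} (h : Comp P N x y n) (h' : Comp Q M y z m) :
    Comp (.seq P Q) (max N M) x z (n + m) := fun s h0 h1 => by
  have e1 : RunLe P s _ _ := h s h0 (fun i hi hi' => h1 i hi (by omega))
  have e2 : RunLe Q _ _ _ := h' (update s 0 y) (by simp)
    (fun i hi hi' => by rw [update_of_ne (by omega)]; exact h1 i hi (by omega))
  rw [update_idem] at e2
  exact e1.seq e2

lemma inEXP_comp {P N} {f : List Bool → Bool} {T : ℕ → ℕ} (hT : EB T)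
    (h : ∀ x, Comp P N x [f x] (T x.length)) {L : Language} (e : ∀ x, x ∈ L ↔ f x = true) :
    InEXPTIME L := by
  obtain ⟨r, hr⟩ := hT
  refine ⟨f, { tm := machine P, inputAlphabet := Equiv.refl _, outputAlphabet := Equiv.refl _,
               time := T, outputsFun := fun a => ?_ }, r, hr, e⟩
  have h1 := h a (update (fun _ => []) 0 a) (by simp)
    (fun i hi _ => by simp [show i ≠ 0 by omega])
  refine ⟨⟨h1.choose, ?_⟩, h1.choose_spec.1⟩
  have h2 := sim P.top (code P.top P (fun x => x) .halt) h1.choose_spec.2 le_rfl (fun x => x)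
    .halt (fun _ => rfl)
  have e1 : ∀ y : List Bool, restr P.top (update (fun _ => []) 0 y) =
      fun k => @dite (List Bool) (k = (0 : Fin (P.top + 1))) (instDecidableEqFin _ _ _)
        (fun _ => y) (fun _ => []) := by
    intro y; funext k
    by_cases hk : k = 0
    · subst hk; simp [restr]
    · have : k.val ≠ 0 := fun e => hk (Fin.ext e)
      simp [restr, hk, this]
  generalize h1.choose = m at h2 ⊢
  rw [update_idem, e1, e1] at h2
  have e2 : ∀ y : List Bool, List.map (Equiv.refl Bool).invFun y = y := fun y => List.map_id y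
  have key : ∀ x x' y y' : List Bool, x' = x → y' = y →
      (flip bind (machine P).step)^[m] (some (initList (machine P) x)) =
        Option.map (haltList (machine P)) (some y) →
      (flip bind (machine P).step)^[m] (some (initList (machine P) x')) =
        Option.map (haltList (machine P)) (some y') := by
    intro x x' y y' h1 h2 h; subst h1 h2; exact h
  exact key _ _ _ _ (e2 _) (e2 _) h2

/-- padding -/
theorem inEXP_pad {F : List Bool × ℕ → Bool} (hF : PT F) (p : ℕ[X]) {L : Language}
    (h : ∀ x, x ∈ L ↔ F (x, 2 ^ p.eval x.length) = true) : InEXPTIME L := by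
  obtain ⟨PI, N1, q1, hI⟩ : PTe (fun x : List Bool => x) enc
      (fun x => (p.eval x.length, x, 1)) :=
    PTe.comp (g := fun x : List Bool => (p.eval x.length, x, 1)) (show PT _ by fun_prop) PTe.raw
  obtain ⟨PG, N2, q2, hG⟩ := iter_comp
    (show PT (fun z : List Bool × ℕ => (z.1, z.2 + z.2)) by fun_prop)
  obtain ⟨PF, N3, q3, hF⟩ : PTe enc (fun b : Bool => [b]) F :=
    PTe.comp (g := fun b : Bool => b) PTe.outBool hF
  have e : ∀ i (x : List Bool), (fun z : List Bool × ℕ => (z.1, z.2 + z.2))^[i] (x, 1) =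
      (x, 2 ^ i) := fun i x => by
    induction i with
    | zero => rfl
    | succ i ih => rw [iterate_succ_apply', ih, pow_succ, mul_two]
  let B : ℕ → ℕ := fun n => n * 4 + 3 + 2 * 2 ^ p.eval n
  have hB : EB B := ((EB.id.mul (.const 4)).add (.const 3)).add ((EB.const 2).mul (.exp p))
  have sz : ∀ (x : List Bool) i, i ≤ p.eval x.length → (enc (x, 2 ^ i)).length ≤ B x.length := by
    intro x i hi
    have a := size_list_le x 3 fun b _ => size_bool b
    have b := size_pair x (2 ^ i)
    have c := Nat.pow_le_pow_right (show 0 < 2 by omega) hi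
    simp only [size_nat] at b
    unfold size at *
    simp only [B]
    omega
  refine inEXP_comp (P := .seq (.seq PI PG) PF) (N := max (max N1 N2) N3)
    (((EB.id.eval q1).add (((EB.id.eval p).mul ((hB.eval q2).add (.const 30))).add
    (.const 20))).add (hB.eval q3)) (fun x => ?_) h
  have := hG (p.eval x.length) (x, 1) (B x.length) fun i hi => e i x ▸ sz x i hi
  rw [e] at this
  exact ((hI x).seq this).seq ((hF _).mono le_rfl (eval_mono _ (sz x _ le_rfl)))

variable {α β γ : Type} [Enc α] [Enc β] [Enc γ]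

theorem inEXP_Lang [Dec α] {P : α → Prop} {F : α × ℕ → Prop} (hF : PP F) (p : ℕ[X])
    (h : ∀ a, P a ↔ F (a, 2 ^ p.eval (size a))) : InEXPTIME (Lang P) := by
  obtain ⟨f, hf, e⟩ := hF
  refine inEXP_pad (F := fun z => (enc (decode z.1 : α) == z.1) && f (decode z.1, z.2))
    (by fun_prop) p fun x => ?_
  simp only [mem_Lang', Bool.and_eq_true, beq_iff_eq, h, e]
  exact and_congr_right fun a => by rw [size, a]

/-- all words of length `k` over `l` -/
def words (l : List β) : ℕ → List (List β)
  | 0 => [[]]
  | k + 1 => (words l k).flatMap fun w => l.map (· :: w)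

omit [Enc β] in
lemma mem_words {l : List β} {k w} : w ∈ words l k ↔ w.length = k ∧ ∀ x ∈ w, x ∈ l := by
  induction k generalizing w with
  | zero => simp [words]; rintro rfl; simp
  | succ k ih =>
    cases w with
    | nil => simp [words]
    | cons a w => simp [words, ih]; tauto

omit [Enc β] in
lemma length_words (l : List β) (k) : (words l k).length = l.length ^ k := by
  induction k with
  | zero => rfl
  | succ k ih => simp [words, List.length_flatMap, ih, pow_succ]

def wordsB (l : List β) (k N : ℕ) : List (List β) :=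
  (fun W : List (List β) => (W.flatMap fun w => l.map (· :: w)).take N)^[k] [[]]

omit [Enc β] in
lemma wordsB_eq (l : List β) (k N : ℕ) (h : (l.length + 1) ^ k ≤ N) : wordsB l k N = words l k := by
  induction k with
  | zero => rfl
  | succ k ih =>
    unfold wordsB at *
    rw [iterate_succ_apply', ih (le_trans (Nat.pow_le_pow_right (by omega) (by omega)) h)]
    refine List.take_of_length_le (le_trans ?_ h)
    exact (length_words l (k + 1)).le.trans (Nat.pow_le_pow_left (by omega) _)

@[fun_prop] lemma PT.wordsB {l : α → List β} {k N : α → ℕ} (hl : PT l) (hk : PT k) (hN : PT N) :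
    PT fun a => wordsB (l a) (k a) (N a) := by
  obtain ⟨p1, h1⟩ := hl.bound
  obtain ⟨p2, h2⟩ := hk.bound
  obtain ⟨p3, h3⟩ := hN.bound
  refine PT.iterate (g := fun a (W : List (List β)) =>
    (W.flatMap fun w => (l a).map (· :: w)).take (N a)) (init := fun _ => [[]]) (by fun_prop) hk (by fun_prop) ((p3 + 1) * (p2 * (p1 + 1) + 2) + 1) fun a i hi => ?_
  have : (Cx.wordsB (l a) i (N a)).length ≤ N a + 1 ∧ ∀ w ∈ Cx.wordsB (l a) i (N a),
      Cx.size w ≤ i * (Cx.size (l a) + 1) + 1 := by
    clear hi
    unfold Cx.wordsB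
    induction i with
    | zero => simp
    | succ i ih =>
      rw [iterate_succ_apply']
      refine ⟨by simp, fun w hw => ?_⟩
      obtain ⟨w', hw', h⟩ := List.mem_flatMap.1 (List.mem_of_mem_take hw)
      obtain ⟨x, hx, rfl⟩ := List.mem_map.1 h
      have := ih.2 w' hw'
      have := size_lt_of_mem hx
      simp only [size_cons]
      nlinarith
  refine (size_list_le _ _ this.2).trans ?_
  have a1 := h1 a
  have a2 := h2 a
  have a3 := h3 a
  have a4 := this.1
  simp only [size_nat] at a2 a3
  simp only [eval_add, eval_mul, eval_one, eval_ofNat]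
  have : i * (Cx.size (l a) + 1) ≤ p2.eval (Cx.size a) * (p1.eval (Cx.size a) + 1) :=
    Nat.mul_le_mul (by omega) (by omega)
  exact Nat.add_le_add_right (Nat.mul_le_mul (a4.trans (by omega)) (by omega)) 1

/-- the greatest fixed point of a pruning step -/
lemma PP.safe {S : α → List β} {A : α → List γ} {R : α → β → γ → β → Prop} (hS : PT S) (hA : PT A)
    (hR : PP fun z : α × β × γ × β => R z.1 z.2.1 z.2.2.1 z.2.2.2) :
    PP fun a => ∃ W : Set β, W.Nonempty ∧ (∀ s ∈ W, s ∈ S a) ∧
      ∀ s ∈ W, ∀ t ∈ A a, ∃ s' ∈ W, R a s t s' := by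
  classical
  let g : α → List β → List β := fun a W => W.filter fun s =>
    Decidable.decide (∀ t ∈ A a, ∃ s' ∈ W, R a s t s')
  have hg : PT fun z : α × List β => g z.1 z.2 := by
    refine PT.filter (PP.decide (PP.ball (l := fun x : (α × List β) × β => A x.1.1)
      (PP.bex (l := fun x : ((α × List β) × β) × γ => x.1.1.2) ?_ (by fun_prop)) (by fun_prop)))
      (by fun_prop)
    exact hR.comp (f := fun x : ((((α × List β) × β) × γ) × β) => (x.1.1.1.1, x.1.1.2, x.1.2, x.2))
      (by fun_prop)
  obtain ⟨p, hp⟩ := hS.bound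
  have sub : ∀ a i, ((g a)^[i] (S a)).Sublist (S a) := fun a i => by
    induction i with
    | zero => exact .refl _
    | succ i ih => rw [iterate_succ_apply']; exact List.filter_sublist.trans ih
  refine ⟨fun a => !((g a)^[(S a).length] (S a)).isEmpty, (PT.iterate hg hS.length hS p
    fun a i _ => (size_le_of_sublist (sub a i)).trans (hp a)).isEmpty.not, fun a => ?_⟩
  simp only [Bool.not_eq_true', List.isEmpty_eq_false_iff_exists_mem]
  constructor
  · rintro ⟨W, ⟨s, hs⟩, h1, h2⟩
    suffices ∀ i, ∀ s ∈ W, s ∈ (g a)^[i] (S a) from ⟨s, this _ s hs⟩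
    intro i
    induction i with
    | zero => exact h1
    | succ i ih =>
      intro s hs
      rw [iterate_succ_apply']
      refine List.mem_filter.2 ⟨ih s hs, decide_eq_true fun t ht => ?_⟩
      obtain ⟨s', a, b⟩ := h2 s hs t ht
      exact ⟨s', ih s' a, b⟩
  · rintro ⟨s, hs⟩
    have : ∀ i, g a ((g a)^[i] (S a)) = (g a)^[i] (S a) ∨
        ((g a)^[i] (S a)).length + i ≤ (S a).length := fun i => by
      induction i with
      | zero => simp
      | succ i ih =>
        rw [iterate_succ_apply']
        by_cases e : g a ((g a)^[i] (S a)) = (g a)^[i] (S a)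
        · left; rw [e, e]
        · right
          have h1 : (g a ((g a)^[i] (S a))).Sublist ((g a)^[i] (S a)) := List.filter_sublist
          have := h1.length_le.lt_of_ne fun h => e (h1.eq_of_length h)
          have := ih.resolve_left e
          omega
    have e := (this (S a).length).resolve_right (by have := List.length_pos_of_mem hs; omega)
    refine ⟨{s | s ∈ (g a)^[(S a).length] (S a)}, ⟨s, hs⟩, fun s h => (sub a _).subset h,
      fun s h => ?_⟩
    have h' : s ∈ g a ((g a)^[(S a).length] (S a)) := by rw [e]; exact h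
    simpa using (List.mem_filter.1 h').2

end Pool.Agent.Cx
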