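import Pool.Agent.Lib.helper9.PSHard
import Pool.Agent.Lib.helper9.EXIter

/-! A safety game on variables, and the simulation of two binary counters in it. -/

namespace Pool.Agent.Cx

open Function Finset

abbrev Op := ℕ × List (ℕ × ℕ) × List (ℕ × ℕ)

/-- the operator `o` lets variable `i` go from `u` to `v` -/
def Al (o : Op) (i u v : ℕ) : Prop :=
  (∀ x ∈ o.2.1, x.1 = i → u = x.2) ∧ (∀ x ∈ o.2.2, x.1 = i → v = x.2) ∧
    ((∀ x ∈ o.2.2, x.1 ≠ i) → v = u)

/-- the attacker names an action, the defender answers with an operator of that action -/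
def SG (I : ℕ × List Op) : Prop := ∃ W : Set (ℕ → ℕ), W.Nonempty ∧
  ∀ σ ∈ W, ∀ a < I.1 + 2, ∃ o ∈ I.2, o.1 = a ∧ ∃ σ' ∈ W, ∀ i, Al o i (σ i) (σ' i)

def val (B : ℕ) (f : ℕ → ℕ) : ℕ := ∑ i ∈ range B, f i * 2 ^ i

lemma val_congr {B f g} (h : ∀ i < B, f i = g i) : val B f = val B g :=
  sum_congr rfl fun i hi => by rw [h i (mem_range.1 hi)]

lemma val_set (B m : ℕ) : val B (fun i => if i < m then 1 else 0) + 1 = 2 ^ min m B := by
  induction B with
  | zero => simp [val]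
  | succ B ih =>
    simp only [val, sum_range_succ] at *
    split_ifs with h
    · rw [min_eq_right h.le] at ih; rw [min_eq_right h, pow_succ]; omega
    · rw [min_eq_left (by omega)] at ih ⊢; omega

lemma val_inc {B b : ℕ} {f g : ℕ → ℕ} (hb : b < B) (h1 : ∀ i < b, f i = 1 ∧ g i = 0) (h2 : f b = 0)
    (h3 : g b = 1) (h4 : ∀ i, b < i → g i = f i) : val B g = val B f + 1 := by
  induction B, hb using Nat.le_induction with
  | base =>
    have a := val_set b b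
    have c := val_set b 0
    rw [← val_congr (f := f) fun i hi => by simp [hi, h1 i hi]] at a
    rw [← val_congr (f := g) fun i hi => by simp [h1 i hi]] at c
    unfold val at *
    simp only [sum_range_succ, h2, h3, min_self, Nat.zero_min] at *
    omega
  | succ B hb ih =>
    unfold val at *
    simp only [sum_range_succ, h4 B hb]
    omega

lemma val_zero {B f} : val B f = 0 ↔ ∀ i < B, f i = 0 := by simp [val]

lemma val_bits (B n : ℕ) (h : n < 2 ^ B) : ∃ f, (∀ i, f i ≤ 1) ∧ val B f = n := by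
  induction B generalizing n with
  | zero => exact ⟨0, by simp, by simp [val]; omega⟩
  | succ B ih =>
    obtain ⟨f, a, b⟩ := ih (n % 2 ^ B) (Nat.mod_lt _ (by positivity))
    refine ⟨update f B (n / 2 ^ B), fun i => ?_, ?_⟩
    · by_cases e : i = B
      · simp only [e, update_self]
        exact Nat.le_of_lt_succ (Nat.div_lt_of_lt_mul (by rwa [pow_succ] at h))
      · simp [e, a]
    · have := val_congr (B := B) (f := update f B (n / 2 ^ B)) (g := f) fun i hi => by simp [hi.ne]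
      unfold val at *
      rw [sum_range_succ, this, b, update_self, Nat.mod_add_div']

abbrev T5 := ℕ × ℕ × ℕ × ℕ × ℕ

def cd (c : T5) : ℕ := Nat.pair c.1 (Nat.pair c.2.1 (Nat.pair c.2.2.1 (Nat.pair c.2.2.2.1 c.2.2.2.2)))

lemma cd_inj {c c' : T5} : cd c = cd c' ↔ c = c' := by simp [cd, Nat.pair_eq_pair, Prod.ext_iff]

lemma cd_surj (n : ℕ) : ∃ c, cd c = n := ⟨(n.unpair.1, n.unpair.2.unpair.1,
  n.unpair.2.unpair.2.unpair.1, n.unpair.2.unpair.2.unpair.2.unpair), by simp [cd]⟩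

abbrev Mv := T5 × ℕ × Bool × ℕ

/-- counter instructions: increment, decrement, zero test, assignment, nothing -/
def Kd (B : ℕ) (z : Mv) (n n' : Bool → ℕ) : Prop := n' (!z.2.2.1) = n (!z.2.2.1) ∧
  if z.2.1 = 0 then n' z.2.2.1 = n z.2.2.1 + 1 else if z.2.1 = 1 then n z.2.2.1 = n' z.2.2.1 + 1 else
  if z.2.1 = 2 then n z.2.2.1 = 0 ∧ n' z.2.2.1 = 0 else
  if z.2.1 = 3 then n' z.2.2.1 + 1 = 2 ^ min z.2.2.2 B else n' z.2.2.1 = n z.2.2.1

def pat (e : Bool) (b u v : ℕ) : List (ℕ × ℕ) := (bit e b, u) :: (List.range b).map fun i => (bit e i, v)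

def cop (B a : ℕ) (pre : List (ℕ × ℕ)) (z : Mv) : List Op :=
  if z.2.1 = 0 then (List.range B).map fun b =>
    (a, pre ++ pat z.2.2.1 b 0 1, (0, cd z.1) :: pat z.2.2.1 b 1 0) else
  if z.2.1 = 1 then (List.range B).map fun b =>
    (a, pre ++ pat z.2.2.1 b 1 0, (0, cd z.1) :: pat z.2.2.1 b 0 1) else
  if z.2.1 = 2 then [(a, pre ++ (List.range B).map fun i => (bit z.2.2.1 i, 0), [(0, cd z.1)])] else
  if z.2.1 = 3 then [(a, pre, (0, cd z.1) ::
    (List.range B).map fun i => (bit z.2.2.1 i, if i < z.2.2.2 then 1 else 0))] else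
  [(a, pre, [(0, cd z.1)])]

def cn (B : ℕ) (σ : ℕ → ℕ) (e : Bool) : ℕ := val B fun i => σ (bit e i)

lemma al_iff {o : Op} {σ σ' : ℕ → ℕ} : (∀ i, Al o i (σ i) (σ' i)) ↔ (∀ x ∈ o.2.1, σ x.1 = x.2) ∧
    (∀ x ∈ o.2.2, σ' x.1 = x.2) ∧ ∀ i, (∀ x ∈ o.2.2, x.1 ≠ i) → σ' i = σ i :=
  ⟨fun h => ⟨fun x hx => (h _).1 x hx rfl, fun x hx => (h _).2.1 x hx rfl, fun i => (h i).2.2⟩,
    fun h i => ⟨fun x hx e => e ▸ h.1 x hx, fun x hx e => e ▸ h.2.1 x hx, h.2.2 i⟩⟩

lemma cop_sound {B a pre z o} {σ σ' : ℕ → ℕ} (h : o ∈ cop B a pre z) :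
    o.1 = a ∧ ((∀ i, Al o i (σ i) (σ' i)) →
      (∀ x ∈ pre, σ x.1 = x.2) ∧ σ' 0 = cd z.1 ∧ Kd B z (cn B σ) (cn B σ')) := by
  obtain ⟨c, k, e, m⟩ := z
  have ne : ∀ i j, bit e i ≠ bit (!e) j := fun i j => by simp [bit_inj]
  have := fun e i => (bit_ne e i).symm
  simp only [cop, Kd, al_iff] at h ⊢
  split_ifs at h ⊢ <;> simp only [List.mem_map, List.mem_range, List.mem_singleton] at h
  iterate 2
    obtain ⟨b, hb, rfl⟩ := h
    simp only [pat, List.forall_mem_append, List.forall_mem_cons, List.forall_mem_map,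
      List.mem_range, true_and, and_imp]
    refine fun a1 a2 a3 a4 a5 a6 a7 => ⟨a1, a4, val_congr fun i _ => a7 _ (this _ _) (ne _ _)
      fun _ _ => ne _ _, val_inc hb (fun i hi => by simp [a3 i hi, a6 i hi]) (by assumption)
        (by assumption) fun i hi => ?_⟩
    rw [a7 _ (this _ _) (by simp [bit_inj]; omega) fun j hj => by simp [bit_inj]; omega]
  all_goals
    subst h
    simp only [List.forall_mem_append, List.forall_mem_cons, List.forall_mem_map, List.mem_range,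
      true_and, and_imp, List.not_mem_nil, false_imp_iff, implies_true, and_true]
  · refine fun a1 a2 a3 a4 => ⟨a1, a3, val_congr fun i _ => a4 _ (this _ _), val_zero.2 a2,
      val_zero.2 fun i hi => ?_⟩
    rw [a4 _ (this _ _), a2 i hi]
  · refine fun a1 a2 a3 a4 => ⟨a1, a2, val_congr fun i _ => a4 _ (this _ _) fun _ _ => ne _ _, ?_⟩
    rw [← val_set]
    exact congrArg (· + 1) (val_congr a3)
  · exact fun a1 a2 a3 => ⟨a1, a2, val_congr fun i _ => a3 _ (this _ _),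
      val_congr fun i _ => a3 _ (this _ _)⟩

lemma cop_compl {B a pre z n'} {σ : ℕ → ℕ} (h1 : ∀ x ∈ pre, σ x.1 = x.2) (h2 : ∀ e i, σ (bit e i) ≤ 1)
    (h3 : Kd B z (cn B σ) n') (h4 : ∀ e, n' e < 2 ^ B) : ∃ o ∈ cop B a pre z, ∃ σ' : ℕ → ℕ,
      (∀ i, Al o i (σ i) (σ' i)) ∧ σ' 0 = cd z.1 ∧ cn B σ' = n' ∧ ∀ e i, σ' (bit e i) ≤ 1 := by
  classical
  suffices ∃ o ∈ cop B a pre z, (∀ x ∈ o.2.1, σ x.1 = x.2) ∧
      (∀ x ∈ o.2.2, ∀ y ∈ o.2.2, x.1 = y.1 → x.2 = y.2) ∧ ∀ x ∈ o.2.2, x.1 = 0 ∨ x.2 ≤ 1 by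
    obtain ⟨o, ho, a1, a2, a3⟩ := this
    have h : ∀ i, Al o i (σ i) (if h : ∃ x ∈ o.2.2, x.1 = i then h.choose.2 else σ i) := by
      refine al_iff.2 ⟨a1, fun x hx => ?_, fun i hi => dif_neg fun ⟨x, hx, e⟩ => hi x hx e⟩
      have h : ∃ y ∈ o.2.2, y.1 = x.1 := ⟨x, hx, rfl⟩
      exact (dif_pos h).trans (a2 _ h.choose_spec.1 _ hx h.choose_spec.2)
    obtain ⟨-, b1, b2⟩ := (cop_sound ho).2 h
    refine ⟨o, ho, _, h, b1, funext fun e => ?_, fun e i => ?_⟩
    · by_cases e' : e = z.2.2.1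
      · have := h3.2
        have := b2.2
        subst e'
        split_ifs at * <;> omega
      · rw [Bool.eq_not_of_ne e', b2.1, h3.1]
    · split_ifs with h
      · exact (a3 _ h.choose_spec.1).resolve_left fun e => bit_ne _ _ (h.choose_spec.2.symm.trans e)
      · exact h2 _ _
  obtain ⟨c, k, e, m⟩ := z
  have ne := fun e i => (bit_ne e i).symm
  have key : ∀ u v, (∃ b < B, σ (bit e b) = u) → (∀ i, σ (bit e i) ≠ u → σ (bit e i) = v) →
      u ≤ 1 → v ≤ 1 → ∃ o ∈ (List.range B).map fun b =>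
      ((a, pre ++ pat e b u v, (0, cd c) :: pat e b v u) : Op), (∀ x ∈ o.2.1, σ x.1 = x.2) ∧
      (∀ x ∈ o.2.2, ∀ y ∈ o.2.2, x.1 = y.1 → x.2 = y.2) ∧ ∀ x ∈ o.2.2, x.1 = 0 ∨ x.2 ≤ 1 := by
    intro u v h h' hu hv
    refine ⟨_, List.mem_map_of_mem (List.mem_range.2 (Nat.find_spec h).1), ?_⟩
    have a1 := (Nat.find_spec h).2
    have a2 : ∀ i < Nat.find h, σ (bit e i) = v := fun i hi =>
      h' i fun e => Nat.find_min h hi ⟨hi.trans (Nat.find_spec h).1, e⟩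
    generalize Nat.find h = b at *
    simp only [pat, List.forall_mem_append, List.forall_mem_cons, List.forall_mem_map,
      List.mem_range, bit_inj, ne, bit_ne, hu, hv]
    refine ⟨⟨h1, a1, a2⟩, ?_, by simp⟩
    simp only [false_imp_iff, implies_true, true_and, and_true]
    exact ⟨fun i hi e => by omega, fun i hi e => by omega⟩
  have h5 := h3.2
  simp only [cop] at h5 ⊢
  split_ifs at h5 ⊢
  · refine key 0 1 ?_ (fun i => by have := h2 e i; omega) (by omega) le_rfl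
    by_contra! h
    have a := val_set B B
    rw [← val_congr (f := fun i => σ (bit e i)) fun i hi => by
      have := h i hi; have := h2 e i; simp only [hi, if_true]; omega, min_self] at a
    have := h4 e
    unfold cn at h5
    omega
  · refine key 1 0 ?_ (fun i => by have := h2 e i; omega) le_rfl (by omega)
    by_contra! h
    have : cn B σ e = 0 := val_zero.2 fun i hi => by have := h i hi; have := h2 e i; omega
    omega
  · refine ⟨_, List.mem_singleton_self _, ?_, by simp⟩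
    simp only [List.forall_mem_append, List.forall_mem_map, List.mem_range]
    exact ⟨h1, val_zero.1 h5.1⟩
  · refine ⟨_, List.mem_singleton_self _, h1, ?_⟩
    simp only [List.forall_mem_cons, List.forall_mem_map, List.mem_range, bit_inj, ne, bit_ne]
    refine ⟨⟨by simp, fun i _ => ⟨by simp, fun j _ h => by rw [h.2]⟩⟩, by simp, fun i _ => ?_⟩
    split_ifs <;> simp
  · simpa using h1

/-- the game on a control state and two counters -/
def CG (nA B : ℕ) (z0 : Mv) (mv : ℕ → T5 → List Mv) (W : Set (T5 × (Bool → ℕ))) : Prop :=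
  W.Nonempty ∧ ∀ s ∈ W, (∃ n, (z0.1, n) ∈ W ∧ Kd B z0 s.2 n) ∧
    ∀ b ≤ nA, ∃ z ∈ mv b s.1, ∃ n, (z.1, n) ∈ W ∧ Kd B z s.2 n

def cgInst (nA B : ℕ) (z0 : Mv) (mv : ℕ → T5 → List Mv) (Cs : List T5) : ℕ × List Op :=
  (nA, cop B 0 [] z0 ++ (List.range (nA + 1)).flatMap fun b => Cs.flatMap fun c =>
    (mv b c).flatMap (cop B (b + 1) [(0, cd c)]))

lemma cg_of_sg {nA B z0 mv Cs} (h : SG (cgInst nA B z0 mv Cs)) : ∃ W, CG nA B z0 mv W := by
  obtain ⟨W, ⟨σ, hσ⟩, h⟩ := h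
  simp only [cgInst, List.mem_append, List.mem_flatMap, List.mem_range] at h
  obtain ⟨c, hc⟩ := cd_surj (σ 0)
  refine ⟨{s | ∃ σ ∈ W, cd s.1 = σ 0 ∧ s.2 = cn B σ}, ⟨(c, _), σ, hσ, hc, rfl⟩, ?_⟩
  rintro ⟨c, _⟩ ⟨σ, hσ, hc, rfl⟩
  refine ⟨?_, fun b hb => ?_⟩
  · obtain ⟨o, ho | ⟨b, -, c, -, z, -, ho⟩, a, σ', h1, h2⟩ := h σ hσ 0 (by omega)
    · obtain ⟨-, a, b⟩ := (cop_sound ho).2 h2
      exact ⟨_, ⟨σ', h1, a.symm, rfl⟩, b⟩
    · have := (cop_sound (σ := σ) (σ' := σ) ho).1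
      omega
  · obtain ⟨o, ho | ⟨b', -, c', -, z, hz, ho⟩, a, σ', h1, h2⟩ := h σ hσ (b + 1) (by omega)
    · have := (cop_sound (σ := σ) (σ' := σ) ho).1
      omega
    · obtain ⟨a1, a2⟩ := cop_sound (σ := σ) (σ' := σ') ho
      obtain ⟨a2, a3, a4⟩ := a2 h2
      obtain rfl : b' = b := by omega
      obtain rfl : c = c' := cd_inj.1 (hc.trans (a2 _ List.mem_cons_self))
      exact ⟨z, hz, _, ⟨σ', h1, a3.symm, rfl⟩, a4⟩

lemma sg_of_cg {nA B z0 mv Cs W} (h : CG nA B z0 mv W)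
    (hW : ∀ s ∈ W, s.1 ∈ Cs ∧ ∀ e, s.2 e < 2 ^ B) : SG (cgInst nA B z0 mv Cs) := by
  obtain ⟨⟨s, hs⟩, h⟩ := h
  refine ⟨{σ | (∀ e i, σ (bit e i) ≤ 1) ∧ ∃ c, σ 0 = cd c ∧ (c, cn B σ) ∈ W}, ?_, ?_⟩
  · choose f a b using fun e => val_bits B _ ((hW s hs).2 e)
    have : ∀ e i, (fun j => if j = 0 then cd s.1 else f (j % 2 = 0) ((j - 1) / 2)) (bit e i) = f e i :=
      fun e i => by
        simp only [if_neg (bit_ne e i)]
        congr 1 <;> cases e <;> simp [bit] <;> omega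
    refine ⟨fun j => if j = 0 then cd s.1 else f (j % 2 = 0) ((j - 1) / 2),
      fun e i => (this e i).le.trans (a e i), s.1, rfl, ?_⟩
    convert hs using 2
    exact funext fun e => (val_congr fun i _ => this e i).trans (b e)
  · rintro σ ⟨h1, c, h2, h3⟩ a ha
    simp only [cgInst, List.mem_append, List.mem_flatMap, List.mem_range] at ha ⊢
    cases a with
    | zero =>
      obtain ⟨n, a1, a2⟩ := (h _ h3).1
      obtain ⟨o, ho, σ', b1, b2, rfl, b4⟩ := cop_compl (a := 0) (pre := []) (by simp) h1 a2 (hW _ a1).2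
      exact ⟨o, Or.inl ho, (cop_sound (σ := σ) (σ' := σ) ho).1, σ', ⟨b4, _, b2, a1⟩, b1⟩
    | succ b =>
      obtain ⟨z, hz, n, a1, a2⟩ := (h _ h3).2 b (by omega)
      obtain ⟨o, ho, σ', b1, b2, rfl, b4⟩ := cop_compl (a := b + 1) (pre := [(0, cd c)])
        (by simpa) h1 a2 (hW _ a1).2
      exact ⟨o, Or.inr ⟨b, by omega, c, (hW _ h3).1, z, hz, ho⟩,
        (cop_sound (σ := σ) (σ' := σ) ho).1, σ', ⟨b4, _, b2, a1⟩, b1⟩

end Pool.Agent.Cx
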