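import Pool.Agent.Lib.helper9.EXCnt

/-! The safety game on variables is EXPTIME-hard. -/

namespace Pool.Agent.Cx

open Function Polynomial Turing

variable {α β : Type} [Enc α] [Enc β]

/-- every EXPTIME language reduces to `P` by a function of the class `PT` -/
def HardEX (P : α → Prop) : Prop :=
  ∀ L, InEXPTIME L → ∃ g : List Bool → α, PT g ∧ ∀ x, x ∈ L ↔ P (g x)

theorem HardEX.red {P : α → Prop} {Q : β → Prop} (h : HardEX P) {r : α → β} (hr : PT r)
    (e : ∀ a, P a ↔ Q (r a)) : HardEX Q := fun L hL =>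
  let ⟨g, hg, h'⟩ := h L hL
  ⟨fun x => r (g x), hr.comp hg, fun x => (h' x).trans (e _)⟩

theorem HardEX.hard [Dec α] {P : α → Prop} (h : HardEX P) : EXPTIMEHard (Lang P) := fun L hL =>
  let ⟨g, hg, h'⟩ := h L hL
  ⟨fun x => enc (g x), polyTime_of_PT hg, fun x => (h' x).trans mem_Lang.symm⟩

/-- moves of the game in which a prover defends a claim about a cell of a computation -/
def fmv (R : List Rule) (D r1 cT n : ℕ) (y : ℕ → ℕ → ℕ) (b : ℕ) (c : T5) : List Mv :=
  if c.1 = 0 then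
    if c.2.2.2.1 ≠ 0 then [((0, c.2.1, c.2.2.1, c.2.2.2.1 - 1, c.2.2.2.2), 1, true, 0)] else
    if c.2.2.2.2 ≠ 0 then [((0, c.2.1, c.2.2.1, 0, c.2.2.2.2 - 1), 0, true, 0)] else
    ((3, c.2.1, c.2.2.1, 0, 0), 2, false, 0) ::
      (List.range R.length).map fun r => ((1, c.2.1, c.2.2.1, r, 0), 1, false, 0) else
  if c.1 = 1 then
    if b < (R.getD c.2.2.2.1 ([], [], [])).1.length then
      [((0, ((R.getD c.2.2.2.1 ([], [], [])).1.getD b (0, 0, 0)).1,
        ((R.getD c.2.2.2.1 ([], [], [])).1.getD b (0, 0, 0)).2.2, 0,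
        ((R.getD c.2.2.2.1 ([], [], [])).1.getD b (0, 0, 0)).2.1), 3, true, 0)] else
    ((R.getD c.2.2.2.1 ([], [], [])).2.1.filter fun x => x.1 == c.2.1 && x.2.2 == c.2.2.1).map
      (fun x => ((2, 0, 0, x.2.1, 0), 4, true, 0)) ++
    ((R.getD c.2.2.2.1 ([], [], [])).2.2.filter fun x => x.1 == c.2.1).map
      fun x => ((0, c.2.1, c.2.2.1, x.2, D), 4, true, 0) else
  if c.1 = 2 then
    if c.2.2.2.1 ≠ 0 then [((2, 0, 0, c.2.2.2.1 - 1, 0), 1, true, 0)] else
    [((2, 0, 0, 0, 0), 2, true, 0)] else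
  if c.1 = 3 then
    (if c.2.2.2.1 < n then [((3, c.2.1, c.2.2.1, c.2.2.2.1 + 1, 0), 1, true, 0)] else []) ++
    if y c.2.1 c.2.2.2.1 = c.2.2.1 then [((2, 0, 0, 0, 0), if c.2.2.2.1 < n then 2 else 3, true, 0)]
    else [] else
  [((0, r1, cT, 0, 0), 3, true, 0)]

lemma fact_sound {R : List Rule} {D r1 cT n B m : ℕ} {y} {s : ℕ → ℕ → ℕ → ℕ} {W}
    (h : CG (size R) B ((4, 0, 0, 0, 0), 3, false, m) (fmv R D r1 cT n y) W)
    (h0 : ∀ k j, s 0 k j = y k j) (hy : ∀ k j, n ≤ j → y k j = y k n)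
    (H : ∀ t, ∀ r ∈ R, (∀ x ∈ r.1, s t x.1 x.2.1 = x.2.2) →
      (∀ x ∈ r.2.1, s (t + 1) x.1 x.2.1 = x.2.2) ∧
        ∀ x ∈ r.2.2, ∀ j, s (t + 1) x.1 (j + x.2) = s t x.1 (j + D)) :
    s (2 ^ min m B - 1) r1 0 = cT := by
  obtain ⟨⟨w, hw⟩, h⟩ := h
  have hZ : ∀ d c, ((2, 0, 0, d, 0), c) ∈ W → c true = d := fun d => by
    induction d with
    | zero => intro c hc; have := (h _ hc).2 0 (by omega); simp [fmv, Kd] at this; tauto
    | succ d ih =>
      intro c hc
      have := (h _ hc).2 0 (by omega)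
      simp [fmv, Kd] at this
      obtain ⟨c', a, -, b⟩ := this
      rw [b, ih _ a]
  have hI : ∀ j k a i c, c true = j → ((3, k, a, i, 0), c) ∈ W → y k (i + j) = a := fun j => by
    induction j using Nat.strong_induction_on with
    | _ j ih =>
      intro k a i c e hc
      obtain ⟨z, hz, c', a1, a2⟩ := (h _ hc).2 0 (by omega)
      simp [fmv] at hz
      rcases hz with ⟨hi, rfl⟩ | ⟨hi, rfl⟩
      · simp [Kd] at a2
        rw [← ih (c' true) (by omega) k a _ _ rfl a1]
        congr 1; omega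
      · by_cases h' : i < n
        · simp [Kd, h'] at a2
          rwa [← e, a2.2.1]
        · rw [hy _ _ (by omega), ← hy k i (by omega), hi]
  have hS : ∀ t d u k a c, c false = t → ((0, k, a, d, u), c) ∈ W →
      d ≤ c true ∧ s t k (c true - d + u) = a := fun t => by
    induction t using Nat.strong_induction_on with
    | _ t ih =>
      intro d
      induction d with
      | succ d ihd =>
        intro u k a c e hc
        have := (h _ hc).2 0 (by omega)
        simp [fmv, Kd] at this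
        obtain ⟨c', a1, a2, a3⟩ := this
        obtain ⟨b1, b2⟩ := ihd _ _ _ _ (a2.trans e) a1
        exact ⟨by omega, by rw [← b2]; congr 1; omega⟩
      | zero =>
        intro u
        induction u with
        | succ u ihu =>
          intro k a c e hc
          have := (h _ hc).2 0 (by omega)
          simp [fmv, Kd] at this
          obtain ⟨c', a1, a2, a3⟩ := this
          obtain ⟨b1, b2⟩ := ihu _ _ _ (a2.trans e) a1
          exact ⟨by omega, by rw [← b2]; congr 1; omega⟩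
        | zero =>
          intro k a c e hc
          obtain ⟨z, hz, c', a1, a2⟩ := (h _ hc).2 0 (by omega)
          simp [fmv] at hz
          refine ⟨by omega, ?_⟩
          rcases hz with rfl | ⟨r, hr, rfl⟩ <;> simp [Kd] at a2
          · have := hI _ _ _ _ _ rfl a1
            rw [← e, a2.2.1, h0, ← a2.1, ← this]; simp
          obtain ⟨b1, b2⟩ := H (c' false) _ (List.getElem_mem hr) fun x hx => by
            obtain ⟨b, hb, rfl⟩ := List.getElem_of_mem hx
            have := size_lt_of_mem (List.getElem_mem hr)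
            have := size_pair R[r].1 R[r].2
            have := length_lt_size R[r].1
            have := (h _ a1).2 b (by simp only [Prod.mk.eta] at *; omega)
            simp [fmv, Kd, hr, hb] at this
            obtain ⟨c2, b1, b2, b3⟩ := this
            simpa [b3] using (ih _ (by omega) _ _ _ _ _ b2 b1).2
          have := size_lt_of_mem (List.getElem_mem hr)
          have := size_pair R[r].1 R[r].2
          have := length_lt_size R[r].1
          obtain ⟨z, hz, c2, b3, b4⟩ := (h _ a1).2 R[r].1.length (by simp only [Prod.mk.eta] at *; omega)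
          simp [fmv, hr] at hz
          rw [← e, a2.2, ← a2.1]
          rcases hz with ⟨j, hj, rfl⟩ | ⟨l, hl, rfl⟩ <;> simp [Kd] at b4
          · rw [← b4.2, hZ _ _ b3]; exact b1 _ hj
          · obtain ⟨b5, b6⟩ := ih _ (by omega) _ _ _ _ _ b4.1 b3
            rw [← b6, ← b2 _ hl, ← b4.2]
            congr 1; simp only; omega
  obtain ⟨c, a1, -, a2⟩ := (h _ hw).1
  have := (h _ a1).2 0 (by omega)
  simp [fmv, Kd] at this a2
  obtain ⟨c', b1, b2, b3⟩ := this
  simpa [b3] using (hS (2 ^ min m B - 1) _ _ _ _ _ (by omega) b1).2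

def box (N : ℕ) : List T5 :=
  List.range 5 ×ˢ List.range N ×ˢ List.range N ×ˢ List.range N ×ˢ List.range N

lemma fact_compl {R : List Rule} {D r1 cT n m nK A : ℕ} {y} {s : ℕ → ℕ → ℕ → ℕ} (hA : ∀ t k j, s t k j < A)
    (h0 : ∀ k j, s 0 k j = y k j) (hy : ∀ k j, n ≤ j → y k j = y k n) (hr : r1 ≤ nK)
    (H : ∀ t, ∃ r ∈ R, (∀ x ∈ r.1, x.1 ≤ nK ∧ (x.1 = 0 → x.2.1 = 0) ∧ x.2.1 < D ∧
        s t x.1 x.2.1 = x.2.2) ∧
      ∀ k j, k ≤ nK → (k = 0 → j = 0) → (k, j, s (t + 1) k j) ∈ r.2.1 ∨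
        ∃ len, k ≠ 0 ∧ (k, len) ∈ r.2.2 ∧ len ≤ j ∧ s (t + 1) k j = s t k (j - len + D))
    (h : s (2 ^ m - 1) r1 0 = cT) :
    SG (cgInst (size R) (m + D) ((4, 0, 0, 0, 0), 3, false, m) (fmv R D r1 cT n y)
      (box (nK + A + size R + D + n + 1))) := by
  set N := nK + A + size R + D + n + 1 with hN
  set B := 2 ^ (m + D) with hB
  have b1 : 2 ^ m * D < B := by
    rw [hB, pow_add]; exact Nat.mul_lt_mul_of_pos_left Nat.lt_two_pow_self (by positivity)
  have b2 : 2 ^ m ≤ B := Nat.pow_le_pow_right (by omega) (by omega)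
  have b3 : 0 < 2 ^ m := by positivity
  have b4 := length_lt_size R
  refine sg_of_cg (W := {w | (w.2 false < B ∧ w.2 true < B) ∧
    ((∃ k ≤ nK, ∃ d < N, ∃ u < N, w.1 = (0, k, s (w.2 false) k (w.2 true - d + u), d, u) ∧
      d ≤ w.2 true ∧ (k = 0 → w.2 true - d + u = 0) ∧ w.2 true - d + u + w.2 false * D < B) ∨
    (∃ k ≤ nK, ∃ r, ∃ h : r < R.length, w.1 = (1, k, s (w.2 false + 1) k (w.2 true), r, 0) ∧
      (∀ x ∈ R[r].1, x.1 ≤ nK ∧ (x.1 = 0 → x.2.1 = 0) ∧ x.2.1 < D ∧
        s (w.2 false) x.1 x.2.1 = x.2.2) ∧ w.2 true + w.2 false * D + D < B ∧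
      ((k, w.2 true, s (w.2 false + 1) k (w.2 true)) ∈ R[r].2.1 ∨ ∃ len, k ≠ 0 ∧ (k, len) ∈ R[r].2.2 ∧
        len ≤ w.2 true ∧ s (w.2 false + 1) k (w.2 true) = s (w.2 false) k (w.2 true - len + D))) ∨
    (w.2 true < N ∧ w.1 = (2, 0, 0, w.2 true, 0)) ∨
    (∃ k ≤ nK, ∃ i ≤ n, w.1 = (3, k, s 0 k (i + w.2 true), i, 0)) ∨
    (w.1 = (4, 0, 0, 0, 0) ∧ w.2 false = 2 ^ m - 1))})
    ⟨⟨((2, 0, 0, 0, 0), 0), by simp; omega⟩, ?_⟩ ?_
  swap
  · rintro ⟨c, q⟩ ⟨a, h⟩
    refine ⟨?_, fun e => by cases e; exacts [a.1, a.2]⟩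
    dsimp only at *
    rcases h with ⟨k, hk, d, hd, u, hu, rfl, -⟩ | ⟨k, hk, r, hr, rfl, -⟩ | ⟨h, rfl⟩ |
      ⟨k, hk, i, hi, rfl⟩ | ⟨rfl, -⟩ <;> simp [box] <;>
      (try refine ⟨by omega, (hA _ _ _).trans_le (by omega), by omega⟩) <;> omega
  rintro ⟨c, q⟩ ⟨⟨a1, a2⟩, h⟩
  dsimp only at *
  refine ⟨⟨update q false (2 ^ m - 1), by simp [a2]; omega, by simp [Kd]; omega⟩, fun b hb => ?_⟩
  rcases h with ⟨k, hk, d, hd, u, hu, rfl, c1, c2, c3⟩ | ⟨k, hk, r, hr, rfl, c1, c2, c3⟩ | ⟨h, rfl⟩ |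
    ⟨k, hk, i, hi, rfl⟩ | ⟨rfl, c1⟩
  · by_cases e : d ≠ 0
    · refine ⟨_, by simp only [fmv, if_pos e]; exact List.mem_singleton_self _,
        update q true (q true - 1), ⟨by simp; omega, Or.inl ⟨k, hk, d - 1, by omega, u, hu, ?_⟩⟩,
        by simp [Kd]; omega⟩
      simp [show q true - 1 - (d - 1) = q true - d by omega]
      omega
    obtain rfl : d = 0 := by omega
    by_cases e' : u ≠ 0
    · refine ⟨_, by simp only [fmv, if_neg e, if_pos e']; exact List.mem_singleton_self _,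
        update q true (q true + 1), ⟨by simp; omega, Or.inl ⟨k, hk, 0, by omega, u - 1, by omega, ?_⟩⟩,
        by simp [Kd]⟩
      simp [show q true + 1 + (u - 1) = q true + u by omega]
      omega
    obtain rfl : u = 0 := by omega
    simp only [fmv, if_neg e, if_true]
    cases ht : q false with
    | zero => exact ⟨_, List.mem_cons_self, q, ⟨⟨a1, a2⟩, Or.inr (Or.inr (Or.inr (Or.inl
        ⟨k, hk, 0, by omega, by simp⟩)))⟩, by simp [Kd, ht]⟩
    | succ t =>
      obtain ⟨r, hr, d1, d2⟩ := H t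
      obtain ⟨r, hr', rfl⟩ := List.getElem_of_mem hr
      rw [ht, add_mul] at c3
      exact ⟨_, List.mem_cons_of_mem _ (List.mem_map_of_mem (List.mem_range.2 hr')),
        update q false t, ⟨by simp; omega, Or.inr (Or.inl ⟨k, hk, r, hr', by simp, by simpa using d1,
          by simp; omega, by simpa using d2 k _ hk c2⟩)⟩, by simp [Kd, ht]⟩
  · by_cases e : b < R[r].1.length
    · obtain ⟨d1, d2, d3, d4⟩ := c1 _ (List.getElem_mem e)
      refine ⟨_, by simp [fmv, hr, e]; rfl, update q true 0, ⟨by simp; omega,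
        Or.inl ⟨_, d1, 0, by omega, R[r].1[b].2.1, by omega, by simp [d4], ?_⟩⟩, by simp [Kd]⟩
      simp only [update_self, update_of_ne (show false ≠ true by simp)]
      omega
    have := size_lt_of_mem (List.getElem_mem hr)
    have := size_pair R[r].1 R[r].2
    have := size_pair R[r].2.1 R[r].2.2
    simp only [Prod.mk.eta] at *
    rcases c3 with c3 | ⟨l, d1, d2, d3, d4⟩
    · have := size_lt_of_mem c3
      simp only [size_pair, size_nat] at this
      exact ⟨((2, 0, 0, q true, 0), 4, true, 0), by simp [fmv, hr, e, c3], q,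
        ⟨⟨a1, a2⟩, Or.inr (Or.inr (Or.inl ⟨by simp only; omega, rfl⟩))⟩, by simp [Kd]⟩
    · have := size_lt_of_mem d2
      simp only [size_pair, size_nat] at this
      exact ⟨((0, k, _, l, D), 4, true, 0), by simp [fmv, hr, e, d2]; rfl, q,
        ⟨⟨a1, a2⟩, Or.inl ⟨k, hk, l, by omega, D, by omega, by simp [d4], d3, fun h => absurd h d1,
          by simp only; omega⟩⟩, by simp [Kd]⟩
  · by_cases e : q true ≠ 0
    · exact ⟨_, by simp only [fmv, if_pos e]; exact List.mem_singleton_self _,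
        update q true (q true - 1), ⟨by simp; omega, Or.inr (Or.inr (Or.inl (by simp; omega)))⟩,
        by simp [Kd]; omega⟩
    · exact ⟨_, by simp only [fmv, if_neg e]; exact List.mem_singleton_self _,
        q, ⟨⟨a1, a2⟩, Or.inr (Or.inr (Or.inl (by simp; omega)))⟩, by simpa [Kd] using e⟩
  · by_cases e : i < n
    · cases hj : q true with
      | zero => exact ⟨((2, 0, 0, 0, 0), 2, true, 0), by simp [fmv, e, h0], q,
          ⟨⟨a1, a2⟩, Or.inr (Or.inr (Or.inl (by simp; omega)))⟩, by simp [Kd, hj]⟩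
      | succ j => exact ⟨((3, k, s 0 k (i + (j + 1)), i + 1, 0), 1, true, 0), by simp [fmv, e],
          update q true j, ⟨by simp; omega, Or.inr (Or.inr (Or.inr (Or.inl ⟨k, hk, i + 1, e, by
            simp [add_assoc, add_comm 1 j]⟩)))⟩, by simp [Kd, hj]⟩
    · exact ⟨((2, 0, 0, 0, 0), 3, true, 0), by
        simp [fmv, e, h0, hy k i (by omega), hy k (i + q true) (by omega)],
        update q true 0, ⟨by simp; omega, Or.inr (Or.inr (Or.inl (by simp; omega)))⟩, by simp [Kd]⟩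
  · refine ⟨((0, r1, cT, 0, 0), 3, true, 0), List.mem_singleton_self _, update q true 0,
      ⟨by simp; omega, Or.inl ⟨r1, hr, 0, by omega, 0, by omega, by simp [c1, h], ?_⟩⟩, by simp [Kd]⟩
    simpa [c1] using (Nat.mul_le_mul_right D (Nat.sub_le _ 1)).trans_lt b1

def yIn (r0 c0 cF cT : ℕ) (x : List Bool) (k j : ℕ) : ℕ :=
  if k = 0 then c0 else if k = r0 then (x.map fun b => bif b then cT else cF).getD j 0 else 0

theorem hardEX_sg : HardEX SG := by
  classical
  rintro L ⟨f, ⟨⟨tm, eI, eO⟩, tf, hM⟩, p, hp, hf⟩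
  let _ := tm.kFin
  let _ := tm.ΛFin
  let _ := tm.σFin
  let _ := tm.Γk₀Fin
  set U : Set (Σ k, tm.Γ k) := (⋃ l, syms (tm.m l)) ∪ Set.range (Sigma.mk tm.k₀) ∪
    Set.range (fun b => ⟨tm.k₁, eO.symm b⟩) with hUdef
  have hU : U.Finite := ((Set.finite_iUnion fun l => syms_finite _).union
    (Set.finite_range _)).union (Set.finite_range _)
  have hU1 : ∀ l, syms (tm.m l) ⊆ U := fun l x hx => Or.inl (Or.inl (Set.mem_iUnion.2 ⟨l, hx⟩))
  have hU2 : ∀ a, (⟨tm.k₀, a⟩ : Σ k, tm.Γ k) ∈ U := fun a => Or.inl (Or.inr ⟨a, rfl⟩)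
  have hU3 : ∀ b, (⟨tm.k₁, eO.symm b⟩ : Σ k, tm.Γ k) ∈ U := fun b => Or.inr ⟨b, rfl⟩
  obtain ⟨cc, A, hc0, hcA, hcc⟩ := exists_code U hU
  obtain ⟨lc, hlc⟩ := exists_injective_nat (Option tm.Λ × tm.σ)
  obtain ⟨A', hA'⟩ : ∃ A', ∀ z, lc z < A' := by
    obtain ⟨B, hB⟩ := (Set.finite_range lc).bddAbove
    exact ⟨B + 1, fun z => Nat.lt_succ_of_le (hB ⟨z, rfl⟩)⟩
  obtain ⟨R, D, hD0, hR⟩ := exists_system tm.m U hU lc hlc cc hcc
  refine ⟨fun x => cgInst (size R) (p.eval x.length + 1 + D)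
    ((4, 0, 0, 0, 0), 3, false, p.eval x.length + 1)
    (fmv R D (row tm.k₁) (cc _ (some (eO.symm true))) x.length (yIn (row tm.k₀)
      (lc (some tm.main, tm.initialState)) (cc _ (some (eI.symm false))) (cc _ (some (eI.symm true))) x))
    (box (Fintype.card tm.K + (A + A') + size R + D + x.length + 1)), ?_, fun x => ?_⟩
  · have h1 : PT fun z : ℕ × ℕ × List (ℕ × ℕ) × Mv => cop z.1 z.2.1 z.2.2.1 z.2.2.2 := by
      unfold cop pat cd bit; fun_prop
    have h2 : ∀ R D r1 c1 r0 c0 cF cT, PT fun z : List Bool × ℕ × T5 =>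
        fmv R D r1 c1 z.1.length (yIn r0 c0 cF cT z.1) z.2.1 z.2.2 := by
      intros; unfold fmv yIn; fun_prop
    unfold cgInst box
    refine PT.pair (by fun_prop) (PT.append (h1.comp (f := fun x : List Bool => (_, _, _, _))
      (by fun_prop)) (PT.flatMap (PT.flatMap (PT.flatMap (h1.comp (f := fun _ => (_, _, _, _))
      (by unfold cd; fun_prop)) ((h2 ..).comp (f := fun z : (List Bool × ℕ) × T5 =>
        (z.1.1, z.1.2, z.2)) (by fun_prop))) (by fun_prop)) (by fun_prop)))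
  let C : ℕ → TM2.Cfg tm.Γ tm.Λ tm.σ := fun t => (next tm.m)^[t] (initList tm (x.map eI.symm))
  let s : ℕ → ℕ → ℕ → ℕ := fun t => snap lc cc (C t)
  have hi0 : ∀ L, (initList tm L).stk tm.k₀ = L := fun L => by simp [initList]
  have hi1 : ∀ L k, k ≠ tm.k₀ → (initList tm L).stk k = [] := fun L k hk => by
    simp [initList, hk]
  have hCs : ∀ t, C (t + 1) = next tm.m (C t) := fun t => iterate_succ_apply' _ _ _
  have hval : ∀ t k, ∀ a ∈ (C t).stk k, (⟨k, a⟩ : Σ k, tm.Γ k) ∈ U := by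
    intro t
    induction t with
    | zero =>
      intro k a ha
      by_cases hk : k = tm.k₀
      · subst hk; exact hU2 a
      · have : (C 0).stk k = [] := hi1 _ k hk
        simp [this] at ha
    | succ t ih => rw [hCs]; exact next_inv _ U hU1 _ ih
  have hA : ∀ t r j, s t r j < A + A' := fun t r j => by
    simp only [s, snap]
    split_ifs
    · exact (hA' _).trans_le (by omega)
    · exact (hcA _ _).trans_le (by omega)
    · have := hcA tm.k₀ none; omega
  obtain ⟨⟨T, hT⟩, hT'⟩ := hM x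
  have hfin : s (2 ^ (p.eval x.length + 1) - 1) (row tm.k₁) 0 = cc _ (some (eO.symm (f x))) := by
    obtain ⟨d, hd⟩ := Nat.exists_eq_add_of_le (show T ≤ 2 ^ (p.eval x.length + 1) - 1 by
      have := hp x.length
      have : 0 < 2 ^ p.eval x.length := by positivity
      simp only [pow_succ] at *
      omega)
    have h4 : C (T + d) = haltList tm [eO.symm (f x)] := (iter_add _ _ _ _).trans
      ((congrArg _ (next_iter tm.m T _ _ hT)).trans (iterate_fixed rfl _))
    simp only [s]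
    rw [snap_row, hd, h4]
    simp [haltList]
  have hs0 : ∀ r j, s 0 r j = yIn (row tm.k₀) (lc (some tm.main, tm.initialState))
      (cc _ (some (eI.symm false))) (cc _ (some (eI.symm true))) x r j := by
    intro r j
    unfold yIn
    split_ifs with h1 h2
    · subst h1; exact snap_zero _ _ _ _
    · subst h2
      have : (C 0).stk tm.k₀ = x.map eI.symm := hi0 _
      simp only [s, snap_row, this, List.getD_eq_getElem?_getD, List.getElem?_map]
      cases x[j]? with
      | none => exact hc0 _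
      | some b => cases b <;> rfl
    · by_cases hr : r ≤ Fintype.card tm.K
      · obtain ⟨k, rfl⟩ := exists_row h1 hr
        have : (C 0).stk k = [] := hi1 _ k fun e => h2 (by rw [e])
        simp [s, snap_row, this, hc0]
      · simp only [s, snap, if_neg h1]
        exact dif_neg (by omega)
  have hy : ∀ r0 c0 cF cT k j, x.length ≤ j →
      yIn r0 c0 cF cT x k j = yIn r0 c0 cF cT x k x.length := fun _ _ _ _ _ j hj => by
    simp [yIn, hj]
  rw [hf]
  refine ⟨fun hx => fact_compl hA hs0 (hy _ _ _ _) (row_le _)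
    (fun t => by simp only [s]; rw [hCs]; exact (hR _ (hval t)).1) (by rw [hfin, hx]), fun h => ?_⟩
  obtain ⟨W, h⟩ := cg_of_sg h
  have := fact_sound h hs0 (hy _ _ _ _) fun t => by simp only [s]; rw [hCs]; exact (hR _ (hval t)).2
  rw [min_eq_left (by omega), hfin] at this
  simpa using hcc _ _ _ (by simpa using hU3 _) (by simpa using hU3 _) this

end Pool.Agent.Cx
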