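import Pool.Agent.Lib.helper9.PSGame

/-! More closure properties of `PS`. -/

namespace Pool.Agent.Cx

open Function Polynomial

variable {α β γ : Type} [Enc α] [Enc β] [Enc γ]

theorem PS.and2 {P P' : α → Prop} (h : PS P) (h' : PS P') : PS (fun a => P a ∧ P' a) := by
  obtain ⟨β, _, init, kids, W, Q, rank, p, hi, hk, h0, h1⟩ := h
  obtain ⟨β', _, init', kids', W', Q', rank', p', hi', hk', h0', h1'⟩ := h'
  have : PS (fun a => ¬ P a ∨ ¬ P' a) := by
    refine ⟨ℕ × β × β', inferInstance, fun a => (0, init a, init' a),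
      fun z => bif z.1 == 0 then [(1, z.2), (2, z.2)] else bif z.1 == 1 then
        (kids z.2.1).map (fun k => (1, k, z.2.2)) else (kids' z.2.2).map (fun k => (2, z.2.1, k)),
      fun z => (z.1 = 0 → ¬ W z.2.1 ∨ ¬ W' z.2.2) ∧ (z.1 = 1 → W z.2.1) ∧ (z.1 = 2 → W' z.2.2),
      fun a z => Q a z.2.1 ∧ Q' a z.2.2 ∧ z.1 ≤ 2,
      fun z => rank z.2.1 + rank' z.2.2 + (1 - z.1), p + p' + C 7, by fun_prop, by fun_prop,
      fun a => ⟨⟨(h0 a).1, (h0' a).1, by simp⟩, ?_, by simp [(h0 a).2.2, (h0' a).2.2]⟩, ?_⟩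
    · have := (h0 a).2.1
      have := (h0' a).2.1
      simp only [eval_add, eval_C]; omega
    · rintro a ⟨t, b, b'⟩ ⟨c1, c2, c3⟩
      obtain ⟨a1, a2, a3⟩ := h1 a b c1
      obtain ⟨b1, b2, b3⟩ := h1' a b' c2
      dsimp only at c1 c2 c3
      refine ⟨by simp only [eval_add, eval_C, size_pair, size_nat]; omega, ?_⟩
      interval_cases t
      · simp [c1, c2]
      · simpa [a2, c2] using a3
      · simpa [b2, c1] using b3
  exact this.not.red PT.id fun a => by tauto

theorem PS.reachF [Dec γ] {s : α → γ} {R : α → γ → γ → Bool} {T : α → γ → Bool} (hs : PT s)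
    (hR : PT fun z : α × γ × γ => R z.1 z.2.1 z.2.2) (hT : PT fun z : α × γ => T z.1 z.2) (p : ℕ[X])
    (I : α → γ → Prop) (h0 : ∀ a, I a (s a)) (h1 : ∀ a u v, I a u → R a u v = true → I a v)
    (h2 : ∀ a u, I a u → size u ≤ p.eval (size a)) :
    PS (fun a => ∃ v, Relation.ReflTransGen (fun u v => R a u v = true) (s a) v ∧ T a v = true) := by
  have e1 : PT fun z : α × Option γ × Option γ => R z.1 (z.2.1.getD (s z.1)) (z.2.2.getD (s z.1)) :=
    hR.comp (f := fun z : α × Option γ × Option γ =>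
      (z.1, z.2.1.getD (s z.1), z.2.2.getD (s z.1))) (by fun_prop)
  have e2 : PT fun z : α × Option γ × Option γ => T z.1 (z.2.1.getD (s z.1)) :=
    hT.comp (f := fun z : α × Option γ × Option γ => (z.1, z.2.1.getD (s z.1))) (by fun_prop)
  have sz : ∀ u : γ, size (some u) = size u + 2 := fun u => size_cons u []
  refine PS.reach (s := fun a => some (s a)) (t := fun _ => none)
    (R := fun a u v => u.isSome && bif v.isSome then R a (u.getD (s a)) (v.getD (s a))
      else T a (u.getD (s a))) (by fun_prop) (by fun_prop) (by fun_prop) (p + C 2) (fun a h => ?_)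
    (fun a h => ?_)
  · suffices ∀ o, Relation.ReflTransGen (fun u v : Option γ => (u.isSome && bif v.isSome then
        R a (u.getD (s a)) (v.getD (s a)) else T a (u.getD (s a))) = true) (some (s a)) o →
        ∃ v, Relation.ReflTransGen (fun u v => R a u v = true) (s a) v ∧
          (o = some v ∨ o = none ∧ T a v = true) by
      obtain ⟨v, h1, h2⟩ := this _ h
      exact ⟨v, h1, by simpa using h2⟩
    intro o h
    induction h with
    | refl => exact ⟨_, .refl, Or.inl rfl⟩
    | @tail o o' _ h ih =>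
      obtain ⟨v, h1, rfl | ⟨rfl, -⟩⟩ := ih
      · cases o' with
        | none => exact ⟨v, h1, Or.inr ⟨rfl, by simpa using h⟩⟩
        | some w => exact ⟨w, h1.tail (by simpa using h), Or.inl rfl⟩
      · simp at h
  · obtain ⟨v, h, h'⟩ := h
    refine ⟨by have := h2 a _ (h0 a); simp [sz]; omega, Relation.ReflTransGen.tail (b := some v) ?_
      ⟨by simpa using h', by simp only [eval_add, eval_C]; exact le_add_left (Nat.le_succ 1)⟩⟩
    clear h'
    suffices I a v ∧ _ from this.2
    induction h with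
    | refl => exact ⟨h0 a, .refl⟩
    | tail _ h ih =>
      have := h1 a _ _ ih.1 h
      exact ⟨this, ih.2.tail ⟨by simpa using h, by have := h2 a _ this; simp [sz]; omega⟩⟩

end Pool.Agent.Cx
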