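import Pool.Agent.Lib.helper9.MixB
import Pool.Agent.Lib.helper9.PSMore
import Pool.Agent.Lib.helper9.EXHard

/-! PSPACE is closed under reductions. -/

namespace Pool.Agent.Cx

open Function Polynomial Relation

theorem ps_di : PS DI := by
  let g : RL → List ℕ → List ℕ := fun R l =>
    (R.filter fun r => r.2.all fun x => decide (x.1 ∈ l) == x.2).map (·.1)
  have e : ∀ R l, (fun q => decide (q ∈ g R l)) = fR R fun q => decide (q ∈ l) := fun R l => by
    funext q
    rw [Bool.eq_iff_iff, fR_iff]
    simp only [g, decide_eq_true_eq, List.mem_map, List.mem_filter, List.all_eq_true, beq_iff_eq]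
    tauto
  have e' : ∀ R l t, (fR R)^[t] (fun q => decide (q ∈ l)) = fun q => decide (q ∈ (g R)^[t] l) :=
    fun R l t => by
      induction t with
      | zero => rfl
      | succ t ih => rw [iterate_succ_apply', iterate_succ_apply', ih, e]
  have sz : ∀ R : RL, size (R.map (·.1)) ≤ size R := fun R => by
    induction R with
    | nil => simp
    | cons r R ih => have := size_pair r.1 r.2; simp at *; omega
  refine (PS.reachF (α := RL × List ℕ × List ℕ) (s := fun a => a.2.1)
    (R := fun a u v => v == g a.1 u) (T := fun a v => a.2.2.all fun q => !decide (q ∈ v))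
    (by fun_prop) (by simp only [g]; fun_prop) (by fun_prop) X (fun a u => size u ≤ size a)
    (fun ⟨a, b, c⟩ => by simp; omega) (fun ⟨a, b, c⟩ u v _ h => ?_)
    (fun _ _ h => by simpa using h)).red PT.id fun I => ?_
  · rw [beq_iff_eq.1 h]
    refine (sz _).trans ((size_le_of_sublist List.filter_sublist).trans ?_)
    simp; omega
  · simp only [DI, e', beq_iff_eq, List.all_eq_true, Bool.not_eq_true']
    constructor
    · rintro ⟨t, h⟩
      refine ⟨_, ?_, h⟩
      clear h
      induction t with
      | zero => exact .refl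
      | succ t ih => exact ih.tail (iterate_succ_apply' _ _ _)
    · rintro ⟨v, h, h'⟩
      suffices ∃ t, v = (g I.1)^[t] I.2.1 from let ⟨t, e⟩ := this; ⟨t, e ▸ h'⟩
      clear h'
      induction h with
      | refl => exact ⟨0, rfl⟩
      | tail _ h ih =>
        obtain ⟨t, rfl⟩ := ih
        exact ⟨t + 1, h.trans (iterate_succ_apply' _ _ _).symm⟩

theorem HardEX.ps_eq {α : Type} [Enc α] [Dec α] {P : α → Prop} (h : HardEX P)
    (h' : InPSPACE (Lang P)) : ∀ L, InEXPTIME L → InPSPACE L := fun L hL => by
  obtain ⟨g, hg, e⟩ := h L hL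
  obtain ⟨g', hg', e'⟩ := hardPS_di _ h'
  exact (ps_di.red (P' := fun x => x ∈ L) (hg'.comp hg.enc) fun x => by rw [e, ← e', mem_Lang]).raw

end Pool.Agent.Cx
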