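import Pool.Agent.Lib.helper9.TokE

/-! The blocking game built from a safety game. -/

namespace Pool.Agent.Eb

open Pool.Agent.Cx Pool.Agent.Tok Function

variable (I : Par)

def V (x : T5) : Prop := x.1 < 9 ∧ x.2.1 ≤ I.N ∧ x.2.2.1 ≤ I.N ∧ x.2.2.2.1 ≤ I.N ∧ x.2.2.2.2 ≤ 1

def EA (x y : T5) : Prop :=
  (x.1 ≤ 1 ∧ (Hon I x y ∨ (y = (4, y.2.1, y.2.2.1, 0, 0) ∧ y.2.1 ≠ 0 ∧
    ¬ ∃ w < I.N + 1, w ≠ y.2.2.1 ∧ I.Ts x.1 x.2.1 y.2.1 w) ∨ y.1 = 8)) ∨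
  (x.1 = 5 ∧ (y = (4, x.2.1, x.2.2.2.1, 0, 0) ∨ y = (6, x.2.1, x.2.2.1, x.2.2.2.1, y.2.2.2.2))) ∨
  (x.1 = 7 ∧ y = (6, x.2))

def ED (x y : T5) : Prop :=
  ((x.1 = 2 ∨ x.1 = 3) ∧ Hon I x y) ∨ (x.1 = 3 ∧ y.1 = 7 ∧ I.A x.2.1 y.2.1 y.2.2.1 y.2.2.2.1) ∨
  (x.1 = 4 ∧ y = (5, x.2.1, x.2.2.1, y.2.2.2.1, 0) ∧ y.2.2.2.1 ≠ x.2.2.1) ∨ (x.1 = 8 ∧ y = (6, x.2))

abbrev Pos := Set T5 × Bool

def G (p q : Pos) : Prop := ∃ u v, V I u ∧ V I v ∧ (if p.2 then EA I u v else ED I u v) ∧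
  u ∈ p.1 ∧ v ∉ p.1 ∧ q = (insert v (p.1 \ {u}), !p.2)

def H (N : ℕ) (x : T5) (ρ : ℕ → T5) : Set T5 := {y | y = x ∨ (y.2.1 ≠ 0 ∧ y.2.1 ≤ N ∧ y = ρ y.2.1)}

def St (σ : ℕ → ℕ) (k : ℕ) : T5 := (4, k, σ k, 0, 0)

variable {I} {s : Set T5} {x y u v : T5} {ρ : ℕ → T5} {σ : ℕ → ℕ} {N k j : ℕ} {q : Pos}

lemma H_c (h : x ≠ ρ x.2.1) : insert y (H N x ρ \ {x}) = H N y ρ := by
  ext z; simp only [H, Set.mem_insert_iff, Set.mem_sdiff, Set.mem_ofPred_eq, Set.mem_singleton_iff]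
  grind

lemma H_k (a : k ≠ 0) (b : k ≤ N) (c : u = ρ k) (c' : u.2.1 = k) (d : v.2.1 = k) (e : u ≠ x) :
    insert v (H N x ρ \ {u}) = H N x (update ρ k v) := by
  ext z; simp only [H, Set.mem_insert_iff, Set.mem_sdiff, Set.mem_ofPred_eq, Set.mem_singleton_iff,
    update_apply]
  grind

lemma St_set {w} : update (St σ) k (4, k, w, 0, 0) = St (update σ k w) := by
  funext l; simp only [update_apply, St]; grind

lemma mvc {b} (h : x ≠ ρ x.2.1) (a : V I x) (c : V I y) (e : if b then EA I x y else ED I x y)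
    (f : y ∉ H I.N x ρ) : G I (H I.N x ρ, b) (H I.N y ρ, !b) :=
  ⟨x, y, a, c, e, Or.inl rfl, f, by rw [H_c h]⟩

lemma mvk {b} (a : k ≠ 0) (c : k ≤ I.N) (d : (ρ k).2.1 = k) (d' : v.2.1 = k) (e : ρ k ≠ x)
    (f : V I (ρ k)) (g : V I v) (h : if b then EA I (ρ k) v else ED I (ρ k) v) (i : v ∉ H I.N x ρ) :
    G I (H I.N x ρ, b) (H I.N x (update ρ k v), !b) :=
  ⟨_, v, f, g, h, Or.inr (by simp [*]), i, by rw [H_k a c rfl d d' e]⟩

lemma stuck (h : ∀ y ∈ s, y.1 = 4 ∨ y.1 = 6 ∨ (y.1 = 7 ∧ (6, y.2) ∈ s)) : Out (G I) false (s, true) :=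
  .lose fun _ ⟨u, v, _, _, e, a, b, _⟩ => by
    have := h u a
    simp only [EA, if_true] at e b
    grind

lemma z_out (h : ∀ y ∈ s, y.1 = 4 ∨ y.1 = 6 ∨ (y.1 = 8 ∧ (6, y.2) ∈ s))
    (h' : ∀ y ∈ s, y.1 = 4 → y.2.2.2 = (0, 0) ∧
      ∀ w, (6, y.2.1, y.2.2.1, w, 0) ∉ s ∨ (6, y.2.1, y.2.2.1, w, 1) ∉ s) :
    Out (G I) false (s, false) := by
  obtain ⟨F, hF⟩ : ∃ F : Finset T5, ∀ y ∈ s, y.1 = 4 → V I y → y ∈ F :=
    ⟨Finset.Iic (9, I.N, I.N, I.N, 1), fun y _ _ h => by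
      simpa [Prod.le_def, V, Nat.lt_iff_add_one_le, h.2.1, h.2.2.1, h.2.2.2] using h.1.le⟩
  induction F using Finset.strongInduction generalizing s with | H F ih => ?_
  refine .lose ?_
  rintro _ ⟨u, v, a, b, e, c, d, rfl⟩
  have := h u c
  obtain ⟨e1, e2⟩ : u.1 = 4 ∧ v = (5, u.2.1, u.2.2.1, v.2.2.2.1, 0) := by
    simp only [ED, Bool.false_eq_true, if_false] at e d; grind
  obtain ⟨r, f, g⟩ : ∃ r ≤ 1, (6, u.2.1, u.2.2.1, v.2.2.2.1, r) ∉ s :=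
    ((h' u c e1).2 v.2.2.2.1).elim (⟨0, by simp, ·⟩) (⟨1, le_rfl, ·⟩)
  refine .win ⟨v, (6, u.2.1, u.2.2.1, v.2.2.2.1, r), b, by simp [V, a.2.1, a.2.2.1, b.2.2.2.1, f],
    by rw [e2]; simp [EA], by simp, by grind, rfl⟩
    (ih (F.erase u) (Finset.erase_ssubset (hF u c e1 a)) (by grind) (fun y y1 y2 => ?_) (by grind))
  have y3 : y ∈ s ∧ y ≠ u := by grind
  have := h' y y3.1 y2
  have := h' u c e1
  have : ¬ (y.2.1 = u.2.1 ∧ y.2.2.1 = u.2.2.1) := by grind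
  grind

variable (I) in
def Good (x : T5) (ρ : ℕ → T5) : Prop := ∀ k ≠ 0, k ≤ I.N → (∃ w ≤ I.N, ρ k = (4, k, w, 0, 0)) ∨
  ∃ u ≤ I.N, ∃ w ≤ I.N, ρ k = (6, k, u, w, 0) ∧ ¬ (x.1 = 3 ∧ I.A x.2.1 k u w)

lemma Good.z (h : Good I x ρ) (a : (y.1 = 4 ∧ y.2.2.2 = (0, 0)) ∨ y.1 = 6 ∨
    (y.1 = 8 ∧ (6, y.2) ∈ H I.N y ρ)) : Out (G I) false (H I.N y ρ, false) :=
  z_out (fun z hz => by have := h z.2.1; unfold H at *; grind) fun z hz e => by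
    have := h z.2.1
    unfold H at *
    grind

lemma dturn (hx : x.1 = 2 ∨ x.1 = 3) (h : Good I x ρ) (g : G I (H I.N x ρ, false) q) :
    Out (G I) true q ∨ (∃ y, V I y ∧ Hon I x y ∧ q = (H I.N y ρ, true)) ∨ ∃ k ≠ 0, k ≤ I.N ∧
      ∃ u ≤ I.N, ∃ w ≤ I.N, w ≠ u ∧ ρ k = (4, k, u, 0, 0) ∧
        G I q (H I.N x (update ρ k (4, k, w, 0, 0)), false) ∧
        G I q (H I.N x (update ρ k (6, k, u, w, 0)), false) := by
  obtain ⟨u, v, a, b, e, c | c, d, rfl⟩ := g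
  · subst c
    have n : u ≠ ρ u.2.1 ∨ u.2.1 = 0 ∨ I.N < u.2.1 := by have := h u.2.1; grind
    have e' : insert v (H I.N u ρ \ {u}) = H I.N v ρ := by ext z; unfold H; grind
    simp only [e', Bool.not_false]
    rcases e with e | e | e | e
    · exact Or.inr (Or.inl ⟨v, b, e.2, rfl⟩)
    · refine Or.inl (.win ⟨v, (6, v.2), b, ⟨by simp, b.2⟩, by simp [EA, e.2.1], Or.inl rfl, ?_, rfl⟩ ?_)
      · have := h v.2.1; unfold H; grind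
      · have : insert (6, v.2) (H I.N v ρ \ {v}) = H I.N (6, v.2) ρ := by
          ext z; have := h v.2.1; unfold H; grind
        exact this ▸ h.z (by simp)
    all_goals omega
  · obtain ⟨w, e1, e2⟩ : ∃ w ≤ I.N, ρ u.2.1 = (4, u.2.1, w, 0, 0) := by
      have := h _ c.1 c.2.1
      simp only [ED, Bool.false_eq_true, if_false] at e; grind
    obtain ⟨w', rfl, e3⟩ : ∃ w', v = (5, u.2.1, w, w', 0) ∧ w' ≠ w := by
      simp only [ED, Bool.false_eq_true, if_false] at e; grind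
    have n : ∀ y, y.2.1 = u.2.1 → V I y → EA I (5, u.2.1, w, w', 0) y → y.1 ≠ 5 → y ≠ x → G I
        (H I.N x (update ρ u.2.1 (5, u.2.1, w, w', 0)), true) (H I.N x (update ρ u.2.1 y), false) :=
      fun y a1 a2 a3 a4 a5 => by
        have := mvk (x := x) (ρ := update ρ u.2.1 (5, u.2.1, w, w', 0)) (b := true) c.1 c.2.1
          (by simp) a1 (by grind) (by simpa) a2 (by simpa) (by unfold H; grind)
        rwa [update_idem] at this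
    have : w' ≤ I.N := b.2.2.2.1
    refine Or.inr (Or.inr ⟨_, c.1, c.2.1, w, e1, w', this, e3, e2, ?_⟩)
    simp only [H_k c.1 c.2.1 c.2.2 rfl (v := (5, u.2.1, w, w', 0)) rfl (x := x) (by grind), Bool.not_false]
    constructor <;> exact n _ rfl (by simp [V, c.2.1, e1, this]) (by simp [EA]) (by simp) (by grind)

lemma tests (hN : 0 < I.N) (hU : ∀ b j k w v v', ¬ I.Ts b j k w → I.Ts b j k v → I.Ts b j k v' → v = v')
    (hy : y.1 ≤ 1) (hv : V I y) (h : Good I x ρ) (o : ¬ Out (G I) true (H I.N y ρ, true)) :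
    ∀ k ≠ 0, k ≤ I.N → ∃ w ≤ I.N, ρ k = (4, k, w, 0, 0) ∧ I.Ts y.1 y.2.1 k w := fun k a b => by
  have n : ∀ z, V I z → EA I y z → z ∉ H I.N y ρ → ¬ Out (G I) false (H I.N z ρ, false) :=
    fun z a1 a2 a3 a4 => o (.win ⟨y, z, hv, a1, a2, Or.inl rfl, a3, by
      have : insert z (H I.N y ρ \ {y}) = H I.N z ρ := by ext; have := h y.2.1; unfold H; grind
      rw [this]; rfl⟩ a4)
  rcases h k a b with ⟨w, c, d⟩ | ⟨u, c, w, d, e, -⟩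
  · refine ⟨w, c, d, not_not.1 fun t => ?_⟩
    obtain ⟨v, v1, v2, v3⟩ : ∃ v ≤ I.N, v ≠ w ∧ ¬ ∃ w < I.N + 1, w ≠ v ∧ I.Ts y.1 y.2.1 k w := by
      by_cases e : ∃ v ≤ I.N, I.Ts y.1 y.2.1 k v
      · obtain ⟨v, e, f⟩ := e
        exact ⟨v, e, fun e => t (e ▸ f), fun ⟨_, _, g, i⟩ => g (hU _ _ _ _ _ _ t i f)⟩
      · exact ⟨if w = 0 then 1 else 0, by grind, by grind, fun ⟨v, f, _, i⟩ => e ⟨v, by omega, i⟩⟩
    exact n (4, k, v, 0, 0) (by simp [V, b, v1]) (Or.inl ⟨hy, Or.inr (Or.inl ⟨rfl, a, v3⟩)⟩)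
      (by unfold H; grind) (h.z (by simp))
  · exact absurd (h.z (by simp [H, a, b, e])) (n (8, k, u, w, 0) (by simp [V, b, c, d])
      (by simp [EA, hy]) (by unfold H; grind))

lemma eff (hB : ∀ j k u v v', I.A j k u v → v ≠ u → I.A j k v v' → v' = v) (hx : x.1 = 2 ∨ x.1 = 3)
    (h : Good I x ρ) (o : ¬ Out (G I) false (H I.N x ρ, false)) : ∃ y ρ', V I y ∧ Hon I x y ∧
      Good I x ρ' ∧ ¬ Out (G I) true (H I.N y ρ', true) ∧
      ∀ k, ρ' k = ρ k ∨ (ρ' k).1 = 6 ∨ (x.1 = 3 ∧ ∃ u v, I.A x.2.1 k u v) := by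
  classical
  let m : ℕ → T5 → ℕ := fun k z => if z.1 = 4 then
    if x.1 = 3 ∧ ∃ v ≠ z.2.2.1, I.A x.2.1 k z.2.2.1 v then 2 else 1 else 0
  induction' hn : ∑ k ∈ Finset.range (I.N + 1), m k (ρ k) using Nat.strong_induction_on
    with n ih generalizing ρ
  rw [out_false] at o
  push Not at o
  obtain ⟨q, g, o⟩ := o
  rcases dturn hx h g with c | ⟨y, b, c, rfl⟩ | ⟨k, c1, c2, u, c3, w, c4, c5, c6, c7, c8⟩
  · exact absurd c o
  · exact ⟨y, ρ, b, c, h, o, fun _ => Or.inl rfl⟩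
  · obtain ⟨z, z1, z2, z3, z4⟩ : ∃ z, G I q (H I.N x (update ρ k z), false) ∧ m k z < m k (ρ k) ∧
        Good I x (update ρ k z) ∧ (z.1 = 6 ∨ (x.1 = 3 ∧ ∃ u v, I.A x.2.1 k u v)) := by
      by_cases e : x.1 = 3 ∧ I.A x.2.1 k u w
      · refine ⟨_, c7, ?_, fun l a b => by have := h l a b; clear ih hn; grind,
          Or.inr ⟨e.1, _, _, e.2⟩⟩
        simp only [m, c6, if_true]
        rw [if_neg fun ⟨_, v, a, b⟩ => a (hB _ _ _ _ _ e.2 c5 b), if_pos ⟨e.1, w, c5, e.2⟩]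
        omega
      · refine ⟨_, c8, ?_, fun l a b => by have := h l a b; clear ih hn; grind, Or.inl rfl⟩
        simp only [m, c6, if_true]
        split_ifs <;> omega
    obtain ⟨y, ρ', d1, d2, d3, d4, d5⟩ := ih _ (hn ▸ Finset.sum_lt_sum (fun l _ => by
      rw [update_apply]; split_ifs with e; exacts [e ▸ z2.le, le_rfl])
      ⟨k, by simpa [Nat.lt_succ_iff], by simpa⟩) z3 (mt (Out.win z1) o) rfl
    exact ⟨y, ρ', d1, d2, d3, d4, fun l => by have := d5 l; clear ih hn; grind⟩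

lemma good (b : ∀ k, σ k ≤ I.N) : Good I x (St σ) := fun k _ _ => Or.inl ⟨_, b k, rfl⟩

lemma hon (a : V I x) (c : V I y) (h : Hon I x y) :
    G I (H I.N x (St σ), decide (x.1 ≤ 1)) (H I.N y (St σ), !decide (x.1 ≤ 1)) :=
  mvc (by unfold Hon St at *; grind) a c (by have := h; unfold EA ED; unfold Hon at h; grind)
    (by unfold Hon St H at *; grind)

lemma dno (hm : 0 < I.m) (hx : x.1 = 2 ∨ x.1 = 3) (b : ∀ k, σ k ≤ I.N) :
    ¬ Out (G I) true (H I.N x (St σ), false) := by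
  refine not_out' (fun p => ∃ x σ, (x.1 = 2 ∨ x.1 = 3) ∧ (∀ k, σ k ≤ I.N) ∧
    p = (H I.N x (St σ), false)) ?_ ⟨x, σ, hx, b, rfl⟩
  rintro _ ⟨x, σ, hx, b, rfl⟩ q g
  rcases dturn hx (good b) g with c | ⟨y, a, c, rfl⟩ | ⟨k, -, -, u, -, w, c, -, -, d, -⟩
  · exact (out_true.1 c).imp fun _ h => ⟨h.1, Or.inr h.2⟩
  · have e : y.1 ≤ 1 := by unfold Hon at c; grind
    obtain ⟨z, z1, z2, z3⟩ : ∃ z, V I z ∧ Hon I y z ∧ (z.1 = 2 ∨ z.1 = 3) := by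
      by_cases e : y.1 = 0
      · exact ⟨(3, y.2.1, 0, 0, 0), by simp [V, a.2.1], by simp [Hon, e], by simp⟩
      · exact ⟨(2, 0, 0, 0, 0), by simp [V], by unfold Hon; grind, by simp⟩
    exact ⟨_, by simpa [e] using hon (σ := σ) a z1 z2, Or.inl ⟨_, _, z3, b, rfl⟩⟩
  · exact ⟨_, d, Or.inl ⟨_, update σ k w, hx, by grind, by rw [St_set]⟩⟩

lemma aturn1 (hx : x.1 ≤ 1) (b : ∀ k, σ k ≤ I.N) (t : ∀ k ≠ 0, k ≤ I.N → I.Ts x.1 x.2.1 k (σ k))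
    (g : G I (H I.N x (St σ), true) q) :
    (∃ r, G I q r ∧ Out (G I) false r) ∨ ∃ y, Hon I x y ∧ q = (H I.N y (St σ), false) := by
  obtain ⟨u, v, a, c, e, d, f, rfl⟩ := g
  simp only [if_true, EA, H, St, Set.mem_ofPred_eq] at e d f
  obtain rfl : u = x := by grind
  rw [H_c (by unfold St; grind)]
  rcases show Hon I u v ∨ v.1 = 8 by
    have := t v.2.1
    have := b v.2.1
    have := c.2.1
    grind with e | e
  · exact Or.inr ⟨v, e, rfl⟩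
  · exact Or.inl ⟨_, mvc (y := (6, v.2)) (by unfold St; grind) c ⟨by simp, c.2⟩ (by simp [ED, e])
      (by unfold St H; grind), stuck (by unfold St H; grind)⟩

lemma aturn2 {w} (hx : x.1 = 3) (hv : V I x) (h : k ≠ 0) (hk : k ≤ I.N) (t : I.A x.2.1 k (σ k) w)
    (g : G I (H I.N x (update (St σ) k (5, k, σ k, w, 0)), true) q) :
    (∃ r, G I q r ∧ Out (G I) false r) ∨ q = (H I.N x (St (update σ k w)), false) := by
  obtain ⟨u, v, a, c, e, d, f, rfl⟩ := g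
  simp only [if_true, EA, H, St, Set.mem_ofPred_eq, update_apply] at e d
  obtain rfl : u = (5, k, σ k, w, 0) := by grind
  obtain ⟨e1, e⟩ : v.2.1 = k ∧ (v = (4, k, w, 0, 0) ∨ v = (6, k, σ k, w, v.2.2.2.2)) := by grind
  rw [H_k h hk (by simp) rfl e1 (by grind), update_idem]
  rcases e with rfl | e
  · exact Or.inr (by rw [St_set]; rfl)
  · exact Or.inl ⟨_, mvc (y := (7, v.2)) (by unfold St; grind) hv ⟨by simp, c.2⟩
      (by rw [e]; simp [ED, hx, t]) (by unfold St H; grind), stuck (by unfold St H; grind)⟩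

end Pool.Agent.Eb
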