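import Pool.Agent.Lib.helper9.EbA

/-! The blocking game built from a safety game: correctness. -/

namespace Pool.Agent.Eb

open Pool.Agent.Cx Pool.Agent.Tok Function

variable {I : Par} {σ : ℕ → ℕ} {j : ℕ}

lemma safe {W} (hL : I.L ≤ I.N) (hm : I.m ≤ I.N) (hW : Cl I W)
    (hA : ∀ j < I.L, ∀ k u v u' v', I.A j k u v → I.Ts 1 j k v' → I.A j k u' v') (hj : j ≤ I.N)
    (b : ∀ k, σ k ≤ I.N) (t : ∀ k ≠ 0, k ≤ I.N → I.Ts 0 j k (σ k)) {σ'} (h1 : σ' ∈ W)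
    (h2 : ∀ k ≠ 0, k ≤ I.N → I.Ts 1 j k (σ' k) ∧ (σ' k = σ k ∨ I.A j k (σ k) (σ' k))) :
    ¬ Out (G I) true (H I.N (0, j, 0, 0, 0) (St σ), true) := by
  let Tg := fun j (σ : ℕ → ℕ) => j ≤ I.N ∧ (∀ k, σ k ≤ I.N) ∧ ∃ σ' ∈ W,
    ∀ k ≠ 0, k ≤ I.N → I.Ts 1 j k (σ' k) ∧ (σ' k = σ k ∨ I.A j k (σ k) (σ' k))
  let Y : Pos → Prop := fun τ => (∃ j σ, τ = (H I.N (0, j, 0, 0, 0) (St σ), true) ∧
    (∀ k ≠ 0, k ≤ I.N → I.Ts 0 j k (σ k)) ∧ Tg j σ) ∨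
    (∃ j, ∃ σ ∈ W, τ = (H I.N (1, j, 0, 0, 0) (St σ), true) ∧ ∀ k ≠ 0, k ≤ I.N → I.Ts 1 j k (σ k)) ∨
    ∃ j σ, ∃ k ≠ 0, k ≤ I.N ∧ ∃ w, I.A j k (σ k) w ∧ τ = (H I.N (3, j, 0, 0, 0)
      (update (St σ) k (5, k, σ k, w, 0)), true) ∧ Tg j (update σ k w)
  have ef : ∀ j σ, Tg j σ → ∃ r, G I (H I.N (3, j, 0, 0, 0) (St σ), false) r ∧
      (Y r ∨ Out (G I) false r) := by
    rintro j σ ⟨hj, b, σ', h1, h2⟩
    by_cases e : ∀ k ≠ 0, k ≤ I.N → σ' k = σ k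
    · refine ⟨_, hon (y := (1, j, 0, 0, 0)) (by simp [V, hj]) (by simp [V, hj]) (by simp [Hon]),
        Or.inl (Or.inr (Or.inl ⟨j, σ', h1, Prod.ext ?_ rfl, fun k a c => (h2 k a c).1⟩))⟩
      ext k; unfold H St; grind
    · push Not at e
      obtain ⟨k, a, c, e⟩ := e
      have := (hW _ h1).1
      refine ⟨_, mvk (v := (5, k, σ k, σ' k, 0)) a c rfl rfl (by simp [St]) (by simp [V, St, *])
        (by simp [V, *]) (by simp [ED, e, St]) (by simp [H, St]),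
        Or.inl (Or.inr (Or.inr ⟨j, σ, k, a, c, _, (h2 k a c).2.resolve_left e, rfl, hj,
          fun l => ?_, σ', h1, fun l d f => ?_⟩))⟩
      · rw [update_apply]; split_ifs; exacts [this k, b l]
      · have := h2 l d f
        rw [update_apply]; grind
  refine not_out' Y ?_ (Or.inl ⟨j, σ, rfl, t, hj, b, σ', h1, h2⟩)
  have w : ∀ {q}, (∃ r, G I q r ∧ Out (G I) false r) → ∃ r, G I q r ∧ (Y r ∨ Out (G I) false r) :=
    fun h => h.imp fun _ h => ⟨h.1, Or.inr h.2⟩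
  rintro _ (⟨j, σ, rfl, t, h⟩ | ⟨j, σ, h, rfl, t⟩ | ⟨j, σ, k, a, c, v, e, rfl, h⟩) q g
  · rcases aturn1 (by simp) h.2.1 t g with c | ⟨y, c, rfl⟩
    · exact w c
    · obtain rfl : y = (3, j, 0, 0, 0) := by simpa [Hon] using c
      exact ef j σ h
  · rcases aturn1 (by simp) (hW σ h).1 t g with c | ⟨y, c, rfl⟩
    · exact w c
    · obtain ⟨c, d⟩ : y = (2, y.2.1, 0, 0, 0) ∧ y.2.1 < I.m := by simpa [Hon] using c
      obtain ⟨i, e1, e2, σ', e3, e4⟩ := (hW σ h).2 _ d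
      rw [c]
      exact ⟨_, hon (y := (0, i, 0, 0, 0)) (by simp [V]; omega) (by simp [V]; omega)
        (by simp [Hon, e1, e2]), Or.inl (Or.inl ⟨i, σ, rfl, fun k a b => (e4 k a b).1, by omega,
          (hW σ h).1, σ', e3, fun k a b => let ⟨_, f, g⟩ := e4 k a b
            ⟨f, g.imp_right fun ⟨_, _, g⟩ => hA i e1 _ _ _ _ _ g f⟩⟩)⟩
  · rcases aturn2 rfl (by simp [V, h.1]) a c e g with c | rfl
    exacts [w c, ef j _ h]

lemma main (hN : 0 < I.N) (hL : I.L ≤ I.N) (hm : 0 < I.m) (hm' : I.m ≤ I.N)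
    (hA : ∀ j < I.L, ∀ k u v u' v', I.A j k u v → I.Ts 1 j k v' → I.A j k u' v')
    (hB : ∀ j k u v v', I.A j k u v → v ≠ u → I.A j k v v' → v' = v)
    (hU : ∀ b j k w v v', ¬ I.Ts b j k w → I.Ts b j k v → I.Ts b j k v' → v = v')
    (hT : ∀ b k v, I.Ts b I.L k v) (hC : ∀ k v, I.A I.L k I.N v) (o) :
    Outcome (G I) (H I.N (if o = some true then 0 else 3, I.L, 0, 0, 0) (St fun _ => I.N),
      decide (o = some true)) o ↔ ((∃ W, W.Nonempty ∧ Cl I W) ↔ o = none) := by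
  have a : Out (G I) false (H I.N (3, I.L, 0, 0, 0) (St fun _ => I.N), false) →
      Out (G I) true (H I.N (0, I.L, 0, 0, 0) (St fun _ => I.N), true) :=
    .win (hon (by simp [V, hL]) (by simp [V, hL]) (by simp [Hon]))
  have b : Out (G I) true (H I.N (0, I.L, 0, 0, 0) (St fun _ => I.N), true) →
      ¬ ∃ W, W.Nonempty ∧ Cl I W := fun h ⟨W, ⟨σ, c⟩, d⟩ =>
    safe hL hm' d hA hL (by simp) (by simp [hT]) c (by simp [hT, hC]) h
  have ef : ∀ x σ, (x.1 = 2 ∨ x.1 = 3) → (∀ k, σ k ≤ I.N) →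
      ¬ Out (G I) false (H I.N x (St σ), false) → ∃ y σ', V I y ∧ Hon I x y ∧ (∀ k, σ' k ≤ I.N) ∧
      ¬ Out (G I) true (H I.N y (St σ'), true) ∧ ∀ k ≠ 0, k ≤ I.N → I.Ts y.1 y.2.1 k (σ' k) ∧
        (σ' k = σ k ∨ (x.1 = 3 ∧ ∃ u v, I.A x.2.1 k u v)) := fun x σ hx b h => by
    obtain ⟨y, ρ, c1, c2, c3, c4, c5⟩ := eff hB hx (good b) h
    have t := tests hN hU (by unfold Hon at c2; grind) c1 c3 c4
    refine ⟨y, fun k => min (ρ k).2.2.1 I.N, c1, c2, by simp, ?_, fun k d e => ?_⟩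
    · convert c4 using 3
      ext z; have := t z.2.1; unfold H St; grind
    · have := t k d e
      have := c5 k
      unfold St at *; grind
  have c : (¬ ∃ W, W.Nonempty ∧ Cl I W) →
      Out (G I) false (H I.N (3, I.L, 0, 0, 0) (St fun _ => I.N), false) := by
    rw [not_imp_comm]
    intro h
    obtain ⟨y, σ, -, c1, c, d, -⟩ := ef _ _ (by simp) (by simp) h
    obtain rfl : y = (1, I.L, 0, 0, 0) := by simpa [Hon] using c1
    refine ⟨{σ | (∀ k, σ k ≤ I.N) ∧ ∃ j ≤ I.N, ¬ Out (G I) true (H I.N (1, j, 0, 0, 0) (St σ), true)},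
      ⟨σ, c, _, hL, d⟩, fun σ ⟨c, j, hj, d⟩ => ⟨c, fun a ha => ?_⟩⟩
    obtain ⟨y, σ1, e1, e2, e3, e4, e5⟩ := ef (2, a, 0, 0, 0) σ (by simp) c (mt (Out.win
      (hon (by simp [V, hj]) (by simp [V]; omega) (by simp [Hon, ha]))) d)
    obtain ⟨e2, e6, e7⟩ : y = (0, y.2.1, 0, 0, 0) ∧ y.2.1 < I.L ∧ I.act y.2.1 = a := by
      simpa [Hon] using e2
    rw [e2] at e4 e5 e1
    obtain ⟨z, σ', -, f1, f2, f3, f4⟩ := ef (3, y.2.1, 0, 0, 0) σ1 (by simp) e3 (mt (Out.win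
      (hon e1 ⟨by simp, e1.2⟩ (by simp [Hon]))) e4)
    obtain rfl : z = (1, y.2.1, 0, 0, 0) := by simpa [Hon] using f1
    refine ⟨_, e6, e7, σ', ⟨f2, _, by omega, f3⟩, fun k a b => ?_⟩
    have := e5 k a b
    have := f4 k a b
    grind
  have d := dno (x := (3, I.L, 0, 0, 0)) (σ := fun _ => I.N) hm (by simp) (by simp)
  rcases o with _ | _ | _ <;> simp only [Outcome, reduceCtorEq, if_false, if_true, iff_true,
    iff_false, Option.some.injEq, Bool.false_eq_true, decide_false, decide_true]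
  exacts [⟨fun h => not_not.1 (mt c h.2), fun h => ⟨d, fun e => b (a e) h⟩⟩,
    ⟨fun e => b (a e), c⟩, ⟨b, fun e => a (c e)⟩]

end Pool.Agent.Eb
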