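import Pool.Agent.Lib.helper10.NPDefs

namespace Pool.Agent.H9G

/-- entry `(i, j)` of the 0-1 matrix `M` is one -/
def Adj (M : List (List Bool)) (i j : ℕ) : Prop := (M.getD i []).getD j false = true

/-- `M` is the adjacency matrix of an undirected graph on `{0, ..., n-1}`, loops allowed -/
def IsGraph (M : List (List Bool)) : Prop :=
  (∀ r ∈ M, r.length = M.length) ∧ ∀ i j, Adj M i j → Adj M j i

/-- `M` is the adjacency matrix of a simple graph on `{0, ..., n-1}` -/
def IsSimple (M : List (List Bool)) : Prop := IsGraph M ∧ ∀ i, ¬ Adj M i i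

end Pool.Agent.H9G
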