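import Pool.Agent.Lib.helper10.NPOcc

namespace Pool.Agent.H9D

open Pool.Agent.Cx

/-- `x` and `y` are consecutive on the path that visits the entries of `F` in order -/
def Nb {α : Type} (F : List α) (x y : α) : Prop := (x, y) ∈ F.zip F.tail ∨ (y, x) ∈ F.zip F.tail

/-- yes-instances of `GD_k`: `k` pairwise edge-disjoint Hamiltonian paths on a common vertex set
(each given by the list of its vertices in order) and a bound, such that some vertex set of size at
most the bound dominates every one of the paths -/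
def GD (k : ℕ) (I : List (List ℕ) × ℕ) : Prop :=
  I.1.length = k ∧ (∀ i < k, (I.1.getD i []).Nodup) ∧
    (∀ i < k, ∀ j < k, ∀ x, x ∈ I.1.getD i [] → x ∈ I.1.getD j []) ∧
    (∀ i < k, ∀ j < k, i ≠ j → ∀ x y, Nb (I.1.getD i []) x y → ¬ Nb (I.1.getD j []) x y) ∧
    ∃ D : Finset ℕ, D.card ≤ I.2 ∧ ∀ i < k, (∀ x ∈ D, x ∈ I.1.getD i []) ∧
      ∀ x ∈ I.1.getD i [], x ∉ D → ∃ y ∈ D, Nb (I.1.getD i []) x y

lemma Nb.symm {α : Type} {F : List α} {x y : α} (h : Nb F x y) : Nb F y x := Or.symm h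

def nbB (F : List ℕ) (x y : ℕ) : Bool := (F.zip F.tail).contains (x, y) || (F.zip F.tail).contains (y, x)

@[simp] lemma nbB_iff {F : List ℕ} {x y : ℕ} : nbB F x y = true ↔ Nb F x y := by simp [nbB, Nb]

@[fun_prop] lemma PT_nbB {α : Type} [Enc α] {F : α → List ℕ} {x y : α → ℕ} (hF : PT F) (hx : PT x)
    (hy : PT y) : PT (fun a => nbB (F a) (x a) (y a)) := by
  unfold nbB; fun_prop

def ver (k : ℕ) (z : (List (List ℕ) × ℕ) × List ℕ) : Bool :=
  z.1.1.length == k && (List.range k).all (fun i => decide (z.1.1.getD i []).Nodup) &&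
    ((List.range k).all fun i => (List.range k).all fun j =>
      (z.1.1.getD i []).all fun x => (z.1.1.getD j []).contains x) &&
    ((List.range k).all fun i => (List.range k).all fun j => i == j ||
      ((z.1.1.getD i []).zip (z.1.1.getD i []).tail).all fun e => !nbB (z.1.1.getD j []) e.1 e.2) &&
    decide (z.2.length ≤ z.1.2) &&
    (List.range k).all fun i => z.2.all (fun x => (z.1.1.getD i []).contains x) &&
      (z.1.1.getD i []).all fun x => z.2.contains x || z.2.any fun y => nbB (z.1.1.getD i []) x y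

lemma ver_pt (k : ℕ) : PT (ver k) := by unfold ver; fun_prop

lemma gd_np (k : ℕ) (hk : 0 < k) : InNP (Lang (GD k)) := by
  refine inNP_Lang (ver_pt k) Polynomial.X ?_ ?_
  · rintro ⟨P, M⟩ ⟨h1, h2, h3, h4, D, h5, h6⟩
    refine ⟨(P.getD 0 []).filter (· ∈ D), ?_, ?_⟩
    · have a1 := size_le_of_sublist (List.filter_sublist (l := P.getD 0 []) (p := (· ∈ D)))
      have a2 : size (P.getD 0 []) < size P := by
        refine size_lt_of_mem ?_
        simp only at h1
        simp [List.getD_eq_getElem?_getD, show 0 < P.length by omega]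
      simp only [Polynomial.eval_X, size_pair]
      omega
    · simp only [ver, Bool.and_eq_true, beq_iff_eq, List.all_eq_true, List.mem_range,
        decide_eq_true_eq, List.contains_iff_mem, Bool.or_eq_true, Bool.not_eq_true',
        ← Bool.not_eq_true, nbB_iff, List.any_eq_true, List.mem_filter]
      refine ⟨⟨⟨⟨⟨h1, h2⟩, h3⟩, fun i hi j hj => ?_⟩, ?_⟩, fun i hi => ⟨fun x hx => ?_, fun x hx => ?_⟩⟩
      · rw [or_iff_not_imp_left]
        exact fun hij e he => h4 i hi j hj hij e.1 e.2 (Or.inl he)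
      · rw [← List.toFinset_card_of_nodup ((h2 0 hk).filter _)]
        refine le_trans (Finset.card_le_card fun x hx => ?_) h5
        simpa using (List.mem_filter.1 (List.mem_toFinset.1 hx)).2
      · exact (h6 i hi).1 x hx.2
      · by_cases hD : x ∈ D
        · exact Or.inl ⟨(h6 0 hk).1 x hD, hD⟩
        · obtain ⟨y, hy, h⟩ := (h6 i hi).2 x hx hD
          exact Or.inr ⟨y, ⟨(h6 0 hk).1 y hy, hy⟩, h⟩
  · rintro ⟨P, M⟩ w h
    simp only [ver, Bool.and_eq_true, beq_iff_eq, List.all_eq_true, List.mem_range,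
      decide_eq_true_eq, List.contains_iff_mem, Bool.or_eq_true, Bool.not_eq_true',
      ← Bool.not_eq_true, nbB_iff, List.any_eq_true] at h
    obtain ⟨⟨⟨⟨⟨h1, h2⟩, h3⟩, h4⟩, h5⟩, h6⟩ := h
    refine ⟨h1, h2, h3, fun i hi j hj hij x y h => ?_, w.toFinset,
      (List.toFinset_card_le w).trans h5, fun i hi => ⟨fun x hx => ?_, fun x hx hx' => ?_⟩⟩
    · rcases h with h | h
      · exact (h4 i hi j hj).resolve_left hij _ h
      · exact fun h' => (h4 i hi j hj).resolve_left hij _ h h'.symm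
    · exact (h6 i hi).1 x (List.mem_toFinset.1 hx)
    · obtain ⟨y, hy, h⟩ := ((h6 i hi).2 x hx).resolve_left (by simpa using hx')
      exact ⟨y, List.mem_toFinset.2 hy, h⟩

lemma cons_iff {α : Type} (r : α → α → Prop) (hi : ∀ x, ¬ r x x)
    (ht : ∀ x y z, r x y → r y z → r x z) : ∀ (l : List α), l.Pairwise r → ∀ x y,
    (x, y) ∈ l.zip l.tail ↔ x ∈ l ∧ y ∈ l ∧ r x y ∧ ∀ z ∈ l, ¬ (r x z ∧ r z y)
  | [], _, x, y => by simp
  | [a], _, x, y => by
    simp only [List.tail_cons, List.zip_nil_right, List.not_mem_nil, List.mem_singleton, false_iff]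
    rintro ⟨rfl, rfl, h, -⟩
    exact hi _ h
  | a :: b :: t, h, x, y => by
    have h' := List.pairwise_cons.1 h
    have h'' := List.pairwise_cons.1 h'.2
    have ih := cons_iff r hi ht (b :: t) h'.2 x y
    simp only [List.tail_cons, List.zip_cons_cons] at ih ⊢
    rw [List.mem_cons, ih]
    constructor
    · rintro (e | ⟨h1, h2, h3, h4⟩)
      · obtain ⟨rfl, rfl⟩ := Prod.mk.inj e
        refine ⟨by simp, by simp, h'.1 _ (by simp), fun z hz => ?_⟩
        rcases List.mem_cons.1 hz with rfl | hz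
        · exact fun e => hi _ e.1
        rcases List.mem_cons.1 hz with rfl | hz
        · exact fun e => hi _ e.2
        · exact fun e => hi _ (ht _ _ _ e.2 (h''.1 z hz))
      · refine ⟨List.mem_cons_of_mem _ h1, List.mem_cons_of_mem _ h2, h3, fun z hz => ?_⟩
        rcases List.mem_cons.1 hz with rfl | hz
        · exact fun e => hi _ (ht _ _ _ e.1 (h'.1 x h1))
        · exact h4 z hz
    · rintro ⟨h1, h2, h3, h4⟩
      rcases List.mem_cons.1 h1 with rfl | g1
      · rcases List.mem_cons.1 h2 with rfl | g2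
        · exact absurd h3 (hi _)
        rcases List.mem_cons.1 g2 with rfl | g3
        · exact Or.inl rfl
        · exact absurd ⟨h'.1 b (by simp), h''.1 y g3⟩ (h4 b (by simp))
      · rcases List.mem_cons.1 h2 with rfl | g2
        · exact absurd (ht _ _ _ h3 (h'.1 x g1)) (hi _)
        · exact Or.inr ⟨g1, g2, h3, fun z hz => h4 z (List.mem_cons_of_mem _ hz)⟩

abbrev K3 := ℕ × ℕ × ℕ
abbrev V4 := ℕ × ℕ × ℕ × ℕ

def Lt3 (a b : K3) : Prop :=
  a.1 < b.1 ∨ (a.1 = b.1 ∧ (a.2.1 < b.2.1 ∨ (a.2.1 = b.2.1 ∧ a.2.2 < b.2.2)))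

def keys (Q : ℕ) : List K3 :=
  (List.range Q).flatMap fun a => (List.range Q).flatMap fun b => (List.range Q).map fun c => (a, b, c)

lemma mem_keys {Q : ℕ} {k : K3} : k ∈ keys Q ↔ k.1 < Q ∧ k.2.1 < Q ∧ k.2.2 < Q := by
  obtain ⟨a, b, c⟩ := k
  simp [keys]

lemma keys_sorted (Q : ℕ) : (keys Q).Pairwise Lt3 := by
  rw [keys, List.pairwise_flatMap]
  refine ⟨fun a _ => ?_, List.pairwise_lt_range.imp fun {a b} h => ?_⟩
  · rw [List.pairwise_flatMap]
    refine ⟨fun b _ => ?_, List.pairwise_lt_range.imp fun {b c} h => ?_⟩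
    · rw [List.pairwise_map]
      exact List.pairwise_lt_range.imp fun {c d} h => by simp [Lt3, h]
    · simp only [List.mem_map]
      rintro _ ⟨x, -, rfl⟩ _ ⟨y, -, rfl⟩
      simp [Lt3, h]
  · simp only [List.mem_flatMap, List.mem_map]
    rintro _ ⟨x, -, x', -, rfl⟩ _ ⟨y, -, y', -, rfl⟩
    simp [Lt3, h]

def code (x : V4) : ℕ := Nat.pair x.1 (Nat.pair x.2.1 (Nat.pair x.2.2.1 x.2.2.2))

lemma code_inj : Function.Injective code := by
  rintro ⟨a, b, c, d⟩ ⟨a', b', c', d'⟩ h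
  simpa [code, Nat.pair_eq_pair] using h

def ord (Q : ℕ) (E : List V4) (key : V4 → K3) : List V4 :=
  (keys Q).flatMap fun k => E.filter fun x => key x == k

def Cons (E : List V4) (key : V4 → K3) (x y : V4) : Prop :=
  x ∈ E ∧ y ∈ E ∧ Lt3 (key x) (key y) ∧ ∀ z ∈ E, ¬ (Lt3 (key x) (key z) ∧ Lt3 (key z) (key y))

section
variable {Q : ℕ} {E : List V4} {key : V4 → K3} (hE : E.Nodup)
  (hb : ∀ x ∈ E, (key x).1 < Q ∧ (key x).2.1 < Q ∧ (key x).2.2 < Q)
  (hi : ∀ x ∈ E, ∀ y ∈ E, key x = key y → x = y)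

include hb in
lemma mem_ord {x : V4} : x ∈ ord Q E key ↔ x ∈ E := by
  simp only [ord, List.mem_flatMap, List.mem_filter, beq_iff_eq]
  exact ⟨fun ⟨_, _, h, _⟩ => h, fun h => ⟨_, mem_keys.2 (hb x h), h, rfl⟩⟩

include hE hi in
lemma ord_sorted : (ord Q E key).Pairwise fun x y => Lt3 (key x) (key y) := by
  rw [ord, List.pairwise_flatMap]
  refine ⟨fun k _ => ?_, (keys_sorted Q).imp fun {a b} h => ?_⟩
  · refine List.Pairwise.imp_of_mem ?_ (hE.filter _)
    intro x y hx hy hxy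
    simp only [List.mem_filter, beq_iff_eq] at hx hy
    exact absurd (hi x hx.1 y hy.1 (hx.2.trans hy.2.symm)) hxy
  · simp only [List.mem_filter, beq_iff_eq]
    rintro x ⟨-, rfl⟩ y ⟨-, rfl⟩
    exact h

include hE hi in
lemma ord_nodup : ((ord Q E key).map code).Nodup :=
  List.Nodup.map code_inj ((ord_sorted hE hi).imp fun {x y} h e => by
    subst e; unfold Lt3 at h; omega)

include hE hb hi in
lemma nb_ord (a b : ℕ) : Nb ((ord Q E key).map code) a b ↔
    ∃ x y, code x = a ∧ code y = b ∧ (Cons E key x y ∨ Cons E key y x) := by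
  have key0 : ∀ a b, (a, b) ∈ ((ord Q E key).map code).zip ((ord Q E key).map code).tail ↔
      ∃ x y, code x = a ∧ code y = b ∧ Cons E key x y := by
    intro a b
    rw [← List.map_tail, List.zip_map, List.mem_map]
    have := cons_iff (fun x y => Lt3 (key x) (key y)) (fun x => by unfold Lt3; omega)
      (fun x y z => by unfold Lt3; omega) _ (ord_sorted (Q := Q) hE hi)
    simp only [mem_ord hb] at this
    constructor
    · rintro ⟨⟨x, y⟩, h, e⟩
      exact ⟨x, y, (Prod.mk.inj e).1, (Prod.mk.inj e).2, (this x y).1 h⟩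
    · rintro ⟨x, y, rfl, rfl, h⟩
      exact ⟨(x, y), (this x y).2 h, rfl⟩
  rw [Nb, key0, key0]
  constructor
  · rintro (⟨x, y, h1, h2, h⟩ | ⟨x, y, h1, h2, h⟩)
    · exact ⟨x, y, h1, h2, Or.inl h⟩
    · exact ⟨y, x, h2, h1, Or.inr h⟩
  · rintro ⟨x, y, h1, h2, h | h⟩
    · exact Or.inl ⟨x, y, h1, h2, h⟩
    · exact Or.inr ⟨y, x, h2, h1, h⟩

end

def inst (k Q : ℕ) (E : List V4) (key : ℕ → V4 → K3) (M : ℕ) : List (List ℕ) × ℕ :=
  ((List.range k).map fun i => (ord Q E (key i)).map code, M)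

lemma gd_inst {k Q : ℕ} (hk : 0 < k) {E : List V4} {key : ℕ → V4 → K3} (M : ℕ) (hE : E.Nodup)
    (hb : ∀ i < k, ∀ x ∈ E, (key i x).1 < Q ∧ (key i x).2.1 < Q ∧ (key i x).2.2 < Q)
    (hi : ∀ i < k, ∀ x ∈ E, ∀ y ∈ E, key i x = key i y → x = y)
    (hd : ∀ i < k, ∀ j < k, i ≠ j → ∀ x y, Cons E (key i) x y →
      ¬ Cons E (key j) x y ∧ ¬ Cons E (key j) y x) :
    GD k (inst k Q E key M) ↔ ∃ D : Finset V4, D.card ≤ M ∧ (∀ x ∈ D, x ∈ E) ∧
      ∀ i < k, ∀ x ∈ E, x ∉ D → ∃ y ∈ D, Cons E (key i) x y ∨ Cons E (key i) y x := by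
  have hp : ∀ i < k, (inst k Q E key M).1.getD i [] = (ord Q E (key i)).map code := fun i hi => by
    simp [inst, List.getD_eq_getElem?_getD, hi]
  have hm : ∀ i < k, ∀ a, a ∈ (inst k Q E key M).1.getD i [] ↔ ∃ x ∈ E, code x = a := fun i h a => by
    simp only [hp i h, List.mem_map, mem_ord (hb i h)]
  have hn : ∀ i < k, ∀ a b, Nb ((inst k Q E key M).1.getD i []) a b ↔
      ∃ x y, code x = a ∧ code y = b ∧ (Cons E (key i) x y ∨ Cons E (key i) y x) := fun i h a b => by
    rw [hp i h, nb_ord hE (hb i h) (hi i h)]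
  constructor
  · rintro ⟨-, -, -, -, D, h1, h2⟩
    refine ⟨D.preimage code code_inj.injOn, ?_, fun x hx => ?_, fun i h x hx hx' => ?_⟩
    · refine le_trans ?_ h1
      exact Finset.card_le_card_of_injOn code (fun x hx => by simpa using hx) code_inj.injOn
    · obtain ⟨y, hy, e⟩ := (hm 0 hk _).1 ((h2 0 hk).1 _ (Finset.mem_preimage.1 hx))
      exact code_inj e ▸ hy
    · obtain ⟨b, hb, h'⟩ := (h2 i h).2 (code x) ((hm i h _).2 ⟨x, hx, rfl⟩) (by simpa using hx')
      obtain ⟨x', y, e, rfl, g⟩ := (hn i h _ _).1 h'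
      exact ⟨y, by simpa using hb, code_inj e ▸ g⟩
  · rintro ⟨D, h1, h2, h3⟩
    refine ⟨by simp [inst], fun i h => ?_, fun i h j h' a => ?_, fun i h j h' hij a b => ?_,
      D.image code, Finset.card_image_le.trans h1, fun i h => ⟨fun a ha => ?_, fun a ha ha' => ?_⟩⟩
    · rw [hp i h]; exact ord_nodup hE (hi i h)
    · rw [hm i h, hm j h']; exact id
    · rw [hn i h, hn j h']
      rintro ⟨x, y, rfl, rfl, c1⟩ ⟨x', y', e1, e2, c2⟩
      rw [code_inj e1, code_inj e2] at c2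
      rcases c1 with c1 | c1 <;> rcases c2 with c2 | c2
      · exact (hd i h j h' hij _ _ c1).1 c2
      · exact (hd i h j h' hij _ _ c1).2 c2
      · exact (hd i h j h' hij _ _ c1).2 c2
      · exact (hd i h j h' hij _ _ c1).1 c2
    · obtain ⟨x, hx, rfl⟩ := Finset.mem_image.1 ha
      exact (hm i h _).2 ⟨x, h2 x hx, rfl⟩
    · obtain ⟨x, hx, rfl⟩ := (hm i h _).1 ha
      obtain ⟨y, hy, c⟩ := h3 i h x hx (fun h => ha' (Finset.mem_image_of_mem _ h))
      exact ⟨code y, Finset.mem_image_of_mem _ hy, (hn i h _ _).2 ⟨x, y, rfl, rfl, c⟩⟩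

lemma cl_mono (φ : CNF) {s t : ℕ} (hst : s ≤ t) (ht : t < (occ φ).length) :
    cl (occ φ) s ≤ cl (occ φ) t := by
  have h : (occ φ).Pairwise fun x y => x.1 ≤ y.1 := by
    rw [occ, List.pairwise_flatMap]
    refine ⟨fun c _ => ?_, ?_⟩
    · rw [List.pairwise_map]
      exact List.pairwise_of_forall (by simp)
    · have : (φ.zipIdx.map Prod.snd).Pairwise (· < ·) := by
        rw [List.zipIdx_map_snd]; exact List.pairwise_lt_range'
      rw [List.pairwise_map] at this
      refine this.imp fun {a b} h => ?_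
      simp only [List.mem_map]
      rintro _ ⟨x, -, rfl⟩ _ ⟨y, -, rfl⟩
      exact h.le
  rcases hst.eq_or_lt with rfl | hst
  · rfl
  · rw [cl, cl, List.getD_eq_getElem _ _ ht, List.getD_eq_getElem _ _ (hst.trans ht)]
    exact List.pairwise_iff_getElem.1 h s t _ ht hst

end Pool.Agent.H9D
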