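import Pool.Agent.Lib.helper9.GDomA

namespace Pool.Agent.H9D

open Pool.Agent.Cx

lemma cons_succ {E : List V4} {key : V4 → K3} {x y : V4} (hx : x ∈ E) (hy : y ∈ E)
    (h : key y = ((key x).1, (key x).2.1, (key x).2.2 + 1)) : Cons E key x y := by
  refine ⟨hx, hy, ?_, fun z _ => ?_⟩ <;> rw [h] <;> unfold Lt3 <;> dsimp only <;> omega

lemma k3_ext {a b : K3} (h : a.1 = b.1 ∧ a.2.1 = b.2.1 ∧ a.2.2 = b.2.2) : a = b :=
  Prod.ext h.1 (Prod.ext h.2.1 h.2.2)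

lemma v4_ext {a b : V4} (h : a.1 = b.1 ∧ a.2.1 = b.2.1 ∧ a.2.2.1 = b.2.2.1 ∧ a.2.2.2 = b.2.2.2) :
    a = b := Prod.ext h.1 (Prod.ext h.2.1 (Prod.ext h.2.2.1 h.2.2.2))

lemma cons_r {E : List V4} {key : V4 → K3} (hi : ∀ x ∈ E, ∀ y ∈ E, key x = key y → x = y)
    {x y y' : V4} (h : Cons E key x y) (h' : Cons E key x y') : y = y' := by
  refine hi y h.2.1 y' h'.2.1 (k3_ext ?_)
  have a := h.2.2.1
  have b := h'.2.2.1
  have c := h.2.2.2 y' h'.2.1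
  have d := h'.2.2.2 y h.2.1
  unfold Lt3 at a b c d
  omega

lemma cons_l {E : List V4} {key : V4 → K3} (hi : ∀ x ∈ E, ∀ y ∈ E, key x = key y → x = y)
    {x x' y : V4} (h : Cons E key x y) (h' : Cons E key x' y) : x = x' := by
  refine hi x h.1 x' h'.1 (k3_ext ?_)
  have a := h.2.2.1
  have b := h'.2.2.1
  have c := h.2.2.2 x' h'.1
  have d := h'.2.2.2 x h.1
  unfold Lt3 at a b c d
  omega

def Valid (W L : ℕ) (x : V4) : Prop :=
  (x.1 = 0 ∧ x.2.1 < W ∧ x.2.2.1 < L ∧ x.2.2.2 = 0) ∨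
    (x.1 = 1 ∧ x.2.1 ≤ W ∧ x.2.2.1 ≤ L ∧ x.2.2.2 < 7)

def verts (W L : ℕ) : List V4 :=
  ((List.range W).flatMap fun w => (List.range L).map fun p => (0, w, p, 0)) ++
    (List.range (W + 1)).flatMap fun w => (List.range (L + 1)).flatMap fun p =>
      (List.range 7).map fun r => (1, w, p, r)

lemma mem_verts {W L : ℕ} {x : V4} : x ∈ verts W L ↔ Valid W L x := by
  obtain ⟨t, w, p, r⟩ := x
  simp only [verts, Valid, List.mem_append, List.mem_flatMap, List.mem_map, List.mem_range,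
    Prod.mk.injEq]
  constructor
  · rintro (⟨a, h, b, h', rfl, rfl, rfl, rfl⟩ | ⟨a, h, b, h', c, h'', rfl, rfl, rfl, rfl⟩) <;> omega
  · rintro (⟨rfl, h, h', rfl⟩ | ⟨rfl, h, h', h''⟩)
    · exact Or.inl ⟨w, h, p, h', rfl, rfl, rfl, rfl⟩
    · exact Or.inr ⟨w, by omega, p, by omega, r, h'', rfl, rfl, rfl, rfl⟩

lemma nodup_verts (W L : ℕ) : (verts W L).Nodup := by
  have : (verts W L).Pairwise fun x y => x.1 < y.1 ∨ (x.1 = y.1 ∧ Lt3 x.2 y.2) := by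
    rw [verts, List.pairwise_append]
    refine ⟨?_, ?_, ?_⟩
    · rw [List.pairwise_flatMap]
      refine ⟨fun b _ => ?_, List.pairwise_lt_range.imp fun {b c} h => ?_⟩
      · rw [List.pairwise_map]
        exact List.pairwise_lt_range.imp fun {c d} h => by simp [Lt3, h]
      · simp only [List.mem_map]
        rintro _ ⟨x, -, rfl⟩ _ ⟨y, -, rfl⟩
        simp [Lt3, h]
    · rw [List.pairwise_flatMap]
      refine ⟨fun a _ => ?_, List.pairwise_lt_range.imp fun {a b} h => ?_⟩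
      · rw [List.pairwise_flatMap]
        refine ⟨fun b _ => ?_, List.pairwise_lt_range.imp fun {b c} h => ?_⟩
        · rw [List.pairwise_map]
          exact List.pairwise_lt_range.imp fun {c d} h => by simp [Lt3, h]
        · simp only [List.mem_map]
          rintro _ ⟨x, -, rfl⟩ _ ⟨y, -, rfl⟩
          simp [Lt3, h]
      · simp only [List.mem_flatMap, List.mem_map]
        rintro _ ⟨x, -, x', -, rfl⟩ _ ⟨y, -, y', -, rfl⟩
        simp [Lt3, h]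
    · simp only [List.mem_flatMap, List.mem_map]
      rintro _ ⟨x, -, x', -, rfl⟩ _ ⟨y, -, y', -, z, -, rfl⟩
      simp
  exact this.imp fun {x y} h e => by subst e; unfold Lt3 at h; omega

def rho (r : ℕ) : ℕ :=
  if r = 1 then 4 else if r = 2 then 1 else if r = 4 then 5 else if r = 5 then 2 else r

lemma rho_spec (r : ℕ) : (r = 1 ∧ rho r = 4) ∨ (r = 2 ∧ rho r = 1) ∨ (r = 4 ∧ rho r = 5) ∨
    (r = 5 ∧ rho r = 2) ∨ (r ≠ 1 ∧ r ≠ 2 ∧ r ≠ 4 ∧ r ≠ 5 ∧ rho r = r) := by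
  unfold rho; split_ifs <;> omega

def key0 (W L : ℕ) (x : V4) : K3 :=
  if x.1 = 0 then (x.2.1, 1 + x.2.2.1, 0)
  else if x.2.2.1 = L then (x.2.1, 0, x.2.2.2) else (2 * W + 1 - x.2.1, L - 1 - x.2.2.1, x.2.2.2)

lemma key0_spec (W L : ℕ) (x : V4) :
    (x.1 = 0 ∧ (key0 W L x).1 = x.2.1 ∧ (key0 W L x).2.1 = 1 + x.2.2.1 ∧ (key0 W L x).2.2 = 0) ∨
    (x.1 ≠ 0 ∧ x.2.2.1 = L ∧ (key0 W L x).1 = x.2.1 ∧ (key0 W L x).2.1 = 0 ∧
      (key0 W L x).2.2 = x.2.2.2) ∨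
    (x.1 ≠ 0 ∧ x.2.2.1 ≠ L ∧ (key0 W L x).1 = 2 * W + 1 - x.2.1 ∧
      (key0 W L x).2.1 = L - 1 - x.2.2.1 ∧ (key0 W L x).2.2 = x.2.2.2) := by
  unfold key0; split_ifs <;> simp [*]

lemma key0_inj {W L : ℕ} : ∀ x ∈ verts W L, ∀ y ∈ verts W L, key0 W L x = key0 W L y → x = y := by
  intro x hx y hy h
  rw [mem_verts, Valid] at hx hy
  have a := key0_spec W L x
  have b := key0_spec W L y
  rw [h] at a
  refine v4_ext ?_
  rcases a with a | a | a <;> rcases b with b | b | b <;> omega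

def Is (y : V4) (a b c d : ℕ) : Prop := y.1 = a ∧ y.2.1 = b ∧ y.2.2.1 = c ∧ y.2.2.2 = d

/-- successor on the first path -/
def S0 (W L : ℕ) (x y : V4) : Prop :=
  (x.1 = 1 ∧ x.2.2.2 < 6 ∧ Is y 1 x.2.1 x.2.2.1 (x.2.2.2 + 1)) ∨
  (x.1 = 1 ∧ x.2.2.2 = 6 ∧ x.2.2.1 = L ∧ x.2.1 < W ∧ Is y 0 x.2.1 0 0) ∨
  (x.1 = 0 ∧ x.2.2.1 + 1 < L ∧ Is y 0 x.2.1 (x.2.2.1 + 1) 0) ∨
  (x.1 = 0 ∧ x.2.2.1 + 1 = L ∧ Is y 1 (x.2.1 + 1) L 0) ∨
  (x.1 = 1 ∧ x.2.2.2 = 6 ∧ x.2.2.1 = L ∧ x.2.1 = W ∧ Is y 1 W (L - 1) 0) ∨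
  (x.1 = 1 ∧ x.2.2.2 = 6 ∧ x.2.2.1 < L ∧ 0 < x.2.2.1 ∧ Is y 1 x.2.1 (x.2.2.1 - 1) 0) ∨
  (x.1 = 1 ∧ x.2.2.2 = 6 ∧ x.2.2.1 = 0 ∧ 0 < x.2.1 ∧ Is y 1 (x.2.1 - 1) (L - 1) 0)

lemma cons0_of {W L : ℕ} (hL : 0 < L) {x y : V4} (hx : Valid W L x) (h : S0 W L x y) :
    Cons (verts W L) (key0 W L) x y := by
  have a := key0_spec W L x
  have b := key0_spec W L y
  refine ⟨mem_verts.2 hx, mem_verts.2 ?_, ?_, fun z hz => ?_⟩
  · clear a b
    unfold Valid S0 Is at *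
    rcases h with h | h | h | h | h | h | h <;> omega
  · unfold Valid S0 Is Lt3 at *
    rcases h with h | h | h | h | h | h | h <;> rcases a with a | a | a <;> (try omega) <;>
      rcases b with b | b | b <;> omega
  · have c := key0_spec W L z
    rw [mem_verts] at hz
    unfold Valid S0 Is Lt3 at *
    rintro ⟨d, e⟩
    rcases h with h | h | h | h | h | h | h <;> rcases a with a | a | a <;> (try omega) <;>
      rcases b with b | b | b <;> (try omega) <;> rcases c with c | c | c <;> omega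

def nx0 (W L : ℕ) (x : V4) : V4 :=
  if x.1 = 0 then (if x.2.2.1 + 1 < L then (0, x.2.1, x.2.2.1 + 1, 0) else (1, x.2.1 + 1, L, 0))
  else if x.2.2.2 < 6 then (1, x.2.1, x.2.2.1, x.2.2.2 + 1)
  else if x.2.2.1 = L then (if x.2.1 < W then (0, x.2.1, 0, 0) else (1, W, L - 1, 0))
  else if 0 < x.2.2.1 then (1, x.2.1, x.2.2.1 - 1, 0) else (1, x.2.1 - 1, L - 1, 0)

lemma cons0_iff {W L : ℕ} (hL : 0 < L) {x y : V4} (h : Cons (verts W L) (key0 W L) x y) :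
    S0 W L x y := by
  have hx := mem_verts.1 h.1
  have : S0 W L x (nx0 W L x) ∨ Is x 1 0 0 6 := by
    unfold Valid at hx
    unfold S0 Is nx0
    split_ifs <;> dsimp only
    · left; right; right; left; omega
    · left; right; right; right; left; omega
    · left; left; omega
    · left; right; left; omega
    · left; right; right; right; right; left; omega
    · left; right; right; right; right; right; left; omega
    · by_cases h0 : x.2.1 = 0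
      · right; omega
      · left; right; right; right; right; right; right; omega
  rcases this with h' | h'
  · rwa [cons_r key0_inj h (cons0_of hL hx h')]
  · exfalso
    have a := key0_spec W L x
    have b := key0_spec W L y
    have c := h.2.2.1
    have d := mem_verts.1 h.2.1
    clear h
    unfold Lt3 Valid Is at *
    rcases a with a | a | a <;> (try omega) <;> rcases b with b | b | b <;> omega

def cc (x : V4) : ℕ :=
  if x.1 = 0 then 3 else if x.2.2.2 = 0 then 1 else if x.2.2.2 = 1 then 0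
  else if x.2.2.2 = 2 then 2 else x.2.2.2 + 1

def sh (s : ℕ) (x : V4) : ℕ :=
  if x.1 = 0 ∨ x.2.2.2 = 5 then 2 * s else if x.2.2.2 = 1 ∨ x.2.2.2 = 2 ∨ x.2.2.2 = 4 then s else 0

def keyX (W s : ℕ) (x : V4) : K3 :=
  (if sh s x ≤ x.2.1 then x.2.1 - sh s x else x.2.1 + (W + 1) - sh s x, x.2.2.1, cc x)

def XS (W s : ℕ) (x : V4) (k : K3) : Prop :=
  k.2.1 = x.2.2.1 ∧ ∃ m, (k.1 + m = x.2.1 ∨ (x.2.1 < m ∧ k.1 + m = x.2.1 + (W + 1))) ∧
    ((x.1 = 0 ∧ k.2.2 = 3 ∧ m = 2 * s) ∨ (x.1 ≠ 0 ∧ (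
      (x.2.2.2 = 0 ∧ k.2.2 = 1 ∧ m = 0) ∨ (x.2.2.2 = 1 ∧ k.2.2 = 0 ∧ m = s) ∨
      (x.2.2.2 = 2 ∧ k.2.2 = 2 ∧ m = s) ∨ (x.2.2.2 = 3 ∧ k.2.2 = 4 ∧ m = 0) ∨
      (x.2.2.2 = 4 ∧ k.2.2 = 5 ∧ m = s) ∨ (x.2.2.2 = 5 ∧ k.2.2 = 6 ∧ m = 2 * s) ∨
      (x.2.2.2 = 6 ∧ k.2.2 = 7 ∧ m = 0))))

lemma keyX_spec {W L s : ℕ} (hs : 2 * s ≤ W) {x : V4} (hx : Valid W L x) :
    XS W s x (keyX W s x) := by
  refine ⟨rfl, sh s x, ?_, ?_⟩
  · have : sh s x ≤ 2 * s := by unfold sh; split_ifs <;> omega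
    unfold keyX
    dsimp only
    split_ifs <;> omega
  · obtain ⟨t, w, p, r⟩ := x
    unfold Valid at hx
    dsimp only at hx
    rcases hx with ⟨rfl, -, -, rfl⟩ | ⟨rfl, -, -, h⟩
    · simp [keyX, cc, sh]
    · interval_cases r <;> simp [keyX, cc, sh]

lemma keyX_inj {W L s : ℕ} (hs : 2 * s ≤ W) :
    ∀ x ∈ verts W L, ∀ y ∈ verts W L, keyX W s x = keyX W s y → x = y := by
  intro x hx y hy h
  rw [mem_verts] at hx hy
  obtain ⟨a1, m, a2, a3⟩ := keyX_spec hs hx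
  obtain ⟨b1, m', b2, b3⟩ := keyX_spec hs hy
  rw [h] at a1 a2 a3
  unfold Valid at hx hy
  refine v4_ext ?_
  omega

lemma keyX_surj {W L s : ℕ} (hs : 2 * s ≤ W) (a b c : ℕ) (ha : a ≤ W) (hb : b ≤ L) (hc : c < 8)
    (hc' : c ≠ 3) : ∃ z ∈ verts W L, keyX W s z = (a, b, c) := by
  have key : ∀ r m, r < 7 → m ≤ 2 * s → (∀ w, sh s (1, w, b, r) = m) → (∀ w, cc (1, w, b, r) = c) →
      ∃ z ∈ verts W L, keyX W s z = (a, b, c) := by
    intro r m hr hm h1 h2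
    refine ⟨(1, if a + m ≤ W then a + m else a + m - (W + 1), b, r), mem_verts.2 (Or.inr ?_), ?_⟩
    · dsimp only
      split_ifs <;> omega
    · unfold keyX
      rw [h1, h2]
      refine k3_ext ?_
      dsimp only
      split_ifs <;> omega
  interval_cases c
  · exact key 1 s (by omega) (by omega) (by simp [sh]) (by simp [cc])
  · exact key 0 0 (by omega) (by omega) (by simp [sh]) (by simp [cc])
  · exact key 2 s (by omega) (by omega) (by simp [sh]) (by simp [cc])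
  · exact absurd rfl hc'
  · exact key 3 0 (by omega) (by omega) (by simp [sh]) (by simp [cc])
  · exact key 4 s (by omega) (by omega) (by simp [sh]) (by simp [cc])
  · exact key 5 (2 * s) (by omega) (by omega) (by simp [sh]) (by simp [cc])
  · exact key 6 0 (by omega) (by omega) (by simp [sh]) (by simp [cc])

def KX (L : ℕ) (a b : K3) : Prop :=
  (b.1 = a.1 ∧ b.2.1 = a.2.1 ∧ (b.2.2 = a.2.2 + 1 ∨ (a.2.2 = 2 ∧ b.2.2 = 4))) ∨
  (a.2.2 = 7 ∧ b.2.2 = 0 ∧ ((b.1 = a.1 ∧ b.2.1 = a.2.1 + 1) ∨ (a.2.1 = L ∧ b.1 = a.1 + 1 ∧ b.2.1 = 0)))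

lemma keyX_bd {W L s : ℕ} (hs : 2 * s ≤ W) {x : V4} (hx : Valid W L x) :
    (keyX W s x).1 ≤ W ∧ (keyX W s x).2.1 ≤ L ∧ (keyX W s x).2.2 < 8 := by
  obtain ⟨a1, m, a2, a3⟩ := keyX_spec hs hx
  unfold Valid at hx
  omega

lemma consX {W L s : ℕ} (hs : 2 * s ≤ W) {x y : V4} (h : Cons (verts W L) (keyX W s) x y) :
    KX L (keyX W s x) (keyX W s y) := by
  have a := keyX_bd hs (mem_verts.1 h.1)
  have b := keyX_bd hs (mem_verts.1 h.2.1)
  have c := h.2.2.1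
  have w : ∀ a b c, a ≤ W → b ≤ L → c < 8 → c ≠ 3 →
      ¬ (Lt3 (keyX W s x) (a, b, c) ∧ Lt3 (a, b, c) (keyX W s y)) := by
    intro a b c h1 h2 h3 h4
    obtain ⟨z, hz, e⟩ := keyX_surj hs a b c h1 h2 h3 h4
    exact e ▸ h.2.2.2 z hz
  generalize keyX W s x = kx at *
  generalize keyX W s y = ky at *
  obtain ⟨x1, x2, x3⟩ := kx
  obtain ⟨y1, y2, y3⟩ := ky
  unfold Lt3 KX at *
  dsimp only at *
  by_cases h1 : y1 = x1 ∧ y2 = x2
  · left
    refine ⟨h1.1, h1.2, ?_⟩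
    by_contra h2
    by_cases h3 : x3 = 2
    · exact w x1 x2 4 (by omega) (by omega) (by omega) (by omega) ⟨by omega, by omega⟩
    · exact w x1 x2 (x3 + 1) (by omega) (by omega) (by omega) (by omega) ⟨by omega, by omega⟩
  · right
    have h7 : x3 = 7 := by
      by_contra h2
      exact w x1 x2 7 (by omega) (by omega) (by omega) (by omega) ⟨by omega, by omega⟩
    have h0 : y3 = 0 := by
      by_contra h2
      exact w y1 y2 0 (by omega) (by omega) (by omega) (by omega) ⟨by omega, by omega⟩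
    refine ⟨h7, h0, ?_⟩
    by_contra h2
    by_cases h3 : x2 = L
    · exact w (x1 + 1) 0 0 (by omega) (by omega) (by omega) (by omega) ⟨by omega, by omega⟩
    · exact w x1 (x2 + 1) 0 (by omega) (by omega) (by omega) (by omega) ⟨by omega, by omega⟩

def Inner (x : V4) : Prop := x.1 = 1 ∧ 1 ≤ x.2.2.2 ∧ x.2.2.2 ≤ 5
def Same (x y : V4) : Prop := x.1 = y.1 ∧ x.2.1 = y.2.1 ∧ x.2.2.1 = y.2.2.1

lemma consX_inner {W L s : ℕ} (hs : 2 * s ≤ W) (hs0 : 0 < s) {x y : V4}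
    (h : Cons (verts W L) (keyX W s) x y) : (Inner x ∨ Inner y) ∧ ¬ Same x y := by
  have hx := mem_verts.1 h.1
  have hy := mem_verts.1 h.2.1
  obtain ⟨a1, m, a2, a3⟩ := keyX_spec hs hx
  obtain ⟨b1, m', b2, b3⟩ := keyX_spec hs hy
  have c := consX hs h
  unfold KX Inner Same Valid at *
  omega

lemma consX_disj {W L s s' : ℕ} (hs : 2 * s ≤ W) (hs' : 2 * s' ≤ W) (hne : s ≠ s') {x y : V4}
    (h : Cons (verts W L) (keyX W s) x y) :
    ¬ Cons (verts W L) (keyX W s') x y ∧ ¬ Cons (verts W L) (keyX W s') y x := by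
  have hx := mem_verts.1 h.1
  have hy := mem_verts.1 h.2.1
  obtain ⟨a1, m, a2, a3⟩ := keyX_spec hs hx
  obtain ⟨b1, m', b2, b3⟩ := keyX_spec hs hy
  obtain ⟨d1, n, d2, d3⟩ := keyX_spec hs' hx
  obtain ⟨e1, n', e2, e3⟩ := keyX_spec hs' hy
  have c := consX hs h
  have bx := (keyX_bd hs hx).1
  have bx' := (keyX_bd hs' hx).1
  have bY := (keyX_bd hs hy).1
  have bY' := (keyX_bd hs' hy).1
  constructor <;> intro h' <;> have c' := consX hs' h' <;> unfold KX at * <;> omega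

lemma cons0_inner {W L : ℕ} (hL : 0 < L) {x y : V4} (h : Cons (verts W L) (key0 W L) x y)
    (hi : Inner x ∨ Inner y) : Same x y := by
  have := cons0_iff hL h
  unfold S0 Is Inner Same at *
  omega

/-- on the extra paths the vertices `0, 3, 6` of the separators dominate everything -/
lemma domX {W L s : ℕ} (hs : 2 * s ≤ W) {x : V4} (hx : x ∈ verts W L)
    (h : ¬ (x.1 = 1 ∧ x.2.2.2 % 3 = 0)) : ∃ y ∈ verts W L, y.1 = 1 ∧ y.2.2.2 % 3 = 0 ∧
      (Cons (verts W L) (keyX W s) x y ∨ Cons (verts W L) (keyX W s) y x) := by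
  have hx' := mem_verts.1 hx
  obtain ⟨a1, m, a2, a3⟩ := keyX_spec hs hx'
  have b := keyX_bd hs hx'
  unfold Valid at hx'
  by_cases hc : (keyX W s x).2.2 = 2 ∨ (keyX W s x).2.2 = 5
  · obtain ⟨z, hz, e⟩ := keyX_surj hs (keyX W s x).1 (keyX W s x).2.1 ((keyX W s x).2.2 - 1)
      b.1 b.2.1 (by omega) (by omega)
    have hz' := mem_verts.1 hz
    obtain ⟨-, m', -, b3⟩ := keyX_spec hs hz'
    rw [e] at b3
    unfold Valid at hz'
    dsimp only at b3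
    refine ⟨z, hz, by omega, by omega, Or.inr (cons_succ hz hx ?_)⟩
    rw [e]
    refine k3_ext ?_
    dsimp only
    omega
  · obtain ⟨z, hz, e⟩ := keyX_surj hs (keyX W s x).1 (keyX W s x).2.1 ((keyX W s x).2.2 + 1)
      b.1 b.2.1 (by omega) (by omega)
    have hz' := mem_verts.1 hz
    obtain ⟨-, m', -, b3⟩ := keyX_spec hs hz'
    rw [e] at b3
    unfold Valid at hz'
    dsimp only at b3
    exact ⟨z, hz, by omega, by omega, Or.inl (cons_succ hx hz e)⟩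

end Pool.Agent.H9D
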