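import Pool.Agent.Lib.helper9.GDomB

namespace Pool.Agent.H9D

open Pool.Agent.Cx

def ct (O : Occ) (s : ℕ) : Bool := decide (s + 1 < O.length) && cl O (s + 1) == cl O s
def cp (O : Occ) (s : ℕ) : Bool := decide (1 ≤ s) && ct O (s - 1)
def lp (O : Occ) (s : ℕ) : ℕ := 3 * s + 5 - sg O s

def own (O : Occ) (V w p : ℕ) : K3 :=
  bif p == 1 then (w, 3, 7) else bif p == 3 * O.length + 5 then (w, 3, 9)
  else bif decide (V ≤ w) && p == 5 && ct O (w - V) then (vr O (w - V + 1), lp O (w - V + 1), 7)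
  else bif decide (V ≤ w) && p == 6 && !cp O (w - V) then (vr O (w - V), lp O (w - V), 7)
  else bif decide (V ≤ w) && p == 4 && ct O (w - V) then (vr O (w - V), lp O (w - V), 9)
  else bif decide (V ≤ w) && p == 0 && !ct O (w - V) then (vr O (w - V), lp O (w - V), 9)
  else (w, p, 8)

def lf (O : Occ) (V s : ℕ) : V4 := bif cp O s then (0, V + s - 1, 5, 0) else (0, V + s, 6, 0)
def rt (O : Occ) (V s : ℕ) : V4 := bif ct O s then (0, V + s, 4, 0) else (0, V + s, 0, 0)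
def lit (O : Occ) (s : ℕ) : V4 := (0, vr O s, lp O s, 0)

lemma lp_bd (O : Occ) (s : ℕ) : 3 * s + 4 ≤ lp O s ∧ lp O s ≤ 3 * s + 5 := by
  have := sg_le O s
  unfold lp; omega

lemma lf_spec (O : Occ) (V s : ℕ) : (cp O s = true ∧ 1 ≤ s ∧ Is (lf O V s) 0 (V + s - 1) 5 0) ∨
    (cp O s = false ∧ Is (lf O V s) 0 (V + s) 6 0) := by
  unfold lf Is
  cases h : cp O s
  · simp
  · have : 1 ≤ s := by simp [cp] at h; exact h.1
    simp [this]

lemma rt_spec (O : Occ) (V s : ℕ) : (ct O s = true ∧ Is (rt O V s) 0 (V + s) 4 0) ∨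
    (ct O s = false ∧ Is (rt O V s) 0 (V + s) 0 0) := by
  unfold rt Is
  cases h : ct O s <;> simp

lemma own_spec (O : Occ) (V w p : ℕ) (hw : w < V + O.length) :
    (p = 1 ∧ own O V w p = (w, 3, 7)) ∨ (p = 3 * O.length + 5 ∧ own O V w p = (w, 3, 9)) ∨
    (∃ s < O.length, (0, w, p, 0) = lf O V s ∧ own O V w p = (vr O s, lp O s, 7)) ∨
    (∃ s < O.length, (0, w, p, 0) = rt O V s ∧ own O V w p = (vr O s, lp O s, 9)) ∨
    (p ≠ 1 ∧ p ≠ 3 * O.length + 5 ∧ own O V w p = (w, p, 8)) := by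
  unfold own
  simp only [Bool.cond_eq_ite, beq_iff_eq, Bool.and_eq_true, decide_eq_true_eq, Bool.not_eq_true']
  split_ifs with h1 h2 h3 h4 h5 h6
  · exact Or.inl ⟨h1, rfl⟩
  · exact Or.inr (Or.inl ⟨h2, rfl⟩)
  · obtain ⟨⟨a, rfl⟩, c⟩ := h3
    refine Or.inr (Or.inr (Or.inl ⟨w - V + 1, ?_, ?_, rfl⟩))
    · simp [ct] at c; exact c.1
    · have : cp O (w - V + 1) = true := by simp [cp, c]
      rw [lf, this, cond_true, show V + (w - V + 1) - 1 = w by omega]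
  · obtain ⟨⟨a, rfl⟩, c⟩ := h4
    refine Or.inr (Or.inr (Or.inl ⟨w - V, by omega, ?_, rfl⟩))
    rw [lf, c, cond_false, show V + (w - V) = w by omega]
  · obtain ⟨⟨a, rfl⟩, c⟩ := h5
    refine Or.inr (Or.inr (Or.inr (Or.inl ⟨w - V, by omega, ?_, rfl⟩)))
    rw [rt, c, cond_true, show V + (w - V) = w by omega]
  · obtain ⟨⟨a, rfl⟩, c⟩ := h6
    refine Or.inr (Or.inr (Or.inr (Or.inl ⟨w - V, by omega, ?_, rfl⟩)))
    rw [rt, c, cond_false, show V + (w - V) = w by omega]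
  · exact Or.inr (Or.inr (Or.inr (Or.inr ⟨h1, h2, rfl⟩)))

def key1 (O : Occ) (V : ℕ) (x : V4) : K3 :=
  if x.1 = 0 then own O V x.2.1 x.2.2.1
  else if x.2.2.1 = 3 * O.length + 7 then (2 * (V + O.length) + 1 - x.2.1, 0, rho x.2.2.2)
  else (x.2.1, x.2.2.1, rho x.2.2.2)

lemma key1_lf {O : Occ} {V s : ℕ} (hs : s < O.length) : key1 O V (lf O V s) = (vr O s, lp O s, 7) := by
  unfold lf
  cases h : cp O s
  · simp [key1, own, h, Bool.cond_eq_ite]
  · have h' := h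
    simp only [cp, Bool.and_eq_true, decide_eq_true_eq] at h'
    have e : V + s - 1 - V = s - 1 := by omega
    have e' : s - 1 + 1 = s := by omega
    have : O.length ≠ 0 := by omega
    have : V ≤ V + s - 1 := by omega
    simp [key1, own, Bool.cond_eq_ite, -List.length_eq_zero_iff, *]

lemma key1_rt {O : Occ} {V s : ℕ} : key1 O V (rt O V s) = (vr O s, lp O s, 9) := by
  unfold rt
  have : 4 ≠ 3 * O.length + 5 := by omega
  cases h : ct O s <;> simp [key1, own, *]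

lemma key1_lit {O : Occ} {V s : ℕ} (hs : s < O.length) (hv : vr O s < V) :
    key1 O V (lit O s) = (vr O s, lp O s, 8) := by
  have := lp_bd O s
  have h1 : lp O s ≠ 1 := by omega
  have h2 : lp O s ≠ 3 * O.length + 5 := by omega
  have h3 : ¬ V ≤ vr O s := by omega
  simp [key1, own, lit, h1, h2, h3, Bool.cond_eq_ite]

lemma key1_c {O : Occ} {V w : ℕ} : key1 O V (0, w, 3, 0) = (w, 3, 8) := by
  simp [key1, own]

lemma key1_a {O : Occ} {V w : ℕ} : key1 O V (0, w, 1, 0) = (w, 3, 7) := by simp [key1, own]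

lemma key1_b {O : Occ} {V w : ℕ} : key1 O V (0, w, 3 * O.length + 5, 0) = (w, 3, 9) := by
  simp [key1, own]

abbrev EE (O : Occ) (V : ℕ) : List V4 := verts (V + O.length) (3 * O.length + 7)

def K1 (O : Occ) (V : ℕ) (x : V4) (k : K3) : Prop :=
  (x.1 = 1 ∧ x.2.2.1 = 3 * O.length + 7 ∧ k.1 = 2 * (V + O.length) + 1 - x.2.1 ∧ k.2.1 = 0 ∧
    k.2.2 = rho x.2.2.2) ∨
  (x.1 = 1 ∧ x.2.2.1 < 3 * O.length + 7 ∧ k.1 = x.2.1 ∧ k.2.1 = x.2.2.1 ∧ k.2.2 = rho x.2.2.2) ∨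
  (x.1 = 0 ∧ x.2.2.1 = 1 ∧ k.1 = x.2.1 ∧ k.2.1 = 3 ∧ k.2.2 = 7) ∨
  (x.1 = 0 ∧ x.2.2.1 = 3 * O.length + 5 ∧ k.1 = x.2.1 ∧ k.2.1 = 3 ∧ k.2.2 = 9) ∨
  (x.1 = 0 ∧ x.2.2.1 ≠ 1 ∧ x.2.2.1 ≠ 3 * O.length + 5 ∧ k.1 = x.2.1 ∧ k.2.1 = x.2.2.1 ∧
    k.2.2 = 8) ∨
  (∃ s < O.length, x = lf O V s ∧ k.1 = vr O s ∧ k.2.1 = lp O s ∧ k.2.2 = 7) ∨
  (∃ s < O.length, x = rt O V s ∧ k.1 = vr O s ∧ k.2.1 = lp O s ∧ k.2.2 = 9)

lemma key1_spec {O : Occ} {V : ℕ} {x : V4} (hx : x ∈ EE O V) : K1 O V x (key1 O V x) := by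
  obtain ⟨t, w, p, r⟩ := x
  rw [mem_verts, Valid] at hx
  dsimp only at hx
  unfold K1
  rcases hx with ⟨rfl, h1, h2, rfl⟩ | ⟨rfl, h1, h2, h3⟩
  · have e : key1 O V (0, w, p, 0) = own O V w p := by simp [key1]
    rw [e]
    rcases own_spec O V w p h1 with h | h | ⟨s, hs, h⟩ | ⟨s, hs, h⟩ | h
    · right; right; left; rw [h.2]; simp [h.1]
    · right; right; right; left; rw [h.2]; simp [h.1]
    · right; right; right; right; right; left; exact ⟨s, hs, h.1, by simp [h.2]⟩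
    · right; right; right; right; right; right; exact ⟨s, hs, h.1, by simp [h.2]⟩
    · right; right; right; right; left; simp [h]
  · by_cases h : p = 3 * O.length + 7
    · left; simp [key1, h]
    · right; left; simp [key1, h]; omega

/-- arithmetic shadow of `K1` -/
def K2 (n V : ℕ) (x : V4) (k : K3) : Prop :=
  (x.1 = 1 ∧ x.2.2.1 = 3 * n + 7 ∧ k.1 = 2 * (V + n) + 1 - x.2.1 ∧ k.2.1 = 0 ∧
    k.2.2 = rho x.2.2.2) ∨
  (x.1 = 1 ∧ x.2.2.1 < 3 * n + 7 ∧ k.1 = x.2.1 ∧ k.2.1 = x.2.2.1 ∧ k.2.2 = rho x.2.2.2) ∨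
  (x.1 = 0 ∧ x.2.2.1 = 1 ∧ k.1 = x.2.1 ∧ k.2.1 = 3 ∧ k.2.2 = 7) ∨
  (x.1 = 0 ∧ x.2.2.1 = 3 * n + 5 ∧ k.1 = x.2.1 ∧ k.2.1 = 3 ∧ k.2.2 = 9) ∨
  (x.1 = 0 ∧ x.2.2.1 ≠ 1 ∧ x.2.2.1 ≠ 3 * n + 5 ∧ k.1 = x.2.1 ∧ k.2.1 = x.2.2.1 ∧ k.2.2 = 8) ∨
  (∃ s < n, x.1 = 0 ∧ k.1 < V ∧ 3 * s + 4 ≤ k.2.1 ∧ k.2.1 ≤ 3 * s + 5 ∧
    ((k.2.2 = 7 ∧ ((1 ≤ s ∧ x.2.1 = V + s - 1 ∧ x.2.2.1 = 5) ∨ (x.2.1 = V + s ∧ x.2.2.1 = 6))) ∨
      (k.2.2 = 9 ∧ x.2.1 = V + s ∧ (x.2.2.1 = 4 ∨ x.2.2.1 = 0))))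

section
variable {O : Occ} {V : ℕ} (hv : ∀ s < O.length, vr O s < V)
include hv

lemma key1_spec2 {x : V4} (hx : x ∈ EE O V) : K2 O.length V x (key1 O V x) := by
  rcases key1_spec hx with h | h | h | h | h | ⟨s, hs, rfl, h⟩ | ⟨s, hs, rfl, h⟩
  · exact Or.inl h
  · exact Or.inr (Or.inl h)
  · exact Or.inr (Or.inr (Or.inl h))
  · exact Or.inr (Or.inr (Or.inr (Or.inl h)))
  · exact Or.inr (Or.inr (Or.inr (Or.inr (Or.inl h))))
  · have a := lf_spec O V s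
    have b := lp_bd O s
    have c := hv s hs
    refine Or.inr (Or.inr (Or.inr (Or.inr (Or.inr ⟨s, hs, ?_⟩))))
    unfold Is at a
    omega
  · have a := rt_spec O V s
    have b := lp_bd O s
    have c := hv s hs
    refine Or.inr (Or.inr (Or.inr (Or.inr (Or.inr ⟨s, hs, ?_⟩))))
    unfold Is at a
    omega

lemma key1_cls {x : V4} (hx : x ∈ EE O V) :
    (x.1 = 1 ∧ x.2.2.1 = 3 * O.length + 7 ∧ (key1 O V x).1 = 2 * (V + O.length) + 1 - x.2.1 ∧
      (key1 O V x).2.1 = 0 ∧ (key1 O V x).2.2 = rho x.2.2.2 ∧ (key1 O V x).2.2 < 7 ∧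
      x.2.1 ≤ V + O.length) ∨
    (x.1 = 1 ∧ x.2.2.1 < 3 * O.length + 7 ∧ (key1 O V x).1 = x.2.1 ∧ (key1 O V x).2.1 = x.2.2.1 ∧
      (key1 O V x).2.2 = rho x.2.2.2 ∧ (key1 O V x).2.2 < 7 ∧ x.2.1 ≤ V + O.length) ∨
    (x.1 = 0 ∧ (key1 O V x).1 < V + O.length ∧ (key1 O V x).2.1 < 3 * O.length + 7 ∧
      7 ≤ (key1 O V x).2.2 ∧ (key1 O V x).2.2 ≤ 9) := by
  have a := key1_spec2 hv hx
  have b := rho_spec x.2.2.2
  rw [mem_verts, Valid] at hx
  rcases a with h | h | h | h | h | ⟨s, hs, h⟩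
  · left; omega
  · right; left; omega
  all_goals right; right; omega

lemma key1_inj : ∀ x ∈ EE O V, ∀ y ∈ EE O V, key1 O V x = key1 O V y → x = y := by
  intro x hx y hy h
  have a := key1_cls hv hx
  have b := key1_cls hv hy
  have ra := rho_spec x.2.2.2
  have rb := rho_spec y.2.2.2
  have vx := mem_verts.1 hx
  have vy := mem_verts.1 hy
  rw [h] at a
  unfold Valid at vx vy
  rcases a with a | a | a <;> rcases b with b | b | b <;> (try (exfalso; omega))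
  · exact v4_ext (by omega)
  · exact v4_ext (by omega)
  clear ra rb
  have c := key1_spec hx
  have d := key1_spec hy
  rw [h] at c
  rcases c with c | c | c | c | c | ⟨s, hs, rfl, c⟩ | ⟨s, hs, rfl, c⟩ <;> (try (exfalso; omega)) <;>
    rcases d with d | d | d | d | d | ⟨s', hs', rfl, d⟩ | ⟨s', hs', rfl, d⟩ <;>
    (try (exfalso; omega)) <;> (try (exact v4_ext (by omega)))
  all_goals
    first
    | (have e := lp_bd O s; have e' := lp_bd O s'; obtain rfl : s = s' := by omega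
       rfl)
    | (have e := lp_bd O s; exfalso; omega)
    | (have e := lp_bd O s'; exfalso; omega)

omit hv in
lemma key1_sep (a b c : ℕ) (hc : c < 7) (h : (a ≤ V + O.length ∧ b < 3 * O.length + 7) ∨
    (V + O.length < a ∧ a ≤ 2 * (V + O.length) + 1 ∧ b = 0)) :
    ∃ z ∈ EE O V, key1 O V z = (a, b, c) ∧ z.1 = 1 ∧ rho z.2.2.2 = c := by
  obtain ⟨r, hr, e⟩ : ∃ r < 7, rho r = c := by revert c; decide
  rcases h with h | h
  · refine ⟨(1, a, b, r), mem_verts.2 (Or.inr (by dsimp only; omega)), ?_, rfl, e⟩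
    simp [key1, h.2.ne, e]
  · refine ⟨(1, 2 * (V + O.length) + 1 - a, 3 * O.length + 7, r),
      mem_verts.2 (Or.inr (by dsimp only; omega)), ?_, rfl, e⟩
    simp [key1, e]; omega

def KS (W L : ℕ) (a b : K3) : Prop :=
  (b.1 = a.1 ∧ b.2.1 = a.2.1 ∧ a.2.2 < b.2.2 ∧ (b.2.2 = a.2.2 + 1 ∨ 6 ≤ a.2.2)) ∨
  (6 ≤ a.2.2 ∧ b.2.2 = 0 ∧ ((a.1 ≤ W ∧ b.1 = a.1 ∧ b.2.1 = a.2.1 + 1) ∨
    ((a.2.1 + 1 = L ∨ W < a.1) ∧ b.1 = a.1 + 1 ∧ b.2.1 = 0)))

lemma cons1 {x y : V4} (h : Cons (EE O V) (key1 O V) x y) :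
    KS (V + O.length) (3 * O.length + 7) (key1 O V x) (key1 O V y) := by
  have bd : ∀ x ∈ EE O V, ((key1 O V x).1 ≤ V + O.length ∧ (key1 O V x).2.1 < 3 * O.length + 7) ∨
      (V + O.length < (key1 O V x).1 ∧ (key1 O V x).1 ≤ 2 * (V + O.length) + 1 ∧
        (key1 O V x).2.1 = 0) := fun x hx => by
    have := key1_cls hv hx
    omega
  have a := bd x h.1
  have b := bd y h.2.1
  have c := h.2.2.1
  have w : ∀ a b c, c < 7 → ((a ≤ V + O.length ∧ b < 3 * O.length + 7) ∨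
      (V + O.length < a ∧ a ≤ 2 * (V + O.length) + 1 ∧ b = 0)) →
      ¬ (Lt3 (key1 O V x) (a, b, c) ∧ Lt3 (a, b, c) (key1 O V y)) := by
    intro a b c h1 h2
    obtain ⟨z, hz, e, -⟩ := key1_sep a b c h1 h2
    exact e ▸ h.2.2.2 z hz
  generalize key1 O V x = kx at *
  generalize key1 O V y = ky at *
  obtain ⟨x1, x2, x3⟩ := kx
  obtain ⟨y1, y2, y3⟩ := ky
  unfold Lt3 KS at *
  dsimp only at *
  by_cases h1 : y1 = x1 ∧ y2 = x2
  · left
    refine ⟨h1.1, h1.2, by omega, ?_⟩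
    by_contra h2
    exact w x1 x2 (x3 + 1) (by omega) (by omega) ⟨by omega, by omega⟩
  · right
    have h7 : 6 ≤ x3 := by
      by_contra h2
      exact w x1 x2 6 (by omega) (by omega) ⟨by omega, by omega⟩
    have h0 : y3 = 0 := by
      by_contra h2
      exact w y1 y2 0 (by omega) (by omega) ⟨by omega, by omega⟩
    refine ⟨h7, h0, ?_⟩
    by_contra h2
    by_cases h3 : x2 + 1 = 3 * O.length + 7 ∨ V + O.length < x1
    · exact w (x1 + 1) 0 0 (by omega) (by omega) ⟨by omega, by omega⟩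
    · exact w x1 (x2 + 1) 0 (by omega) (by omega) ⟨by omega, by omega⟩

lemma cons1_inner {x y : V4} (h : Cons (EE O V) (key1 O V) x y) (hi : Inner x ∨ Inner y) :
    Same x y := by
  have c := cons1 hv h
  have a := key1_cls hv h.1
  have b := key1_cls hv h.2.1
  have ra := rho_spec x.2.2.2
  have rb := rho_spec y.2.2.2
  unfold KS Inner Same at *
  rcases a with a | a | a <;> rcases b with b | b | b <;> rcases c with c | c <;> omega

lemma disj01 {x y : V4} (h : Cons (EE O V) (key0 (V + O.length) (3 * O.length + 7)) x y)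
    (h' : Cons (EE O V) (key1 O V) x y ∨ Cons (EE O V) (key1 O V) y x) : False := by
  have c := cons0_iff (by omega) h
  have k : KS (V + O.length) (3 * O.length + 7) (key1 O V x) (key1 O V y) ∨
      KS (V + O.length) (3 * O.length + 7) (key1 O V y) (key1 O V x) := h'.imp (cons1 hv) (cons1 hv)
  have a := key1_cls hv h.1
  have b := key1_cls hv h.2.1
  have ra := rho_spec x.2.2.2
  have rb := rho_spec y.2.2.2
  unfold KS S0 Is at *
  rcases c with c | c | c | c | c | c | c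
  · rcases a with a | a | a <;> rcases b with b | b | b <;> omega
  · rcases a with a | a | a <;> rcases b with b | b | b <;> omega
  · have a' := key1_spec2 hv h.1
    have b' := key1_spec2 hv h.2.1
    have e : (key1 O V x).1 = (key1 O V y).1 ∧ (key1 O V x).2.1 = (key1 O V y).2.1 := by omega
    clear k a b ra rb
    rcases a' with a | a | a | a | a | ⟨s, hs, a⟩ <;> rcases b' with b | b | b | b | b | ⟨s', hs', b⟩ <;>
      omega
  · rcases a with a | a | a <;> rcases b with b | b | b <;> omega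
  · rcases a with a | a | a <;> rcases b with b | b | b <;> omega
  · rcases a with a | a | a <;> rcases b with b | b | b <;> omega
  · rcases a with a | a | a <;> rcases b with b | b | b <;> omega

end

end Pool.Agent.H9D
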