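import Pool.Agent.Lib.helper9.GDomC

namespace Pool.Agent.H9D

open Pool.Agent.Cx

def key (O : Occ) (V i : ℕ) (x : V4) : K3 :=
  if i = 0 then key0 (V + O.length) (3 * O.length + 7) x
  else if i = 1 then key1 O V x else keyX (V + O.length) (i - 1) x

def mark (x : V4) : Bool := (x.1 == 1 && x.2.2.2 % 3 == 0) || (x.1 == 0 && x.2.2.1 % 3 == 1)

def build (k : ℕ) (O : Occ) (V : ℕ) : List (List ℕ) × ℕ :=
  inst k (2 * (V + O.length) + 3 * O.length + 20) (EE O V) (key O V) ((EE O V).filter mark).length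

def pre (φ : CNF) : CNF := bif φ.any List.isEmpty then [[(0, true)], [(0, false)]] else φ

def red (k : ℕ) (φ : CNF) : List (List ℕ) × ℕ := build k (occ (pre φ)) (size (pre φ) + 2 * k)

lemma pt_own : PT (fun z : (Occ × ℕ) × ℕ × ℕ => own z.1.1 z.1.2 z.2.1 z.2.2) := by
  unfold own cp ct lp; fun_prop

lemma pt_rho : PT rho := by unfold rho; fun_prop

lemma pt_key0 : PT (fun z : (ℕ × ℕ) × V4 => key0 z.1.1 z.1.2 z.2) := by unfold key0; fun_prop

lemma pt_key1 : PT (fun z : (Occ × ℕ) × V4 => key1 z.1.1 z.1.2 z.2) := by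
  have h1 : PT (fun z : (Occ × ℕ) × V4 => own z.1.1 z.1.2 z.2.2.1 z.2.2.2.1) :=
    pt_own.comp (f := fun z : (Occ × ℕ) × V4 => (z.1, z.2.2.1, z.2.2.2.1)) (by fun_prop)
  have h2 : PT (fun z : (Occ × ℕ) × V4 => rho z.2.2.2.2) := pt_rho.comp (by fun_prop)
  unfold key1; fun_prop

lemma pt_keyX : PT (fun z : (ℕ × ℕ) × V4 => keyX z.1.1 z.1.2 z.2) := by
  have h1 : PT (fun z : (ℕ × ℕ) × V4 => sh z.1.2 z.2) := by unfold sh; fun_prop
  have h2 : PT (fun z : (ℕ × ℕ) × V4 => cc z.2) := by unfold cc; fun_prop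
  unfold keyX; fun_prop

@[fun_prop] lemma pt_key {α : Type} [Enc α] {O : α → Occ} {V i : α → ℕ} {x : α → V4} (hO : PT O)
    (hV : PT V) (hi : PT i) (hx : PT x) : PT (fun a => key (O a) (V a) (i a) (x a)) := by
  have h0 : PT (fun a => key0 (V a + (O a).length) (3 * (O a).length + 7) (x a)) :=
    pt_key0.comp (f := fun a => ((V a + (O a).length, 3 * (O a).length + 7), x a)) (by fun_prop)
  have h1 : PT (fun a => key1 (O a) (V a) (x a)) :=
    pt_key1.comp (f := fun a => ((O a, V a), x a)) (by fun_prop)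
  have h2 : PT (fun a => keyX (V a + (O a).length) (i a - 1) (x a)) :=
    pt_keyX.comp (f := fun a => ((V a + (O a).length, i a - 1), x a)) (by fun_prop)
  unfold key; fun_prop

lemma pt_build (k : ℕ) : PT (fun z : Occ × ℕ => build k z.1 z.2) := by
  unfold build inst ord keys EE verts mark code; fun_prop

lemma red_pt (k : ℕ) : PT (red k) := by
  have h : PT pre := by unfold pre; fun_prop
  exact (pt_build k).comp (f := fun φ => (occ (pre φ), size (pre φ) + 2 * k)) (by fun_prop)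

def Dom (k : ℕ) (O : Occ) (V : ℕ) (D : Finset V4) : Prop :=
  ∀ i < k, ∀ x ∈ EE O V, x ∉ D →
    ∃ y ∈ D, Cons (EE O V) (key O V i) x y ∨ Cons (EE O V) (key O V i) y x

lemma key_0 (O : Occ) (V : ℕ) : key O V 0 = key0 (V + O.length) (3 * O.length + 7) := by
  funext x; simp [key]

lemma key_1 (O : Occ) (V : ℕ) : key O V 1 = key1 O V := by funext x; simp [key]

lemma key_2 (O : Occ) (V : ℕ) {i : ℕ} (hi : 2 ≤ i) : key O V i = keyX (V + O.length) (i - 1) := by
  funext x; rw [key, if_neg (by omega), if_neg (by omega)]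

lemma tri (i : ℕ) : i = 0 ∨ i = 1 ∨ 2 ≤ i := by omega

section
variable {k : ℕ} {O : Occ} {V : ℕ} (hv : ∀ s < O.length, vr O s < V)
include hv

lemma gd_build (hk : 0 < k) (hV : 2 * k ≤ V) : GD k (build k O V) ↔
    ∃ D : Finset V4, D.card ≤ ((EE O V).filter mark).length ∧ (∀ x ∈ D, x ∈ EE O V) ∧
      Dom k O V D := by
  refine gd_inst hk _ (nodup_verts _ _) (fun i hi x hx => ?_) (fun i hi => ?_)
    (fun i hi j hj hij x y h => ?_)
  · rcases tri i with rfl | rfl | h
    · have := key0_spec (V + O.length) (3 * O.length + 7) x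
      rw [mem_verts, Valid] at hx
      rw [key_0]; omega
    · have := key1_cls hv hx
      rw [key_1]; omega
    · have := keyX_bd (s := i - 1) (by omega) (mem_verts.1 hx)
      rw [key_2 _ _ h]; omega
  · rcases tri i with rfl | rfl | h
    · rw [key_0]; exact key0_inj
    · rw [key_1]; exact key1_inj hv
    · rw [key_2 _ _ h]; exact keyX_inj (by omega)
  · have sy : ∀ {x y : V4}, Same x y → Same y x := fun h => ⟨h.1.symm, h.2.1.symm, h.2.2.symm⟩
    rcases tri i with rfl | rfl | h1 <;> rcases tri j with rfl | rfl | h2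
    · exact absurd rfl hij
    · rw [key_0] at h; rw [key_1]
      exact ⟨fun h' => disj01 hv h (Or.inl h'), fun h' => disj01 hv h (Or.inr h')⟩
    · rw [key_0] at h; rw [key_2 _ _ h2]
      constructor <;> intro h' <;> obtain ⟨a, b⟩ := consX_inner (by omega) (by omega) h'
      · exact b (cons0_inner (by omega) h a)
      · exact b (sy (cons0_inner (by omega) h a.symm))
    · rw [key_1] at h; rw [key_0]
      exact ⟨fun h' => disj01 hv h' (Or.inl h), fun h' => disj01 hv h' (Or.inr h)⟩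
    · exact absurd rfl hij
    · rw [key_1] at h; rw [key_2 _ _ h2]
      constructor <;> intro h' <;> obtain ⟨a, b⟩ := consX_inner (by omega) (by omega) h'
      · exact b (cons1_inner hv h a)
      · exact b (sy (cons1_inner hv h a.symm))
    · rw [key_2 _ _ h1] at h; rw [key_0]
      obtain ⟨a, b⟩ := consX_inner (by omega) (by omega) h
      exact ⟨fun h' => b (cons0_inner (by omega) h' a),
        fun h' => b (sy (cons0_inner (by omega) h' a.symm))⟩
    · rw [key_2 _ _ h1] at h; rw [key_1]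
      obtain ⟨a, b⟩ := consX_inner (by omega) (by omega) h
      exact ⟨fun h' => b (cons1_inner hv h' a), fun h' => b (sy (cons1_inner hv h' a.symm))⟩
    · rw [key_2 _ _ h1] at h; rw [key_2 _ _ h2]
      exact consX_disj (by omega) (by omega) (by omega) h

omit hv in
lemma sep1 {w p r r' : ℕ} (hw : w ≤ V + O.length) (hp : p ≤ 3 * O.length + 7) (hr : r < 7)
    (hr' : r' < 7) (h : rho r' = rho r + 1) :
    Cons (EE O V) (key1 O V) (1, w, p, r) (1, w, p, r') := by
  refine cons_succ (mem_verts.2 (Or.inr ⟨rfl, hw, hp, hr⟩)) (mem_verts.2 (Or.inr ⟨rfl, hw, hp, hr'⟩)) ?_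
  unfold key1
  dsimp only
  split_ifs <;> simp_all

omit hv in
lemma pay {w p : ℕ} (hw : w < V + O.length) (hp : p < 3 * O.length + 7) :
    ((0, w, p, 0) : V4) ∈ EE O V := mem_verts.2 (Or.inl ⟨rfl, hw, hp, rfl⟩)

lemma lit_mem {s : ℕ} (hs : s < O.length) : lit O s ∈ EE O V := by
  have := lp_bd O s
  have := hv s hs
  exact pay (by omega) (by omega)

omit hv in
lemma lf_mem {s : ℕ} (hs : s < O.length) : lf O V s ∈ EE O V := by
  have := lf_spec O V s
  rw [mem_verts]; unfold Valid Is at *; omega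

omit hv in
lemma rt_mem {s : ℕ} (hs : s < O.length) : rt O V s ∈ EE O V := by
  have := rt_spec O V s
  rw [mem_verts]; unfold Valid Is at *; omega

lemma c_lf {s : ℕ} (hs : s < O.length) : Cons (EE O V) (key1 O V) (lf O V s) (lit O s) :=
  cons_succ (lf_mem hs) (lit_mem hv hs) (by rw [key1_lf hs, key1_lit hs (hv s hs)])

lemma c_rt {s : ℕ} (hs : s < O.length) : Cons (EE O V) (key1 O V) (lit O s) (rt O V s) :=
  cons_succ (lit_mem hv hs) (rt_mem hs) (by rw [key1_rt, key1_lit hs (hv s hs)])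

omit hv in
lemma c_a {w : ℕ} (hw : w < V + O.length) : Cons (EE O V) (key1 O V) (0, w, 1, 0) (0, w, 3, 0) :=
  cons_succ (pay hw (by omega)) (pay hw (by omega)) (by rw [key1_a, key1_c])

omit hv in
lemma c_b {w : ℕ} (hw : w < V + O.length) :
    Cons (EE O V) (key1 O V) (0, w, 3, 0) (0, w, 3 * O.length + 5, 0) :=
  cons_succ (pay hw (by omega)) (pay hw (by omega)) (by rw [key1_b, key1_c])

lemma forward (hV : 2 * k ≤ V) (val : ℕ → ℕ) (h1 : ∀ w, val w ≤ 1)
    (h2 : ∀ s < O.length, sg O s = val (vr O s) ∨ (ct O s = true ∧ val (V + s) = 1) ∨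
      (cp O s = true ∧ val (V + s - 1) = 0)) :
    ∃ D : Finset V4, D.card ≤ ((EE O V).filter mark).length ∧ (∀ x ∈ D, x ∈ EE O V) ∧
      Dom k O V D := by
  let D : Finset V4 := (EE O V).toFinset.filter fun x =>
    (x.1 = 1 ∧ x.2.2.2 % 3 = 0) ∨ (x.1 = 0 ∧ x.2.2.1 % 3 + val x.2.1 = 2)
  have hD : ∀ x, x ∈ D ↔ Valid (V + O.length) (3 * O.length + 7) x ∧
      ((x.1 = 1 ∧ x.2.2.2 % 3 = 0) ∨ (x.1 = 0 ∧ x.2.2.1 % 3 + val x.2.1 = 2)) := fun x => by
    simp only [D, Finset.mem_filter, List.mem_toFinset, mem_verts]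
  refine ⟨D, ?_, fun x hx => mem_verts.2 ((hD x).1 hx).1, fun i hi x hx hx' => ?_⟩
  · rw [← List.toFinset_card_of_nodup ((nodup_verts _ _).filter _)]
    refine Finset.card_le_card_of_injOn
      (fun x => if x.1 = 0 then (0, x.2.1, 3 * (x.2.2.1 / 3) + 1, 0) else x) ?_ ?_
    · intro x hx
      have a := (hD x).1 hx
      have := h1 x.2.1
      simp only [List.coe_toFinset, Set.mem_ofPred_eq, List.mem_filter, mem_verts, mark,
        Bool.or_eq_true, Bool.and_eq_true, beq_iff_eq]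
      unfold Valid at *
      split_ifs <;> (try dsimp only) <;> omega
    · intro x hx y hy e
      have a := (hD x).1 hx
      have b := (hD y).1 hy
      unfold Valid at a b
      dsimp only at e
      split_ifs at e with c d d
      · simp only [Prod.mk.injEq, true_and, and_true] at e
        have := e.1
        rw [this] at a
        exact v4_ext (by omega)
      · exact absurd (congrArg Prod.fst e).symm d
      · exact absurd (congrArg Prod.fst e) c
      · exact e
  have vx := mem_verts.1 hx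
  have nx : ¬ ((x.1 = 1 ∧ x.2.2.2 % 3 = 0) ∨ (x.1 = 0 ∧ x.2.2.1 % 3 + val x.2.1 = 2)) :=
    fun h => hx' ((hD x).2 ⟨vx, h⟩)
  rcases tri i with rfl | rfl | h
  · rw [key_0]
    obtain ⟨t, w, p, r⟩ := x
    have := h1 w
    have fw : ∀ y, S0 (V + O.length) (3 * O.length + 7) (t, w, p, r) y →
        ((y.1 = 1 ∧ y.2.2.2 % 3 = 0) ∨ (y.1 = 0 ∧ y.2.2.1 % 3 + val y.2.1 = 2)) → ∃ y ∈ D,
        Cons (EE O V) (key0 (V + O.length) (3 * O.length + 7)) (t, w, p, r) y ∨
        Cons (EE O V) (key0 (V + O.length) (3 * O.length + 7)) y (t, w, p, r) := fun y a b =>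
      have c := cons0_of (by omega) vx a
      ⟨y, (hD y).2 ⟨mem_verts.1 c.2.1, b⟩, Or.inl c⟩
    have bw : ∀ y, Valid (V + O.length) (3 * O.length + 7) y →
        S0 (V + O.length) (3 * O.length + 7) y (t, w, p, r) →
        ((y.1 = 1 ∧ y.2.2.2 % 3 = 0) ∨ (y.1 = 0 ∧ y.2.2.1 % 3 + val y.2.1 = 2)) → ∃ y ∈ D,
        Cons (EE O V) (key0 (V + O.length) (3 * O.length + 7)) (t, w, p, r) y ∨
        Cons (EE O V) (key0 (V + O.length) (3 * O.length + 7)) y (t, w, p, r) := fun y v a b =>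
      ⟨y, (hD y).2 ⟨v, b⟩, Or.inr (cons0_of (by omega) v a)⟩
    unfold Valid at vx
    dsimp only at vx nx
    rcases vx with ⟨rfl, a, b, rfl⟩ | ⟨rfl, a, b, c⟩
    · by_cases e : p + 1 = 3 * O.length + 7
      · exact fw (1, w + 1, 3 * O.length + 7, 0) (by simp [S0, Is, e]) (by simp)
      by_cases e' : (p + 1) % 3 + val w = 2
      · exact fw (0, w, p + 1, 0) (Or.inr (Or.inr (Or.inl ⟨rfl, by dsimp only; omega, rfl, rfl, rfl,
          rfl⟩))) (Or.inr ⟨rfl, e'⟩)
      by_cases e0 : p = 0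
      · exact bw (1, w, 3 * O.length + 7, 6) (Or.inr ⟨rfl, a.le, le_rfl, by simp⟩)
          (Or.inr (Or.inl ⟨rfl, rfl, rfl, a, rfl, rfl, e0, rfl⟩)) (by simp)
      · exact bw (0, w, p - 1, 0) (Or.inl ⟨rfl, a, by dsimp only; omega, rfl⟩)
          (Or.inr (Or.inr (Or.inl ⟨rfl, by dsimp only; omega, rfl, rfl, by dsimp only; omega, rfl⟩)))
          (Or.inr ⟨rfl, by dsimp only; omega⟩)
    · by_cases e : r % 3 = 2
      · exact fw (1, w, p, r + 1) (Or.inl ⟨rfl, by dsimp only; omega, rfl, rfl, rfl, rfl⟩)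
          (Or.inl ⟨rfl, by dsimp only; omega⟩)
      · exact bw (1, w, p, r - 1) (Or.inr ⟨rfl, a, b, by dsimp only; omega⟩)
          (Or.inl ⟨rfl, by dsimp only; omega, rfl, rfl, rfl, by dsimp only; omega⟩)
          (Or.inl ⟨rfl, by dsimp only; omega⟩)
  · rw [key_1]
    have sepD : ∀ z ∈ EE O V, z.1 = 1 → rho z.2.2.2 % 3 = 0 → z ∈ D := fun z hz a b => by
      have := rho_spec z.2.2.2
      exact (hD z).2 ⟨mem_verts.1 hz, Or.inl ⟨a, by omega⟩⟩
    by_cases ht : x.1 = 1
    · obtain ⟨t, w, p, r⟩ := x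
      unfold Valid at vx
      dsimp only at vx nx ht
      subst ht
      have hw : w ≤ V + O.length := by omega
      have hp : p ≤ 3 * O.length + 7 := by omega
      have : r = 1 ∨ r = 2 ∨ r = 4 ∨ r = 5 := by omega
      rcases this with rfl | rfl | rfl | rfl
      · have c := sep1 (r := 3) (r' := 1) hw hp (by omega) (by omega) rfl
        exact ⟨_, sepD _ c.1 rfl (by simp [rho]), Or.inr c⟩
      · have c := sep1 (r := 0) (r' := 2) hw hp (by omega) (by omega) rfl
        exact ⟨_, sepD _ c.1 rfl (by simp [rho]), Or.inr c⟩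
      · have c := sep1 (r := 4) (r' := 6) hw hp (by omega) (by omega) rfl
        exact ⟨_, sepD _ c.2.1 rfl (by simp [rho]), Or.inl c⟩
      · have c := sep1 (r := 5) (r' := 3) hw hp (by omega) (by omega) rfl
        exact ⟨_, sepD _ c.2.1 rfl (by simp [rho]), Or.inl c⟩
    have a := key1_cls hv hx
    obtain ⟨z, hz, e, z1, z2⟩ := key1_sep (O := O) (V := V) (key1 O V x).1 (key1 O V x).2.1 6
      (by omega) (by omega)
    by_cases c7 : (key1 O V x).2.2 = 7
    · exact ⟨z, sepD z hz z1 (by rw [z2]), Or.inr (cons_succ hz hx (by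
        rw [e]; exact k3_ext ⟨rfl, rfl, c7⟩))⟩
    by_cases c9 : (key1 O V x).2.2 = 9
    · by_cases hb : (key1 O V x).2.1 + 1 < 3 * O.length + 7
      · obtain ⟨u, hu, e, u1, u2⟩ := key1_sep (O := O) (V := V) (key1 O V x).1
          ((key1 O V x).2.1 + 1) 0 (by omega) (by omega)
        refine ⟨u, sepD u hu u1 (by rw [u2]), Or.inl ⟨hx, hu, ?_, fun t ht => ?_⟩⟩
        · rw [e]; unfold Lt3; dsimp only; omega
        · have := key1_cls hv ht
          rw [e]; unfold Lt3; dsimp only; omega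
      · obtain ⟨u, hu, e, u1, u2⟩ := key1_sep (O := O) (V := V) ((key1 O V x).1 + 1) 0 0
          (by omega) (by omega)
        refine ⟨u, sepD u hu u1 (by rw [u2]), Or.inl ⟨hx, hu, ?_, fun t ht => ?_⟩⟩
        · rw [e]; unfold Lt3; dsimp only; omega
        · have := key1_cls hv ht
          rw [e]; unfold Lt3; dsimp only; omega
    have c8 : (key1 O V x).2.2 = 8 := by omega
    by_cases hl : ∃ u ∈ EE O V, key1 O V u = ((key1 O V x).1, (key1 O V x).2.1, 7)
    swap
    · refine ⟨z, sepD z hz z1 (by rw [z2]), Or.inr ⟨hz, hx, ?_, fun t ht h => hl ⟨t, ht, ?_⟩⟩⟩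
      · rw [e]; unfold Lt3; dsimp only; omega
      · rw [e] at h
        unfold Lt3 at h
        refine k3_ext ?_
        dsimp only at h ⊢
        omega
    obtain ⟨u, hu, e⟩ := hl
    have b := key1_spec hu
    have b' := key1_cls hv hu
    have vu := mem_verts.1 hu
    rw [e] at b b'
    unfold Valid at vu
    rcases b with b | b | b | b | b | ⟨s, hs, -, b⟩ | ⟨s, hs, -, b⟩ <;> dsimp only at b b' <;>
      (try (exfalso; omega))
    · have hw : u.2.1 < V + O.length := by omega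
      have : x = (0, u.2.1, 3, 0) :=
        key1_inj hv _ hx _ (pay hw (by omega)) (by rw [key1_c]; exact k3_ext (by dsimp only; omega))
      rw [this]
      have := h1 u.2.1
      by_cases h : val u.2.1 = 1
      · exact ⟨_, (hD _).2 ⟨mem_verts.1 (c_a hw).1, Or.inr ⟨rfl, by dsimp only; omega⟩⟩,
          Or.inr (c_a hw)⟩
      · exact ⟨_, (hD _).2 ⟨mem_verts.1 (c_b hw).2.1, Or.inr ⟨rfl, by dsimp only; omega⟩⟩,
          Or.inl (c_b hw)⟩
    · have : x = lit O s := key1_inj hv _ hx _ (lit_mem hv hs)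
        (by rw [key1_lit hs (hv s hs)]; exact k3_ext (by dsimp only; omega))
      subst this
      rcases h2 s hs with h | ⟨h, h'⟩ | ⟨h, h'⟩
      · have := sg_le O s
        exact absurd (Or.inr ⟨rfl, by simp only [lit, lp]; omega⟩) nx
      · refine ⟨_, (hD _).2 ⟨mem_verts.1 (rt_mem hs), Or.inr ?_⟩, Or.inl (c_rt hv hs)⟩
        simp [rt, h, h']
      · refine ⟨_, (hD _).2 ⟨mem_verts.1 (lf_mem hs), Or.inr ?_⟩, Or.inr (c_lf hv hs)⟩
        simp [lf, h, h']
  · rw [key_2 _ _ h]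
    obtain ⟨y, hy, a, b, c⟩ := domX (s := i - 1) (by omega) hx (fun h => nx (Or.inl h))
    exact ⟨y, (hD y).2 ⟨mem_verts.1 hy, Or.inl ⟨a, b⟩⟩, c⟩

end

end Pool.Agent.H9D
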