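import Pool.Agent.Lib.helper9.GDomD

namespace Pool.Agent.H9D

open Pool.Agent.Cx

def cell (x : V4) : K3 := if x.1 = 0 then (0, x.2.1, x.2.2.1 / 3) else (1, x.2.1, x.2.2.1)

lemma three (P : ℕ → Prop) [DecidablePred P] (a : P 0 ∨ P 1 ∨ P 2) (b : P 1 ∨ P 2 ∨ P 3)
    (c : P 2 ∨ P 3 ∨ P 4) (d : P 3 ∨ P 4 ∨ P 5) (e : P 4 ∨ P 5 ∨ P 6) (f : P 0 ∨ P 2 ∨ P 5)
    (g : P 5 ∨ P 3 ∨ P 1) (h : P 3 ∨ P 1 ∨ P 4) : 3 ≤ ((Finset.range 7).filter P).card := by
  rw [Finset.card_filter]
  simp only [Finset.sum_range_succ, Finset.sum_range_zero]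
  split_ifs <;> simp_all

lemma chain {n : ℕ} (P : ℕ → Prop) (h0 : ∀ p, p + 2 < 3 * n + 7 → P p ∨ P (p + 1) ∨ P (p + 2))
    (h1 : ∀ p q, P p → P q → p / 3 = q / 3 → p = q) (h2 : ∀ p, 3 * n + 6 ≤ p → ¬ P p)
    (h3 : P 1 ∨ P 3 ∨ P (3 * n + 5)) : ∃ v ≤ 1, ∀ p < 3 * n + 7, (P p ↔ p % 3 + v = 2) := by
  have a : ∀ j, j ≤ n + 2 → ¬ P (3 * (n + 2 - j)) := by
    intro j
    induction j with
    | zero => exact fun _ => h2 _ (by omega)
    | succ j ih =>
      intro hj hP
      rcases h0 (3 * (n + 2 - (j + 1)) + 1) (by omega) with h | h | h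
      · have := h1 _ _ hP h (by omega); omega
      · have := h1 _ _ hP h (by omega); omega
      · exact ih (by omega) (by rwa [show 3 * (n + 2 - j) = 3 * (n + 2 - (j + 1)) + 1 + 2 by omega])
  have a' : ∀ p, p % 3 = 0 → ¬ P p := fun p hp hP => by
    by_cases h : 3 * n + 6 ≤ p
    · exact h2 p h hP
    · exact a (n + 2 - p / 3) (by omega) (by rwa [show 3 * (n + 2 - (n + 2 - p / 3)) = p by omega])
  have b : ∀ i j, i + j ≤ n + 1 → P (3 * i + 1) → P (3 * (i + j) + 1) := by
    intro i j
    induction j with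
    | zero => exact fun _ h => h
    | succ j ih =>
      intro hj hP
      have g := ih (by omega) hP
      rcases h0 (3 * (i + j) + 2) (by omega) with h | h | h
      · have := h1 _ _ g h (by omega); omega
      · exact absurd h (a' _ (by omega))
      · rwa [show 3 * (i + (j + 1)) + 1 = 3 * (i + j) + 2 + 2 by omega]
  rcases h3 with h | h | h
  · refine ⟨1, le_rfl, fun p hp => ⟨fun hP => ?_, fun e => ?_⟩⟩
    · by_contra e
      have := a' p
      have g := b 0 (p / 3) (by by_contra; exact a' p (by omega) hP) h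
      have := h1 _ _ g hP (by omega)
      omega
    · have g := b 0 (p / 3) (by omega) h
      rwa [show 3 * (0 + p / 3) + 1 = p by omega] at g
  · exact absurd h (a' 3 rfl)
  · have c : ∀ p < 3 * n + 7, p % 3 = 1 → ¬ P p := fun p hp e hP => by
      have g := b (p / 3) (n + 1 - p / 3) (by omega) (by rwa [show 3 * (p / 3) + 1 = p by omega])
      have := h1 _ _ g h (by omega)
      omega
    refine ⟨0, by omega, fun p hp => ⟨fun hP => ?_, fun e => ?_⟩⟩
    · by_contra e
      by_cases e' : p % 3 = 0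
      · exact a' p e' hP
      · exact c p hp (by omega) hP
    · rcases h0 (p - 2) (by omega) with g | g | g
      · exact absurd g (a' _ (by omega))
      · exact absurd g (c _ (by omega) (by omega))
      · rwa [show p - 2 + 2 = p by omega] at g

section
variable {k : ℕ} {O : Occ} {V : ℕ} (hv : ∀ s < O.length, vr O s < V)
include hv

lemma backward (hk : 2 ≤ k) {D : Finset V4} (hc : D.card ≤ ((EE O V).filter mark).length)
    (hE : ∀ x ∈ D, x ∈ EE O V) (hD : Dom k O V D) : ∃ val : ℕ → ℕ, (∀ w, val w ≤ 1) ∧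
    ∀ s < O.length, sg O s = val (vr O s) ∨ (ct O s = true ∧ val (V + s) = 1) ∨
      (cp O s = true ∧ val (V + s - 1) = 0) := by
  have nb0 : ∀ {a x b : V4}, Valid (V + O.length) (3 * O.length + 7) a →
      S0 (V + O.length) (3 * O.length + 7) a x → S0 (V + O.length) (3 * O.length + 7) x b →
      a ∈ D ∨ x ∈ D ∨ b ∈ D := by
    intro a x b va h1 h2
    have c1 := cons0_of (by omega) va h1
    have c2 := cons0_of (by omega) (mem_verts.1 c1.2.1) h2
    by_cases hx : x ∈ D
    · exact Or.inr (Or.inl hx)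
    obtain ⟨y, hy, h | h⟩ := hD 0 (by omega) x c1.2.1 hx <;> rw [key_0] at h
    · exact Or.inr (Or.inr (cons_r key0_inj h c2 ▸ hy))
    · exact Or.inl (cons_l key0_inj h c1 ▸ hy)
  have nb1 : ∀ {a x b : V4}, Cons (EE O V) (key1 O V) a x → Cons (EE O V) (key1 O V) x b →
      a ∈ D ∨ x ∈ D ∨ b ∈ D := by
    intro a x b c1 c2
    by_cases hx : x ∈ D
    · exact Or.inr (Or.inl hx)
    obtain ⟨y, hy, h | h⟩ := hD 1 (by omega) x c1.2.1 hx <;> rw [key_1] at h
    · exact Or.inr (Or.inr (cons_r (key1_inj hv) h c2 ▸ hy))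
    · exact Or.inl (cons_l (key1_inj hv) h c1 ▸ hy)
  have py : ∀ w < V + O.length, ∀ p, p + 2 < 3 * O.length + 7 →
      (0, w, p, 0) ∈ D ∨ (0, w, p + 1, 0) ∈ D ∨ (0, w, p + 2, 0) ∈ D := fun w hw p hp =>
    nb0 (Or.inl ⟨rfl, hw, by dsimp only; omega, rfl⟩)
      (Or.inr (Or.inr (Or.inl ⟨rfl, by dsimp only; omega, rfl, rfl, rfl, rfl⟩)))
      (Or.inr (Or.inr (Or.inl ⟨rfl, by dsimp only; omega, rfl, rfl, rfl, rfl⟩)))
  set D0 := ((EE O V).filter mark).toFinset with hD0
  have m0 : ∀ x ∈ D0, Valid (V + O.length) (3 * O.length + 7) x ∧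
      ((x.1 = 1 ∧ x.2.2.2 % 3 = 0) ∨ (x.1 = 0 ∧ x.2.2.1 % 3 = 1)) := fun x hx => by
    simpa only [hD0, List.mem_toFinset, List.mem_filter, mem_verts, mark, Bool.or_eq_true,
      Bool.and_eq_true, beq_iff_eq] using hx
  have u0 : ∀ w i, D0.filter (fun x => cell x = (0, w, i)) ⊆ {(0, w, 3 * i + 1, 0)} := by
    intro w i x hx
    obtain ⟨h1, h2⟩ := Finset.mem_filter.1 hx
    have := m0 x h1
    unfold cell at h2
    unfold Valid at this
    split_ifs at h2 <;> simp only [Prod.mk.injEq] at h2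
    · exact Finset.mem_singleton.2 (v4_ext (by dsimp only; omega))
    · omega
  have u1 : ∀ w, D0.filter (fun x => cell x = (0, w, O.length + 2)) = ∅ := fun w => by
    rw [Finset.eq_empty_iff_forall_notMem]
    intro x hx
    have e := Finset.mem_singleton.1 (u0 _ _ hx)
    have := m0 x (Finset.mem_filter.1 hx).1
    rw [e] at this
    unfold Valid at this
    dsimp only at this
    omega
  have le : ∀ c ∈ (EE O V).toFinset.image cell,
      (D0.filter fun x => cell x = c).card ≤ (D.filter fun x => cell x = c).card := by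
    intro c hc
    obtain ⟨⟨t, w, p, r⟩, hx, rfl⟩ := Finset.mem_image.1 hc
    rw [List.mem_toFinset, mem_verts, Valid] at hx
    dsimp only at hx
    rcases hx with ⟨rfl, hw, hp, rfl⟩ | ⟨rfl, hw, hp, hr⟩
    · rw [show cell (0, w, p, 0) = (0, w, p / 3) by simp [cell]]
      by_cases e : p / 3 = O.length + 2
      · rw [e, u1]; simp
      refine (Finset.card_le_card (u0 _ _)).trans ?_
      rw [Finset.card_singleton, Finset.one_le_card]
      rcases py w hw (3 * (p / 3)) (by omega) with h | h | h <;>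
        exact ⟨_, Finset.mem_filter.2 ⟨h, by simp only [cell, if_true, Prod.mk.injEq, true_and]; omega⟩⟩
    · rw [show cell (1, w, p, r) = (1, w, p) by simp [cell]]
      have a : D0.filter (fun x => cell x = (1, w, p)) ⊆ {(1, w, p, 0), (1, w, p, 3), (1, w, p, 6)} := by
        intro x hx
        obtain ⟨h1, h2⟩ := Finset.mem_filter.1 hx
        have := m0 x h1
        unfold cell at h2
        unfold Valid at this
        split_ifs at h2 <;> simp only [Prod.mk.injEq] at h2
        · omega
        simp only [Finset.mem_insert, Finset.mem_singleton]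
        have : x.2.2.2 = 0 ∨ x.2.2.2 = 3 ∨ x.2.2.2 = 6 := by omega
        rcases this with h | h | h
        · exact Or.inl (v4_ext (by dsimp only; omega))
        · exact Or.inr (Or.inl (v4_ext (by dsimp only; omega)))
        · exact Or.inr (Or.inr (v4_ext (by dsimp only; omega)))
      have s0 : ∀ r, r < 5 → (1, w, p, r) ∈ D ∨ (1, w, p, r + 1) ∈ D ∨ (1, w, p, r + 2) ∈ D :=
        fun r hr => nb0 (Or.inr ⟨rfl, hw, hp, by dsimp only; omega⟩)
          (Or.inl ⟨rfl, by dsimp only; omega, rfl, rfl, rfl, rfl⟩)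
          (Or.inl ⟨rfl, by dsimp only; omega, rfl, rfl, rfl, rfl⟩)
      have s1 : ∀ a b c, a < 7 → b < 7 → c < 7 → rho b = rho a + 1 → rho c = rho b + 1 →
          (1, w, p, a) ∈ D ∨ (1, w, p, b) ∈ D ∨ (1, w, p, c) ∈ D :=
        fun a b c ha hb hc e e' => nb1 (sep1 hw hp ha hb e) (sep1 hw hp hb hc e')
      refine (Finset.card_le_card a).trans (Finset.card_le_three.trans ?_)
      refine (three (fun r => (1, w, p, r) ∈ D) (s0 0 (by omega)) (s0 1 (by omega))
        (s0 2 (by omega)) (s0 3 (by omega)) (s0 4 (by omega))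
        (s1 0 2 5 (by omega) (by omega) (by omega) rfl rfl)
        (s1 5 3 1 (by omega) (by omega) (by omega) rfl rfl)
        (s1 3 1 4 (by omega) (by omega) (by omega) rfl rfl)).trans ?_
      refine Finset.card_le_card_of_injOn (fun r => (1, w, p, r)) (fun r hr => ?_)
        (fun a _ b _ e => by simpa using e)
      have := (Finset.mem_filter.1 hr).2
      simp [cell, this]
  have e1 : D.card = _ := Finset.card_eq_sum_card_fiberwise (f := cell)
    (t := (EE O V).toFinset.image cell)
    (fun x hx => Finset.mem_image_of_mem _ (List.mem_toFinset.2 (hE x hx)))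
  have e2 : D0.card = _ := Finset.card_eq_sum_card_fiberwise (f := cell)
    (t := (EE O V).toFinset.image cell)
    (fun x hx => Finset.mem_image_of_mem _ (List.mem_toFinset.2 (mem_verts.2 (m0 x hx).1)))
  rw [← List.toFinset_card_of_nodup ((nodup_verts _ _).filter _), ← hD0, e1, e2] at hc
  have eq := (Finset.sum_eq_sum_iff_of_le le).1 (le_antisymm (Finset.sum_le_sum le) hc)
  have row : ∀ w, ∃ v ≤ 1, w < V + O.length →
      ∀ p < 3 * O.length + 7, ((0, w, p, 0) ∈ D ↔ p % 3 + v = 2) := by
    intro w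
    by_cases hw : w < V + O.length
    swap
    · exact ⟨0, by omega, fun h => absurd h hw⟩
    have cm : ∀ p, (0, w, p, 0) ∈ D → (D.filter fun x => cell x = (0, w, p / 3)).card =
        (D0.filter fun x => cell x = (0, w, p / 3)).card := fun p hp =>
      (eq _ (Finset.mem_image.2 ⟨_, List.mem_toFinset.2 (hE _ hp), by simp [cell]⟩)).symm
    obtain ⟨v, h1, h2⟩ := chain (n := O.length) (fun p => (0, w, p, 0) ∈ D) (py w hw)
      (fun p q hp hq e => by
        have := (cm p hp).le.trans ((Finset.card_le_card (u0 _ _)).trans (Finset.card_singleton _).le)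
        have := Finset.card_le_one.1 this _ (Finset.mem_filter.2 ⟨hp, by simp [cell]⟩) _
          (Finset.mem_filter.2 ⟨hq, by simp [cell, e]⟩)
        simpa using this)
      (fun p hp h => by
        have a := mem_verts.1 (hE _ h)
        unfold Valid at a
        dsimp only at a
        have b := cm p h
        rw [show p / 3 = O.length + 2 by omega, u1, Finset.card_empty, Finset.card_eq_zero] at b
        exact Finset.notMem_empty _ (b ▸ Finset.mem_filter.2 ⟨h, by
          simp only [cell, if_true, Prod.mk.injEq, true_and]; omega⟩))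
      (nb1 (c_a hw) (c_b hw))
    exact ⟨v, h1, fun _ => h2⟩
  choose val h1 h2 using row
  refine ⟨val, h1, fun s hs => ?_⟩
  have b := lp_bd O s
  have := hv s hs
  rcases nb1 (c_lf hv hs) (c_rt hv hs) with h | h | h
  · unfold lf at h
    cases e : cp O s <;> rw [e] at h
    · have := (h2 _ (by omega) _ (by omega)).1 h
      have := h1 (V + s)
      omega
    · have := (h2 _ (by omega) _ (by omega)).1 h
      exact Or.inr (Or.inr ⟨rfl, by omega⟩)
  · have := (h2 _ (by omega) _ (by omega)).1 h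
    have := sg_le O s
    unfold lp at *
    exact Or.inl (by omega)
  · unfold rt at h
    cases e : ct O s <;> rw [e] at h
    · have := (h2 _ (by omega) _ (by omega)).1 h
      have := h1 (V + s)
      omega
    · have := (h2 _ (by omega) _ (by omega)).1 h
      exact Or.inr (Or.inl ⟨rfl, by omega⟩)

end

lemma sat_iff {φ : CNF} (hne : ∀ c ∈ φ, c ≠ []) {V : ℕ} (hV : size φ ≤ V) :
    Sat φ ↔ ∃ val : ℕ → ℕ, (∀ w, val w ≤ 1) ∧
    ∀ s < (occ φ).length, sg (occ φ) s = val (vr (occ φ) s) ∨
      (ct (occ φ) s = true ∧ val (V + s) = 1) ∨ (cp (occ φ) s = true ∧ val (V + s - 1) = 0) := by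
  constructor
  · intro h
    obtain ⟨τ, σ, h1, h2⟩ := h.choice
    refine ⟨fun w => if w < V then τ w else if w - V < σ (cl (occ φ) (w - V)) then 1 else 0,
      fun w => ?_, fun s hs => ?_⟩
    · have := h1 w
      dsimp only
      split_ifs <;> omega
    obtain ⟨a, b, c⟩ := h2 _ (cl_lt hs)
    have v := vr_lt hs
    rcases lt_trichotomy s (σ (cl (occ φ) s)) with h | h | h
    · have m1 := cl_mono φ (s := s + 1) h a
      have m2 := cl_mono φ (s := s) (t := s + 1) (by omega) (by omega)
      refine Or.inr (Or.inl ⟨?_, ?_⟩)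
      · simp only [ct, Bool.and_eq_true, decide_eq_true_eq, beq_iff_eq]; omega
      · simp [h]
    · rw [← h] at c
      exact Or.inl (by rw [c]; simp only [show vr (occ φ) s < V by omega, if_true])
    · have m1 := cl_mono φ (s := σ (cl (occ φ) s)) (t := s - 1) (by omega) (by omega)
      have m2 := cl_mono φ (s := s - 1) (t := s) (by omega) hs
      refine Or.inr (Or.inr ⟨?_, ?_⟩)
      · simp only [cp, ct, Bool.and_eq_true, decide_eq_true_eq, beq_iff_eq,
          show s - 1 + 1 = s by omega]; omega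
      · have e : cl (occ φ) (s - 1) = cl (occ φ) s := by omega
        simp only [show ¬ V + s - 1 < V by omega, if_false, show V + s - 1 - V = s - 1 by omega, e]
        rw [if_neg (by omega)]
  · rintro ⟨val, h1, h2⟩
    refine sat_of_set (fun s => sg (occ φ) s = val (vr (occ φ) s)) (fun j hj => ?_)
      (fun s _ t _ a b e => by rw [a, b, e])
    by_contra hn
    have hn' : ∀ s < (occ φ).length, cl (occ φ) s = j → sg (occ φ) s ≠ val (vr (occ φ) s) :=
      fun s hs e h => hn ⟨s, hs, h, e⟩
    have ex : ∃ s, s < (occ φ).length ∧ cl (occ φ) s = j := by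
      obtain ⟨l, hl⟩ := List.exists_mem_of_ne_nil _ (hne _ (List.getElem_mem hj))
      obtain ⟨s, hs, e⟩ := List.getElem_of_mem (mem_occ.2 ⟨hj, hl⟩ : (j, l) ∈ occ φ)
      exact ⟨s, hs, by rw [cl, List.getD_eq_getElem _ _ hs, e]⟩
    classical
    have f1 := Nat.find_spec ex
    have f2 := fun m => Nat.find_min ex (m := m)
    generalize Nat.find ex = s0 at f1 f2
    have key : ∀ m, s0 + m < (occ φ).length ∧ cl (occ φ) (s0 + m) = j ∧
        ¬ (cp (occ φ) (s0 + m) = true ∧ val (V + (s0 + m) - 1) = 0) := by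
      intro m
      induction m with
      | zero =>
        refine ⟨f1.1, f1.2, fun h => ?_⟩
        have := h.1
        simp only [cp, ct, Bool.and_eq_true, decide_eq_true_eq, beq_iff_eq, add_zero] at this
        refine f2 (s0 - 1) (by omega) ⟨by omega, ?_⟩
        rw [← this.2.2, show s0 - 1 + 1 = s0 by omega]
        exact f1.2
      | succ m ih =>
        obtain ⟨a, b⟩ := ((h2 _ ih.1).resolve_left (hn' _ ih.1 ih.2.1)).resolve_right ih.2.2
        simp only [ct, Bool.and_eq_true, decide_eq_true_eq, beq_iff_eq] at a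
        refine ⟨a.1, a.2.trans ih.2.1, fun h => ?_⟩
        have := h.2
        rw [show V + (s0 + (m + 1)) - 1 = V + (s0 + m) by omega] at this
        omega
    have := (key (occ φ).length).1
    omega

lemma pre_spec (φ : CNF) : (∀ c ∈ pre φ, c ≠ []) ∧ (Sat φ ↔ Sat (pre φ)) := by
  unfold pre
  cases h : φ.any List.isEmpty
  · refine ⟨fun c hc e => ?_, Iff.rfl⟩
    have := List.any_eq_false.1 h c hc
    simp [e] at this
  · obtain ⟨c, hc, e⟩ := List.any_eq_true.1 h
    refine ⟨by simp, iff_of_false ?_ ?_⟩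
    · rintro ⟨τ, hτ⟩
      obtain ⟨l, hl, -⟩ := hτ c hc
      simp [List.isEmpty_iff.1 e] at hl
    · rintro ⟨τ, hτ⟩
      cases e : τ 0 <;> simp [e] at hτ

lemma red_iff {k : ℕ} (hk : 2 ≤ k) (φ : CNF) : Sat φ ↔ GD k (red k φ) := by
  have hv : ∀ s < (occ (pre φ)).length, vr (occ (pre φ)) s < size (pre φ) + 2 * k :=
    fun s hs => (vr_lt hs).trans_le (by omega)
  rw [(pre_spec φ).2, red, gd_build hv (by omega) (by omega),
    sat_iff (pre_spec φ).1 (V := size (pre φ) + 2 * k) (by omega)]
  exact ⟨fun ⟨val, h1, h2⟩ => forward hv (by omega) val h1 h2,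
    fun ⟨D, h1, h2, h3⟩ => backward hv hk h1 h2 h3⟩

end Pool.Agent.H9D
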