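import Pool.Agent.Lib.helper10.NPMat
import Pool.Agent.Lib.helper9.GDefs

namespace Pool.Agent.H9G

open Pool.Agent.Cx

variable {α β : Type}

instance (M : List (List Bool)) (i j : ℕ) : Decidable (Adj M i j) := by unfold Adj; infer_instance

def adjB (M : List (List Bool)) (i j : ℕ) : Bool := (M.getD i []).getD j false

@[simp] lemma adjB_iff {M : List (List Bool)} {i j : ℕ} : adjB M i j = true ↔ Adj M i j := Iff.rfl

@[fun_prop] lemma PT_adjB [Enc α] {M : α → List (List Bool)} {i j : α → ℕ} (hM : PT M) (hi : PT i)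
    (hj : PT j) : PT (fun a => adjB (M a) (i a) (j a)) := by
  unfold adjB; fun_prop

lemma Adj.lt_left {M : List (List Bool)} {i j : ℕ} (h : Adj M i j) : i < M.length := by
  by_contra hi
  simp [Adj, List.getD_eq_getElem?_getD, List.getElem?_eq_none (not_lt.1 hi)] at h

lemma Adj.lt_right {M : List (List Bool)} (hM : IsGraph M) {i j : ℕ} (h : Adj M i j) :
    j < M.length := (hM.2 _ _ h).lt_left

def isGraphB (M : List (List Bool)) : Bool :=
  M.all (fun r => r.length == M.length) &&
    (List.range M.length).all fun i => (List.range M.length).all fun j => adjB M i j == adjB M j i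

def isSimpleB (M : List (List Bool)) : Bool :=
  isGraphB M && (List.range M.length).all fun i => !adjB M i i

@[fun_prop] lemma PT_isGraphB [Enc α] {M : α → List (List Bool)} (hM : PT M) :
    PT (fun a => isGraphB (M a)) := by
  unfold isGraphB; fun_prop

@[fun_prop] lemma PT_isSimpleB [Enc α] {M : α → List (List Bool)} (hM : PT M) :
    PT (fun a => isSimpleB (M a)) := by
  unfold isSimpleB; fun_prop

@[simp] lemma isGraphB_iff {M : List (List Bool)} : isGraphB M = true ↔ IsGraph M := by
  simp only [isGraphB, IsGraph, Bool.and_eq_true, List.all_eq_true, beq_iff_eq, List.mem_range]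
  refine and_congr_right fun h => ⟨fun h' i j hij => ?_, fun h' i _ j _ => ?_⟩
  · have hi := hij.lt_left
    have hj : j < M.length := by
      by_contra hj
      have := h _ (List.getElem_mem hi)
      simp [Adj, List.getD_eq_getElem?_getD, List.getElem?_eq_getElem hi,
        List.getElem?_eq_none (this ▸ not_lt.1 hj)] at hij
    rw [← adjB_iff, ← h' i hi j hj]; exact hij
  · rw [Bool.eq_iff_iff]; exact ⟨h' i j, h' j i⟩

@[simp] lemma isSimpleB_iff {M : List (List Bool)} : isSimpleB M = true ↔ IsSimple M := by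
  simp only [isSimpleB, IsSimple, Bool.and_eq_true, isGraphB_iff, List.all_eq_true, List.mem_range,
    Bool.not_eq_true', ← Bool.not_eq_true, adjB_iff]
  exact and_congr_right fun _ => ⟨fun h i hi => h i hi.lt_left hi, fun h i _ => h i⟩

lemma adj_mat (E : List α) (r : α → α → Bool) (d : α) (i j : ℕ) :
    Adj (mat E r) i j ↔ i < E.length ∧ j < E.length ∧ r (E.getD i d) (E.getD j d) = true := by
  unfold Adj
  rw [mat_get]
  constructor
  · rintro ⟨hi, hj, h⟩
    exact ⟨hi, hj, by simpa [List.getD_eq_getElem?_getD, hi, hj] using h⟩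
  · rintro ⟨hi, hj, h⟩
    exact ⟨hi, hj, by simpa [List.getD_eq_getElem?_getD, hi, hj] using h⟩

lemma isGraph_mat (E : List α) (r : α → α → Bool) (h : ∀ x ∈ E, ∀ y ∈ E, r x y = true → r y x = true) :
    IsGraph (mat E r) := by
  refine ⟨mat_row E r, fun i j hij => ?_⟩
  obtain ⟨hi, hj, h'⟩ := (mat_get E r i j).1 hij
  exact (mat_get E r j i).2 ⟨hj, hi, h _ (List.getElem_mem hi) _ (List.getElem_mem hj) h'⟩

lemma isSimple_mat (E : List α) (r : α → α → Bool)
    (h : ∀ x ∈ E, ∀ y ∈ E, r x y = true → r y x = true) (h' : ∀ x ∈ E, r x x = false) :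
    IsSimple (mat E r) := by
  refine ⟨isGraph_mat E r h, fun i hi => ?_⟩
  obtain ⟨hi, _, h2⟩ := (mat_get E r i i).1 hi
  simp [h' _ (List.getElem_mem hi)] at h2

lemma getD_mem {E : List α} {d : α} {i : ℕ} (hi : i < E.length) : E.getD i d ∈ E := by
  simp [List.getD_eq_getElem?_getD, hi]

lemma getD_idxOf [DecidableEq α] {E : List α} {d x : α} (hx : x ∈ E) : E.getD (E.idxOf x) d = x := by
  have := List.idxOf_lt_length_of_mem hx
  simp [List.getD_eq_getElem?_getD, this]

lemma idxOf_getD [DecidableEq α] {E : List α} (hE : E.Nodup) {d : α} {i : ℕ} (hi : i < E.length) :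
    E.idxOf (E.getD i d) = i := by
  simp [List.getD_eq_getElem?_getD, hi, hE.idxOf_getElem]

lemma card_filter_range [DecidableEq α] {E : List α} (hE : E.Nodup) (d : α) (p : α → Prop)
    [DecidablePred p] :
    ((Finset.range E.length).filter fun i => p (E.getD i d)).card = (E.toFinset.filter p).card := by
  refine Finset.card_bij (fun i _ => E.getD i d) ?_ ?_ ?_
  · intro i hi
    simp only [Finset.mem_filter, Finset.mem_range, List.mem_toFinset] at hi ⊢
    exact ⟨getD_mem hi.1, hi.2⟩
  · intro i hi j hj e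
    simp only [Finset.mem_filter, Finset.mem_range] at hi hj
    rw [← idxOf_getD hE (d := d) hi.1, e, idxOf_getD hE hj.1]
  · intro x hx
    simp only [Finset.mem_filter, List.mem_toFinset] at hx
    refine ⟨E.idxOf x, ?_, getD_idxOf hx.1⟩
    simp only [Finset.mem_filter, Finset.mem_range]
    exact ⟨List.idxOf_lt_length_of_mem hx.1, by rw [getD_idxOf hx.1]; exact hx.2⟩

lemma hard_of_npHard [Enc α] [Dec α] {P : α → Prop} (h : NPHard (Lang P)) (a0 : α) (h0 : ¬ P a0) :
    Hard P := by
  intro L hL
  obtain ⟨f, hf, e⟩ := h L hL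
  have hf' := hf.pt
  refine ⟨fun x => if enc (decode (f x) : α) = f x then decode (f x) else a0, by fun_prop,
    fun x => ?_⟩
  rw [e, mem_Lang']
  by_cases c : enc (decode (f x) : α) = f x <;> simp [c, h0]

end Pool.Agent.H9G
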