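import Pool.Agent.Lib.helper10.Sat3

/-! A ten-agent gadget for three-sided matching with lexicographically cyclic preferences. -/

namespace Pool.Agent.Cx.Gsm

def dg (A m : ℕ) : ℕ := A >>> (3 * m) % 8

def tn (k x y : ℕ) : ℕ :=
  dg 1835428280275733787077301278676180188868905691298691007440962804627256403458027294402744263600247716637074440 (20 * k + 5 * x + y)

def inj : List (ℕ × ℕ) := [(2257, 1088), (1809, 1600), (2321, 2112), (2201, 640), (1305, 704), (2329, 768), (1697, 1664),
  (2209, 2176), (1249, 1216), (2273, 1280), (1313, 2240), (1825, 1792), (2337, 2304), (2250,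
  1032), (1802, 1544), (2314, 2056), (2138, 528), (794, 536), (2330, 544), (1634, 1552), (2146,
  2064), (738, 1048), (2274, 1056), (802, 2072), (1826, 1568), (2338, 2080), (2187, 136), (1291,
  200), (2315, 264), (2131, 80), (787, 88), (2323, 96), (1123, 208), (2147, 272), (675, 152),
  (2211, 160), (803, 280), (1315, 224), (2339, 288), (1676, 1672), (2188, 2184), (1228, 1224),
  (2252, 1288), (1292, 2248), (1804, 1800), (2316, 2312), (1620, 1616), (2132, 2128), (724, 1112),
  (2260, 1120), (788, 2136), (1812, 1632), (2324, 2144), (1116, 720), (2140, 784), (668, 664),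
  (2204, 672), (796, 792), (1308, 736), (2332, 800), (1124, 2256), (1636, 1808), (2148, 2320),
  (676, 2200), (1700, 1696), (2212, 2208), (740, 1304), (1252, 1248), (2276, 1312), (804, 2328),
  (1316, 2272), (1828, 1824), (2340, 2336)]

def imp (k x p q p' q' : ℕ) : Bool :=
  (tn k x p).blt (tn k x p') || (p.beq p' && (tn (k + 3) x q).blt (tn (k + 3) x q'))

def blk (A B C : ℕ × ℕ) : Bool := [0, 1, 2, 3].any fun m => [1, 2, 3].any fun w =>
  [1, 2, 3].any fun d => imp 0 m w d (dg A.1 m) (dg B.1 m) && imp 1 w d m (dg C.1 w) (dg A.2 w) &&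
    imp 2 d m w (dg B.2 d) (dg C.2 d)

def bad (A B C : ℕ × ℕ) : Bool := [0, 1, 2, 3].any fun m =>
  (!(dg A.1 m).beq 4 && !(dg C.1 (dg A.1 m)).beq (dg B.1 m)) ||
    (!(dg B.1 m).beq 4 && !(dg C.2 (dg B.1 m)).beq (dg A.1 m))

lemma fin0 (i : ℕ) (h : i < 12) : (((inj.drop (39 + 3 * i)).take 3).all fun C => inj.all fun A =>
    inj.all fun B => bad A B C || blk A B C) = true := by
  interval_cases i <;> decide +kernel

lemma fin1 : ∀ C ∈ inj, dg C.1 0 = 4 → ∃ i < 12, C ∈ (inj.drop (39 + 3 * i)).take 3 := by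
  decide +kernel

def cd (a b c d : ℕ) : ℕ := a + 8 * b + 64 * c + 512 * d

def rel (a b c d w x : ℕ) : Bool := (a.beq w == x.beq 0) && (b.beq w == x.beq 1) &&
  (c.beq w == x.beq 2) && (d.beq w == x.beq 3)

lemma fin2 : ([1, 2, 3, 4].all fun a => [1, 2, 3, 4].all fun b => [1, 2, 3, 4].all fun c =>
    [1, 2, 3, 4].all fun d => [0, 1, 2, 3, 4].all fun x => !rel a b c d 1 x ||
    [0, 1, 2, 3, 4].all fun y => !rel a b c d 2 y || [0, 1, 2, 3, 4].all fun z => !rel a b c d 3 z ||
    inj.contains (cd a b c d, cd 0 x y z)) = true := by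
  decide +kernel

end Pool.Agent.Cx.Gsm
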