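import Pool.Agent.Lib.helper9.GsmA

/-! The gadget lemma in terms of partial injections. -/

namespace Pool.Agent.Cx.Gsm

lemma dg_cd {a : ℕ → ℕ} (h : ∀ m < 4, a m < 8) : ∀ m < 4, dg (cd (a 0) (a 1) (a 2) (a 3)) m = a m := by
  have := h 0; have := h 1; have := h 2; have := h 3
  intro m hm
  interval_cases m <;> simp only [dg, cd, Nat.shiftRight_eq_div_pow] <;> omega

/-- `a` is a partial injection of `{0, .., 3}` into `{1, 2, 3}`, `b` its inverse, `4` is undefined -/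
def PI (a b : ℕ → ℕ) : Prop := (∀ m < 4, 0 < a m ∧ a m < 5) ∧ b 0 = 0 ∧
  ∀ w < 4, 0 < w → b w < 5 ∧ ∀ m < 4, a m = w ↔ b w = m

lemma PI.code {a b : ℕ → ℕ} (h : PI a b) : ∃ A ∈ inj, ∀ m < 4, dg A.1 m = a m ∧ dg A.2 m = b m := by
  obtain ⟨h1, h2, h3⟩ := h
  have e : ∀ m < 4, a m ∈ [1, 2, 3, 4] := fun m hm => by have := h1 m hm; simp; omega
  have e' : ∀ w < 4, 0 < w → b w ∈ [0, 1, 2, 3, 4] ∧ rel (a 0) (a 1) (a 2) (a 3) w (b w) = true :=
    fun w a1 a2 => ⟨by have := (h3 w a1 a2).1; simp; omega, by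
      have := (h3 w a1 a2).2
      have q : ∀ x y u v : ℕ, (x.beq y = u.beq v) = (x = y ↔ u = v) := fun x y u v => by
        rw [Bool.eq_iff_iff, Nat.beq_eq, Nat.beq_eq]
      simp only [rel, Bool.and_eq_true, beq_iff_eq, q]
      exact ⟨⟨⟨this 0 (by omega), this 1 (by omega)⟩, this 2 (by omega)⟩, this 3 (by omega)⟩⟩
  have := fin2
  simp only [List.all_eq_true, Bool.or_eq_true, Bool.not_eq_true', List.contains_iff_mem] at this
  have := ((((this _ (e 0 (by omega)) _ (e 1 (by omega)) _ (e 2 (by omega)) _ (e 3 (by omega)) _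
    (e' 1 (by omega) (by omega)).1).resolve_left (by simp [e'])) _
    (e' 2 (by omega) (by omega)).1).resolve_left (by simp [e']) _
    (e' 3 (by omega) (by omega)).1).resolve_left (by simp [e'])
  refine ⟨_, this, fun m hm => ⟨dg_cd (fun m hm => by have := h1 m hm; omega) m hm, ?_⟩⟩
  rw [← h2]
  exact dg_cd (fun m hm => by have := h3 m hm; by_cases e : m = 0; exacts [by simp [e, h2], by omega]) m hm

def Imp (k x p q p' q' : ℕ) : Prop :=
  tn k x p < tn k x p' ∨ (p = p' ∧ tn (k + 3) x q < tn (k + 3) x q')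

lemma fin3 {a a' b b' c c' : ℕ → ℕ} (ha : PI a a') (hb : PI b b') (hc : PI c c') (h0 : c 0 = 4)
    (h : ∀ m < 4, (a m ≠ 4 → c (a m) = b m) ∧ (b m ≠ 4 → c' (b m) = a m)) :
    ∃ m < 4, ∃ w < 4, ∃ d < 4, 0 < w ∧ 0 < d ∧ Imp 0 m w d (a m) (b m) ∧ Imp 1 w d m (c w) (a' w) ∧
      Imp 2 d m w (b' d) (c' d) := by
  obtain ⟨A, a1, a2⟩ := ha.code
  obtain ⟨B, b1, b2⟩ := hb.code
  obtain ⟨C, c1, c2⟩ := hc.code
  obtain ⟨i, i1, i2⟩ := fin1 C c1 (by simp [c2, h0])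
  have := fin0 i i1
  simp only [List.all_eq_true, Bool.or_eq_true] at this
  rcases this C i2 A a1 B b1 with g | g
  · simp only [bad, List.any_eq_true, Bool.or_eq_true, Bool.and_eq_true, Bool.not_eq_true',
      ← Bool.not_eq_true, Nat.beq_eq] at g
    obtain ⟨m, m1, g⟩ := g
    have hm : m < 4 := by simp at m1; omega
    have := ha.1 m hm
    have := hb.1 m hm
    rw [(a2 m hm).1, (b2 m hm).1] at g
    rcases g with g | g
    · exact (g.2 ((c2 _ (by omega)).1.trans ((h m hm).1 g.1))).elim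
    · exact (g.2 ((c2 _ (by omega)).2.trans ((h m hm).2 g.1))).elim
  · simp only [blk, imp, List.any_eq_true, Bool.or_eq_true, Bool.and_eq_true, Nat.beq_eq,
      Nat.blt_eq] at g
    obtain ⟨m, m1, w, w1, d, d1, g⟩ := g
    have hm : m < 4 := by simp at m1; omega
    have hw : 0 < w ∧ w < 4 := by simp at w1; omega
    have hd : 0 < d ∧ d < 4 := by simp at d1; omega
    simp only [a2 m hm, b2 m hm, a2 w hw.2, c2 w hw.2, b2 d hd.2, c2 d hd.2] at g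
    exact ⟨m, hm, w, hw.2, d, hd.2, hw.1, hd.1, g.1.1, g.1.2, g.2⟩

def tb (k x y : ℕ) : ℕ := min ((([[[0, 1, 0, 2], [0, 0, 1, 2], [0, 0, 2, 1], [0, 0, 2, 1]], [[], [0, 2, 1, 0], [0, 0, 2,
  1], [0, 1, 2, 0]], [[], [3, 1, 2, 0], [3, 1, 2, 0], [0, 3, 1, 2]], [[0, 0, 2, 1], [0, 2,
  1, 0], [0, 0, 2, 1], [0, 0, 1, 2]], [[], [3, 1, 2, 0], [1, 3, 2, 0], [2, 1, 3, 0]], [[],
  [0, 0, 1, 2], [0, 1, 0, 2], [0, 1, 0, 2]]].getD k []).getD x []).getD y 6) 6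

lemma tb_eq : ∀ k < 6, ∀ x < 4, ∀ y < 5, tb k x y = tn k x y := by decide +kernel

/-- the stable matching inside the gadget -/
def nx (k x : ℕ) : ℕ := ([[0, 2, 1, 3], [0, 3, 2, 1], [0, 3, 1, 2]].getD k []).getD x 0

def Wk (k x p q : ℕ) : Prop := (p ≠ nx k x ∧ tb k x p ≤ tb k x (nx k x)) ∨
  (p = nx k x ∧ q ≠ nx ((k + 1) % 3) p ∧ tb (k + 3) x q ≤ tb (k + 3) x (nx ((k + 1) % 3) p))

instance (k x p q : ℕ) : Decidable (Wk k x p q) := by unfold Wk; infer_instance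

set_option synthInstance.maxSize 2048 in
lemma fin4 : ∀ k < 3, ∀ x < 4, 0 < x → (0 < nx k x ∧ nx k x < 4 ∧ tb k x (nx k x) < 6 ∧
    nx ((k + 2) % 3) (nx ((k + 1) % 3) (nx k x)) = x) ∧ ∀ y < 4, 0 < y → ∀ z < 4, 0 < z →
    ¬ (Wk k x y z ∧ Wk ((k + 1) % 3) y z x ∧ Wk ((k + 2) % 3) z x y) := by decide +kernel

end Pool.Agent.Cx.Gsm
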