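import Pool.Agent.Lib.helper10.Sat3
import Pool.Agent.Lib.helper10.NPMatSat

/-! One-in-three satisfiability, and small set systems with several tournament realisations. -/

namespace Pool.Agent.Cx.Nlt

abbrev Cl := Lit × Lit × Lit

def lit (c : Cl) (j : ℕ) : Lit := if j = 0 then c.1 else if j = 1 then c.2.1 else c.2.2

/-- one-in-three satisfiability -/
def One (ψ : List Cl) : Prop :=
  ∃ τ : ℕ → Bool, ∀ c ∈ ψ, ∃ k < 3, ∀ j < 3, τ (lit c j).1 = (lit c j).2 ↔ k = j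

def to1 (φ : List Cl) : List Cl := φ.zipIdx.flatMap fun x =>
  [((2 * x.1.1.1, !x.1.1.2), (8 * x.2 + 1, true), (8 * x.2 + 3, true)),
    ((8 * x.2 + 3, true), (2 * x.1.2.1.1, x.1.2.1.2), (8 * x.2 + 5, true)),
    ((8 * x.2 + 5, true), (8 * x.2 + 7, true), (2 * x.1.2.2.1, !x.1.2.2.2))]

lemma one_iff (τ : ℕ → Bool) (c : Cl) : (∃ k < 3, ∀ j < 3, τ (lit c j).1 = (lit c j).2 ↔ k = j) ↔
    ((τ c.1.1 == c.1.2).toNat + (τ c.2.1.1 == c.2.1.2).toNat + (τ c.2.2.1 == c.2.2.2).toNat = 1) := by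
  simp only [Nat.exists_lt_succ_right, Nat.forall_lt_succ_right, lit, Bool.beq_eq_decide_eq]
  by_cases a : τ c.1.1 = c.1.2 <;> by_cases b : τ c.2.1.1 = c.2.1.2 <;>
    by_cases d : τ c.2.2.1 = c.2.2.2 <;> simp [a, b, d]

lemma hard_one : Hard One := hard_sat3.red (r := to1) (by unfold to1; fun_prop) fun φ => by
  simp only [Sat3, One, one_iff, to1, List.mem_flatMap, List.mem_cons, List.not_mem_nil, or_false]
  constructor
  · rintro ⟨τ, h⟩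
    let A := fun j i => τ (lit (φ.getD j default) i).1 == (lit (φ.getD j default) i).2
    refine ⟨fun v => if v % 2 = 0 then τ (v / 2) else if v % 8 = 1 then A (v / 8) 0 && A (v / 8) 1
      else if v % 8 = 3 then A (v / 8) 0 && !A (v / 8) 1 else if v % 8 = 5 then
        !A (v / 8) 0 && !A (v / 8) 1 else A (v / 8) 2 && (A (v / 8) 0 || A (v / 8) 1), ?_⟩
    rintro c ⟨⟨x, j⟩, hx, hc⟩
    have e := List.mem_zipIdx_iff_getElem?.1 hx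
    have g := h x (List.mem_of_getElem? e)
    have e1 : ∀ r < 8, (8 * j + r) / 8 = j ∧ (8 * j + r) % 8 = r ∧ (8 * j + r) % 2 = r % 2 := by
      intros; omega
    rcases hc with rfl | rfl | rfl <;> simp [e1, A, List.getD, e, lit] <;> revert g <;>
      generalize τ x.1.1 = a, τ x.2.1.1 = b, τ x.2.2.1 = d, x.1.2 = e, x.2.1.2 = f, x.2.2.2 = g <;>
      revert a b d e f g <;> decide
  · rintro ⟨τ, h⟩
    refine ⟨fun v => τ (2 * v), fun c hc => ?_⟩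
    obtain ⟨j, hj⟩ := List.getElem?_of_mem hc
    have e := List.mem_zipIdx_iff_getElem?.2 (show φ[(c, j).2]? = some (c, j).1 from hj)
    have a1 := h _ ⟨_, e, Or.inl rfl⟩
    have a2 := h _ ⟨_, e, Or.inr (Or.inl rfl)⟩
    have a3 := h _ ⟨_, e, Or.inr (Or.inr rfl)⟩
    revert a1 a2 a3
    simp only
    generalize τ (2 * c.1.1) = a, τ (2 * c.2.1.1) = b, τ (2 * c.2.2.1) = d, c.1.2 = e, c.2.1.2 = f,
      c.2.2.2 = g, τ (8 * j + 1) = u, τ (8 * j + 3) = v, τ (8 * j + 5) = w, τ (8 * j + 7) = t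
    revert a b d e f g u v w t
    decide

def tab : List (List (List ℕ)) := [[[0], [1], [2]], [[1, 2, 4], [2, 3, 5], [3, 4, 6], [4, 5, 0], [5,
  6, 1], [6, 0, 2], [0, 1, 3]], [[0, 2, 3, 5, 8, 10, 13, 18, 19, 20], [0, 2, 4, 6, 10, 11, 12, 14,
  15, 20], [0, 1, 4, 5, 7, 8, 12, 16, 17, 20], [0, 1, 3, 6, 9, 12, 13, 15, 16, 18], [1, 2, 5, 6, 7,
  9, 10, 14, 17, 18], [1, 2, 3, 4, 7, 11, 13, 15, 17, 19], [3, 4, 5, 6, 8, 9, 11, 14, 16, 19], [4,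
  5, 6, 7, 9, 10, 12, 15, 17, 20], [0, 1, 6, 7, 9, 11, 13, 17, 18, 19], [2, 3, 6, 7, 8, 11, 12, 14,
  15, 19], [1, 2, 4, 7, 8, 10, 13, 16, 19, 20], [0, 3, 4, 8, 9, 12, 13, 14, 16, 17], [1, 3, 5, 8, 9,
  10, 11, 14, 18, 20], [0, 2, 5, 10, 11, 12, 13, 15, 16, 18], [1, 3, 6, 11, 12, 13, 14, 16, 17, 19],
  [3, 4, 5, 7, 8, 13, 14, 16, 18, 20], [0, 1, 5, 9, 10, 13, 14, 15, 18, 19], [2, 5, 6, 8, 9, 11, 14,
  15, 17, 20], [0, 2, 3, 7, 10, 11, 15, 16, 19, 20], [0, 4, 6, 8, 10, 12, 15, 16, 17, 18], [1, 2, 4,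
  7, 9, 12, 17, 18, 19, 20]], [[0, 1, 5, 6, 9, 10, 13, 17, 18, 19], [0, 3, 4, 6, 8, 12, 13, 14, 16,
  18], [1, 3, 4, 5, 7, 8, 9, 14, 19, 20], [1, 2, 3, 6, 7, 11, 13, 15, 16, 19], [0, 1, 2, 4, 7, 10,
  12, 16, 17, 20], [0, 2, 3, 5, 8, 10, 11, 15, 18, 20], [2, 4, 5, 6, 9, 11, 12, 14, 15, 17], [3, 4,
  5, 7, 8, 12, 13, 16, 17, 20], [0, 2, 4, 7, 10, 11, 13, 15, 19, 20], [0, 5, 6, 8, 10, 11, 12, 14,
  15, 16], [1, 2, 5, 8, 9, 10, 13, 14, 18, 20], [2, 3, 6, 7, 8, 9, 11, 14, 17, 19], [1, 4, 6, 7, 9,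
  10, 12, 15, 17, 18], [0, 1, 3, 9, 11, 12, 13, 16, 18, 19], [2, 3, 6, 10, 11, 12, 14, 15, 19, 20],
  [1, 5, 6, 7, 9, 11, 14, 17, 18, 20], [0, 1, 2, 7, 12, 13, 15, 17, 18, 19], [0, 4, 6, 8, 9, 12, 15,
  16, 17, 20], [0, 3, 5, 9, 10, 13, 14, 15, 16, 18], [1, 3, 4, 8, 11, 13, 14, 16, 17, 19], [2, 4, 5,
  7, 8, 10, 16, 18, 19, 20]], [[0, 3, 5, 6, 10, 12, 13, 15, 16, 18], [0, 1, 4, 6, 7, 9, 12, 17, 18,
  20], [0, 2, 4, 5, 7, 8, 10, 15, 19, 20], [1, 3, 4, 5, 8, 9, 13, 14, 16, 20], [0, 1, 2, 3, 7, 11,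
  13, 16, 17, 19], [2, 3, 4, 6, 8, 11, 12, 14, 15, 17], [1, 2, 5, 6, 9, 10, 11, 14, 18, 19], [1, 2,
  4, 7, 10, 12, 13, 17, 19, 20], [3, 4, 6, 7, 8, 11, 13, 14, 16, 19], [1, 5, 6, 7, 9, 11, 12, 14,
  15, 17], [0, 2, 6, 8, 10, 11, 12, 15, 16, 20], [2, 3, 5, 7, 8, 9, 10, 14, 18, 20], [0, 1, 3, 9,
  10, 11, 13, 15, 18, 19], [0, 4, 5, 8, 9, 12, 13, 16, 17, 18], [3, 5, 6, 8, 9, 11, 14, 17, 19, 20],
  [0, 2, 5, 10, 11, 13, 14, 15, 18, 20], [0, 1, 3, 8, 12, 13, 14, 16, 18, 19], [1, 2, 6, 7, 9, 13,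
  15, 17, 18, 19], [0, 4, 6, 9, 10, 12, 14, 15, 16, 17], [1, 4, 5, 7, 8, 10, 16, 17, 18, 20], [2, 3,
  4, 7, 11, 12, 15, 16, 19, 20]]]

def inner (k a b : ℕ) : Prop := b ∈ (tab.getD k []).getD a []

instance (k a b : ℕ) : Decidable (inner k a b) := by unfold inner; infer_instance

def In (k n : ℕ) (s : ℕ → ℕ) : Prop :=
  ∀ t < n, ¬ inner k (s t) t ∧ ∀ u < n, t ≠ u → (inner k (s t) u ↔ ¬ inner k (s u) t)

instance (k n : ℕ) (s : ℕ → ℕ) : Decidable (In k n s) := by unfold In; infer_instance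

def rot (τ : Bool) (x : ℕ) : ℕ := (x + bif τ then 1 else 2) % 3

def fan (j p : ℕ) : ℕ := ([[0, 1, 2, 3, 4, 5, 6], [0, 2, 4, 5, 1, 6, 3], [1, 3, 4, 0, 5, 2, 6],
  [1, 5, 2, 4, 6, 0, 3], [2, 3, 6, 4, 1, 5, 0], [2, 5, 3, 0, 4, 6, 1], [4, 1, 3, 5, 6, 2, 0],
  [4, 2, 6, 3, 5, 0, 1]].getD j []).getD p 0

def gad (e : Bool) (j t : ℕ) : ℕ :=
  (t / 7 + bif e then 2 else 1) % 3 * 7 + ((List.range 7).map (fan j)).idxOf (t % 7)

def tri (b : Bool) (t x : ℕ) : Prop := (b = true ∧ t / 7 = x) ∨ (b = false ∧ (t / 7 + x) % 3 = 0)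

instance (b : Bool) (t x : ℕ) : Decidable (tri b t x) := by unfold tri; infer_instance

def ext (k m : ℕ) : ℕ → List (List ℕ)
  | 0 => [[]]
  | n + 1 => (ext k m n).flatMap fun l => ((List.range m).map fun a => l ++ [a]).filter fun l =>
    decide (In k (n + 1) fun t => l.getD t 0)

lemma In.congr {k n : ℕ} {s r : ℕ → ℕ} (h : In k n s) (e : ∀ t < n, s t = r t) : In k n r :=
  fun t ht => ⟨e t ht ▸ (h t ht).1, fun u hu d => e t ht ▸ e u hu ▸ (h t ht).2 u hu d⟩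

lemma mem_ext {k m : ℕ} {s : ℕ → ℕ} (h : In k m s) (b : ∀ t < m, s t < m) :
    ∀ n ≤ m, (List.range n).map s ∈ ext k m n := fun n hn => by
  induction n with
  | zero => simp [ext]
  | succ n ih =>
    simp only [ext, List.mem_flatMap, List.mem_filter, List.mem_map, List.mem_range, decide_eq_true_eq]
    exact ⟨_, ih (by omega), ⟨_, b n hn, by simp [List.range_succ]⟩,
      In.congr (fun t ht => ⟨(h t (by omega)).1, fun u hu => (h t (by omega)).2 u (by omega)⟩)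
        fun t ht => (getD_range_map _ _ _).trans (if_pos ht) |>.symm⟩

lemma f1 {s : ℕ → ℕ} (h : In 0 3 s) (b : ∀ t < 3, s t < 3) : ∃ τ, ∀ x < 3, s x = rot τ x := by
  have : ∀ l ∈ ext 0 3 3, ∃ τ, l = (List.range 3).map (rot τ) := by decide +kernel
  simpa using this _ (mem_ext h b 3 le_rfl)

lemma f2 {s : ℕ → ℕ} (h : In 1 7 s) (b : ∀ t < 7, s t < 7) : ∃ j < 8, ∀ x < 7, s x = fan j x := by
  have : ∀ l ∈ ext 1 7 7, ∃ j < 8, l = (List.range 7).map (fan j) := by decide +kernel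
  simpa only [List.map_inj_left, List.mem_range] using this _ (mem_ext h b 7 le_rfl)

lemma f3 : ∀ c < 3, ∀ e : Bool, ∀ j < 8, In (c + 2) 21 (gad e j) ↔ (j < 3 ∧ (e = true ↔ j = c)) := by
  decide +kernel

set_option synthInstance.maxSize 1024 in
lemma f4 : ∀ τ b : Bool, ∀ j < 8, ∀ t < 21, ∀ u < 21, ((∀ x < 3, tri b u x ↔ tri b t (rot τ x)) ∧
    ∀ p < 7, u % 7 = p ↔ t % 7 = fan j p) ↔ u = gad (τ == b) j t := by
  decide +kernel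

lemma f5 : (∀ τ, In 0 3 (rot τ) ∧ ∀ t < 3, rot τ t < 3) ∧
    ∀ j < 8, In 1 7 (fan j) ∧ (∀ t < 7, fan j t < 7) ∧ ∀ e, ∀ t < 21, gad e j t < 21 := by
  decide +kernel

end Pool.Agent.Cx.Nlt
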