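import Pool.Agent.Lib.helper9.GsmB
import Pool.Agent.Lib.helper9.NltA

/-! Three-sided matching instances built from 3SAT formulas. -/

namespace Pool.Agent.Cx.Gsm

open Nlt

abbrev T := ℕ × ℕ × ℕ × ℕ

def lt (φ : List Cl) (g j : ℕ) : Lit := lit (φ.getD j default) g

def ok (φ : List Cl) (p : T) : Prop := p.1 < size φ + 1 ∧ p.2.1 < 12 * φ.length + 12 ∧
  ((p.2.2.1 = 0 ∧ p.2.2.2 = 0) ∨ (p.2.2.1 < 3 ∧ 0 < p.2.2.2 ∧ p.2.2.2 < 4))

def Fp (φ : List Cl) (g i j : ℕ) : Prop :=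
  (g ≠ 2 ∧ (j = i + 1 ∨ (i + 1 = 12 * φ.length + 12 ∧ j = 0))) ∨
    (g = 2 ∧ (i = j + 2 ∨ i + 12 * φ.length + 12 = j + 2))

def cl (φ : List Cl) (g : ℕ) (p : T) : Prop :=
  p.2.1 % 12 = 5 * g ∧ p.2.1 / 12 < φ.length ∧ p.1 = (lt φ g (p.2.1 / 12)).1

def acc (φ : List Cl) (g : ℕ) (p q : T) : Prop :=
  (q.1 = p.1 ∧ (q.2.1 = p.2.1 ∨ Fp φ g p.2.1 q.2.1)) ∨
    (cl φ g p ∧ cl φ ((g + 1) % 3) q ∧ q.2.1 / 12 = p.2.1 / 12)

def pol (φ : List Cl) (g i : ℕ) : Prop :=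
  (i % 12 = 5 * g ∧ (lt φ g (i / 12)).2 = true) ∨ (i % 12 ≠ 5 * g ∧ i % 3 = (5 * g + 2) % 3)

instance (φ : List Cl) : DecidablePred (ok φ) := fun _ => by unfold ok; infer_instance
instance (φ : List Cl) (g : ℕ) : DecidableRel (acc φ g) := fun _ _ => by
  unfold acc cl Fp; infer_instance
instance (φ : List Cl) (g : ℕ) : DecidablePred (pol φ g) := fun _ => by unfold pol; infer_instance

def rk (φ : List Cl) (g i j : ℕ) : ℕ :=
  if j % 3 = (i + 2) % 3 then 1 else if (j = i ↔ pol φ g i) then 0 else 2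

def loc (v i k : ℕ) (q : T) : ℕ := if q.1 = v ∧ q.2.1 = i ∧ q.2.2.1 = k then q.2.2.2 else 4

def r1 (φ : List Cl) (g : ℕ) (p q : T) : ℕ :=
  if p.2.2.2 = 0 ∧ q.2.2.2 = 0 ∧ acc φ g p q then rk φ g p.2.1 q.2.1
  else 3 + tb p.2.2.1 p.2.2.2 (loc p.1 p.2.1 ((p.2.2.1 + 1) % 3) q)

def r2 (p q : T) : ℕ := tb (p.2.2.1 + 3) p.2.2.2 (loc p.1 p.2.1 ((p.2.2.1 + 2) % 3) q)

def S (φ : List Cl) (g : ℕ) (p q q' s s' : T) : Prop :=
  r1 φ g p q < r1 φ g p q' ∨ (q = q' ∧ r2 p s < r2 p s')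

def W (φ : List Cl) (g : ℕ) (p q q' s s' : T) : Prop :=
  (q ≠ q' ∧ r1 φ g p q ≤ r1 φ g p q') ∨ (q = q' ∧ s ≠ s' ∧ r2 p s ≤ r2 p s')

def Mt (φ : List Cl) (a b c : T → T) : Prop := ∀ p, ok φ p → ok φ (a p) ∧ c (b (a p)) = p

def NB (φ : List Cl) (R : ℕ → T → T → T → T → T → Prop) (g h k : ℕ) (a b c : T → T) : Prop :=
  ∀ p q s, ok φ p → ok φ q → ok φ s → ¬ (R g p q (a p) s (b (a p)) ∧ R h q s (b q) p (c (b q)) ∧
    R k s p (c s) q (a (c s)))

variable {φ : List Cl} {a b c : T → T} {v i k y g h l : ℕ} {p q s : T}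

lemma ok0 : ok φ (v, i, 0, 0) ↔ v < size φ + 1 ∧ i < 12 * φ.length + 12 := by simp [ok]

lemma loc_iff (e : y < 4) : loc v i k q = y ↔ q = (v, i, k, y) := by
  simp only [loc, Prod.ext_iff]; split_ifs <;> omega

lemma loc_lt (e : ok φ q) : loc v i k q < 5 ∧ (k ≠ 0 → 0 < loc v i k q) := by
  unfold loc ok at *; split_ifs <;> omega

lemma pi_loc {f f' : T → T} (o : ok φ (v, i, 0, 0)) (hk : k < 3) (hl : l < 3) (h0 : l ≠ 0)
    (e : ∀ p, ok φ p → ok φ (f p) ∧ f' (f p) = p) (e' : ∀ p, ok φ p → ok φ (f' p) ∧ f (f' p) = p) :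
    PI (fun m => if k ≠ 0 ∧ m = 0 then 4 else loc v i l (f (v, i, k, m)))
      fun w => if w = 0 then 0 else loc v i k (f' (v, i, l, w)) := by
  have o1 : ∀ m < 4, ¬ (k ≠ 0 ∧ m = 0) → ok φ (v, i, k, m) := fun m a b => by
    unfold ok at *; simp only at *; omega
  refine ⟨fun m hm => ?_, rfl, fun w hw h => ?_⟩
  · simp only
    split_ifs with c
    · omega
    · have := loc_lt (v := v) (i := i) (k := l) (e _ (o1 m hm c)).1; omega
  have o2 : ok φ (v, i, l, w) := by unfold ok at *; simp only at *; omega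
  have := loc_lt (v := v) (i := i) (k := k) (e' _ o2).1
  simp only [h.ne', if_false]
  refine ⟨this.1, fun m hm => ?_⟩
  split_ifs with c
  · omega
  · rw [loc_iff hw, loc_iff hm]
    exact ⟨fun d => d ▸ (e _ (o1 m hm c)).2, fun d => d ▸ (e' _ o2).2⟩

lemma S_of {x z : ℕ} {q' s' : T} (hk : k < 3) (hx : x < 4) (hy : y < 4) (hz : z < 4) (o : ok φ q')
    (o' : ok φ s') (c : ¬ (x = 0 ∧ y = 0)) (d : ¬ (x = 0 ∧ q'.2.2.2 = 0 ∧ acc φ g (v, i, k, x) q'))
    (e : Imp k x y z (loc v i ((k + 1) % 3) q') (loc v i ((k + 2) % 3) s')) :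
    S φ g (v, i, k, x) (v, i, (k + 1) % 3, y) q' (v, i, (k + 2) % 3, z) s' := by
  simp only [S, r1, r2, d, if_false, ← and_assoc, c, false_and, (loc_iff hy).2 rfl, (loc_iff hz).2 rfl]
  rw [tb_eq _ (by omega) _ hx _ (by omega), tb_eq _ (by omega) _ hx _ (loc_lt o).1,
    tb_eq _ (by omega) _ hx _ (by omega), tb_eq _ (by omega) _ hx _ (loc_lt o').1]
  exact e.imp (by omega) fun e => ⟨((loc_iff hy).1 e.1.symm).symm, e.2⟩

lemma guard (m1 : Mt φ a b c) (m2 : Mt φ b c a) (m3 : Mt φ c a b) (n : NB φ (S φ) g h l a b c)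
    (o : ok φ p) (z : p.2.2.2 = 0) : (a p).2.2.2 = 0 ∧ acc φ g p (a p) := by
  obtain ⟨v, i, k, x⟩ := p
  obtain ⟨rfl, rfl⟩ : k = 0 ∧ x = 0 := by unfold ok at o; simp only at *; omega
  by_contra hc
  have o1 : ∀ k < 3, ∀ m < 4, (k = 0 ∨ 0 < m) → ok φ (v, i, k, m) := fun k a m b c => by
    unfold ok at *; simp only at *; omega
  obtain ⟨m, hm, w, hw, d, hd, w0, d0, e1, e2, e3⟩ := fin3
    (pi_loc (k := 0) (l := 1) (f := a) (f' := fun p => c (b p)) o (by omega) (by omega) (by omega) m1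
      fun p o => ⟨(m3 _ (m2 p o).1).1, (m2 p o).2⟩)
    (pi_loc (k := 0) (l := 2) (f := fun p => b (a p)) o (by omega) (by omega) (by omega)
      (fun p o => ⟨(m2 _ (m1 p o).1).1, (m1 p o).2⟩) m3)
    (pi_loc (k := 1) (l := 2) (f := b) (f' := fun p => a (c p)) o (by omega) (by omega) (by omega) m2
      fun p o => ⟨(m1 _ (m3 p o).1).1, (m3 p o).2⟩) rfl fun m hm => by
      have a1 := (m1 _ (o1 0 (by omega) m hm (by omega)))
      have a2 := loc_lt (v := v) (i := i) (k := 1) a1.1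
      have a3 := loc_lt (v := v) (i := i) (k := 2) (m2 _ a1.1).1
      simp only [ne_eq, not_true, false_and, if_false]
      refine ⟨fun e => ?_, fun e => ?_⟩
      · rw [if_neg (by omega), ← (loc_iff (by omega)).1 rfl]
      · rw [if_neg (by omega), ← (loc_iff (by omega)).1 rfl, a1.2]
  simp only [ne_eq, not_true, false_and, if_false, w0.ne', d0.ne', and_false] at e1 e2 e3
  have p1 := o1 0 (by omega) m hm (by omega)
  have p2 := o1 1 (by omega) w hw (by omega)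
  have p3 := o1 2 (by omega) d hd (by omega)
  exact n _ _ _ p1 p2 p3 ⟨S_of (by omega) hm hw hd (m1 _ p1).1 (m2 _ (m1 _ p1).1).1 (by omega)
    (fun e => hc (by obtain rfl := e.1; exact e.2)) e1,
    S_of (by omega) hw hd hm (m2 _ p2).1 (m3 _ (m2 _ p2).1).1 (by omega) (by omega) e2,
    S_of (by omega) hd hm hw (m3 _ p3).1 (m1 _ (m3 _ p3).1).1 (by omega) (by omega) e3⟩

lemma tri (o : ok φ p) (o' : ok φ q) (o'' : ok φ s) (a : acc φ 0 p q) (b : acc φ 1 q s)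
    (c : acc φ 2 s p) : (q.1 = p.1 ∧ s.1 = p.1 ∧ ((q.2.1 = p.2.1 ∧ s.2.1 = p.2.1) ∨
      (Fp φ 0 p.2.1 q.2.1 ∧ Fp φ 1 q.2.1 s.2.1 ∧ Fp φ 2 s.2.1 p.2.1))) ∨
    (cl φ 0 p ∧ cl φ 1 q ∧ cl φ 2 s ∧ q.2.1 / 12 = p.2.1 / 12 ∧ s.2.1 / 12 = p.2.1 / 12) := by
  have := o.2.1; have := o'.2.1; have := o''.2.1
  clear o o' o''
  simp only [acc, Fp, cl, ne_eq, Nat.reduceAdd, Nat.reduceMod, Nat.reduceEqDiff, not_false_eq_true,
    true_and, false_and, or_false, not_true, false_or, OfNat.zero_ne_ofNat] at *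
  rcases a with a | a <;> rcases b with b | b <;> rcases c with c | c <;> omega

lemma lt_lt {j : ℕ} (h : j < φ.length) (g : ℕ) : (lt φ g j).1 < size φ := by
  have := size_lt_of_mem (List.getElem_mem h)
  simp only [lt, lit, List.getD_eq_getElem _ _ h]
  generalize φ[j] = x at *
  obtain ⟨⟨_, _⟩, ⟨_, _⟩, _, _⟩ := x
  simp only [size_pair, size_nat] at this
  split_ifs <;> simp only <;> omega

lemma real_eq (o : ok φ p) (z : p.2.2.2 = 0) : p = (p.1, p.2.1, 0, 0) := by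
  unfold ok at o; simp only [Prod.ext_iff, true_and]; omega

lemma to_sat (m1 : Mt φ a b c) (m2 : Mt φ b c a) (m3 : Mt φ c a b) (n : NB φ (S φ) 0 1 2 a b c) :
    Sat3 φ := by
  classical
  have g1 := fun p => guard (p := p) m1 m2 m3 n
  have g2 := fun p => guard (p := p) (g := 1) (h := 2) (l := 0) m2 m3 m1 fun p q s a b c e =>
    n s p q c a b ⟨e.2.2, e.1, e.2.1⟩
  have g3 := fun p => guard (p := p) (g := 2) (h := 0) (l := 1) m3 m1 m2 fun p q s a b c e =>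
    n q s p b c a ⟨e.2.1, e.2.2, e.1⟩
  have k := fun p (o : ok φ p) z => tri o (m1 p o).1 (m2 _ (m1 p o).1).1 (g1 p o z).2
    (g2 _ (m1 p o).1 (g1 p o z).1).2
    (by simpa only [(m1 p o).2] using (g3 _ (m2 _ (m1 p o).1).1 (g2 _ (m1 p o).1 (g1 p o z).1).1).2)
  have k1 : ∀ p, ok φ p → p.2.2.2 = 0 → ¬ cl φ 0 p ∨ ¬ cl φ 1 (a p) := fun p o z => by
    by_contra! e
    have o0 : ∀ r < 2, ok φ (p.1, p.2.1 + r, 0, 0) := fun r hr =>
      ok0.2 ⟨o.1, by have := e.1.1; have := e.1.2.1; omega⟩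
    have w : ∀ r < 2, b (p.1, p.2.1 + r, 0, 0) = (p.1, p.2.1 + 1, 0, 0) := fun r hr => by
      have o' := o0 r hr
      have o2 := (m2 _ o').1
      have z2 := (g2 _ o' rfl).1
      have := k _ (m3 _ o2).1 (g3 _ o2 z2).1
      have d : c (b (p.1, p.2.1 + r, 0, 0)) ≠ p := fun d => by
        have := (m2 _ o').2; rw [d] at this; rw [this] at e; unfold cl at e; simp only at e; omega
      rw [real_eq (m3 _ o2).1 (g3 _ o2 z2).1, real_eq o z] at d
      rw [(m2 _ o').2] at this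
      rw [real_eq o2 z2]
      have := e.1.1
      have := e.1.2.1
      simp only [Fp, cl, ne_eq, Prod.ext_iff, and_true] at *
      omega
    have := (m2 _ (o0 0 (by omega))).2
    rw [w 0 (by omega), ← w 1 (by omega), (m2 _ (o0 1 (by omega))).2] at this
    simp at this
  have k2 : ∀ v i j, ok φ (v, i, 0, 0) → ok φ (v, j, 0, 0) → Fp φ 0 i j →
      (a (v, i, 0, 0)).2.1 ≠ i → (a (v, j, 0, 0)).2.1 ≠ j := fun v i j o o' e d d' => by
    have a1 := (k _ o rfl).resolve_right fun e => by have := k1 _ o rfl; tauto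
    have a2 := (k _ o' rfl).resolve_right fun e => by have := k1 _ o' rfl; tauto
    have : a (v, i, 0, 0) = a (v, j, 0, 0) := by
      rw [real_eq (m1 _ o).1 (g1 _ o rfl).1, real_eq (m1 _ o').1 (g1 _ o' rfl).1]
      have := o'.2.1
      have := (m1 _ o).1.2.1
      simp only [Fp, Prod.ext_iff, and_true] at *; omega
    have := (m1 _ o).2
    rw [‹a _ = _›, (m1 _ o').2] at this
    simp only [Fp, Prod.ext_iff] at *; omega
  have k3 : ∀ v i r, ok φ (v, i + r, 0, 0) → (a (v, i, 0, 0)).2.1 ≠ i →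
      (a (v, i + r, 0, 0)).2.1 ≠ i + r := fun v i r o d => by
    induction r with
    | zero => exact d
    | succ r ih =>
      have o' : ok φ (v, i + r, 0, 0) := by rw [ok0] at *; omega
      exact k2 v _ _ o' o (by unfold Fp; omega) (ih o')
  have k4 : ∀ p, ok φ p → p.2.2.2 = 0 → ((a p).2.1 = p.2.1 ↔ (a (p.1, 0, 0, 0)).2.1 = 0) :=
    fun p o z => by
      rw [real_eq o z]
      refine ⟨fun e => by_contra fun d => k3 p.1 0 p.2.1 (by simpa [← real_eq o z]) d (by simpa),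
        fun e => by_contra fun d => ?_⟩
      have o' : ok φ (p.1, p.2.1 + (12 * φ.length + 11 - p.2.1), 0, 0) :=
        ok0.2 ⟨o.1, by have := o.2.1; omega⟩
      exact k2 _ _ 0 o' (ok0.2 ⟨o.1, by omega⟩)
        (by have := o.2.1; unfold Fp; omega) (k3 _ _ _ o' d) e
  have k5 : ∀ p, ok φ p → p.2.2.2 = 0 → ∀ t : Prop, (t ↔ (a (p.1, 0, 0, 0)).2.1 = 0) →
      (a p).1 = p.1 ∧ (b (a p)).1 = p.1 ∧ ((a p).2.1 = p.2.1 ↔ t) ∧ ((b (a p)).2.1 = (a p).2.1 ↔ t) ∧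
      (p.2.1 = (b (a p)).2.1 ↔ t) ∧ (a p).2.1 % 3 ≠ (p.2.1 + 2) % 3 ∧
      (b (a p)).2.1 % 3 ≠ ((a p).2.1 + 2) % 3 ∧ p.2.1 % 3 ≠ ((b (a p)).2.1 + 2) % 3 := by
    intro p o z t ht
    have a1 := (k _ o z).resolve_right fun e => by have := k1 _ o z; tauto
    simp only [ht, ← k4 p o z, Fp, true_and] at a1 ⊢
    omega
  refine ⟨fun v => decide ((a (v, 0, 0, 0)).2.1 = 0), fun x hx => ?_⟩
  obtain ⟨j, hj, rfl⟩ := List.getElem_of_mem hx
  by_contra! e
  have o : ∀ g < 3, ok φ ((lt φ g j).1, 12 * j + 5 * g, 0, 0) := fun g hg => by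
    have := lt_lt hj g; rw [ok0]; omega
  have f : ∀ g < 3, ∀ q s s', q.2.2.2 = 0 → acc φ g ((lt φ g j).1, 12 * j + 5 * g, 0, 0) q →
      (q.2.1 = 12 * j + 5 * g ↔ (a ((lt φ g j).1, 0, 0, 0)).2.1 = 0) →
      q.2.1 % 3 ≠ (12 * j + 5 * g + 2) % 3 → S φ g ((lt φ g j).1, 12 * j + 5 * g, 0, 0)
        ((lt φ ((g + 1) % 3) j).1, 12 * j + 5 * ((g + 1) % 3), 0, 0) q s s' := by
    intro g hg q s s' a1 a2 a3 a4
    have d : ∀ g < 3, (12 * j + 5 * g) / 12 = j ∧ (12 * j + 5 * g) % 12 = 5 * g := by intros; omega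
    have : acc φ g ((lt φ g j).1, 12 * j + 5 * g, 0, 0)
        ((lt φ ((g + 1) % 3) j).1, 12 * j + 5 * ((g + 1) % 3), 0, 0) :=
      Or.inr (by simp [cl, d g hg, d _ (Nat.mod_lt (g + 1) three_pos), hj])
    have e' : decide ((a ((lt φ g j).1, 0, 0, 0)).2.1 = 0) ≠ (lt φ g j).2 := by
      simp only [lt, lit, List.getD_eq_getElem _ _ hj]
      interval_cases g
      exacts [e.1, e.2.1, e.2.2]
    refine Or.inl ?_
    simp only [r1, rk, a1, a2, this, a3, a4, pol, d g hg, and_self, if_true, if_false, true_and,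
      ne_eq, not_true, false_and, or_false]
    rw [if_pos (by omega), if_neg fun c => e' (by simp [c])]
    omega
  refine n _ _ _ (o 0 (by omega)) (o 1 (by omega)) (o 2 (by omega)) ⟨?_, ?_, ?_⟩
  · have o := o 0 (by omega)
    have := k5 _ o rfl _ Iff.rfl
    exact f 0 (by omega) _ _ _ (g1 _ o rfl).1 (g1 _ o rfl).2 this.2.2.1 this.2.2.2.2.2.1
  · have o := o 1 (by omega)
    have := k5 _ (m3 _ (m2 _ o).1).1 (g3 _ (m2 _ o).1 (g2 _ o rfl).1).1 _ Iff.rfl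
    rw [(m2 _ o).2] at this
    exact f 1 (by omega) _ _ _ (g2 _ o rfl).1 (g2 _ o rfl).2 (by simpa only [← this.1] using this.2.2.2.1)
      this.2.2.2.2.2.2.1
  · have o := o 2 (by omega)
    have := k5 _ (m3 _ o).1 (g3 _ o rfl).1 _ Iff.rfl
    rw [(m3 _ o).2] at this
    exact f 2 (by omega) _ _ _ (g3 _ o rfl).1 (g3 _ o rfl).2 (by simpa only [← this.2.1] using this.2.2.2.2.1)
      this.2.2.2.2.2.2.2

def mu (φ : List Cl) (τ : ℕ → Bool) (g : ℕ) (p : T) : T :=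
  if p.2.2.2 = 0 then (p.1, if τ p.1 then p.2.1 else if g = 2 then (if 2 ≤ p.2.1 then p.2.1 - 2 else
    p.2.1 + 12 * φ.length + 10) else if p.2.1 + 1 = 12 * φ.length + 12 then 0 else p.2.1 + 1, 0, 0)
  else (p.1, p.2.1, (p.2.2.1 + 1) % 3, nx p.2.2.1 p.2.2.2)

variable {τ : ℕ → Bool}

lemma mu_mt (hg : g < 3) : Mt φ (mu φ τ g) (mu φ τ ((g + 1) % 3)) (mu φ τ ((g + 2) % 3)) := by
  rintro ⟨v, i, k, x⟩ o
  by_cases z : x = 0
  · obtain rfl : k = 0 := by unfold ok at o; simp only at *; omega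
    subst z
    rw [ok0] at o
    simp only [mu, if_true, ok0, Prod.ext_iff, and_true, true_and, o.1]
    cases τ v
    · simp only [Bool.false_eq_true, if_false]; split_ifs <;> omega
    · simp [o.2]
  · have hk : k < 3 ∧ x < 4 := by unfold ok at o; simp only at *; omega
    have a := (fin4 k hk.1 x hk.2 (by omega)).1
    have b := (fin4 _ (Nat.mod_lt (k + 1) three_pos) _ a.2.1 a.1).1
    simp only [mu, z, a.1.ne', b.1.ne', if_false, Prod.ext_iff, true_and]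
    rw [show ((k + 1) % 3 + 1) % 3 = (k + 2) % 3 by omega]
    exact ⟨⟨o.1, o.2.1, Or.inr ⟨Nat.mod_lt _ three_pos, a.1, a.2.1⟩⟩, by omega, a.2.2.2⟩

lemma W_real {s' : T} (o : ok φ p) (z : p.2.2.2 = 0) (e : W φ g p q (mu φ τ g p) s s') :
    q.2.2.2 = 0 ∧ acc φ g p q ∧ ((τ p.1 = true ↔ pol φ g p.2.1) →
      q.2.1 % 3 ≠ (p.2.1 + 2) % 3 ∧ (q.2.1 = p.2.1 ↔ pol φ g p.2.1)) := by
  have e' : r1 φ g p q ≤ r1 φ g p (mu φ τ g p) := e.elim (·.2) fun e => e.1 ▸ le_rfl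
  have := o.2.1
  have a : acc φ g p (mu φ τ g p) ∧ ((mu φ τ g p).2.1 = p.2.1 ↔ τ p.1 = true) ∧
      (mu φ τ g p).2.1 % 3 ≠ (p.2.1 + 2) % 3 := by
    simp only [mu, z, if_true, acc, Fp, true_and]
    cases τ p.1
    · simp only [Bool.false_eq_true, if_false, iff_false]
      exact ⟨Or.inl (by split_ifs <;> omega), by split_ifs <;> omega⟩
    · simp; omega
  have b : (mu φ τ g p).2.2.2 = 0 := by simp [mu, z]
  simp only [r1, rk, z, b, a, and_self, if_true, if_false, true_and] at e'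
  by_cases c : q.2.2.2 = 0 ∧ acc φ g p q
  · refine ⟨c.1, c.2, fun d => ?_⟩
    simp only [c, d, and_self, if_true] at e'
    split_ifs at e' with d1 d2
    exacts [by omega, ⟨d1, d2⟩, by omega]
  · rw [if_neg c] at e'; split_ifs at e' <;> omega

lemma W_gad {x : ℕ} {s' : T} (hk : k < 3) (hx : x < 4) (z : 0 < x) (o : ok φ q)
    (e : W φ g (v, i, k, x) q (mu φ τ g (v, i, k, x)) s s') :
    ∃ y < 4, q = (v, i, (k + 1) % 3, y) := by
  have e' : r1 φ g _ q ≤ r1 φ g _ (mu φ τ g _) := e.elim (·.2) fun e => e.1 ▸ le_rfl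
  have a := (fin4 k hk x hx z).1
  have b : ∀ k < 3, ∀ x < 4, tb k x 4 = 6 := by decide +kernel
  have c := (loc_lt (v := v) (i := i) (k := (k + 1) % 3) o).1
  simp only [r1, mu, z.ne', false_and, if_false, (loc_iff a.2.1).2 rfl] at e'
  have : loc v i ((k + 1) % 3) q ≠ 4 := fun d => by rw [d, b k hk x hx] at e'; omega
  exact ⟨_, by omega, (loc_iff (by omega)).1 rfl⟩

lemma W_wk {x y z h : ℕ} (hk : k < 3) (hx : x < 4) (x0 : 0 < x) (hy : y < 4) (hz : z < 4)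
    (e : W φ g (v, i, k, x) (v, i, (k + 1) % 3, y) (mu φ τ g (v, i, k, x)) (v, i, (k + 2) % 3, z)
      (mu φ τ h (mu φ τ g (v, i, k, x)))) : Wk k x y z := by
  have a := (fin4 k hk x hx x0).1
  have b := (fin4 _ (Nat.mod_lt (k + 1) three_pos) _ a.2.1 a.1).1
  have c : ((k + 1) % 3 + 1) % 3 = (k + 2) % 3 := by omega
  simp only [W, r1, r2, mu, x0.ne', a.1.ne', false_and, if_false, c, (loc_iff a.2.1).2 rfl, ne_eq,
    (loc_iff b.2.1).2 rfl, (loc_iff hy).2 rfl, (loc_iff hz).2 rfl, Prod.ext_iff, true_and] at e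
  exact e.elim (fun e => Or.inl ⟨e.1, by omega⟩) fun e => Or.inr ⟨e.1, e.1 ▸ e.2⟩

lemma of_sat (h : Sat3 φ) : ∃ a b c, Mt φ a b c ∧ Mt φ b c a ∧ Mt φ c a b ∧ NB φ (W φ) 0 1 2 a b c := by
  obtain ⟨τ, h⟩ := h
  refine ⟨_, _, _, mu_mt (g := 0) (τ := τ) (by omega), mu_mt (g := 1) (by omega),
    mu_mt (g := 2) (by omega), fun p q s o o' o'' ⟨e1, e2, e3⟩ => ?_⟩
  by_cases z : p.2.2.2 = 0
  · obtain ⟨a1, a2, a3⟩ := W_real o z e1
    obtain ⟨b1, b2, b3⟩ := W_real o' a1 e2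
    obtain ⟨-, c2, c3⟩ := W_real o'' b1 e3
    rcases tri o o' o'' a2 b2 c2 with ⟨d1, d2, d⟩ | d
    · have f : ¬ (τ p.1 = true ↔ q.2.1 = p.2.1) := fun f => by
        have f1 : mu φ τ 0 p = q ∧ mu φ τ 1 q = s := by
          have := o'.2.1; have := o''.2.1
          rw [real_eq o' a1, real_eq o'' b1]
          simp only [mu, z, if_true, Prod.ext_iff, and_true, d1, d2, true_and, f, Fp,
            OfNat.zero_ne_ofNat, Nat.reduceEqDiff, if_false] at d ⊢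
          constructor <;> split_ifs <;> omega
        simp [W, f1] at e1
      have t1 : ∀ g i, i % 3 = (5 * g + 1) % 3 → ¬ pol φ g i := fun g i e c => by
        unfold pol at c; omega
      have t2 : ∀ g i, i % 3 = (5 * g + 2) % 3 → pol φ g i := fun g i e => Or.inr (by omega)
      rw [d1] at b3
      rw [d2] at c3
      rcases d with d | d
      · simp only [d.1, d.2, iff_true, true_iff] at f a3 b3 c3
        simp only [f, Bool.false_eq_true, false_iff] at a3 b3 c3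
        obtain c | c | c : p.2.1 % 3 = 1 ∨ p.2.1 % 3 = 0 ∨ p.2.1 % 3 = 2 := by omega
        exacts [t1 0 _ c (a3 (t1 0 _ c)).2, t1 1 _ c (b3 (t1 1 _ c)).2, t1 2 _ c (c3 (t1 2 _ c)).2]
      · unfold Fp at d
        have f : τ p.1 = true := by_contra fun c => f ⟨fun e => absurd e c, by omega⟩
        simp only [f, true_iff] at a3 b3 c3
        obtain c | c | c : p.2.1 % 3 = 2 ∨ q.2.1 % 3 = 1 ∨ s.2.1 % 3 = 0 := by omega
        · have := (a3 (t2 0 _ c)).2.2 (t2 0 _ c); omega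
        · have := (b3 (t2 1 _ c)).2.2 (t2 1 _ c); omega
        · have := (c3 (t2 2 _ c)).2.2 (t2 2 _ c); omega
    · have t : ∀ g p, cl φ g p → τ (lt φ g (p.2.1 / 12)).1 = (lt φ g (p.2.1 / 12)).2 →
          (τ p.1 = true ↔ pol φ g p.2.1) := fun g p c e => by simp [pol, c.1, c.2.2, e]
      have j := d.1.2.1
      have := d.1.1
      have := d.2.1.1
      have := d.2.2.1.1
      rcases h _ (List.getElem_mem j) with e | e | e
      · exact (a3 (t 0 p d.1 (by simpa [lt, lit, j] using e))).1 (by omega)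
      · exact (b3 (t 1 q d.2.1 (by simpa [lt, lit, j, d.2.2.2.1] using e))).1 (by omega)
      · exact (c3 (t 2 s d.2.2.1 (by simpa [lt, lit, j, d.2.2.2.2] using e))).1 (by omega)
  · obtain ⟨v, i, k, x⟩ := p
    have hk : k < 3 ∧ x < 4 := by unfold ok at o; simp only at *; omega
    have x0 : 0 < x := Nat.pos_of_ne_zero z
    obtain ⟨y, hy, rfl⟩ := W_gad hk.1 hk.2 x0 o' e1
    have y0 : 0 < y := Nat.pos_of_ne_zero fun c =>
      z (W_real o'' (W_real o' c e2).1 e3).1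
    obtain ⟨u, hu, rfl⟩ := W_gad (Nat.mod_lt _ three_pos) hy y0 o'' e2
    have u0 : 0 < u := Nat.pos_of_ne_zero fun c => z (W_real o'' c e3).1
    have c1 : ((k + 1) % 3 + 1) % 3 = (k + 2) % 3 := by omega
    have c2 : ((k + 1) % 3 + 2) % 3 = k := by omega
    have c3 : ((k + 2) % 3 + 1) % 3 = k := by omega
    have c4 : ((k + 2) % 3 + 2) % 3 = (k + 1) % 3 := by omega
    rw [c1] at e1 e3
    exact (fin4 k hk.1 x hk.2 x0).2 y hy y0 u hu u0 ⟨W_wk hk.1 hk.2 x0 hy hu e1,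
      W_wk (Nat.mod_lt _ three_pos) hy y0 hu hk.2 (by rwa [c2]),
      W_wk (Nat.mod_lt _ three_pos) hu u0 hk.2 hy (by rwa [c3, c4])⟩

end Pool.Agent.Cx.Gsm
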