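import Pool.Agent.Lib.helper10.Kit2

/-! Lemmas on concatenated lists. -/

namespace Pool.Agent.Cx

open List

variable {α β : Type}

lemma head_fm {l : List α} {f : α → List β} {y : β} (h : y ∈ (l.flatMap f).head?) :
    ∃ b ∈ l, y ∈ (f b).head? := by
  rw [head?_flatMap] at h
  exact exists_of_findSome?_eq_some h

lemma last_fm {l : List α} {f : α → List β} {y : β} (h : y ∈ (l.flatMap f).getLast?) :
    ∃ b ∈ l, y ∈ (f b).getLast? := by
  rw [getLast?_flatMap] at h
  simpa using exists_of_findSome?_eq_some h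

lemma chain_fm {l : List α} (nd : l.Nodup) {f : α → List β} {R : β → β → Prop}
    (h1 : ∀ a ∈ l, IsChain R (f a))
    (h2 : ∀ a ∈ l, ∀ b ∈ l, a ≠ b → ∀ x ∈ (f a).getLast?, ∀ y ∈ (f b).head?, R x y) :
    IsChain R (l.flatMap f) := by
  induction l with
  | nil => simp
  | cons a l ih =>
    rw [nodup_cons] at nd
    refine (h1 a (by simp)).append (ih nd.2 (fun b hb => h1 b (by simp [hb]))
      fun b hb c hc => h2 b (by simp [hb]) c (by simp [hc])) fun x hx y hy => ?_
    obtain ⟨b, b1, b2⟩ := head_fm hy
    exact h2 a (by simp) b (by simp [b1]) (by rintro rfl; exact nd.1 b1) x hx y b2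

lemma nodup_fm {l : List α} (nd : l.Nodup) {f : α → List β} (g : β → α) (h1 : ∀ a ∈ l, (f a).Nodup)
    (h2 : ∀ a ∈ l, ∀ x ∈ f a, g x = a) : (l.flatMap f).Nodup :=
  nodup_flatMap.2 ⟨h1, nd.pairwise_of_forall_ne fun a ha b hb e x x1 x2 =>
    e ((h2 a ha x x1).symm.trans (h2 b hb x x2))⟩

lemma infix_fm {l : List α} {f : α → List β} {a : α} (h : a ∈ l) : f a <:+: l.flatMap f :=
  infix_of_mem_flatten (mem_map_of_mem h)

lemma infix_pair_iff {P : List α} {u v : α} : [u, v] <:+: P ↔ (u, v) ∈ P.zip P.tail := by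
  induction P with
  | nil => simp
  | cons a P ih =>
    rw [infix_cons_iff, ih]
    cases P <;> simp [cons_prefix_cons]

lemma succ_uniq {P : List α} (nd : P.Nodup) {u v w : α} (h : [u, v] <:+: P) (h' : [u, w] <:+: P) :
    v = w := by
  induction P with
  | nil => simp at h
  | cons a P ih =>
    rw [nodup_cons] at nd
    rw [infix_cons_iff] at h h'
    rcases h with h | h <;> rcases h' with h' | h'
    · cases P <;> simp_all [cons_prefix_cons]
    · exact absurd (h'.subset (by simp [(cons_prefix_cons.1 h).1])) nd.1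
    · exact absurd (h.subset (by simp [(cons_prefix_cons.1 h').1])) nd.1
    · exact ih nd.2 h h'

lemma pred_uniq {P : List α} (nd : P.Nodup) {u v w : α} (h : [v, u] <:+: P) (h' : [w, u] <:+: P) :
    v = w :=
  succ_uniq (nodup_reverse.2 nd) (u := u) (by simpa using h.reverse) (by simpa using h'.reverse)

lemma PT.idxOf' [Enc α] [Enc β] [Dec β] [BEq β] [LawfulBEq β] {x : α → β} {l : α → List β} (hx : PT x)
    (hl : PT l) : PT fun a => (l a).idxOf (x a) := by
  classical
  have e : ∀ (x : β) (l : List β),
      l.idxOf x = (List.range l.length).countP fun i => decide (¬ x ∈ l.take (i + 1)) := fun x l => by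
    induction l with
    | nil => simp
    | cons b l ih =>
      rw [List.length_cons, List.range_succ_eq_map, List.countP_cons, List.countP_map, List.idxOf_cons]
      by_cases h : b = x
      · simp [h]
      · simp [h, Ne.symm h, ih, Function.comp_def, Bool.cond_eq_ite]
  exact (PT.countP (PP.decide (by fun_prop)) (by fun_prop)).of_eq fun a => e _ _

lemma map_idxOf [BEq α] [LawfulBEq α] {P : List α} (nd : P.Nodup) (k : ℕ) :
    P.map (fun x => P.idxOf x + k) = range' k P.length := by
  refine ext_getElem (by simp) fun i h1 h2 => ?_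
  simp [nd.idxOf_getElem, add_comm]

end Pool.Agent.Cx
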