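import Mathlib

set_option autoImplicit false

namespace H9M

open Finset MeasureTheory
open scoped ENNReal

variable {X : Type} [MetricSpace X]

def Lam (F : Set (Finset ℕ)) : Prop := ∀ S ∈ F, ∀ T ∈ F, S ⊆ T ∨ T ⊆ S ∨ Disjoint S T

def Sat (A : Finset ℕ) (p : ℕ → X) (F : Set (Finset ℕ)) : Prop :=
  ∀ S ∈ F, S ⊆ A ∧ ∀ a ∈ S, ∀ b ∈ A, p b = p a → b ∈ S

def Fine (F : Set (Finset ℕ)) (u : ℕ → X → ℝ) : Prop :=
  ∀ S ∈ F, ∀ x y : X, ∑ i ∈ S, (u i x - u i y) ≤ dist x y

open Classical in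
def Fib (A : Finset ℕ) (p : ℕ → X) : Set (Finset ℕ) := {S | ∃ i ∈ A, S = A.filter (p · = p i)}

lemma sat_fib (A : Finset ℕ) (p : ℕ → X) : Sat A p (Fib A p) := by
  classical
  rintro _ ⟨i, -, rfl⟩
  refine ⟨filter_subset _ _, fun a ha b hb h => ?_⟩
  simp only [mem_filter] at ha ⊢
  exact ⟨hb, h.trans ha.2⟩

lemma lam_union {A : Finset ℕ} {p : ℕ → X} {F : Set (Finset ℕ)} (hF : Lam F) (hS : Sat A p F) :
    Lam (F ∪ Fib A p) := by
  have key : ∀ G : Set (Finset ℕ), Sat A p G → ∀ S ∈ G, ∀ T ∈ Fib A p, T ⊆ S ∨ Disjoint S T := by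
    rintro G hG S hS' _ ⟨i, -, rfl⟩
    rw [or_iff_not_imp_right, not_disjoint_iff]
    rintro ⟨a, ha, ha'⟩ b hb
    simp only [mem_filter] at ha' hb
    exact (hG S hS').2 a ha b hb.1 (hb.2.trans ha'.2.symm)
  rintro S (hS' | hS') T (hT | hT)
  · exact hF S hS' T hT
  · exact Or.inr (key F hS S hS' T hT)
  · rcases key F hS T hT S hS' with h | h
    · exact Or.inl h
    · exact Or.inr (Or.inr h.symm)
  · exact Or.inr (key _ (sat_fib A p) S hS' T hT)

open Classical in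
lemma group (A : Finset ℕ) (p : ℕ → X) (u : ℕ → X → ℝ) (hu : Fine (Fib A p) u)
    (M : Finset ℕ) (hM : M ⊆ A) (hM' : ∀ a ∈ M, ∀ b ∈ A, p b = p a → b ∈ M)
    (q : X) (D : ℝ) (hD : ∀ i ∈ M, dist (p i) q ≤ D) :
    ∑ i ∈ M, (u i (p i) - u i q) ≤ (M.image p).card * D := by
  rw [← sum_fiberwise_of_maps_to (s := M) (t := M.image p) (g := p)
    (fun i hi => mem_image_of_mem p hi), ← nsmul_eq_mul, ← sum_const]
  refine sum_le_sum fun v hv => ?_
  obtain ⟨i, hi, rfl⟩ := mem_image.1 hv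
  refine le_trans (le_of_eq ?_) ((hu (A.filter (p · = p i)) ⟨i, hM hi, rfl⟩ (p i) q).trans (hD i hi))
  have : M.filter (fun j => p j = p i) = A.filter (p · = p i) := by
    ext j
    simp only [mem_filter]
    exact ⟨fun h => ⟨hM h.1, h.2⟩, fun h => ⟨hM' i hi j h.1 h.2, h.2⟩⟩
  rw [this]
  exact sum_congr rfl fun j hj => by rw [(mem_filter.1 hj).2]

open Classical in
lemma chain (A : Finset ℕ) (K : Set X) (hK : IsPreconnected K) (x0 : X) (hx0 : x0 ∈ K)
    (V : ℕ → Set X) (hV : ∀ j, IsOpen (V j)) (hKV : K ⊆ ⋃ j, V j) (D : ℕ → ℝ) (δ : ℝ)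
    (hD : ∀ j, ∀ x ∈ V j, ∀ y ∈ V j, dist x y ≤ D j) (hDδ : ∀ j, D j ≤ δ) (hD0 : ∀ j, 0 ≤ D j)
    (p : ℕ → X) (hp : ∀ i ∈ A, p i ∈ K) :
    ∃ (s : Finset ℕ) (F : Set (Finset ℕ)), Lam F ∧ (∀ S ∈ F, S ⊆ A) ∧ ∀ u : ℕ → X → ℝ, Fine F u →
      ∑ i ∈ A, (u i (p i) - u i x0) ≤ ∑ j ∈ s, D j + δ * A.card := by
  have hδ : 0 ≤ δ := (hD0 0).trans (hDδ 0)
  let Good : Finset ℕ → Prop := fun s => (∃ j ∈ s, x0 ∈ V j) ∧ ∀ p : ℕ → X,
    (∀ i ∈ A, ∃ j ∈ s, p i ∈ V j) → ∃ F : Set (Finset ℕ), Lam F ∧ Sat A p F ∧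
      ∀ u : ℕ → X → ℝ, Fine F u →
      ∑ i ∈ A, (u i (p i) - u i x0) ≤ ∑ j ∈ s, D j + δ * (A.image p).card
  obtain ⟨j0, hj0⟩ := Set.mem_iUnion.1 (hKV hx0)
  have hbase : Good {j0} := by
    refine ⟨⟨j0, mem_singleton_self _, hj0⟩, fun p hp => ⟨Fib A p, ?_, sat_fib A p, fun u hu => ?_⟩⟩
    · have := lam_union (A := A) (p := p) (F := ∅) (by simp [Lam]) (by simp [Sat])
      simpa using this
    have := group A p u hu A Subset.rfl (fun _ _ _ hb _ => hb) x0 δ (fun i hi => by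
      obtain ⟨j, hj, h⟩ := hp i hi
      rw [mem_singleton.1 hj] at h
      exact (hD j0 _ h _ hj0).trans (hDδ j0))
    rw [sum_singleton]
    linarith [hD0 j0]
  have hstep : ∀ s j q, Good s → q ∈ V j → (∃ i ∈ s, q ∈ V i) → Good (insert j s) := by
    intro s j q hs hq hq'
    by_cases hj : j ∈ s
    · rwa [insert_eq_of_mem hj]
    refine ⟨?_, fun p hp => ?_⟩
    · obtain ⟨i, hi, h⟩ := hs.1
      exact ⟨i, mem_insert_of_mem hi, h⟩
    let M : Finset ℕ := A.filter (fun i => ¬ ∃ j ∈ s, p i ∈ V j)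
    have hMA : M ⊆ A := filter_subset _ _
    have hMs : ∀ a ∈ M, ∀ b ∈ A, p b = p a → b ∈ M := fun a ha b hb h =>
      mem_filter.2 ⟨hb, h ▸ (mem_filter.1 ha).2⟩
    have hM : ∀ i ∈ M, p i ∈ V j := by
      intro i hi
      obtain ⟨l, hl, h⟩ := hp i (hMA hi)
      rcases mem_insert.1 hl with rfl | hl
      · exact h
      · exact absurd ⟨l, hl, h⟩ (mem_filter.1 hi).2
    rw [sum_insert hj]
    rcases M.eq_empty_or_nonempty with hMe | hMn
    · obtain ⟨F, h1, h2, h3⟩ := hs.2 p (fun i hi => by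
        by_contra h
        have : i ∈ M := mem_filter.2 ⟨hi, h⟩
        simp [hMe] at this)
      exact ⟨F, h1, h2, fun u hu => by linarith [hD0 j, h3 u hu]⟩
    let p' : ℕ → X := fun i => if i ∈ M then q else p i
    obtain ⟨F, hF1, hF2, hF3⟩ := hs.2 p' (fun i hiA => by
      by_cases hi : i ∈ M
      · simpa only [p', if_pos hi] using hq'
      · simp only [p', if_neg hi]
        by_contra h
        exact hi (mem_filter.2 ⟨hiA, h⟩))
    have hF4 : Sat A p F := by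
      intro S hS
      refine ⟨(hF2 S hS).1, fun a ha b hb h => (hF2 S hS).2 a ha b hb ?_⟩
      by_cases haM : a ∈ M
      · simp only [p', if_pos haM, if_pos (hMs a haM b hb h)]
      · have hbM : b ∉ M := fun h' => haM (hMs b h' a ((hF2 S hS).1 ha) h.symm)
        simp only [p', if_neg haM, if_neg hbM, h]
    refine ⟨F ∪ Fib A p, lam_union hF1 hF4, ?_, fun u hu => ?_⟩
    · rintro S (hS | hS)
      · exact hF4 S hS
      · exact sat_fib A p S hS
    have h1 := hF3 u (fun S hS => hu S (Or.inl hS))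
    have h2 := group A p u (fun S hS => hu S (Or.inr hS)) M hMA hMs q (D j)
      (fun i hi => hD j _ (hM i hi) _ hq)
    have h3 : ∑ i ∈ A, (u i (p i) - u i x0)
        = ∑ i ∈ A, (u i (p' i) - u i x0) + ∑ i ∈ M, (u i (p i) - u i q) := by
      have : ∑ i ∈ M, (u i (p i) - u i q) = ∑ i ∈ A, if i ∈ M then (u i (p i) - u i q) else 0 := by
        rw [sum_ite_mem, inter_eq_right.2 hMA]
      rw [this, ← sum_add_distrib]
      refine sum_congr rfl fun i _ => ?_
      by_cases hi : i ∈ M <;> simp [p', hi]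
    have h4 : (A.image p').card ≤ ((A \ M).image p).card + 1 := by
      refine (card_le_card (t := insert q ((A \ M).image p)) ?_).trans (card_insert_le _ _)
      intro v hv
      obtain ⟨i, hiA, rfl⟩ := mem_image.1 hv
      by_cases hi : i ∈ M
      · simp [p', hi]
      · simp only [p', if_neg hi]
        exact mem_insert_of_mem (mem_image_of_mem p (mem_sdiff.2 ⟨hiA, hi⟩))
    have h5 : ((A \ M).image p).card + (M.image p).card ≤ (A.image p).card := by
      rw [← card_union_of_disjoint]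
      · exact card_le_card (union_subset (image_subset_image sdiff_subset)
          (image_subset_image hMA))
      · rw [disjoint_left]
        intro v hv hv'
        obtain ⟨a, ha, rfl⟩ := mem_image.1 hv
        obtain ⟨b, hb, hab⟩ := mem_image.1 hv'
        exact (mem_sdiff.1 ha).2 (hMs b hb a (mem_sdiff.1 ha).1 hab.symm)
    have h6 : 1 ≤ (M.image p).card := (hMn.image p).card_pos
    have h4' : ((A.image p').card : ℝ) ≤ ((A \ M).image p).card + 1 := by exact_mod_cast h4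
    have h5' : (((A \ M).image p).card : ℝ) + (M.image p).card ≤ (A.image p).card := by
      exact_mod_cast h5
    have h6' : (1 : ℝ) ≤ (M.image p).card := by exact_mod_cast h6
    have h7 := mul_le_mul_of_nonneg_left (hDδ j) (sub_nonneg.2 h6')
    have h8 := mul_le_mul_of_nonneg_left h4' hδ
    have h9 := mul_le_mul_of_nonneg_left h5' hδ
    rw [h3]
    nlinarith
  have hext : ∀ s, Good s → ∀ y ∈ K, ∃ s', Good s' ∧ s ⊆ s' ∧ ∃ j ∈ s', y ∈ V j := by
    intro s hs
    let W : Set X := {y | ∃ s', Good s' ∧ s ⊆ s' ∧ ∃ j ∈ s', y ∈ V j}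
    have hW : IsOpen W := by
      rw [isOpen_iff_forall_mem_open]
      rintro y ⟨s', h1, h2, j, hj, hy⟩
      exact ⟨V j, fun z hz => ⟨s', h1, h2, j, hj, hz⟩, hV j, hy⟩
    refine hK.subset_of_closure_inter_subset hW ⟨x0, hx0, s, hs, Subset.rfl, hs.1⟩ ?_
    rintro y ⟨hy, hyK⟩
    obtain ⟨j, hj⟩ := Set.mem_iUnion.1 (hKV hyK)
    obtain ⟨q, hq, s', h1, h2, h3⟩ := mem_closure_iff.1 hy (V j) (hV j) hj
    exact ⟨insert j s', hstep s' j q h1 hq h3, h2.trans (subset_insert _ _), j,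
      mem_insert_self _ _, hj⟩
  have hall : ∀ B : Finset ℕ, B ⊆ A → ∃ s, Good s ∧ ∀ i ∈ B, ∃ j ∈ s, p i ∈ V j := by
    intro B
    induction B using Finset.induction_on with
    | empty => exact fun _ => ⟨_, hbase, by simp⟩
    | insert a B _ ih =>
      intro hB
      obtain ⟨s, hs, h⟩ := ih ((subset_insert _ _).trans hB)
      obtain ⟨s', h1, h2, h3⟩ := hext s hs (p a) (hp a (hB (mem_insert_self _ _)))
      refine ⟨s', h1, fun i hi => ?_⟩
      rcases mem_insert.1 hi with rfl | hi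
      · exact h3
      · obtain ⟨j, hj, h'⟩ := h i hi
        exact ⟨j, h2 hj, h'⟩
  obtain ⟨s, hs, h⟩ := hall A Subset.rfl
  obtain ⟨F, h1, h2, h3⟩ := hs.2 p h
  refine ⟨s, F, h1, fun S hS => (h2 S hS).1, fun u hu => (h3 u hu).trans ?_⟩
  have : ((A.image p).card : ℝ) ≤ A.card := by exact_mod_cast card_image_le
  nlinarith

/-- For a connected set with marked points there is a laminar family of sets of marks such that
every calibration respecting the family bounds the length from below. -/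
theorem calib [MeasurableSpace X] [BorelSpace X] (A : Finset ℕ)
    (K : Set X) (hK : IsPreconnected K) (x0 : X) (hx0 : x0 ∈ K) (p : ℕ → X) (hp : ∀ i ∈ A, p i ∈ K)
    (L : ℝ) (hL0 : 0 ≤ L) (hL : Measure.hausdorffMeasure 1 K ≤ ENNReal.ofReal L)
    (ε : ℝ) (hε : 0 < ε) :
    ∃ F : Set (Finset ℕ), Lam F ∧ (∀ S ∈ F, S ⊆ A) ∧ ∀ u : ℕ → X → ℝ, Fine F u →
      ∑ i ∈ A, (u i (p i) - u i x0) ≤ L + ε := by
  set η : ℝ := ε / (5 + 3 * A.card) with hη
  have hη0 : 0 < η := by positivity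
  rw [Measure.hausdorffMeasure_apply] at hL
  have h1 := (le_iSup₂_of_le (f := fun (r : ℝ≥0∞) (_ : 0 < r) =>
    ⨅ (t : ℕ → Set X) (_ : K ⊆ ⋃ n, t n) (_ : ∀ n, Metric.ediam (t n) ≤ r),
      ∑' n, ⨆ _ : (t n).Nonempty, Metric.ediam (t n) ^ (1 : ℝ)) (ENNReal.ofReal η)
      (ENNReal.ofReal_pos.2 hη0) le_rfl).trans hL
  have h2 := h1.trans_lt ((ENNReal.ofReal_lt_ofReal_iff (by linarith)).2
    (show L < L + η by linarith))
  simp only [iInf_lt_iff] at h2
  obtain ⟨t, hKt, htr, ht⟩ := h2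
  have hne : ∀ j, Metric.ediam (t j) ≠ ⊤ := fun j => ne_top_of_le_ne_top ENNReal.ofReal_ne_top (htr j)
  have hterm : ∀ j, (⨆ _ : (t j).Nonempty, Metric.ediam (t j) ^ (1 : ℝ)) = Metric.ediam (t j) := by
    intro j
    rcases (t j).eq_empty_or_nonempty with h | h
    · simp [h]
    · simp [h]
  simp only [hterm] at ht
  obtain ⟨s, F, hF1, hF2, hs⟩ := chain A K hK x0 hx0 (fun j => Metric.thickening (η / 2 ^ j) (t j))
    (fun j => Metric.isOpen_thickening)
    (hKt.trans (Set.iUnion_mono fun j => Metric.self_subset_thickening (by positivity) _))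
    (fun j => Metric.diam (t j) + 2 * (η / 2 ^ j)) (3 * η)
    (by
      intro j x hx y hy
      obtain ⟨a, ha, hxa⟩ := Metric.mem_thickening_iff.1 hx
      obtain ⟨b, hb, hyb⟩ := Metric.mem_thickening_iff.1 hy
      have h3 := Metric.dist_le_diam_of_mem' (hne j) ha hb
      have h4 := dist_triangle4 x a b y
      rw [dist_comm b y] at h4
      linarith)
    (by
      intro j
      have h3 : Metric.diam (t j) ≤ η := by
        rw [Metric.diam]
        exact ENNReal.toReal_le_of_le_ofReal hη0.le (htr j)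
      have h4 : η / 2 ^ j ≤ η := div_le_self hη0.le (one_le_pow₀ (by norm_num))
      linarith)
    (fun j => by have := Metric.diam_nonneg (s := t j); positivity) p hp
  refine ⟨F, hF1, hF2, fun u hu => ?_⟩
  have hs := hs u hu
  have h3 : ∑ j ∈ s, Metric.diam (t j) ≤ L + η := by
    have h4 : ∑ j ∈ s, Metric.ediam (t j) ≤ ENNReal.ofReal (L + η) :=
      (ENNReal.sum_le_tsum s).trans ht.le
    have h5 := ENNReal.toReal_le_of_le_ofReal (by linarith) h4
    rwa [ENNReal.toReal_sum (fun j _ => hne j)] at h5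
  have h4 : ∑ j ∈ s, η / 2 ^ j ≤ 2 * η := by
    have h5 := (hasSum_geometric_two' (2 * η))
    have h6 := sum_le_hasSum s (fun j _ => by positivity) h5
    refine le_trans (le_of_eq (sum_congr rfl fun j _ => ?_)) h6
    ring
  rw [sum_add_distrib, ← mul_sum] at hs
  have h5 : η * (5 + 3 * A.card) = ε := by rw [hη]; field_simp
  nlinarith

end H9M
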