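import Mathlib
import Pool.Agent.Lib.helper9.MdmLam

set_option autoImplicit false

namespace H9M

open Finset MeasureTheory

abbrev Z3 := ℤ × ℤ

noncomputable def val (z : Z3) : ℝ := z.1 + z.2 * √3
def zadd (a b : Z3) : Z3 := (a.1 + b.1, a.2 + b.2)
def zsub (a b : Z3) : Z3 := (a.1 - b.1, a.2 - b.2)
def zmul (a b : Z3) : Z3 := (a.1 * b.1 + 3 * (a.2 * b.2), a.1 * b.2 + a.2 * b.1)
def nn (z : Z3) : Bool :=
  (decide (0 ≤ z.1) && decide (0 ≤ z.2)) || (decide (0 ≤ z.1) && decide (3 * (z.2 * z.2) ≤ z.1 * z.1))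
    || (decide (0 ≤ z.2) && decide (z.1 * z.1 ≤ 3 * (z.2 * z.2)))

lemma s3 : √3 * √3 = (3 : ℝ) := Real.mul_self_sqrt (by norm_num)

lemma val_add (a b : Z3) : val (zadd a b) = val a + val b := by
  simp only [val, zadd]; push_cast; ring

lemma val_sub (a b : Z3) : val (zsub a b) = val a - val b := by
  simp only [val, zsub]; push_cast; ring

lemma val_mul (a b : Z3) : val (zmul a b) = val a * val b := by
  simp only [val, zmul]; push_cast
  linear_combination (-(a.2 : ℝ) * b.2) * s3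

lemma val_int (a : ℤ) : val (a, 0) = a := by simp [val]

lemma nn_sound {z : Z3} (h : nn z = true) : 0 ≤ val z := by
  have h3 := s3
  have h0 : 0 ≤ √3 := Real.sqrt_nonneg 3
  simp only [nn, Bool.or_eq_true, Bool.and_eq_true, decide_eq_true_eq] at h
  unfold val
  rcases h with (⟨h1, h2⟩ | ⟨h1, h2⟩) | ⟨h1, h2⟩
  · have h1' : (0 : ℝ) ≤ z.1 := by exact_mod_cast h1
    have h2' : (0 : ℝ) ≤ z.2 := by exact_mod_cast h2
    positivity
  · have h1' : (0 : ℝ) ≤ z.1 := by exact_mod_cast h1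
    have h2' : (3 * (z.2 * z.2) : ℝ) ≤ z.1 * z.1 := by exact_mod_cast h2
    have : -(z.2 * √3) ≤ (z.1 : ℝ) := le_trans (neg_le_abs _) (abs_le_of_sq_le_sq (by nlinarith) h1')
    linarith
  · have h1' : (0 : ℝ) ≤ z.2 := by exact_mod_cast h1
    have h2' : (z.1 * z.1 : ℝ) ≤ 3 * (z.2 * z.2) := by exact_mod_cast h2
    have : -(z.1 : ℝ) ≤ z.2 * √3 :=
      le_trans (neg_le_abs _) (abs_le_of_sq_le_sq (by nlinarith) (by positivity))
    linarith

abbrev Fc := ℕ × ℕ

def conf (a b : Fc) : Bool :=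
  (a.1 &&& b.1 != 0) && (a.1 &&& b.2 != 0) && (a.2 &&& b.1 != 0) && (a.2 &&& b.2 != 0)

def In (X : ℕ) (L : Finset ℕ) : Prop := ∀ j, X.testBit j = true → j ∈ L
def Out (X : ℕ) (L : Finset ℕ) : Prop := ∀ j, X.testBit j = true → j ∉ L

def Holds (F : Set (Finset ℕ)) (f : Fc) : Prop :=
  ∃ L ∈ F, (In f.1 L ∧ Out f.2 L) ∨ (In f.2 L ∧ Out f.1 L)

lemma meet {a b : ℕ} (h : (a &&& b != 0) = true) : ∃ j, a.testBit j = true ∧ b.testBit j = true := by
  obtain ⟨j, hj⟩ := Nat.exists_testBit_of_ne_zero (x := a &&& b) (by simpa using h)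
  rw [Nat.testBit_and, Bool.and_eq_true] at hj
  exact ⟨j, hj⟩

lemma conf_sound {F : Set (Finset ℕ)} (hF : Lam F) {a b : Fc} (h : conf a b = true)
    (ha : Holds F a) (hb : Holds F b) : False := by
  simp only [conf, Bool.and_eq_true] at h
  obtain ⟨⟨⟨h1, h2⟩, h3⟩, h4⟩ := h
  obtain ⟨j1, a1, b1⟩ := meet h1
  obtain ⟨j2, a2, b2⟩ := meet h2
  obtain ⟨j3, a3, b3⟩ := meet h3
  obtain ⟨j4, a4, b4⟩ := meet h4
  obtain ⟨L, hL, ha⟩ := ha
  obtain ⟨L', hL', hb⟩ := hb
  have key : ∀ x y z, x ∈ L → x ∈ L' → y ∈ L → y ∉ L' → z ∉ L → z ∈ L' → False := by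
    intro x y z x1 x2 y1 y2 z1 z2
    rcases hF L hL L' hL' with h | h | h
    · exact y2 (h y1)
    · exact z1 (h z2)
    · exact disjoint_left.1 h x1 x2
  rcases ha with ⟨p, q⟩ | ⟨p, q⟩ <;> rcases hb with ⟨r, s⟩ | ⟨r, s⟩
  · exact key j1 j2 j3 (p _ a1) (r _ b1) (p _ a2) (s _ b2) (q _ a3) (r _ b3)
  · exact key j2 j1 j4 (p _ a2) (r _ b2) (p _ a1) (s _ b1) (q _ a4) (r _ b4)
  · exact key j3 j4 j1 (p _ a3) (r _ b3) (p _ a4) (s _ b4) (q _ a1) (r _ b1)
  · exact key j4 j3 j2 (p _ a4) (r _ b4) (p _ a3) (s _ b3) (q _ a2) (r _ b2)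

lemma In.or {X : ℕ} {L : Finset ℕ} (h : In X L) {j : ℕ} (hj : j ∈ L) : In (X ||| 2 ^ j) L := by
  intro i hi
  rw [Nat.testBit_or, Bool.or_eq_true, Nat.testBit_two_pow, decide_eq_true_eq] at hi
  rcases hi with hi | rfl
  · exact h i hi
  · exact hj

lemma Out.or {X : ℕ} {L : Finset ℕ} (h : Out X L) {j : ℕ} (hj : j ∉ L) : Out (X ||| 2 ^ j) L := by
  intro i hi
  rw [Nat.testBit_or, Bool.or_eq_true, Nat.testBit_two_pow, decide_eq_true_eq] at hi
  rcases hi with hi | rfl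
  · exact h i hi
  · exact hj

lemma refine_holds {F : Set (Finset ℕ)} {f : Fc} (h : Holds F f) (j : ℕ) :
    Holds F (f.1 ||| 2 ^ j, f.2) ∨ Holds F (f.1, f.2 ||| 2 ^ j) := by
  obtain ⟨L, hL, h⟩ := h
  by_cases hj : j ∈ L <;> rcases h with ⟨p, q⟩ | ⟨p, q⟩
  · exact Or.inl ⟨L, hL, Or.inl ⟨p.or hj, q⟩⟩
  · exact Or.inr ⟨L, hL, Or.inr ⟨p.or hj, q⟩⟩
  · exact Or.inr ⟨L, hL, Or.inl ⟨p, q.or hj⟩⟩
  · exact Or.inl ⟨L, hL, Or.inr ⟨p, q.or hj⟩⟩

inductive Cert where
  | N : Cert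
  | S : Cert → Cert → Cert
  | C : ℕ → Cert → Cert
  | R : ℕ → ℕ → Cert → Cert

def live (H P : List Fc) : List Fc := P.filter (fun b => !(H.any (conf b)))

def chk (B : List (List Fc)) : Cert → List Fc → List Fc → Bool
  | .N, _, P => P.isEmpty
  | .S c1 c2, H, P =>
    match P with
    | [] => true
    | b :: P' => chk B c1 (b :: H) [b] && chk B c2 H P'
  | .C i c, H, _ =>
    match B[i]? with
    | none => false
    | some P => chk B c H (live H P)
  | .R k j c, H, _ =>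
    match H[k]? with
    | none => false
    | some f => chk B c H (live H [(f.1 ||| 2 ^ j, f.2), (f.1, f.2 ||| 2 ^ j)])

lemma live_sound {F : Set (Finset ℕ)} (hF : Lam F) {H P : List Fc} (hH : ∀ f ∈ H, Holds F f)
    (hP : ∃ b ∈ P, Holds F b) : ∃ b ∈ live H P, Holds F b := by
  obtain ⟨b, hb, h⟩ := hP
  refine ⟨b, List.mem_filter.2 ⟨hb, ?_⟩, h⟩
  rw [Bool.not_eq_true', ← Bool.not_eq_true, List.any_eq_true]
  rintro ⟨f, hf, hc⟩
  exact conf_sound hF hc h (hH f hf)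

lemma chk_sound {F : Set (Finset ℕ)} (hF : Lam F) (B : List (List Fc))
    (hB : ∀ P ∈ B, ∃ b ∈ P, Holds F b) (c : Cert) : ∀ H P : List Fc, chk B c H P = true →
      (∀ f ∈ H, Holds F f) → (∃ b ∈ P, Holds F b) → False := by
  induction c with
  | N =>
    rintro H P h _ ⟨b, hb, -⟩
    rw [chk, List.isEmpty_iff] at h
    simp [h] at hb
  | S c1 c2 ih1 ih2 =>
    rintro H P h hH ⟨b, hb, hb'⟩
    cases P with
    | nil => simp at hb
    | cons a P' =>
      rw [chk, Bool.and_eq_true] at h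
      by_cases ha : Holds F a
      · refine ih1 _ _ h.1 ?_ ⟨a, by simp, ha⟩
        intro f hf
        rcases List.mem_cons.1 hf with rfl | hf
        · exact ha
        · exact hH f hf
      · rcases List.mem_cons.1 hb with rfl | hb
        · exact ha hb'
        · exact ih2 _ _ h.2 hH ⟨b, hb, hb'⟩
  | C i c ih =>
    intro H P h hH _
    rw [chk] at h
    split at h
    · simp at h
    · rename_i Q hQ
      exact ih _ _ h hH (live_sound hF hH (hB Q (List.mem_of_getElem? hQ)))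
  | R k j c ih =>
    intro H P h hH _
    rw [chk] at h
    split at h
    · simp at h
    · rename_i f hf
      refine ih _ _ h hH (live_sound hF hH ?_)
      rcases refine_holds (hH f (List.mem_of_getElem? hf)) j with h' | h'
      · exact ⟨_, by simp, h'⟩
      · exact ⟨_, by simp, h'⟩

structure Cal where
  D : ℤ
  lam : List Z3
  w : List (ℤ × ℤ)
  bad : List Fc

abbrev V3 := Z3 × Z3

def g3 (l : List V3) (j : ℕ) : V3 := l.getD j ((0, 0), (0, 0))
def Cal.l (c : Cal) (j : ℕ) : Z3 := c.lam.getD j (0, 0)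
def Cal.ww (c : Cal) (j : ℕ) : ℤ × ℤ := c.w.getD j (0, 0)

def vv (n : List V3) (c : Cal) (j : ℕ) : V3 :=
  (zadd (zmul (c.l j) (g3 n j).1) ((c.ww j).1, 0), zadd (zmul (c.l j) (g3 n j).2) ((c.ww j).2, 0))

def sub (v : List V3) (D : ℤ) (bad : List Fc) : ℕ → ℕ → ℕ → Z3 → Z3 → Bool
  | 0, X, Y, sx, sy => nn (zsub (D * D, 0) (zadd (zmul sx sx) (zmul sy sy))) ||
      bad.contains (X, Y) || bad.contains (Y, X)
  | k + 1, X, Y, sx, sy =>
    if g3 v k = ((0, 0), (0, 0)) then sub v D bad k X Y sx sy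
    else sub v D bad k (X ||| 2 ^ k) Y (zadd sx (g3 v k).1) (zadd sy (g3 v k).2) &&
      sub v D bad k X (Y ||| 2 ^ k) sx sy

lemma sub_sound {F : Set (Finset ℕ)} (v : List V3) (D : ℤ) (bad : List Fc)
    (hb : ∀ b ∈ bad, ¬ Holds F b) (L : Finset ℕ) (hL : L ∈ F) (k : ℕ) :
    ∀ (X Y : ℕ) (sx sy : Z3), sub v D bad k X Y sx sy = true → In X L → Out Y L →
      (val sx + ∑ j ∈ range k, if j ∈ L then val (g3 v j).1 else 0) ^ 2 +
      (val sy + ∑ j ∈ range k, if j ∈ L then val (g3 v j).2 else 0) ^ 2 ≤ (D : ℝ) ^ 2 := by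
  induction k with
  | zero =>
    intro X Y sx sy h hX hY
    simp only [sub, Bool.or_eq_true, List.contains_iff_mem] at h
    rcases h with (h | h) | h
    · have := nn_sound h
      rw [val_sub, val_add, val_mul, val_mul, val_int] at this
      simp only [range_zero, sum_empty, add_zero]
      push_cast at this
      nlinarith
    · exact absurd ⟨L, hL, Or.inl ⟨hX, hY⟩⟩ (hb _ h)
    · exact absurd ⟨L, hL, Or.inr ⟨hX, hY⟩⟩ (hb _ h)
  | succ k ih =>
    intro X Y sx sy h hX hY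
    rw [sub] at h
    rw [sum_range_succ, sum_range_succ]
    split_ifs at h with h0
    · have := ih _ _ _ _ h hX hY
      simpa [h0, val] using this
    · rw [Bool.and_eq_true] at h
      by_cases hk : k ∈ L
      · have := ih _ _ _ _ h.1 (hX.or hk) hY
        rw [val_add, val_add] at this
        rw [if_pos hk, if_pos hk]
        refine le_trans (le_of_eq ?_) this
        ring
      · have := ih _ _ _ _ h.2 hX (hY.or hk)
        rw [if_neg hk, if_neg hk, add_zero, add_zero]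
        exact this

def zsum (f : ℕ → Z3) : ℕ → Z3
  | 0 => (0, 0)
  | k + 1 => zadd (zsum f k) (f k)

lemma val_zsum (f : ℕ → Z3) (k : ℕ) : val (zsum f k) = ∑ j ∈ range k, val (f j) := by
  induction k with
  | zero => simp [zsum, val]
  | succ k ih => rw [zsum, val_add, ih, sum_range_succ]

def calOK (N : ℕ) (p n : List V3) (r1 r2 : ℤ) (T : Z3) (c : Cal) : Bool :=
  decide (0 < c.D) && (List.range N).all (fun j => nn (c.l j)) &&
  decide (zsum (fun j => (vv n c j).1) N = (0, 0)) &&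
  decide (zsum (fun j => (vv n c j).2) N = (0, 0)) &&
  nn (zsub (zmul (r2, 0) (zsub (zsum (fun j => zadd (zmul (vv n c j).1 (g3 p j).1)
    (zmul (vv n c j).2 (g3 p j).2)) N) (zmul (c.D, 0) T)))
    (zmul (r1, 0) (zsum (fun j => (|(c.ww j).1| + |(c.ww j).2|, 0)) N))) &&
  sub ((List.range N).map (vv n c)) c.D c.bad N 0 0 (0, 0) (0, 0)

abbrev E := EuclideanSpace ℝ (Fin 2)

lemma cs (a b D : ℝ) (hD : 0 < D) (h : a ^ 2 + b ^ 2 ≤ D ^ 2) (x y : E) :
    (a * (x 0 - y 0) + b * (x 1 - y 1)) / D ≤ dist x y := by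
  rw [div_le_iff₀ hD, EuclideanSpace.dist_eq, Fin.sum_univ_two, Real.dist_eq, Real.dist_eq, sq_abs,
    sq_abs]
  set s := x 0 - y 0
  set t := x 1 - y 1
  refine le_trans (le_abs_self _) (abs_le_of_sq_le_sq ?_ (by positivity))
  rw [mul_pow, Real.sq_sqrt (by positivity)]
  nlinarith [sq_nonneg (a * t - b * s), mul_le_mul_of_nonneg_left h (by positivity : 0 ≤ s ^ 2 + t ^ 2)]

theorem lower (N : ℕ) (p n : List V3) (r1 r2 : ℤ) (hr : 0 < r2) (T : Z3) (cals : List Cal)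
    (cert : Cert) (h1 : cals.all (calOK N p n r1 r2 T) = true)
    (h2 : chk (cals.map Cal.bad) cert [] [] = true) (hc : ∃ i c, cert = .C i c)
    (K : Set E) (hK : IsConnected K) (x : ℕ → E) (hx : ∀ j < N, x j ∈ K)
    (hn : ∀ j < N, 0 ≤ (x j 0 - val (g3 p j).1) * val (g3 n j).1 +
      (x j 1 - val (g3 p j).2) * val (g3 n j).2)
    (hd : ∀ j < N, r2 * |x j 0 - val (g3 p j).1| ≤ r1 ∧ r2 * |x j 1 - val (g3 p j).2| ≤ r1) :
    ENNReal.ofReal (val T) ≤ Measure.hausdorffMeasure 1 K := by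
  by_cases htop : Measure.hausdorffMeasure 1 K = ⊤
  · rw [htop]; exact le_top
  rw [ENNReal.ofReal_le_iff_le_toReal htop]
  refine le_of_forall_pos_le_add fun ε hε => ?_
  obtain ⟨x0, hx0⟩ := hK.nonempty
  obtain ⟨F, hF, hFA, hFu⟩ := calib (range N) K hK.isPreconnected x0 hx0 x
    (fun i hi => hx i (mem_range.1 hi)) _ ENNReal.toReal_nonneg
    (ENNReal.ofReal_toReal htop).ge ε hε
  have hex : ∃ c ∈ cals, ∀ b ∈ c.bad, ¬ Holds F b := by
    by_contra hcon
    push Not at hcon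
    have hB : ∀ P ∈ cals.map Cal.bad, ∃ b ∈ P, Holds F b := by
      intro P hP
      obtain ⟨c, hc, rfl⟩ := List.mem_map.1 hP
      exact hcon c hc
    obtain ⟨i, c, rfl⟩ := hc
    rw [chk] at h2
    split at h2
    · simp at h2
    · rename_i Q hQ
      exact chk_sound hF _ hB c _ _ h2 (by simp)
        (live_sound hF (by simp) (hB Q (List.mem_of_getElem? hQ)))
  obtain ⟨c, hc, hbad⟩ := hex
  have hok := List.all_eq_true.1 h1 c hc
  simp only [calOK, Bool.and_eq_true, decide_eq_true_eq, List.all_eq_true, List.mem_range] at hok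
  obtain ⟨⟨⟨⟨⟨k1, k2⟩, k3⟩, k4⟩, k5⟩, k6⟩ := hok
  have hD : (0 : ℝ) < c.D := by exact_mod_cast k1
  have hr' : (0 : ℝ) < r2 := by exact_mod_cast hr
  have e3 : ∑ j ∈ range N, val (vv n c j).1 = 0 := by
    rw [← val_zsum (fun j => (vv n c j).1), k3]; simp [val]
  have e4 : ∑ j ∈ range N, val (vv n c j).2 = 0 := by
    rw [← val_zsum (fun j => (vv n c j).2), k4]; simp [val]
  have e5 := nn_sound k5
  simp only [val_sub, val_mul, val_int, val_zsum, val_add] at e5
  let u : ℕ → E → ℝ := fun j y => (val (vv n c j).1 * y 0 + val (vv n c j).2 * y 1) / c.D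
  have hu : Fine F u := by
    intro L hL y z
    have h := sub_sound _ c.D c.bad hbad L hL N 0 0 (0, 0) (0, 0) k6 (by simp [In]) (by simp [Out])
    have hg : ∀ j ∈ range N, g3 ((List.range N).map (vv n c)) j = vv n c j := by
      intro j hj
      simp [g3, List.getD_eq_getElem?_getD, mem_range.1 hj]
    have g1 : ∑ j ∈ range N, (if j ∈ L then val (g3 ((List.range N).map (vv n c)) j).1 else 0) =
        ∑ j ∈ L, val (vv n c j).1 := by
      rw [sum_ite_mem, inter_eq_right.2 (hFA L hL)]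
      exact sum_congr rfl fun j hj => by rw [hg j (hFA L hL hj)]
    have g2 : ∑ j ∈ range N, (if j ∈ L then val (g3 ((List.range N).map (vv n c)) j).2 else 0) =
        ∑ j ∈ L, val (vv n c j).2 := by
      rw [sum_ite_mem, inter_eq_right.2 (hFA L hL)]
      exact sum_congr rfl fun j hj => by rw [hg j (hFA L hL hj)]
    rw [g1, g2, val_int, Int.cast_zero, zero_add, zero_add] at h
    refine le_trans (le_of_eq ?_) (cs _ _ _ hD h y z)
    rw [sum_mul, sum_mul, ← sum_add_distrib, sum_div]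
    refine sum_congr rfl fun j _ => ?_
    simp only [u]
    ring
  refine le_trans ?_ (hFu u hu)
  have e6 : ∑ j ∈ range N, (u j (x j) - u j x0) = (∑ j ∈ range N,
      (val (vv n c j).1 * x j 0 + val (vv n c j).2 * x j 1)) / c.D := by
    rw [sum_sub_distrib, sum_div]
    have : ∑ j ∈ range N, u j x0 = 0 := by
      simp only [u]
      rw [← sum_div, sum_add_distrib, ← sum_mul, ← sum_mul, e3, e4]
      simp
    rw [this, sub_zero]
  rw [e6, le_div_iff₀ hD]
  have e7 : ∀ j ∈ range N, r2 * (val (vv n c j).1 * val (g3 p j).1 + val (vv n c j).2 * val (g3 p j).2)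
      - r1 * ((|(c.ww j).1| + |(c.ww j).2| : ℤ) : ℝ) ≤
      r2 * (val (vv n c j).1 * x j 0 + val (vv n c j).2 * x j 1) := by
    intro j hj
    have hj' := mem_range.1 hj
    have a1 := mul_nonneg hr'.le (mul_nonneg (nn_sound (k2 j hj')) (hn j hj'))
    obtain ⟨a2, a3⟩ := hd j hj'
    have a4 := mul_le_mul_of_nonneg_left a2 (abs_nonneg ((c.ww j).1 : ℝ))
    have a5 := mul_le_mul_of_nonneg_left a3 (abs_nonneg ((c.ww j).2 : ℝ))
    have a6 := mul_le_mul_of_nonneg_left (neg_abs_le (((c.ww j).1 : ℝ) * (x j 0 - val (g3 p j).1)))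
      hr'.le
    have a7 := mul_le_mul_of_nonneg_left (neg_abs_le (((c.ww j).2 : ℝ) * (x j 1 - val (g3 p j).2)))
      hr'.le
    rw [abs_mul] at a6 a7
    simp only [vv, val_add, val_mul, val_int]
    push_cast
    nlinarith
  have e8 := sum_le_sum e7
  rw [sum_sub_distrib, ← mul_sum, ← mul_sum, ← mul_sum] at e8
  refine le_of_mul_le_mul_left ?_ hr'
  nlinarith

end H9M
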