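import Mathlib
import Pool.Agent.Lib.helper9.MdmChk

set_option autoImplicit false
set_option maxRecDepth 100000

namespace H9M

open Cert

def ac0 : Cal := ⟨20, [(10, 0), (10, 0), (10, 0), (10, 0), (0, 0), (0, 0), (0, 0), (0, 0), (0, 0), (0, 0), (0, 0), (0, 0)], [(0, 0), (0, 0), (0, 0), (0, 0), (0, 0), (0, 0), (0, 0), (0, 0), (0, 0), (0, 0), (0, 0), (0, 0)], [(10, 5)]⟩
def ac1 : Cal := ⟨20, [(10, 0), (10, 0), (0, 0), (0, 0), (10, 0), (10, 0), (0, 0), (0, 0), (0, 0), (0, 0), (0, 0), (0, 0)], [(0, 0), (0, 0), (0, 0), (0, 0), (0, 0), (0, 0), (0, 0), (0, 0), (0, 0), (0, 0), (0, 0), (0, 0)], [(34, 17)]⟩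
def ac2 : Cal := ⟨20, [(10, 0), (10, 0), (0, 0), (0, 0), (0, 0), (0, 0), (10, 0), (10, 0), (0, 0), (0, 0), (0, 0), (0, 0)], [(0, 0), (0, 0), (0, 0), (0, 0), (0, 0), (0, 0), (0, 0), (0, 0), (0, 0), (0, 0), (0, 0), (0, 0)], [(66, 129), (130, 65)]⟩
def ac3 : Cal := ⟨20, [(10, 0), (10, 0), (0, 0), (0, 0), (0, 0), (0, 0), (0, 0), (0, 0), (14, 0), (14, 0), (0, 0), (0, 0)], [(0, 0), (0, 0), (0, 0), (0, 0), (0, 0), (0, 0), (0, 0), (0, 0), (0, 0), (0, 0), (0, 0), (0, 0)], [(514, 257)]⟩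
def ac4 : Cal := ⟨20, [(0, 0), (0, 0), (10, 0), (10, 0), (10, 0), (10, 0), (0, 0), (0, 0), (0, 0), (0, 0), (0, 0), (0, 0)], [(0, 0), (0, 0), (0, 0), (0, 0), (0, 0), (0, 0), (0, 0), (0, 0), (0, 0), (0, 0), (0, 0), (0, 0)], [(24, 36), (40, 20)]⟩
def ac5 : Cal := ⟨20, [(0, 0), (0, 0), (10, 0), (10, 0), (0, 0), (0, 0), (10, 0), (10, 0), (0, 0), (0, 0), (0, 0), (0, 0)], [(0, 0), (0, 0), (0, 0), (0, 0), (0, 0), (0, 0), (0, 0), (0, 0), (0, 0), (0, 0), (0, 0), (0, 0)], [(136, 68)]⟩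
def ac6 : Cal := ⟨20, [(0, 0), (0, 0), (10, 0), (10, 0), (0, 0), (0, 0), (0, 0), (0, 0), (14, 0), (14, 0), (0, 0), (0, 0)], [(0, 0), (0, 0), (0, 0), (0, 0), (0, 0), (0, 0), (0, 0), (0, 0), (0, 0), (0, 0), (0, 0), (0, 0)], [(264, 516), (520, 260)]⟩
def ac7 : Cal := ⟨20, [(0, 0), (0, 0), (10, 0), (10, 0), (0, 0), (0, 0), (0, 0), (0, 0), (0, 0), (0, 0), (14, 0), (14, 0)], [(0, 0), (0, 0), (0, 0), (0, 0), (0, 0), (0, 0), (0, 0), (0, 0), (0, 0), (0, 0), (0, 0), (0, 0)], [(2056, 1028)]⟩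
def ac8 : Cal := ⟨20, [(0, 0), (0, 0), (0, 0), (0, 0), (10, 0), (10, 0), (10, 0), (10, 0), (0, 0), (0, 0), (0, 0), (0, 0)], [(0, 0), (0, 0), (0, 0), (0, 0), (0, 0), (0, 0), (0, 0), (0, 0), (0, 0), (0, 0), (0, 0), (0, 0)], [(96, 144)]⟩
def ac9 : Cal := ⟨20, [(0, 0), (0, 0), (0, 0), (0, 0), (10, 0), (10, 0), (0, 0), (0, 0), (14, 0), (14, 0), (0, 0), (0, 0)], [(0, 0), (0, 0), (0, 0), (0, 0), (0, 0), (0, 0), (0, 0), (0, 0), (0, 0), (0, 0), (0, 0), (0, 0)], [(544, 272)]⟩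
def ac10 : Cal := ⟨20, [(0, 0), (0, 0), (0, 0), (0, 0), (10, 0), (10, 0), (0, 0), (0, 0), (0, 0), (0, 0), (14, 0), (14, 0)], [(0, 0), (0, 0), (0, 0), (0, 0), (0, 0), (0, 0), (0, 0), (0, 0), (0, 0), (0, 0), (0, 0), (0, 0)], [(1056, 2064), (2080, 1040)]⟩
def ac11 : Cal := ⟨20, [(0, 0), (0, 0), (0, 0), (0, 0), (0, 0), (0, 0), (10, 0), (10, 0), (14, 0), (14, 0), (0, 0), (0, 0)], [(0, 0), (0, 0), (0, 0), (0, 0), (0, 0), (0, 0), (0, 0), (0, 0), (0, 0), (0, 0), (0, 0), (0, 0)], [(384, 576), (640, 320)]⟩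
def ac12 : Cal := ⟨20, [(0, 0), (0, 0), (0, 0), (0, 0), (0, 0), (0, 0), (10, 0), (10, 0), (0, 0), (0, 0), (14, 0), (14, 0)], [(0, 0), (0, 0), (0, 0), (0, 0), (0, 0), (0, 0), (0, 0), (0, 0), (0, 0), (0, 0), (0, 0), (0, 0)], [(2176, 1088)]⟩
def ac13 : Cal := ⟨200000, [(13032, 48912), (84632, 0), (35800, 0), (0, 0), (0, 0), (97824, -35800), (48836, 0), (97748, 0), (0, 0), (0, 0), (0, 0), (0, 0)], [(0, 0), (0, 0), (0, 0), (0, 0), (0, 0), (0, 0), (0, 0), (0, 0), (0, 0), (0, 0), (0, 0), (0, 0)], [(34, 197), (38, 193), (70, 161), (98, 133), (102, 129), (130, 101), (162, 69), (166, 65), (226, 5)]⟩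
def ac14 : Cal := ⟨200000, [(97748, 0), (48836, 0), (0, 0), (97824, -35800), (0, 0), (35800, 0), (13032, 48912), (84632, 0), (0, 0), (0, 0), (0, 0), (0, 0)], [(0, 0), (0, 0), (0, 0), (0, 0), (0, 0), (0, 0), (0, 0), (0, 0), (0, 0), (0, 0), (0, 0), (0, 0)], [(66, 169), (96, 139), (98, 137), (106, 129), (136, 99), (138, 97), (162, 73), (168, 67), (170, 65)]⟩
def ac15 : Cal := ⟨200000, [(35800, 0), (0, 0), (13032, 48912), (84632, 0), (48836, 0), (97748, 0), (0, 0), (97824, -35800), (0, 0), (0, 0), (0, 0), (0, 0)], [(0, 0), (0, 0), (0, 0), (0, 0), (0, 0), (0, 0), (0, 0), (0, 0), (0, 0), (0, 0), (0, 0), (0, 0)], [(20, 169), (36, 153), (40, 149), (52, 137), (136, 53), (152, 37), (164, 25), (168, 21), (184, 5)]⟩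
def ac16 : Cal := ⟨200000, [(169348, -48912), (97748, 0), (0, 0), (35800, 0), (97824, -35800), (0, 0), (97748, 0), (48836, 0), (0, 0), (0, 0), (0, 0), (0, 0)], [(0, 0), (0, 0), (0, 0), (0, 0), (0, 0), (0, 0), (0, 0), (0, 0), (0, 0), (0, 0), (0, 0), (0, 0)], [(10, 209), (66, 153), (74, 145), (82, 137), (130, 89), (138, 81), (154, 65), (194, 25), (202, 17)]⟩
def ac17 : Cal := ⟨200000, [(97824, -35800), (0, 0), (48836, 0), (97748, 0), (169348, -48912), (97748, 0), (35800, 0), (0, 0), (0, 0), (0, 0), (0, 0), (0, 0)], [(0, 0), (0, 0), (0, 0), (0, 0), (0, 0), (0, 0), (0, 0), (0, 0), (0, 0), (0, 0), (0, 0), (0, 0)], [(24, 101), (36, 89), (40, 85), (44, 81), (84, 41), (96, 29), (100, 25), (104, 21), (108, 17)]⟩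
def ac18 : Cal := ⟨200000, [(48836, 0), (97748, 0), (97824, -35800), (0, 0), (35800, 0), (0, 0), (169348, -48912), (97748, 0), (0, 0), (0, 0), (0, 0), (0, 0)], [(0, 0), (0, 0), (0, 0), (0, 0), (0, 0), (0, 0), (0, 0), (0, 0), (0, 0), (0, 0), (0, 0), (0, 0)], [(66, 149), (68, 147), (70, 145), (84, 131), (86, 129), (130, 85), (134, 81), (144, 71), (146, 69)]⟩
def ac19 : Cal := ⟨200000, [(91752, 0), (91752, 0), (0, 0), (0, 45876), (45876, 0), (0, 0), (91752, 0), (0, 0), (0, 0), (0, 0), (0, 0), (0, 0)], [(0, 0), (0, 0), (0, 0), (0, 0), (0, 0), (0, 0), (0, 0), (0, 0), (0, 0), (0, 0), (0, 0), (0, 0)], [(10, 81), (26, 65), (66, 25), (74, 17)]⟩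
def ac20 : Cal := ⟨200000, [(0, 45876), (0, 0), (91752, 0), (91752, 0), (0, 0), (91752, 0), (0, 0), (45876, 0), (0, 0), (0, 0), (0, 0), (0, 0)], [(0, 0), (0, 0), (0, 0), (0, 0), (0, 0), (0, 0), (0, 0), (0, 0), (0, 0), (0, 0), (0, 0), (0, 0)], [(36, 137), (40, 133), (136, 37), (168, 5)]⟩
def ac21 : Cal := ⟨200000, [(0, 0), (91752, 0), (45876, 0), (0, 0), (0, 45876), (0, 0), (91752, 0), (91752, 0), (0, 0), (0, 0), (0, 0), (0, 0)], [(0, 0), (0, 0), (0, 0), (0, 0), (0, 0), (0, 0), (0, 0), (0, 0), (0, 0), (0, 0), (0, 0), (0, 0)], [(68, 146), (84, 130), (144, 70), (148, 66)]⟩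
def ac22 : Cal := ⟨200000, [(91752, 0), (91752, 0), (0, 45876), (0, 0), (0, 0), (45876, 0), (0, 0), (91752, 0), (0, 0), (0, 0), (0, 0), (0, 0)], [(0, 0), (0, 0), (0, 0), (0, 0), (0, 0), (0, 0), (0, 0), (0, 0), (0, 0), (0, 0), (0, 0), (0, 0)], [(34, 133), (38, 129), (130, 37), (162, 5)]⟩
def ac23 : Cal := ⟨200000, [(0, 0), (0, 45876), (91752, 0), (91752, 0), (91752, 0), (0, 0), (45876, 0), (0, 0), (0, 0), (0, 0), (0, 0), (0, 0)], [(0, 0), (0, 0), (0, 0), (0, 0), (0, 0), (0, 0), (0, 0), (0, 0), (0, 0), (0, 0), (0, 0), (0, 0)], [(20, 74), (24, 70), (68, 26), (84, 10)]⟩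
def ac24 : Cal := ⟨200000, [(91752, 0), (0, 0), (0, 0), (45876, 0), (0, 0), (0, 45876), (91752, 0), (91752, 0), (0, 0), (0, 0), (0, 0), (0, 0)], [(0, 0), (0, 0), (0, 0), (0, 0), (0, 0), (0, 0), (0, 0), (0, 0), (0, 0), (0, 0), (0, 0), (0, 0)], [(96, 137), (104, 129), (136, 97), (168, 65)]⟩
def ac25 : Cal := ⟨100000, [(0, 0), (45414, 0), (47016, 0), (-31644, 45414), (0, 0), (0, 0), (12168, 0), (0, 0), (124074, -33246), (0, 0), (0, 0), (0, 0)], [(0, 0), (0, 0), (0, 0), (0, 0), (0, 0), (0, 0), (0, 0), (0, 0), (0, 0), (0, 0), (0, 0), (0, 0)], [(68, 266), (260, 74), (264, 70), (324, 10)]⟩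
def ac26 : Cal := ⟨100000, [(0, 0), (12168, 0), (0, 0), (0, 0), (-31644, 45414), (47016, 0), (0, 0), (45414, 0), (0, 0), (0, 0), (124074, -33246), (0, 0)], [(0, 0), (0, 0), (0, 0), (0, 0), (0, 0), (0, 0), (0, 0), (0, 0), (0, 0), (0, 0), (0, 0), (0, 0)], [(144, 1058), (1040, 162), (1056, 146), (1168, 34)]⟩
def ac27 : Cal := ⟨100000, [(0, 0), (0, 0), (0, 0), (12168, 0), (0, 0), (45414, 0), (-31644, 45414), (47016, 0), (124074, -33246), (0, 0), (0, 0), (0, 0)], [(0, 0), (0, 0), (0, 0), (0, 0), (0, 0), (0, 0), (0, 0), (0, 0), (0, 0), (0, 0), (0, 0), (0, 0)], [(96, 392), (320, 168), (352, 136), (384, 104)]⟩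
def ac28 : Cal := ⟨100000, [(45414, 0), (0, 0), (-31644, 45414), (47016, 0), (0, 0), (0, 0), (0, 0), (12168, 0), (0, 0), (124074, -33246), (0, 0), (0, 0)], [(0, 0), (0, 0), (0, 0), (0, 0), (0, 0), (0, 0), (0, 0), (0, 0), (0, 0), (0, 0), (0, 0), (0, 0)], [(136, 517), (516, 137), (520, 133), (648, 5)]⟩
def ac29 : Cal := ⟨100000, [(0, 0), (0, 0), (12168, 0), (0, 0), (45414, 0), (0, 0), (47016, 0), (-31644, 45414), (0, 0), (124074, -33246), (0, 0), (0, 0)], [(0, 0), (0, 0), (0, 0), (0, 0), (0, 0), (0, 0), (0, 0), (0, 0), (0, 0), (0, 0), (0, 0), (0, 0)], [(144, 580), (576, 148), (640, 84), (656, 68)]⟩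
def ac30 : Cal := ⟨100000, [(0, 0), (10888, 17176), (40642, 0), (46930, 0), (23464, 0), (0, 0), (23464, 0), (0, 0), (4600, 17176), (0, 0), (0, 0), (0, 0)], [(0, 0), (0, 0), (0, 0), (0, 0), (0, 0), (0, 0), (0, 0), (0, 0), (0, 0), (0, 0), (0, 0), (0, 0)], [(24, 326), (68, 282), (84, 266), (260, 90), (276, 74), (280, 70), (324, 26), (340, 10)]⟩
def ac31 : Cal := ⟨100000, [(0, 0), (23464, 0), (23464, 0), (0, 0), (-64106, 64106), (40642, 0), (0, 0), (40642, 0), (0, 0), (0, 0), (145390, -64106), (0, 0)], [(0, 0), (0, 0), (0, 0), (0, 0), (0, 0), (0, 0), (0, 0), (0, 0), (0, 0), (0, 0), (0, 0), (0, 0)], [(20, 1186), (144, 1062), (148, 1058), (1044, 162), (1056, 150), (1060, 146), (1168, 38), (1172, 34)]⟩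
def ac32 : Cal := ⟨100000, [(23464, 0), (0, 0), (0, 0), (23464, 0), (0, 0), (10888, 17176), (46930, 0), (40642, 0), (4600, 17176), (0, 0), (0, 0), (0, 0)], [(0, 0), (0, 0), (0, 0), (0, 0), (0, 0), (0, 0), (0, 0), (0, 0), (0, 0), (0, 0), (0, 0), (0, 0)], [(96, 393), (104, 385), (136, 353), (168, 321), (352, 137), (384, 105), (392, 97), (424, 65)]⟩
def ac33 : Cal := ⟨100000, [(0, 0), (26376, 12374), (12374, 0), (0, 0), (46180, 0), (47808, 0), (0, 0), (0, 0), (38750, 14002), (0, 0), (0, 0), (0, 0)], [(0, 0), (0, 0), (0, 0), (0, 0), (0, 0), (0, 0), (0, 0), (0, 0), (0, 0), (0, 0), (0, 0), (0, 0)], [(272, 38), (276, 34)]⟩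
def ac34 : Cal := ⟨100000, [(0, 0), (12374, 0), (26376, 12374), (0, 0), (0, 0), (0, 0), (47808, 0), (46180, 0), (0, 0), (0, 0), (0, 0), (38750, 14002)], [(0, 0), (0, 0), (0, 0), (0, 0), (0, 0), (0, 0), (0, 0), (0, 0), (0, 0), (0, 0), (0, 0), (0, 0)], [(68, 2178), (2176, 70)]⟩
def ac35 : Cal := ⟨100000, [(0, 0), (0, 0), (24748, 12374), (47808, 0), (0, 0), (12374, 0), (0, 0), (47808, 0), (0, 0), (0, 0), (23060, 23060), (0, 0)], [(0, 0), (0, 0), (0, 0), (0, 0), (0, 0), (0, 0), (0, 0), (0, 0), (0, 0), (0, 0), (0, 0), (0, 0)], [(136, 1060), (168, 1028)]⟩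
def ac36 : Cal := ⟨100000, [(24748, 12374), (47808, 0), (0, 0), (0, 0), (0, 0), (47808, 0), (0, 0), (12374, 0), (23060, 23060), (0, 0), (0, 0), (0, 0)], [(0, 0), (0, 0), (0, 0), (0, 0), (0, 0), (0, 0), (0, 0), (0, 0), (0, 0), (0, 0), (0, 0), (0, 0)], [(34, 385), (162, 257)]⟩
def ac37 : Cal := ⟨100000, [(26376, 12374), (0, 0), (0, 0), (12374, 0), (47808, 0), (46180, 0), (0, 0), (0, 0), (0, 0), (38750, 14002), (0, 0), (0, 0)], [(0, 0), (0, 0), (0, 0), (0, 0), (0, 0), (0, 0), (0, 0), (0, 0), (0, 0), (0, 0), (0, 0), (0, 0)], [(544, 25), (552, 17)]⟩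
def ac38 : Cal := ⟨100000, [(12374, 0), (0, 0), (0, 0), (26376, 12374), (0, 0), (0, 0), (46180, 0), (47808, 0), (0, 0), (0, 0), (38750, 14002), (0, 0)], [(0, 0), (0, 0), (0, 0), (0, 0), (0, 0), (0, 0), (0, 0), (0, 0), (0, 0), (0, 0), (0, 0), (0, 0)], [(136, 1089), (1088, 137)]⟩
def ac39 : Cal := ⟨100000, [(0, 0), (0, 0), (69240, -12374), (46180, 0), (12374, 0), (0, 0), (47808, 0), (0, 0), (0, 0), (0, 0), (0, 0), (23060, 23060)], [(0, 0), (0, 0), (0, 0), (0, 0), (0, 0), (0, 0), (0, 0), (0, 0), (0, 0), (0, 0), (0, 0), (0, 0)], [(2056, 84), (2072, 68)]⟩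
def ac40 : Cal := ⟨100000, [(69240, -12374), (46180, 0), (0, 0), (0, 0), (47808, 0), (0, 0), (12374, 0), (0, 0), (0, 0), (23060, 23060), (0, 0), (0, 0)], [(0, 0), (0, 0), (0, 0), (0, 0), (0, 0), (0, 0), (0, 0), (0, 0), (0, 0), (0, 0), (0, 0), (0, 0)], [(514, 81), (578, 17)]⟩
def ac41 : Cal := ⟨100000, [(0, 0), (0, 0), (0, 0), (21472, 0), (24794, 0), (35254, 5230), (48162, 0), (31920, 0), (-5782, 26702), (0, 0), (0, 0), (0, 0)], [(0, 0), (0, 0), (0, 0), (0, 0), (0, 0), (0, 0), (0, 0), (0, 0), (0, 0), (0, 0), (0, 0), (0, 0)], [(96, 408), (112, 392), (224, 280), (272, 232), (336, 168), (352, 152), (368, 136), (400, 104)]⟩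
def ac42 : Cal := ⟨100000, [(21472, 0), (0, 0), (0, 0), (0, 0), (65734, -19522), (48162, 0), (44316, 0), (24794, 0), (0, 0), (0, 0), (0, 0), (37094, 1950)], [(0, 0), (0, 0), (0, 0), (0, 0), (0, 0), (0, 0), (0, 0), (0, 0), (0, 0), (0, 0), (0, 0), (0, 0)], [(96, 2193), (112, 2177), (224, 2065), (2144, 145), (2176, 113), (2192, 97), (2208, 81), (2272, 17)]⟩
def ac43 : Cal := ⟨100000, [(24794, 0), (35254, 5230), (31920, 0), (48162, 0), (0, 0), (0, 0), (21472, 0), (0, 0), (-5782, 26702), (0, 0), (0, 0), (0, 0)], [(0, 0), (0, 0), (0, 0), (0, 0), (0, 0), (0, 0), (0, 0), (0, 0), (0, 0), (0, 0), (0, 0), (0, 0)], [(10, 325), (14, 321), (68, 267), (70, 265), (74, 261), (78, 257), (266, 69), (324, 11)]⟩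
def ac44 : Cal := ⟨100000, [(0, 0), (21472, 0), (0, 0), (0, 0), (14348, 19522), (31920, 0), (24794, 0), (44316, 0), (0, 0), (0, 0), (37094, 1950), (0, 0)], [(0, 0), (0, 0), (0, 0), (0, 0), (0, 0), (0, 0), (0, 0), (0, 0), (0, 0), (0, 0), (0, 0), (0, 0)], [(144, 1122), (176, 1090), (208, 1058), (1088, 178), (1104, 162), (1120, 146), (1168, 98), (1232, 34)]⟩
def ac45 : Cal := ⟨100000, [(35254, 5230), (24794, 0), (48162, 0), (31920, 0), (0, 0), (0, 0), (0, 0), (21472, 0), (0, 0), (-5782, 26702), (0, 0), (0, 0)], [(0, 0), (0, 0), (0, 0), (0, 0), (0, 0), (0, 0), (0, 0), (0, 0), (0, 0), (0, 0), (0, 0), (0, 0)], [(136, 519), (138, 517), (514, 141), (518, 137), (522, 133), (642, 13), (648, 7), (650, 5)]⟩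
def ac46 : Cal := ⟨100000, [(22836, 0), (0, 0), (0, 0), (27074, 0), (0, 0), (11904, 17370), (44448, 0), (34744, 0), (2200, 21608), (0, 0), (0, 0), (0, 0)], [(0, 0), (0, 0), (0, 0), (0, 0), (0, 0), (0, 0), (0, 0), (0, 0), (0, 0), (0, 0), (0, 0), (0, 0)], [(96, 393), (104, 385), (136, 353), (168, 321), (232, 257), (352, 137), (392, 97)]⟩
def ac47 : Cal := ⟨100000, [(0, 0), (11904, 17370), (34744, 0), (44448, 0), (22836, 0), (0, 0), (27074, 0), (0, 0), (2200, 21608), (0, 0), (0, 0), (0, 0)], [(0, 0), (0, 0), (0, 0), (0, 0), (0, 0), (0, 0), (0, 0), (0, 0), (0, 0), (0, 0), (0, 0), (0, 0)], [(68, 282), (84, 266), (272, 78), (276, 74), (280, 70), (324, 26), (340, 10)]⟩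
def ac48 : Cal := ⟨100000, [(0, 0), (27074, 0), (22836, 0), (0, 0), (-67854, 64836), (34744, 0), (0, 0), (42000, 0), (0, 0), (0, 0), (144598, -60598), (0, 0)], [(0, 0), (0, 0), (0, 0), (0, 0), (0, 0), (0, 0), (0, 0), (0, 0), (0, 0), (0, 0), (0, 0), (0, 0)], [(144, 1062), (148, 1058), (1028, 178), (1044, 162), (1060, 146), (1168, 38), (1172, 34)]⟩
def ac49 : Cal := ⟨100000, [(-67854, 64836), (34744, 0), (42000, 0), (0, 0), (0, 0), (27074, 0), (0, 0), (22836, 0), (0, 0), (0, 0), (0, 0), (144598, -60598)], [(0, 0), (0, 0), (0, 0), (0, 0), (0, 0), (0, 0), (0, 0), (0, 0), (0, 0), (0, 0), (0, 0), (0, 0)], [(34, 2181), (38, 2177), (162, 2053), (2082, 133), (2176, 39), (2178, 37), (2210, 5)]⟩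
def ac50 : Cal := ⟨100000, [(11904, 17370), (0, 0), (44448, 0), (34744, 0), (0, 0), (22836, 0), (0, 0), (27074, 0), (0, 0), (2200, 21608), (0, 0), (0, 0)], [(0, 0), (0, 0), (0, 0), (0, 0), (0, 0), (0, 0), (0, 0), (0, 0), (0, 0), (0, 0), (0, 0), (0, 0)], [(136, 549), (168, 517), (544, 141), (548, 137), (552, 133), (648, 37), (680, 5)]⟩
def ac51 : Cal := ⟨100000, [(0, 0), (0, 0), (0, 0), (43082, 0), (24874, 0), (38206, 6666), (36416, 0), (0, 0), (-23084, 49748), (0, 0), (0, 0), (0, 0)], [(0, 0), (0, 0), (0, 0), (0, 0), (0, 0), (0, 0), (0, 0), (0, 0), (0, 0), (0, 0), (0, 0), (0, 0)], [(96, 280), (112, 264), (272, 104), (336, 40)]⟩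
def ac52 : Cal := ⟨100000, [(43082, 0), (0, 0), (0, 0), (0, 0), (0, 0), (36416, 0), (38206, 6666), (24874, 0), (0, 0), (0, 0), (0, 0), (-23084, 49748)], [(0, 0), (0, 0), (0, 0), (0, 0), (0, 0), (0, 0), (0, 0), (0, 0), (0, 0), (0, 0), (0, 0), (0, 0)], [(96, 2177), (224, 2049), (2176, 97), (2208, 65)]⟩
def ac53 : Cal := ⟨100000, [(0, 0), (36416, 0), (24874, 0), (38206, 6666), (43082, 0), (0, 0), (0, 0), (0, 0), (0, 0), (0, 0), (-23084, 49748), (0, 0)], [(0, 0), (0, 0), (0, 0), (0, 0), (0, 0), (0, 0), (0, 0), (0, 0), (0, 0), (0, 0), (0, 0), (0, 0)], [(24, 1030), (1028, 26), (1040, 14), (1044, 10)]⟩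
def ac54 : Cal := ⟨100000, [(24874, 0), (38206, 6666), (0, 0), (36416, 0), (0, 0), (0, 0), (43082, 0), (0, 0), (-23084, 49748), (0, 0), (0, 0), (0, 0)], [(0, 0), (0, 0), (0, 0), (0, 0), (0, 0), (0, 0), (0, 0), (0, 0), (0, 0), (0, 0), (0, 0), (0, 0)], [(10, 321), (66, 265), (74, 257), (320, 11)]⟩
def ac55 : Cal := ⟨100000, [(0, 0), (0, 0), (43082, 0), (0, 0), (38206, 6666), (24874, 0), (0, 0), (36416, 0), (0, 0), (-23084, 49748), (0, 0), (0, 0)], [(0, 0), (0, 0), (0, 0), (0, 0), (0, 0), (0, 0), (0, 0), (0, 0), (0, 0), (0, 0), (0, 0), (0, 0)], [(144, 548), (176, 516), (544, 148), (672, 20)]⟩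
def ac56 : Cal := ⟨100000, [(0, 0), (43082, 0), (0, 0), (0, 0), (36416, 0), (0, 0), (24874, 0), (38206, 6666), (0, 0), (0, 0), (-23084, 49748), (0, 0)], [(0, 0), (0, 0), (0, 0), (0, 0), (0, 0), (0, 0), (0, 0), (0, 0), (0, 0), (0, 0), (0, 0), (0, 0)], [(144, 1090), (208, 1026), (1088, 146), (1104, 130)]⟩
def ac57 : Cal := ⟨100000, [(36416, 0), (0, 0), (38206, 6666), (24874, 0), (0, 0), (43082, 0), (0, 0), (0, 0), (0, 0), (0, 0), (0, 0), (-23084, 49748)], [(0, 0), (0, 0), (0, 0), (0, 0), (0, 0), (0, 0), (0, 0), (0, 0), (0, 0), (0, 0), (0, 0), (0, 0)], [(36, 2057), (2056, 37), (2080, 13), (2088, 5)]⟩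
def ac58 : Cal := ⟨100000, [(38206, 6666), (24874, 0), (36416, 0), (0, 0), (0, 0), (0, 0), (0, 0), (43082, 0), (0, 0), (-23084, 49748), (0, 0), (0, 0)], [(0, 0), (0, 0), (0, 0), (0, 0), (0, 0), (0, 0), (0, 0), (0, 0), (0, 0), (0, 0), (0, 0), (0, 0)], [(514, 133), (518, 129), (640, 7), (642, 5)]⟩
def acals : List Cal := [ac0, ac1, ac2, ac3, ac4, ac5, ac6, ac7, ac8, ac9, ac10, ac11, ac12, ac13, ac14, ac15, ac16, ac17, ac18, ac19, ac20, ac21, ac22, ac23, ac24, ac25, ac26, ac27, ac28, ac29, ac30, ac31, ac32, ac33, ac34, ac35, ac36, ac37, ac38, ac39, ac40, ac41, ac42, ac43, ac44, ac45, ac46, ac47, ac48, ac49, ac50, ac51, ac52, ac53, ac54, ac55, ac56, ac57, ac58]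
def at0 : Cert := (R 6 6 (S (C 24 (S (C 27 (S (C 32 (S (C 38 (S (R 10 8 (S (R 8 8 (S (R 8 8 (S (R 8 4 (S (R 8 10 (S (R 6 11 (S (R 6 11 (S (R 6 3 (S (R 6 4 (S (R 6 4 (S (R 6 3 (S (R 6 2 (S (C 20 (S (C 28 (S (C 45 (S (R 1 1 N) N)) N)) N)) N)) N)) N)) N)) N)) N)) N)) N)) N)) N)) N)) N)) N)) N)) N)) N)) N))
def at1 : Cert := (R 0 0 (S (R 30 9 (S (R 29 3 (S (R 7 1 (S (R 32 9 (S (R 4 1 (S (R 4 8 (S (R 4 11 (S (R 3 3 (S (R 2 5 (S (R 2 5 (S (R 2 11 (S (R 2 4 (S (R 2 2 (S (R 2 2 (S (R 2 7 (S (C 58 N) (S (C 45 (S (C 58 N) N)) N))) N)) N)) N)) N)) N)) N)) N)) N)) N)) N)) N)) N)) N)) N)) (S (R 29 11 (S (R 29 11 (S (R 18 0 (S (R 13 1 (S (R 34 11 (S (R 5 1 (S (R 5 8 (S (R 5 4 (S (R 3 9 (S (R 2 3 (S (R 2 3 (S (R 2 8 (S (R 2 2 (S (R 2 2 (S (R 2 5 (S (R 0 4 (S (R 0 6 (S (C 43 (S (C 54 N) N)) (S (C 54 N) N))) N)) N)) N)) N)) N)) N)) N))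 N)) N)) N)) N)) N)) N)) N)) N)) N)) N)))
def at2 : Cert := (C 35 (S (R 8 7 (S (R 38 8 (S (R 30 7 (S (R 22 4 (S (R 9 9 (S (R 9 11 (S (R 8 3 (S (R 8 7 (S (R 8 9 (S (R 8 6 (S (C 29 (S (R 50 9 (S (R 10 2 (S (R 9 2 (S (R 9 0 (S (R 9 10 (S (R 9 11 (S (R 9 1 (S (C 48 (S (R 0 3 N) N)) N)) N)) N)) N)) N)) N)) N)) N)) N)) N)) N)) N)) N)) N)) N)) N)) N)) N)) N))
def at3 : Cert := (R 5 10 (S (R 5 7 (S (R 5 10 (S (R 4 5 (S (R 4 10 (S (R 4 4 (S (C 29 (S (R 4 9 (S (R 4 4 (S (R 4 3 (S (R 4 3 (S (R 4 11 (S (R 4 5 (S (R 4 2 (S (R 4 2 (S (R 4 2 (S (R 3 4 (S (R 2 1 (S (C 56 N) (S (C 44 (S (C 56 N) N)) N))) N)) N)) N)) N)) N)) N)) N)) N)) N)) N)) N)) N)) N)) N)) N)) N)) N))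
def at4 : Cert := (R 5 11 (S (R 5 9 (S (R 5 8 (S (R 5 8 (S (R 5 5 (S (C 27 (S (R 5 9 (S (R 5 3 (S (R 5 5 (S (R 5 5 (S (R 5 3 (S (R 4 8 (S (R 4 2 (S (R 4 3 (S (R 4 4 (S (R 4 2 (S (R 4 4 (S (R 4 0 (S (C 42 (S (C 52 N) N)) (S (C 52 N) N))) N)) N)) N)) N)) N)) N)) N)) N)) N)) N)) N)) N)) N)) N)) N)) N)) N))
def at5 : Cert := (R 0 6 (S (R 28 8 (S (R 22 7 (S (R 32 8 (S (R 15 11 (S (R 10 6 (S (R 37 8 (S (R 6 7 (S (R 6 9 (S (R 5 11 (S at3 N)) N)) N)) N)) N)) N)) N)) N)) N)) (S (R 30 11 (S (R 29 4 (S (R 17 7 (S (R 35 11 (S (R 16 11 (S (R 9 6 (S (R 6 7 (S (C 35 (S (R 7 10 (S (R 7 9 (S (R 6 9 (S (R 6 10 (S (R 5 2 (S at4 N)) N)) N)) N)) N)) N)) N)) N)) N)) N)) N)) N)) N)) N)))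
def at6 : Cert := (C 4 (S (R 0 11 (S (R 0 9 (S (R 0 8 (S at1 N)) N)) N)) (S (R 0 11 (S (R 0 9 (S (R 0 8 (S (C 10 (S (R 1 10 (S (C 53 (S (R 2 8 (S (R 2 1 (S (R 2 8 (S (R 2 3 (S (R 1 5 (S (R 36 3 (S (R 13 1 (S (R 37 5 (S (R 4 2 (S at2 N)) N)) N)) N)) N)) N)) N)) N)) N)) N)) N)) (S (R 5 10 (S (R 1 9 (S (R 0 8 (S (R 0 3 (S at5 N)) N)) N)) N)) N))) N)) N)) N)) N)))
def at7 : Cert := (R 6 11 (S (R 6 6 (S (C 24 (S (C 32 (S (C 38 (S (R 7 9 (S (R 7 9 (S (R 7 9 (S (R 7 10 (S (R 7 10 (S (R 6 11 (S (R 6 11 (S (R 6 8 (S (R 6 8 (S (R 6 3 (S (R 6 4 (S (R 6 2 (S (C 20 (S (C 28 (S (C 45 (S (R 1 1 N) N)) N)) N)) N)) N)) N)) N)) N)) N)) N)) N)) N)) N)) N)) N)) N)) N)) N)) N)) N))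
def at8 : Cert := (C 11 (S (R 1 7 (S (R 19 11 (S (R 11 7 (S (R 6 7 (S (R 24 11 (S (R 21 3 (S (R 6 11 (S at0 N)) N)) N)) N)) N)) N)) (S (R 0 2 (S (R 25 9 (S (R 24 3 (S (R 2 1 (S (C 58 (S (C 22 (S (C 45 (S (R 1 3 N) N)) N)) N)) N)) N)) N)) (S at6 N))) N))) (S (R 9 7 (S (R 19 8 (S (R 2 5 (S (R 4 7 (S (C 27 (S (R 8 7 (S (R 26 11 (S (R 23 3 (S (R 6 11 (S at7 N)) N)) N)) N)) N)) N)) N)) N)) N)) N)))
def at9 : Cert := (R 3 7 (S (C 2 (S (R 0 10 (S (R 0 3 (S (R 0 11 (S (C 52 (S (R 1 5 (S (R 1 4 (S (R 1 2 (S (R 1 8 (S (R 0 3 (S (R 10 5 (S (R 1 1 (S (C 15 (S (R 0 11 (S (R 0 8 (S (R 0 1 (S (C 49 (S (R 0 3 N) N)) N)) N)) N)) (S (R 0 6 N) N))) N)) N)) N)) N)) N)) N)) N)) N)) N)) N)) N)) (S (R 0 4 N) N))) N))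
def at10 : Cert := (R 5 7 (S (R 17 3 (S (R 4 2 (S (R 26 4 (S (R 5 11 (S (R 5 11 (S (R 4 4 (S (R 4 10 (S (R 4 8 (S (R 4 10 (S (R 4 8 (S (R 4 8 (S (R 4 1 (S (R 4 6 (S (R 4 2 (S (R 4 1 (S (R 4 1 (S (R 3 10 (S (R 3 1 (S (R 3 0 (S (R 3 0 (S at9 N)) N)) N)) N)) N)) N)) N)) N)) N)) N)) N)) N)) N)) N)) N)) N)) N)) N)) N)) N)) N))
def at11 : Cert := (C 13 (S (R 2 7 (S (R 36 1 (S (R 3 7 (S (R 3 3 (S (C 38 (S (R 25 7 (S (R 37 3 (S (R 15 10 (S (R 7 10 (S (R 7 11 (S (R 6 11 (S (C 49 (S (R 0 3 N) N)) N)) N)) N)) N)) N)) N)) N)) N)) N)) N)) N)) (S (C 36 (S (R 9 7 (S (R 3 7 (S (R 3 8 (S (R 28 7 (S (R 4 6 (S (R 2 4 (S (R 1 3 (S (R 0 11 (S (R 0 2 (S (R 3 9 (S (C 55 N) (S (C 58 (S (R 48 7 (S (R 10 9 (S (C 55 (S (R 0 0 N) N)) N)) N)) N)) N))) N)) N)) N)) N)) N)) N)) N)) N)) N)) N)) N)))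
def at12 : Cert := (C 10 (S (R 6 10 (S (R 2 10 (S (C 53 (S (R 3 8 (S (R 3 1 (S (R 3 1 (S (R 3 8 (S (R 3 3 (S (R 10 10 (S (R 2 5 (S (R 21 1 (S (R 3 7 (S (R 2 6 (S (R 1 2 (S (R 1 0 (S (R 1 1 (S (C 48 (S (R 0 3 N) N)) N)) N)) N)) N)) N)) N)) N)) N)) N)) N)) N)) N)) N)) N)) N)) N)) (S (R 11 10 (S (R 32 5 (S (R 2 8 (S (R 1 8 (S (R 1 7 (S (R 7 10 (S (R 2 4 (S (R 2 6 (S (R 1 2 (S (R 1 3 (S (R 1 0 (S (R 10 1 (S (C 56 N) (S (C 44 (S (C 56 N) N)) N))) N)) N)) N)) N)) N)) N)) N)) N)) N)) N)) N)) N)))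
def at13 : Cert := (C 4 (S (R 5 2 (S (R 27 4 (S (R 2 11 (S (R 2 1 (S (R 2 8 (S (R 2 8 (S (R 1 5 (S (R 8 1 (S (R 2 1 (S (R 2 6 (S (R 1 0 (S at11 N)) N)) N)) N)) N)) N)) N)) N)) N)) N)) N)) (S (R 1 2 (S (R 24 5 (S (R 2 11 (S (R 1 4 (S (R 16 7 (S (R 10 7 (S (R 3 8 (S (R 3 8 (S (R 1 7 (S (R 1 0 (S (R 1 6 (S at12 N)) N)) N)) N)) N)) N)) N)) N)) N)) N)) N)) N)))
def at14 : Cert := (R 0 6 (S (R 16 3 (S (R 19 4 (S at10 N)) (S (R 0 11 (S (R 0 8 (S (R 0 0 (S at13 N)) N)) N)) N))) (S (R 16 11 (S (R 15 4 (S (R 5 7 (S (R 21 11 (S (R 4 10 (S (R 4 10 (S (R 4 9 (S (R 3 4 (S (R 3 8 (S (R 3 9 (S (R 3 8 (S (R 3 9 (S (R 3 7 (S (C 35 (S (C 52 (S (C 24 (S (C 42 (S (R 1 4 N) N)) N)) N)) N)) N)) N)) N)) N)) N)) N)) N)) N)) N)) N)) N)) N)) N)) N)))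
def at15 : Cert := (R 0 0 (S (R 16 8 (S (R 3 0 (S (R 17 8 (S (R 17 4 (S (R 4 1 (S (C 19 (S (C 40 (S (R 6 6 (S (R 5 6 (S (R 20 1 (S (C 16 (S (R 24 1 (S (R 8 6 (S (R 8 9 (S (R 6 4 (S (R 6 7 (S (R 6 11 (S (C 42 (S (R 0 1 N) N)) N)) N)) N)) N)) N)) N)) N)) N)) N)) N)) N)) N)) N)) N)) N)) N)) N)) (S (R 0 5 (S (R 12 11 (S (R 11 4 (S (R 2 10 (S (R 2 10 (S (R 2 8 (S (R 2 7 (S (C 35 (S (C 52 (S (C 24 (S (C 42 (S (R 1 4 N) N)) N)) N)) N)) N)) N)) N)) N)) N)) N)) (S (R 0 10 (S (C 10 N) (S (C 37 (S (R 1 9 (S (R 1 11 (S (R 0 8 (S at8 N)) N)) N)) (S (R 0 11 (S at14 N)) N))) N))) N))) N)))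
def at16 : Cert := (C 6 (S (R 1 9 (S (R 27 3 (S (R 2 4 (S (R 5 9 (S (R 2 2 (S (R 2 1 (S (R 1 6 (S (R 1 0 (S (R 1 5 (S (R 8 7 (S (C 58 N) (S (C 45 (S (C 58 N) N)) N))) N)) N)) N)) N)) N)) N)) N)) N)) N)) (S (R 7 9 (S (C 55 (S (R 6 9 (S (R 3 6 (S (R 3 7 (S (R 3 6 (S (R 3 7 (S (R 3 5 (S (R 0 4 (S (C 37 (S (R 12 9 (S (R 5 3 (S (R 13 7 (S (R 4 7 (S (C 50 (S (R 0 4 N) N)) N)) N)) N)) N)) N)) N)) N)) N)) N)) N)) N)) N)) N)) N)) N)))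
def at17 : Cert := (R 0 0 (S (R 18 5 (S (R 18 3 (S (R 2 1 (S (R 2 4 (S (R 2 2 (S (R 8 0 (S (R 2 8 (S (R 2 6 (S (R 1 6 (S at16 N)) N)) N)) N)) N)) N)) N)) N)) N)) (S (C 37 (S (R 18 8 (S (R 8 0 (S (R 19 4 (S (R 4 9 (S (R 4 8 (S (R 4 3 (S (R 25 5 (S (R 4 3 (S (R 4 1 (S (R 4 2 (S (R 4 2 (S (R 15 5 (S (C 17 (S (R 27 2 (S (R 7 9 (S (R 7 2 (S (R 7 6 (S (C 54 (S (R 0 2 N) N)) N)) N)) N)) N)) N)) N)) N)) N)) N)) N)) N)) N)) N)) N)) N)) N)) N)) N)) N)))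
def at18 : Cert := (R 6 0 (S (R 4 5 (S (R 3 10 (S (R 3 10 (S (R 9 0 (S (R 3 4 (S (R 3 7 (S (R 16 1 (S (R 4 2 (S (R 4 1 (S (R 4 8 (S (R 4 4 (S (R 1 1 (S (R 1 8 (S (R 5 11 (S (C 52 (S (R 42 0 (S (R 16 11 (S (C 57 (S (R 0 6 N) N)) N)) N)) N)) (S (C 57 N) N))) N)) N)) N)) N)) N)) N)) N)) N)) N)) N)) N)) N)) N)) N))
def at19 : Cert := (R 2 10 (S (R 2 10 (S (R 2 4 (S (R 1 6 (S (R 1 8 (S (C 24 (S (C 38 (S (R 10 0 (S (R 31 6 (S (C 14 (S at18 N)) N)) N)) N)) (S (R 5 0 (S (R 29 7 (S (R 4 0 (S (R 3 4 (S (R 21 0 (S (R 32 4 (S (R 5 1 (S (R 5 8 (S (R 4 8 (S (C 46 (S (R 0 4 N) N)) N)) N)) N)) N)) N)) N)) N)) N)) N)) N))) N)) N)) N)) N)) N))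
def at20 : Cert := (C 39 (S (R 1 11 (S (R 1 8 (S at15 N)) N)) (S (R 0 8 (S (R 0 1 (S (C 4 (S (R 0 8 (S at17 N)) (S (R 1 5 (S (R 12 2 (S (R 2 8 (S (R 2 7 (S (R 2 3 (S (R 2 7 (S (C 35 (S at19 N)) N)) N)) N)) N)) N)) N)) N))) (S (R 15 11 (S (R 1 0 (S (C 54 (S (C 19 (S (C 43 (S (R 1 2 N) N)) N)) N)) N)) N)) N))) N)) N)))
def at21 : Cert := (R 0 3 (S (R 10 8 (S (R 9 2 (S (R 2 9 (S (R 2 9 (S (R 2 4 (S (R 2 0 (S (C 37 (S (C 54 (S (C 19 (S (C 43 (S (R 1 2 N) N)) N)) N)) N)) N)) N)) N)) N)) N)) N)) (S (R 0 10 (S (R 7 8 (S (R 1 11 (S (R 6 8 (S (R 2 4 (S (R 2 7 (S (C 56 (S (C 44 (S (R 1 5 N) N)) N)) N)) N)) N)) N)) N)) (S (R 0 9 (S (C 6 N) (S at20 N))) N))) N)))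
def at22 : Cert := (C 16 (S (R 6 6 (S (R 4 7 (S (R 4 7 (S (R 4 9 (S (R 4 9 (S (R 10 6 (S (R 4 3 (S (R 3 0 (S (R 15 7 (S (R 4 5 (S (R 4 7 (S (R 4 2 (S (R 4 2 (S (R 3 8 (S (C 54 (S (R 37 6 (S (R 15 8 (S (C 51 (S (R 0 1 N) N)) N)) N)) N)) (S (C 51 N) N))) N)) N)) N)) N)) N)) N)) N)) N)) N)) N)) N)) N)) N)) N))
def at23 : Cert := (R 3 7 (S (R 3 7 (S (R 3 1 (S (R 13 7 (S (R 3 2 (S (C 34 (S (R 4 11 (S (R 4 5 (S (R 12 7 (S (R 5 11 (S (R 5 11 (S (R 5 5 (S (R 4 9 (S (R 4 11 (S (R 2 9 (S (R 0 0 (S (C 25 (S (C 47 (S (C 30 N) N)) (S (C 43 (S (R 1 0 N) N)) N))) N)) N)) N)) N)) N)) N)) N)) N)) N)) N)) N)) N)) N)) N)) N)) N))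
def at24 : Cert := (R 5 7 (S (R 5 5 (S (C 36 (S (R 6 0 (S (R 6 3 (S (R 19 0 (S (R 7 8 (S (R 7 8 (S (R 7 3 (S (R 7 0 (S (R 7 6 (S (R 6 11 (S (R 6 8 (S (R 4 11 (S (R 3 3 (S (R 0 11 (S (C 26 (S (C 44 (S (R 1 6 N) N)) (S (C 48 (S (C 31 N) N)) N))) N)) N)) N)) N)) N)) N)) N)) N)) N)) N)) N)) N)) N)) N)) N)) N))
def at25 : Cert := (C 18 (S (R 6 1 (S (R 4 5 (S (R 4 0 (S (R 4 11 (S (R 4 11 (S (R 14 1 (S (R 4 4 (S (R 3 6 (S (R 13 0 (S (R 4 3 (S (R 4 0 (S (R 4 0 (S (R 4 5 (S (R 3 10 (S (C 53 N) (S (C 56 (S (R 32 1 (S (R 15 10 (S (C 53 (S (R 0 7 N) N)) N)) N)) N)) N))) N)) N)) N)) N)) N)) N)) N)) N)) N)) N)) N)) N)) N)) N))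
def at26 : Cert := (R 7 3 (S (R 3 11 (S (R 3 5 (S (R 3 5 (S (R 3 11 (S (R 3 7 (S (R 1 2 (S (C 21 (S (R 2 1 (S (R 2 1 (S (R 21 6 (S (R 15 6 (S (R 4 8 (S (R 3 8 (S (R 3 7 (S (C 18 (S (R 12 0 (S at24 N)) N)) N)) N)) N)) N)) N)) N)) N)) (S (C 34 (S (R 5 1 (S (R 22 7 (S at25 N)) N)) N)) N))) N)) N)) N)) N)) N)) N)) N))
def at27 : Cert := (R 37 6 (S (R 5 10 (S (R 9 0 (S (R 6 8 (S (R 3 10 (S (R 3 2 (S (R 2 5 (S (R 2 7 (S (R 1 4 (S (R 1 8 (S (R 1 1 (S (R 1 4 (S (R 13 11 (S (C 52 N) (S (C 57 (S (R 47 5 (S (R 15 11 (S (R 13 11 (S (R 11 11 (S (C 52 (S (R 0 2 N) N)) N)) N)) N)) N)) N)) N))) N)) N)) N)) N)) N)) N)) N)) N)) N)) N)) N)) N))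
def at28 : Cert := (R 4 10 (S (R 4 1 (S (R 3 1 (S (R 3 1 (S (R 3 6 (S (C 27 (S (C 41 (S (R 1 4 N) N)) (S (R 8 8 (S (R 5 8 (S (R 2 2 (S (R 6 8 (S (R 1 10 (S (R 0 1 (S (C 14 (S (C 38 (S (R 9 0 (S (R 8 0 (S (R 8 0 (S at27 N)) N)) N)) N)) (S (C 46 (S (C 32 N) N)) N))) N)) N)) N)) N)) N)) N)) N))) N)) N)) N)) N)) N))
def at29 : Cert := (C 4 (S (R 1 3 (S (R 10 5 (S (R 2 1 (S (R 2 0 (S (R 2 4 (S (R 2 0 (S (C 37 (S (R 2 9 (S (R 2 9 (S (R 2 2 (S (C 19 (S (C 40 (S (R 8 6 (S (R 17 1 (S at22 N)) N)) N)) (S (R 3 6 (S (R 18 0 (S (R 4 6 (S at23 N)) N)) N)) N))) N)) N)) N)) N)) N)) N)) N)) N)) N)) N)) (S (R 0 6 (S (C 39 (S (R 8 4 (S at26 N)) N)) (S (R 5 3 (S (R 8 4 (S (R 2 7 (S (C 35 (S (R 3 2 (S (R 7 7 (S (R 4 5 (S (R 4 10 (S (R 4 4 (S (R 4 10 (S at28 N)) N)) N)) N)) N)) N)) N)) N)) N)) N)) N))) N)))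
def at30 : Cert := (C 33 (S (R 0 6 (S (R 4 2 (S (R 1 7 (S (C 21 (S (C 34 (S (R 10 5 (S (R 4 1 (S (R 4 11 (S (R 3 5 (S (R 3 1 (S (R 18 7 (S (C 18 (S (R 19 7 (S (R 6 0 (S (R 6 3 (S (C 23 (S (C 25 (S (C 43 (S (R 1 0 N) N)) N)) N)) N)) N)) N)) N)) N)) N)) N)) N)) N)) N)) N)) N)) N)) N)) (S at21 N))) (S at29 N)))
def acert : Cert := (C 0 (S (C 1 (S (C 3 (S (C 5 (S (C 7 (S (C 8 (S (C 9 (S (C 12 (S at30 N)) N)) N)) N)) N)) N)) N)) N))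
def ap : List (Z3 × Z3) := [((6, 0), (6, 0)), ((-6, 0), (-6, 0)), ((-6, 0), (6, 0)), ((6, 0), (-6, 0)), ((6, 0), (6, 0)), ((-6, 0), (-6, 0)), ((-6, 0), (6, 0)), ((6, 0), (-6, 0)), ((6, 0), (6, 0)), ((-6, 0), (-6, 0)), ((-6, 0), (6, 0)), ((6, 0), (-6, 0))]
def an : List (Z3 × Z3) := [((1, 0), (0, 1)), ((-1, 0), (0, -1)), ((-1, 0), (0, 1)), ((1, 0), (0, -1)), ((0, 1), (1, 0)), ((0, -1), (-1, 0)), ((0, -1), (1, 0)), ((0, 1), (-1, 0)), ((1, 0), (1, 0)), ((-1, 0), (-1, 0)), ((-1, 0), (1, 0)), ((1, 0), (-1, 0))]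
def bc0 : Cal := ⟨2, [(1, 0), (1, 0), (1, 0), (1, 0), (0, 0), (0, 0), (0, 0), (0, 0)], [(0, 0), (0, 0), (0, 0), (0, 0), (0, 0), (0, 0), (0, 0), (0, 0)], [(10, 5)]⟩
def bc1 : Cal := ⟨2, [(1, 0), (1, 0), (1, 0), (1, 0), (-1, 1), (-1, 1), (-1, 1), (-1, 1)], [(0, 0), (0, 0), (0, 0), (0, 0), (0, 0), (0, 0), (0, 0), (0, 0)], [(10, 245), (18, 237), (24, 231), (26, 229), (30, 225), (36, 219), (38, 217), (42, 213), (58, 197), (66, 189), (70, 185), (72, 183), (74, 181), (78, 177), (82, 173), (86, 169), (88, 167), (90, 165), (94, 161), (98, 157), (100, 155), (102, 153), (106, 149), (110, 145), (114, 141), (118, 137), (120, 135), (122, 133), (126, 129), (132, 123), (138, 117), (152, 103), (154, 101), (164, 91), (166, 89), (180, 75), (186, 69), (202, 53), (210, 45), (216, 39), (218, 37), (222, 33), (228, 27), (230, 25), (234, 21),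 (250, 5)]⟩
def bc2 : Cal := ⟨100, [(0, 0), (0, 0), (0, 0), (0, 0), (0, 0), (0, 0), (0, 0), (0, 0)], [(62, 60), (-60, -63), (-83, 24), (21, -84), (60, 63), (0, 0), (0, 0), (0, 0)], [(6, 25), (10, 21), (14, 17)]⟩
def bc3 : Cal := ⟨100, [(0, 0), (0, 0), (0, 0), (0, 0), (0, 0), (0, 0), (0, 0), (0, 0)], [(83, 23), (-21, -84), (-62, 61), (60, -63), (0, 0), (0, 0), (-60, 63), (0, 0)], [(10, 69), (68, 11), (70, 9)]⟩
def bc4 : Cal := ⟨100, [(0, 0), (0, 0), (0, 0), (0, 0), (0, 0), (0, 0), (0, 0), (0, 0)], [(21, 85), (-83, -24), (-60, 63), (62, -61), (0, 0), (0, 0), (0, 0), (60, -63)], [(6, 137), (136, 7), (138, 5)]⟩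
def bc5 : Cal := ⟨100, [(0, 0), (0, 0), (0, 0), (0, 0), (0, 0), (0, 0), (0, 0), (0, 0)], [(60, 64), (-62, -61), (-21, 84), (83, -24), (0, 0), (-60, -63), (0, 0), (0, 0)], [(34, 13), (38, 9), (42, 5)]⟩
def bc6 : Cal := ⟨100, [(0, 0), (0, 0), (0, 0), (0, 0), (0, 0), (0, 0), (0, 0), (0, 0)], [(58, 79), (-94, -29), (-98, 11), (72, -67), (62, 6), (0, 0), (0, 0), (0, 0)], [(6, 25), (14, 17), (22, 9), (24, 7)]⟩
def bc7 : Cal := ⟨100, [(0, 0), (0, 0), (0, 0), (0, 0), (0, 0), (0, 0), (0, 0), (0, 0)], [(99, 11), (-72, -67), (-59, 79), (94, -29), (0, 0), (0, 0), (-62, 6), (0, 0)], [(6, 73), (66, 13), (68, 11), (70, 9)]⟩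
def bc8 : Cal := ⟨100, [(0, 0), (0, 0), (0, 0), (0, 0), (0, 0), (0, 0), (0, 0), (0, 0)], [(71, 67), (-98, -11), (-94, 29), (59, -79), (0, 0), (0, 0), (0, 0), (62, -6)], [(6, 137), (14, 129), (134, 9), (136, 7)]⟩
def bc9 : Cal := ⟨100, [(0, 0), (0, 0), (0, 0), (0, 0), (0, 0), (0, 0), (0, 0), (0, 0)], [(95, 29), (-59, -79), (-72, 67), (98, -11), (0, 0), (-62, -6), (0, 0), (0, 0)], [(6, 41), (34, 13), (36, 11), (38, 9)]⟩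
def bcals : List Cal := [bc0, bc1, bc2, bc3, bc4, bc5, bc6, bc7, bc8, bc9]
def bcert : Cert := (C 0 (S (C 6 (S (R 1 4 (S (C 7 (S (C 3 N) (S (R 2 6 (S (R 2 6 (S (R 2 4 (S (C 8 (S (C 4 N) (S (R 3 7 (S (R 3 7 (S (R 3 7 (S (R 3 6 (S (R 0 4 (S (C 9 (S (C 1 N) (S (C 5 N) N))) N)) N)) N)) N)) N)) N))) N)) N)) N)) N))) N)) (S (C 2 N) N))) N))
def bp : List (Z3 × Z3) := [((7, 0), (6, 1)), ((-7, 0), (-6, -1)), ((-7, 0), (6, 1)), ((7, 0), (-6, -1)), ((6, 0), (6, 0)), ((-6, 0), (-6, 0)), ((-6, 0), (6, 0)), ((6, 0), (-6, 0))]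
def bn : List (Z3 × Z3) := [((1, 0), (0, 1)), ((-1, 0), (0, -1)), ((-1, 0), (0, 1)), ((1, 0), (0, -1)), ((1, 0), (-1, 0)), ((-1, 0), (1, 0)), ((-1, 0), (-1, 0)), ((1, 0), (1, 0))]

lemma a_cal : acals.all (calOK 12 ap an 120 1 (12, 12)) = true := by decide +kernel

lemma a_chk : chk (acals.map Cal.bad) acert [] [] = true := by decide +kernel

lemma b_cal : bcals.all (calOK 8 bp bn 1 50 (20, 12)) = true := by decide +kernel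

lemma b_chk : chk (bcals.map Cal.bad) bcert [] [] = true := by decide +kernel

end H9M
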