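import Mathlib
import Pool.Agent.Lib.helper9.MdmData

set_option autoImplicit false

namespace H9M

open Set MeasureTheory

noncomputable def pt (a b : ℝ) : E := WithLp.toLp 2 ![a, b]

@[simp] lemma pt0 (a b : ℝ) : pt a b 0 = a := rfl
@[simp] lemma pt1 (a b : ℝ) : pt a b 1 = b := rfl

lemma ext2 {x y : E} (h0 : x 0 = y 0) (h1 : x 1 = y 1) : x = y := by
  ext i; fin_cases i
  · exact h0
  · exact h1

lemma dist_sq (x y : E) : dist x y ^ 2 = (x 0 - y 0) ^ 2 + (x 1 - y 1) ^ 2 := by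
  rw [EuclideanSpace.dist_eq, Real.sq_sqrt (by positivity), Fin.sum_univ_two, Real.dist_eq,
    Real.dist_eq, sq_abs, sq_abs]

lemma s3l : (1.73 : ℝ) < √3 := Real.lt_sqrt_of_sq_lt (by norm_num)
lemma s3u : √3 < (1.74 : ℝ) := (Real.sqrt_lt' (by norm_num)).2 (by norm_num)

lemma seg_compact (x y : E) : IsCompact (segment ℝ x y) := by
  rw [← convexHull_pair]
  exact (Set.toFinite _).isCompact_convexHull ℝ

lemma seg_conn (x y : E) : IsConnected (segment ℝ x y) :=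
  (convex_segment x y).isConnected ⟨x, left_mem_segment ℝ x y⟩

lemma seg_len (x y : E) (d : ℝ) (hd : 0 ≤ d) (h : (x 0 - y 0) ^ 2 + (x 1 - y 1) ^ 2 = d ^ 2) :
    Measure.hausdorffMeasure 1 (segment ℝ x y) = ENNReal.ofReal d := by
  rw [hausdorffMeasure_segment, edist_dist]
  congr 1
  rw [← dist_sq] at h
  exact (pow_left_inj₀ dist_nonneg hd two_ne_zero).1 h

lemma mem_seg {x y z : E} (h : z ∈ segment ℝ x y) : ∃ t : ℝ, 0 ≤ t ∧ t ≤ 1 ∧
    z 0 = x 0 + t * (y 0 - x 0) ∧ z 1 = x 1 + t * (y 1 - x 1) := by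
  obtain ⟨s, t, hs, ht, hst, rfl⟩ := h
  have : s = 1 - t := by linarith
  subst this
  refine ⟨t, ht, by linarith, ?_, ?_⟩ <;> simp <;> ring

lemma un_len {A B : Set E} {a b : ℝ} (ha : 0 ≤ a) (hb : 0 ≤ b)
    (hA : Measure.hausdorffMeasure 1 A ≤ ENNReal.ofReal a)
    (hB : Measure.hausdorffMeasure 1 B ≤ ENNReal.ofReal b) :
    Measure.hausdorffMeasure 1 (A ∪ B) ≤ ENNReal.ofReal (a + b) := by
  rw [ENNReal.ofReal_add ha hb]
  exact (measure_union_le _ _).trans (add_le_add hA hB)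

noncomputable def q : ℝ := 6 - 2 * √3

noncomputable def S0 : Set E :=
  segment ℝ (pt (-q) 0) (pt q 0) ∪ segment ℝ (pt 6 6) (pt q 0) ∪ segment ℝ (pt 6 (-6)) (pt q 0) ∪
    segment ℝ (pt (-6) 6) (pt (-q) 0) ∪ segment ℝ (pt (-6) (-6)) (pt (-q) 0)

noncomputable def T0 : Set E :=
  segment ℝ (pt 0 (-q)) (pt 0 q) ∪ segment ℝ (pt 6 6) (pt 0 q) ∪ segment ℝ (pt (-6) 6) (pt 0 q) ∪
    segment ℝ (pt 6 (-6)) (pt 0 (-q)) ∪ segment ℝ (pt (-6) (-6)) (pt 0 (-q))

def Q (a b : ℝ) : Prop :=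
  (∃ t : ℝ, 0 ≤ t ∧ t ≤ 1 ∧ |a| = 6 - 2 * √3 * t ∧ |b| = 6 - 6 * t) ∨ (b = 0 ∧ |a| ≤ q)

lemma Q_of {a b t : ℝ} (h0 : 0 ≤ t) (h1 : t ≤ 1)
    (ha : a = 6 - 2 * √3 * t ∨ a = -(6 - 2 * √3 * t)) (hb : b = 6 - 6 * t ∨ b = -(6 - 6 * t)) :
    Q a b := by
  have := s3u
  have := s3l
  refine Or.inl ⟨t, h0, h1, (abs_eq (by nlinarith)).2 ha, (abs_eq (by linarith)).2 hb⟩

lemma Q_bar {a t : ℝ} (h0 : 0 ≤ t) (h1 : t ≤ 1) (ha : a = -q + t * (q - -q)) : |a| ≤ q := by
  have := s3u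
  have hq : 0 < q := by unfold q; linarith
  rw [abs_le]
  constructor <;> nlinarith

lemma S0_mem {z : E} (h : z ∈ S0) : Q (z 0) (z 1) := by
  rcases h with (((h | h) | h) | h) | h <;> obtain ⟨t, h0, h1, e0, e1⟩ := mem_seg h <;>
    simp only [pt0, pt1] at e0 e1
  · exact Or.inr ⟨by linarith, Q_bar h0 h1 e0⟩
  all_goals
    refine Q_of h0 h1 ?_ ?_
    · unfold q at e0
      first | (left; linarith) | (right; linarith)
    · first | (left; linarith) | (right; linarith)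

lemma T0_mem {z : E} (h : z ∈ T0) : Q (z 1) (z 0) := by
  rcases h with (((h | h) | h) | h) | h <;> obtain ⟨t, h0, h1, e0, e1⟩ := mem_seg h <;>
    simp only [pt0, pt1] at e0 e1
  · exact Or.inr ⟨by linarith, Q_bar h0 h1 e1⟩
  all_goals
    refine Q_of h0 h1 ?_ ?_
    · unfold q at e1
      first | (left; linarith) | (right; linarith)
    · first | (left; linarith) | (right; linarith)

lemma Q_box {a b : ℝ} (h : Q a b) : |a| ≤ 6 ∧ |b| ≤ 6 := by
  have := s3l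
  rcases h with ⟨t, h0, h1, ha, hb⟩ | ⟨rfl, ha⟩
  · constructor <;> nlinarith
  · unfold q at ha
    constructor
    · linarith
    · simp

lemma S0_compact : IsCompact S0 :=
  ((((seg_compact _ _).union (seg_compact _ _)).union (seg_compact _ _)).union
    (seg_compact _ _)).union (seg_compact _ _)

lemma T0_compact : IsCompact T0 :=
  ((((seg_compact _ _).union (seg_compact _ _)).union (seg_compact _ _)).union
    (seg_compact _ _)).union (seg_compact _ _)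

lemma conn_add {A : Set E} (hA : IsConnected A) {x y : E} (hy : y ∈ A) :
    IsConnected (A ∪ segment ℝ x y) :=
  hA.union ⟨y, hy, right_mem_segment ℝ x y⟩ (seg_conn x y)

lemma S0_conn : IsConnected S0 :=
  conn_add (conn_add (conn_add (conn_add (seg_conn _ _) (right_mem_segment _ _ _))
    (Or.inl (right_mem_segment _ _ _))) (Or.inl (Or.inl (left_mem_segment _ _ _))))
    (Or.inl (Or.inl (Or.inl (left_mem_segment _ _ _))))

lemma T0_conn : IsConnected T0 :=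
  conn_add (conn_add (conn_add (conn_add (seg_conn _ _) (right_mem_segment _ _ _))
    (Or.inl (right_mem_segment _ _ _))) (Or.inl (Or.inl (left_mem_segment _ _ _))))
    (Or.inl (Or.inl (Or.inl (left_mem_segment _ _ _))))

lemma S0_len : Measure.hausdorffMeasure 1 S0 ≤ ENNReal.ofReal (12 + 12 * √3) := by
  have h3 := s3
  have := s3u
  have h0 : 0 ≤ 4 * √3 := by positivity
  have hq : 0 ≤ 2 * q := by unfold q; linarith
  rw [show 12 + 12 * √3 = 2 * q + 4 * √3 + 4 * √3 + 4 * √3 + 4 * √3 by unfold q; ring]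
  refine un_len (by positivity) h0 (un_len (by positivity) h0 (un_len (by positivity) h0
    (un_len hq h0 ?_ ?_) ?_) ?_) ?_ <;> refine (seg_len _ _ _ (by assumption) ?_).le <;>
    simp only [pt0, pt1, q] <;> nlinarith

lemma T0_len : Measure.hausdorffMeasure 1 T0 ≤ ENNReal.ofReal (12 + 12 * √3) := by
  have h3 := s3
  have := s3u
  have h0 : 0 ≤ 4 * √3 := by positivity
  have hq : 0 ≤ 2 * q := by unfold q; linarith
  rw [show 12 + 12 * √3 = 2 * q + 4 * √3 + 4 * √3 + 4 * √3 + 4 * √3 by unfold q; ring]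
  refine un_len (by positivity) h0 (un_len (by positivity) h0 (un_len (by positivity) h0
    (un_len hq h0 ?_ ?_) ?_) ?_) ?_ <;> refine (seg_len _ _ _ (by assumption) ?_).le <;>
    simp only [pt0, pt1, q] <;> nlinarith

lemma S0_vert {a b : ℝ} (ha : a = 6 ∨ a = -6) (hb : b = 6 ∨ b = -6) : pt a b ∈ S0 := by
  rcases ha with rfl | rfl <;> rcases hb with rfl | rfl
  · exact Or.inl (Or.inl (Or.inl (Or.inr (left_mem_segment _ _ _))))
  · exact Or.inl (Or.inl (Or.inr (left_mem_segment _ _ _)))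
  · exact Or.inl (Or.inr (left_mem_segment _ _ _))
  · exact Or.inr (left_mem_segment _ _ _)

lemma T0_vert {a b : ℝ} (ha : a = 6 ∨ a = -6) (hb : b = 6 ∨ b = -6) : pt a b ∈ T0 := by
  rcases ha with rfl | rfl <;> rcases hb with rfl | rfl
  · exact Or.inl (Or.inl (Or.inl (Or.inr (left_mem_segment _ _ _))))
  · exact Or.inl (Or.inr (left_mem_segment _ _ _))
  · exact Or.inl (Or.inl (Or.inr (left_mem_segment _ _ _)))
  · exact Or.inr (left_mem_segment _ _ _)

lemma not_Q : ¬ Q 0 q := by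
  have := s3u
  have := s3l
  rintro (⟨t, h0, h1, ha, -⟩ | ⟨h, -⟩)
  · rw [abs_zero] at ha; nlinarith
  · unfold q at h; linarith

lemma q_mem : pt q 0 ∈ S0 := Or.inl (Or.inl (Or.inl (Or.inl (right_mem_segment _ _ _))))

lemma S0_ne : S0 ≠ T0 := fun h => not_Q (T0_mem (h ▸ q_mem))

noncomputable def PP (l : List V3) (j : ℕ) : E := pt (val (g3 l j).1) (val (g3 l j).2)

noncomputable def YY (p n : List V3) (r : ℝ) (j : ℕ) : E := PP p j + (r / ‖PP n j‖) • PP n j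

lemma dist_YY (p n : List V3) {r : ℝ} (hr : 0 < r) {j : ℕ} (hn : PP n j ≠ 0) :
    dist (PP p j) (YY p n r j) = r := by
  have := norm_pos_iff.2 hn
  rw [YY, dist_self_add_right, norm_smul, Real.norm_eq_abs, abs_of_pos (by positivity)]
  field_simp

lemma near_YY (p n : List V3) {r : ℝ} (hr : 0 < r) {j : ℕ} (hn : PP n j ≠ 0) {x : E}
    (hx : dist x (YY p n r j) ≤ r) : ∃ c : ℝ, 0 < c ∧
      (x 0 - val (g3 p j).1) ^ 2 + (x 1 - val (g3 p j).2) ^ 2 ≤
        c * ((x 0 - val (g3 p j).1) * val (g3 n j).1 + (x 1 - val (g3 p j).2) * val (g3 n j).2) := by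
  have h0 := norm_pos_iff.2 hn
  refine ⟨2 * (r / ‖PP n j‖), by positivity, ?_⟩
  have h1 := pow_le_pow_left₀ dist_nonneg hx 2
  have h2 := congrArg (· ^ 2) (dist_YY p n hr hn)
  simp only [dist_sq] at h1 h2
  simp only [YY, PiLp.add_apply, PiLp.smul_apply, smul_eq_mul] at h1 h2
  set c := r / ‖PP n j‖
  simp only [PP, pt0, pt1] at h1 h2
  nlinarith

lemma abs_le_dist (x y : E) (i : Fin 2) : |x i - y i| ≤ dist x y := by
  rw [← Real.dist_eq]; exact PiLp.dist_apply_le x y i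

theorem lower' (N : ℕ) (p n : List V3) (r1 r2 : ℤ) (hr : 0 < r2) (T : Z3) (cals : List Cal)
    (cert : Cert) (h1 : cals.all (calOK N p n r1 r2 T) = true)
    (h2 : chk (cals.map Cal.bad) cert [] [] = true) (hc : ∃ i c, cert = .C i c)
    (r : ℝ) (hr0 : 0 < r) (hr1 : r2 * (2 * r) ≤ r1) (hn : ∀ j < N, PP n j ≠ 0)
    (K : Set E) (hK : IsConnected K) (hx : ∀ j < N, ∃ x ∈ K, dist x (YY p n r j) ≤ r) :
    ENNReal.ofReal (val T) ≤ Measure.hausdorffMeasure 1 K := by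
  choose! x hx hx' using hx
  have hr' : (0 : ℝ) < r2 := by exact_mod_cast hr
  refine lower N p n r1 r2 hr T cals cert h1 h2 hc K hK x hx (fun j hj => ?_) (fun j hj => ?_)
  · obtain ⟨c, hc, h⟩ := near_YY p n hr0 (hn j hj) (hx' j hj)
    exact nonneg_of_mul_nonneg_right (le_trans (by positivity) h) hc
  · have h := dist_triangle (x j) (YY p n r j) (PP p j)
    rw [dist_comm (YY p n r j), dist_YY p n hr0 (hn j hj)] at h
    have h0 := abs_le_dist (x j) (PP p j) 0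
    have h1 := abs_le_dist (x j) (PP p j) 1
    have h3 := hx' j hj
    simp only [PP, pt0, pt1] at h0 h1 h
    constructor <;> nlinarith

lemma PP_ne {n : List V3} {j : ℕ}
    (h : nn (zsub (zadd (zmul (g3 n j).1 (g3 n j).1) (zmul (g3 n j).2 (g3 n j).2)) (1, 0)) = true) :
    PP n j ≠ 0 := by
  intro h0
  have h1 := nn_sound h
  have a0 : val (g3 n j).1 = 0 := congrArg (fun z : E => z 0) h0
  have a1 : val (g3 n j).2 = 0 := congrArg (fun z : E => z 1) h0
  rw [val_sub, val_add, val_mul, val_mul, a0, a1, val_int] at h1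
  norm_num at h1

lemma an_ne : ∀ j < 12, PP an j ≠ 0 := fun j hj => PP_ne (by revert j; decide)
lemma bn_ne : ∀ j < 8, PP bn j ≠ 0 := fun j hj => PP_ne (by revert j; decide)

noncomputable def M12 : Set E := YY ap an 60 '' Iio 12

lemma M12_compact : IsCompact M12 := ((Set.finite_Iio 12).image _).isCompact

lemma cover {K : Set E} (hK : IsCompact K) {r : ℝ} (hr : 0 ≤ r) {y : E}
    (hy : y ∈ Metric.cthickening r K) : ∃ x ∈ K, dist x y ≤ r := by
  rw [hK.cthickening_eq_biUnion_closedBall hr] at hy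
  simp only [mem_iUnion, Metric.mem_closedBall] at hy
  obtain ⟨x, hx, h⟩ := hy
  exact ⟨x, hx, by rwa [dist_comm]⟩

lemma lower12 (K : Set E) (hK : IsCompact K) (hK' : IsConnected K)
    (h : M12 ⊆ Metric.cthickening 60 K) :
    ENNReal.ofReal (12 + 12 * √3) ≤ Measure.hausdorffMeasure 1 K := by
  have := lower' 12 ap an 120 1 one_pos (12, 12) acals acert a_cal a_chk ⟨_, _, rfl⟩ 60 (by norm_num)
    (by norm_num) an_ne K hK' (fun j hj => cover hK (by norm_num) (h ⟨j, hj, rfl⟩))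
  simpa [val] using this

def sgnOK (a b : Z3) : Bool :=
  (decide (a = (6, 0)) && nn b) || (decide (a = (-6, 0)) && nn (zsub (0, 0) b))

lemma sgn_sound {a b : Z3} (h : sgnOK a b = true) :
    (val a = 6 ∨ val a = -6) ∧ ∀ s : ℝ, |s| ≤ 6 → (s - val a) * val b ≤ 0 := by
  simp only [sgnOK, Bool.or_eq_true, Bool.and_eq_true, decide_eq_true_eq] at h
  rcases h with ⟨rfl, h⟩ | ⟨rfl, h⟩
  · have := nn_sound h
    refine ⟨Or.inl (by simp [val]), fun s hs => ?_⟩
    rw [val_int]; push_cast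
    nlinarith [abs_le.1 hs]
  · have := nn_sound h
    rw [val_sub, val_int] at this
    refine ⟨Or.inr (by simp [val]), fun s hs => ?_⟩
    rw [val_int]; push_cast at this ⊢
    nlinarith [abs_le.1 hs]

lemma a_sgn : ∀ j < 12, sgnOK (g3 ap j).1 (g3 an j).1 = true ∧
    sgnOK (g3 ap j).2 (g3 an j).2 = true := by decide

lemma M12_sub {K : Set E} (hK : ∀ a b : ℝ, (a = 6 ∨ a = -6) → (b = 6 ∨ b = -6) → pt a b ∈ K) :
    M12 ⊆ Metric.cthickening 60 K := by
  rintro _ ⟨j, hj, rfl⟩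
  refine Metric.mem_cthickening_of_dist_le _ (PP ap j) _ _
    (hK _ _ (sgn_sound (a_sgn j hj).1).1 (sgn_sound (a_sgn j hj).2).1) ?_
  rw [dist_comm, dist_YY _ _ (by norm_num) (an_ne j hj)]

lemma touch {j : ℕ} (hj : j < 12) {x : E} (h0 : |x 0| ≤ 6) (h1 : |x 1| ≤ 6)
    (hx : dist x (YY ap an 60 j) ≤ 60) : x = PP ap j := by
  obtain ⟨c, hc, h⟩ := near_YY ap an (by norm_num) (an_ne j hj) hx
  have a0 := (sgn_sound (a_sgn j hj).1).2 _ h0
  have a1 := (sgn_sound (a_sgn j hj).2).2 _ h1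
  have h2 := mul_nonpos_of_nonneg_of_nonpos hc.le (add_nonpos a0 a1)
  refine ext2 ?_ ?_ <;> simp only [PP, pt0, pt1] <;> nlinarith

lemma energetic {K : Set E} (hK : ∀ a b : ℝ, (a = 6 ∨ a = -6) → (b = 6 ∨ b = -6) → pt a b ∈ K)
    (hK' : ∀ x ∈ K, |x 0| ≤ 6 ∧ |x 1| ≤ 6) :
    {x | x ∈ K ∧ ∃ y ∈ M12, dist x y = 60 ∧ Metric.ball y 60 ∩ K = ∅} = PP ap '' Iio 12 := by
  ext x
  constructor
  · rintro ⟨hx, _, ⟨j, hj, rfl⟩, h, -⟩
    exact ⟨j, hj, (touch hj (hK' x hx).1 (hK' x hx).2 h.le).symm⟩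
  · rintro ⟨j, hj, rfl⟩
    refine ⟨hK _ _ (sgn_sound (a_sgn j hj).1).1 (sgn_sound (a_sgn j hj).2).1, _, ⟨j, hj, rfl⟩,
      dist_YY _ _ (by norm_num) (an_ne j hj), ?_⟩
    rw [eq_empty_iff_forall_notMem]
    rintro z ⟨hz, hz'⟩
    rw [Metric.mem_ball] at hz
    rw [touch hj (hK' z hz').1 (hK' z hz').2 hz.le, dist_YY _ _ (by norm_num) (an_ne j hj)] at hz
    exact lt_irrefl _ hz

lemma nondeg : ¬ ∃ c : E, M12 ⊆ Metric.closedBall c 60 := by
  rintro ⟨c, hc⟩
  have h8 := hc ⟨8, by simp, rfl⟩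
  have h9 := hc ⟨9, by simp, rfl⟩
  rw [Metric.mem_closedBall, dist_comm] at h8 h9
  obtain ⟨c8, p8, k8⟩ := near_YY ap an (by norm_num) (an_ne 8 (by norm_num)) h8
  obtain ⟨c9, p9, k9⟩ := near_YY ap an (by norm_num) (an_ne 9 (by norm_num)) h9
  have l8 := nonneg_of_mul_nonneg_right (le_trans (by positivity) k8) p8
  have l9 := nonneg_of_mul_nonneg_right (le_trans (by positivity) k9) p9
  simp [g3, ap, an, val] at l8 l9
  linarith

lemma Q_kappa {a b : ℝ} (h : Q a b) :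
    72 - a ^ 2 - b ^ 2 ≤ 48 * (6 - |a|) ∧ 72 - a ^ 2 - b ^ 2 ≤ 48 * (6 - |b|) := by
  have := s3l
  have := s3u
  have h3 := s3
  rcases h with ⟨t, h0, h1, ha, hb⟩ | ⟨rfl, ha⟩
  · rw [← sq_abs a, ← sq_abs b, ha, hb]
    constructor <;> nlinarith [sq_nonneg t]
  · unfold q at ha
    rw [abs_zero]
    constructor <;> nlinarith [sq_nonneg a]

lemma thick_sub : Metric.cthickening 60 S0 ⊆ Metric.cthickening 60 T0 := by
  intro z hz
  obtain ⟨s, hs, hd⟩ := cover S0_compact (by norm_num) hz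
  obtain ⟨k0, k1⟩ := Q_kappa (S0_mem hs)
  obtain ⟨b0, b1⟩ := Q_box (S0_mem hs)
  have hsg : ∀ w : ℝ, ∃ v : ℝ, (v = 6 ∨ v = -6) ∧ w * v = 6 * |w| := by
    intro w
    rcases le_total 0 w with h | h
    · exact ⟨6, Or.inl rfl, by rw [abs_of_nonneg h]; ring⟩
    · exact ⟨-6, Or.inr rfl, by rw [abs_of_nonpos h]; ring⟩
  obtain ⟨v0, hv0, e0⟩ := hsg (z 0)
  obtain ⟨v1, hv1, e1⟩ := hsg (z 1)
  refine Metric.mem_cthickening_of_dist_le _ (pt v0 v1) _ _ (T0_vert hv0 hv1) ?_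
  refine le_trans (le_abs_self _) (abs_le_of_sq_le_sq ?_ (by norm_num))
  have hd2 := pow_le_pow_left₀ dist_nonneg hd 2
  rw [dist_sq] at hd2 ⊢
  simp only [pt0, pt1]
  have w0 : v0 ^ 2 = 36 := by rcases hv0 with rfl | rfl <;> norm_num
  have w1 : v1 ^ 2 = 36 := by rcases hv1 with rfl | rfl <;> norm_num
  have z0 := abs_nonneg (z 0)
  have z1 := abs_nonneg (z 1)
  have q0 := sq_abs (z 0)
  have q1 := sq_abs (z 1)
  rcases le_total (|z 0| + |z 1|) 24 with h | h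
  · nlinarith [mul_nonneg z0 z1]
  · have c0 : z 0 * s 0 ≤ |z 0| * |s 0| := by rw [← abs_mul]; exact le_abs_self _
    have c1 : z 1 * s 1 ≤ |z 1| * |s 1| := by rw [← abs_mul]; exact le_abs_self _
    have d0 := mul_le_mul_of_nonneg_left k0 z0
    have d1 := mul_le_mul_of_nonneg_left k1 z1
    have g0 : s 0 ^ 2 ≤ 36 := by nlinarith [sq_abs (s 0), abs_nonneg (s 0)]
    have g1 : s 1 ^ 2 ≤ 36 := by nlinarith [sq_abs (s 1), abs_nonneg (s 1)]
    have := mul_le_mul_of_nonneg_right h (by linarith : 0 ≤ 72 - s 0 ^ 2 - s 1 ^ 2)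
    nlinarith

noncomputable def ext (K : Set E) : Set E :=
  K ∪ segment ℝ (pt 7 (6 + √3)) (pt 6 6) ∪ segment ℝ (pt (-7) (-(6 + √3))) (pt (-6) (-6)) ∪
    segment ℝ (pt (-7) (6 + √3)) (pt (-6) 6) ∪ segment ℝ (pt 7 (-(6 + √3))) (pt 6 (-6))

lemma ext_compact {K : Set E} (h : IsCompact K) : IsCompact (ext K) :=
  (((h.union (seg_compact _ _)).union (seg_compact _ _)).union (seg_compact _ _)).union
    (seg_compact _ _)

lemma ext_conn {K : Set E} (h : IsConnected K)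
    (hK : ∀ a b : ℝ, (a = 6 ∨ a = -6) → (b = 6 ∨ b = -6) → pt a b ∈ K) : IsConnected (ext K) :=
  conn_add (conn_add (conn_add (conn_add h (hK _ _ (Or.inl rfl) (Or.inl rfl)))
    (Or.inl (hK _ _ (Or.inr rfl) (Or.inr rfl)))) (Or.inl (Or.inl (hK _ _ (Or.inr rfl) (Or.inl rfl)))))
    (Or.inl (Or.inl (Or.inl (hK _ _ (Or.inl rfl) (Or.inr rfl)))))

lemma ext_len {K : Set E} (h : Measure.hausdorffMeasure 1 K ≤ ENNReal.ofReal (12 + 12 * √3)) :
    Measure.hausdorffMeasure 1 (ext K) ≤ ENNReal.ofReal (20 + 12 * √3) := by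
  have h3 := s3
  have h0 : (0 : ℝ) ≤ 2 := by positivity
  rw [show 20 + 12 * √3 = 12 + 12 * √3 + 2 + 2 + 2 + 2 by ring]
  refine un_len (by positivity) h0 (un_len (by positivity) h0 (un_len (by positivity) h0
    (un_len (by positivity) h0 h ?_) ?_) ?_) ?_ <;> refine (seg_len _ _ _ h0 ?_).le <;>
    simp only [pt0, pt1] <;> nlinarith

lemma ext_mem {K : Set E} {z : E} (h : z ∈ ext K) :
    z ∈ K ∨ ∃ t : ℝ, 0 ≤ t ∧ t ≤ 1 ∧ |z 0| = 6 + t ∧ |z 1| = 6 + √3 * t := by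
  have := s3l
  rcases h with (((h | h) | h) | h) | h
  · exact Or.inl h
  all_goals
    obtain ⟨t, h0, h1, e0, e1⟩ := mem_seg h
    simp only [pt0, pt1] at e0 e1
    refine Or.inr ⟨1 - t, by linarith, by linarith, (abs_eq (by linarith)).2 ?_,
      (abs_eq (by nlinarith)).2 ?_⟩
    · first | (left; linarith) | (right; linarith)
    · first | (left; linarith) | (right; linarith)

lemma bp_cases {j : ℕ} (hj : j < 8) :
    PP bp j = pt 7 (6 + √3) ∨ PP bp j = pt (-7) (-(6 + √3)) ∨ PP bp j = pt (-7) (6 + √3) ∨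
    PP bp j = pt 7 (-(6 + √3)) ∨ ∃ a b : ℝ, (a = 6 ∨ a = -6) ∧ (b = 6 ∨ b = -6) ∧ PP bp j = pt a b := by
  interval_cases j
  · left; refine ext2 ?_ ?_ <;> simp [PP, g3, bp, val]
  · right; left; refine ext2 ?_ ?_ <;> simp [PP, g3, bp, val]; ring
  · right; right; left; refine ext2 ?_ ?_ <;> simp [PP, g3, bp, val]
  · right; right; right; left; refine ext2 ?_ ?_ <;> simp [PP, g3, bp, val]; ring
  all_goals
    right; right; right; right
    exact ⟨_, _, by simp [g3, bp, val], by simp [g3, bp, val], rfl⟩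

lemma bp_mem {K : Set E} (hK : ∀ a b : ℝ, (a = 6 ∨ a = -6) → (b = 6 ∨ b = -6) → pt a b ∈ K)
    {j : ℕ} (hj : j < 8) : PP bp j ∈ ext K := by
  rcases bp_cases hj with h | h | h | h | ⟨a, b, ha, hb, h⟩ <;> rw [h]
  · exact Or.inl (Or.inl (Or.inl (Or.inr (left_mem_segment _ _ _))))
  · exact Or.inl (Or.inl (Or.inr (left_mem_segment _ _ _)))
  · exact Or.inl (Or.inr (left_mem_segment _ _ _))
  · exact Or.inr (left_mem_segment _ _ _)
  · exact Or.inl (Or.inl (Or.inl (Or.inl (hK a b ha hb))))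

lemma lower8 (K : Set E) (hK : IsConnected K)
    (h : ∀ j < 8, ∃ x ∈ K, dist x (YY bp bn (1 / 100) j) ≤ 1 / 100) :
    ENNReal.ofReal (20 + 12 * √3) ≤ Measure.hausdorffMeasure 1 K := by
  have := lower' 8 bp bn 1 50 (by norm_num) (20, 12) bcals bcert b_cal b_chk ⟨_, _, rfl⟩ (1 / 100)
    (by norm_num) (by norm_num) bn_ne K hK h
  simpa [val] using this

lemma bp_sep : ∀ i < 8, ∀ j < 8, i ≠ j → nn (zsub (zadd
    (zmul (zsub (g3 bp i).1 (g3 bp j).1) (zsub (g3 bp i).1 (g3 bp j).1))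
    (zmul (zsub (g3 bp i).2 (g3 bp j).2) (zsub (g3 bp i).2 (g3 bp j).2))) (1, 0)) = true := by
  decide

lemma bp_dist {i j : ℕ} (hi : i < 8) (hj : j < 8) (h : dist (PP bp i) (PP bp j) ≤ 1 / 2) : i = j := by
  by_contra hij
  have h1 := nn_sound (bp_sep i hi j hj hij)
  have h2 := pow_le_pow_left₀ dist_nonneg h 2
  rw [dist_sq] at h2
  simp only [val_sub, val_add, val_mul, val_int] at h1
  simp only [PP, pt0, pt1] at h2
  push_cast at h1
  nlinarith

lemma card8 : (YY bp bn (1 / 100) '' Iio 8).ncard = (PP bp '' Iio 8).ncard := by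
  rw [Set.InjOn.ncard_image, Set.InjOn.ncard_image]
  · intro i hi j hj h
    exact bp_dist hi hj (by rw [h]; simp)
  · intro i hi j hj h
    refine bp_dist hi hj ?_
    have h1 := dist_triangle (PP bp i) (YY bp bn (1 / 100) j) (PP bp j)
    rw [dist_comm (YY _ _ _ _), dist_YY _ _ (by norm_num) (bn_ne j hj), ← h,
      dist_YY _ _ (by norm_num) (bn_ne i hi)] at h1
    linarith

lemma T1_prop {z : E} (h : z ∈ ext T0) : |z 0| ≤ 7 ∧ |z 1| ≤ 6 + √3 ∧ |z 0| ≤ |z 1| ∧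
    (|z 0| = |z 1| → |z 0| = 0 ∨ |z 0| = 6) := by
  have := s3l
  have := s3u
  rcases ext_mem h with h | ⟨t, h0, h1, e0, e1⟩
  · obtain ⟨b1, b0⟩ := Q_box (T0_mem h)
    refine ⟨by linarith, by linarith, ?_⟩
    rcases T0_mem h with ⟨t, h0, h1, e1, e0⟩ | ⟨e0, -⟩
    · refine ⟨by nlinarith, fun h => Or.inr ?_⟩
      have : t = 0 := by nlinarith
      rw [e0, this]; norm_num
    · rw [e0, abs_zero]
      exact ⟨abs_nonneg _, fun _ => Or.inl rfl⟩
  · refine ⟨by linarith, by nlinarith, by nlinarith, fun h => Or.inr ?_⟩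
    have : t = 0 := by nlinarith
    rw [e0, this]; norm_num

lemma corner {x y s t c : ℝ} (hs : 0 < s) (ht : 0 < t) (hst : s + t = 1) (hx : |x| ≤ c)
    (hy : |y| ≤ c) (h : s * x + t * y = c ∨ s * x + t * y = -c) : x = y := by
  obtain ⟨x1, x2⟩ := abs_le.1 hx
  obtain ⟨y1, y2⟩ := abs_le.1 hy
  have e : c = s * c + t * c := by rw [← add_mul, hst, one_mul]
  rcases h with h | h
  · have a : s * (c - x) + t * (c - y) = 0 := by linarith
    have b1 := mul_nonneg hs.le (sub_nonneg.2 x2)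
    have b2 := mul_nonneg ht.le (sub_nonneg.2 y2)
    have c1 : c - x = 0 := (mul_eq_zero.1 (by linarith : s * (c - x) = 0)).resolve_left hs.ne'
    have c2 : c - y = 0 := (mul_eq_zero.1 (by linarith : t * (c - y) = 0)).resolve_left ht.ne'
    linarith
  · have a : s * (x + c) + t * (y + c) = 0 := by linarith
    have b1 := mul_nonneg hs.le (by linarith : 0 ≤ x + c)
    have b2 := mul_nonneg ht.le (by linarith : 0 ≤ y + c)
    have c1 : x + c = 0 := (mul_eq_zero.1 (by linarith : s * (x + c) = 0)).resolve_left hs.ne'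
    have c2 : y + c = 0 := (mul_eq_zero.1 (by linarith : t * (y + c) = 0)).resolve_left ht.ne'
    linarith

lemma bend {a b d0 d1 : ℝ} (ha : a = 6 ∨ a = -6) (hb : b = 6 ∨ b = -6) (h0 : |d0| ≤ 1)
    (h1 : |d1| ≤ 1) (p1 : |a + d0| ≤ |b + d1|) (p2 : |a - d0| ≤ |b - d1|)
    (p3 : |a + d0| = |b + d1| → |a + d0| = 0 ∨ |a + d0| = 6) : d0 = 0 ∧ d1 = 0 := by
  obtain ⟨x1, x2⟩ := abs_le.1 h0
  obtain ⟨y1, y2⟩ := abs_le.1 h1
  rcases ha with rfl | rfl <;> rcases hb with rfl | rfl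
  · rw [abs_of_pos (by linarith : 0 < 6 + d0), abs_of_pos (by linarith : 0 < 6 + d1)] at p1 p3
    rw [abs_of_pos (by linarith : 0 < 6 - d0), abs_of_pos (by linarith : 0 < 6 - d1)] at p2
    rcases p3 (by linarith) with h | h <;> constructor <;> linarith
  · rw [abs_of_pos (by linarith : 0 < 6 + d0), abs_of_neg (by linarith : -6 + d1 < 0)] at p1 p3
    rw [abs_of_pos (by linarith : 0 < 6 - d0), abs_of_neg (by linarith : -6 - d1 < 0)] at p2
    rcases p3 (by linarith) with h | h <;> constructor <;> linarith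
  · rw [abs_of_neg (by linarith : -6 + d0 < 0), abs_of_pos (by linarith : 0 < 6 + d1)] at p1 p3
    rw [abs_of_neg (by linarith : -6 - d0 < 0), abs_of_pos (by linarith : 0 < 6 - d1)] at p2
    rcases p3 (by linarith) with h | h <;> constructor <;> linarith
  · rw [abs_of_neg (by linarith : -6 + d0 < 0), abs_of_neg (by linarith : -6 + d1 < 0)] at p1 p3
    rw [abs_of_neg (by linarith : -6 - d0 < 0), abs_of_neg (by linarith : -6 - d1 < 0)] at p2
    rcases p3 (by linarith) with h | h <;> constructor <;> linarith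

lemma not_interior {j : ℕ} (hj : j < 8) {x y : E} (hxy : x ≠ y) (hs : segment ℝ x y ⊆ ext T0)
    (h : PP bp j ∈ openSegment ℝ x y) : False := by
  have := s3u
  obtain ⟨s, t, s0, t0, hst, h⟩ := h
  obtain ⟨x0, x1, -⟩ := T1_prop (hs (left_mem_segment ℝ x y))
  obtain ⟨y0, y1, -⟩ := T1_prop (hs (right_mem_segment ℝ x y))
  have e0 : s * x 0 + t * y 0 = PP bp j 0 := by rw [← h]; simp
  have e1 : s * x 1 + t * y 1 = PP bp j 1 := by rw [← h]; simp
  rcases bp_cases hj with g | g | g | g | ⟨a, b, ha, hb, g⟩ <;> rw [g, pt0] at e0 <;>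
    rw [g, pt1] at e1
  · exact hxy (ext2 (corner s0 t0 hst x0 y0 (Or.inl e0)) (corner s0 t0 hst x1 y1 (Or.inl e1)))
  · exact hxy (ext2 (corner s0 t0 hst x0 y0 (Or.inr e0)) (corner s0 t0 hst x1 y1 (Or.inr e1)))
  · exact hxy (ext2 (corner s0 t0 hst x0 y0 (Or.inr e0)) (corner s0 t0 hst x1 y1 (Or.inl e1)))
  · exact hxy (ext2 (corner s0 t0 hst x0 y0 (Or.inl e0)) (corner s0 t0 hst x1 y1 (Or.inr e1)))
  set ε := s * t / 16 with hε
  have hε0 : 0 < ε := by positivity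
  have hεs : ε ≤ s := by rw [hε]; nlinarith
  have hεt : ε ≤ t := by rw [hε]; nlinarith
  have hε1 : ε ≤ 1 / 16 := by rw [hε]; nlinarith
  have m1 := T1_prop (hs ⟨s + ε, t - ε, by linarith, by linarith, by linarith, rfl⟩)
  have m2 := T1_prop (hs ⟨s - ε, t + ε, by linarith, by linarith, by linarith, rfl⟩)
  simp only [PiLp.add_apply, PiLp.smul_apply, smul_eq_mul] at m1 m2
  rw [show (s + ε) * x 0 + (t - ε) * y 0 = a + ε * (x 0 - y 0) by linarith,
    show (s + ε) * x 1 + (t - ε) * y 1 = b + ε * (x 1 - y 1) by linarith] at m1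
  rw [show (s - ε) * x 0 + (t + ε) * y 0 = a - ε * (x 0 - y 0) by linarith,
    show (s - ε) * x 1 + (t + ε) * y 1 = b - ε * (x 1 - y 1) by linarith] at m2
  have small : ∀ u v : ℝ, |u| ≤ 8 → |v| ≤ 8 → |ε * (u - v)| ≤ 1 := by
    intro u v hu hv
    rw [abs_mul, abs_of_pos hε0]
    have := abs_sub u v
    nlinarith [abs_nonneg (u - v)]
  obtain ⟨d0, d1⟩ := bend ha hb (small _ _ (by linarith) (by linarith))
    (small _ _ (by linarith) (by linarith)) m1.2.2.1 m2.2.2.1 m1.2.2.2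
  exact hxy (ext2 (sub_eq_zero.1 ((mul_eq_zero.1 d0).resolve_left hε0.ne'))
    (sub_eq_zero.1 ((mul_eq_zero.1 d1).resolve_left hε0.ne')))

lemma ext_ne : ext S0 ≠ ext T0 := by
  intro h
  have h1 : pt q 0 ∈ ext S0 := Or.inl (Or.inl (Or.inl (Or.inl q_mem)))
  rw [h] at h1
  have h2 := (T1_prop h1).2.2.1
  have := s3u
  rw [pt0, pt1, abs_zero, abs_of_pos (by unfold q; linarith)] at h2
  unfold q at h2
  linarith

end H9M
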