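import Pool.Agent.Lib.helper9.EXHard

/-! Guards that all move: the graph built from a safety game, and the strategy of the guards. -/

namespace Pool.Agent.Med

open Pool.Agent.Cx Finset

section gen
variable {T : Type} [DecidableEq T]

def Tv (N : T → T → Prop) (C C' : Finset T) : Prop :=
  ∃ f : T → T, Set.InjOn f C ∧ C.image f = C' ∧ ∀ u ∈ C, N u (f u)

def MStr (V : T → Prop) (N : T → T → Prop) (k : ℕ) : Prop := ∃ F : Set (Finset T), F.Nonempty ∧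
  ∀ C ∈ F, C.card ≤ k ∧ (∀ u ∈ C, V u) ∧ ∀ v, V v → ∃ C' ∈ F, v ∈ C' ∧ Tv N C C'

lemma tv_of {ι : Type} {N : T → T → Prop} {s : Finset ι} {p q : ι → T} (hp : Set.InjOn p s)
    (hq : Set.InjOn q s) (h : ∀ r ∈ s, N (p r) (q r)) : Tv N (s.image p) (s.image q) := by
  classical
  let f : T → T := fun u => if h : ∃ r ∈ s, p r = u then q h.choose else u
  have e : ∀ r ∈ s, f (p r) = q r := fun r hr => by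
    have h : ∃ r' ∈ s, p r' = p r := ⟨r, hr, rfl⟩
    simp only [f, dif_pos h, hp h.choose_spec.1 hr h.choose_spec.2]
  refine ⟨f, ?_, by rw [image_image]; exact image_congr e, ?_⟩
  · simp only [coe_image]
    rintro _ ⟨r, hr, rfl⟩ _ ⟨r', hr', rfl⟩ h
    rw [e r hr, e r' hr'] at h
    rw [hq hr hr' h]
  · simp only [mem_image]
    rintro _ ⟨r, hr, rfl⟩
    exact e r hr ▸ h r hr

end gen

structure Par where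
  (m L n M : ℕ)
  tg : ℕ → ℕ
  al : ℕ → ℕ → ℕ → ℕ → Prop

variable (I : Par)

def Vd (x : T5) : Prop :=
  (x.1 = 0 ∧ x.2.1 < I.m ∧ x.2.2.1 < I.m + 2 ∧ x.2.2.2.1 < 3 ∧ x.2.2.2.2 = 0) ∨
  (x.1 = 2 ∧ x.2.1 < I.L + 2 ∧ x.2.2.1 < 3 ∧ x.2.2.2 = (0, 0)) ∨
  (x.1 = 6 ∧ x.2.1 < 4 ∧ x.2.2 = (0, 0, 0)) ∨ (x.1 = 8 ∧ x.2.1 < 3 ∧ x.2.2 = (0, 0, 0)) ∨
  (x.1 = 10 ∧ x.2.1 < I.n ∧ x.2.2.1 < I.L ∧ x.2.2.2.1 < 3 ∧ x.2.2.2.2 = 0) ∨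
  (x.1 = 11 ∧ x.2.1 < I.n ∧ x.2.2.1 < I.M ∧ x.2.2.2.1 < I.L ∧ x.2.2.2.2 < 3) ∨
  (x.1 = 12 ∧ x.2.1 < I.n ∧ x.2.2 = (0, 0, 0)) ∨
  ((x.1 = 1 ∨ x.1 = 3 ∨ x.1 = 4 ∨ x.1 = 5 ∨ x.1 = 7 ∨ x.1 = 9) ∧ x.2 = (0, 0, 0, 0))

def Ed (x y : T5) : Prop :=
  (x.1 = 0 ∧ y.1 = 0 ∧ y.2.2.1 = x.2.1 ∧ y.2.2.2.1 = (x.2.2.2.1 + 1) % 3) ∨
  (x.1 = 1 ∧ y.1 = 0 ∧ I.m ≤ y.2.2.1 ∧ y.2.2.2.1 = 0) ∨
  (x.1 = 2 ∧ ((y.1 = 0 ∧ (y.2.2.1 ≠ I.tg x.2.1 ∨ y.2.2.2.1 ≠ (x.2.2.1 + 1) % 3)) ∨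
    y.1 = 1 ∨ y.1 = 2 ∨ y.1 = 3 ∨ y.1 = 4 ∨ y.1 = 9 ∨ (y.1 = 8 ∧ y.2.1 ≠ x.2.2.1) ∨
    (y.1 = 10 ∧ (y.2.2.1 ≠ x.2.1 ∨ y.2.2.2.1 ≠ x.2.2.1)) ∨
    (y.1 = 11 ∧ (I.m ≤ I.tg x.2.1 ∨ x.2.2.1 ≠ (y.2.2.2.2 + 1) % 3)))) ∨
  (x.1 = 3 ∧ (y.1 = 4 ∨ y.1 = 5 ∨ y.1 = 6 ∨ y.1 = 11)) ∨
  (x.1 = 5 ∧ (y.1 = 0 ∨ y.1 = 1 ∨ y.1 = 7 ∨ y.1 = 8 ∨ y.1 = 10)) ∨
  (x.1 = 6 ∧ (y.1 = 6 ∨ y.1 = 7 ∨ y.1 = 9 ∨ (y.1 = 8 ∧ y.2.1 = x.2.1) ∨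
    (y.1 = 11 ∧ x.2.1 = (y.2.2.2.2 + 1) % 3))) ∨
  (x.1 = 9 ∧ (y.1 = 0 ∨ y.1 = 8 ∨ y.1 = 10)) ∨
  (x.1 = 11 ∧ y.2.1 = x.2.1 ∧ (y.1 = 12 ∨
    (y.1 = 10 ∧ y.2.2.1 = x.2.2.2.1 ∧ y.2.2.2.1 = x.2.2.2.2) ∨
    (y.1 = 11 ∧ y.2.2.2.2 = (x.2.2.2.2 + 1) % 3 ∧ I.al y.2.2.2.1 x.2.1 x.2.2.1 y.2.2.1)))

def Nb (x y : T5) : Prop := x = y ∨ Ed I x y ∨ Ed I y x

def rol (A B C : T5) (g : ℕ → T5) (r : ℕ) : T5 :=
  if r = 0 then A else if r = 1 then B else if r = 2 then C else g (r - 3)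

def cfg (A B C : T5) (g : ℕ → T5) : Finset T5 := (range (I.n + 3)).image (rol A B C g)

def Ok (A B C : T5) (g : ℕ → T5) : Prop := (Vd I A ∧ Vd I B ∧ Vd I C) ∧ (A ≠ B ∧ A ≠ C ∧ B ≠ C) ∧
  (A.1 < 11 ∧ B.1 < 11 ∧ C.1 < 11) ∧ ∀ i < I.n, Vd I (g i) ∧ 11 ≤ (g i).1 ∧ (g i).2.1 = i

variable {I} {A B C A' B' C' y : T5} {g g' : ℕ → T5}

lemma all_rng {p : ℕ → Prop} {n} : (∀ r ∈ range (n + 3), p r) ↔ p 0 ∧ p 1 ∧ p 2 ∧ ∀ i < n, p (i + 3) :=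
  ⟨fun h => ⟨h _ (by simp), h _ (by simp), h _ (by simp), fun i hi => h _ (by simpa)⟩,
    fun ⟨a, b, c, d⟩ r hr => match r with
      | 0 => a | 1 => b | 2 => c | i + 3 => d i (by simpa using hr)⟩

lemma mem_cfg : y ∈ cfg I A B C g ↔ y = A ∨ y = B ∨ y = C ∨ ∃ i < I.n, y = g i := by
  rw [← not_iff_not, cfg, mem_image, not_exists]
  simp only [not_and, all_rng]
  simp [rol, eq_comm]

lemma Ok.inj (h : Ok I A B C g) : Set.InjOn (rol A B C g) (range (I.n + 3)) := by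
  obtain ⟨-, ⟨a1, a2, a3⟩, ⟨b1, b2, b3⟩, c⟩ := h
  have : ∀ X : T5, X.1 < 11 → ∀ i < I.n, X ≠ g i := fun X hX i hi e => by
    have := (c i hi).2.1; rw [← e] at this; omega
  simp only [Set.InjOn, mem_coe, all_rng]
  simp [rol, a1, a2, a3, a1.symm, a2.symm, a3.symm]
  refine ⟨this A b1, this B b2, this C b3, fun i hi => ⟨(this A b1 i hi).symm,
    (this B b2 i hi).symm, (this C b3 i hi).symm, fun j hj e => ?_⟩⟩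
  rw [← (c i hi).2.2, e, (c j hj).2.2]

lemma Ok.card (h : Ok I A B C g) : (cfg I A B C g).card = I.n + 3 := by
  rw [cfg, card_image_of_injOn h.inj, card_range]

lemma Ok.p12 (h : Ok I A B C g) : Ok I B A C g := by unfold Ok at *; tauto
lemma Ok.p23 (h : Ok I A B C g) : Ok I A C B g := by unfold Ok at *; tauto
lemma cfg12 : cfg I B A C g = cfg I A B C g := by ext; simp only [mem_cfg]; tauto
lemma cfg23 : cfg I A C B g = cfg I A B C g := by ext; simp only [mem_cfg]; tauto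

lemma Ok.tv (h : Ok I A B C g) (h' : Ok I A' B' C' g') (a : Nb I A A') (b : Nb I B B')
    (c : Nb I C C') (d : ∀ i < I.n, Nb I (g i) (g' i)) :
    Tv (Nb I) (cfg I A B C g) (cfg I A' B' C' g') :=
  tv_of h.inj h'.inj (all_rng.2 ⟨a, b, c, d⟩)

lemma Ok.tvs (h : Ok I A B C g) (h' : Ok I A' B' C' g') {i} (hi : i < I.n) (a : Nb I A (g' i))
    (a' : Nb I (g i) A') (b : Nb I B B') (c : Nb I C C')
    (d : ∀ j < I.n, j ≠ i → Nb I (g j) (g' j)) : Tv (Nb I) (cfg I A B C g) (cfg I A' B' C' g') := by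
  have e : ∀ r ∈ range (I.n + 3), Equiv.swap 0 (i + 3) r ∈ range (I.n + 3) := fun r hr => by
    rw [Equiv.swap_apply_def]; split_ifs <;> simp [hi, hr]
  have := tv_of (N := Nb I) (q := rol A' B' C' g' ∘ Equiv.swap 0 (i + 3)) h.inj
    (h'.inj.comp (Equiv.injective _).injOn e) (all_rng.2 ⟨by simpa [rol], b, c, fun j hj => ?_⟩)
  · rwa [← image_image, eq_of_subset_of_card_le (image_subset_iff.2 e)
      (card_image_of_injective _ (Equiv.injective _)).ge] at this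
  · by_cases e : j = i
    · simpa [rol, e]
    · simpa [rol, Equiv.swap_apply_def, e] using d j hj e

end Pool.Agent.Med
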