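import Pool.Agent.Lib.helper9.MedA

/-! The strategy of the guards. -/

namespace Pool.Agent.Med

open Pool.Agent.Cx Finset

variable (I : Par)

def Gm (W : Set (ℕ → ℕ)) : Prop := ∀ σ ∈ W, (∀ i < I.n, σ i < I.M) ∧
  ∀ a < I.m, ∃ j < I.L, I.tg j = a ∧ ∃ σ' ∈ W, ∀ i < I.n, I.al j i (σ i) (σ' i)

def Z1 (z : T5) : Prop :=
  Vd I z ∧ (z.1 = 0 ∨ z.1 = 2 ∨ z.1 = 6 ∨ z.1 = 8 ∨ z.1 = 9 ∨ z.1 = 10)

abbrev c0 (k : ℕ) : T5 := (k, 0, 0, 0, 0)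
abbrev bt (i : ℕ) : T5 := (12, i, 0, 0, 0)
def Gd (g : ℕ → T5) : Prop := ∀ i < I.n, Vd I (g i) ∧ 11 ≤ (g i).1 ∧ (g i).2.1 = i

inductive Fam (W : Set (ℕ → ℕ)) : T5 → T5 → T5 → (ℕ → T5) → Prop
  | st {j t s σ} : j < I.L → I.tg j < I.m → t < I.m + 2 → s < 3 → σ ∈ W →
      Fam W (0, I.tg j, t, s, 0) (2, j, s, 0, 0) (6, s, 0, 0, 0) fun i => (11, i, σ i, j, s)
  | rr {j} : j = I.L ∨ j = I.L + 1 → Fam W (c0 1) (2, j, 2, 0, 0) (6, 2, 0, 0, 0) bt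
  | r1 {z g} : Z1 I z → Gd I g → Fam W z (c0 5) (c0 3) g
  | r2 : Fam W (c0 4) (c0 5) (c0 9) bt
  | r4 : Fam W (c0 7) (2, I.L, 2, 0, 0) (c0 9) bt

def Fs (W : Set (ℕ → ℕ)) : Set (Finset T5) := {S | ∃ A B C g, Fam I W A B C g ∧ S = cfg I A B C g}

def G6 (W : Set (ℕ → ℕ)) (A B C : T5) (g : ℕ → T5) : Prop := Ok I A B C g ∧ cfg I A B C g ∈ Fs I W

def Rs (W : Set (ℕ → ℕ)) (S : Finset T5) (y : T5) : Prop := ∃ C' ∈ Fs I W, y ∈ C' ∧ Tv (Nb I) S C'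

variable {I} {A B C A' B' C' y z c : T5} {g g' : ℕ → T5} {W : Set (ℕ → ℕ)}

lemma gd_bt : Gd I bt := fun i hi => by simp [Vd, hi]

lemma Fam.g6 (hW : Gm I W) (h : Fam I W A B C g) : G6 I W A B C g := by
  refine ⟨?_, _, _, _, _, h, rfl⟩
  cases h with
  | st a b c d e => exact ⟨by simp [Vd, *]; omega, by simp, by simp, fun i hi => by
      simp [Vd, *, (hW _ e).1 i hi]⟩
  | rr a => exact ⟨by simp [Vd]; omega, by simp, by simp, gd_bt⟩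
  | r1 a b =>
    refine ⟨⟨a.1, by simp [Vd]⟩, ⟨?_, ?_, by simp⟩, ⟨by have := a.2; omega, by simp⟩, b⟩ <;>
      (rintro rfl; simpa using a.2)
  | r2 => exact ⟨by simp [Vd], by simp, by simp, gd_bt⟩
  | r4 => exact ⟨by simp [Vd], by simp, by simp, gd_bt⟩

lemma G6.p12 (h : G6 I W A B C g) : G6 I W B A C g := ⟨h.1.p12, cfg12 (I := I) ▸ h.2⟩
lemma G6.p23 (h : G6 I W A B C g) : G6 I W A C B g := ⟨h.1.p23, cfg23 (I := I) ▸ h.2⟩

lemma Ok.mv (h : Ok I A B C g) (h' : G6 I W A' B' C' g') (a : Nb I A A') (b : Nb I B B')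
    (c : Nb I C C') (d : ∀ i < I.n, Nb I (g i) (g' i))
    (e : y = A' ∨ y = B' ∨ y = C' ∨ ∃ i < I.n, y = g' i) : Rs I W (cfg I A B C g) y :=
  ⟨_, h'.2, mem_cfg.2 e, h.tv h'.1 a b c d⟩

lemma Ok.ms (h : Ok I A B C g) {i x} (h' : G6 I W A' B' C' (Function.update g i x)) (hi : i < I.n)
    (a : Nb I A x) (a' : Nb I (g i) A') (b : Nb I B B') (c : Nb I C C') (e : y = A' ∨ y = x) :
    Rs I W (cfg I A B C g) y :=
  ⟨_, h'.2, mem_cfg.2 (e.imp_right fun e => Or.inr (Or.inr ⟨i, hi, by simpa⟩)),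
    h.tvs h'.1 hi (by simpa) a' b c fun j _ e => Or.inl (by simp [e])⟩

lemma Nb.rf : Nb I A A := Or.inl rfl
lemma Nb.symm (h : Nb I A B) : Nb I B A := h.imp Eq.symm Or.symm

lemma Gd.up (h : Gd I g) {i} (a : Vd I y) (b : 11 ≤ y.1) (c : y.2.1 = i) :
    Gd I (Function.update g i y) := fun j hj => by
  by_cases e : j = i
  · simp [e, a, b, c]
  · simpa [e] using h j hj

lemma Gd.cases (h : Gd I g) {i} (hi : i < I.n) : g i = bt i ∨ ((g i).1 = 11 ∧ (g i).2.1 = i) := by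
  obtain ⟨a, b, c⟩ := h i hi
  rcases a with h | h | h | h | h | h | h | h <;> first | omega | simp [Prod.ext_iff, *]

lemma Gd.nb (h : Gd I g) : ∀ i < I.n, Nb I (g i) (bt i) := fun i hi => by
  rcases h.cases hi with e | e <;> simp [Nb, Ed, e]

lemma vd_cases (h : Vd I y) : Z1 I y ∨ y = c0 1 ∨ y = c0 3 ∨ y = c0 4 ∨ y = c0 5 ∨ y = c0 7 ∨
    (11 ≤ y.1 ∧ y.2.1 < I.n) := by
  simp only [Z1, h, true_and]
  rcases h with h | h | h | h | h | h | h | ⟨h | h | h | h | h | h, h'⟩ <;> simp [Prod.ext_iff, *]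

lemma Z1.t0 (h : Z1 I z) : Nb I z (c0 9) := by
  obtain ⟨a, h | h | h | h | h | h⟩ := h <;> simp [Nb, Ed, h]
  simpa [Vd, h, Prod.ext_iff] using a

lemma Z1.hub (h : Z1 I z) : z = c0 9 ∨ Nb I z (c0 5) ∨ Nb I z (c0 3) := by
  obtain ⟨a, h | h | h | h | h | h⟩ := h <;> simp [Nb, Ed, h]
  simpa [Vd, h, Prod.ext_iff] using a

lemma z1_t0 : Z1 I (c0 9) := by simp [Z1, Vd]

lemma up_nb {i} (h : Nb I (g i) y) : ∀ j < I.n, Nb I (g j) (Function.update g i y j) := fun j _ => by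
  by_cases e : j = i
  · simpa [e]
  · simp [e, Nb]

variable (hW : Gm I W) (h1 : I.tg I.L = I.m) (h2 : I.tg (I.L + 1) = I.m + 1)
include hW h1 h2

lemma Z1.ex (h : Z1 I z) : (∃ j, (j = I.L ∨ j = I.L + 1) ∧ Nb I z (2, j, 2, 0, 0)) ∨
    Nb I z (6, 2, 0, 0, 0) := by
  obtain ⟨a, h | h | h | h | h | h⟩ := h <;> simp [Nb, Ed, h, h1, h2]
  · omega
  · omega
  · simp [Vd, h] at a; omega

lemma rs_r1 (hz : Z1 I z) (hg : Gd I g) (hy : Vd I y) : Rs I W (cfg I z (c0 5) (c0 3) g) y := by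
  have o := ((Fam.r1 hz hg).g6 hW).1
  have n : Nb I (c0 5) (c0 3) := by simp [Nb, Ed]
  rcases vd_cases hy with h | rfl | rfl | rfl | rfl | rfl | ⟨h, hi⟩
  · have t := (Fam.r1 h hg).g6 hW
    rcases hz.hub with rfl | a | a
    · exact o.mv t h.t0.symm .rf .rf (fun _ _ => .rf) (by simp)
    all_goals rcases h.hub with rfl | b | b
    · exact o.mv t hz.t0 .rf .rf (fun _ _ => .rf) (by simp)
    · exact o.mv t.p12 a b.symm .rf (fun _ _ => .rf) (by simp)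
    · exact o.mv t.p12.p23 a n b.symm (fun _ _ => .rf) (by simp)
    · exact o.mv t hz.t0 .rf .rf (fun _ _ => .rf) (by simp)
    · exact o.mv t.p23.p12 a b.symm n.symm (fun _ _ => .rf) (by simp)
    · exact o.mv t.p12.p23.p12 a .rf b.symm (fun _ _ => .rf) (by simp)
  · rcases hz.ex hW h1 h2 with ⟨j, a, b⟩ | b
    · exact o.mv ((Fam.rr a).g6 hW).p12 b (by simp [Nb, Ed]) (by simp [Nb, Ed]) hg.nb (by simp)
    · exact o.mv ((Fam.rr (Or.inl rfl)).g6 hW).p23.p12 b (by simp [Nb, Ed]) (by simp [Nb, Ed])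
        hg.nb (by simp)
  · exact o.mv ((Fam.r1 hz hg).g6 hW) .rf .rf .rf (fun _ _ => .rf) (by simp)
  · exact o.mv (Fam.r2.g6 hW).p12.p23.p12 hz.t0 .rf (by simp [Nb, Ed]) hg.nb (by simp)
  · exact o.mv ((Fam.r1 hz hg).g6 hW) .rf .rf .rf (fun _ _ => .rf) (by simp)
  · exact o.mv (Fam.r4.g6 hW).p23.p12 hz.t0 (by simp [Nb, Ed]) (by simp [Nb, Ed]) hg.nb (by simp)
  · have t := (Fam.r1 hz (hg.up hy h rfl)).g6 hW
    by_cases e : Nb I (g y.2.1) y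
    · exact o.mv t .rf .rf .rf (up_nb e) (Or.inr (Or.inr (Or.inr ⟨_, hi, by simp⟩)))
    have := (gd_bt.up hy h rfl).cases hi
    simp only [Function.update_self] at this
    rcases this with a | a
    · exact absurd (a ▸ hg.nb _ hi) e
    rcases hg.cases hi with b | b
    · exact absurd (by simp [b, Nb, Ed, a]) e
    rw [← cfg23, ← cfg12]
    exact o.p23.p12.ms t.p23.p12 hi (by simp [Nb, Ed, a]) (by simp [Nb, Ed, b]) .rf .rf (by simp)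

lemma rs_bt {X} (o : Ok I A B C bt) (hz : Z1 I z) (hy : Vd I y) (h : 11 ≤ y.1) (hi : y.2.1 < I.n)
    (a : Nb I A z) (b : Nb I B (c0 5)) (c : Nb I C (c0 3)) (e : X = cfg I A B C bt) : Rs I W X y := by
  refine e ▸ o.mv ((Fam.r1 hz (gd_bt.up hy h rfl)).g6 hW) a b c (up_nb ?_)
    (Or.inr (Or.inr (Or.inr ⟨_, hi, by simp⟩)))
  simpa using ((gd_bt.up hy h rfl).nb _ hi).symm

lemma rs_r2 (hy : Vd I y) : Rs I W (cfg I (c0 4) (c0 5) (c0 9) bt) y := by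
  have o := (Fam.r2.g6 hW).1
  have n : Nb I (c0 4) (c0 3) := by simp [Nb, Ed]
  rcases vd_cases hy with h | rfl | rfl | rfl | rfl | rfl | ⟨h, hi⟩
  · exact o.mv ((Fam.r1 h gd_bt).g6 hW).p12.p23.p12 n .rf h.t0.symm (fun _ _ => .rf) (by simp)
  · exact o.mv ((Fam.rr (Or.inl rfl)).g6 hW).p12 (by simp [Nb, Ed]) (by simp [Nb, Ed])
      (by simp [Nb, Ed]) (fun _ _ => .rf) (by simp)
  · exact o.mv ((Fam.r1 z1_t0 gd_bt).g6 hW).p12.p23.p12 n .rf .rf (fun _ _ => .rf) (by simp)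
  · exact o.mv (Fam.r2.g6 hW) .rf .rf .rf (fun _ _ => .rf) (by simp)
  · exact o.mv (Fam.r2.g6 hW) .rf .rf .rf (fun _ _ => .rf) (by simp)
  · exact o.mv (Fam.r4.g6 hW).p12 (by simp [Nb, Ed]) (by simp [Nb, Ed]) .rf (fun _ _ => .rf) (by simp)
  · exact rs_bt hW h1 h2 o.p12.p23.p12 z1_t0 hy h hi .rf .rf n (by rw [cfg12, cfg23, cfg12])

lemma rs_r4 (hy : Vd I y) : Rs I W (cfg I (c0 7) (2, I.L, 2, 0, 0) (c0 9) bt) y := by
  have o := (Fam.r4.g6 hW).1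
  have n : Nb I (c0 7) (c0 5) := by simp [Nb, Ed]
  have n' : Nb I (2, I.L, 2, 0, 0) (c0 3) := by simp [Nb, Ed]
  rcases vd_cases hy with h | rfl | rfl | rfl | rfl | rfl | ⟨h, hi⟩
  · exact o.mv ((Fam.r1 h gd_bt).g6 hW).p12.p23 n n' h.t0.symm (fun _ _ => .rf) (by simp)
  · exact o.mv ((Fam.rr (Or.inl rfl)).g6 hW).p23.p12 (by simp [Nb, Ed]) (by simp [Nb, Ed])
      (by simp [Nb, Ed]) (fun _ _ => .rf) (by simp)
  · exact o.mv ((Fam.r1 z1_t0 gd_bt).g6 hW).p12.p23 n n' .rf (fun _ _ => .rf) (by simp)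
  · exact o.mv (Fam.r2.g6 hW).p12 n (by simp [Nb, Ed]) .rf (fun _ _ => .rf) (by simp)
  · exact o.mv (Fam.r2.g6 hW).p12 n (by simp [Nb, Ed]) .rf (fun _ _ => .rf) (by simp)
  · exact o.mv (Fam.r4.g6 hW) .rf .rf .rf (fun _ _ => .rf) (by simp)
  · exact rs_bt hW h1 h2 o.p23.p12 z1_t0 hy h hi .rf n n' (cfg12.trans cfg23).symm

lemma rs_st {j s} (o : Ok I c (2, j, s, 0, 0) (6, s, 0, 0, 0) g) (hc : Nb I c (c0 5)) (hy : Vd I y)
    (a1 : ∀ a < I.m, y = (0, a, I.tg j, (s + 1) % 3, 0) → Rs I W (cfg I c (2, j, s, 0, 0) (6, s, 0, 0, 0) g) y)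
    (a2 : ∀ i < I.n, j < I.L → Nb I (g i) (10, i, j, s, 0) ∧ Nb I (2, j, s, 0, 0) (g i))
    (a3 : y = c0 1 ∨ y = c0 7 → Rs I W (cfg I c (2, j, s, 0, 0) (6, s, 0, 0, 0) g) y) :
    Rs I W (cfg I c (2, j, s, 0, 0) (6, s, 0, 0, 0) g) y := by
  have hg : Gd I g := o.2.2.2
  have n : Nb I (6, s, 0, 0, 0) (c0 3) := by simp [Nb, Ed]
  have n' : Nb I (2, j, s, 0, 0) (c0 3) := by simp [Nb, Ed]
  have zj : Z1 I (2, j, s, 0, 0) := ⟨o.1.2.1, by simp⟩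
  rcases vd_cases hy with h | rfl | rfl | rfl | rfl | rfl | ⟨h, hi⟩
  · have t := (Fam.r1 h hg).g6 hW
    by_cases b1 : Nb I (2, j, s, 0, 0) y
    · exact o.mv t.p12 hc b1 n (fun _ _ => .rf) (by simp)
    by_cases b2 : Nb I (6, s, 0, 0, 0) y
    · exact o.mv t.p12.p23 hc n' b2 (fun _ _ => .rf) (by simp)
    obtain ⟨y1, y2, y3, y4, y5⟩ := y
    obtain ⟨-, rfl | rfl | rfl | rfl | rfl | rfl⟩ := id h <;> simp [Nb, Ed, Vd] at b1 b2 hy
    · exact a1 y2 hy.1 (by simp [*])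
    · omega
    obtain ⟨rfl, rfl⟩ := b1
    obtain ⟨b1, b2, -, rfl⟩ := hy
    rw [← cfg12]
    exact o.p12.ms (i := y2) (x := g y2) (by simpa using t) b1 (a2 _ b1 b2).2 (a2 _ b1 b2).1 hc n
      (by simp)
  · exact a3 (by simp)
  · exact o.mv ((Fam.r1 zj hg).g6 hW).p12 hc .rf n (fun _ _ => .rf) (by simp)
  · exact o.mv (Fam.r2.g6 hW).p12 hc (by simp [Nb, Ed]) (by simp [Nb, Ed]) hg.nb (by simp)
  · exact o.mv ((Fam.r1 zj hg).g6 hW).p12 hc .rf n (fun _ _ => .rf) (by simp)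
  · exact a3 (by simp)
  · by_cases e : Nb I (g y.2.1) y
    · exact o.mv ((Fam.r1 zj (hg.up hy h rfl)).g6 hW).p12 hc .rf n (up_nb e)
        (Or.inr (Or.inr (Or.inr ⟨_, hi, by simp⟩)))
    have := (gd_bt.up hy h rfl).cases hi
    simp only [Function.update_self] at this
    rcases this with a | a
    · exact absurd (a ▸ hg.nb _ hi) e
    rcases hg.cases hi with b | b
    · exact absurd (by simp [b, Nb, Ed, a]) e
    have t := (Fam.r1 (z := (2, I.L, 2, 0, 0)) (by simp [Z1, Vd]) (hg.up hy h rfl)).g6 hW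
    by_cases e' : s = (y.2.2.2.2 + 1) % 3
    · rw [← cfg23, ← cfg12]
      exact o.p23.p12.ms t hi (by simp [Nb, Ed, a, e']) (by simp [Nb, Ed, b, h1]) hc n' (by simp)
    · rw [← cfg12]
      exact o.p12.ms t hi (by simp [Nb, Ed, a, e']) (by simp [Nb, Ed, b, h1]) hc n (by simp)

theorem mstr_of (h : W.Nonempty) : MStr (Vd I) (Nb I) (I.n + 3) := by
  obtain ⟨σ0, h0⟩ := h
  refine ⟨Fs I W, ⟨_, _, _, _, _, .r2, rfl⟩, ?_⟩
  rintro _ ⟨A, B, C, g, h, rfl⟩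
  have o := (h.g6 hW).1
  refine ⟨o.card.le, fun u hu => ?_, fun y hy => ?_⟩
  · rcases mem_cfg.1 hu with rfl | rfl | rfl | ⟨i, hi, rfl⟩
    exacts [o.1.1, o.1.2.1, o.1.2.2, (o.2.2.2 i hi).1]
  cases h with
  | r1 a b => exact rs_r1 hW h1 h2 a b hy
  | r2 => exact rs_r2 hW h1 h2 hy
  | r4 => exact rs_r4 hW h1 h2 hy
  | @st j t s σ a b c d e =>
    refine rs_st hW h1 h2 o (by simp [Nb, Ed]) hy ?_ (fun i _ _ => by simp [Nb, Ed]; omega) ?_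
    · rintro a ha rfl
      obtain ⟨j', b1, rfl, σ', b2, b3⟩ := (hW _ e).2 a ha
      exact o.mv ((Fam.st (t := I.tg j) b1 ha (by omega) (Nat.mod_lt (s + 1) (by omega)) b2).g6 hW)
        (by simp [Nb, Ed]) (by simp [Nb, Ed]) (by simp [Nb, Ed])
        (fun i hi => by simp [Nb, Ed, b3 i hi]) (by simp)
    · rintro (rfl | rfl)
      · obtain ⟨j', b1, b2⟩ := (Z1.ex hW h1 h2 ⟨o.1.1, by simp⟩).resolve_right (by simp [Nb, Ed])
        exact o.mv ((Fam.rr b1).g6 hW).p12 b2 (by simp [Nb, Ed]) (by simp [Nb, Ed])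
          (Gd.nb o.2.2.2) (by simp)
      · exact o.mv (Fam.r4.g6 hW).p12.p23.p12 (by simp [Nb, Ed]) (by simp [Nb, Ed])
          (by simp [Nb, Ed]) (Gd.nb o.2.2.2) (by simp)
  | @rr j a =>
    have b : I.m ≤ I.tg j ∧ I.tg j < I.m + 2 := by rcases a with rfl | rfl <;> omega
    refine rs_st hW h1 h2 o (by simp [Nb, Ed]) hy ?_ (fun i _ _ => by omega) ?_
    · rintro a ha rfl
      obtain ⟨j', b1, rfl, σ', b2, b3⟩ := (hW _ h0).2 a ha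
      exact o.mv ((Fam.st (t := I.tg j) (s := 0) b1 ha b.2 (by omega) b2).g6 hW)
        (by simp [Nb, Ed, b]) (by simp [Nb, Ed]) (by simp [Nb, Ed])
        (fun i hi => by simp [Nb, Ed]) (by simp)
    · rintro (rfl | rfl)
      · exact o.mv ((Fam.rr a).g6 hW) .rf .rf .rf (fun _ _ => .rf) (by simp)
      · exact o.mv (Fam.r4.g6 hW).p12.p23 (by simp [Nb, Ed]) (by simp [Nb, Ed])
          (by simp [Nb, Ed]) (fun _ _ => .rf) (by simp)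

end Pool.Agent.Med
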