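import Pool.Agent.Lib.helper9.MedB

/-! The strategy of the attacker. -/

namespace Pool.Agent.Med

open Pool.Agent.Cx Finset

variable {I : Par} {F : Set (Finset T5)} {C : Finset T5} {y : T5} {g : ℕ → T5}

def Str (I : Par) (F : Set (Finset T5)) : Prop := ∀ C ∈ F, C.card ≤ I.n + 3 ∧ (∀ u ∈ C, Vd I u) ∧
  ∀ v, Vd I v → ∃ C' ∈ F, v ∈ C' ∧ Tv (Nb I) C C'

lemma Str.dom (h : Str I F) (hC : C ∈ F) (v) (hv : Vd I v) : ∃ u ∈ C, Nb I u v := by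
  obtain ⟨_, -, a, f, -, rfl, b⟩ := (h C hC).2.2 v hv
  obtain ⟨u, hu, rfl⟩ := mem_image.1 a
  exact ⟨u, hu, b u hu⟩

lemma Str.shape (h : Str I F) (hC : C ∈ F) (hy : y ∈ C) (h1 : y.1 ≤ 1) : ∃ X Y g, Ok I y X Y g ∧
    C = cfg I y X Y g ∧ (X.1 = 2 ∨ X.1 = 3 ∨ X.1 = 4) ∧ (Y.1 = 5 ∨ Y.1 = 6 ∨ Y.1 = 7) := by
  obtain ⟨X, hX, a⟩ := h.dom hC (c0 4) (by simp [Vd])
  obtain ⟨Y, hY, b⟩ := h.dom hC (c0 7) (by simp [Vd])
  have : ∀ i, ∃ u, i < I.n → u ∈ C ∧ Nb I u (bt i) := fun i => by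
    by_cases hi : i < I.n
    · simpa [hi] using h.dom hC (bt i) (by simp [Vd, hi])
    · simp [hi]
  choose g hg using this
  have a' : X.1 = 2 ∨ X.1 = 3 ∨ X.1 = 4 := by
    simp [Nb, Ed] at a; rcases a with rfl | a | a <;> simp [*]
  have b' : Y.1 = 5 ∨ Y.1 = 6 ∨ Y.1 = 7 := by
    simp [Nb, Ed] at b; rcases b with rfl | b | b <;> simp [*]
  have v := (h C hC).2.1
  have o : Ok I y X Y g := ⟨⟨v _ hy, v _ hX, v _ hY⟩, by
    refine ⟨?_, ?_, ?_⟩ <;> (rintro rfl; omega), by omega, fun i hi => ⟨v _ (hg i hi).1, by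
      have := (hg i hi).2
      simp [Nb, Ed] at this
      rcases this with a | a
      exacts [by simp [a], ⟨a.1.ge, a.2.symm⟩]⟩⟩
  refine ⟨X, Y, g, o, (eq_of_subset_of_card_le (fun u hu => ?_) (o.card ▸ (h C hC).1)).symm, a', b'⟩
  rcases mem_cfg.1 hu with rfl | rfl | rfl | ⟨i, hi, rfl⟩
  exacts [hy, hX, hY, (hg i hi).1]

def St (I : Par) (F : Set (Finset T5)) (y : T5) (j s : ℕ) (g : ℕ → T5) : Prop :=
  y.1 ≤ 1 ∧ Ok I y (2, j, s, 0, 0) (6, s, 0, 0, 0) g ∧ cfg I y (2, j, s, 0, 0) (6, s, 0, 0, 0) g ∈ F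

variable (h : Str I F) (hm : 2 ≤ I.m) (ht : ∀ j < I.L + 2, I.tg j < I.m + 2)
include h hm ht

lemma Str.strict (hC : C ∈ F) (hy : y ∈ C) (h1 : y.1 ≤ 1) (h2 : y.1 = 1 ∨ c0 5 ∉ C) :
    ∃ j s g, St I F y j s g ∧ C = cfg I y (2, j, s, 0, 0) (6, s, 0, 0, 0) g ∧
      (y.1 = 0 → I.tg j = y.2.1 ∧ s = y.2.2.2.1) := by
  obtain ⟨X, Y, g, o, rfl, a, b⟩ := h.shape hC hy h1
  have d : ∀ v, Vd I v → (v.1 = 0 ∨ v.1 = 8 ∨ v.1 = 9 ∨ v = (6, 3, 0, 0, 0)) →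
      Nb I y v ∨ Nb I X v ∨ Nb I Y v := fun v hv h' => by
    obtain ⟨u, hu, e⟩ := h.dom hC v hv
    rcases mem_cfg.1 hu with rfl | rfl | rfl | ⟨i, hi, rfl⟩
    iterate 3 simp [e]
    exfalso
    rcases Gd.cases o.2.2.2 hi with c | c <;> rcases h' with h' | h' | h' | h' <;>
      simp [Nb, Ed, c, h', Prod.ext_iff] at e
    omega
  obtain ⟨⟨v1, v2, v3⟩, -⟩ := id o
  obtain ⟨y1, y2, y3, y4, y5⟩ := y
  obtain ⟨x1, j, s, x4, x5⟩ := X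
  obtain ⟨z1, z2, z3, z4, z5⟩ := Y
  dsimp only at a b h1 h2 ⊢
  have b' : z1 = 6 ∨ z1 = 7 := b.resolve_left (by
    rintro rfl
    simp [Vd] at v3
    obtain rfl := h2.resolve_right (by simp [mem_cfg, v3])
    have d1 := d (6, 3, 0, 0, 0) (by simp [Vd]) (by simp)
    have d2 := d (c0 9) (by simp [Vd]) (by simp)
    rcases a with rfl | rfl | rfl <;> simp [Nb, Ed] at d1 d2)
  have dq : ∀ a < I.m, ∀ t < I.m + 2, ∀ s' < 3, Nb I (y1, y2, y3, y4, y5) (0, a, t, s', 0) ∨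
      Nb I (x1, j, s, x4, x5) (0, a, t, s', 0) := fun a ha t ht s' hs => by
    rcases d (0, a, t, s', 0) (by simp [Vd, *]) (by simp) with e | e | e
    exacts [Or.inl e, Or.inr e, by rcases b' with rfl | rfl <;> simp [Nb, Ed] at e]
  have hy1 : y1 = 0 ∨ y1 = 1 := by omega
  obtain rfl : x1 = 2 := by
    by_contra e
    have d0 := dq 0 (by omega) (y3 % (I.m + 2)) (Nat.mod_lt _ (by omega)) (y4 % 3) (by omega)
    have d1 := dq 1 (by omega) (y3 % (I.m + 2)) (Nat.mod_lt _ (by omega)) (y4 % 3) (by omega)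
    rcases a with rfl | rfl | rfl <;> rcases hy1 with rfl | rfl <;>
      simp [Nb, Ed, Vd] at d0 d1 v1 e <;> (try simp [v1] at d0) <;> omega
  simp [Vd] at v2
  obtain ⟨v2, v4, rfl, rfl⟩ := v2
  have d2 := d (8, s, 0, 0, 0) (by simp [Vd, v4]) (by simp)
  have e : (z1, z2, z3, z4, z5) = (6, s, 0, 0, 0) := by
    rcases b' with rfl | rfl <;> rcases hy1 with rfl | rfl <;> simp [Nb, Ed, Vd] at d2 v3 <;> simp [*]
  rw [e] at o hC ⊢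
  refine ⟨j, s, g, ⟨h1, o, hC⟩, rfl, ?_⟩
  rintro rfl
  have d0 := dq 0 (by omega) _ (ht j v2) ((s + 1) % 3) (by omega)
  have d1 := dq 1 (by omega) _ (ht j v2) ((s + 1) % 3) (by omega)
  simp [Nb, Ed, Vd] at d0 d1 v1
  omega

lemma Str.step {j s a} (hL : ∀ j < I.L + 2, I.tg j < I.m → j < I.L) (hs : St I F y j s g)
    (ha : a < I.m) : ∃ y', ∃ j' < I.L, ∃ σ : ℕ → ℕ, I.tg j' = a ∧ (∃ g', St I F y' j' ((s + 1) % 3) g' ∧
      ∀ i < I.n, g' i = (11, i, σ i, j', (s + 1) % 3)) ∧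
      ∀ σ0 : ℕ → ℕ, (∀ i < I.n, g i = (11, i, σ0 i, j, s)) → ∀ i < I.n, I.al j' i (σ0 i) (σ i) := by
  obtain ⟨h1, o, hC⟩ := hs
  have v := o.1.2.1
  simp [Vd] at v
  obtain ⟨C', hC', a1, f, f1, f2, f3⟩ := (h _ hC).2.2 (0, a, I.tg j, (s + 1) % 3, 0)
    (by simp [Vd, ha, ht j v.1]; omega)
  have pre : ∀ u' ∈ C', ∃ u, f u = u' ∧ Nb I u u' ∧ u ∈ cfg I y (2, j, s, 0, 0) (6, s, 0, 0, 0) g ∧
      (u = y ∨ u = (2, j, s, 0, 0) ∨ u = (6, s, 0, 0, 0) ∨ ∃ i < I.n, u = g i) := fun u' hu => by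
    obtain ⟨u, hu', rfl⟩ := mem_image.1 (f2 ▸ hu)
    exact ⟨u, rfl, f3 u hu', hu', mem_cfg.1 hu'⟩
  have fy : ∀ u' ∈ C', u' = (0, a, I.tg j, (s + 1) % 3, 0) ∨ u' = c0 5 → f y = u' := fun u' hu e => by
    obtain ⟨u, a, b, -, rfl | rfl | rfl | ⟨i, hi, rfl⟩⟩ := pre u' hu
    · exact a
    iterate 2 rcases e with rfl | rfl <;> simp [Nb, Ed] at b
    rcases Gd.cases o.2.2.2 hi with c | c <;> rcases e with rfl | rfl <;>
      simp [Nb, Ed, c, Prod.ext_iff] at b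
  have e1 := fy _ a1 (Or.inl rfl)
  obtain ⟨j', s', g', hs', rfl, e⟩ := h.strict hm ht hC' a1 (by simp)
    (Or.inr fun e => by simpa using (fy _ e (Or.inr rfl)).symm.trans e1)
  obtain ⟨e, rfl⟩ := e rfl
  have o' := hs'.2.1
  have v' := o'.1.2.1
  simp [Vd] at v' e
  have hj := hL j' v'.1 (by omega)
  have hg : ∀ i < I.n, g' i = (11, i, (g' i).2.2.1, j', (s + 1) % 3) := fun i hi => by
    obtain ⟨u, hu, e⟩ := h.dom hC' (10, i, j', (s + 1) % 3, 0) (by simp [Vd, *])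
    rcases mem_cfg.1 hu with rfl | rfl | rfl | ⟨k, hk, rfl⟩
    iterate 3 simp [Nb, Ed] at e
    rcases Gd.cases o'.2.2.2 hk with c | c <;> simp [Nb, Ed, c, Prod.ext_iff] at e
    obtain ⟨rfl, e1, e2⟩ := e
    simp [Prod.ext_iff, c, ← e1, ← e2]
  refine ⟨_, j', hj, fun i => (g' i).2.2.1, e, ⟨g', hs', hg⟩, fun σ0 h0 i hi => ?_⟩
  have e2 : f (2, j, s, 0, 0) = (2, j', (s + 1) % 3, 0, 0) := by
    obtain ⟨u, a, b, -, rfl | rfl | rfl | ⟨i, hi, rfl⟩⟩ := pre (2, j', (s + 1) % 3, 0, 0)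
      (by simp [mem_cfg])
    · simp [e1] at a
    · exact a
    · simp [Nb, Ed] at b
    · simp [Nb, Ed, h0 i hi] at b; omega
  obtain ⟨u, a, b, -, rfl | rfl | rfl | ⟨k, hk, rfl⟩⟩ := pre (g' i)
    (mem_cfg.2 (Or.inr (Or.inr (Or.inr ⟨i, hi, rfl⟩))))
  all_goals rw [hg i hi] at a b
  · simp [e1] at a
  · simp [e2] at a
  · simp [Nb, Ed] at b; omega
  · simp [Nb, Ed, h0 k hk] at b
    rcases b with b | ⟨rfl, b⟩ | b
    exacts [by omega, b, by omega]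

omit h in
theorem mstr_iff (h1 : I.tg I.L = I.m) (h2 : I.tg (I.L + 1) = I.m + 1) :
    MStr (Vd I) (Nb I) (I.n + 3) ↔ ∃ W : Set (ℕ → ℕ), W.Nonempty ∧ Gm I W := by
  refine ⟨fun ⟨F, ⟨C, hC⟩, h⟩ => ?_, fun ⟨W, a, b⟩ => mstr_of b h1 h2 a⟩
  have hL : ∀ j < I.L + 2, I.tg j < I.m → j < I.L := fun j a b => by
    by_contra e
    obtain rfl | rfl : j = I.L ∨ j = I.L + 1 := by omega
    all_goals omega
  refine ⟨{σ | ∃ y j s g, St I F y j s g ∧ ∀ i < I.n, g i = (11, i, σ i, j, s)}, ?_, ?_⟩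
  · obtain ⟨C', hC', a, -⟩ := (h C hC).2.2 (c0 1) (by simp [Vd])
    obtain ⟨j, s, g, b, -⟩ := Str.strict h hm ht hC' a (by simp) (by simp)
    obtain ⟨y, j, -, σ, -, ⟨g, c⟩, -⟩ := Str.step h hm ht hL b (show 0 < I.m by omega)
    exact ⟨σ, y, j, _, g, c⟩
  · rintro σ ⟨y, j, s, g, a, b⟩
    refine ⟨fun i hi => ?_, fun x hx => ?_⟩
    · have := (a.2.1.2.2.2 i hi).1
      simp [b i hi, Vd] at this
      exact this.2.1
    · obtain ⟨y, j, c1, σ', c2, ⟨g, c3⟩, c4⟩ := Str.step h hm ht hL a hx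
      exact ⟨j, c1, c2, σ', ⟨y, j, _, g, c3⟩, c4 σ b⟩

end Pool.Agent.Med
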