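import Mathlib

/-! Recolouring lemmas. -/

namespace Pool.Agent.Mix

open Function Relation

variable {T : Type} [DecidableEq T] {k : ℕ} {V : Finset T} {A : T → T → Prop} {f g : T → ℕ}

def Pr (k : ℕ) (V : Finset T) (A : T → T → Prop) (f : T → ℕ) : Prop :=
  (∀ x ∈ V, f x < k) ∧ ∀ x ∈ V, ∀ y ∈ V, A x y → f x ≠ f y

def Stp (k : ℕ) (V : Finset T) (A : T → T → Prop) (f g : T → ℕ) : Prop :=
  Pr k V A g ∧ ∃ u, ∀ x ∈ V, x ≠ u → f x = g x

abbrev Rc (k : ℕ) (V : Finset T) (A : T → T → Prop) := ReflTransGen (Stp k V A)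

omit [DecidableEq T] in
lemma Pr.ne (h : Pr k V A f) {x y} (hx : x ∈ V) (hy : y ∈ V) (a : A x y ∨ A y x) : f x ≠ f y :=
  a.elim (h.2 x hx y hy) fun a => (h.2 y hy x hx a).symm

omit [DecidableEq T] in
lemma Pr.congr (h : Pr k V A f) (e : ∀ x ∈ V, f x = g x) : Pr k V A g :=
  ⟨fun x hx => e x hx ▸ h.1 x hx, fun x hx y hy a => e x hx ▸ e y hy ▸ h.2 x hx y hy a⟩

lemma Pr.upd (h : Pr k V A f) {u c} (hc : c < k)
    (hn : ∀ y ∈ V, y ≠ u → A u y ∨ A y u → f y ≠ c) : Pr k V A (update f u c) := by
  refine ⟨fun x hx => ?_, fun x hx y hy a => ?_⟩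
  · by_cases e : x = u
    · simpa [e] using hc
    · simpa [e] using h.1 x hx
  · by_cases e : x = u <;> by_cases e' : y = u
    · exact absurd rfl (e' ▸ e ▸ h.2 x hx y hy a)
    · simpa [e, e'] using (hn y hy e' (Or.inl (e ▸ a))).symm
    · simpa [e, e'] using hn x hx e (Or.inr (e' ▸ a))
    · simpa [e, e'] using h.2 x hx y hy a

lemma Pr.stp {u c} (h : Pr k V A (update f u c)) : Stp k V A f (update f u c) :=
  ⟨h, u, fun x _ e => by simp [e]⟩

omit [DecidableEq T] in
lemma Rc.pr (h : Rc k V A f g) (hf : Pr k V A f) : Pr k V A g := by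
  induction h with
  | refl => exact hf
  | tail _ h _ => exact h.1

omit [DecidableEq T] in
lemma Rc.symm (h : Rc k V A f g) (hf : Pr k V A f) : Rc k V A g f := by
  induction h with
  | refl => exact .refl
  | tail a h ih =>
    obtain ⟨u, e⟩ := h.2
    exact .head ⟨Rc.pr a hf, u, fun x hx h => (e x hx h).symm⟩ ih

lemma shift [Inhabited T] (r : T → ℕ) (hf : Pr k V A f) (hg : Pr k V A g)
    (h : ∀ x ∈ V, ∀ y ∈ V, A x y ∨ A y x → r x ≤ r y → f x ≠ g x → f y ≠ g y → g x ≠ f y) :
    Rc k V A f g := by
  induction hn : (V.filter fun x => f x ≠ g x).card generalizing f with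
  | zero =>
    refine .single ⟨hg, default, fun x hx _ => ?_⟩
    simpa [hx] using Finset.filter_eq_empty_iff.1 (Finset.card_eq_zero.1 hn) hx
  | succ n ih =>
    obtain ⟨u, hu, m⟩ := (V.filter fun x => f x ≠ g x).exists_min_image r
      (Finset.card_pos.1 (by omega))
    obtain ⟨u1, u2⟩ := Finset.mem_filter.1 hu
    have p : Pr k V A (update f u (g u)) := hf.upd (hg.1 u u1) fun y hy _ a => by
      by_cases e : f y = g y
      · exact e ▸ (hg.ne u1 hy a).symm
      · exact (h u u1 y hy a (m y (Finset.mem_filter.2 ⟨hy, e⟩)) u2 e).symm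
    refine .head p.stp (ih p (fun x hx y hy a b c d => ?_) ?_)
    · have e : x ≠ u := by rintro rfl; simp at c
      have e' : y ≠ u := by rintro rfl; simp at d
      rw [update_of_ne e] at c
      rw [update_of_ne e'] at d ⊢
      exact h x hx y hy a b c d
    · have : (V.filter fun x => update f u (g u) x ≠ g x) =
          (V.filter fun x => f x ≠ g x).erase u := by
        ext x
        by_cases e : x = u <;> simp [e]
      rw [this, Finset.card_erase_of_mem hu]; omega

lemma recol [Inhabited T] (hf : Pr k V A f) {c d : ℕ} (hd : d < k) (h : ∀ x ∈ V, f x ≠ d)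
    (e : ∀ x ∈ V, g x = if f x = c then d else f x) : Rc k V A f g := by
  refine shift (fun _ => 0) hf ⟨fun x hx => ?_, fun x hx y hy a => ?_⟩ fun x hx y hy a _ => ?_
  · have := hf.1 x hx
    rw [e x hx]; split_ifs <;> omega
  · have := hf.2 x hx y hy a
    have := h x hx
    have := h y hy
    rw [e x hx, e y hy]; split_ifs <;> omega
  · have := hf.ne hx hy a
    rw [e x hx, e y hy]; split_ifs <;> omega

omit [DecidableEq T] in
lemma Pr.swap (h : Pr k V A f) {c d : ℕ} (hc : c < k) (hd : d < k) :
    Pr k V A (fun x => Equiv.swap c d (f x)) := by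
  refine ⟨fun x hx => ?_, fun x hx y hy a => by simpa using h.2 x hx y hy a⟩
  have := h.1 x hx
  simp only [Equiv.swap_apply_def]; split_ifs <;> omega

lemma normal [Inhabited T] {ψ : T → ℕ} (hψ : Pr k V A ψ) {m : ℕ} (hm : m < k)
    (hm' : ∀ x ∈ V, ψ x ≠ m) (n : ℕ) (pal : ℕ → T) (tgt : ℕ → ℕ)
    (h1 : ∀ i < n, pal i ∈ V ∧ tgt i < k) (h2 : ∀ i < n, ∀ j < i, tgt i ≠ tgt j ∧
      (A (pal i) (pal j) ∨ A (pal j) (pal i)))
    (H : ∀ f, Pr k V A f → (∀ i < n, f (pal i) = tgt i) → Rc k V A f ψ) (hf : Pr k V A f) :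
    Rc k V A f ψ := by
  have sw : ∀ c < k, ∀ d < k, Rc k V A (fun x => Equiv.swap c d (ψ x)) ψ := by
    intro c hc d hd
    refine Rc.symm ?_ hψ
    by_cases e : c = m
    · exact recol (c := d) hψ hm hm' fun x hx => by
        have := hm' x hx
        simp only [Equiv.swap_apply_def]; split_ifs <;> omega
    by_cases e' : d = m
    · exact recol (c := c) hψ hm hm' fun x hx => by
        have := hm' x hx
        simp only [Equiv.swap_apply_def]; split_ifs <;> omega
    have a := recol (c := c) hψ hm hm' fun _ _ => rfl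
    have b := recol (c := d) (Rc.pr a hψ) hc (fun x hx => by split_ifs <;> omega) fun _ _ => rfl
    by_cases e'' : c = d
    · simp [e'', ReflTransGen.refl]
    refine (a.trans b).trans (recol (c := m) (Rc.pr b (Rc.pr a hψ)) hd (fun x hx => ?_)
      fun x hx => ?_)
    · split_ifs <;> omega
    · have := hm' x hx
      simp only [Equiv.swap_apply_def]; split_ifs <;> omega
  suffices ∀ i ≤ n, ∀ f, Pr k V A f → (∀ j < i, f (pal j) = tgt j) → Rc k V A f ψ from
    this 0 n.zero_le f hf (by simp)
  intro i hi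
  induction hi using Nat.decreasingInduction with
  | self => exact H
  | of_succ i hi ih =>
    intro f hf e
    have c1 := hf.1 _ (h1 i hi).1
    have c2 := (h1 i hi).2
    have := ih _ (hf.swap c1 c2) fun j hj => by
      rcases Nat.lt_succ_iff_lt_or_eq.1 hj with hj | rfl
      · obtain ⟨a, b⟩ := h2 i hi j hj
        have := hf.ne (h1 i hi).1 (h1 j (by omega)).1 b
        rw [e j hj] at this ⊢
        exact Equiv.swap_apply_of_ne_of_ne this.symm a.symm
      · simp
    have := ReflTransGen.lift (r := Stp k V A) (p := Stp k V A)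
      (fun (g : T → ℕ) x => Equiv.swap (f (pal i)) (tgt i) (g x)) (fun a b ⟨h, u, e⟩ =>
        ⟨h.swap c1 c2, u, fun x hx h => by simp only [e x hx h]⟩) _ _ this
    simp only [Function.onFun, Equiv.swap_apply_self] at this
    exact this.trans (sw _ c1 _ c2)

lemma degen [Inhabited T] (hk : 4 ≤ k) (F : T → Prop) [DecidablePred F] (r : T → ℕ)
    (hc : ∀ v ∈ V, ¬ F v → ∀ h : T → ℕ, (∀ x, F x → h x = g x) → ∃ c1 c2, ∀ u ∈ V,
      A v u ∨ A u v → F u ∨ r v ≤ r u → h u = c1 ∨ h u = c2 ∨ 4 ≤ h u)
    (hf : Pr k V A f) (hg : Pr k V A g) (e : ∀ x, F x → f x = g x) : Rc k V A f g := by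
  have key : ∀ W : Finset T, (∀ x ∈ W, x ∈ V ∧ ¬ F x) → ∃ g', (∀ x ∈ W, g' x = g x) ∧
      ReflTransGen (fun f g => Pr k (V.filter F ∪ W) A g ∧ ∃ u ∈ W, ∀ x ≠ u, f x = g x) f g' := by
    intro W
    induction W using Finset.induction_on_min_value r with
    | empty => exact fun _ => ⟨f, by simp, .refl⟩
    | insert v W hv m ih =>
      intro hW
      obtain ⟨g', a, b⟩ := ih fun x hx => hW x (Finset.mem_insert_of_mem hx)
      obtain ⟨v1, v2⟩ := hW v (Finset.mem_insert_self _ _)
      have sub : ∀ {f}, Pr k V A f → Pr k (V.filter F ∪ insert v W) A f := fun h => by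
        have : ∀ x ∈ V.filter F ∪ insert v W, x ∈ V := fun x hx =>
          (Finset.mem_union.1 hx).elim (fun h => (Finset.mem_filter.1 h).1) fun h => (hW x h).1
        exact ⟨fun x hx => h.1 x (this x hx), fun x hx y hy => h.2 x (this x hx) y (this y hy)⟩
      suffices (∀ x, F x → g' x = g x) ∧ ∃ c, Pr k (V.filter F ∪ insert v W) A (update g' v c) ∧
          ReflTransGen (fun f g => Pr k (V.filter F ∪ insert v W) A g ∧
            ∃ u ∈ insert v W, ∀ x ≠ u, f x = g x) f (update g' v c) by
        obtain ⟨d, c, -, p⟩ := this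
        have : ∀ x ∈ V.filter F ∪ insert v W, g x = update g' v (g v) x := fun x hx => by
          by_cases h : x = v
          · simp [h]
          · simp only [Finset.mem_union, Finset.mem_filter, Finset.mem_insert, h, false_or] at hx
            rw [update_of_ne h]
            exact hx.elim (fun h => (d x h.2).symm) fun h => (a x h).symm
        exact ⟨_, fun x hx => (this x (Finset.mem_union_right _ hx)).symm, p.tail
          ⟨(sub hg).congr this, v, by simp, fun x hx => by simp [hx]⟩⟩
      clear a
      induction b with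
      | refl => exact ⟨e, f v, by simpa using sub hf, by simpa using .refl⟩
      | @tail g1 g2 _ h ih =>
        obtain ⟨d, c, p, q⟩ := ih
        obtain ⟨p2, u, hu, e⟩ := h
        have uv : u ≠ v := by rintro rfl; exact hv hu
        have fv : ∀ x, F x → x ≠ v := by rintro x h rfl; exact v2 h
        obtain ⟨c1, c2, h⟩ := hc v v1 v2 g1 d
        obtain ⟨c', h1, h2⟩ : ∃ c' < 4, c' ≠ c1 ∧ c' ≠ c2 ∧ c' ≠ g2 u := by
          by_contra! h
          have := h 0
          have := h 1
          have := h 2
          have := h 3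
          omega
        have h3 : ∀ y ∈ V.filter F ∪ insert v W, y ≠ v → A v y ∨ A y v → g1 y ≠ c' := by
          intro y hy yv a
          simp only [Finset.mem_union, Finset.mem_filter, Finset.mem_insert, yv, false_or] at hy
          have := h y (hy.elim (·.1) fun h => (hW y (Finset.mem_insert_of_mem h)).1) a
            (hy.imp (·.2) (m y))
          omega
        have p1 : Pr k (V.filter F ∪ insert v W) A (update g1 v c') := by
          simpa using p.upd (u := v) (c := c') (by omega) fun y hy yv a => by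
            simpa [yv] using h3 y hy yv a
        have p3 : Pr k (V.filter F ∪ insert v W) A (update g2 v c') := by
          have : update g2 v c' = update (update g1 v c') u (g2 u) := by
            funext x
            by_cases a : x = u
            · simp [a, uv]
            · by_cases b : x = v <;> simp [a, b, uv.symm, e]
          rw [this]
          refine p1.upd (p2.1 u (by simp [hu])) fun y hy yu a => ?_
          by_cases b : y = v
          · simp [b, h2]
          · rw [update_of_ne b, e y yu]
            refine (p2.ne (by simp [hu]) ?_ a).symm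
            simpa [b] using hy
        refine ⟨fun x hx => ?_, c', p3, (q.tail ⟨p1, v, by simp, fun x hx => by simp [hx]⟩).tail
          ⟨p3, u, by simp [hu], fun x hx => ?_⟩⟩
        · rw [← e x, d x hx]
          rintro rfl
          exact (hW x (Finset.mem_insert_of_mem hu)).2 hx
        · by_cases b : x = v <;> simp [b, e x hx]
  obtain ⟨g', a, b⟩ := key (V.filter fun x => ¬ F x) (by simp)
  rw [Finset.filter_union_filter_not_eq] at b
  have c : (∀ x, F x → g' x = g x) ∧ Rc k V A f g' := by
    clear a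
    induction b with
    | refl => exact ⟨e, .refl⟩
    | tail _ h ih =>
      obtain ⟨p, u, hu, e⟩ := h
      refine ⟨fun x hx => ?_, ih.2.tail ⟨p, u, fun x _ => e x⟩⟩
      rw [← e x, ih.1 x hx]
      rintro rfl
      exact (Finset.mem_filter.1 hu).2 hx
  refine c.2.tail ⟨hg, default, fun x hx _ => ?_⟩
  by_cases h : F x
  · exact c.1 x h
  · exact a x (by simp [hx, h])

end Pool.Agent.Mix
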