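import Pool.Agent.Lib.helper9.PSHard

/-! Deterministic rule systems. -/

namespace Pool.Agent.Cx

open Function Polynomial Relation

abbrev RL := List (ℕ × List (ℕ × Bool))

def fR (R : RL) (u : ℕ → Bool) (q : ℕ) : Bool :=
  R.any fun r => r.1 == q && r.2.all fun l => u l.1 == l.2

lemma fR_iff {R : RL} {u q} : fR R u q = true ↔ ∃ r ∈ R, r.1 = q ∧ ∀ l ∈ r.2, u l.1 = l.2 := by
  simp only [fR, List.any_eq_true, Bool.and_eq_true, beq_iff_eq, List.all_eq_true]

def DI (I : RL × List ℕ × List ℕ) : Prop :=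
  ∃ t, ∀ q ∈ I.2.2, (fR I.1)^[t] (fun q => decide (q ∈ I.2.1)) q = false

def toDI (I : List (List Lit2) × List (ℕ × Bool) × List (ℕ × Bool)) : RL × List ℕ × List ℕ :=
  (I.1.map fun c => ((c.headD (true, 0, true)).2.1, c.tail.map fun l => (l.2.1, true)),
    I.2.1.map fun l => l.1, I.2.2.map fun l => l.1)

lemma horn {φ : List (List Lit2)} {I T : List (ℕ × Bool)}
    (h1 : ∀ c ∈ φ, ∃ q B, c = (true, q, true) :: B ∧ ∀ l ∈ B, l.1 = false ∧ l.2.2 = false)
    (h2 : ∀ l ∈ I, l.2 = true) (h3 : ∀ l ∈ T, l.2 = false) : SR (φ, I, T) ↔ DI (toDI (φ, I, T)) := by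
  have st : ∀ u v, Step φ u v ↔ ∀ q, fR (toDI (φ, I, T)).1 u q = true → v q = true := by
    intro u v
    simp only [fR_iff, toDI, List.mem_map, Step]
    constructor
    · rintro h _ ⟨_, ⟨c, hc, rfl⟩, rfl, a⟩
      obtain ⟨q, B, rfl, b⟩ := h1 c hc
      obtain ⟨l, hl, e⟩ := h _ hc
      rcases List.mem_cons.1 hl with rfl | hl
      · exact e
      · have := a _ (List.mem_map.2 ⟨l, hl, rfl⟩)
        simp [b l hl, this] at e
    · intro h c hc
      obtain ⟨q, B, rfl, b⟩ := h1 c hc
      by_cases e : ∀ l ∈ B, u l.2.1 = true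
      · exact ⟨_, List.mem_cons_self, h q ⟨_, ⟨_, hc, rfl⟩, rfl, List.forall_mem_map.2 e⟩⟩
      · push Not at e
        obtain ⟨l, hl, e⟩ := e
        exact ⟨l, List.mem_cons_of_mem _ hl, by simpa [b l hl] using e⟩
  constructor
  · rintro ⟨u, v, a, b, c⟩
    obtain ⟨t, ht⟩ : ∃ t, ∀ q, (fR (toDI (φ, I, T)).1)^[t]
        (fun q => decide (q ∈ (toDI (φ, I, T)).2.1)) q = true → v q = true := by
      clear c
      induction b with
      | refl =>
        refine ⟨0, fun q hq => ?_⟩
        simp only [toDI, iterate_zero, id, decide_eq_true_eq, List.mem_map] at hq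
        obtain ⟨l, hl, rfl⟩ := hq
        exact (a l hl).trans (h2 l hl)
      | tail _ h ih =>
        obtain ⟨t, ht⟩ := ih
        refine ⟨t + 1, fun q hq => (st _ _).1 h q ?_⟩
        rw [iterate_succ_apply', fR_iff] at hq
        obtain ⟨r, hr, e, hq⟩ := hq
        refine fR_iff.2 ⟨r, hr, e, fun l hl => ?_⟩
        obtain ⟨c, -, rfl⟩ := List.mem_map.1 hr
        obtain ⟨x, -, rfl⟩ := List.mem_map.1 hl
        exact ht _ (hq _ hl)
    refine ⟨t, fun q hq => ?_⟩
    obtain ⟨l, hl, rfl⟩ := List.mem_map.1 hq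
    have := (c l hl).trans (h3 l hl)
    exact Bool.eq_false_iff.2 fun h => by simp [ht _ h] at this
  · rintro ⟨t, ht⟩
    refine ⟨fun q => decide (q ∈ (toDI (φ, I, T)).2.1), _, fun l hl => ?_, ?_, fun l hl =>
      (ht _ (List.mem_map_of_mem hl)).trans (h3 l hl).symm⟩
    · rw [h2 l hl]; exact decide_eq_true (List.mem_map_of_mem hl)
    · clear ht
      induction t with
      | zero => exact .refl
      | succ t ih => exact ih.tail ((st _ _).2 fun q h => by rwa [iterate_succ_apply'])

theorem hardPS_di : HardPS DI := fun L hL => by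
  obtain ⟨R, D, A, A', nK, r0, r1, c0, cH, cF, cT, cR, p, h⟩ := sr_core L hL
  refine ⟨fun x => toDI (srInst R D A A' nK r0 r1 c0 cH cF cT cR x (p.eval x.length)),
    by unfold toDI srInst stepCl negP v3; fun_prop, fun x => (h x).trans (horn ?_ ?_ ?_)⟩
  · simp only [stepCl, List.mem_flatMap, List.mem_range, List.mem_append, List.mem_map]
    have : ∀ r, ∀ l ∈ negP r, l.1 = false ∧ l.2.2 = false := by simp [negP]
    rintro c (⟨r, -, ⟨x, -, rfl⟩ | ⟨x, -, j, -, a, -, rfl⟩⟩ | ⟨r, -, j, -, rfl⟩)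
    · exact ⟨_, _, rfl, this r⟩
    · exact ⟨_, _, rfl, by simpa using this r⟩
    · exact ⟨_, _, rfl, by simp⟩
  · simp
  · simp

/-- from every state the sticky bit `0` is eventually set -/
def DA (R : RL) : Prop := ∀ u, ∃ t, (fR ((0, [(0, true)]) :: R))^[t] u 0 = true

def clk (I : RL × List ℕ × List ℕ) (M : ℕ) : RL :=
  (0, I.2.2.map fun q => (2 * q + 1, false)) :: ((List.range M).flatMap fun i =>
    I.1.map (fun r => (2 * r.1 + 1, (2 * i + 2, false) :: r.2.map fun l => (2 * l.1 + 1, l.2))) ++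
    (2 * i + 2, (2 * i + 2, false) :: (List.range i).map fun j => (2 * j + 2, true)) ::
    (List.range i).map fun j => (2 * i + 2, [(2 * i + 2, true), (2 * j + 2, false)])) ++
  I.2.1.map fun q => (2 * q + 1, (List.range M).map fun i => (2 * i + 2, true))

def cval (u : ℕ → Bool) : ℕ → ℕ
  | 0 => 0
  | n + 1 => cval u n + 2 ^ n * (u (2 * n + 2)).toNat

lemma head_lt {R : RL} {r} (h : r ∈ R) : r.1 < size R ∧ ∀ l ∈ r.2, l.1 < size R := by
  obtain ⟨a, b⟩ := r
  have := size_lt_of_mem h
  refine ⟨by simp only [size_pair, size_nat] at *; omega, fun ⟨c, d⟩ hl => ?_⟩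
  have := size_lt_of_mem hl
  simp only [size_pair, size_nat] at *; omega

lemma di_bound {R : RL} {u : ℕ → Bool} (t : ℕ) : ∃ s ≤ 2 ^ size R + 1, (fR R)^[t] u = (fR R)^[s] u := by
  classical
  let F : Finset (ℕ → Bool) := insert u (Finset.univ.image fun g : Fin (size R) → Bool =>
    fun q => if h : q < size R then g ⟨q, h⟩ else false)
  have := Wk.bound (R := fun a b => b = fR R a) (u := u) (v := (fR R)^[t] u) F (by simp [F]) (by
    rintro a _ rfl
    refine Finset.mem_insert_of_mem (Finset.mem_image.2 ⟨fun q => fR R a q, by simp, ?_⟩)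
    funext q
    split_ifs with h
    · rfl
    · refine (Bool.eq_false_iff.2 fun e => ?_).symm
      obtain ⟨r, hr, rfl, -⟩ := fR_iff.1 e
      exact h (head_lt hr).1) (by
    induction t with
    | zero => exact .refl
    | succ t ih => exact ih.tail (iterate_succ_apply' _ _ _))
  have c : F.card ≤ 2 ^ size R + 1 := (Finset.card_insert_le _ _).trans
    (Nat.succ_le_succ (Finset.card_image_le.trans (by simp)))
  generalize (fR R)^[t] u = v, F.card = n, 2 ^ size R + 1 = m at this c
  induction n generalizing v m with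
  | zero => exact ⟨0, by omega, this.symm⟩
  | succ n ih =>
    rcases this with h | ⟨w, h, rfl⟩
    · exact ih _ _ h (by omega)
    · obtain ⟨s, a, rfl⟩ := ih _ n h le_rfl
      exact ⟨s + 1, by omega, (iterate_succ_apply' _ _ _).symm⟩

lemma clk_iff (I : RL × List ℕ × List ℕ) : DI I ↔ DA (clk I (size I.1 + 2)) := by
  obtain ⟨R, I, T⟩ := I
  set M := size R + 2 with hM
  unfold DA
  set g := fR ((0, [(0, true)]) :: clk (R, I, T) M) with hg
  have g0 : ∀ u, g u 0 = true ↔ u 0 = true ∨ ∀ q ∈ T, u (2 * q + 1) = false := fun u => by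
    simp [hg, fR_iff, clk, or_and_right, exists_or]
  have g1 : ∀ u q, g u (2 * q + 1) = true ↔ if ∀ i < M, u (2 * i + 2) = true then q ∈ I else
      fR R (fun q => u (2 * q + 1)) q = true := fun u q => by
    have e : ∀ i, 2 * i + 2 ≠ 2 * q + 1 := fun i => by omega
    simp only [hg, fR_iff, clk, List.mem_cons, List.mem_append, List.mem_flatMap, List.mem_map,
      List.mem_range]
    constructor
    · rintro ⟨_, rfl | (rfl | ⟨i, hi, ⟨r, hr, rfl⟩ | rfl | ⟨j, -, rfl⟩⟩) | ⟨p, hp, rfl⟩, a, b⟩ <;>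
        try omega
      · rw [if_neg fun h => by simpa [h i hi] using b _ List.mem_cons_self]
        exact ⟨r, hr, by omega, fun l hl => b _ (List.mem_cons_of_mem _ (List.mem_map_of_mem hl))⟩
      · rw [if_pos (by simpa using b)]
        exact (show p = q by omega) ▸ hp
    · split_ifs with h
      · exact fun hq => ⟨_, Or.inr (Or.inr ⟨q, hq, rfl⟩), rfl, by simpa using h⟩
      · rintro ⟨r, hr, rfl, b⟩
        push Not at h
        obtain ⟨i, hi, h⟩ := h
        exact ⟨_, Or.inr (Or.inl (Or.inr ⟨i, hi, Or.inl ⟨r, hr, rfl⟩⟩)), rfl,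
          List.forall_mem_cons.2 ⟨by simpa using h, List.forall_mem_map.2 b⟩⟩
  have g2 : ∀ u, ∀ i < M, g u (2 * i + 2) = true ↔
      (u (2 * i + 2) = true ↔ ¬ ∀ j < i, u (2 * j + 2) = true) := fun u i hi => by
    simp only [hg, fR_iff, clk, List.mem_cons, List.mem_append, List.mem_flatMap, List.mem_map,
      List.mem_range]
    constructor
    · rintro ⟨_, rfl | (rfl | ⟨n, hn, ⟨r, hr, rfl⟩ | rfl | ⟨j, hj, rfl⟩⟩) | ⟨p, hp, rfl⟩, a, b⟩ <;>
        try omega
      · obtain rfl : n = i := by omega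
        simp at b
        simpa [b.1] using b.2
      · obtain rfl : n = i := by omega
        simp at b
        simpa [b.1] using ⟨j, hj, b.2⟩
    · intro h
      by_cases e : u (2 * i + 2) = true
      · have := h.1 e
        push Not at this
        obtain ⟨j, hj, h⟩ := this
        exact ⟨_, Or.inr (Or.inl (Or.inr ⟨i, hi, Or.inr (Or.inr ⟨j, hj, rfl⟩)⟩)), rfl,
          by simpa [e] using h⟩
      · exact ⟨_, Or.inr (Or.inl (Or.inr ⟨i, hi, Or.inr (Or.inl rfl)⟩)), rfl,
          by simpa [e] using h⟩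
  have cv : ∀ u, ∀ n ≤ M, cval u n < 2 ^ n ∧ ((∀ j < n, u (2 * j + 2) = true) ↔ cval u n + 1 = 2 ^ n) ∧
      cval (g u) n = if cval u n + 1 = 2 ^ n then 0 else cval u n + 1 := by
    intro u n
    induction n with
    | zero => simp [cval]
    | succ n ih =>
      intro hn
      obtain ⟨a, b, c⟩ := ih (by omega)
      have d := g2 u n hn
      simp only [cval, pow_succ, Nat.forall_lt_succ_right, b, c] at d ⊢
      cases h : u (2 * n + 2) <;> cases h' : g u (2 * n + 2) <;> simp [h, h'] at d ⊢ <;>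
        (try split_ifs) <;> omega
  have x1 : ∀ u, (fun q => g u (2 * q + 1)) = if cval u M + 1 = 2 ^ M then (fun q => decide (q ∈ I))
      else fR R (fun q => u (2 * q + 1)) := fun u => by
    funext q
    rw [Bool.eq_iff_iff, g1]
    simp only [(cv u M le_rfl).2.1]
    split_ifs <;> simp
  constructor
  · rintro ⟨t, ht⟩ u
    obtain ⟨s, hs, e⟩ := di_bound (R := R) (u := fun q => decide (q ∈ I)) t
    obtain ⟨n, hn⟩ : ∃ n, cval (g^[n] u) M + 1 = 2 ^ M := by
      induction h : 2 ^ M - cval u M generalizing u with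
      | zero => have := (cv u M le_rfl).1; omega
      | succ m ih =>
        by_cases e : cval u M + 1 = 2 ^ M
        · exact ⟨0, e⟩
        · obtain ⟨n, hn⟩ := ih (g u) (by rw [(cv u M le_rfl).2.2, if_neg e]; omega)
          exact ⟨n + 1, hn⟩
    have : ∀ i ≤ s, cval (g^[i] (g (g^[n] u))) M = i ∧ (fun q => g^[i] (g (g^[n] u)) (2 * q + 1)) =
        (fR R)^[i] fun q => decide (q ∈ I) := by
      intro i
      induction i with
      | zero => simp [x1, (cv _ M le_rfl).2.2, hn]
      | succ i ih =>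
        intro hi
        have : i + 1 ≠ 2 ^ M := by
          have := Nat.one_le_two_pow (n := size R)
          simp only [hM, pow_add]; omega
        simp only [iterate_succ_apply', x1, (cv _ M le_rfl).2.2, ih (by omega), if_neg this,
          and_self]
    refine ⟨s + 1 + (n + 1), ?_⟩
    rw [iterate_add_apply, iterate_succ_apply', iterate_succ_apply', g0]
    exact Or.inr fun q hq => (congrFun (this s le_rfl).2 q).trans (e ▸ ht q hq)
  · intro h
    by_contra e
    obtain ⟨t, ht⟩ := h fun n => n % 2 == 1 && decide (n / 2 ∈ I)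
    have : g^[t] (fun n => n % 2 == 1 && decide (n / 2 ∈ I)) 0 = false ∧ ∃ s,
        (fun q => g^[t] (fun n => n % 2 == 1 && decide (n / 2 ∈ I)) (2 * q + 1)) =
        (fR R)^[s] fun q => decide (q ∈ I) := by
      clear ht
      induction t with
      | zero => exact ⟨rfl, 0, funext fun q => by simp [Nat.mul_add_div]⟩
      | succ t ih =>
        obtain ⟨a, s, b⟩ := ih
        rw [iterate_succ_apply', x1, Bool.eq_false_iff, ne_eq, g0]
        refine ⟨fun h => e ⟨s, fun q hq => ?_⟩, ?_⟩
        · exact (congrFun b q).symm.trans (h.resolve_left (by simp [a]) q hq)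
        · split_ifs
          · exact ⟨0, rfl⟩
          · exact ⟨s + 1, by rw [b, iterate_succ_apply']⟩
    simp [ht] at this

theorem hardPS_da : HardPS DA :=
  hardPS_di.red (r := fun I => clk I (size I.1 + 2)) (by unfold clk; fun_prop) clk_iff

end Pool.Agent.Cx
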