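import Pool.Agent.Lib.helper9.MixB

/-! Reconfiguration of three-valued assignments: can every solution reach the target? -/

namespace Pool.Agent.Cx

open Function Polynomial Relation

def DSt (C : List (List (List (ℕ × ℕ)))) (σ τ : ℕ → ℕ) : Prop :=
  (∀ x, τ x < 3) ∧ ∀ c ∈ C, ∃ t ∈ c, ∀ l ∈ t, σ l.1 ≠ l.2 % 3 ∧ τ l.1 ≠ l.2 % 3

def DN (C : List (List (List (ℕ × ℕ)))) : Prop :=
  ∀ σ, DSt C σ σ → ∃ τ, ReflTransGen (DSt C) σ τ ∧ τ 0 ≠ 1

def lit (x : ℕ) (b : Bool) : List (ℕ × ℕ) := bif b then [(x, 0), (x, 2)] else [(x, 1)]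

def regs (R : RL) (N : ℕ) : List (List (List (ℕ × ℕ))) :=
  ([(0, 0), (0, 2)] :: (List.range 3).map fun i =>
    (1, i + 1) :: (1, i + 2) :: lit ((i + 1) % 3 + 2) true) ::
  (List.range 3).flatMap fun i => ((List.range N).map fun q => [(1, i)] ::
    lit (3 * q + (i + 1) % 3 + 2) false :: (R.filter fun r => r.1 == q).map fun r =>
      r.2.flatMap fun l => lit (3 * l.1 + i + 2) l.2) ++ R.map fun r => [(1, i)] ::
    lit (3 * r.1 + (i + 1) % 3 + 2) true :: r.2.map fun l => lit (3 * l.1 + i + 2) (!l.2)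

def rg (σ : ℕ → ℕ) (i q : ℕ) : Bool := σ (3 * q + i + 2) == 1

lemma regs_sem {R : RL} {N : ℕ} {σ τ : ℕ → ℕ} (hσ : ∀ x, σ x < 3) (hτ : ∀ x, τ x < 3) :
    DSt (regs R N) σ τ ↔ ((σ 0 = 1 ∧ τ 0 = 1) ∨ ∃ i < 3, σ 1 = i ∧ τ 1 = i ∧
      rg σ ((i + 1) % 3) 0 = true ∧ rg τ ((i + 1) % 3) 0 = true) ∧ ∀ i < 3,
      (σ 1 ≠ i ∧ τ 1 ≠ i) ∨ (∀ q < N, (rg σ ((i + 1) % 3) q = false ∧ rg τ ((i + 1) % 3) q = false) ∨
        ∃ r ∈ R, r.1 = q ∧ ∀ l ∈ r.2, rg σ i l.1 = l.2 ∧ rg τ i l.1 = l.2) ∧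
      ∀ r ∈ R, (rg σ ((i + 1) % 3) r.1 = true ∧ rg τ ((i + 1) % 3) r.1 = true) ∨
        ∃ l ∈ r.2, rg σ i l.1 = (!l.2) ∧ rg τ i l.1 = !l.2 := by
  have hl : ∀ x b, (∀ l ∈ lit x b, σ l.1 ≠ l.2 % 3 ∧ τ l.1 ≠ l.2 % 3) ↔
      (σ x == 1) = b ∧ (τ x == 1) = b := fun x b => by
    have := hσ x
    have := hτ x
    cases b <;> simp [lit]
    omega
  have em : ∀ {α β : Type} (f : α → β) (l : List α) (p : β → Prop),
      (∃ x ∈ l.map f, p x) ↔ ∃ a ∈ l, p (f a) := by simp
  simp only [DSt, hτ, implies_true, true_and, regs, List.forall_mem_cons, List.forall_mem_flatMap,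
    List.forall_mem_append, List.forall_mem_map, List.exists_mem_cons_iff, em,
    List.mem_range, hl, rg, List.mem_filter, beq_iff_eq, and_assoc, List.not_mem_nil, false_imp_iff,
    and_true]
  refine and_congr (or_congr ?_ (exists_congr fun i => and_congr_right fun hi => ?_))
    (forall₂_congr fun i hi => ?_)
  · have := hσ 0
    have := hτ 0
    omega
  · have := hσ 1
    have := hτ 1
    simp only [mul_zero, zero_add, ← and_assoc, and_congr_left_iff]
    omega
  · rw [Nat.mod_eq_of_lt hi]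
    by_cases h : σ 1 ≠ i ∧ τ 1 ≠ i <;> simp [h]

lemma regs_iff (R₀ : RL) : DA R₀ ↔
    DN (regs ((0, [(0, true)]) :: R₀) (size ((0, [(0, true)]) :: R₀ : RL))) := by
  unfold DA
  have h0 : ((0, [(0, true)]) : ℕ × List (ℕ × Bool)) ∈ ((0, [(0, true)]) :: R₀ : RL) := by simp
  generalize ((0, [(0, true)]) :: R₀ : RL) = R at h0
  have N0 := (head_lt h0).1
  have cg : ∀ u v : ℕ → Bool, (∀ q < size R, u q = v q) → fR R u = fR R v := fun u v h => by
    funext q
    rw [Bool.eq_iff_iff, fR_iff, fR_iff]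
    exact exists_congr fun r => and_congr_right fun hr => and_congr_right fun _ =>
      forall₂_congr fun l hl => by rw [h _ ((head_lt hr).2 l hl)]
  have cg' : ∀ t (u v : ℕ → Bool), (∀ q < size R, u q = v q) → (fR R)^[t] u 0 = (fR R)^[t] v 0 := by
    rintro (_ | t) u v h
    · exact h 0 N0
    · simp [cg u v h]
  have mk : ∀ {σ : ℕ → ℕ} {i}, (∀ q < size R, rg σ ((i + 1) % 3) q = fR R (rg σ i) q) →
      (∀ q < size R, rg σ ((i + 1) % 3) q = false ∨ ∃ r ∈ R, r.1 = q ∧ ∀ l ∈ r.2, rg σ i l.1 = l.2) ∧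
      ∀ r ∈ R, rg σ ((i + 1) % 3) r.1 = true ∨ ∃ l ∈ r.2, rg σ i l.1 = !l.2 := fun h =>
    ⟨fun q hq => by rw [h q hq, ← fR_iff]; exact (Bool.eq_false_or_eq_true _).symm, fun r hr => by
      rw [h _ (head_lt hr).1, fR_iff, or_iff_not_imp_right]
      exact fun e => ⟨r, hr, rfl, by simpa using e⟩⟩
  have ex : ∀ {σ τ : ℕ → ℕ} {i}, (∀ x, σ x < 3) → DSt (regs R (size R)) σ τ → σ 1 = i ∨ τ 1 = i →
      ∀ q < size R, rg σ ((i + 1) % 3) q = fR R (rg σ i) q ∧
        rg τ ((i + 1) % 3) q = rg σ ((i + 1) % 3) q := by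
    intro σ τ i hσ h hi q hq
    obtain ⟨a, b⟩ := (((regs_sem hσ h.1).1 h).2 i
      (by have := hσ 1; have := h.1 1; omega)).resolve_left (by omega)
    rcases a q hq with a | ⟨r, hr, rfl, a⟩
    · refine ⟨a.1.trans (Bool.eq_false_iff.2 fun e => ?_).symm, a.2.trans a.1.symm⟩
      obtain ⟨r, hr, rfl, e'⟩ := fR_iff.1 e
      rcases b r hr with b | ⟨l, hl, b⟩
      · simp [a.1] at b
      · simp [e' l hl] at b
    · rcases b r hr with b | ⟨l, hl, b⟩
      · exact ⟨b.1.trans (fR_iff.2 ⟨r, hr, rfl, fun l hl => (a l hl).1⟩).symm, b.2.trans b.1.symm⟩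
      · simp [(a l hl).1] at b
  constructor
  · intro h σ hσ
    obtain ⟨t, ht⟩ := h (rg σ ((σ 1 + 1) % 3))
    induction t generalizing σ with
    | zero =>
      by_cases e : σ 0 = 1
      swap
      · exact ⟨σ, .refl, e⟩
      have b : ∀ x, update σ 0 0 x < 3 := fun x => by
        by_cases h : x = 0 <;> simp [h, hσ.1 x]
      refine ⟨update σ 0 0, .single ((regs_sem hσ.1 b).2 ⟨Or.inr ⟨σ 1, hσ.1 1, rfl, by simp, ht,
        by simpa [rg] using ht⟩, ?_⟩), by simp⟩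
      simpa [rg] using ((regs_sem hσ.1 hσ.1).1 hσ).2
    | succ t ih =>
      by_cases e : σ 0 = 1
      swap
      · exact ⟨σ, .refl, e⟩
      have i3 := hσ.1 1
      let σ1 : ℕ → ℕ := fun x => if 2 ≤ x ∧ (x - 2) % 3 = (σ 1 + 2) % 3 then
        (fR R (rg σ ((σ 1 + 1) % 3)) ((x - 2) / 3)).toNat else σ x
      have b1 : ∀ x, σ1 x < 3 := fun x => by
        simp only [σ1]
        split_ifs
        · exact (Bool.toNat_le _).trans_lt (by omega)
        · exact hσ.1 x
      have c1 : ∀ j < 3, j ≠ (σ 1 + 2) % 3 → rg σ1 j = rg σ j := fun j _ _ => by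
        funext q
        simp only [rg, σ1]
        rw [if_neg (by omega)]
      have c2 : rg σ1 ((σ 1 + 2) % 3) = fR R (rg σ ((σ 1 + 1) % 3)) := by
        funext q
        simp only [rg, σ1]
        rw [if_pos (by omega), show (3 * q + (σ 1 + 2) % 3 + 2 - 2) / 3 = q by omega]
        cases fR R _ q <;> rfl
      have c3 : σ1 0 = 1 ∧ σ1 1 = σ 1 := by simp [σ1, e]
      have b2 : ∀ x, update σ1 1 ((σ 1 + 1) % 3) x < 3 := fun x => by
        by_cases h : x = 1
        · simp only [h, update_self]; omega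
        · simp [h, b1 x]
      have c4 : rg (update σ1 1 ((σ 1 + 1) % 3)) = rg σ1 := by
        funext j q; simp [rg]
      have d1 := mk (σ := σ) (i := σ 1) fun q hq => (ex hσ.1 hσ (Or.inl rfl) q hq).1
      have d2 := mk (σ := σ1) (i := (σ 1 + 1) % 3) fun q hq => by
        rw [show ((σ 1 + 1) % 3 + 1) % 3 = (σ 1 + 2) % 3 by omega, c2, c1 _ (by omega) (by omega)]
      have s1 : DSt (regs R (size R)) σ σ1 := (regs_sem hσ.1 b1).2 ⟨Or.inl ⟨e, c3.1⟩, fun i hi => by
        by_cases h : σ 1 = i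
        · subst h
          rw [c1 _ (by omega) (by omega), c1 _ (by omega) (by omega)]
          exact Or.inr (by simpa only [and_self] using d1)
        · exact Or.inl ⟨h, c3.2 ▸ h⟩⟩
      have s2 : ∀ σ' : ℕ → ℕ, σ' = σ1 ∨ σ' = update σ1 1 ((σ 1 + 1) % 3) →
          DSt (regs R (size R)) σ' (update σ1 1 ((σ 1 + 1) % 3)) := fun σ' h' => by
        have e' : rg σ' = rg σ1 := by rcases h' with rfl | rfl <;> simp [c4]
        refine (regs_sem (by rcases h' with rfl | rfl <;> assumption) b2).2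
          ⟨Or.inl (by rcases h' with rfl | rfl <;> simp [c3.1]), fun i hi => ?_⟩
        rw [c4, e']
        by_cases h : σ 1 = i
        · subst h
          rw [c1 _ (by omega) (by omega), c1 _ (by omega) (by omega)]
          exact Or.inr (by simpa only [and_self] using d1)
        by_cases h2 : (σ 1 + 1) % 3 = i
        · subst h2
          exact Or.inr (by simpa only [and_self] using d2)
        · exact Or.inl (by rcases h' with rfl | rfl <;> simp [c3.2, h, h2])
      obtain ⟨τ, a, b⟩ := ih _ (s2 _ (Or.inr rfl)) (by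
        rwa [c4, update_self, show ((σ 1 + 1) % 3 + 1) % 3 = (σ 1 + 2) % 3 by omega, c2])
      exact ⟨τ, (a.head (s2 _ (Or.inl rfl))).head s1, b⟩
  · intro h u
    by_contra! hu
    simp only [ne_eq, Bool.not_eq_true] at hu
    let σ : ℕ → ℕ := fun x => if x = 0 then 1 else if x % 3 = 0 then
      (fR R u ((x - 2) / 3)).toNat else if x % 3 = 2 then (u ((x - 2) / 3)).toNat else 0
    have b : ∀ x, σ x < 3 := fun x => by
      simp only [σ]
      split_ifs <;> first | omega | exact (Bool.toNat_le _).trans_lt (by omega)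
    have c0 : rg σ 0 = u := by
      funext q
      simp only [rg, σ]
      rw [if_neg (by omega), if_neg (by omega), if_pos (by omega),
        show (3 * q + 0 + 2 - 2) / 3 = q by omega]
      cases u q <;> rfl
    have c1 : rg σ 1 = fR R u := by
      funext q
      simp only [rg, σ]
      rw [if_neg (by omega), if_pos (by omega), show (3 * q + 1 + 2 - 2) / 3 = q by omega]
      cases fR R u q <;> rfl
    have s : DSt (regs R (size R)) σ σ := (regs_sem b b).2 ⟨Or.inl (by simp [σ]), fun i hi => by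
      by_cases h : i = 0
      · subst h
        exact Or.inr (by simpa only [and_self] using mk (σ := σ) (i := 0) (by simp [c0, c1]))
      · exact Or.inl (by simp [σ]; omega)⟩
    obtain ⟨τ, a, e⟩ := h σ s
    have : DSt (regs R (size R)) τ τ ∧ ∀ t, (fR R)^[t] (rg τ ((τ 1 + 1) % 3)) 0 = false := by
      clear e
      induction a with
      | refl => exact ⟨s, fun t => by simpa [σ, c1] using hu (t + 1)⟩
      | @tail ρ τ _ h ih =>
        have s' : DSt (regs R (size R)) τ τ :=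
          ⟨h.1, fun c hc => (h.2 c hc).imp fun t a => ⟨a.1, fun l hl => by simp [(a.2 l hl).2]⟩⟩
        refine ⟨s', fun t => ?_⟩
        have := ih.1.1 1
        have := h.1 1
        have a1 := ex ih.1.1 h (Or.inl rfl)
        have a2 := ex ih.1.1 h (Or.inr rfl)
        rw [cg' t _ _ fun q hq => (a2 q hq).2]
        obtain e | e | e : τ 1 = ρ 1 ∨ τ 1 = (ρ 1 + 1) % 3 ∨ ρ 1 = (τ 1 + 1) % 3 := by omega
        · exact e ▸ ih.2 t
        · rw [cg' t _ _ fun q hq => (a2 q hq).1, e]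
          exact ih.2 (t + 1)
        · rw [← e]
          have a3 := fun t => (cg' t _ _ fun q hq => (a1 q hq).1).symm.trans (ih.2 t)
          cases t with
          | zero =>
            exact Bool.eq_false_iff.2 fun e => by
              simpa [fR_iff.2 ⟨_, h0, rfl, by simpa using e⟩] using a3 0
          | succ t => exact a3 t
    rcases ((regs_sem this.1.1 this.1.1).1 this.1).1 with h | ⟨i, -, rfl, -, h, -⟩
    · exact e h.1
    · simpa [h] using this.2 0

theorem hardPS_dn : HardPS DN :=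
  hardPS_da.red (r := fun R => regs ((0, [(0, true)]) :: R) (size ((0, [(0, true)]) :: R : RL)))
    (by unfold regs lit; fun_prop) regs_iff

def CSt (E : List ((ℕ × ℕ) × ℕ × ℕ)) (σ τ : ℕ → ℕ) : Prop :=
  (∀ x, τ x < 3) ∧ ∀ e ∈ E, (σ e.1.1 ≠ e.1.2 % 3 ∧ τ e.1.1 ≠ e.1.2 % 3) ∨
    (σ e.2.1 ≠ e.2.2 % 3 ∧ τ e.2.1 ≠ e.2.2 % 3)

def CS (E : List ((ℕ × ℕ) × ℕ × ℕ)) : Prop :=
  ∀ σ, CSt E σ σ → ∃ τ, ReflTransGen (CSt E) σ τ ∧ τ 0 ≠ 1

lemma cshift {E : List ((ℕ × ℕ) × ℕ × ℕ)} {σ τ : ℕ → ℕ} (r : ℕ → ℕ) (hσ : ∀ x, σ x < 3)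
    (hτ : CSt E τ τ) (h : ∀ e ∈ E, (σ e.1.1 ≠ e.1.2 % 3 ∧ τ e.1.1 ≠ e.1.2 % 3) ∨
      (σ e.2.1 ≠ e.2.2 % 3 ∧ τ e.2.1 ≠ e.2.2 % 3) ∨
      (τ e.1.1 ≠ e.1.2 % 3 ∧ σ e.2.1 ≠ e.2.2 % 3 ∧ r e.1.1 < r e.2.1) ∨
      (τ e.2.1 ≠ e.2.2 % 3 ∧ σ e.1.1 ≠ e.1.2 % 3 ∧ r e.2.1 < r e.1.1)) :
    ReflTransGen (CSt E) σ τ := by
  have : ∀ n, ReflTransGen (CSt E) σ fun x => if r x < n then τ x else σ x := by
    intro n
    induction n with
    | zero => simpa using .refl
    | succ n ih =>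
      refine ih.tail ⟨fun x => ?_, fun e he => ?_⟩ <;> dsimp only
      · split_ifs
        exacts [hτ.1 x, hσ x]
      · have := h e he
        split_ifs <;> omega
  refine (this ((E.map fun e => r e.1.1 + r e.2.1).sum + 1)).tail ⟨hτ.1, fun e he => ?_⟩
  have := List.single_le_sum (l := E.map fun e => r e.1.1 + r e.2.1) (by simp) _
    (List.mem_map_of_mem he)
  dsimp only
  rw [if_pos (by omega), if_pos (by omega)]
  exact hτ.2 e he

def tv (c j : ℕ) : ℕ := 2 * Nat.pair c j + 1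

def chains (C : List (List (List (ℕ × ℕ)))) : List ((ℕ × ℕ) × ℕ × ℕ) :=
  (List.range C.length).flatMap fun c => ((tv c 0, 0), tv c 0, 0) ::
    ((tv c (C.getD c []).length, 1), tv c (C.getD c []).length, 1) ::
    ((tv c (C.getD c []).length, 2), tv c (C.getD c []).length, 2) ::
    (List.range (C.getD c []).length).flatMap fun j => ((tv c j, 2), tv c (j + 1), 0) ::
      ((C.getD c []).getD j []).map fun l => ((tv c j, 1), 2 * l.1, l.2)

lemma chains_iff (C : List (List (List (ℕ × ℕ)))) : DN C ↔ CS (chains C) := by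
  have pj : ∀ σ τ, (∀ x, σ x < 3) → CSt (chains C) σ τ →
      DSt C (fun x => σ (2 * x)) fun x => τ (2 * x) := by
    refine fun σ τ hσ h => ⟨fun x => h.1 _, fun c hc => ?_⟩
    obtain ⟨i, hi, rfl⟩ := List.getElem_of_mem hc
    have h2 := h.2
    simp only [chains, List.forall_mem_flatMap, List.forall_mem_cons, List.forall_mem_map,
      List.mem_range] at h2
    obtain ⟨a, b, c, d⟩ := h2 i hi
    rw [List.getD_eq_getElem _ _ hi] at b c d
    by_contra! e
    have : ∀ j ≤ C[i].length, σ (tv i j) ≠ 0 ∧ τ (tv i j) ≠ 0 := by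
      intro j
      induction j with
      | zero => omega
      | succ j ih =>
        intro hj
        obtain ⟨l, hl, e⟩ := e _ (List.getElem_mem hj)
        obtain ⟨d1, d2⟩ := d j hj
        have := d2 l (by rwa [List.getD_eq_getElem _ _ hj])
        have := ih (by omega)
        have := hσ (tv i j)
        omega
    have := this _ le_rfl
    have := hσ (tv i C[i].length)
    omega
  have lf : ∀ σ τ, DSt C σ τ → ∃ κ : ℕ → ℕ, ∀ c < C.length, κ c < (C.getD c []).length ∧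
      ∀ l ∈ (C.getD c []).getD (κ c) [], σ l.1 ≠ l.2 % 3 ∧ τ l.1 ≠ l.2 % 3 := by
    intro σ τ h
    refine (Classical.skolem (p := fun c κ => c < C.length → κ < (C.getD c []).length ∧
      ∀ l ∈ (C.getD c []).getD κ [], σ l.1 ≠ l.2 % 3 ∧ τ l.1 ≠ l.2 % 3)).1 fun c => ?_
    by_cases hc : c < C.length
    · obtain ⟨t, ht, e⟩ := h.2 _ (List.getElem_mem hc)
      obtain ⟨j, hj, rfl⟩ := List.getElem_of_mem ht
      exact ⟨j, fun _ => by rw [List.getD_eq_getElem _ _ hc, List.getD_eq_getElem _ _ hj]; exact ⟨hj, e⟩⟩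
    · exact ⟨0, fun h => absurd h hc⟩
  let can : (ℕ → ℕ) → (ℕ → ℕ) → ℕ → ℕ := fun σ κ x => if x % 2 = 0 then σ (x / 2) else
    if (x / 2).unpair.2 < κ (x / 2).unpair.1 then 2 else
      if (x / 2).unpair.2 = κ (x / 2).unpair.1 then 1 else 0
  have c0 : ∀ σ κ x, can σ κ (2 * x) = σ x := fun σ κ x => by simp [can]
  have c1 : ∀ σ κ c j, can σ κ (tv c j) = if j < κ c then 2 else if j = κ c then 1 else 0 :=
    fun σ κ c j => by simp [can, tv, Nat.mul_add_div]
  have c2 : ∀ σ τ κ, (∀ x, τ x < 3) → (∀ c < C.length, κ c < (C.getD c []).length ∧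
      ∀ l ∈ (C.getD c []).getD (κ c) [], σ l.1 ≠ l.2 % 3 ∧ τ l.1 ≠ l.2 % 3) →
      CSt (chains C) (can σ κ) (can τ κ) := by
    refine fun σ τ κ h1 h2 => ⟨fun x => ?_, ?_⟩
    · have := h1 (x / 2)
      simp only [can]; split_ifs <;> omega
    · simp only [chains, List.forall_mem_flatMap, List.forall_mem_cons, List.forall_mem_map,
        List.mem_range, c0, c1]
      intro c hc
      obtain ⟨a, b⟩ := h2 c hc
      refine ⟨?_, ?_, ?_, fun j hj => ⟨?_, fun l hl => ?_⟩⟩ <;> try (split_ifs <;> omega)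
      by_cases e : j = κ c
      · exact Or.inr (b l (e ▸ hl))
      · split_ifs <;> omega
  constructor
  · intro h σ hσ
    obtain ⟨τ, a, b⟩ := h _ (pj _ _ hσ.1 hσ)
    suffices ∃ ρ, CSt (chains C) ρ ρ ∧ ReflTransGen (CSt (chains C)) σ ρ ∧ ∀ x, ρ (2 * x) = τ x by
      obtain ⟨ρ, -, c, d⟩ := this
      exact ⟨ρ, c, by rwa [← d 0] at b⟩
    clear b
    induction a with
    | refl => exact ⟨σ, hσ, .refl, fun _ => rfl⟩
    | @tail τ τ' _ h ih =>
      obtain ⟨ρ, a, b, c⟩ := ih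
      obtain ⟨κ, d⟩ := lf _ _ h
      refine ⟨can τ' κ, c2 _ _ _ h.1 fun c hc => ⟨(d c hc).1, fun l hl => by
        simp [((d c hc).2 l hl).2]⟩, (b.trans (cshift (fun x => (x / 2).unpair.2 - κ (x / 2).unpair.1 +
          (κ (x / 2).unpair.1 - (x / 2).unpair.2)) a.1 (c2 _ _ _ (fun x => c x ▸ a.1 _)
          fun c hc => ⟨(d c hc).1, fun l hl => by simp [((d c hc).2 l hl).1]⟩) ?_)).tail
          (c2 _ _ _ h.1 d), c0 _ _⟩
      have a2 := a.2
      simp only [chains, List.forall_mem_flatMap, List.forall_mem_cons, List.forall_mem_map,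
        List.mem_range, c0, c1, c, show ∀ c j, tv c j / 2 = Nat.pair c j from
          fun c j => by unfold tv; omega, Nat.unpair_pair] at a2 ⊢
      intro i hi
      obtain ⟨d1, d2⟩ := d i hi
      obtain ⟨a1, a2, a3, a4⟩ := a2 i hi
      refine ⟨?_, ?_, ?_, fun j hj => ⟨?_, fun l hl => ?_⟩⟩ <;> try (split_ifs <;> omega)
      · have := (a4 j hj).1
        split_ifs <;> omega
      · have := (a4 j hj).2 l hl
        by_cases e : j = κ i
        · have := d2 l (e ▸ hl)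
          omega
        · split_ifs <;> omega
  · intro h σ hσ
    obtain ⟨κ, d⟩ := lf _ _ hσ
    have s := c2 _ _ _ hσ.1 d
    obtain ⟨τ, a, b⟩ := h _ s
    refine ⟨fun x => τ (2 * x), ?_, b⟩
    suffices (∀ x, τ x < 3) ∧ _ from this.2
    clear b
    induction a with
    | refl => exact ⟨s.1, by simpa only [c0] using .refl⟩
    | tail _ h ih => exact ⟨h.1, ih.2.tail (pj _ _ ih.1 h)⟩

theorem hardPS_cs : HardPS CS :=
  hardPS_dn.red (by unfold chains tv; fun_prop) chains_iff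

end Pool.Agent.Cx
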