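import Pool.Agent.Lib.helper9.MixA
import Pool.Agent.Lib.helper9.MixC

/-! The graph of a constraint system. -/

namespace Pool.Agent.Mix

open Function Relation Pool.Agent.Cx

abbrev T4 := ℕ × ℕ × ℕ × ℕ
abbrev CI := List ((ℕ × ℕ) × ℕ × ℕ)
abbrev K (i : ℕ) : T4 := (0, i, 0, 0)
abbrev U (i : ℕ) : T4 := (1, i, 0, 0)
abbrev X (i : ℕ) : T4 := (2, i, 0, 0)
abbrev Q (i j : ℕ) : T4 := (3, i, j, 0)
abbrev S (i j c : ℕ) : T4 := (4, i, j, c)

def CE : List (ℕ × ℕ) := [(0, 1), (0, 2), (1, 2), (3, 1), (4, 0), (5, 0), (5, 1), (3, 6), (6, 7),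
  (7, 8), (8, 4), (6, 2), (7, 0), (8, 0), (4, 9), (9, 10), (10, 11), (11, 5), (9, 2), (10, 1),
  (11, 1), (5, 12), (12, 13), (13, 14), (14, 15), (15, 3), (12, 2), (13, 2), (14, 1), (16, 2),
  (16, 3), (16, 4)]

def en (E : CI) (i : ℕ) := E.getD i ((0, 0), 0, 0)

def sq (E : CI) (i j : ℕ) : ℕ :=
  [(en E i).1.2 % 3, 3, ((en E i).1.2 + 1) % 3,
    bif ((en E i).2.2 + 1) % 3 == ((en E i).1.2 + 1) % 3 then ((en E i).2.2 + 2) % 3
      else ((en E i).2.2 + 1) % 3, 3, (en E i).2.2 % 3].getD j 0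

def Vd (k : ℕ) (E : CI) (x : T4) : Prop :=
  (∃ i < 17, x = K i) ∨ (∃ i < k - 4, x = U i) ∨ (∃ a < size E, x = X a) ∨ ∃ i < E.length, ∃ j < 5,
    x = Q i j ∨ ∃ c < 3, c ≠ sq E i j ∧ c ≠ sq E i (j + 1) ∧ x = S i j c

def Ed (k : ℕ) (E : CI) (x y : T4) : Prop :=
  (∃ i < k - 4, x = U i ∧ y ≠ x) ∨ (∃ p ∈ CE, x = K p.1 ∧ y = K p.2) ∨ (x = K 15 ∧ y = X 0) ∨
    (∃ a < size E, x = K 2 ∧ y = X a) ∨ ∃ i < E.length, (x = K 2 ∧ y = Q i 2) ∨
    (x = Q i 0 ∧ y = X (en E i).1.1) ∨ (x = Q i 4 ∧ y = X (en E i).2.1) ∨ ∃ j < 5,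
      (j < 4 ∧ x = Q i j ∧ y = Q i (j + 1)) ∨ ∃ c < 3, c ≠ sq E i j ∧ c ≠ sq E i (j + 1) ∧
        x = S i j c ∧ (y = Q i j ∨ ∃ d < 6, 2 ≤ d ∧ d ≠ 3 + c ∧ y = K d)

lemma sq_spec (E : CI) (i : ℕ) : sq E i 0 = (en E i).1.2 % 3 ∧ sq E i 1 = 3 ∧ sq E i 2 < 3 ∧
    sq E i 3 < 3 ∧ sq E i 4 = 3 ∧ sq E i 5 = (en E i).2.2 % 3 ∧ sq E i 0 ≠ sq E i 2 ∧
    sq E i 2 ≠ sq E i 3 ∧ sq E i 3 ≠ sq E i 5 := by
  simp only [sq, List.getD_cons_zero, List.getD_cons_succ, Bool.cond_eq_ite, beq_iff_eq, true_and]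
  split_ifs <;> omega

lemma en_lt {E : CI} {i} (hi : i < E.length) : (en E i).1.1 < size E ∧ (en E i).2.1 < size E := by
  have := size_lt_of_mem (List.getElem_mem hi)
  rw [en, List.getD_eq_getElem _ _ hi]
  generalize E[i] = e at this
  obtain ⟨⟨a, b⟩, c, d⟩ := e
  simp only [size_pair, size_nat] at *; omega

def psi (x : T4) : ℕ :=
  if x.1 = 0 then [0, 1, 3, 3, 3, 3, 0, 3, 1, 0, 3, 0, 0, 1, 3, 0, 0].getD x.2.1 0
  else if x.1 = 1 then 4 + x.2.1 else if x.1 = 2 then 1 else if x.1 = 3 then x.2.2.1 % 2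
  else 1 - x.2.2.1 % 2

def mu (i : ℕ) : ℕ := [0, 1, 3, 0, 1, 2, 1, 2, 3, 2, 0, 3, 1, 0, 2, 3, 2].getD i 0

variable {k : ℕ} {E : CI} {V : Finset T4} {f g : T4 → ℕ}

def Std (k : ℕ) (V : Finset T4) (E : CI) (f : T4 → ℕ) : Prop :=
  Pr k V (Ed k E) f ∧ f (K 0) = 0 ∧ f (K 1) = 1 ∧ f (K 2) = 3 ∧ ∀ i < k - 4, f (U i) = 4 + i

section
variable (hk : 4 ≤ k) (hV : ∀ x, x ∈ V ↔ Vd k E x)
include hV

lemma lt4 (h : Pr k V (Ed k E) f) {x} (hx : x ∈ V) (h1 : x.1 ≠ 1)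
    (hU : ∀ i < k - 4, f (U i) = 4 + i) : f x < 4 := by
  by_contra e
  have := h.1 x hx
  have a : f x - 4 < k - 4 := by omega
  have := h.2 (U (f x - 4)) ((hV _).2 (Or.inr (Or.inl ⟨_, a, rfl⟩))) x hx
    (Or.inl ⟨_, a, rfl, fun e => h1 (by rw [e])⟩)
  have := hU _ a
  omega

lemma vK {i} (h : i < 17) : K i ∈ V := (hV _).2 (Or.inl ⟨i, h, rfl⟩)
lemma vX {i} (h : i < size E) : X i ∈ V := (hV _).2 (Or.inr (Or.inr (Or.inl ⟨i, h, rfl⟩)))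
lemma vQ {i j} (h : i < E.length) (h' : j < 5) : Q i j ∈ V :=
  (hV _).2 (Or.inr (Or.inr (Or.inr ⟨i, h, j, h', Or.inl rfl⟩)))

lemma core (h : Pr k V (Ed k E) f) : (∀ p ∈ CE, f (K p.1) ≠ f (K p.2)) ∧ f (K 15) ≠ f (X 0) := by
  have : ∀ p ∈ CE, p.1 < 17 ∧ p.2 < 17 := by decide
  exact ⟨fun p hp => h.2 _ (vK hV (this p hp).1) _ (vK hV (this p hp).2)
    (Or.inr (Or.inl ⟨p, hp, rfl, rfl⟩)), h.2 _ (vK hV (by omega)) _ (vX hV (size_pos E))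
    (by simp [Ed])⟩

lemma softK (h : Pr k V (Ed k E) f) {i j c d} (hi : i < E.length) (hj : j < 5) (hc : c < 3)
    (h1 : c ≠ sq E i j) (h2 : c ≠ sq E i (j + 1)) : S i j c ∈ V ∧ f (S i j c) ≠ f (Q i j) ∧
    (d < 6 → 2 ≤ d → d ≠ 3 + c → f (S i j c) ≠ f (K d)) := by
  have m : S i j c ∈ V :=
    (hV _).2 (Or.inr (Or.inr (Or.inr ⟨i, hi, j, hj, Or.inr ⟨c, hc, h1, h2, rfl⟩⟩)))
  exact ⟨m, h.2 _ m _ (vQ hV hi hj) (by simp [Ed, *]), fun a b c =>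
    h.2 _ m _ (vK hV (by omega)) (by simp [Ed, *])⟩

include hk

lemma mv (hf : Std k V E f) (i c : ℕ) (hi : 3 ≤ i ∧ i < 17 ∧ c < 4 ∧ (i ≤ 5 → c = 3))
    (h : (∀ p ∈ CE, (p.1 = i → f (K p.2) ≠ c) ∧ (p.2 = i → f (K p.1) ≠ c)) ∧
      (i = 15 → f (X 0) ≠ c))
    (G : Std k V E (update f (K i) c) → Rc k V (Ed k E) (update f (K i) c) psi) :
    Rc k V (Ed k E) f psi := by
  obtain ⟨h1, h2, h3, h4, h5⟩ := hf
  have p : Pr k V (Ed k E) (update f (K i) c) := h1.upd (by omega) fun y hy _ a => by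
    rcases a with a | a
    · simp only [Ed, Prod.mk.injEq, and_true, true_and, false_and, exists_false,
        and_false, false_or, or_false, OfNat.zero_ne_ofNat, zero_ne_one] at a
      rcases a with ⟨p, hp, rfl, rfl⟩ | ⟨e, rfl⟩ | ⟨_, -, e, -⟩ | ⟨_, -, e, -⟩ <;> try omega
      exact (h.1 p hp).1 rfl
    · simp only [Ed, Prod.mk.injEq, and_true, true_and, false_and, exists_false,
        and_false, false_or, or_false, OfNat.zero_ne_ofNat, zero_ne_one] at a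
      rcases a with ⟨j, hj, rfl, -⟩ | ⟨p, hp, rfl, rfl⟩ | ⟨e, he, j, hj, d, hd, a, b, rfl, n, _, _, _, _⟩
      · have := h5 j hj
        omega
      · exact (h.1 p hp).2 rfl
      · have := (softK hV h1 (d := 2) he hj hd a b).2.2
        omega
  exact .head p.stp (G ⟨p, by simpa [show 0 ≠ i by omega], by simpa [show 1 ≠ i by omega],
    by simpa [show 2 ≠ i by omega], by simpa⟩)

lemma psiP : Pr k V (Ed k E) psi ∧ ∀ x ∈ V, psi x ≠ 2 := by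
  have a : ∀ x ∈ V, psi x ≠ 2 ∧ (x.1 ≠ 1 → psi x < 4) ∧ psi x < k := fun x hx => by
    rcases (hV x).1 hx with ⟨i, hi, rfl⟩ | ⟨i, hi, rfl⟩ | ⟨i, hi, rfl⟩ |
      ⟨i, hi, j, hj, rfl | ⟨c, -, -, -, rfl⟩⟩ <;> simp only [psi] <;> try (simp <;> omega)
    interval_cases i <;> simp <;> omega
  refine ⟨⟨fun x hx => (a x hx).2.2, fun x _ y hy h => ?_⟩, fun x hx => (a x hx).1⟩
  rcases h with ⟨i, -, rfl, h⟩ | ⟨p, hp, rfl, rfl⟩ | ⟨rfl, rfl⟩ | ⟨_, -, rfl, rfl⟩ |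
    ⟨i, -, ⟨rfl, rfl⟩ | ⟨rfl, rfl⟩ | ⟨rfl, rfl⟩ | ⟨j, -, ⟨-, rfl, rfl⟩ |
      ⟨c, -, -, -, rfl, rfl | ⟨d, h1, h2, -, rfl⟩⟩⟩⟩ <;> try (simp [psi] <;> omega)
  · by_cases e : y.1 = 1
    · rcases (hV y).1 hy with ⟨i, hi, rfl⟩ | ⟨i, hi, rfl⟩ | ⟨i, hi, rfl⟩ |
        ⟨i, hi, j, hj, rfl | ⟨c, -, -, -, rfl⟩⟩ <;> simp [psi] at e h ⊢
      omega
    · have := (a y hy).2.1 e
      have : psi (U i) = 4 + i := rfl
      omega
  · exact (by decide : ∀ p ∈ CE, psi (K p.1) ≠ psi (K p.2)) p hp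
  · interval_cases d <;> simp [psi] <;> omega

lemma parked (hf : Std k V E f) (h : f (K 3) = 3 ∧ f (K 4) = 3 ∧ f (K 5) = 3) :
    Rc k V (Ed k E) f psi := by
  classical
  refine degen hk (fun x => (∃ i < k - 4, x = U i) ∨ ∃ i ≤ 5, x = K i) (fun x => if x.1 = 0 then
    x.2.1 else if x.1 = 4 then 20 else if x.1 = 3 then 25 - x.2.2.1 else 26) ?_ hf.1 (psiP hk hV).1 ?_
  swap
  · rintro x (⟨i, hi, rfl⟩ | ⟨i, hi, rfl⟩)
    · simp [psi, hf.2.2.2.2 i hi]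
    · interval_cases i <;> simp [psi, hf.2, h]
  intro v hv hF h e
  have e0 : ∀ i < k - 4, 4 ≤ h (U i) := fun i hi => by simp [e _ (Or.inl ⟨i, hi, rfl⟩), psi]
  have e1 : ∀ i ≤ 5, 2 ≤ i → h (K i) = 3 := fun i hi _ => by
    rw [e _ (Or.inr ⟨i, hi, rfl⟩)]
    interval_cases i <;> rfl
  rcases (hV v).1 hv with ⟨i, hi, rfl⟩ | ⟨i, hi, rfl⟩ | ⟨i, hi, rfl⟩ |
    ⟨i, hi, j, hj, rfl | ⟨c, -, -, -, rfl⟩⟩
  · have : 6 ≤ i := by by_contra; exact hF (Or.inr ⟨i, by omega, rfl⟩)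
    refine ⟨h (K ([0, 0, 0, 0, 0, 0, 2, 0, 0, 2, 1, 1, 2, 2, 1, 2, 2].getD i 0)),
      if i = 15 then h (X 0) else if i = 8 ∨ i = 11 then 3 else h (K (i + 1)), fun u _ a b => ?_⟩
    simp only [Ed, Prod.mk.injEq, and_true, true_and, false_and, exists_false,
      and_false, false_or, or_false, OfNat.zero_ne_ofNat, zero_ne_one] at a
    rcases a with (⟨p, hp, rfl, rfl⟩ | ⟨rfl, rfl⟩ | ⟨_, -, e, -⟩ | ⟨_, -, e, -⟩) | ⟨j, hj, rfl, -⟩ |
      ⟨p, hp, rfl, rfl⟩ | ⟨_, -, _, -, _, -, -, -, -, _, a⟩ <;> try omega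
    · simp only [CE, List.mem_cons, List.not_mem_nil, or_false] at hp
      rcases hp with rfl | rfl | rfl | rfl | rfl | rfl | rfl | rfl | rfl | rfl | rfl | rfl | rfl |
        rfl | rfl | rfl | rfl | rfl | rfl | rfl | rfl | rfl | rfl | rfl | rfl | rfl | rfl | rfl |
        rfl | rfl | rfl | rfl <;> simp [e1] at this b ⊢
    · simp
    · simp [e0 j hj]
    · simp only [CE, List.mem_cons, List.not_mem_nil, or_false] at hp
      rcases hp with rfl | rfl | rfl | rfl | rfl | rfl | rfl | rfl | rfl | rfl | rfl | rfl | rfl |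
        rfl | rfl | rfl | rfl | rfl | rfl | rfl | rfl | rfl | rfl | rfl | rfl | rfl | rfl | rfl |
        rfl | rfl | rfl | rfl <;> simp [e1] at this b ⊢
  · exact absurd (Or.inl ⟨i, hi, rfl⟩) hF
  · refine ⟨3, 3, fun u _ a b => ?_⟩
    simp only [Ed, Prod.mk.injEq, and_true, true_and, false_and, exists_false,
      and_false, false_or, or_false, OfNat.ofNat_ne_zero, OfNat.ofNat_ne_one,
      Nat.reduceEqDiff] at a
    rcases a with ⟨j, hj, rfl, -⟩ | ⟨rfl, -⟩ | ⟨_, -, rfl, -⟩ | ⟨_, -, ⟨rfl, -⟩ | ⟨rfl, -⟩⟩ <;>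
      simp [e1] at b ⊢
    simp [e0 j hj]
  · refine ⟨if j = 0 then h (X (en E i).1.1) else h (Q i (j - 1)),
      if j = 4 then h (X (en E i).2.1) else 3, fun u _ a b => ?_⟩
    simp only [Ed, Prod.mk.injEq, and_true, true_and, false_and, exists_false,
      and_false, false_or, or_false, OfNat.ofNat_ne_zero, OfNat.ofNat_ne_one,
      Nat.reduceEqDiff] at a
    rcases a with ⟨_, -, ⟨⟨rfl, rfl⟩, rfl⟩ | ⟨⟨rfl, rfl⟩, rfl⟩ | ⟨_, -, _, ⟨rfl, rfl⟩, rfl⟩⟩ |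
      ⟨l, hl, rfl, -⟩ | ⟨_, -, ⟨rfl, rfl, rfl⟩ | ⟨_, -, ⟨_, rfl, rfl, rfl⟩ | ⟨_, -, -, -, rfl, -⟩⟩⟩ <;>
      simp [e1] at b ⊢
    · omega
    · simp [e0 l hl]
    · omega
  · refine ⟨3, h (Q i j), fun u _ a b => ?_⟩
    simp only [Ed, Prod.mk.injEq, and_true, true_and, false_and, exists_false,
      and_false, false_or, or_false, OfNat.ofNat_ne_zero, OfNat.ofNat_ne_one,
      Nat.reduceEqDiff] at a
    rcases a with ⟨_, -, _, -, _, -, -, -, ⟨rfl, rfl, rfl⟩, rfl | ⟨d, _, _, -, rfl⟩⟩ | ⟨l, hl, rfl, -⟩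
    · simp
    · exact Or.inl (e1 d (by omega) (by omega))
    · simp [e0 l hl]

lemma release (hf : Std k V E f) (h : f (K 3) ≠ 0 ∨ f (K 4) ≠ 1 ∨ f (K 5) ≠ 2) :
    Rc k V (Ed k E) f psi := by
  have bd : ∀ {f}, Std k V E f → ∀ i < 17, f (K i) < 4 := fun hf i hi =>
    lt4 hV hf.1 (vK hV hi) (by simp) hf.2.2.2.2
  have L1 : ∀ f, Std k V E f → f (K 3) ≠ 0 → (∀ g, Std k V E g → g (K 4) = 3 → g (K 3) = f (K 3) →
      g (K 5) = f (K 5) → Rc k V (Ed k E) g psi) → Rc k V (Ed k E) f psi := by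
    intro f hf h G
    have : f (K 4) ≠ f (K 0) := (core hV hf.1).1 (4, 0) (by decide)
    have : f (K 8) ≠ f (K 4) := (core hV hf.1).1 (8, 4) (by decide)
    have : f (K 7) ≠ f (K 0) := (core hV hf.1).1 (7, 0) (by decide)
    have : f (K 9) ≠ f (K 2) := (core hV hf.1).1 (9, 2) (by decide)
    have : f (K 16) ≠ f (K 2) := (core hV hf.1).1 (16, 2) (by decide)
    have := bd hf 4 (by omega)
    have := hf.2
    by_cases e : f (K 8) = 3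
    · refine mv hk hV hf 6 0 (by omega) (by simp [CE]; omega) fun h1 =>
        mv hk hV h1 7 (f (K 4)) (by omega) (by simp [CE]; omega) fun h2 =>
        mv hk hV h2 8 (3 - f (K 4)) (by omega) (by simp [CE]; omega) fun h3 =>
        mv hk hV h3 4 3 (by omega) (by simp [CE]; omega) fun h4 => G _ h4 ?_ ?_ ?_ <;> simp
    · refine mv hk hV hf 4 3 (by omega) (by simp [CE]; omega) fun h4 => G _ h4 ?_ ?_ ?_ <;> simp
  have L2 : ∀ f, Std k V E f → f (K 4) ≠ 1 → (∀ g, Std k V E g → g (K 5) = 3 →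
      Rc k V (Ed k E) g psi) → Rc k V (Ed k E) f psi := by
    intro f hf h G
    have : f (K 5) ≠ f (K 0) := (core hV hf.1).1 (5, 0) (by decide)
    have : f (K 5) ≠ f (K 1) := (core hV hf.1).1 (5, 1) (by decide)
    have : f (K 11) ≠ f (K 5) := (core hV hf.1).1 (11, 5) (by decide)
    have : f (K 10) ≠ f (K 1) := (core hV hf.1).1 (10, 1) (by decide)
    have : f (K 12) ≠ f (K 2) := (core hV hf.1).1 (12, 2) (by decide)
    have := bd hf 5 (by omega)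
    have := hf.2
    by_cases e : f (K 11) = 3
    · refine mv hk hV hf 9 1 (by omega) (by simp [CE]; omega) fun h1 =>
        mv hk hV h1 10 2 (by omega) (by simp [CE]; omega) fun h2 =>
        mv hk hV h2 11 0 (by omega) (by simp [CE]; omega) fun h3 =>
        mv hk hV h3 5 3 (by omega) (by simp [CE]; omega) fun h4 => G _ h4 ?_ <;> simp
    · refine mv hk hV hf 5 3 (by omega) (by simp [CE]; omega) fun h4 => G _ h4 ?_ <;> simp
  have L3 : ∀ f, Std k V E f → f (K 5) = 3 → Rc k V (Ed k E) f psi := by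
    intro f hf h
    have G : ∀ g, Std k V E g → g (K 3) = 3 → g (K 5) = 3 → Rc k V (Ed k E) g psi :=
      fun g hg a b => L1 g hg (by omega) fun g hg c d e => parked hk hV hg (by omega)
    have : f (K 3) ≠ f (K 1) := (core hV hf.1).1 (3, 1) (by decide)
    have : f (K 15) ≠ f (K 3) := (core hV hf.1).1 (15, 3) (by decide)
    have : f (K 14) ≠ f (K 1) := (core hV hf.1).1 (14, 1) (by decide)
    have : f (K 6) ≠ f (K 2) := (core hV hf.1).1 (6, 2) (by decide)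
    have : f (K 16) ≠ f (K 2) := (core hV hf.1).1 (16, 2) (by decide)
    have := bd hf 3 (by omega)
    have := hf.2
    by_cases e : f (K 15) = 3
    · obtain ⟨a, ha⟩ : ∃ a, a < 3 ∧ a ≠ f (K 13) ∧ a ≠ 1 :=
        ⟨if f (K 13) = 0 then 2 else 0, by split_ifs <;> omega⟩
      obtain ⟨b, hb⟩ : ∃ b, b < 3 ∧ b ≠ f (K 3) ∧ b ≠ f (X 0) :=
        ⟨if f (X 0) = 1 then 2 - f (K 3) else 1, by split_ifs <;> omega⟩
      refine mv hk hV hf 12 a (by omega) (by simp [CE]; omega) fun h1 =>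
        mv hk hV h1 13 1 (by omega) (by simp [CE]; omega) fun h2 =>
        mv hk hV h2 14 (f (K 3)) (by omega) (by simp [CE]; omega) fun h3 =>
        mv hk hV h3 15 b (by omega) (by simp [CE]; omega) fun h4 =>
        mv hk hV h4 3 3 (by omega) (by simp [CE]; omega) fun h5 => G _ h5 ?_ ?_ <;> simp [h]
    · refine mv hk hV hf 3 3 (by omega) (by simp [CE]; omega) fun h4 => G _ h4 ?_ ?_ <;> simp [h]
  rcases h with h | h | h
  · exact L1 f hf h fun g hg a _ _ => L2 g hg (by omega) L3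
  · exact L2 f hf h L3
  · have : f (K 5) ≠ f (K 0) := (core hV hf.1).1 (5, 0) (by decide)
    have : f (K 5) ≠ f (K 1) := (core hV hf.1).1 (5, 1) (by decide)
    have := bd hf 5 (by omega)
    have := hf.2
    exact L3 f hf (by omega)

end

end Pool.Agent.Mix
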