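import Pool.Agent.Lib.helper9.MixD

/-! Correctness of the graph of a constraint system. -/

namespace Pool.Agent.Mix

open Function Relation Pool.Agent.Cx

variable {k : ℕ} {E : CI} {V : Finset T4} {f g : T4 → ℕ}

def Mach (k : ℕ) (V : Finset T4) (E : CI) (f : T4 → ℕ) : Prop :=
  Std k V E f ∧ f (K 3) = 0 ∧ f (K 4) = 1 ∧ f (K 5) = 2

def dir (E : CI) (σ τ : ℕ → ℕ) (i : ℕ) : ℕ :=
  if σ (en E i).1.1 ≠ (en E i).1.2 % 3 ∧ τ (en E i).1.1 ≠ (en E i).1.2 % 3 then 0 else 1

def col (E : CI) (f : T4 → ℕ) (σ τ : ℕ → ℕ) (x : T4) : ℕ :=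
  if x.1 = 2 then τ x.2.1 else if x.1 = 3 then sq E x.2.1 (x.2.2.1 + dir E σ τ x.2.1) else f x

lemma en_mem {i} (hi : i < E.length) : en E i ∈ E := by
  rw [en, List.getD_eq_getElem _ _ hi]; exact List.getElem_mem hi

lemma sq3 (E : CI) (i j : ℕ) (h : j < 4) : sq E i j ≠ sq E i (j + 1) ∧
    sq E i j ≠ sq E i (j + 1 + 1) ∧ sq E i (j + 1) ≠ sq E i (j + 1 + 1) := by
  have := sq_spec E i
  interval_cases j <;> simp only [Nat.reduceAdd] <;> omega

set_option synthInstance.maxSize 1000 in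
lemma lock : ∀ i < 17, ∀ c < 4, (∀ p ∈ CE, (p.1 = i → c ≠ mu p.2) ∧
    (p.2 = i → c ≠ mu p.1)) → (i = 15 → c ≠ 1) → c = mu i := by decide

section
variable (hk : 4 ≤ k) (hV : ∀ x, x ∈ V ↔ Vd k E x)
include hV

lemma Mach.soft (h : Mach k V E f) {i j c} (hi : i < E.length) (hj : j < 5) (hc : c < 3)
    (h1 : c ≠ sq E i j) (h2 : c ≠ sq E i (j + 1)) : f (S i j c) = c := by
  have a := fun d => softK hV h.1.1 (d := d) hi hj hc h1 h2
  have := lt4 hV h.1.1 (a 0).1 (by simp) h.1.2.2.2.2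
  have := (a 2).2.2
  have := (a 3).2.2
  have := (a 4).2.2
  have := (a 5).2.2
  have := h.1.2.2.2.1
  have := h.2
  omega

lemma Std.var (h : Std k V E f) {a} (ha : a < size E) : f (X a) < 3 := by
  have := lt4 hV h.1 (vX hV ha) (by simp) h.2.2.2.2
  have := h.1.2 _ (vK hV (i := 2) (by omega)) _ (vX hV ha) (by simp [Ed, ha])
  have := h.2.2.2.1
  omega

lemma Mach.path (h : Mach k V E f) {i j} (hi : i < E.length) (hj : j < 5) :
    f (Q i j) = sq E i j ∨ f (Q i j) = sq E i (j + 1) := by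
  by_contra! e
  have := lt4 hV h.1.1 (vQ hV hi hj) (by simp) h.1.2.2.2.2
  by_cases c : f (Q i j) < 3
  · exact (softK hV h.1.1 (d := 0) hi hj c e.1 e.2).2.1 (h.soft hV hi hj c e.1 e.2)
  · have := sq_spec E i
    have := h.1.1.2 _ (vK hV (i := 2) (by omega)) _ (vQ hV hi (j := 2) (by omega)) (by simp [Ed, hi])
    have := h.1.2.2.2.1
    interval_cases j <;> simp only [Nat.reduceAdd] at e <;> omega

lemma Mach.fwd (h : Mach k V E f) {i} (hi : i < E.length) :
    (f (X (en E i).1.1) = (en E i).1.2 % 3 → f (Q i 0) = 3) ∧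
    (f (Q i 0) = 3 → f (X (en E i).2.1) ≠ (en E i).2.2 % 3) := by
  have p := fun j hj => h.path hV (j := j) hi hj
  have q : ∀ j < 4, f (Q i j) ≠ f (Q i (j + 1)) := fun j hj =>
    h.1.1.2 _ (vQ hV hi (by omega)) _ (vQ hV hi (by omega)) (by simp [Ed, hi, hj]; omega)
  have s := sq_spec E i
  constructor
  · have := h.1.1.2 _ (vQ hV hi (j := 0) (by omega)) _ (vX hV (en_lt hi).1) (by simp [Ed, hi])
    have := p 0 (by omega)
    simp only [Nat.reduceAdd] at this
    omega
  · intro e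
    have a : ∀ j < 5, f (Q i j) = sq E i (j + 1) := by
      intro j
      induction j with
      | zero => exact fun _ => e.trans s.2.1.symm
      | succ j ih =>
        exact fun hj => (p _ hj).resolve_left fun e =>
          q j (by omega) ((ih (by omega)).trans e.symm)
    have := h.1.1.2 _ (vQ hV hi (j := 4) (by omega)) _ (vX hV (en_lt hi).2) (by simp [Ed, hi])
    have := a 4 (by omega)
    simp only [Nat.reduceAdd] at this
    omega

lemma cst (hf : Mach k V E f) (hg : Mach k V E g) (h : ∃ u, ∀ x ∈ V, x ≠ u → f x = g x) :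
    CSt E (fun x => f (X x) % 3) fun x => g (X x) % 3 := by
  refine ⟨fun x => Nat.mod_lt _ (by omega), fun e he => ?_⟩
  obtain ⟨i, hi, rfl⟩ : ∃ i < E.length, en E i = e := by
    obtain ⟨i, hi, rfl⟩ := List.getElem_of_mem he
    exact ⟨i, hi, List.getD_eq_getElem _ _ hi⟩
  obtain ⟨u, h⟩ := h
  have := hf.fwd hV hi
  have := hg.fwd hV hi
  have := hf.1.var hV (en_lt hi).1
  have := hf.1.var hV (en_lt hi).2
  have := hg.1.var hV (en_lt hi).1
  have := hg.1.var hV (en_lt hi).2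
  dsimp only
  by_cases e : u = Q i 0
  · have := h _ (vX hV (en_lt hi).1) (by simp [e])
    have := h _ (vX hV (en_lt hi).2) (by simp [e])
    omega
  · have := h _ (vQ hV hi (j := 0) (by omega)) (Ne.symm e)
    omega

include hk

lemma colP {σ τ : ℕ → ℕ} (h : CSt E σ τ) (h0 : ∀ p ∈ CE, f (K p.1) ≠ f (K p.2))
    (h1 : ∀ i < 17, f (K i) < 4) (h2 : f (K 0) = 0 ∧ f (K 1) = 1 ∧ f (K 2) = 3 ∧ f (K 15) = 3)
    (h3 : f (K 3) = 0 ∧ f (K 4) = 1 ∧ f (K 5) = 2) (h4 : ∀ i < k - 4, f (U i) = 4 + i)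
    (h5 : ∀ i < E.length, ∀ j < 5, ∀ c < 3, c ≠ sq E i j → c ≠ sq E i (j + 1) → f (S i j c) = c) :
    Mach k V E (col E f σ τ) := by
  have d : ∀ i, dir E σ τ i ≤ 1 := fun i => by unfold dir; split_ifs <;> omega
  have a : ∀ x ∈ V, (x.1 ≠ 1 → col E f σ τ x < 4) ∧ col E f σ τ x < k := fun x hx => by
    rcases (hV x).1 hx with ⟨i, hi, rfl⟩ | ⟨i, hi, rfl⟩ | ⟨i, hi, rfl⟩ |
      ⟨i, hi, j, hj, rfl | ⟨c, hc, a, b, rfl⟩⟩ <;> simp [col]
    · have := h1 i hi; omega
    · have := h4 i hi; omega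
    · have := h.1 i; omega
    · have := sq_spec E i
      have : j + dir E σ τ i ≤ 5 := by have := d i; omega
      generalize j + dir E σ τ i = l at this
      interval_cases l <;> omega
    · have := h5 i hi j hj c hc a b; omega
  refine ⟨⟨⟨fun x hx => (a x hx).2, fun x _ y hy e => ?_⟩, h2.1, h2.2.1, h2.2.2.1, h4⟩, h3⟩
  rcases e with ⟨i, hi, rfl, e⟩ | ⟨p, hp, rfl, rfl⟩ | ⟨rfl, rfl⟩ | ⟨x, -, rfl, rfl⟩ |
    ⟨i, hi, ⟨rfl, rfl⟩ | ⟨rfl, rfl⟩ | ⟨rfl, rfl⟩ | ⟨j, hj, ⟨hj', rfl, rfl⟩ |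
      ⟨c, hc, c1, c2, rfl, rfl | ⟨d, d1, d2, d3, rfl⟩⟩⟩⟩
  · have : col E f σ τ (U i) = 4 + i := h4 i hi
    by_cases b : y.1 = 1
    · rcases (hV y).1 hy with ⟨j, hj, rfl⟩ | ⟨j, hj, rfl⟩ | ⟨j, hj, rfl⟩ |
        ⟨_, _, _, _, rfl | ⟨c, -, -, -, rfl⟩⟩ <;> simp at b e
      have : col E f σ τ (U j) = 4 + j := h4 j hj
      omega
    · have := (a y hy).1 b
      omega
  · exact h0 p hp
  · have := h.1 0
    simp [col]; omega
  · have := h.1 x
    simp [col]; omega
  · have := sq_spec E i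
    obtain e | e : dir E σ τ i = 0 ∨ dir E σ τ i = 1 := by have := d i; omega
    all_goals simp [col, e]; omega
  · have := sq_spec E i
    have := h.1 (en E i).1.1
    simp only [col, dir]
    split_ifs <;> simp at * <;> omega
  · have := sq_spec E i
    have := h.1 (en E i).2.1
    have := h.2 _ (en_mem hi)
    simp only [col, dir]
    split_ifs <;> simp at * <;> omega
  · have := sq3 E i j hj'
    obtain e | e : dir E σ τ i = 0 ∨ dir E σ τ i = 1 := by have := d i; omega
    all_goals simp [col, e]; omega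
  · obtain e | e : dir E σ τ i = 0 ∨ dir E σ τ i = 1 := by have := d i; omega
    all_goals simp [col, e, h5 i hi j hj c hc c1 c2, c1, c2]
  · simp [col, h5 i hi j hj c hc c1 c2]
    interval_cases d <;> omega

lemma lift (hf : Mach k V E f) (hz : f (K 15) = 3) {σ τ : ℕ → ℕ} (h : CSt E σ τ)
    (e : ∀ x < size E, σ x = f (X x)) :
    Mach k V E (col E f σ τ) ∧ Rc k V (Ed k E) f (col E f σ τ) := by
  have p := colP hk hV h (core hV hf.1.1).1 (fun i hi => lt4 hV hf.1.1 (vK hV hi) (by simp)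
    hf.1.2.2.2.2) ⟨hf.1.2.1, hf.1.2.2.1, hf.1.2.2.2.1, hz⟩ hf.2 hf.1.2.2.2.2
    fun i hi j hj c hc => hf.soft hV hi hj hc
  refine ⟨p, shift (fun x => if x.1 = 2 then 10 else if dir E σ τ x.2.1 = 0 then x.2.2.1
    else 5 - x.2.2.1) hf.1.1 p.1.1 fun x _ y _ a => ?_⟩
  have d : ∀ i, dir E σ τ i = 0 ∨ dir E σ τ i = 1 := fun i => by unfold dir; split_ifs <;> omega
  rcases a with a | a <;> rcases a with ⟨i, hi, rfl, -⟩ | ⟨p, hp, rfl, rfl⟩ | ⟨rfl, rfl⟩ |
    ⟨x, -, rfl, rfl⟩ | ⟨i, hi, ⟨rfl, rfl⟩ | ⟨rfl, rfl⟩ | ⟨rfl, rfl⟩ | ⟨j, hj, ⟨hj', rfl, rfl⟩ |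
      ⟨c, hc, c1, c2, rfl, -⟩⟩⟩ <;> simp [col]
  · have := sq_spec E i
    have := hf.1.var hV (en_lt hi).1
    have := e _ (en_lt hi).1
    unfold dir
    split_ifs <;> simp <;> omega
  · have := sq_spec E i
    have := hf.1.var hV (en_lt hi).2
    have := e _ (en_lt hi).2
    have := h.2 _ (en_mem hi)
    unfold dir
    split_ifs <;> simp <;> omega
  · have := sq3 E i j hj'
    have := hf.path hV hi (j := j + 1) (by omega)
    rcases d i with e | e <;> simp [e] <;> omega
  · rcases d i with e | e <;> simp [e]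
  · rcases d i with e | e <;> simp [e]
  · have := sq3 E i j hj'
    have := hf.path hV hi hj
    rcases d i with e | e <;> simp [e] <;> omega

theorem mix_iff : CS E ↔ ∀ f g, Pr k V (Ed k E) f → Pr k V (Ed k E) g → Rc k V (Ed k E) f g := by
  constructor
  · intro h
    suffices ∀ f, Pr k V (Ed k E) f → Rc k V (Ed k E) f psi from
      fun f g hf hg => (this f hf).trans ((this g hg).symm hg)
    refine fun f hf => normal (psiP hk hV).1 (m := 2) (by omega) (psiP hk hV).2 (k - 1)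
      (fun i => if i < 3 then K i else U (i - 3)) (fun i => if i < 2 then i else i + 1)
      (fun i hi => ⟨?_, by split_ifs <;> omega⟩) (fun i hi j hj => ⟨by split_ifs <;> omega, ?_⟩)
      (fun f hf e => ?_) hf
    · split_ifs
      · exact vK hV (by omega)
      · exact (hV _).2 (Or.inr (Or.inl ⟨_, by omega, rfl⟩))
    · by_cases a : i < 3
      · interval_cases i <;> interval_cases j <;> simp [Ed, CE]
      · refine Or.inl (Or.inl ⟨i - 3, by omega, if_neg a, ?_⟩)
        split_ifs <;> simp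
        omega
    have hs : Std k V E f := ⟨hf, e 0 (by omega), e 1 (by omega), e 2 (by omega), fun i hi => by
      simpa [show ¬ i + 3 < 2 by omega, add_comm 4] using e (i + 3) (by omega)⟩
    by_cases hm : f (K 3) = 0 ∧ f (K 4) = 1 ∧ f (K 5) = 2
    swap
    · exact release hk hV hs (by omega)
    have fin : ∀ f, Std k V E f → f (K 15) ≠ 3 → Rc k V (Ed k E) f psi := fun f hf h => by
      have : f (K 6) ≠ f (K 2) := (core hV hf.1).1 (6, 2) (by decide)
      have : f (K 16) ≠ f (K 2) := (core hV hf.1).1 (16, 2) (by decide)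
      have := hf.2
      exact mv hk hV hf 3 3 (by omega) (by simp [CE]; omega) fun h => release hk hV h (by simp)
    by_cases hz : f (K 15) = 3
    swap
    · exact fin f hs hz
    obtain ⟨τ, a, b⟩ := h _ (cst hV ⟨hs, hm⟩ ⟨hs, hm⟩ ⟨default, by simp⟩)
    obtain ⟨g, c1, c2, c3, c4⟩ : ∃ g, Mach k V E g ∧ g (K 15) = 3 ∧ (∀ x < size E, τ x = g (X x)) ∧
        Rc k V (Ed k E) f g := by
      clear b
      induction a with
      | refl => exact ⟨f, ⟨hs, hm⟩, hz, fun x hx => Nat.mod_eq_of_lt (hs.var hV hx), .refl⟩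
      | tail _ h ih =>
        obtain ⟨g, c1, c2, c3, c4⟩ := ih
        exact ⟨_, (lift hk hV c1 c2 h c3).1, c2, fun _ _ => rfl, c4.trans (lift hk hV c1 c2 h c3).2⟩
    have : g (K 14) ≠ g (K 1) := (core hV c1.1.1).1 (14, 1) (by decide)
    have := c1.1.2
    have := c1.2
    have := c3 0 (size_pos E)
    exact c4.trans (mv hk hV c1.1 15 1 (by omega) (by simp [CE]; omega) fun h => fin _ h (by simp))
  · intro h σ hσ
    by_contra! hb
    let f0 : T4 → ℕ := fun x => if x.1 = 0 then mu x.2.1 else if x.1 = 1 then 4 + x.2.1 else x.2.2.2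
    have p : Mach k V E (col E f0 σ σ) := colP hk hV hσ (by decide) (by decide) (by decide)
      (by decide) (fun _ _ => rfl) (by simp [f0])
    have := h _ _ p.1.1 (psiP hk hV).1
    suffices ∀ g, Rc k V (Ed k E) (col E f0 σ σ) g → Mach k V E g ∧ (∀ i < 17, g (K i) = mu i) ∧
        ReflTransGen (CSt E) σ fun x => g (X x) % 3 from absurd (this _ ‹_›).1.2.1 (by decide)
    intro g hg
    induction hg with
    | refl =>
      exact ⟨p, fun _ _ => rfl, by simpa [col, Nat.mod_eq_of_lt (hσ.1 _)] using .refl⟩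
    | @tail g g' _ h ih =>
      obtain ⟨a, b, c⟩ := ih
      obtain ⟨q, u, e⟩ := h
      have x0 : g (X 0) = 1 := by
        have := hb _ c
        have := a.1.var hV (size_pos E)
        omega
      have eU : ∀ i < k - 4, g' (U i) = 4 + i := fun i hi => by
        have vU : ∀ i < k - 4, U i ∈ V := fun i hi => (hV _).2 (Or.inr (Or.inl ⟨_, hi, rfl⟩))
        by_cases h : U i = u
        swap
        · rw [← e _ (vU i hi) h, a.1.2.2.2.2 i hi]
        have n : ∀ y ∈ V, y ≠ U i → g' (U i) ≠ g y := fun y hy hn => by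
          rw [e y hy (h ▸ hn)]
          exact q.2 _ (vU i hi) y hy (Or.inl ⟨i, hi, rfl, hn⟩)
        have := n _ (vK hV (i := 0) (by omega)) (by simp)
        have := n _ (vK hV (i := 1) (by omega)) (by simp)
        have := n _ (vK hV (i := 2) (by omega)) (by simp)
        have := n _ (vK hV (i := 5) (by omega)) (by simp)
        have := a.1.2
        have := a.2
        have := q.1 _ (vU i hi)
        by_contra h'
        refine n _ (vU (g' (U i) - 4) (by omega)) (by simp; omega) ?_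
        rw [a.1.2.2.2.2 _ (by omega)]; omega
      have eK : ∀ i < 17, g' (K i) = mu i := fun i hi => by
        by_cases h : K i = u
        swap
        · rw [← e _ (vK hV hi) h, b i hi]
        have n : ∀ j < 17, j ≠ i → g' (K j) = mu j := fun j hj hn => by
          rw [← e _ (vK hV hj) (by simp [← h, hn]), b j hj]
        have n' : ∀ p ∈ CE, (p.1 = i → g' (K i) ≠ mu p.2) ∧ (p.2 = i → g' (K i) ≠ mu p.1) := by
          intro p hp
          have := (by decide : ∀ p ∈ CE, p.1 < 17 ∧ p.2 < 17 ∧ p.1 ≠ p.2) p hp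
          have c := (core hV q).1 p hp
          constructor <;> rintro rfl
          · rwa [← n _ this.2.1 this.2.2.symm]
          · rw [← n _ this.1 this.2.2]; exact c.symm
        have z : i = 15 → g' (K i) ≠ 1 := by
          rintro rfl
          rw [← x0, e _ (vX hV (size_pos E)) (by simp [← h])]
          exact (core hV q).2
        have l := lt4 hV q (vK hV hi) (by simp) eU
        generalize g' (K i) = c at n' z l
        exact lock i hi c l n' z
      have m : Mach k V E g' := ⟨⟨q, eK 0 (by omega), eK 1 (by omega), eK 2 (by omega), eU⟩,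
        eK 3 (by omega), eK 4 (by omega), eK 5 (by omega)⟩
      exact ⟨m, eK, c.tail (cst hV a m ⟨u, e⟩)⟩

end

end Pool.Agent.Mix
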