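import Mathlib

set_option autoImplicit false
open MeasureTheory

namespace Pool.Agent.Lib.helper9.OneRadius

/-- radial profile -/
noncomputable def U (t : ℝ) : ℝ := (1 + t) / 2 * Real.cos (Real.log (1 - Real.log (1 - t)))

/-- the disc automorphism -/
noncomputable def mob (a w : ℂ) : ℂ := (a - w) / (1 - w * (starRingEnd ℂ) a)

lemma abs_U_lt {t : ℝ} (h0 : 0 ≤ t) (h1 : t < 1) : |U t| < 1 := by
  unfold U
  rw [abs_mul]
  have h2 := Real.abs_cos_le_one (Real.log (1 - Real.log (1 - t)))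
  have h3 : |(1 + t) / 2| < 1 := by rw [abs_lt]; constructor <;> linarith
  have h4 := abs_nonneg ((1 + t) / 2)
  nlinarith [abs_nonneg (Real.cos (Real.log (1 - Real.log (1 - t))))]

lemma den_lower {a w : ℂ} (hw : ‖w‖ ≤ 1) : 1 - ‖a‖ ≤ ‖1 - w * (starRingEnd ℂ) a‖ := by
  have h1 : ‖w * (starRingEnd ℂ) a‖ ≤ ‖a‖ := by
    rw [norm_mul, Complex.norm_conj]
    nlinarith [norm_nonneg a, norm_nonneg w]
  have h2 := norm_sub_norm_le (1 : ℂ) (w * (starRingEnd ℂ) a)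
  rw [norm_one] at h2
  linarith

lemma den_upper {a w : ℂ} (ha : ‖a‖ ≤ 1) (hw : ‖w‖ ≤ 1) : ‖1 - w * (starRingEnd ℂ) a‖ ≤ 2 := by
  have h1 : ‖w * (starRingEnd ℂ) a‖ ≤ 1 := by
    rw [norm_mul, Complex.norm_conj]
    nlinarith [norm_nonneg a, norm_nonneg w]
  have h2 := norm_sub_le (1 : ℂ) (w * (starRingEnd ℂ) a)
  rw [norm_one] at h2
  linarith

lemma one_sub_mob {a w : ℂ} (ha : ‖a‖ < 1) (hw : ‖w‖ ≤ 1) :
    1 - ‖mob a w‖ ^ 2 = (1 - ‖a‖ ^ 2) * (1 - ‖w‖ ^ 2) / ‖1 - w * (starRingEnd ℂ) a‖ ^ 2 := by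
  have hd : 0 < ‖1 - w * (starRingEnd ℂ) a‖ := lt_of_lt_of_le (by linarith) (den_lower hw)
  unfold mob
  rw [norm_div, div_pow]
  field_simp
  simp only [← Complex.normSq_eq_norm_sq, Complex.normSq_apply]
  simp
  ring

lemma mob_lt {a w : ℂ} (ha : ‖a‖ < 1) (hw : ‖w‖ < 1) : ‖mob a w‖ ^ 2 < 1 := by
  have hd : 0 < ‖1 - w * (starRingEnd ℂ) a‖ := lt_of_lt_of_le (by linarith) (den_lower hw.le)
  have h := one_sub_mob ha hw.le
  have h1 : 0 < 1 - ‖a‖ ^ 2 := by nlinarith [norm_nonneg a]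
  have h2 : 0 < 1 - ‖w‖ ^ 2 := by nlinarith [norm_nonneg w]
  have : 0 < (1 - ‖a‖ ^ 2) * (1 - ‖w‖ ^ 2) / ‖1 - w * (starRingEnd ℂ) a‖ ^ 2 := by positivity
  linarith

lemma abs_log_one_add {d : ℝ} (hd : |d| ≤ 1 / 2) : |Real.log (1 + d)| ≤ 2 * |d| := by
  have h1 : 0 < 1 + d := by have := abs_le.1 hd; linarith
  have h2 := Real.log_le_sub_one_of_pos h1
  have h3 := Real.one_sub_inv_le_log_of_pos h1
  have h4 := abs_le.1 hd
  have h5 : -(2 * |d|) ≤ 1 - (1 + d)⁻¹ := by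
    have : 1 - (1 + d)⁻¹ = d / (1 + d) := by field_simp; ring
    rw [this, le_div_iff₀ h1]
    have := neg_abs_le d
    nlinarith [abs_nonneg d]
  rw [abs_le]
  constructor
  · linarith
  · have := le_abs_self d
    have := abs_nonneg d
    linarith

/-- key estimate -/
lemma key {a : ℂ} (ha : ‖a‖ < 1) {ε : ℝ} (hε : 0 < ε) :
    ∃ θ0 : ℝ, ∀ θ : ℝ, θ0 ≤ θ → ∃ r : ℝ, 0 < r ∧ r < 1 ∧
      ∀ w : ℂ, ‖w‖ = r → |U (‖mob a w‖ ^ 2) - Real.cos θ| ≤ ε := by
  have hA : 0 < 1 - ‖a‖ ^ 2 := by nlinarith [norm_nonneg a]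
  have hb : 0 < 1 - ‖a‖ := by linarith
  set K : ℝ := (1 - ‖a‖ ^ 2) / (1 - ‖a‖) ^ 2 with hK
  set k : ℝ := (1 - ‖a‖ ^ 2) / 4 with hk
  have hKpos : 0 < K := by positivity
  have hkpos : 0 < k := by positivity
  set C : ℝ := |Real.log k| + |Real.log K| with hC
  have hC0 : 0 ≤ C := by positivity
  refine ⟨1 + 2 * C + (K / 2 + 2 * C) / ε, fun θ hθ => ?_⟩
  have hq : 0 ≤ (K / 2 + 2 * C) / ε := by positivity
  have hθ1 : 1 ≤ θ := by linarith
  have hexp : 1 + θ ≤ Real.exp θ := by linarith [Real.add_one_le_exp θ]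
  set e : ℝ := Real.exp (1 - Real.exp θ) with he
  have he0 : 0 < e := Real.exp_pos _
  have he1 : e < 1 := by
    rw [he, Real.exp_lt_one_iff]; linarith
  refine ⟨Real.sqrt (1 - e), Real.sqrt_pos.2 (by linarith), ?_, fun w hw => ?_⟩
  · rw [Real.sqrt_lt' one_pos]; linarith
  have hw2 : 1 - ‖w‖ ^ 2 = e := by
    rw [hw, Real.sq_sqrt (by linarith)]; ring
  have hw1 : ‖w‖ ≤ 1 := by nlinarith [norm_nonneg w]
  have hd1 := den_lower (a := a) hw1
  have hd2 := den_upper ha.le hw1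
  have hT := one_sub_mob ha hw1
  rw [hw2] at hT
  set D : ℝ := ‖1 - w * (starRingEnd ℂ) a‖ with hD
  have hDpos : 0 < D := by linarith
  set t : ℝ := ‖mob a w‖ ^ 2 with ht
  have hT1 : k * e ≤ 1 - t := by
    rw [hT, hk, le_div_iff₀ (by positivity)]
    have : D ^ 2 ≤ 4 := by nlinarith
    have h2 : 0 < (1 - ‖a‖ ^ 2) * e := by positivity
    nlinarith
  have hT2 : 1 - t ≤ K * e := by
    rw [hT, hK, div_mul_eq_mul_div]
    apply div_le_div_of_nonneg_left (by positivity) (by positivity)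
    nlinarith
  have hTpos : 0 < 1 - t := lt_of_lt_of_le (by positivity) hT1
  have hl1 : Real.log k + (1 - Real.exp θ) ≤ Real.log (1 - t) := by
    have := Real.log_le_log (by positivity) hT1
    rwa [Real.log_mul hkpos.ne' he0.ne', he, Real.log_exp] at this
  have hl2 : Real.log (1 - t) ≤ Real.log K + (1 - Real.exp θ) := by
    have := Real.log_le_log hTpos hT2
    rwa [Real.log_mul hKpos.ne' he0.ne', he, Real.log_exp] at this
  have hE : 0 < Real.exp θ := Real.exp_pos _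
  set d : ℝ := (1 - Real.log (1 - t) - Real.exp θ) / Real.exp θ with hd
  have hdabs : |d| ≤ C / Real.exp θ := by
    rw [hd, abs_div, abs_of_pos hE]
    apply div_le_div_of_nonneg_right _ hE.le
    rw [abs_le]
    have := le_abs_self (Real.log K)
    have := neg_abs_le (Real.log k)
    have := abs_nonneg (Real.log K)
    have := abs_nonneg (Real.log k)
    constructor <;> linarith
  have hd12 : |d| ≤ 1 / 2 := by
    refine hdabs.trans ?_
    rw [div_le_iff₀ hE]; linarith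
  have hlog : Real.log (1 - Real.log (1 - t)) = θ + Real.log (1 + d) := by
    have h1 : 0 < 1 + d := by have := abs_le.1 hd12; linarith
    have : 1 - Real.log (1 - t) = Real.exp θ * (1 + d) := by
      rw [hd]; field_simp; ring
    rw [this, Real.log_mul hE.ne' h1.ne', Real.log_exp]
  have hcos : |Real.cos (Real.log (1 - Real.log (1 - t))) - Real.cos θ| ≤ 2 * (C / Real.exp θ) := by
    refine (Real.abs_cos_sub_cos_le _ _).trans ?_
    rw [hlog, add_sub_cancel_left]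
    have := abs_log_one_add hd12
    linarith
  have he2 : e ≤ 1 / Real.exp θ := by
    rw [he, one_div, ← Real.exp_neg]
    apply Real.exp_le_exp.2; linarith
  have hU : U t - Real.cos θ = (Real.cos (Real.log (1 - Real.log (1 - t))) - Real.cos θ)
      - (1 - t) / 2 * Real.cos (Real.log (1 - Real.log (1 - t))) := by
    unfold U; ring
  rw [hU]
  refine (abs_sub _ _).trans ?_
  have h5 : |(1 - t) / 2 * Real.cos (Real.log (1 - Real.log (1 - t)))| ≤ K / 2 * (1 / Real.exp θ) := by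
    rw [abs_mul, abs_of_pos (by positivity : 0 < (1 - t) / 2)]
    have h2 := Real.abs_cos_le_one (Real.log (1 - Real.log (1 - t)))
    have h3 : (1 - t) / 2 ≤ K / 2 * (1 / Real.exp θ) := by nlinarith
    nlinarith [abs_nonneg (Real.cos (Real.log (1 - Real.log (1 - t))))]
  have h6 : (K / 2 + 2 * C) / Real.exp θ ≤ ε := by
    rw [div_le_iff₀ hE]
    have : (K / 2 + 2 * C) / ε ≤ Real.exp θ := by linarith
    rw [div_le_iff₀ hε] at this
    linarith
  have h7 : (K / 2 + 2 * C) / Real.exp θ = 2 * (C / Real.exp θ) + K / 2 * (1 / Real.exp θ) := by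
    ring
  linarith

lemma measurable_U : Measurable U := by
  unfold U
  exact (by fun_prop : Measurable fun t : ℝ => (1 + t) / 2).mul
    (Real.measurable_cos.comp (Real.measurable_log.comp
      (measurable_const.sub (Real.measurable_log.comp (measurable_const.sub measurable_id)))))

lemma measurable_mob (a : ℂ) : Measurable (mob a) := by
  unfold mob
  fun_prop

lemma continuousAt_U {t : ℝ} (h0 : 0 ≤ t) (h1 : t < 1) : ContinuousAt U t := by
  unfold U
  have h2 : 1 - t ≠ 0 := by linarith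
  have h3 : 1 - Real.log (1 - t) ≠ 0 := by
    have := Real.log_nonpos (by linarith : 0 ≤ 1 - t) (by linarith)
    linarith
  have c1 : ContinuousAt (fun t : ℝ => Real.log (1 - t)) t :=
    ContinuousAt.log (by fun_prop) h2
  have c2 : ContinuousAt (fun t : ℝ => Real.log (1 - Real.log (1 - t))) t :=
    ContinuousAt.log (continuousAt_const.sub c1) h3
  exact (by fun_prop : ContinuousAt (fun t : ℝ => (1 + t) / 2) t).mul
    (Real.continuous_cos.continuousAt.comp c2)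

lemma continuousAt_mob {a w : ℂ} (ha : ‖a‖ < 1) (hw : ‖w‖ ≤ 1) : ContinuousAt (mob a) w := by
  have hd : 0 < ‖1 - w * (starRingEnd ℂ) a‖ := lt_of_lt_of_le (by linarith) (den_lower hw)
  unfold mob
  exact ContinuousAt.div (by fun_prop) (by fun_prop) (norm_pos_iff.1 hd)

section generic
variable {X : Type*} [MeasurableSpace X] (μ : Measure X) [IsFiniteMeasure μ] (ζ : X → ℂ)

/-- unnormalised mean -/
noncomputable def I (a : ℂ) (r : ℝ) : ℝ := ∫ x, U (‖mob a ((r : ℂ) * ζ x)‖ ^ 2) ∂μ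

variable {μ ζ}

lemma meas (hm : Measurable ζ) (a : ℂ) (r : ℝ) :
    Measurable fun x => U (‖mob a ((r : ℂ) * ζ x)‖ ^ 2) :=
  measurable_U.comp (((measurable_mob a).comp (measurable_const.mul hm)).norm.pow_const 2)

lemma norm_r {r : ℝ} (hr : 0 < r) {z : ℂ} (hz : ‖z‖ = 1) : ‖(r : ℂ) * z‖ = r := by
  rw [norm_mul, hz, mul_one, Complex.norm_real, Real.norm_of_nonneg hr.le]

lemma integrable (hm : Measurable ζ) (h1 : ∀ᵐ x ∂μ, ‖ζ x‖ = 1) {a : ℂ} (ha : ‖a‖ < 1) {r : ℝ}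
    (hr : 0 < r) (hr1 : r < 1) : Integrable (fun x => U (‖mob a ((r : ℂ) * ζ x)‖ ^ 2)) μ := by
  refine Integrable.mono' (integrable_const (1 : ℝ)) (meas hm a r).aestronglyMeasurable ?_
  filter_upwards [h1] with x hx
  exact (abs_U_lt (by positivity) (mob_lt ha (by rw [norm_r hr hx]; exact hr1))).le

lemma contI (hm : Measurable ζ) (h1 : ∀ᵐ x ∂μ, ‖ζ x‖ = 1) {a : ℂ} (ha : ‖a‖ < 1) :
    ContinuousOn (I μ ζ a) (Set.Ioo 0 1) := by
  unfold I
  apply continuousOn_of_dominated (bound := fun _ => (1 : ℝ))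
  · intro r _
    exact (meas hm a r).aestronglyMeasurable
  · intro r hr
    filter_upwards [h1] with x hx
    exact (abs_U_lt (by positivity) (mob_lt ha (by rw [norm_r hr.1 hx]; exact hr.2))).le
  · exact integrable_const _
  · filter_upwards [h1] with x hx
    intro r hr
    have hn : ‖(r : ℂ) * ζ x‖ < 1 := by rw [norm_r hr.1 hx]; exact hr.2
    have c1 : ContinuousAt (fun r : ℝ => (r : ℂ) * ζ x) r := by fun_prop
    have c2 : ContinuousAt (fun r : ℝ => mob a ((r : ℂ) * ζ x)) r :=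
      ContinuousAt.comp (f := fun r : ℝ => (r : ℂ) * ζ x) (continuousAt_mob ha hn.le) c1
    have c3 : ContinuousAt (fun r : ℝ => ‖mob a ((r : ℂ) * ζ x)‖ ^ 2) r := c2.norm.pow 2
    exact (ContinuousAt.comp (f := fun r : ℝ => ‖mob a ((r : ℂ) * ζ x)‖ ^ 2)
      (continuousAt_U (by positivity) (mob_lt ha hn)) c3).continuousWithinAt

lemma upper (hm : Measurable ζ) (h1 : ∀ᵐ x ∂μ, ‖ζ x‖ = 1) {a : ℂ} (ha : ‖a‖ < 1) {c : ℝ}
    (hc : c < 1) : ∃ r : ℝ, 0 < r ∧ r < 1 ∧ μ.real Set.univ * c ≤ I μ ζ a r := by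
  obtain ⟨θ0, h⟩ := key ha (ε := 1 - c) (by linarith)
  obtain ⟨n, hn⟩ := exists_nat_ge θ0
  have hpi := Real.pi_gt_three
  obtain ⟨r, hr0, hr1, hr⟩ := h ((n : ℝ) * (2 * Real.pi)) (by
    have : (0 : ℝ) ≤ n := Nat.cast_nonneg n
    nlinarith)
  refine ⟨r, hr0, hr1, ?_⟩
  have : ∫ _ : X, c ∂μ ≤ I μ ζ a r := by
    apply integral_mono_ae (integrable_const _) (integrable hm h1 ha hr0 hr1)
    filter_upwards [h1] with x hx
    have := hr _ (norm_r hr0 hx)
    rw [Real.cos_nat_mul_two_pi] at this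
    have := (abs_le.1 this).1
    linarith
  simpa using this

lemma lower (hm : Measurable ζ) (h1 : ∀ᵐ x ∂μ, ‖ζ x‖ = 1) {a : ℂ} (ha : ‖a‖ < 1) {c : ℝ}
    (hc : -1 < c) : ∃ r : ℝ, 0 < r ∧ r < 1 ∧ I μ ζ a r ≤ μ.real Set.univ * c := by
  obtain ⟨θ0, h⟩ := key ha (ε := c + 1) (by linarith)
  obtain ⟨n, hn⟩ := exists_nat_ge θ0
  have hpi := Real.pi_gt_three
  obtain ⟨r, hr0, hr1, hr⟩ := h ((n : ℝ) * (2 * Real.pi) + Real.pi) (by
    have : (0 : ℝ) ≤ n := Nat.cast_nonneg n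
    nlinarith)
  refine ⟨r, hr0, hr1, ?_⟩
  have : I μ ζ a r ≤ ∫ _ : X, c ∂μ := by
    apply integral_mono_ae (integrable hm h1 ha hr0 hr1) (integrable_const _)
    filter_upwards [h1] with x hx
    have := hr _ (norm_r hr0 hx)
    rw [Real.cos_nat_mul_two_pi_add_pi] at this
    have := (abs_le.1 this).2
    linarith
  simpa using this

lemma exists_radius (hm : Measurable ζ) (h1 : ∀ᵐ x ∂μ, ‖ζ x‖ = 1) {a : ℂ} (ha : ‖a‖ < 1) {c : ℝ}
    (hc : |c| < 1) : ∃ r : ℝ, 0 < r ∧ r < 1 ∧ I μ ζ a r = μ.real Set.univ * c := by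
  obtain ⟨r1, h10, h11, hr1⟩ := upper hm h1 ha (abs_lt.1 hc).2
  obtain ⟨r2, h20, h21, hr2⟩ := lower hm h1 ha (abs_lt.1 hc).1
  obtain ⟨r, hr, hre⟩ := isPreconnected_Ioo.intermediate_value (a := r2) (b := r1) ⟨h20, h21⟩
    ⟨h10, h11⟩ (contI hm h1 ha) ⟨hr2, hr1⟩
  exact ⟨r, hr.1, hr.2, hre⟩

end generic

lemma analyticAt_u {z : ℂ} (hz : ‖z‖ < 1) :
    AnalyticAt ℝ (fun w : ℂ => U (‖w‖ ^ 2)) z := by
  have e : (fun w : ℂ => ‖w‖ ^ 2) = fun w : ℂ => Complex.reCLM w * Complex.reCLM w +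
      Complex.imCLM w * Complex.imCLM w := by
    funext w
    rw [← Complex.normSq_eq_norm_sq, Complex.normSq_apply]; simp
  have a1 : AnalyticAt ℝ (fun w : ℂ => ‖w‖ ^ 2) z := by
    rw [e]
    exact ((Complex.reCLM.analyticAt z).mul (Complex.reCLM.analyticAt z)).add
      ((Complex.imCLM.analyticAt z).mul (Complex.imCLM.analyticAt z))
  have h2 : 0 < 1 - ‖z‖ ^ 2 := by nlinarith [norm_nonneg z]
  have h3 : 0 < 1 - Real.log (1 - ‖z‖ ^ 2) := by
    have := Real.log_nonpos h2.le (by nlinarith [norm_nonneg z])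
    linarith
  have a2 : AnalyticAt ℝ (fun w : ℂ => Real.log (1 - ‖w‖ ^ 2)) z :=
    AnalyticAt.comp (g := Real.log) (f := fun w : ℂ => 1 - ‖w‖ ^ 2) (analyticAt_log h2)
      (analyticAt_const.sub a1)
  have a3 : AnalyticAt ℝ (fun w : ℂ => Real.log (1 - Real.log (1 - ‖w‖ ^ 2))) z :=
    AnalyticAt.comp (g := Real.log) (f := fun w : ℂ => 1 - Real.log (1 - ‖w‖ ^ 2))
      (analyticAt_log h3) (analyticAt_const.sub a2)
  have a4 : AnalyticAt ℝ (fun w : ℂ => Real.cos (Real.log (1 - Real.log (1 - ‖w‖ ^ 2)))) z :=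
    Real.analyticAt_cos.comp a3
  have a5 : AnalyticAt ℝ (fun w : ℂ => (1 + ‖w‖ ^ 2) / 2) z :=
    (analyticAt_const.add a1).div analyticAt_const (by norm_num)
  exact a5.mul a4

end Pool.Agent.Lib.helper9.OneRadius
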