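import Pool.Agent.Lib.helper9.PSHard

/-! Automata given by tables, and the automaton of a planning instance. -/

namespace Pool.Agent.Cx

open Function Polynomial

/-- the state reached from `q` on the word `w`; row `q` of the table `δ` lists the images of `q` -/
def run (δ : List (List ℕ)) (q : ℕ) (w : List ℕ) : ℕ :=
  w.foldl (fun q x => (δ.getD q []).getD x 0) q

/-- `δ` is the table of a complete deterministic automaton with `m` letters -/
def IsTab (m : ℕ) (δ : List (List ℕ)) : Prop := ∀ r ∈ δ, r.length = m ∧ ∀ e ∈ r, e < δ.length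

def tab (n m : ℕ) (f : ℕ → ℕ → ℕ) : List (List ℕ) :=
  (List.range n).map fun q => (List.range m).map fun x => f q x

@[simp] lemma tab_length (n m f) : (tab n m f).length = n := by simp [tab]

lemma tab_get {n m f q x} (hq : q < n) (hx : x < m) : ((tab n m f).getD q []).getD x 0 = f q x := by
  simp [tab, List.getD_eq_getElem?_getD, hq, hx]

lemma isTab_tab {n m f} (h : ∀ q < n, ∀ x < m, f q x < n) : IsTab m (tab n m f) := by
  intro r hr
  simp only [tab, List.mem_map, List.mem_range] at hr
  obtain ⟨q, hq, rfl⟩ := hr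
  simp only [List.length_map, List.length_range, List.mem_map, List.mem_range, tab_length, true_and]
  rintro e ⟨x, hx, rfl⟩
  exact h q hq x hx

lemma run_tab {n m f} (h : ∀ q < n, ∀ x < m, f q x < n) : ∀ (w : List ℕ) (q : ℕ), q < n →
    (∀ x ∈ w, x < m) → run (tab n m f) q w = w.foldl f q
  | [], _, _, _ => rfl
  | x :: w, q, hq, hw => by
    have hx := hw x (by simp)
    have := run_tab h w (f q x) (h q hq x hx) (fun y hy => hw y (by simp [hy]))
    simp only [run, List.foldl_cons] at this ⊢
    rw [tab_get hq hx, this]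

lemma IsTab.lt {m δ} (h : IsTab m δ) {q x} (hq : q < δ.length) (hx : x < m) :
    (δ.getD q []).getD x 0 < δ.length := by
  obtain ⟨a, b⟩ := h _ (List.getElem_mem hq)
  rw [List.getD_eq_getElem _ _ hq, List.getD_eq_getElem _ _ (a ▸ hx)]
  exact b _ (List.getElem_mem _)

lemma run_snoc (δ q w x) : run δ q (w ++ [x]) = (δ.getD (run δ q w) []).getD x 0 := by
  simp [run]

lemma IsTab.run_lt {m δ} (h : IsTab m δ) {q} (hq : q < δ.length) (w : List ℕ) :
    (∀ x ∈ w, x < m) → run δ q w < δ.length := by
  induction w using List.reverseRecOn with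
  | nil => exact fun _ => hq
  | append_singleton w x ih =>
    intro hw
    rw [run_snoc]
    exact h.lt (ih fun y hy => hw y (by simp [hy])) (hw x (by simp))

def img (δ : List (List ℕ)) (u : List ℕ) (x : ℕ) : List ℕ :=
  (List.range δ.length).filter fun p => u.any fun q => (δ.getD q []).getD x 0 == p

def im (δ : List (List ℕ)) (w : List ℕ) : List ℕ :=
  (List.range δ.length).filter fun p => (List.range δ.length).any fun q => run δ q w == p

lemma mem_im {δ w p} : p ∈ im δ w ↔ p < δ.length ∧ ∃ q < δ.length, run δ q w = p := by simp [im]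

lemma im_nil (δ) : im δ [] = List.range δ.length :=
  List.filter_eq_self.2 fun p hp => by simpa [run] using hp

lemma im_snoc {m δ} (h : IsTab m δ) {w} (hw : ∀ x ∈ w, x < m) (x) :
    im δ (w ++ [x]) = img δ (im δ w) x := by
  refine List.filter_congr fun p _ => ?_
  rw [Bool.eq_iff_iff]
  simp only [List.any_eq_true, List.mem_range, beq_iff_eq, mem_im, run_snoc]
  constructor
  · rintro ⟨q, hq, e⟩; exact ⟨_, ⟨h.run_lt hq w hw, q, hq, rfl⟩, e⟩
  · rintro ⟨_, ⟨-, q, hq, rfl⟩, e⟩; exact ⟨q, hq, e⟩

lemma size_range (n : ℕ) : size (List.range n) ≤ n * (2 * n + 2) + 1 :=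
  size_list_le _ (2 * n + 1) (fun a ha => by simp at ha ⊢; omega) |>.trans (by simp)

def okv (G : List (ℕ × ℕ)) (i a : ℕ) : Bool := G.all fun g => g.1 != i || g.2 == a

/-- moves of the state `b + i * n + a` (variable `i` has value `a`); letter `0` resets, letter `1`
tests the goal, letter `j + 2` applies action `j`; a failed test leads to `y` -/
def vstep (I : List Act × List (ℕ × ℕ)) (b n y q x : ℕ) : ℕ :=
  bif x == 0 then b + (q - b) / n * n
  else bif x == 1 then (bif okv I.2 ((q - b) / n) ((q - b) % n) then 0 else y)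
  else bif okv (I.1.getD (x - 2) ([], [])).1 ((q - b) / n) ((q - b) % n) then
    b + (q - b) / n * n + (((I.1.getD (x - 2) ([], [])).2.find? fun e => e.1 == (q - b) / n).map
      fun e => e.2).getD ((q - b) % n)
  else y

@[fun_prop] lemma PT.vstep {α : Type} [Enc α] {I : α → List Act × List (ℕ × ℕ)} {b n y q x : α → ℕ}
    (hI : PT I) (hb : PT b) (hn : PT n) (hy : PT y) (hq : PT q) (hx : PT x) :
    PT (fun a => vstep (I a) (b a) (n a) (y a) (q a) (x a)) := by
  unfold Cx.vstep okv; fun_prop

lemma vstep_eq (I : List Act × List (ℕ × ℕ)) (b y x : ℕ) {n i : ℕ} {σ : ℕ → ℕ} (h : σ i < n) :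
    vstep I b n y (b + i * n + σ i) x = if x = 0 then b + i * n
      else if x = 1 then (if okv I.2 i (σ i) = true then 0 else y)
      else if okv (I.1.getD (x - 2) ([], [])).1 i (σ i) = true then
        b + i * n + app σ (I.1.getD (x - 2) ([], [])).2 i else y := by
  have e1 : (b + i * n + σ i - b) / n = i := by
    rw [add_assoc, Nat.add_sub_cancel_left, add_comm, Nat.add_mul_div_right _ _ (by omega),
      Nat.div_eq_of_lt h, zero_add]
  have e2 : (b + i * n + σ i - b) % n = σ i := by
    rw [add_assoc, Nat.add_sub_cancel_left, add_comm, Nat.add_mul_mod_self_right, Nat.mod_eq_of_lt h]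
  simp only [vstep, e1, e2, Bool.cond_eq_ite, beq_iff_eq, app]

lemma app_lt (I : List Act × List (ℕ × ℕ)) (j : ℕ) {σ : ℕ → ℕ} {i : ℕ} (h : σ i < size I) :
    app σ (I.1.getD j ([], [])).2 i < size I := by
  unfold app
  cases e : (I.1.getD j ([], [])).2.find? fun x => x.1 == i with
  | none => exact h
  | some x =>
    have a := size_lt_of_mem (List.mem_of_find?_eq_some e)
    by_cases hj : j < I.1.length
    · rw [List.getD_eq_getElem _ _ hj] at a
      have b := size_lt_of_mem (List.getElem_mem hj)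
      obtain ⟨A, G⟩ := I
      obtain ⟨x1, x2⟩ := x
      generalize A[j] = z at a b
      obtain ⟨z1, z2⟩ := z
      simp only [size_pair, size_nat, Option.map_some, Option.getD_some] at *
      omega
    · rw [List.getD_eq_default _ _ (by omega)] at e
      simp at e

lemma vstep_mem (I : List Act × List (ℕ × ℕ)) (b y x : ℕ) {q : ℕ} (h1 : b ≤ q)
    (h2 : q < b + size I * size I) : vstep I b (size I) y q x = 0 ∨ vstep I b (size I) y q x = y ∨
      (b ≤ vstep I b (size I) y q x ∧ vstep I b (size I) y q x < b + size I * size I) := by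
  have hn := size_pos I
  have hi : (q - b) / size I < size I := Nat.div_lt_of_lt_mul (by omega)
  have e : q = b + (q - b) / size I * size I + (fun _ => (q - b) % size I) ((q - b) / size I) := by
    have := Nat.div_add_mod' (q - b) (size I)
    simp only; omega
  have hm := Nat.mod_lt (q - b) hn
  rw [e, vstep_eq I b y x (σ := fun _ => (q - b) % size I) (i := (q - b) / size I) hm]
  have := app_lt I (x - 2) (σ := fun _ => (q - b) % size I) (i := (q - b) / size I) hm
  have := Nat.mul_le_mul_right (size I) (Nat.succ_le_of_lt hi)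
  rw [Nat.succ_mul] at this
  split_ifs <;> omega

lemma okv_all {G : List (ℕ × ℕ)} {n : ℕ} (hG : ∀ g ∈ G, g.1 < n) {σ : ℕ → ℕ} :
    (∀ i < n, okv G i (σ i) = true) ↔ ∀ g ∈ G, σ g.1 = g.2 := by
  simp only [okv, List.all_eq_true, Bool.or_eq_true, bne_iff_ne, beq_iff_eq]
  exact ⟨fun h g hg => ((h _ (hG g hg) g hg).resolve_left (by simp)).symm,
    fun h i _ g hg => or_iff_not_imp_left.2 fun e => by rw [← h g hg, not_not.1 e]⟩

lemma goal_lt (I : List Act × List (ℕ × ℕ)) : ∀ g ∈ I.2, g.1 < size I := by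
  obtain ⟨A, G⟩ := I
  rintro ⟨a, b⟩ hg
  have := size_lt_of_mem hg
  simp only [size_pair, size_nat] at *; omega

lemma pre_lt (I : List Act × List (ℕ × ℕ)) {a : Act} (ha : a ∈ I.1) : ∀ g ∈ a.1, g.1 < size I := by
  obtain ⟨A, G⟩ := I
  obtain ⟨a1, a2⟩ := a
  rintro ⟨a, b⟩ hg
  have := size_lt_of_mem hg
  have := size_lt_of_mem ha
  simp only [size_pair, size_nat] at *; omega

/-- a plan gives a word of action letters that carries the zero state to a goal state -/
lemma plan_word {I : List Act × List (ℕ × ℕ)} {b y : ℕ} {f : ℕ → ℕ → ℕ}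
    (hf : ∀ q x, b ≤ q → f q x = vstep I b (size I) y q x) (h : Plan I) :
    ∃ w : List ℕ, (∀ x ∈ w, 2 ≤ x ∧ x < I.1.length + 2) ∧
      ∀ i < size I, f (w.foldl f (b + i * size I)) 1 = 0 := by
  obtain ⟨σ, h1, h2⟩ := h
  suffices ∃ w : List ℕ, (∀ x ∈ w, 2 ≤ x ∧ x < I.1.length + 2) ∧
      ∀ i < size I, σ i < size I ∧ w.foldl f (b + i * size I) = b + i * size I + σ i by
    obtain ⟨w, a, c⟩ := this
    refine ⟨w, a, fun i hi => ?_⟩
    rw [(c i hi).2, hf _ _ (by omega), vstep_eq _ _ _ _ (c i hi).1]
    simp [(okv_all (goal_lt I)).2 h2 i hi]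
  clear h2
  induction h1 with
  | refl => exact ⟨[], by simp, fun i _ => ⟨size_pos I, rfl⟩⟩
  | tail _ h ih =>
    obtain ⟨w, a, c⟩ := ih
    obtain ⟨z, hz, h1, rfl⟩ := h
    obtain ⟨j, hj, rfl⟩ := List.getElem_of_mem hz
    refine ⟨w ++ [j + 2], by simpa [or_imp, forall_and, hj] using forall₂_and.1 a, fun i hi => ?_⟩
    have e : I.1.getD j ([], []) = I.1[j] := List.getD_eq_getElem _ _ hj
    refine ⟨e ▸ app_lt I j (c i hi).1, ?_⟩
    rw [List.foldl_append, (c i hi).2, List.foldl_cons, List.foldl_nil, hf _ _ (by omega),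
      vstep_eq _ _ _ _ (c i hi).1]
    simp only [Nat.add_sub_cancel, e]
    simp [(okv_all (pre_lt I hz)).2 h1 i hi]

/-- a word of action letters followed by the test letter that avoids `y` gives a plan -/
lemma word_plan {I : List Act × List (ℕ × ℕ)} {b y : ℕ} {f : ℕ → ℕ → ℕ}
    (hf : ∀ q x, b ≤ q → f q x = vstep I b (size I) y q x) (hy : ∀ x, 1 ≤ x → f y x = y)
    (w : List ℕ) (hw : ∀ x ∈ w, 2 ≤ x ∧ x < I.1.length + 2)
    (h : ∀ i < size I, f (w.foldl f (b + i * size I)) 1 ≠ y) : Plan I := by
  suffices ∀ σ, Relation.ReflTransGen (PStep I.1) (fun _ => 0) σ → (∀ i < size I, σ i < size I ∧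
      f (w.foldl f (b + i * size I + σ i)) 1 ≠ y) → Plan I from
    this _ .refl fun i hi => ⟨size_pos I, h i hi⟩
  clear h
  induction w with
  | nil =>
    refine fun σ h1 h2 => ⟨σ, h1, (okv_all (goal_lt I)).1 fun i hi => ?_⟩
    have := (h2 i hi).2
    rw [List.foldl_nil, hf _ _ (by omega), vstep_eq _ _ _ _ (h2 i hi).1] at this
    by_contra e
    simp [e] at this
  | cons x w ih =>
    intro σ h1 h2
    obtain ⟨a, c⟩ := hw x (by simp)
    have hj : x - 2 < I.1.length := by omega
    have e : I.1.getD (x - 2) ([], []) = I.1[x - 2] := List.getD_eq_getElem _ _ hj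
    have fy : w.foldl f y = y := by
      clear ih h2
      induction w with
      | nil => rfl
      | cons z w ih =>
        rw [List.foldl_cons, hy z (by have := (hw z (by simp)).1; omega)]
        exact ih fun t ht => hw t (by simp at ht ⊢; tauto)
    have ok : ∀ i < size I, okv (I.1.getD (x - 2) ([], [])).1 i (σ i) = true := fun i hi => by
      have := (h2 i hi).2
      rw [List.foldl_cons, hf (_ + _) _ (by omega), vstep_eq _ _ _ _ (h2 i hi).1,
        if_neg (by omega), if_neg (by omega)] at this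
      by_contra e
      rw [if_neg e, fy, hy 1 le_rfl] at this
      exact this rfl
    refine ih (fun t ht => hw t (by simp [ht])) (app σ (I.1.getD (x - 2) ([], [])).2)
      (h1.tail ⟨_, e ▸ List.getElem_mem hj, (okv_all (pre_lt I (e ▸ List.getElem_mem hj))).1 ok,
        rfl⟩) fun i hi => ⟨app_lt I _ (h2 i hi).1, ?_⟩
    have := (h2 i hi).2
    rwa [List.foldl_cons, hf (_ + _) _ (by omega), vstep_eq _ _ _ _ (h2 i hi).1,
      if_neg (by omega), if_neg (by omega), if_pos (ok i hi)] at this

end Pool.Agent.Cx
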