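import Pool.Agent.Lib.helper10.NPDefs

/-! Polynomial space over Mathlib's multi-stack Turing machines. -/

namespace Pool.Agent.Cx

open Turing

/-- The class PSPACE: a deterministic Turing machine outputs the single bit that says whether the
input lies in `L`, and in every configuration of its run all stacks have polynomial length. -/
def InPSPACE (L : Language) : Prop :=
  ∃ (f : List Bool → Bool) (M : TM2Computable (fun x : List Bool => x) (fun b : Bool => [b]) f)
    (p : Polynomial ℕ), (∀ x, x ∈ L ↔ f x = true) ∧
    ∀ (x : List Bool) (n : ℕ) (c : M.tm.Cfg),
      (flip bind M.tm.step)^[n] (some (initList M.tm (x.map M.inputAlphabet.invFun))) = some c →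
        ∀ k, (c.stk k).length ≤ p.eval x.length

/-- Every language in PSPACE reduces to `L'`. -/
def PSPACEHard (L' : Language) : Prop := ∀ L, InPSPACE L → Reduces L L'

/-- In PSPACE and PSPACE-hard. -/
def PSPACEComplete (L : Language) : Prop := InPSPACE L ∧ PSPACEHard L

end Pool.Agent.Cx
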