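import Pool.Agent.Lib.helper9.PSMore

/-! Quantification over objects of polynomial size. -/

namespace Pool.Agent.Cx

open Function Polynomial

variable {α γ : Type} [Enc α] [Enc γ]

theorem PS.exW {P : α → List Bool → Prop} (h : PS fun z : α × List Bool => P z.1 z.2) (q : ℕ[X]) :
    PS (fun a => ∃ w : List Bool, w.length = q.eval (size a) ∧ P a w) := by
  obtain ⟨β, _, init, kids, W, Q, rank, p, hi, hk, h0, h1⟩ := h.not
  let B : ℕ[X] := p.comp (X + C 4 * q + C 2)
  have hB : ∀ (a : α) (w : List Bool), w.length ≤ q.eval (size a) →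
      p.eval (size (a, w)) ≤ B.eval (size a) ∧ size w ≤ 4 * q.eval (size a) + 1 := fun a w hw => by
    have := size_list_le w 3 (fun b _ => size_bool b)
    refine ⟨?_, by omega⟩
    simp only [B, eval_comp, eval_add, eval_mul, eval_C, eval_X]
    exact eval_mono _ (by rw [size_pair]; omega)
  refine ⟨ℕ × α × List Bool × β, inferInstance, fun a => (0, a, [], init (a, [])),
    fun z => bif z.1 == 2 then (kids z.2.2.2).map (fun k => (2, z.2.1, z.2.2.1, k))
      else bif z.1 == 1 then [(0, z.2)] else bif decide (z.2.2.1.length < q.eval (size z.2.1)) then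
        [(1, z.2.1, false :: z.2.2.1, init (z.2.1, false :: z.2.2.1)),
          (1, z.2.1, true :: z.2.2.1, init (z.2.1, true :: z.2.2.1))]
      else [(2, z.2)],
    fun z => (z.1 = 2 → W z.2.2.2) ∧ (z.1 < 2 → (z.1 = 0 ↔ ∃ w : List Bool,
      (w ++ z.2.2.1).length = q.eval (size z.2.1) ∧ P z.2.1 (w ++ z.2.2.1))),
    fun a z => z.1 ≤ 2 ∧ z.2.1 = a ∧ z.2.2.1.length ≤ q.eval (size a) ∧ Q (a, z.2.2.1) z.2.2.2 ∧
      (z.1 < 2 → z.2.2.2 = init (a, z.2.2.1)),
    fun z => if z.1 = 2 then rank z.2.2.2 else B.eval (size z.2.1) + 1 +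
      2 * (q.eval (size z.2.1) - z.2.2.1.length) + z.1, X + B + C 4 * q + C 9, by fun_prop,
    by fun_prop, fun a => ⟨⟨by simp, rfl, by simp, (h0 _).1, by simp⟩, ?_, by simp⟩, ?_⟩
  · simp only [eval_add, eval_mul, eval_C, List.length_nil]
    simp; omega
  · rintro a ⟨t, a', w, b⟩ ⟨c1, rfl, c3, c4, c5⟩
    dsimp only at c1 c3 c4 c5
    obtain ⟨a1, a2, a3⟩ := h1 _ b c4
    obtain ⟨b1, b2⟩ := hB a' w c3
    refine ⟨by simp only [eval_add, eval_mul, eval_C, eval_X, size_pair, size_nat] at *; omega, ?_⟩
    interval_cases t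
    · obtain rfl := c5 (by omega)
      by_cases hw : w.length < q.eval (size a')
      · simp only [hw, Nat.reduceBEq, cond_false, decide_true, cond_true, List.mem_cons,
          List.not_mem_nil, or_false, exists_eq_or_imp, exists_eq_left, forall_eq_or_imp, forall_eq,
          List.length_cons, (h0 _).1]
        refine ⟨?_, by simp; omega⟩
        simp only [OfNat.zero_ne_ofNat, false_imp_iff, Nat.ofNat_pos, true_iff, true_imp_iff,
          true_and, OfNat.one_ne_ofNat, Nat.one_lt_ofNat, one_ne_zero, false_iff, not_not]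
        constructor
        · rintro ⟨w', h⟩
          rcases List.eq_nil_or_concat w' with rfl | ⟨l, b, rfl⟩
          · simp at h; omega
          · cases b
            · exact Or.inl ⟨l, by simpa using h⟩
            · exact Or.inr ⟨l, by simpa using h⟩
        · rintro (⟨l, h⟩ | ⟨l, h⟩)
          · exact ⟨l ++ [false], by simpa using h⟩
          · exact ⟨l ++ [true], by simpa using h⟩
      · have := (h0 (a', w)).2
        simp only [hw, Nat.reduceBEq, cond_false, decide_false, List.mem_singleton, exists_eq_left,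
          forall_eq, c4, c3, ← this.2]
        refine ⟨?_, by simp; omega⟩
        simp only [OfNat.zero_ne_ofNat, false_imp_iff, Nat.ofNat_pos, true_iff, true_imp_iff,
          true_and, lt_self_iff_false, and_true, not_not]
        refine ⟨fun ⟨w', h, h'⟩ => ?_, fun h => ⟨[], by simp; omega, h⟩⟩
        obtain rfl : w' = [] := by
          rw [List.length_append] at h
          exact List.eq_nil_of_length_eq_zero (by omega)
        exact h'
    · simp [c3, c5, (h0 _).1]
    · simpa [a2, c3] using a3

theorem PS.ex [Dec γ] {P : α → γ → Prop} (h : PS fun z : α × γ => P z.1 z.2) (q : ℕ[X])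
    (hq : ∀ a c, P a c → size c ≤ q.eval (size a)) : PS (fun a => ∃ c, P a c) := by
  refine (PS.exW (P := fun a w => P a (decode w)) (h.red
    (r := fun z => (z.1, decode z.2)) (by fun_prop) fun _ => Iff.rfl) q).red PT.id
    fun a => ⟨fun ⟨c, hc⟩ => ⟨enc c ++ List.replicate (q.eval (size a) - size c) false, ?_,
      by rwa [decode_pad]⟩, fun ⟨_, _, h⟩ => ⟨_, h⟩⟩
  simp only [List.length_append, List.length_replicate]
  exact Nat.add_sub_cancel' (hq a c hc)

end Pool.Agent.Cx
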