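import Pool.Agent.Lib.helper9.PSIter

/-! Games of polynomial depth and reachability among states of polynomial size are in PSPACE. -/

namespace Pool.Agent.Cx

open Function Polynomial

variable {α β γ : Type} [Enc α] [Enc β] [Enc γ]

def gStep (kids : β → List β) (st : List (List β)) : List (List β) :=
  bif (st.headD []).isEmpty then
    (bif decide (st.length ≤ 2) then st else (st.tail.tail.headD []).tail :: st.tail.tail.tail)
  else (((st.headD []).take 1).flatMap kids) :: st

omit [Enc β] in
lemma gStep_run {kids : β → List β} {W Q : β → Prop} {rank : β → ℕ}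
    (h : ∀ b, Q b → (W b ↔ ∃ k ∈ kids b, ¬ W k) ∧ ∀ k ∈ kids b, Q k ∧ rank k < rank b) :
    ∀ (r : ℕ) (ks : List β), (∀ k ∈ ks, Q k ∧ rank k < r) → ∀ rest,
      ((¬ ∃ k ∈ ks, ¬ W k) → ∃ n, (gStep kids)^[n] (ks :: rest) = [] :: rest) ∧
      ((∃ k ∈ ks, ¬ W k) → ∃ n l, (gStep kids)^[n] (ks :: rest) = [] :: l :: rest) := by
  intro r
  induction r with
  | zero =>
    intro ks hk rest
    cases ks with
    | nil => exact ⟨fun _ => ⟨0, rfl⟩, by simp⟩
    | cons k ks => exact absurd (hk k (by simp)).2 (by omega)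
  | succ r ih =>
    intro ks
    induction ks with
    | nil => exact fun _ rest => ⟨fun _ => ⟨0, rfl⟩, by simp⟩
    | cons k ks ih2 =>
      intro hk rest
      obtain ⟨a, b⟩ := h k (hk k (by simp)).1
      have c := (hk k (by simp)).2
      obtain ⟨d, e⟩ := ih (kids k) (fun x hx => ⟨(b x hx).1, by have := (b x hx).2; omega⟩)
        ((k :: ks) :: rest)
      have s1 : gStep kids ((k :: ks) :: rest) = kids k :: (k :: ks) :: rest := by simp [gStep]
      obtain ⟨f, g⟩ := ih2 (fun x hx => hk x (List.mem_cons_of_mem _ hx)) rest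
      by_cases hW : W k
      · obtain ⟨n, l, hn⟩ := e (a.1 hW)
        have s2 : (gStep kids)^[1 + n + 1] ((k :: ks) :: rest) = ks :: rest := by
          rw [iter_add, iter_add, iterate_one, s1, hn]; simp [gStep]
        constructor
        · intro h'
          obtain ⟨m, hm⟩ := f (fun ⟨x, hx, h1⟩ => h' ⟨x, List.mem_cons_of_mem _ hx, h1⟩)
          exact ⟨1 + n + 1 + m, by rw [iter_add, s2, hm]⟩
        · rintro ⟨x, hx, h1⟩
          obtain ⟨m, l, hm⟩ := g ⟨x, (List.mem_cons.1 hx).resolve_left (by rintro rfl; exact h1 hW), h1⟩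
          exact ⟨1 + n + 1 + m, l, by rw [iter_add, s2, hm]⟩
      · obtain ⟨n, hn⟩ := d (fun h' => hW (a.2 h'))
        exact ⟨fun h' => absurd ⟨k, by simp, hW⟩ h',
          fun _ => ⟨1 + n, _, by rw [iter_add, iterate_one, s1, hn]⟩⟩

def GInv (Q : β → Prop) (rank : β → ℕ) (R B : ℕ) : List (List β) → Prop
  | [] => True
  | l :: rest => (∀ k ∈ l, Q k ∧ rank k + rest.length ≤ R) ∧ size l ≤ B ∧ rest.length ≤ R + 1 ∧
      GInv Q rank R B rest

lemma GInv.step {kids : β → List β} {Q : β → Prop} {rank : β → ℕ} {R B : ℕ}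
    (h : ∀ b, Q b → size (kids b) ≤ B ∧ ∀ k ∈ kids b, Q k ∧ rank k < rank b) :
    ∀ st, st ≠ [] → GInv Q rank R B st → gStep kids st ≠ [] ∧ GInv Q rank R B (gStep kids st)
  | [], h', _ => absurd rfl h'
  | (k :: ks) :: rest, _, h' => by
    have s1 : gStep kids ((k :: ks) :: rest) = kids k :: (k :: ks) :: rest := by simp [gStep]
    obtain ⟨a, b⟩ := h'.1 k (by simp)
    rw [s1]
    refine ⟨by simp, fun x hx => ⟨((h k a).2 x hx).1, ?_⟩, (h k a).1, by simp; omega, h'⟩
    have := ((h k a).2 x hx).2
    simp; omega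
  | [[]], _, h' => ⟨by simp [gStep], h'⟩
  | [[], l], _, h' => ⟨by simp [gStep], h'⟩
  | [] :: l :: l2 :: rest, _, h' => by
    have s1 : gStep kids ([] :: l :: l2 :: rest) = l2.tail :: rest := by simp [gStep]
    obtain ⟨a, b, c, d⟩ := h'.2.2.2.2.2.2
    rw [s1]
    exact ⟨by simp, fun x hx => a x (List.mem_of_mem_tail hx),
      (size_le_of_sublist (List.tail_sublist _)).trans b, c, d⟩

lemma GInv.mem {Q : β → Prop} {rank : β → ℕ} {R B : ℕ} :
    ∀ st, GInv Q rank R B st → ∀ l ∈ st, size l ≤ B
  | [], _ => by simp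
  | l :: rest, h => by
    intro x hx
    rcases List.mem_cons.1 hx with rfl | hx
    · exact h.2.1
    · exact GInv.mem rest h.2.2.2 x hx

/-- `P` is decided by a game of polynomial depth with polynomial-time moves -/
def PS (P : α → Prop) : Prop :=
  ∃ (β : Type) (_ : Enc β) (init : α → β) (kids : β → List β) (W : β → Prop) (Q : α → β → Prop)
    (rank : β → ℕ) (p : ℕ[X]), PT init ∧ PT kids ∧
    (∀ a, Q a (init a) ∧ rank (init a) ≤ p.eval (size a) ∧ (P a ↔ W (init a))) ∧
    ∀ a b, Q a b → size b ≤ p.eval (size a) ∧ (W b ↔ ∃ k ∈ kids b, ¬ W k) ∧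
      ∀ k ∈ kids b, Q a k ∧ rank k < rank b

theorem PS.raw {P : List Bool → Prop} (h : PS P) : InPSPACE {x | P x} := by
  obtain ⟨β, _, init, kids, W, Q, rank, p, hi, hk, h0, h1⟩ := h
  obtain ⟨q, hq⟩ := hk.bound
  let p' : ℕ[X] := p.comp (C 4 * X + 1)
  have hp : ∀ x : List Bool, p.eval (size x) ≤ p'.eval x.length := fun x => by
    simp only [p', eval_comp]
    refine eval_mono _ ?_
    have := size_list_le x 3 (fun b _ => size_bool b)
    simp; omega
  refine inPSPACE_iter (init := fun x => [kids (init x)]) (g := gStep kids)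
    (go := fun st => !((st.headD []).isEmpty && decide (st.length ≤ 2)))
    (acc := fun st => st.length == 2) (by fun_prop) (by unfold gStep; fun_prop) (by fun_prop)
    (by fun_prop) ((p' + C 2) * (q.comp p' + 1) + 1) (fun x n => ?_) (fun x => ?_)
  · have hb : ∀ b, Q x b → size (kids b) ≤ q.eval (p'.eval x.length) ∧
        ∀ k ∈ kids b, Q x k ∧ rank k < rank b := fun b hb =>
      ⟨(hq b).trans (eval_mono _ ((h1 x b hb).1.trans (hp x))), (h1 x b hb).2.2⟩
    have : (gStep kids)^[n] [kids (init x)] ≠ [] ∧ GInv (Q x) rank (p'.eval x.length)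
        (q.eval (p'.eval x.length)) ((gStep kids)^[n] [kids (init x)]) := by
      induction n with
      | zero =>
        refine ⟨by simp, fun k hk => ⟨((hb _ (h0 x).1).2 k hk).1, ?_⟩, (hb _ (h0 x).1).1,
          by simp, trivial⟩
        have := ((hb _ (h0 x).1).2 k hk).2
        have := (h0 x).2.1
        have := hp x
        simp; omega
      | succ n ih => rw [iterate_succ_apply']; exact GInv.step hb _ ih.1 ih.2
    generalize (gStep kids)^[n] [kids (init x)] = st at this
    have a := size_list_le st _ (GInv.mem st this.2)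
    have b : st.length ≤ p'.eval x.length + 2 := by
      cases st with
      | nil => simp
      | cons l rest => have := this.2.2.2.1; simp; omega
    simp only [eval_add, eval_mul, eval_C, eval_comp, eval_one]
    refine a.trans ?_
    nlinarith
  · obtain ⟨a, b⟩ := gStep_run (kids := kids) (W := W) (Q := Q x) (rank := rank)
      (fun b hb => (h1 x b hb).2) (rank (init x)) (kids (init x)) (h1 x _ (h0 x).1).2.2 []
    have e : x ∈ {x | P x} ↔ ∃ k ∈ kids (init x), ¬ W k := (h0 x).2.2.trans (h1 x _ (h0 x).1).2.1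
    have fin : ∀ n st, (gStep kids)^[n] [kids (init x)] = st →
        (!((st.headD []).isEmpty && decide (st.length ≤ 2))) = false →
        (x ∈ {x | P x} ↔ (st.length == 2) = true) → ∃ n,
        (!((((gStep kids)^[n] [kids (init x)]).headD []).isEmpty &&
          decide (((gStep kids)^[n] [kids (init x)]).length ≤ 2))) = false ∧
        (∀ m < n, (!((((gStep kids)^[m] [kids (init x)]).headD []).isEmpty &&
          decide (((gStep kids)^[m] [kids (init x)]).length ≤ 2))) = true) ∧
        (x ∈ {x | P x} ↔ (((gStep kids)^[n] [kids (init x)]).length == 2) = true) := by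
      rintro n st rfl h2 h3
      have ex : ∃ n, (!((((gStep kids)^[n] [kids (init x)]).headD []).isEmpty &&
        decide (((gStep kids)^[n] [kids (init x)]).length ≤ 2))) = false := ⟨n, h2⟩
      have f1 := Nat.find_spec ex
      have f2 := fun m => Nat.find_min ex (m := m)
      obtain ⟨d, hd⟩ := Nat.exists_eq_add_of_le (Nat.find_min' ex h2)
      generalize Nat.find ex = n0 at f1 f2 hd
      refine ⟨n0, f1, fun m hm => Bool.eq_true_of_not_eq_false (f2 m hm), ?_⟩
      rw [h3]
      conv_lhs => rw [hd, iter_add]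
      rw [iterate_fixed]
      simp only [Bool.not_eq_false', Bool.and_eq_true] at f1
      rw [gStep, f1.1, f1.2]; rfl
    by_cases hx : ∃ k ∈ kids (init x), ¬ W k
    · obtain ⟨n, l, hn⟩ := b hx
      exact fin n _ hn (by simp) (by rw [e]; simpa using hx)
    · obtain ⟨n, hn⟩ := a hx
      exact fin n _ hn (by simp) (by rw [e]; simpa using hx)

theorem PS.red {P : α → Prop} {P' : γ → Prop} (h : PS P) {r : γ → α} (hr : PT r)
    (e : ∀ c, P' c ↔ P (r c)) : PS P' := by
  obtain ⟨β, _, init, kids, W, Q, rank, p, hi, hk, h0, h1⟩ := h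
  obtain ⟨q, hq⟩ := hr.bound
  have hp : ∀ c, p.eval (size (r c)) ≤ (p.comp q).eval (size c) := fun c => by
    rw [eval_comp]; exact eval_mono _ (hq c)
  exact ⟨β, inferInstance, fun c => init (r c), kids, W, fun c => Q (r c), rank, p.comp q,
    hi.comp hr, hk, fun c => ⟨(h0 _).1, (h0 _).2.1.trans (hp c), (e c).trans (h0 _).2.2⟩,
    fun c b hb => ⟨(h1 _ b hb).1.trans (hp c), (h1 _ b hb).2⟩⟩

theorem PS.andor {P : α → Prop} {init : α → β} {kids : β → List β} {isOr : β → Bool}
    (val : β → Prop) (Q : α → β → Prop) (rank : β → ℕ) (p : ℕ[X]) (hi : PT init) (hk : PT kids)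
    (ho : PT isOr) (h0 : ∀ a, Q a (init a) ∧ rank (init a) ≤ p.eval (size a) ∧ (P a ↔ val (init a)))
    (h1 : ∀ a b, Q a b → size b ≤ p.eval (size a) ∧
      (isOr b = true → (val b ↔ ∃ k ∈ kids b, val k)) ∧
      (isOr b = false → (val b ↔ ∀ k ∈ kids b, val k)) ∧ ∀ k ∈ kids b, Q a k ∧ rank k < rank b) :
    PS P := by
  refine ⟨Bool × β, inferInstance, fun a => (true, init a),
    fun z => bif z.1 == isOr z.2 then (kids z.2).map (fun k => (!z.1, k)) else [(!z.1, z.2)],
    fun z => (z.1 = true ↔ val z.2), fun a z => Q a z.2,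
    fun z => 2 * rank z.2 + (if z.1 = isOr z.2 then 0 else 1), C 2 * p + C 4, by fun_prop,
    by fun_prop, fun a => ⟨(h0 a).1, ?_, by simpa using (h0 a).2.2⟩, fun a ⟨c, b⟩ hb => ?_⟩
  · have := (h0 a).2.1
    simp only [eval_add, eval_mul, eval_C]
    split_ifs <;> omega
  · obtain ⟨a1, a2, a3, a4⟩ := h1 a b hb
    refine ⟨?_, ?_, ?_⟩
    · have := size_bool c
      simp only [eval_add, eval_mul, eval_C, size_pair]; omega
    · cases c <;> cases h : isOr b
      · simp [h, a3 h]
      · simp [h]
      · simp [h]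
      · simp [h, a2 h]
    · intro k hk
      dsimp only at hk ⊢
      by_cases h : c = isOr b
      · simp only [h, beq_self_eq_true, cond_true, List.mem_map] at hk
        obtain ⟨x, hx, rfl⟩ := hk
        have := (a4 x hx).2
        refine ⟨(a4 x hx).1, ?_⟩
        dsimp only
        split_ifs <;> omega
      · rw [show (c == isOr b) = false by simpa using h, cond_false, List.mem_singleton] at hk
        subst hk
        refine ⟨hb, ?_⟩
        have : (!c) = isOr b := by revert h; cases c <;> cases isOr b <;> simp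
        simp [this, h]

theorem PS.not {P : α → Prop} (h : PS P) : PS (fun a => ¬ P a) := by
  obtain ⟨β, _, init, kids, W, Q, rank, p, hi, hk, h0, h1⟩ := h
  refine ⟨Bool × β, inferInstance, fun a => (true, init a),
    fun z => bif z.1 then [(false, z.2)] else (kids z.2).map (fun k => (false, k)),
    fun z => (z.1 = true ↔ ¬ W z.2), fun a z => Q a z.2,
    fun z => rank z.2 + z.1.toNat, p + C 4, by fun_prop,
    by fun_prop, fun a => ⟨(h0 a).1, ?_, by simp [(h0 a).2.2]⟩, fun a ⟨c, b⟩ hb => ?_⟩
  · have := (h0 a).2.1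
    simp only [eval_add, eval_C, Bool.toNat_true]; omega
  · obtain ⟨a1, a2, a3⟩ := h1 a b hb
    have := size_bool c
    refine ⟨by simp only [eval_add, eval_C, size_pair]; omega, ?_, ?_⟩
    · cases c
      · simp [a2]
      · simp
    · cases c
      · simpa using a3
      · simpa using hb

theorem PS.and {P : α → Prop} (h : PS P) {f : α → Bool} (hf : PT f) :
    PS (fun a => f a = true ∧ P a) := by
  obtain ⟨β, _, init, kids, W, Q, rank, p, hi, hk, h0, h1⟩ := h
  refine ⟨Bool × β, inferInstance, fun a => (f a, init a),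
    fun z => bif z.1 then (kids z.2).map (fun k => (true, k)) else [],
    fun z => (z.1 = true ∧ W z.2), fun a z => Q a z.2,
    fun z => rank z.2, p + C 4, by fun_prop,
    by fun_prop, fun a => ⟨(h0 a).1, ?_, by simp [(h0 a).2.2]⟩, fun a ⟨c, b⟩ hb => ?_⟩
  · have := (h0 a).2.1
    simp only [eval_add, eval_C]; omega
  · obtain ⟨a1, a2, a3⟩ := h1 a b hb
    have := size_bool c
    refine ⟨by simp only [eval_add, eval_C, size_pair]; omega, ?_, ?_⟩
    · cases c
      · simp
      · simp [a2]
    · cases c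
      · simp
      · simpa using a3

theorem PS.inPSPACE [Dec α] {P : α → Prop} (h : PS P) : InPSPACE (Lang P) := by
  have := ((h.red (P' := fun x : List Bool => P (decode x)) (r := decode) (by fun_prop)
    (fun _ => Iff.rfl)).and (f := fun x => enc (decode x : α) == x) (by fun_prop)).raw
  have e : Lang P = {x | (enc (decode x : α) == x) = true ∧ P (decode x)} := by
    ext x; simp [mem_Lang']
  rw [e]; exact this

lemma decode_pad [Dec γ] (a : γ) (k : ℕ) : decode (enc a ++ List.replicate k false) = a := by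
  unfold decode enc
  rw [List.reverse_append, List.foldl_append, parse_code]
  exact Dec.ofBT_toBT a

def Wk (R : γ → γ → Prop) : ℕ → γ → γ → Prop
  | 0, u, v => u = v
  | n + 1, u, v => Wk R n u v ∨ ∃ m, Wk R n u m ∧ R m v

omit [Enc γ] in
lemma Wk.split {R : γ → γ → Prop} {u : γ} (a : ℕ) : ∀ (b : ℕ) (v : γ), Wk R (a + b) u v →
    ∃ m, Wk R a u m ∧ Wk R b m v
  | 0, v, h => ⟨v, h, rfl⟩
  | b + 1, v, h => by
    rcases h with h | ⟨m, h, h'⟩
    · obtain ⟨x, h1, h2⟩ := Wk.split a b v h
      exact ⟨x, h1, Or.inl h2⟩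
    · obtain ⟨x, h1, h2⟩ := Wk.split a b m h
      exact ⟨x, h1, Or.inr ⟨m, h2, h'⟩⟩

omit [Enc γ] in
lemma Wk.bound {R : γ → γ → Prop} {u : γ} (F : Finset γ) (hu : u ∈ F) (hF : ∀ a b, R a b → b ∈ F)
    {v : γ} (h : Relation.ReflTransGen R u v) : Wk R F.card u v := by
  classical
  have mem : ∀ n v, Wk R n u v → v ∈ F := by
    intro n
    induction n with
    | zero => rintro v rfl; exact hu
    | succ n ih => rintro v (h | ⟨m, -, h⟩); exacts [ih v h, hF _ _ h]
  have key : ∀ n, (∀ v, Wk R (n + 1) u v → Wk R n u v) ∨ n < (F.filter (Wk R n u)).card := by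
    intro n
    induction n with
    | zero => exact Or.inr (Finset.card_pos.2 ⟨u, Finset.mem_filter.2 ⟨hu, rfl⟩⟩)
    | succ n ih =>
      by_cases h : ∀ v, Wk R (n + 1) u v → Wk R n u v
      · left
        rintro v (h' | ⟨m, h1, h2⟩)
        · exact h'
        · exact Or.inr ⟨m, h m h1, h2⟩
      · right
        have := ih.resolve_left h
        push Not at h
        obtain ⟨v, h1, h2⟩ := h
        refine lt_of_le_of_lt this (Finset.card_lt_card ⟨fun x hx => ?_, fun hs => ?_⟩)
        · exact Finset.mem_filter.2 ⟨(Finset.mem_filter.1 hx).1, Or.inl (Finset.mem_filter.1 hx).2⟩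
        · exact h2 (Finset.mem_filter.1 (hs (Finset.mem_filter.2 ⟨mem _ _ h1, h1⟩))).2
  have st := (key F.card).resolve_right (not_lt.2 (Finset.card_filter_le _ _))
  induction h with
  | refl =>
    generalize F.card = n
    induction n with
    | zero => rfl
    | succ n ih => exact Or.inl ih
  | tail _ h ih => exact st _ (Or.inr ⟨_, ih, h⟩)

def Sv [Dec γ] (R : γ → γ → Prop) (N : ℕ) : ℕ → γ → γ → Prop
  | 0, u, v => u = v ∨ R u v
  | j + 1, u, v => ∃ w : List Bool, w.length = N ∧ Sv R N j u (decode w) ∧ Sv R N j (decode w) v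

lemma Sv.sound [Dec γ] {R : γ → γ → Prop} {N : ℕ} : ∀ j u v, Sv R N j u v →
    Relation.ReflTransGen R u v
  | 0, _, _, h => h.elim (fun e => e ▸ .refl) .single
  | j + 1, _, _, ⟨_, _, a, b⟩ => (Sv.sound j _ _ a).trans (Sv.sound j _ _ b)

lemma Sv.complete [Dec γ] {R : γ → γ → Prop} {N : ℕ} {u v : γ} (hu : size u ≤ N)
    (h : Relation.ReflTransGen (fun a b => R a b ∧ size b ≤ N) u v) : Sv R N N u v := by
  classical
  have pad : ∀ m : γ, size m ≤ N → ∃ w : List Bool, w.length = N ∧ decode w = m := fun m hm =>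
    ⟨_, by simp only [List.length_append, List.length_replicate]; exact Nat.add_sub_cancel' hm,
      decode_pad m (N - size m)⟩
  have sm : ∀ n u v, size u ≤ N → Wk (fun a b => R a b ∧ size b ≤ N) n u v → size v ≤ N := by
    intro n u
    induction n with
    | zero => rintro v h rfl; exact h
    | succ n ih => rintro v h (h' | ⟨m, -, h'⟩); exacts [ih v h h', h'.2]
  have key : ∀ j u v, size u ≤ N → Wk (fun a b => R a b ∧ size b ≤ N) (2 ^ j) u v →
      Sv R N j u v := by
    intro j
    induction j with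
    | zero =>
      rintro u v - (h | ⟨m, rfl, h⟩)
      exacts [Or.inl h, Or.inr h.1]
    | succ j ih =>
      intro u v hu h
      rw [pow_succ, mul_two] at h
      obtain ⟨m, a, b⟩ := Wk.split _ _ _ h
      obtain ⟨w, hw, rfl⟩ := pad m (sm _ _ _ hu a)
      exact ⟨w, hw, ih _ _ hu a, ih _ _ (sm _ _ _ hu a) b⟩
  let F : Finset γ := Finset.univ.image fun f : Fin N → Bool => decode (List.ofFn f)
  have hF : ∀ m, size m ≤ N → m ∈ F := fun m hm => by
    obtain ⟨w, rfl, rfl⟩ := pad m hm
    exact Finset.mem_image.2 ⟨w.get, by simp, by simp⟩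
  have h1 := Wk.bound F (hF u hu) (fun a b h => hF b h.2) h
  obtain ⟨d, hd⟩ := Nat.exists_eq_add_of_le
    (show F.card ≤ 2 ^ N from Finset.card_image_le.trans (by simp))
  refine key N u v hu ?_
  rw [hd]
  clear hd
  induction d with
  | zero => exact h1
  | succ d ih => exact Or.inl ih

/-- Savitch's theorem -/
theorem PS.reach [Dec γ] {s t : α → γ} {R : α → γ → γ → Bool} (hs : PT s) (ht : PT t)
    (hR : PT fun z : α × γ × γ => R z.1 z.2.1 z.2.2) (p : ℕ[X]) {P : α → Prop}
    (h1 : ∀ a, Relation.ReflTransGen (fun u v => R a u v = true) (s a) (t a) → P a)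
    (h2 : ∀ a, P a → size (s a) ≤ p.eval (size a) ∧ Relation.ReflTransGen
      (fun u v => R a u v = true ∧ size v ≤ p.eval (size a)) (s a) (t a)) : PS P := by
  classical
  obtain ⟨q1, hq1⟩ := hs.bound
  obtain ⟨q2, hq2⟩ := ht.bound
  obtain ⟨q3, hq3⟩ := (PT.decode (β := γ) PT.id).bound
  let B : ℕ[X] := q1 + q2 + q3.comp (C 4 * p + 1)
  have hR' : PT fun z : α × ℕ × γ × γ × List Bool => R z.1 z.2.2.1 z.2.2.2.1 :=
    hR.comp (f := fun z : α × ℕ × γ × γ × List Bool => (z.1, z.2.2.1, z.2.2.2.1)) (by fun_prop)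
  refine PS.andor (β := α × ℕ × γ × γ × List Bool)
    (init := fun a => (a, p.eval (size a), s a, t a, []))
    (kids := fun z => bif z.2.1 == 0 then [] else bif decide (z.2.2.2.2.length < p.eval (size z.1))
      then [(z.1, z.2.1, z.2.2.1, z.2.2.2.1, false :: z.2.2.2.2),
        (z.1, z.2.1, z.2.2.1, z.2.2.2.1, true :: z.2.2.2.2)]
      else [(z.1, z.2.1 - 1, z.2.2.1, decode z.2.2.2.2, []),
        (z.1, z.2.1 - 1, decode z.2.2.2.2, z.2.2.2.1, [])])
    (isOr := fun z => bif z.2.1 == 0 then !(decide (z.2.2.1 = z.2.2.2.1) || R z.1 z.2.2.1 z.2.2.2.1)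
      else decide (z.2.2.2.2.length < p.eval (size z.1)))
    (fun z => (z.2.1 = 0 → z.2.2.1 = z.2.2.2.1 ∨ R z.1 z.2.2.1 z.2.2.2.1 = true) ∧ ∀ j, z.2.1 = j + 1 →
      ∃ w : List Bool, (w ++ z.2.2.2.2).length = p.eval (size z.1) ∧
        Sv (fun u v => R z.1 u v = true) (p.eval (size z.1)) j z.2.2.1 (decode (w ++ z.2.2.2.2)) ∧
        Sv (fun u v => R z.1 u v = true) (p.eval (size z.1)) j (decode (w ++ z.2.2.2.2)) z.2.2.2.1)
    (fun a z => z.1 = a ∧ z.2.1 ≤ p.eval (size a) ∧ size z.2.2.1 ≤ B.eval (size a) ∧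
      size z.2.2.2.1 ≤ B.eval (size a) ∧ z.2.2.2.2.length ≤ p.eval (size a))
    (fun z => z.2.1 * (p.eval (size z.1) + 1) + (p.eval (size z.1) - z.2.2.2.2.length))
    (X + p * (p + C 7) + C 2 * B + C 6) (by fun_prop) (by fun_prop) (by fun_prop) (fun a => ?_) ?_
  · have hv : ∀ j u v, Sv (fun u v => R a u v = true) (p.eval (size a)) j u v ↔
        (j = 0 → u = v ∨ R a u v = true) ∧ ∀ i, j = i + 1 →
        ∃ w : List Bool, (w ++ []).length = p.eval (size a) ∧
          Sv (fun u v => R a u v = true) (p.eval (size a)) i u (decode (w ++ [])) ∧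
          Sv (fun u v => R a u v = true) (p.eval (size a)) i (decode (w ++ [])) v := by
      intro j u v
      cases j <;> simp [Sv]
    have := hq1 a
    have := hq2 a
    refine ⟨⟨rfl, le_rfl, ?_, ?_, by simp⟩, ?_, ?_⟩
    · simp only [B, eval_add]; omega
    · simp only [B, eval_add]; omega
    · simp only [eval_add, eval_mul, eval_C, List.length_nil]; nlinarith [Nat.sub_le (p.eval (size a)) 0]
    · rw [← hv]
      exact ⟨fun h => Sv.complete (h2 a h).1 (h2 a h).2, fun h => h1 a (Sv.sound _ _ _ h)⟩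
  · rintro a ⟨a', j, u, v, w⟩ ⟨rfl, b1, b2, b3, b4⟩
    dsimp only at b1 b2 b3 b4 ⊢
    have b5 := size_list_le w 3 (fun b _ => size_bool b)
    have b6 : size (decode w : γ) ≤ B.eval (size a') := by
      have := (hq3 w).trans (eval_mono q3 (show size w ≤ 4 * p.eval (size a') + 1 by omega))
      simp only [B, eval_add, eval_comp, eval_mul, eval_C, eval_one]; omega
    refine ⟨?_, ?_⟩
    · simp only [eval_add, eval_mul, eval_C, eval_X, size_pair, size_nat]; nlinarith
    cases j with
    | zero => simp; tauto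
    | succ j =>
      by_cases hw : w.length < p.eval (size a')
      · simp only [hw, Nat.add_eq_zero_iff, one_ne_zero, and_false, decide_true,
          show (j + 1 == 0) = false from rfl, cond_false, cond_true, false_imp_iff, true_and,
          Nat.add_right_cancel_iff, forall_eq', true_imp_iff, List.mem_cons, List.not_mem_nil,
          or_false, exists_eq_or_imp, exists_eq_left, forall_eq_or_imp, forall_eq, List.length_cons]
        refine ⟨⟨?_, ?_⟩, by simp, ⟨⟨b1, b2, b3, by omega⟩, by omega⟩, ⟨b1, b2, b3, by omega⟩,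
          by omega⟩
        · rintro ⟨w', h⟩
          rcases List.eq_nil_or_concat w' with rfl | ⟨l, b, rfl⟩
          · simp at h; omega
          · cases b
            · exact Or.inl ⟨l, by simpa using h⟩
            · exact Or.inr ⟨l, by simpa using h⟩
        · rintro (⟨l, h⟩ | ⟨l, h⟩)
          · exact ⟨l ++ [false], by simpa using h⟩
          · exact ⟨l ++ [true], by simpa using h⟩
      · have hv : ∀ u v, Sv (fun u v => R a' u v = true) (p.eval (size a')) j u v ↔
            (j = 0 → u = v ∨ R a' u v = true) ∧ ∀ i, j = i + 1 →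
            ∃ w : List Bool, (w ++ []).length = p.eval (size a') ∧
              Sv (fun u v => R a' u v = true) (p.eval (size a')) i u (decode (w ++ [])) ∧
              Sv (fun u v => R a' u v = true) (p.eval (size a')) i (decode (w ++ [])) v := by
          intro u v
          cases j <;> simp [Sv]
        simp only [hw, Nat.add_eq_zero_iff, one_ne_zero, and_false, decide_false,
          show (j + 1 == 0) = false from rfl, cond_false, false_imp_iff, true_and,
          Nat.add_right_cancel_iff, forall_eq', true_imp_iff, List.mem_cons, List.not_mem_nil,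
          or_false, forall_eq_or_imp, forall_eq, Nat.add_sub_cancel, ← hv, List.length_nil]
        refine ⟨by simp, ⟨?_, fun h => ⟨[], by simp; omega, h⟩⟩, ⟨⟨by omega, b2, b6, by omega⟩, ?_⟩,
          ⟨by omega, b6, b3, by omega⟩, ?_⟩
        · rintro ⟨w', h, h'⟩
          obtain rfl : w' = [] := by
            rw [List.length_append] at h
            exact List.eq_nil_of_length_eq_zero (by omega)
          exact h'
        · rw [add_mul]; omega
        · rw [add_mul]; omega

end Pool.Agent.Cx
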