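import Pool.Agent.Lib.helper9.PSGame

/-! PSPACE-hard problems: succinct reachability and propositional planning. -/

namespace Pool.Agent.Cx

open Function Polynomial Turing

variable {α β : Type} [Enc α] [Enc β]

/-- every PSPACE language reduces to `P` by a function of the class `PT` -/
def HardPS (P : α → Prop) : Prop :=
  ∀ L, InPSPACE L → ∃ g : List Bool → α, PT g ∧ ∀ x, x ∈ L ↔ P (g x)

theorem HardPS.red {P : α → Prop} {Q : β → Prop} (h : HardPS P) {r : α → β} (hr : PT r)
    (e : ∀ a, P a ↔ Q (r a)) : HardPS Q := fun L hL =>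
  let ⟨g, hg, h'⟩ := h L hL
  ⟨fun x => r (g x), hr.comp hg, fun x => (h' x).trans (e _)⟩

theorem HardPS.hard [Dec α] {P : α → Prop} (h : HardPS P) : PSPACEHard (Lang P) := fun L hL =>
  let ⟨g, hg, h'⟩ := h L hL
  ⟨fun x => enc (g x), polyTime_of_PT hg, fun x => (h' x).trans mem_Lang.symm⟩

theorem HardPS.not {P : α → Prop} (h : HardPS P) (h' : PS P) : HardPS (fun a => ¬ P a) := by
  intro L hL
  obtain ⟨g, hg, e⟩ := h L hL
  obtain ⟨g', hg', e'⟩ := h _ (h'.red hg e).not.raw
  exact ⟨g', hg', fun x => by have := e' x; simp only [Set.mem_ofPred_eq] at this; tauto⟩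

theorem HardPS.p_eq [Dec α] {P : α → Prop} (h : HardPS P) (h' : InP (Lang P)) :
    ∀ L, InPSPACE L → InP L := fun L hL =>
  let ⟨g, hg, e⟩ := h L hL
  InP.of_red h' hg.enc (fun x => by simp [mem_Lang, e])

theorem HardPS.np_eq [Dec α] {P : α → Prop} (h : HardPS P) (h' : InNP (Lang P)) :
    ∀ L, InPSPACE L → InNP L := fun L hL =>
  let ⟨g, hg, e⟩ := h L hL
  InNP.of_red h' hg.enc (fun x => by simp [mem_Lang, e])

abbrev Lit2 := Bool × ℕ × Bool

def Step (φ : List (List Lit2)) (u v : ℕ → Bool) : Prop :=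
  ∀ c ∈ φ, ∃ l ∈ c, (bif l.1 then v else u) l.2.1 = l.2.2

def Cube (I : List (ℕ × Bool)) (u : ℕ → Bool) : Prop := ∀ l ∈ I, u l.1 = l.2

/-- reachability in a graph on assignments whose edge relation is a formula -/
def SR (I : List (List Lit2) × List (ℕ × Bool) × List (ℕ × Bool)) : Prop :=
  ∃ u v, Cube I.2.1 u ∧ Relation.ReflTransGen (Step I.1) u v ∧ Cube I.2.2 v

def v3 (r j a : ℕ) : ℕ := Nat.pair r (Nat.pair j a)

def negP (r : Rule) : List Lit2 := r.1.map fun x => (false, v3 x.1 x.2.1 x.2.2, false)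

def stepCl (R : List Rule) (D A nK B : ℕ) : List (List Lit2) :=
  (R.flatMap fun r => r.2.1.map (fun x => (true, v3 x.1 x.2.1 x.2.2, true) :: negP r) ++
    r.2.2.flatMap fun x => (List.range B).flatMap fun j => (List.range A).map fun a =>
      (true, v3 x.1 (j + x.2) a, true) :: (false, v3 x.1 (j + D) a, false) :: negP r) ++
  (List.range nK).flatMap fun r => (List.range D).map fun j => [(true, v3 (r + 1) (B + j) 0, true)]

def Sup (nK W : ℕ) (u : ℕ → Bool) (s : ℕ → ℕ → ℕ) : Prop :=
  ∀ k j, k ≤ nK → (k = 0 → j = 0) → j < W → u (v3 k j (s k j)) = true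

lemma fwd {R : List Rule} {D A nK B : ℕ} {u v : ℕ → Bool} {s s' : ℕ → ℕ → ℕ}
    (h : Step (stepCl R D A nK B) u v) (hA : ∀ r j, r ≠ 0 → s' r j < A)
    (hB : ∀ r j, r ≠ 0 → B ≤ j → s' r j = 0)
    (H : ∃ r ∈ R, (∀ x ∈ r.1, x.1 ≤ nK ∧ (x.1 = 0 → x.2.1 = 0) ∧ x.2.1 < D ∧ s x.1 x.2.1 = x.2.2) ∧
      ∀ k j, k ≤ nK → (k = 0 → j = 0) → (k, j, s' k j) ∈ r.2.1 ∨
        ∃ len, k ≠ 0 ∧ (k, len) ∈ r.2.2 ∧ len ≤ j ∧ s' k j = s k (j - len + D))
    (h0 : Sup nK (B + D) u s) : Sup nK (B + D) v s' := by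
  intro k j h1 h2 h3
  obtain ⟨r, hr, hp, hc⟩ := H
  have hneg : ∀ l ∈ negP r, (bif l.1 then v else u) l.2.1 ≠ l.2.2 := by
    intro l hl
    obtain ⟨x, hx, rfl⟩ := List.mem_map.1 hl
    obtain ⟨a1, a2, a3, a4⟩ := hp x hx
    have := h0 x.1 x.2.1 a1 a2 (by omega)
    simp [← a4, this]
  by_cases hb : k ≠ 0 ∧ B ≤ j
  · obtain ⟨l, hl, e⟩ := h [(true, v3 k j 0, true)] (by
      simp only [stepCl, List.mem_flatMap, List.mem_range, List.mem_append, List.mem_map]
      exact Or.inr ⟨k - 1, by omega, j - B, by omega, by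
        rw [Nat.sub_add_cancel (by omega), Nat.add_sub_cancel' hb.2]⟩)
    rw [List.mem_singleton.1 hl] at e
    rwa [hB k j hb.1 hb.2]
  rcases hc k j h1 h2 with h' | ⟨len, hk, h', hl, e⟩
  · obtain ⟨l, hl, e⟩ := h ((true, v3 k j (s' k j), true) :: negP r) (by
      simp only [stepCl, List.mem_flatMap, List.mem_range, List.mem_append, List.mem_map]
      exact Or.inl ⟨r, hr, Or.inl ⟨_, h', rfl⟩⟩)
    rcases List.mem_cons.1 hl with rfl | hl
    · exact e
    · exact absurd e (hneg l hl)
  · obtain ⟨l, hl', e'⟩ := h ((true, v3 k (j - len + len) (s' k j), true) ::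
        (false, v3 k (j - len + D) (s' k j), false) :: negP r) (by
      simp only [stepCl, List.mem_flatMap, List.mem_range, List.mem_append, List.mem_map]
      exact Or.inl ⟨r, hr, Or.inr ⟨_, h', j - len, by omega, _, hA _ _ hk, rfl⟩⟩)
    rcases List.mem_cons.1 hl' with rfl | hl'
    · simpa [Nat.sub_add_cancel hl] using e'
    · rcases List.mem_cons.1 hl' with rfl | hl'
      · have := h0 k (j - len + D) h1 (fun h => absurd h hk) (by omega)
        rw [← e] at this
        simp [this] at e'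
      · exact absurd e' (hneg l hl')

open Classical in
noncomputable def tru (s : ℕ → ℕ → ℕ) (n : ℕ) : Bool := decide (∃ r j, n = v3 r j (s r j))

lemma tru_v3 (s : ℕ → ℕ → ℕ) (r j a : ℕ) : tru s (v3 r j a) = decide (a = s r j) := by
  rw [Bool.eq_iff_iff]
  simp only [tru, decide_eq_true_eq, v3, Nat.pair_eq_pair]
  constructor
  · rintro ⟨_, _, rfl, rfl, h⟩; exact h
  · intro h; exact ⟨r, j, rfl, rfl, h⟩

lemma bwd {R : List Rule} {D A nK B : ℕ} {s s' : ℕ → ℕ → ℕ}
    (hB : ∀ r j, r ≠ 0 → B ≤ j → s' r j = 0)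
    (H : ∀ r ∈ R, (∀ x ∈ r.1, s x.1 x.2.1 = x.2.2) → (∀ x ∈ r.2.1, s' x.1 x.2.1 = x.2.2) ∧
        ∀ x ∈ r.2.2, ∀ j, s' x.1 (j + x.2) = s x.1 (j + D)) :
    Step (stepCl R D A nK B) (tru s) (tru s') := by
  intro c hc
  simp only [stepCl, List.mem_flatMap, List.mem_range, List.mem_append, List.mem_map] at hc
  rcases hc with ⟨r, hr, hc⟩ | ⟨r, -, j, -, rfl⟩
  swap
  · exact ⟨_, List.mem_cons_self, by simp [tru_v3, hB]⟩
  by_cases hp : ∀ x ∈ r.1, s x.1 x.2.1 = x.2.2
  · obtain ⟨h1, h2⟩ := H r hr hp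
    rcases hc with ⟨x, hx, rfl⟩ | ⟨x, hx, j, -, a, -, rfl⟩
    · exact ⟨_, List.mem_cons_self, by simp [tru_v3, h1 x hx]⟩
    · by_cases ha : a = s x.1 (j + D)
      · exact ⟨_, List.mem_cons_self, by simp [tru_v3, h2 x hx, ha]⟩
      · exact ⟨_, List.mem_cons_of_mem _ List.mem_cons_self, by simp [tru_v3, ha]⟩
  · push Not at hp
    obtain ⟨x, hx, hp⟩ := hp
    have hm : (false, v3 x.1 x.2.1 x.2.2, false) ∈ negP r := List.mem_map.2 ⟨x, hx, rfl⟩
    have hv : tru s (v3 x.1 x.2.1 x.2.2) = false := by simp [tru_v3, hp.symm]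
    rcases hc with ⟨x, hx, rfl⟩ | ⟨x, hx, j, -, a, -, rfl⟩
    · exact ⟨_, List.mem_cons_of_mem _ hm, hv⟩
    · exact ⟨_, List.mem_cons_of_mem _ (List.mem_cons_of_mem _ hm), hv⟩

def srInst (R : List Rule) (D A A' nK r0 r1 c0 cH cF cT cR : ℕ) (x : List Bool) (B : ℕ) :
    List (List Lit2) × List (ℕ × Bool) × List (ℕ × Bool) :=
  (stepCl R D A nK B, (v3 0 0 c0, true) :: (List.range nK).flatMap fun r =>
      (List.range (B + D)).map fun j => (v3 (r + 1) j
        (bif r + 1 == r0 then (x.map fun b => bif b then cT else cF).getD j 0 else 0), true),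
    (v3 r1 0 cR, false) :: ((List.range A').filter (· != cH)).map fun a => (v3 0 0 a, false))

theorem sr_core (L : Language) (hL : InPSPACE L) : ∃ R D A A' nK r0 r1 c0 cH cF cT cR,
    ∃ p : ℕ[X], ∀ x, x ∈ L ↔ SR (srInst R D A A' nK r0 r1 c0 cH cF cT cR x (p.eval x.length)) := by
  classical
  obtain ⟨f, ⟨⟨tm, eI, eO⟩, hM⟩, p, hf, hsp⟩ := hL
  let _ := tm.kFin
  let _ := tm.ΛFin
  let _ := tm.σFin
  let _ := tm.Γk₀Fin
  set U : Set (Σ k, tm.Γ k) := (⋃ l, syms (tm.m l)) ∪ Set.range (Sigma.mk tm.k₀) ∪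
    Set.range (fun b => ⟨tm.k₁, eO.symm b⟩) with hUdef
  have hU : U.Finite := ((Set.finite_iUnion fun l => syms_finite _).union
    (Set.finite_range _)).union (Set.finite_range _)
  have hU1 : ∀ l, syms (tm.m l) ⊆ U := fun l x hx => Or.inl (Or.inl (Set.mem_iUnion.2 ⟨l, hx⟩))
  have hU2 : ∀ a, (⟨tm.k₀, a⟩ : Σ k, tm.Γ k) ∈ U := fun a => Or.inl (Or.inr ⟨a, rfl⟩)
  have hU3 : ∀ b, (⟨tm.k₁, eO.symm b⟩ : Σ k, tm.Γ k) ∈ U := fun b => Or.inr ⟨b, rfl⟩
  obtain ⟨cc, A, hc0, hcA, hcc⟩ := exists_code U hU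
  obtain ⟨lc, hlc⟩ := exists_injective_nat (Option tm.Λ × tm.σ)
  obtain ⟨A', hA'⟩ : ∃ A', ∀ z, lc z < A' := by
    obtain ⟨B, hB⟩ := (Set.finite_range lc).bddAbove
    exact ⟨B + 1, fun z => Nat.lt_succ_of_le (hB ⟨z, rfl⟩)⟩
  obtain ⟨R, D, hD0, hR⟩ := exists_system tm.m U hU lc hlc cc hcc
  refine ⟨R, D, A, A', Fintype.card tm.K, row tm.k₀, row tm.k₁,
    lc (some tm.main, tm.initialState), lc (none, tm.initialState),
    cc _ (some (eI.symm false)), cc _ (some (eI.symm true)), cc _ (some (eO.symm false)), p,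
    fun x => ?_⟩
  let C : ℕ → TM2.Cfg tm.Γ tm.Λ tm.σ := fun t => (next tm.m)^[t] (initList tm (x.map eI.symm))
  let s : ℕ → ℕ → ℕ → ℕ := fun t => snap lc cc (C t)
  have hi0 : ∀ L, (initList tm L).stk tm.k₀ = L := fun L => by simp [initList]
  have hi1 : ∀ L k, k ≠ tm.k₀ → (initList tm L).stk k = [] := fun L k hk => by
    simp [initList, hk]
  have hCs : ∀ t, C (t + 1) = next tm.m (C t) := fun t => iterate_succ_apply' _ _ _
  have hval : ∀ t k, ∀ a ∈ (C t).stk k, (⟨k, a⟩ : Σ k, tm.Γ k) ∈ U := by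
    intro t
    induction t with
    | zero =>
      intro k a ha
      by_cases hk : k = tm.k₀
      · subst hk; exact hU2 a
      · have : (C 0).stk k = [] := hi1 _ k hk
        simp [this] at ha
    | succ t ih => rw [hCs]; exact next_inv _ U hU1 _ ih
  have hrun : ∀ t, ∃ m, (flip bind (TM2.step tm.m))^[m] (some (C 0)) = some (C t) := by
    intro t
    induction t with
    | zero => exact ⟨0, rfl⟩
    | succ t ih =>
      obtain ⟨m, hm⟩ := ih
      rw [hCs]
      cases h : TM2.step tm.m (C t) with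
      | none => exact ⟨m, hm.trans (by simp [next, h])⟩
      | some c => exact ⟨m + 1, by rw [iterate_succ_apply', hm]; exact h.trans (by simp [next, h])⟩
  have hB : ∀ t r j, r ≠ 0 → p.eval x.length ≤ j → s t r j = 0 := by
    intro t r j hr hj
    simp only [s, snap, if_neg hr]
    split_ifs with h
    · obtain ⟨m, hm⟩ := hrun t
      rw [List.getElem?_eq_none ((hsp x m _ hm _).trans hj), hc0]
    · rfl
  have hA : ∀ t r j, r ≠ 0 → s t r j < A := fun t r j hr => by
    simp only [s, snap, if_neg hr]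
    split_ifs
    · exact hcA _ _
    · exact lt_of_le_of_lt (Nat.zero_le _) (hcA tm.k₀ none)
  obtain ⟨T, hT⟩ := hM x
  have h4 : C T = haltList tm [eO.symm (f x)] := next_iter tm.m T _ _ hT
  have hfin : s T (row tm.k₁) 0 = cc _ (some (eO.symm (f x))) := by
    simp only [s]
    rw [snap_row, h4]
    simp [haltList]
  have hs0 : ∀ r j, r < Fintype.card tm.K → s 0 (r + 1) j = bif r + 1 == row tm.k₀ then
      (x.map fun b => bif b then cc _ (some (eI.symm true)) else
        cc _ (some (eI.symm false))).getD j 0 else 0 := by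
    intro r j hr
    obtain ⟨k, hk⟩ := exists_row (K := tm.K) (r := r + 1) (by omega) hr
    rw [hk]
    simp only [s]
    rw [snap_row]
    by_cases e : k = tm.k₀
    · subst e
      have : (C 0).stk tm.k₀ = x.map eI.symm := hi0 _
      simp only [this, beq_self_eq_true, cond_true, List.getD_eq_getElem?_getD, List.getElem?_map]
      cases x[j]? with
      | none => exact hc0 _
      | some b => cases b <;> rfl
    · have : (C 0).stk k = [] := hi1 _ k e
      have e' : (row k == row tm.k₀) = false := by simpa using fun h => e (row_inj h)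
      simp [this, hc0, e']
  have hs2 : s 0 0 0 = lc (some tm.main, tm.initialState) := snap_zero _ _ _ _
  rw [hf]
  constructor
  · intro hx
    refine ⟨tru (s 0), tru (s T), ?_, ?_, ?_⟩
    · intro l hl
      simp only [srInst, List.mem_cons, List.mem_flatMap, List.mem_map, List.mem_range] at hl
      rcases hl with rfl | ⟨r, hr, j, -, rfl⟩
      · simp [tru_v3, hs2]
      · simp only [tru_v3, hs0 r j hr, decide_true]
    · generalize T = t
      induction t with
      | zero => exact .refl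
      | succ t ih =>
        exact ih.tail (bwd (hB _) (by simp only [s]; rw [hCs]; exact (hR _ (hval t)).2))
    · intro l hl
      simp only [srInst, List.mem_cons, List.mem_map, List.mem_filter, bne_iff_ne] at hl
      rcases hl with rfl | ⟨a, ⟨-, ha⟩, rfl⟩
      · simp only [tru_v3, hfin, hx, decide_eq_false_iff_not]
        intro e
        have := hcc _ _ _ (by simpa using hU3 _) (by simpa using hU3 _) e
        simp at this
      · simp only [tru_v3, s, snap_zero, h4, decide_eq_false_iff_not]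
        exact ha
  · rintro ⟨u, v, h1, h2, h3⟩
    obtain ⟨t, ht⟩ : ∃ t, Sup (Fintype.card tm.K) (p.eval x.length + D) v (s t) := by
      clear h3
      induction h2 with
      | refl =>
        refine ⟨0, fun k j a b c => ?_⟩
        cases k with
        | zero => rw [b rfl, hs2]; exact h1 _ List.mem_cons_self
        | succ k =>
          rw [hs0 k j a]
          refine h1 (_, true) ?_
          simp only [srInst, List.mem_cons, List.mem_flatMap, List.mem_map, List.mem_range]
          exact Or.inr ⟨k, a, j, c, rfl⟩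
      | tail _ h ih =>
        obtain ⟨t, ht⟩ := ih
        exact ⟨t + 1, fwd h (hA _) (hB _) (by simp only [s]; rw [hCs]; exact (hR _ (hval t)).1) ht⟩
    have a := ht 0 0 (by omega) (by omega) (by omega)
    have b : s t 0 0 = lc (none, tm.initialState) := by
      by_contra e
      have := h3 (v3 0 0 (s t 0 0), false) (by
        simp only [srInst, List.mem_cons, List.mem_map, List.mem_filter, bne_iff_ne, List.mem_range]
        exact Or.inr ⟨_, ⟨by simp only [s, snap_zero]; exact hA' _, e⟩, rfl⟩)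
      simp [a] at this
    have c : C t = C T := by
      have e := hlc ((snap_zero lc cc (C t) 0).symm.trans b)
      have e1 : next tm.m (C t) = C t := by
        generalize C t = c at e
        obtain ⟨l, v, S⟩ := c
        obtain rfl : l = none := (Prod.mk.inj e).1
        rfl
      have e2 : next tm.m (C T) = C T := by rw [h4]; rfl
      have e3 : C (t + T) = C t := (iter_add _ _ _ _).trans (iterate_fixed e1 T)
      have e4 : C (T + t) = C T := (iter_add _ _ _ _).trans (iterate_fixed e2 t)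
      rw [← e3, ← e4, add_comm]
    have d := ht (row tm.k₁) 0 (row_le _) (by omega) (by omega)
    have := h3 _ List.mem_cons_self
    simp only [s, c] at d hfin
    by_contra hfw
    simp only [Bool.not_eq_true] at hfw
    rw [hfin, hfw] at d
    simp [d] at this

theorem hardPS_sr : HardPS SR := fun L hL =>
  let ⟨_, _, _, _, _, _, _, _, _, _, _, _, _, h⟩ := sr_core L hL
  ⟨_, by unfold srInst stepCl negP v3; fun_prop, h⟩

abbrev Act := List (ℕ × ℕ) × List (ℕ × ℕ)

def app (σ : ℕ → ℕ) (e : List (ℕ × ℕ)) (i : ℕ) : ℕ :=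
  ((e.find? fun x => x.1 == i).map fun x => x.2).getD (σ i)

def PStep (A : List Act) (σ σ' : ℕ → ℕ) : Prop :=
  ∃ a ∈ A, (∀ x ∈ a.1, σ x.1 = x.2) ∧ σ' = app σ a.2

/-- planning: actions test and set variables; is the goal reachable from the zero state? -/
def Plan (I : List Act × List (ℕ × ℕ)) : Prop :=
  ∃ σ, Relation.ReflTransGen (PStep I.1) (fun _ => 0) σ ∧ ∀ x ∈ I.2, σ x.1 = x.2

def bit (t : Bool) (q : ℕ) : ℕ := 2 * q + 1 + t.toNat

def planActs (φ : List (List Lit2)) (I : List (ℕ × Bool)) (N : ℕ) : List Act :=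
  ((List.range N).flatMap fun q => [([(0, 0)], [(bit false q, 1)]), ([(0, 1)], [(bit true q, 0)]),
    ([(0, 1)], [(bit true q, 1)]),
    ([(0, 1 + φ.length + q), (bit true q, 0)], [(bit false q, 0), (0, 2 + φ.length + q)]),
    ([(0, 1 + φ.length + q), (bit true q, 1)], [(bit false q, 1), (0, 2 + φ.length + q)])]) ++
  ((List.range φ.length).flatMap fun i => (φ.getD i []).map fun l =>
    ([(0, 1 + i), (bit l.1 l.2.1, l.2.2.toNat)], [(0, 2 + i)])) ++
  [((0, 0) :: I.map fun l => (bit false l.1, l.2.toNat), [(0, 1)]),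
    ([(0, 1 + φ.length + N)], [(0, 1)])]

def planInst (I : List (List Lit2) × List (ℕ × Bool) × List (ℕ × Bool)) : List Act × List (ℕ × ℕ) :=
  (planActs I.1 I.2.1 (size I), (0, 1) :: I.2.2.map fun l => (bit false l.1, l.2.toNat))

lemma app1 (σ : ℕ → ℕ) (i a : ℕ) : app σ [(i, a)] = update σ i a := by
  funext j
  by_cases h : j = i
  · simp [app, h]
  · simp [app, h, Ne.symm h]

lemma app2 (σ : ℕ → ℕ) (i a j b : ℕ) : app σ [(i, a), (j, b)] = update (update σ j b) i a := by
  funext k
  by_cases h : k = i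
  · simp [app, h]
  · by_cases h' : k = j
    · subst h'; simp [app, h, Ne.symm h]
    · simp [app, h, h', Ne.symm h, Ne.symm h']

def lay (t : Bool) (σ : ℕ → ℕ) (q : ℕ) : Bool := σ (bit t q) == 1

lemma bit_ne (t q) : bit t q ≠ 0 := by unfold bit; omega
lemma bit_inj {t t' q q'} : bit t q = bit t' q' ↔ t = t' ∧ q = q' := by
  unfold bit; cases t <;> cases t' <;> simp <;> omega

lemma lay_up0 (t σ a) : lay t (update σ 0 a) = lay t σ := by funext q; simp [lay, bit_ne]
lemma lay_ne {t t'} (h : t ≠ t') (σ q a) : lay t (update σ (bit t' q) a) = lay t σ := by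
  funext q; simp [lay, bit_inj, h]
lemma lay_eq (t σ q) (b : Bool) : lay t (update σ (bit t q) b.toNat) = update (lay t σ) q b := by
  funext q'
  by_cases h : q' = q
  · subst h; cases b <;> simp [lay]
  · simp [lay, bit_inj, h]

lemma lay_of {t σ q} {b : Bool} (h : σ (bit t q) = b.toNat) : lay t σ q = b := by
  cases b <;> simp [lay, h]

lemma plan_iff (I : List (List Lit2) × List (ℕ × Bool) × List (ℕ × Bool)) :
    SR I ↔ Plan (planInst I) := by
  obtain ⟨φ, I, G⟩ := I
  set N := size (φ, I, G) with hN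
  have hφ : ∀ c ∈ φ, ∀ l ∈ c, l.2.1 < N := fun c hc ⟨a, b, d⟩ hl => by
    have := size_lt_of_mem hc
    have := size_lt_of_mem hl
    simp only [hN, size_pair, size_nat] at *; omega
  have hI : ∀ l ∈ I, l.1 < N := fun ⟨a, b⟩ hl => by
    have := size_lt_of_mem hl
    simp only [hN, size_pair, size_nat] at *; omega
  have hG : ∀ l ∈ G, l.1 < N := fun ⟨a, b⟩ hl => by
    have := size_lt_of_mem hl
    simp only [hN, size_pair, size_nat] at *; omega
  have mem : ∀ a, a ∈ planActs φ I N ↔ (∃ q < N, a = ([(0, 0)], [(bit false q, 1)]) ∨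
      a = ([(0, 1)], [(bit true q, 0)]) ∨ a = ([(0, 1)], [(bit true q, 1)]) ∨
      a = ([(0, 1 + φ.length + q), (bit true q, 0)], [(bit false q, 0), (0, 2 + φ.length + q)]) ∨
      a = ([(0, 1 + φ.length + q), (bit true q, 1)], [(bit false q, 1), (0, 2 + φ.length + q)])) ∨
      (∃ i < φ.length, ∃ l ∈ φ.getD i [],
        ([(0, 1 + i), (bit l.1 l.2.1, l.2.2.toNat)], [(0, 2 + i)]) = a) ∨
      a = ((0, 0) :: I.map fun l => (bit false l.1, l.2.toNat), [(0, 1)]) ∨
      a = ([(0, 1 + φ.length + N)], [(0, 1)]) := fun a => by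
    simp only [planActs, List.mem_append, List.mem_flatMap, List.mem_range, List.mem_map,
      List.mem_cons, List.not_mem_nil, or_false, or_assoc]
  constructor
  · rintro ⟨u, v, h1, h2, h3⟩
    have fill : ∀ (t : Bool) (c : ℕ → ℕ) (w : ℕ → Bool) (σ : ℕ → ℕ) (n : ℕ), σ 0 = c 0 →
        (∀ q < n, ∀ τ, τ 0 = c q → (∀ i, i ≠ 0 → (∀ q, i ≠ bit t q) → τ i = σ i) →
          τ (bit t q) = σ (bit t q) → Relation.ReflTransGen (PStep (planActs φ I N)) τ
            (update (update τ 0 (c (q + 1))) (bit t q) (w q).toNat)) →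
        ∃ τ, Relation.ReflTransGen (PStep (planActs φ I N)) σ τ ∧ τ 0 = c n ∧
          (∀ i, i ≠ 0 → (∀ q < n, i ≠ bit t q) → τ i = σ i) ∧ ∀ q < n, τ (bit t q) = (w q).toNat := by
      intro t c w σ n h0 h
      induction n with
      | zero => exact ⟨σ, .refl, h0, fun _ _ _ => rfl, by simp⟩
      | succ n ih =>
        obtain ⟨τ, a, b, d, e⟩ := ih (fun q hq => h q (by omega))
        refine ⟨_, a.trans (h n (by omega) τ b (fun i h1 h2 => d i h1 (fun q _ => h2 q))
          (d _ (bit_ne _ _) (fun q hq => by simp [bit_inj]; omega))), by simp [(bit_ne _ _).symm],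
          fun i h1 h2 => ?_, fun q hq => ?_⟩
        · rw [update_of_ne (h2 n (by omega)), update_of_ne h1]
          exact d i h1 (fun q hq => h2 q (by omega))
        · by_cases hq' : q = n
          · simp [hq']
          · rw [update_of_ne (by simp [bit_inj, hq']), update_of_ne (bit_ne _ _)]
            exact e q (by omega)
    suffices ∃ σ, Relation.ReflTransGen (PStep (planActs φ I N)) (fun _ => 0) σ ∧ σ 0 = 1 ∧
        ∀ q < N, σ (bit false q) = (v q).toNat by
      obtain ⟨σ, a, b, c⟩ := this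
      refine ⟨σ, a, fun x hx => ?_⟩
      simp only [planInst, List.mem_cons, List.mem_map] at hx
      rcases hx with rfl | ⟨l, hl, rfl⟩
      · exact b
      · rw [← h3 l hl]; exact c _ (hG l hl)
    clear h3
    induction h2 with
    | refl =>
      obtain ⟨τ, a, b, -, d⟩ := fill false (fun _ => 0) u (fun _ => 0) N rfl (fun q hq τ h0 _ h => by
        rw [show update τ 0 0 = τ from update_eq_self_iff.2 h0.symm]
        cases u q
        · rw [show false.toNat = τ (bit false q) from h.symm, update_eq_self]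
        · exact .single ⟨_, (mem _).2 (Or.inl ⟨q, hq, Or.inl rfl⟩), by simpa using h0,
            (app1 _ _ _).symm⟩)
      refine ⟨_, a.tail ⟨_, (mem _).2 (Or.inr (Or.inr (Or.inl rfl))), fun x hx => ?_, rfl⟩,
        by simp [app1], fun q hq => by simp [app1, bit_ne, d q hq]⟩
      simp only [List.mem_cons, List.mem_map] at hx
      rcases hx with rfl | ⟨l, hl, rfl⟩
      · exact b
      · rw [← h1 l hl]; exact d _ (hI l hl)
    | @tail v' v _ h ih =>
      obtain ⟨σ, a, b, c⟩ := ih
      obtain ⟨τ, a1, b1, c1, d1⟩ := fill true (fun _ => 1) v σ N b (fun q hq τ h0 _ _ => by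
        rw [show update τ 0 1 = τ from update_eq_self_iff.2 h0.symm]
        cases v q
        · exact .single ⟨_, (mem _).2 (Or.inl ⟨q, hq, Or.inr (Or.inl rfl)⟩), by simpa using h0,
            (app1 _ _ _).symm⟩
        · exact .single ⟨_, (mem _).2 (Or.inl ⟨q, hq, Or.inr (Or.inr (Or.inl rfl))⟩),
            by simpa using h0, (app1 _ _ _).symm⟩)
      have a2 : ∀ i ≤ φ.length, Relation.ReflTransGen (PStep (planActs φ I N)) τ
          (update τ 0 (1 + i)) := by
        intro i hi
        induction i with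
        | zero => rw [add_zero, ← b1, update_eq_self]
        | succ i ih =>
          have hm : φ.getD i [] ∈ φ := by
            rw [List.getD_eq_getElem _ _ hi]; exact List.getElem_mem _
          obtain ⟨l, hl, e⟩ := h _ hm
          refine (ih (by omega)).tail ⟨_, (mem _).2 (Or.inr (Or.inl ⟨i, hi, l, hl, rfl⟩)), ?_, ?_⟩
          · simp only [List.mem_cons, List.not_mem_nil, or_false, forall_eq_or_imp, forall_eq,
              update_self, true_and, update_of_ne (bit_ne _ _), ← e]
            have := hφ _ hm l hl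
            cases l.1
            · rw [c1 _ (bit_ne _ _) (by simp [bit_inj])]; exact c _ this
            · exact d1 _ this
          · rw [app1, update_idem]; congr 1; omega
      obtain ⟨ρ, a3, b3, -, d3⟩ := fill false (fun q => 1 + φ.length + q) v
        (update τ 0 (1 + φ.length)) N (by simp) (fun q hq ρ h0 h' _ => by
          have e := h' _ (bit_ne true q) (by simp [bit_inj])
          rw [update_of_ne (bit_ne _ _), d1 q hq] at e
          cases hv : v q <;> rw [hv] at e
          · exact .single ⟨_, (mem _).2 (Or.inl ⟨q, hq, Or.inr (Or.inr (Or.inr (Or.inl rfl)))⟩),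
              by simpa using ⟨h0, e⟩, by rw [app2]; congr 2; omega⟩
          · exact .single ⟨_, (mem _).2 (Or.inl ⟨q, hq, Or.inr (Or.inr (Or.inr (Or.inr rfl)))⟩),
              by simpa using ⟨h0, e⟩, by rw [app2]; congr 2; omega⟩)
      exact ⟨_, (((a.trans a1).trans (a2 _ le_rfl)).trans a3).tail
        ⟨_, (mem _).2 (Or.inr (Or.inr (Or.inr rfl))), by simpa using b3, rfl⟩, by simp [app1],
        fun q hq => by simp [app1, bit_ne, d3 q hq]⟩
  · rintro ⟨σ, h1, h2⟩
    let Re : (ℕ → Bool) → Prop := fun w => ∃ u v, Cube I u ∧ Relation.ReflTransGen (Step φ) u v ∧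
      ∀ q < N, w q = v q
    suffices σ 0 = 0 ∨ (∃ i ≤ φ.length, σ 0 = 1 + i ∧ Re (lay false σ) ∧ ∀ j < i,
        ∃ l ∈ φ.getD j [], (bif l.1 then lay true σ else lay false σ) l.2.1 = l.2.2) ∨
        (∃ q ≤ N, σ 0 = 1 + φ.length + q ∧ 0 < q ∧ Re (lay true σ) ∧
          ∀ j < q, lay false σ j = lay true σ j) by
      have e : σ 0 = 1 := h2 _ List.mem_cons_self
      rcases this with h | ⟨i, -, -, ⟨u, v, a, b, c⟩, -⟩ | ⟨q, -, h, h', -⟩
      · omega
      · refine ⟨u, v, a, b, fun l hl => ?_⟩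
        rw [← c _ (hG l hl)]
        exact lay_of (h2 (_, _) (List.mem_cons_of_mem _ (List.mem_map_of_mem hl)))
      · omega
    clear h2
    induction h1 with
    | refl => exact Or.inl rfl
    | @tail σ σ' _ h ih =>
      obtain ⟨a, ha, hp, rfl⟩ := h
      have cp : ∀ q < N, ∀ b : Bool, σ 0 = 1 + φ.length + q → σ (bit true q) = b.toNat →
          ∃ q' ≤ N, app σ [(bit false q, b.toNat), (0, 2 + φ.length + q)] 0 = 1 + φ.length + q' ∧
            0 < q' ∧ Re (lay true (app σ [(bit false q, b.toNat), (0, 2 + φ.length + q)])) ∧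
            ∀ j < q', lay false (app σ [(bit false q, b.toNat), (0, 2 + φ.length + q)]) j =
              lay true (app σ [(bit false q, b.toNat), (0, 2 + φ.length + q)]) j := by
        intro q hq b e1 e2
        rw [app2, lay_ne (by simp), lay_eq, lay_up0, lay_up0]
        have : Re (lay true σ) ∧ ∀ j < q, lay false σ j = lay true σ j := by
          rcases ih with h | ⟨i, hi, h, ⟨u, v, a, b, c⟩, d⟩ | ⟨q', -, h, -, h'⟩
          · omega
          · refine ⟨⟨u, _, a, b.tail (fun x hx => ?_), fun _ _ => rfl⟩, by omega⟩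
            obtain ⟨j, hj, rfl⟩ := List.getElem_of_mem hx
            obtain ⟨l, hl, e⟩ := d j (by omega)
            rw [List.getD_eq_getElem _ _ hj] at hl
            refine ⟨l, hl, ?_⟩
            rw [← e]
            cases l.1
            · exact (c _ (hφ _ hx l hl)).symm
            · rfl
          · rwa [show q = q' by omega]
        refine ⟨q + 1, hq, by simp [(bit_ne _ _).symm]; omega, by omega, this.1, fun j hj => ?_⟩
        by_cases e : j = q
        · rw [e, update_self, lay_of e2]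
        · rw [update_of_ne e]; exact this.2 j (by omega)
      have gs : ∀ q a, σ 0 = 1 → ∃ i ≤ φ.length, app σ [(bit true q, a)] 0 = 1 + i ∧
          Re (lay false (app σ [(bit true q, a)])) ∧ ∀ j < i, ∃ l ∈ φ.getD j [],
          (bif l.1 then lay true (app σ [(bit true q, a)]) else
            lay false (app σ [(bit true q, a)])) l.2.1 = l.2.2 := by
        intro q a e
        rw [app1, lay_ne (by simp)]
        rcases ih with h | ⟨i, hi, h, h', -⟩ | ⟨q', -, h, h0, -⟩
        · omega
        · exact ⟨0, by omega, by simp [(bit_ne _ _).symm, e], h', by simp⟩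
        · omega
      rcases (mem a).1 ha with ⟨q, hq, rfl | rfl | rfl | rfl | rfl⟩ | ⟨i, hi, l, hl, rfl⟩ | rfl | rfl <;>
        simp only [List.mem_cons, List.not_mem_nil, or_false, forall_eq_or_imp, forall_eq] at hp
      · exact Or.inl (by simp [app1, (bit_ne _ _).symm, hp])
      · exact Or.inr (Or.inl (gs _ _ hp))
      · exact Or.inr (Or.inl (gs _ _ hp))
      · exact Or.inr (Or.inr (cp q hq false hp.1 hp.2))
      · exact Or.inr (Or.inr (cp q hq true hp.1 hp.2))
      · rw [app1, lay_up0, lay_up0]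
        rcases ih with h | ⟨i', hi', h, h', d⟩ | ⟨q', -, h, -, h'⟩
        · omega
        · refine Or.inr (Or.inl ⟨i + 1, hi, by simp; omega, h', fun j hj => ?_⟩)
          by_cases e : j = i
          · refine ⟨l, e ▸ hl, ?_⟩
            have := lay_of hp.2
            revert this
            cases l.1 <;> exact id
          · exact d j (by omega)
        · omega
      · rw [app1, lay_up0, lay_up0]
        exact Or.inr (Or.inl ⟨0, by omega, by simp, ⟨_, _, fun l hl =>
          lay_of (hp.2 (_, _) (List.mem_map_of_mem hl)), .refl, fun _ _ => rfl⟩, by simp⟩)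
      · rw [app1, lay_up0, lay_up0]
        have := size_pos (φ, I, G)
        rcases ih with h | ⟨i', hi', h, h', d⟩ | ⟨q', -, h, -, ⟨u, v, a, b, c⟩, d⟩
        · omega
        · omega
        · exact Or.inr (Or.inl ⟨0, by omega, by simp, ⟨u, v, a, b, fun q hq =>
            (d q (by omega)).trans (c q hq)⟩, by simp⟩)

theorem hardPS_plan : HardPS Plan :=
  hardPS_sr.red (by unfold planInst planActs bit; fun_prop) plan_iff

end Pool.Agent.Cx
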