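import Pool.Agent.Lib.helper10.NPSim
import Pool.Agent.Lib.helper9.PSDefs

/-! Membership in PSPACE: iteration of a polynomial-time step, games, reachability. -/

namespace Pool.Agent.Cx

open Function Polynomial Turing

section grow
variable {K : Type} [DecidableEq K] {Γ : K → Type} {Λ σ : Type}

lemma len_aux (q : TM2.Stmt Γ Λ σ) : ∀ (v : σ) (S : ∀ k, List (Γ k)) (k : K),
    ((TM2.stepAux q v S).stk k).length ≤ (S k).length + depth q := by
  induction q with
  | push k f q ih =>
    intro v S k'
    refine (ih _ _ k').trans ?_
    by_cases hk : k' = k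
    · subst hk; simp [depth]; omega
    · simp [depth, hk]
  | peek k f q ih => intro v S k'; exact (ih _ _ k').trans (by simp [depth])
  | pop k f q ih =>
    intro v S k'
    refine (ih _ _ k').trans ?_
    by_cases hk : k' = k
    · subst hk; simp [depth]; omega
    · simp [depth, hk]
  | load f q ih => intro v S k; exact ih _ _ k
  | branch f q₁ q₂ ih₁ ih₂ =>
    intro v S k
    simp only [TM2.stepAux]
    cases f v
    · exact (ih₂ _ _ k).trans (by simp [depth])
    · exact (ih₁ _ _ k).trans (by simp [depth])
  | goto f => intro v S k; simp [TM2.stepAux]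
  | halt => intro v S k; simp [TM2.stepAux]

lemma len_iter (M : Λ → TM2.Stmt Γ Λ σ) {D : ℕ} (hD : ∀ l, depth (M l) ≤ D) (n : ℕ) :
    ∀ (a b : TM2.Cfg Γ Λ σ), (flip bind (TM2.step M))^[n] (some a) = some b →
      ∀ k, (b.stk k).length ≤ (a.stk k).length + n * D := by
  induction n with
  | zero => intro a b h k; simp at h; simp [h]
  | succ n ih =>
    rintro ⟨l, v, S⟩ b h k
    cases l with
    | none =>
      rw [iterate_succ_apply] at h
      have e : (flip bind (TM2.step M)) (some ⟨none, v, S⟩) = none := rfl
      rw [e, iterate_fixed (by rfl)] at h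
      simp at h
    | some l =>
      rw [iter_step _ n _ _ (show TM2.step M ⟨some l, v, S⟩ = some (TM2.stepAux (M l) v S) from rfl)]
        at h
      have := ih _ _ h k
      have := len_aux (M l) v S k
      have := hD l
      simp only
      nlinarith

/-- the run from `c` reaches `z` and keeps all stacks short -/
def Fine (M : Λ → TM2.Stmt Γ Λ σ) (B : ℕ) (z c : TM2.Cfg Γ Λ σ) : Prop :=
  (∃ n, (flip bind (TM2.step M))^[n] (some c) = some z) ∧
    ∀ n c', (flip bind (TM2.step M))^[n] (some c) = some c' → ∀ k, (c'.stk k).length ≤ B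

lemma Fine.back {M : Λ → TM2.Stmt Γ Λ σ} {D B T : ℕ} (hD : ∀ l, depth (M l) ≤ D)
    {z c c1 : TM2.Cfg Γ Λ σ} (h : (flip bind (TM2.step M))^[T] (some c) = some c1)
    (h1 : Fine M B z c1) (h2 : ∀ k, (c.stk k).length + T * D ≤ B) : Fine M B z c := by
  obtain ⟨⟨n, hn⟩, h3⟩ := h1
  refine ⟨⟨T + n, by rw [iter_add, h, hn]⟩, fun m c' hm k => ?_⟩
  rcases le_total m T with hle | hle
  · have := len_iter M hD m _ _ hm k
    have := h2 k
    have := Nat.mul_le_mul_right D hle
    omega
  · obtain ⟨d, rfl⟩ := Nat.exists_eq_add_of_le hle
    rw [iter_add, h] at hm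
    exact h3 _ _ hm k

lemma Fine.halt {M : Λ → TM2.Stmt Γ Λ σ} {B : ℕ} (v : σ) (S : ∀ k, List (Γ k))
    (h : ∀ k, (S k).length ≤ B) : Fine M B ⟨none, v, S⟩ ⟨none, v, S⟩ := by
  refine ⟨⟨0, rfl⟩, fun n c' hn k => ?_⟩
  cases n with
  | zero => simp at hn; subst hn; exact h k
  | succ n =>
    rw [iterate_succ_apply] at hn
    have e : (flip bind (TM2.step M)) (some ⟨none, v, S⟩) = none := rfl
    rw [e, iterate_fixed (by rfl)] at hn
    simp at hn

end grow

def flagTest (N : ℕ) : Prog :=
  .seq (.pop 0) (.ite 0 .skip (.seq (.pop N) (.push 0 true)) (.push 0 true))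

variable {α β γ : Type} [Enc α] [Enc β] [Enc γ]

def stOf (N : ℕ) (c : Bool) (y : List Bool) : St :=
  update (update (fun _ => []) N (bif c then [true] else [])) 0 y

lemma flag_run {N : ℕ} (hN : N ≠ 0) (c : Bool) (b : β) :
    RunLe (flagTest N) (stOf N true (enc (c, b))) (stOf N c (enc (c, b))) 4 := by
  cases c
  · have e : enc false = [false] := rfl
    refine RunLe.of_eq ((Run.pop 0 _).le.seq (RunLe.iteF (by simp [stOf, enc_pair, e])
      ((Run.pop N _).le.seq (Run.push 0 true _).le))) ?_
    funext i
    by_cases h0 : i = 0
    · subst h0; simp [stOf, enc_pair, hN.symm]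
    · by_cases h1 : i = N
      · subst h1; simp [stOf, h0]
      · simp [stOf, h0, h1]
  · have e : enc true = [true, false, false] := rfl
    refine (RunLe.of_eq ((Run.pop 0 _).le.seq (RunLe.iteT (by simp [stOf, enc_pair, e])
      (Run.push 0 true _).le)) ?_).mono (by omega)
    simp [stOf, enc_pair]

lemma Comp.stOf {P : Prog} {N N' : ℕ} {x y : List Bool} {n : ℕ} (h : Comp P N x y n) (hN : N ≤ N')
    (c : Bool) : RunLe P (stOf N' c x) (stOf N' c y) n := by
  have := h (Cx.stOf N' c x) (by simp [Cx.stOf]) (fun i h1 h2 => by
    simp [Cx.stOf, show i ≠ 0 by omega, show i ≠ N' by omega])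
  unfold Cx.stOf at *
  rwa [update_idem] at this

lemma stOf_len (N : ℕ) (c : Bool) (y : List Bool) (i : ℕ) : (stOf N c y i).length ≤ y.length + 1 := by
  unfold stOf
  by_cases h0 : i = 0
  · simp [h0]
  · by_cases h1 : i = N
    · subst h1; cases c <;> simp [h0]
    · simp [h0, h1]

lemma restr_stOf (M N : ℕ) (y : List Bool) : restr M (stOf N false y) =
    fun k => @dite (List Bool) (k = (0 : Fin (M + 1))) (instDecidableEqFin _ _ _)
      (fun _ => y) (fun _ => []) := by
  funext k
  by_cases hk : k = 0
  · subst hk; simp [restr, stOf]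
  · have : k.val ≠ 0 := fun e => hk (Fin.ext e)
    simp [restr, stOf, hk, this]

theorem inPSPACE_iter {init : List Bool → β} {g : β → β} {go acc : β → Bool} (hi : PT init)
    (hg : PT g) (hgo : PT go) (hacc : PT acc) (p : ℕ[X]) {L : Language}
    (h1 : ∀ x n, size (g^[n] (init x)) ≤ p.eval x.length)
    (h2 : ∀ x, ∃ n, go (g^[n] (init x)) = false ∧ (∀ m < n, go (g^[m] (init x)) = true) ∧
      (x ∈ L ↔ acc (g^[n] (init x)) = true)) : InPSPACE L := by
  classical
  obtain ⟨PI, N1, q1, hI⟩ : PTe (fun x : List Bool => x) enc (fun x => (go (init x), init x)) :=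
    PTe.comp (g := fun x => (go (init x), init x)) (show PT _ by fun_prop) PTe.raw
  obtain ⟨PG, N2, q2, hG⟩ : PT (fun z : Bool × β => (go (g z.2), g z.2)) := by fun_prop
  obtain ⟨PF, N3, q3, hF⟩ : PTe enc (fun b : Bool => [b]) (fun z : Bool × β => acc z.2) :=
    PTe.comp (g := fun b : Bool => b) PTe.outBool (show PT (fun z : Bool × β => acc z.2) by fun_prop)
  set N := N1 + N2 + N3 + 1 with hN
  let B : Prog := .seq PG (flagTest N)
  let P : Prog := .seq (.seq PI (.seq (.push N true) (flagTest N))) (.seq (.loop N B) PF)
  let M := code P.top P (fun x => x) .halt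
  have := (labFin P).finite
  obtain ⟨D, hD⟩ : ∃ D, ∀ l, depth (M l) ≤ D := by
    obtain ⟨B, hB⟩ := (Set.finite_range (fun l => depth (M l))).bddAbove
    exact ⟨B, fun l => hB ⟨l, rfl⟩⟩
  choose n hn1 hn2 hn3 using h2
  let r : ℕ[X] := p + C 4
  let bd : ℕ[X] := X + r + C 2 + (q1 + q2.comp r + q3.comp r + C 6) * C D
  have hs : ∀ x m c, (enc (c, g^[m] (init x))).length ≤ r.eval x.length := fun x m c => by
    have := h1 x m
    have := size_bool c
    have := size_pair c (g^[m] (init x))
    simp only [r, eval_add, eval_C]
    unfold size at *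
    omega
  have top : N ≤ P.top ∧ B.top ≤ P.top ∧ (Prog.seq (.loop N B) PF).top ≤ P.top ∧
      (Prog.seq PI (.seq (.push N true) (flagTest N))).top ≤ P.top := by
    simp only [P, Prog.top]; omega
  have key : ∀ x, Fine M (bd.eval x.length)
      ⟨none, none, restr P.top (stOf N false [acc (g^[n x] (init x))])⟩
      ⟨some (entry P), none, restr P.top (stOf N false x)⟩ := by
    intro x
    have loop : ∀ j m, m + j = n x → Fine M (bd.eval x.length)
        ⟨none, none, restr P.top (stOf N false [acc (g^[n x] (init x))])⟩
        ⟨some (Sum.inr (Sum.inl none)), none, restr P.top (stOf N (go (g^[m] (init x)))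
          (enc (go (g^[m] (init x)), g^[m] (init x))))⟩ := by
      intro j
      induction j with
      | zero =>
        intro m hm
        obtain rfl : m = n x := hm
        rw [hn1]
        obtain ⟨t, ht, hr⟩ := (hF (false, g^[n x] (init x))).stOf (N' := N) (by omega) false
        have := sim P.top M (Run.seq (Run.loopN (r := N) (p := B) (by simp [stOf, hN])) hr)
          top.2.2.1 Sum.inr .halt (fun _ => rfl)
        refine Fine.back hD this (Fine.halt _ _ fun k => (stOf_len _ _ _ _).trans ?_) fun k => ?_
        · simp only [bd, eval_add, eval_C, List.length_singleton]; omega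
        · have a := stOf_len N false (enc (false, g^[n x] (init x))) k
          have b := hs x (n x) false
          have c := eval_mono q3 b
          have d := Nat.mul_le_mul_right D (show 1 + t ≤ q1.eval x.length +
            q2.eval (r.eval x.length) + q3.eval (r.eval x.length) + 6 by omega)
          simp only [bd, eval_add, eval_C, eval_mul, eval_comp, eval_X, restr]
          omega
      | succ j ih =>
        intro m hm
        rw [hn2 x m (by omega)]
        obtain ⟨t, ht, hr⟩ := ((hG (true, g^[m] (init x))).stOf (N' := N) (by omega) true).seq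
          (flag_run (by omega) _ _)
        have e := sim P.top M hr top.2.1 (fun l => Sum.inr (Sum.inl (some l)))
          (.goto fun _ => Sum.inr (Sum.inl none)) (fun _ => rfl)
        have e' : (flip bind (TM2.step M))^[t + 1] (some ⟨some (Sum.inr (Sum.inl none)), none,
            restr P.top (stOf N true (enc (true, g^[m] (init x))))⟩) =
            some ⟨some (Sum.inr (Sum.inl none)), none, restr P.top (stOf N (go (g (g^[m] (init x))))
              (enc (go (g (g^[m] (init x))), g (g^[m] (init x)))))⟩ := by
          refine Eq.trans ?_ e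
          rw [iter_tm]
          have : restr P.top (stOf N true (enc (true, g^[m] (init x)))) (reg P.top N) = [true] := by
            rw [restr_reg top.1]; simp [stOf, hN]
          simp only [M, P, code, TM2.stepAux, this]
          rfl
        have ih' := ih (m + 1) (by omega)
        rw [iterate_succ_apply'] at ih'
        refine Fine.back hD e' ih' fun k => ?_
        have a := stOf_len N true (enc (true, g^[m] (init x))) k
        have b := hs x m true
        have c := eval_mono q2 b
        have d := Nat.mul_le_mul_right D (show t + 1 ≤ q1.eval x.length +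
          q2.eval (r.eval x.length) + q3.eval (r.eval x.length) + 6 by omega)
        simp only [bd, eval_add, eval_C, eval_mul, eval_comp, eval_X, restr]
        omega
    have e0 : update (stOf N false (enc (go (init x), init x))) N
        (true :: stOf N false (enc (go (init x), init x)) N) =
        stOf N true (enc (go (init x), init x)) := by
      funext i
      by_cases h1 : i = N
      · subst h1; simp [stOf, hN]
      · have : N ≠ 0 := by omega
        rw [update_of_ne h1]
        by_cases h0 : i = 0 <;> simp [stOf, h0, h1]
    obtain ⟨t, ht, hr⟩ := ((hI x).stOf (N' := N) (by omega) false).seq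
      (((Run.push N true _).le.of_eq e0).seq (flag_run (by omega) _ _))
    have e := sim P.top M hr top.2.2.2 Sum.inl
      (.goto fun _ => Sum.inr (Sum.inl none)) (fun _ => rfl)
    refine Fine.back hD e (loop (n x) 0 (by omega)) fun k => ?_
    have a := stOf_len N false x k
    dsimp only at ht
    have d := Nat.mul_le_mul_right D (show t ≤ q1.eval x.length +
      q2.eval (r.eval x.length) + q3.eval (r.eval x.length) + 6 by omega)
    simp only [bd, eval_add, eval_C, eval_mul, eval_comp, eval_X, restr]
    omega
  simp only [restr_stOf] at key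
  have e2 : ∀ y : List Bool, List.map (Equiv.refl Bool).invFun y = y := fun y => List.map_id y
  refine ⟨fun x => acc (g^[n x] (init x)),
    { tm := machine P, inputAlphabet := Equiv.refl _, outputAlphabet := Equiv.refl _,
      outputsFun := fun x => ⟨(key x).1.choose, ?_⟩ }, bd, hn3, fun x m c hc k => ?_⟩
  · have := (key x).1.choose_spec
    generalize (key x).1.choose = m at this ⊢
    have k2 : ∀ x x' y y' : List Bool, x' = x → y' = y →
        (flip bind (machine P).step)^[m] (some (initList (machine P) x)) =
          Option.map (haltList (machine P)) (some y) →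
        (flip bind (machine P).step)^[m] (some (initList (machine P) x')) =
          Option.map (haltList (machine P)) (some y') := by
      intro x x' y y' h1 h2 h; subst h1 h2; exact h
    exact k2 _ _ _ _ (e2 _) (e2 _) this
  · have k2 : ∀ x x' : List Bool, x' = x →
        (flip bind (machine P).step)^[m] (some (initList (machine P) x')) = some c →
        (flip bind (machine P).step)^[m] (some (initList (machine P) x)) = some c := by
      intro x x' h1 h; subst h1; exact h
    exact (key x).2 m c (k2 _ _ (e2 _) hc) k

end Pool.Agent.Cx
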