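import Mathlib

/-! Parallelotopes: facets, vertices of cross-polytopes, largest simplices in cubes. -/

namespace Pool.Agent.Par

open Matrix Finset Filter Topology

variable {n : ℕ}

lemma vertex {v : Fin n → Fin n → ℝ} {g t a : Fin n → ℝ} {m : ℝ} (hg : g = ∑ k, t k • v k)
    (ht : ∀ k, 0 ≤ t k) (h1 : ∑ k, t k ≤ 1) (hm : m = ∑ k, t k * a k) (h0 : 0 < m)
    (h : ∀ k, a k ≤ m ∧ (m ≤ a k → v k ⬝ᵥ v k ≤ g ⬝ᵥ g)) : ∃ k, g = v k := by
  by_contra! hc
  have e1 : ∑ k, t k * (m - a k) = m * ∑ k, t k - m := by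
    simp only [mul_sub, sum_sub_distrib, ← hm, mul_sum, mul_comm]
  have p1 : ∀ k ∈ univ, 0 ≤ t k * (m - a k) := fun k _ => mul_nonneg (ht k) (sub_nonneg.2 (h k).1)
  have s1 := sum_nonneg p1
  have s2 : ∑ k, t k = 1 := le_antisymm h1 (by nlinarith)
  have z1 := (sum_eq_zero_iff_of_nonneg p1).1 (by rw [e1, s2]; ring)
  have p2 : ∀ k ∈ univ, t k * (v k ⬝ᵥ v k) ≤ t k * (g ⬝ᵥ g) := fun k hk => by
    rcases mul_eq_zero.1 (z1 k hk) with e | e
    · simp [e]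
    · exact mul_le_mul_of_nonneg_left ((h k).2 (by linarith)) (ht k)
  have s3 := sum_le_sum p2
  rw [← sum_mul, s2] at s3
  have e2 : ∑ k, t k * (g ⬝ᵥ v k) = g ⬝ᵥ g := by
    conv_rhs => enter [2]; rw [hg]
    simp [dotProduct_sum]
  have e3 : ∑ k, t k * ((g - v k) ⬝ᵥ (g - v k)) = ∑ k, t k * (v k ⬝ᵥ v k) - g ⬝ᵥ g := by
    simp only [sub_dotProduct, dotProduct_sub, dotProduct_comm (v _) g, mul_sub, sum_sub_distrib,
      e2, ← sum_mul, s2]
    ring
  have p3 : ∀ k ∈ univ, 0 ≤ t k * ((g - v k) ⬝ᵥ (g - v k)) := fun k _ =>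
    mul_nonneg (ht k) (sum_nonneg fun _ _ => mul_self_nonneg _)
  have z3 := (sum_eq_zero_iff_of_nonneg p3).1 (le_antisymm (by linarith) (sum_nonneg p3))
  have : ∀ k ∈ univ, t k = 0 := fun k hk => (mul_eq_zero.1 (z3 k hk)).resolve_right fun e =>
    hc k (sub_eq_zero.1 (dotProduct_self_eq_zero.1 e))
  simp [sum_eq_zero this] at s2

/-- the image of the unit cube -/
def par (c : Fin n → ℝ) (T : Matrix (Fin n) (Fin n) ℝ) : Set (Fin n → ℝ) :=
  (fun t => c + T *ᵥ t) '' Set.Icc 0 1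

lemma mem_par {c : Fin n → ℝ} {T : Matrix (Fin n) (Fin n) ℝ} (hT : T.det ≠ 0) {t : Fin n → ℝ} :
    c + T *ᵥ t ∈ par c T ↔ ∀ i, 0 ≤ t i ∧ t i ≤ 1 := by
  constructor
  · rintro ⟨s, hs, e⟩
    rw [← mulVec_injective_of_isUnit ((isUnit_iff_isUnit_det _).2 hT.isUnit) (add_left_cancel e)]
    exact fun i => ⟨hs.1 i, hs.2 i⟩
  · exact fun h => ⟨t, ⟨fun i => (h i).1, fun i => (h i).2⟩, rfl⟩

lemma ex_t (c : Fin n → ℝ) {T : Matrix (Fin n) (Fin n) ℝ} (hT : T.det ≠ 0) (x : Fin n → ℝ) :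
    ∃ t, x = c + T *ᵥ t :=
  ⟨T⁻¹ *ᵥ (x - c), by rw [mulVec_mulVec, mul_nonsing_inv _ hT.isUnit]; simp⟩

lemma facet {ι : Type} {R : List ι} {a : ι → Fin n → ℝ} {b : ι → ℝ} {c : Fin n → ℝ}
    {T : Matrix (Fin n) (Fin n) ℝ} (hT : T.det ≠ 0)
    (hP : {x | ∀ r ∈ R, a r ⬝ᵥ x ≤ b r} = par c T) (j : Fin n) {σ : ℝ} (hσ : σ = 1 ∨ σ = -1) :
    ∃ r ∈ R, ∃ s, 0 < s ∧ a r ᵥ* T = Pi.single j (σ * s) ∧ b r = a r ⬝ᵥ c + σ * s * (1 + σ) / 2 := by
  have hm : ∀ t : Fin n → ℝ, (∀ i, 0 ≤ t i ∧ t i ≤ 1) ↔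
      ∀ r ∈ R, a r ⬝ᵥ c + (a r ᵥ* T) ⬝ᵥ t ≤ b r := fun t => by
    rw [← mem_par hT (c := c), ← hP]; simp [dotProduct_mulVec]
  let t0 : Fin n → ℝ := fun i => if i = j then (1 + σ) / 2 else 1 / 2
  have h0 : ∀ i, 0 ≤ t0 i ∧ t0 i ≤ 1 := fun i => by
    rcases hσ with rfl | rfl <;> simp only [t0] <;> split_ifs <;> norm_num
  have hu : ∀ (g : Fin n → ℝ) i e, g ⬝ᵥ (t0 + Pi.single i e) = g ⬝ᵥ t0 + g i * e := by simp
  obtain ⟨r, hr, h1, h2⟩ : ∃ r ∈ R, b r ≤ a r ⬝ᵥ c + (a r ᵥ* T) ⬝ᵥ t0 ∧ 0 < (a r ᵥ* T) j * σ := by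
    by_contra! hc
    have : ∀ᶠ e in 𝓝[>] (0 : ℝ), ∀ r ∈ {r | r ∈ R},
        a r ⬝ᵥ c + (a r ᵥ* T) ⬝ᵥ (t0 + Pi.single j (σ * e)) ≤ b r := by
      refine (eventually_all_finite R.finite_toSet).2 fun r hr => ?_
      simp only [hu]
      by_cases h : b r ≤ a r ⬝ᵥ c + (a r ᵥ* T) ⬝ᵥ t0
      · filter_upwards [self_mem_nhdsWithin] with e he
        nlinarith [hc r hr h, (hm t0).1 h0 r hr, Set.mem_Ioi.1 he]
      · refine Eventually.filter_mono nhdsWithin_le_nhds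
          (Eventually.mono (ContinuousAt.eventually_lt (by fun_prop) continuousAt_const ?_) fun _ h => h.le)
        simpa using h
    obtain ⟨e, h, he⟩ := (this.and self_mem_nhdsWithin).exists
    have := (hm _).2 h j
    rcases hσ with rfl | rfl <;> simp [t0] at this <;> linarith
  have h3 : ∀ i, i ≠ j → (a r ᵥ* T) i = 0 := fun i hi => by
    have : ∀ e : ℝ, e = 1 / 2 ∨ e = -1 / 2 → (a r ᵥ* T) i * e ≤ 0 := fun e he => by
      have := (hm (t0 + Pi.single i e)).1 (fun k => by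
        by_cases hk : k = i
        · rcases he with rfl | rfl <;> simp [t0, hk, hi] <;> norm_num
        · simpa [hk] using h0 k) r hr
      rw [hu] at this; linarith
    linarith [this _ (.inl rfl), this _ (.inr rfl)]
  have h4 : a r ᵥ* T = Pi.single j (σ * ((a r ᵥ* T) j * σ)) := funext fun i => by
    by_cases hi : i = j
    · rcases hσ with rfl | rfl <;> simp [hi]
    · simp [hi, h3 i hi]
  refine ⟨r, hr, _, h2, h4, ?_⟩
  have h5 := (hm t0).1 h0 r hr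
  rw [h4] at h1 h5
  simp only [single_dotProduct, t0, if_true] at h1 h5
  linarith

/-- the parallelotope cut out by slabs -/
def slabs (M : Matrix (Fin n) (Fin n) ℝ) (l w : Fin n → ℝ) : Set (Fin n → ℝ) :=
  {x | ∀ k, l k ≤ M k ⬝ᵥ x ∧ M k ⬝ᵥ x ≤ l k + w k}

lemma slabs_eq {M : Matrix (Fin n) (Fin n) ℝ} {l w : Fin n → ℝ} (hM : M.det ≠ 0) (hw : ∀ k, 0 < w k) :
    (M⁻¹ * diagonal w).det = (∏ k, w k) / M.det ∧ (M⁻¹ * diagonal w).det ≠ 0 ∧
      slabs M l w = par (M⁻¹ *ᵥ l) (M⁻¹ * diagonal w) ∧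
      ∀ t, M *ᵥ (M⁻¹ *ᵥ l + (M⁻¹ * diagonal w) *ᵥ t) = fun k => l k + w k * t k := by
  have e : (M⁻¹ * diagonal w).det = (∏ k, w k) / M.det := by
    rw [det_mul, det_nonsing_inv, det_diagonal, Ring.inverse_eq_inv']; ring
  have h : (M⁻¹ * diagonal w).det ≠ 0 := e ▸ div_ne_zero (prod_pos fun k _ => hw k).ne' hM
  have e2 : ∀ t, M *ᵥ (M⁻¹ *ᵥ l + (M⁻¹ * diagonal w) *ᵥ t) = fun k => l k + w k * t k := fun t => by
    rw [mulVec_add, mulVec_mulVec, mulVec_mulVec, ← Matrix.mul_assoc, mul_nonsing_inv _ hM.isUnit]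
    ext k; simp [mulVec_diagonal]
  refine ⟨e, h, Set.ext fun x => ?_, e2⟩
  obtain ⟨t, rfl⟩ := ex_t (M⁻¹ *ᵥ l) h x
  rw [mem_par h]
  refine forall_congr' fun k => ?_
  rw [show M k ⬝ᵥ _ = _ from congrFun (e2 t) k]
  have := hw k
  constructor <;> rintro ⟨a, b⟩ <;> constructor <;> nlinarith

lemma chk {M : Matrix (Fin n) (Fin n) ℝ} {l w a : Fin n → ℝ} {b : ℝ} (hM : M.det ≠ 0)
    (hw : ∀ k, 0 < w k) : (∀ x ∈ slabs M l w, a ⬝ᵥ x ≤ b) ↔
      ∑ k, (M.det * (M.updateRow k a).det * l k + max (M.det * (M.updateRow k a).det) 0 * w k) ≤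
        M.det * M.det * b := by
  have e : ∀ x, M.det * M.det * (a ⬝ᵥ x) = ∑ k, M.det * (M.updateRow k a).det * (M k ⬝ᵥ x) := fun x => by
    have := congrArg (· ⬝ᵥ x) (mulVec_cramer Mᵀ a)
    simp only [det_transpose, smul_dotProduct, mulVec_transpose, ← dotProduct_mulVec, smul_eq_mul] at this
    rw [mul_assoc, ← this, dotProduct, mul_sum]
    simp only [cramer_transpose_apply, mul_assoc]; rfl
  have p := mul_self_pos.2 hM
  constructor
  · intro h
    obtain ⟨-, h1, h2, h3⟩ := slabs_eq (l := l) hM hw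
    let t : Fin n → ℝ := fun k => if 0 ≤ M.det * (M.updateRow k a).det then 1 else 0
    have := mul_le_mul_of_nonneg_left (h _ (h2 ▸ (mem_par h1 (t := t)).2 fun k => by
      simp only [t]; split_ifs <;> simp)) p.le
    rw [e] at this
    refine le_of_eq_of_le (sum_congr rfl fun k _ => ?_) this
    rw [show M k ⬝ᵥ _ = _ from congrFun (h3 t) k]
    simp only [t, max_def']
    split_ifs <;> ring
  · intro h x hx
    refine le_of_mul_le_mul_left (e x ▸ (sum_le_sum fun k _ => ?_).trans h) p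
    have := hx k
    rcases le_total (M.det * (M.updateRow k a).det) 0 with c | c
    · rw [max_eq_right c]; nlinarith
    · rw [max_eq_left c]; nlinarith

/-- width of a slab that contains a parallelotope -/
lemma width {c v : Fin n → ℝ} {T : Matrix (Fin n) (Fin n) ℝ} {l w : ℝ} (hT : T.det ≠ 0)
    (h : ∀ x ∈ par c T, l ≤ v ⬝ᵥ x ∧ v ⬝ᵥ x ≤ l + w) : ∑ k, |(v ᵥ* T) k| ≤ w := by
  have h1 := (h _ ((mem_par hT (t := fun k => if 0 ≤ (v ᵥ* T) k then 1 else 0)).2 fun k => by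
    split_ifs <;> simp)).2
  have h2 := (h _ ((mem_par hT (t := fun k => if 0 ≤ (v ᵥ* T) k then 0 else 1)).2 fun k => by
    split_ifs <;> simp)).1
  rw [dotProduct_add, dotProduct_mulVec] at h1 h2
  refine le_trans (le_of_eq ?_) (show ((v ᵥ* T) ⬝ᵥ fun k => if 0 ≤ (v ᵥ* T) k then 1 else 0) -
    ((v ᵥ* T) ⬝ᵥ fun k => if 0 ≤ (v ᵥ* T) k then 0 else 1) ≤ w by linarith)
  simp only [dotProduct, ← sum_sub_distrib]
  refine sum_congr rfl fun k _ => ?_
  split_ifs with h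
  · simp [abs_of_nonneg h]
  · simp [abs_of_neg (not_le.1 h)]

lemma slabs_sub {c l w : Fin n → ℝ} {M T : Matrix (Fin n) (Fin n) ℝ} (hT : T.det ≠ 0) (hM : M.det ≠ 0)
    (hw : ∀ k, 0 < w k) (h : par c T ⊆ slabs M l w)
    (h' : ∀ k, ∃ j σ, (σ = 1 ∨ σ = -1) ∧ M k ᵥ* T = Pi.single j (σ * w k)) : slabs M l w ⊆ par c T := by
  intro x hx
  obtain ⟨t, rfl⟩ := ex_t c hT x
  refine (mem_par hT).2 fun j => ?_
  obtain ⟨k, hk⟩ : ∃ k, (M * T) k j ≠ 0 := by
    by_contra! hc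
    exact mul_ne_zero hM hT (det_mul M T ▸ det_eq_zero_of_column_eq_zero j hc)
  obtain ⟨i, σ, hσ, e⟩ := h' k
  obtain rfl : j = i := by
    by_contra hc
    exact hk ((congrFun e j).trans (Pi.single_eq_of_ne hc _))
  have h0 := h ((mem_par hT (t := 0)).2 (by simp)) k
  have h1 := h ((mem_par hT (t := 1)).2 (by simp)) k
  have h2 := hx k
  have := hw k
  simp only [dotProduct_add, dotProduct_mulVec, e, single_dotProduct, Pi.zero_apply, Pi.one_apply] at h0 h1 h2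
  rcases hσ with rfl | rfl <;> constructor <;> nlinarith

/-- the determinant of the edge vectors -/
def ed (v : Fin (n + 1) → Fin n → ℝ) : ℝ := (of fun a : Fin n => v a.succ - v 0).det

lemma ed_map (c : Fin n → ℝ) (T : Matrix (Fin n) (Fin n) ℝ) (u : Fin (n + 1) → Fin n → ℝ) :
    ed (fun i => c + T *ᵥ u i) = ed u * T.det := by
  rw [ed, ed, ← det_transpose T, ← det_mul]
  congr 1; ext a b
  simp [mul_apply, mulVec, dotProduct, mul_comm, mul_sub]

lemma ed_hom (u : Fin (n + 1) → Fin n → ℝ) :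
    ed u = (of fun i => (Fin.cons 1 (u i) : Fin (n + 1) → ℝ)).det := by
  rw [det_eq_of_forall_row_eq_smul_add_const (B := of (Fin.cons (Fin.cons 1 (u 0))
    fun a => Fin.cons 0 (u a.succ - u 0))) (Fin.cons 0 1) 0 rfl, det_succ_column_zero]
  · simp [Fin.sum_univ_succ, ed]; rfl
  · intro i j
    cases i using Fin.cases <;> cases j using Fin.cases <;> simp

lemma ed_ind {u : Fin (n + 1) → Fin n → ℝ} (h : ed u ≠ 0) : AffineIndependent ℝ u := by
  rw [affineIndependent_iff_linearIndependent_vsub ℝ _ 0, ← linearIndependent_equiv (finSuccAboveEquiv 0)]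
  exact linearIndependent_rows_iff_isUnit.2 ((isUnit_iff_isUnit_det _).2 h.isUnit)

lemma cube_opt (n : ℕ) : ∃ e : Fin (n + 1) → Fin n → Bool, ∀ u : Fin (n + 1) → Fin n → ℝ,
    (∀ i j, 0 ≤ u i j ∧ u i j ≤ 1) → ed u ^ 2 ≤ ed (fun i j => if e i j then 1 else 0) ^ 2 := by
  obtain ⟨e, -, he⟩ := exists_max_image univ (fun e : Fin (n + 1) → Fin n → Bool =>
    ed (fun i j => if e i j then 1 else 0) ^ 2) univ_nonempty
  refine ⟨e, fun u hu => ?_⟩
  have : ∀ s : Finset (Fin (n + 1) × Fin n), ∃ y : Fin (n + 1) → Fin n → ℝ,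
      (∀ i j, 0 ≤ y i j ∧ y i j ≤ 1) ∧ (∀ p ∈ s, y p.1 p.2 = 0 ∨ y p.1 p.2 = 1) ∧
        ed u ^ 2 ≤ ed y ^ 2 := fun s => by
    induction s using Finset.induction_on with
    | empty => exact ⟨u, hu, by simp, le_rfl⟩
    | insert p s _ ih =>
      obtain ⟨y, h1, h2, h3⟩ := ih
      let z := fun x : ℝ => Function.update y p.1 (Function.update (y p.1) p.2 x)
      have hz : ∀ x, ed (z x) = ((of fun i => (Fin.cons 1 (y i) : Fin (n + 1) → ℝ)).updateRow p.1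
          (Fin.cons 1 (Function.update (y p.1) p.2 x))).det := fun x => by
        rw [ed_hom]; congr 1; ext i j
        by_cases h : i = p.1 <;> simp [z, h]
      have e1 : ed y = (1 - y p.1 p.2) * ed (z 0) + y p.1 p.2 * ed (z 1) := by
        rw [hz, hz, ← det_updateRow_smul, ← det_updateRow_smul, ← det_updateRow_add, ed_hom]
        congr 1; ext i j
        by_cases h : i = p.1
        · cases j using Fin.cases with
          | zero => simp [h, -Fin.cons_update]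
          | succ j => by_cases h' : j = p.2 <;> simp [h, h', -Fin.cons_update]; ring
        · simp [h]
      have k : ∀ x, x = 0 ∨ x = 1 → (∀ i j, 0 ≤ z x i j ∧ z x i j ≤ 1) ∧
          ∀ q ∈ insert p s, z x q.1 q.2 = 0 ∨ z x q.1 q.2 = 1 := fun x hx => by
        have : ∀ i j, z x i j = if (i, j) = p then x else y i j := fun i j => by
          by_cases h : i = p.1 <;> by_cases h' : j = p.2 <;> simp [z, h, h', Prod.ext_iff]
        simp only [this]
        refine ⟨fun i j => ?_, fun q hq => ?_⟩ <;> split_ifs with h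
        · rcases hx with rfl | rfl <;> simp
        · exact h1 i j
        · exact hx
        · exact h2 q ((mem_insert.1 hq).resolve_left h)
      have := h1 p.1 p.2
      have hq := mul_nonneg (mul_nonneg this.1 (sub_nonneg.2 this.2)) (sq_nonneg (ed (z 0) - ed (z 1)))
      rcases le_total (ed (z 0) ^ 2) (ed (z 1) ^ 2) with c | c
      · exact ⟨z 1, (k 1 (.inr rfl)).1, (k 1 (.inr rfl)).2, h3.trans (by rw [e1]; nlinarith)⟩
      · exact ⟨z 0, (k 0 (.inl rfl)).1, (k 0 (.inl rfl)).2, h3.trans (by rw [e1]; nlinarith)⟩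
  obtain ⟨y, -, h2, h3⟩ := this univ
  refine h3.trans (le_of_eq_of_le ?_ (he (fun i j => decide (y i j = 1)) (mem_univ _)))
  congr 2; ext i j
  rcases h2 (i, j) (mem_univ _) with h | h <;> simp_all

lemma ed_std : ed (Fin.cons 0 fun a : Fin n => Pi.single a 1) = 1 := by
  rw [ed, ← det_one (n := Fin n)]
  congr 1; ext a b
  simp [one_apply, Pi.single_apply, eq_comm]

end Pool.Agent.Par
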