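import Pool.Agent.Lib.helper9.ParA
import Pool.Agent.Lib.helper9.BinB

/-! Recognising a parallelotope given by integer inequalities and finding its facets. -/

namespace Pool.Agent.Par

open Cx Matrix Polynomial

abbrev Row := List ℤ × ℤ
abbrev Sl := List ℤ × ℤ × ℤ

def vec (n : ℕ) (a : List ℤ) : Fin n → ℝ := fun j => (a.getD j 0 : ℤ)

def dot (n : ℕ) (a b : List ℤ) : ℤ := ((List.range n).map fun j => a.getD j 0 * b.getD j 0).sum

lemma sum_cast (n : ℕ) (f : ℕ → ℤ) : ((((List.range n).map f).sum : ℤ) : ℝ) = ∑ j : Fin n, (f j : ℝ) := by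
  rw [← List.sum_toFinset _ List.nodup_range, List.toFinset_range, Finset.sum_range]; push_cast; rfl

lemma dot_cast (n : ℕ) (a b : List ℤ) : (dot n a b : ℝ) = vec n a ⬝ᵥ vec n b := by
  simp only [dot, sum_cast, Int.cast_mul]; rfl

def pol (n : ℕ) (R : List Row) : Set (Fin n → ℝ) := {x | ∀ r ∈ R, vec n r.1 ⬝ᵥ x ≤ r.2}

def mkS (n : ℕ) (p : Row × Row) : Sl :=
  (p.1.1.map fun z => -dot n p.1.1 p.2.1 * z, -(dot n p.1.1 p.1.1 * p.2.2),
    -dot n p.1.1 p.2.1 * p.1.2 + dot n p.1.1 p.1.1 * p.2.2)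

def okS (n : ℕ) (p : Row × Row) : Prop := dot n p.1.1 p.2.1 < 0 ∧ 0 < (mkS n p).2.2 ∧
  ∀ j < n, dot n p.1.1 p.1.1 * p.2.1.getD j 0 = dot n p.1.1 p.2.1 * p.1.1.getD j 0

open Classical in
noncomputable def G (n : ℕ) (R : List Row) : List Sl :=
  ((R ×ˢ R).filter fun p => decide (okS n p)).map (mkS n)

variable {n : ℕ} {R : List Row} {c : Fin n → ℝ} {T : Matrix (Fin n) (Fin n) ℝ}

lemma vec_map (d : ℤ) (a : List ℤ) : vec n (a.map fun z => d * z) = (d : ℝ) • vec n a := by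
  ext j
  have := List.getD_map a 0 (n := j) fun z => d * z
  rw [mul_zero] at this
  simp only [vec, this, Int.cast_mul, Pi.smul_apply, smul_eq_mul]

lemma par_iff {a a' : List ℤ} {x y : ℤ} : (∀ j < n, x * a'.getD j 0 = y * a.getD j 0) ↔
    (x : ℝ) • vec n a' = (y : ℝ) • vec n a := by
  simp only [funext_iff, vec, Pi.smul_apply, smul_eq_mul, Fin.forall_iff]
  norm_cast

lemma mem_G {s : Sl} : s ∈ G n R ↔ ∃ r ∈ R, ∃ r' ∈ R, okS n (r, r') ∧ mkS n (r, r') = s := by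
  simp [G, and_assoc, -Prod.exists]
  aesop

lemma G_sound {s : Sl} (h : s ∈ G n R) : 0 < s.2.2 ∧
    ∀ x ∈ pol n R, s.2.1 ≤ vec n s.1 ⬝ᵥ x ∧ vec n s.1 ⬝ᵥ x ≤ s.2.1 + s.2.2 := by
  obtain ⟨r, hr, r', hr', ⟨h1, h2, h3⟩, rfl⟩ := mem_G.1 h
  refine ⟨h2, fun x hx => ?_⟩
  have e := congrArg (· ⬝ᵥ x) (par_iff.1 h3)
  have a := hx r hr
  have b := hx r' hr'
  have h4 : (0 : ℝ) ≤ dot n r.1 r.1 := dot_cast .. ▸ Finset.sum_nonneg fun _ _ => mul_self_nonneg _
  have h1 : (dot n r.1 r'.1 : ℝ) < 0 := by exact_mod_cast h1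
  simp only [mkS, vec_map, smul_dotProduct, smul_eq_mul] at e ⊢
  push_cast
  constructor <;> nlinarith

lemma G_compl (hT : T.det ≠ 0) (hP : pol n R = par c T) (j : Fin n) {σ : ℝ} (hσ : σ = 1 ∨ σ = -1) :
    ∃ s ∈ G n R, vec n s.1 ᵥ* T = Pi.single j (σ * s.2.2) := by
  obtain ⟨r, hr, s, hs, h1, h2⟩ := facet hT hP j hσ
  obtain ⟨r', hr', s', hs', h3, h4⟩ := facet hT hP j (σ := -σ) (by rcases hσ with rfl | rfl <;> simp)
  have inj := vecMul_injective_of_isUnit ((isUnit_iff_isUnit_det _).2 hT.isUnit)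
  have e : vec n r'.1 = (-(s' / s)) • vec n r.1 := inj (by
    simp only [smul_vecMul, h1, h3, ← Pi.single_smul, smul_eq_mul]; congr 1; field_simp)
  have hN : 0 < vec n r.1 ⬝ᵥ vec n r.1 := by
    refine lt_of_le_of_ne (Finset.sum_nonneg fun _ _ => mul_self_nonneg _) fun c => ?_
    have := congrFun h1 j
    rw [dotProduct_self_eq_zero.1 c.symm] at this
    rcases hσ with rfl | rfl <;> simp at this <;> linarith
  have hd : (dot n r.1 r'.1 : ℝ) = -(s' / s) * (vec n r.1 ⬝ᵥ vec n r.1) := by simp [dot_cast, e]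
  have hw : ((mkS n (r, r')).2.2 : ℝ) = s' * (vec n r.1 ⬝ᵥ vec n r.1) := by
    simp only [mkS, Int.cast_add, Int.cast_mul, Int.cast_neg, hd, dot_cast n r.1 r.1, h2, h4, e,
      smul_dotProduct, smul_eq_mul]
    rcases hσ with rfl | rfl <;> field_simp <;> ring
  refine ⟨_, mem_G.2 ⟨r, hr, r', hr', ⟨?_, ?_, par_iff.2 ?_⟩, rfl⟩, ?_⟩
  · have : (dot n r.1 r'.1 : ℝ) < 0 := by rw [hd, neg_mul, neg_lt_zero]; positivity
    exact_mod_cast this
  · have : (0 : ℝ) < (mkS n (r, r')).2.2 := by rw [hw]; positivity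
    exact_mod_cast this
  · simp only [hd, dot_cast n r.1 r.1, e, smul_smul, mul_comm]
  · rw [hw]
    simp only [mkS, vec_map, smul_vecMul, h1, ← Pi.single_smul, smul_eq_mul, Int.cast_neg, hd]
    congr 1; field_simp

def row (B : List Sl) (i : ℕ) : Sl := B.getD i ([], 0, 0)

def upd (n : ℕ) (B : List Sl) (k : ℕ) (s : Sl) : List Sl :=
  (List.range n).map fun i => if i = k then s else row B i

def dt (n : ℕ) (B : List Sl) : ℤ := (toM n (B.map Prod.fst)).det

def Mr (n : ℕ) (B : List Sl) : Matrix (Fin n) (Fin n) ℝ := of fun i => vec n (row B i).1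

lemma dt_cast (B : List Sl) : (dt n B : ℝ) = (Mr n B).det := by
  rw [dt, Int.cast_det]; congr 1; ext i j
  have := List.getD_map B ([], 0, 0) (n := i) Prod.fst
  simp only [map_apply, toM, of_apply, enz, Mr, vec, row, this]

lemma row_upd {B : List Sl} {k i : ℕ} {s : Sl} (h : i < n) :
    row (upd n B k s) i = if i = k then s else row B i := by simp [row, upd, h]

lemma dt_upd (B : List Sl) (k : Fin n) (s : Sl) :
    (dt n (upd n B k s) : ℝ) = ((Mr n B).updateRow k (vec n s.1)).det := by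
  rw [dt_cast]; congr 1; ext i j
  by_cases h : i = k <;> simp [Mr, row_upd, h, Fin.ext_iff.not.1]

def wd (s : Sl) : ℤ := max s.2.2 1

def Best (n : ℕ) (H B : List Sl) (k : ℕ) (s : Sl) : Prop := ∀ s' ∈ H,
  (dt n (upd n B k s') : ℝ) / wd s' ≤ dt n (upd n B k s) / wd s ∧
  ((dt n (upd n B k s) : ℝ) / wd s ≤ dt n (upd n B k s') / wd s' →
    (dot n s'.1 s'.1 : ℝ) / (wd s' * wd s' :) ≤ dot n s.1 s.1 / (wd s * wd s :))

open Classical in
noncomputable def step (n : ℕ) (H B : List Sl) (k : ℕ) : List Sl :=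
  upd n B k ((H.find? fun s => decide (Best n H B k s)).getD ([], 0, 0))

def B0 (n : ℕ) : List Sl :=
  (List.range n).map fun i => ((List.range n).map fun j => if i = j then 1 else 0, 0, 1)

noncomputable def bas (n : ℕ) (R : List Row) : List Sl := (List.range n).foldl (step n (G n R)) (B0 n)

lemma ex_best {H : List Sl} (B : List Sl) (k : ℕ) {s : Sl} (h : s ∈ H) :
    ∃ s ∈ H, Best n H B k s ∧ step n H B k = upd n B k s := by
  classical
  obtain ⟨u, hu, hm⟩ := Set.exists_max_image {s | s ∈ H} (fun s => toLex ((dt n (upd n B k s) : ℝ) / wd s,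
    (dot n s.1 s.1 : ℝ) / (wd s * wd s :))) H.finite_toSet ⟨s, h⟩
  cases e : H.find? fun s => decide (Best n H B k s) with
  | none =>
    refine absurd ?_ (List.find?_eq_none.1 e u hu)
    rw [decide_eq_true_eq]
    intro v hv
    rcases Prod.Lex.toLex_le_toLex.1 (hm v hv) with a | a
    · exact ⟨a.le, fun b => absurd a b.not_gt⟩
    · exact ⟨a.1.le, fun _ => a.2⟩
  | some w =>
    have := List.find?_some e
    rw [decide_eq_true_eq] at this
    exact ⟨w, List.mem_of_find?_eq_some e, this, by rw [step, e]; rfl⟩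

lemma step_spec (hT : T.det ≠ 0) (hP : pol n R = par c T) {B : List Sl} (hB : (Mr n B).det ≠ 0)
    (k : Fin n) : ∃ s ∈ G n R, step n (G n R) B k = upd n B k s ∧ (dt n (upd n B k s) : ℝ) ≠ 0 ∧
      ∃ j, ∃ σ : ℝ, (σ = 1 ∨ σ = -1) ∧ vec n s.1 ᵥ* T = Pi.single j (σ * s.2.2) := by
  obtain ⟨s0, h0, -⟩ := G_compl hT hP k (.inl rfl)
  obtain ⟨s, hs, hb, e⟩ := ex_best (n := n) B k h0
  let φ : (Fin n → ℝ) →ₗ[ℝ] ℝ := (LinearMap.proj k).comp (cramer (Mr n B)ᵀ)
  have hφ : ∀ v, φ v = ((Mr n B).updateRow k v).det := fun v => cramer_transpose_apply _ _ _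
  let nv : Sl → Fin n → ℝ := fun s => (s.2.2 : ℝ)⁻¹ • vec n s.1
  have hw : ∀ s ∈ G n R, (0 : ℝ) < s.2.2 ∧ wd s = s.2.2 := fun s h =>
    ⟨by exact_mod_cast (G_sound h).1, max_eq_left (G_sound h).1⟩
  have hb' : ∀ s' ∈ G n R, φ (nv s') ≤ φ (nv s) ∧
      (φ (nv s) ≤ φ (nv s') → nv s' ⬝ᵥ nv s' ≤ nv s ⬝ᵥ nv s) := fun s' h => by
    have := hb s' h
    simp only [dt_upd, ← hφ, (hw s hs).2, (hw s' h).2, dot_cast, Int.cast_mul] at this
    simpa only [nv, map_smul, smul_eq_mul, smul_dotProduct, dotProduct_smul, inv_mul_eq_div,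
      div_div] using this
  have hI : ∀ v, v = ∑ j, (v ᵥ* T) j • T⁻¹ j := fun v => by
    rw [← vecMul_eq_sum, vecMul_vecMul, mul_nonsing_inv _ hT.isUnit, vecMul_one]
  have hf : ∀ j (σ : ℝ), σ = 1 ∨ σ = -1 → ∃ s ∈ G n R, nv s = σ • T⁻¹ j := fun j σ hσ => by
    obtain ⟨s, hs, e⟩ := G_compl hT hP j hσ
    refine ⟨s, hs, ?_⟩
    rw [hI (nv s)]
    simp only [nv, smul_vecMul, e, ← Pi.single_smul, smul_eq_mul]
    rw [Finset.sum_eq_single j (by simp +contextual) (by simp), Pi.single_eq_same]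
    congr 1; field_simp [(hw s hs).1.ne']
  have hpos : 0 < φ (nv s) := by
    by_contra! hc
    have : ∀ j, φ (T⁻¹ j) = 0 := fun j => by
      obtain ⟨a, ha, ea⟩ := hf j 1 (.inl rfl)
      obtain ⟨b, hb, eb⟩ := hf j (-1) (.inr rfl)
      have h1 := (hb' a ha).1
      have h2 := (hb' b hb).1
      simp only [ea, eb, map_smul, smul_eq_mul] at h1 h2
      linarith
    refine hB ?_
    rw [← updateRow_eq_self (Mr n B) k, ← hφ, hI (Mr n B k)]
    simp [this]
  let σ : Fin n → ℝ := fun j => if 0 ≤ (nv s ᵥ* T) j then 1 else -1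
  have hσ : ∀ j, σ j = 1 ∨ σ j = -1 := fun j => by simp only [σ]; split_ifs <;> simp
  have hg : nv s = ∑ j, |(nv s ᵥ* T) j| • σ j • T⁻¹ j := (hI _).trans (Finset.sum_congr rfl fun j _ => by
    simp only [σ, smul_smul]
    split_ifs with h
    · rw [abs_of_nonneg h, mul_one]
    · rw [abs_of_neg (not_le.1 h)]; simp)
  obtain ⟨j, hj⟩ := vertex (a := fun j => φ (σ j • T⁻¹ j)) hg (fun _ => abs_nonneg _) (by
      have := width hT (hP ▸ (G_sound hs).2)
      simp only [nv, smul_vecMul, Pi.smul_apply, smul_eq_mul, abs_mul, ← Finset.mul_sum,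
        abs_of_pos (inv_pos.2 (hw s hs).1)]
      rwa [inv_mul_le_one₀ (hw s hs).1]) (by rw [congrArg φ hg]; simp) hpos fun j => by
    obtain ⟨a, ha, ea⟩ := hf j _ (hσ j)
    exact ea ▸ hb' a ha
  refine ⟨s, hs, e, ?_, j, σ j, hσ j, ?_⟩
  · rw [dt_upd, ← hφ]
    intro c
    simp [nv, c] at hpos
  · have : vec n s.1 = (s.2.2 : ℝ) • nv s := by simp [nv, smul_smul, (hw s hs).1.ne']
    rw [this, hj, smul_vecMul, smul_vecMul, show T⁻¹ j ᵥ* T = (T⁻¹ * T) j from rfl,
      nonsing_inv_mul _ hT.isUnit]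
    ext i
    by_cases h : j = i <;> simp [h, one_apply, @eq_comm _ i, mul_comm]

lemma bas_spec (hT : T.det ≠ 0) (hP : pol n R = par c T) (k : ℕ) (hk : k ≤ n) :
    (Mr n ((List.range k).foldl (step n (G n R)) (B0 n))).det ≠ 0 ∧ ∀ i < k,
      row ((List.range k).foldl (step n (G n R)) (B0 n)) i ∈ G n R ∧ ∃ j, ∃ σ : ℝ, (σ = 1 ∨ σ = -1) ∧
        vec n (row ((List.range k).foldl (step n (G n R)) (B0 n)) i).1 ᵥ* T =
          Pi.single j (σ * (row ((List.range k).foldl (step n (G n R)) (B0 n)) i).2.2) := by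
  induction k with
  | zero =>
    have : Mr n (B0 n) = 1 := by
      ext i j; simp [Mr, B0, row, vec, one_apply, Fin.ext_iff]
    simp [this]
  | succ k ih =>
    obtain ⟨h1, h2⟩ := ih (by omega)
    obtain ⟨s, hs, e, h3, h4⟩ := step_spec hT hP h1 ⟨k, hk⟩
    rw [List.range_succ, List.foldl_append, List.foldl_cons, List.foldl_nil, e]
    refine ⟨dt_cast _ ▸ h3, fun i hi => ?_⟩
    rw [row_upd (by omega)]
    split_ifs with h
    · exact ⟨hs, h4⟩
    · exact h2 i (by simp at h; omega)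

def lv (n : ℕ) (B : List Sl) : Fin n → ℝ := fun k => (row B k).2.1

def wv (n : ℕ) (B : List Sl) : Fin n → ℝ := fun k => (row B k).2.2

def Chk (n : ℕ) (B : List Sl) (r : Row) : Prop :=
  ((List.range n).map fun k => dt n B * dt n (upd n B k (r.1, 0, 0)) * (row B k).2.1 +
    max (dt n B * dt n (upd n B k (r.1, 0, 0))) 0 * (row B k).2.2).sum ≤ dt n B * dt n B * r.2

def Valid (n : ℕ) (R : List Row) : Prop := dt n (bas n R) ≠ 0 ∧ (∀ k < n, row (bas n R) k ∈ G n R) ∧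
  ∀ r ∈ R, Chk n (bas n R) r

lemma chk_iff {B : List Sl} {r : Row} (h : (Mr n B).det ≠ 0) (hw : ∀ k, 0 < wv n B k) :
    Chk n B r ↔ ∀ x ∈ slabs (Mr n B) (lv n B) (wv n B), vec n r.1 ⬝ᵥ x ≤ r.2 := by
  rw [chk h hw, Chk, ← Int.cast_le (R := ℝ), sum_cast]
  simp only [Int.cast_add, Int.cast_mul, Int.cast_max, dt_upd, dt_cast (n := n) B, Int.cast_zero]
  rfl

lemma Valid.sound (h : Valid n R) : (Mr n (bas n R)).det ≠ 0 ∧ (∀ k, 0 < wv n (bas n R) k) ∧
    pol n R = slabs (Mr n (bas n R)) (lv n (bas n R)) (wv n (bas n R)) := by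
  have h1 : (Mr n (bas n R)).det ≠ 0 := by rw [← dt_cast]; exact_mod_cast h.1
  have h2 : ∀ k, 0 < wv n (bas n R) k := fun k => by
    unfold wv; exact_mod_cast (G_sound (h.2.1 k k.2)).1
  exact ⟨h1, h2, Set.Subset.antisymm (fun x hx k => (G_sound (h.2.1 k k.2)).2 x hx)
    fun x hx r hr => (chk_iff h1 h2).1 (h.2.2 r hr) x hx⟩

lemma valid_of (hT : T.det ≠ 0) (hP : pol n R = par c T) : Valid n R := by
  obtain ⟨h1, h⟩ := bas_spec hT hP n le_rfl
  have h2 : ∀ k, 0 < wv n (bas n R) k := fun k => by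
    unfold wv; exact_mod_cast (G_sound (h k k.2).1).1
  refine ⟨fun c => h1 (by rw [← dt_cast]; exact_mod_cast c), fun k hk => (h k hk).1, fun r hr =>
    (chk_iff h1 h2).2 fun x hx => ?_⟩
  have := slabs_sub hT h1 h2 (hP ▸ fun x hx (k : Fin n) => (G_sound (h k k.2).1).2 x hx)
    (fun k => (h k k.2).2) hx
  exact (hP ▸ this : x ∈ pol n R) r hr

section
variable {α : Type} [Enc α] {n k : α → ℕ} {a b : α → List ℤ} {R : α → List Row} {B H : α → List Sl}
  {s : α → Sl}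

lemma pp_div {f g f' g' : α → ℤ} (hf : PT f) (hg : PT g) (hf' : PT f') (hg' : PT g')
    (h : ∀ a, 0 < g a) (h' : ∀ a, 0 < g' a) : PP fun a => (f a : ℝ) / g a ≤ f' a / g' a :=
  let ⟨_, p, e⟩ := PP.leZ (hf.mulZ hg') (hf'.mulZ hg)
  ⟨_, p, fun a => by
    rw [← e]; beta_reduce
    rw [div_le_div_iff₀ (by exact_mod_cast h a) (by exact_mod_cast h' a)]; norm_cast⟩

@[fun_prop] lemma pt_dot (hn : PT n) (ha : PT a) (hb : PT b) : PT fun x => dot (n x) (a x) (b x) := by
  unfold dot; fun_prop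

@[fun_prop] lemma pt_mkS {p : α → Row × Row} (hn : PT n) (hp : PT p) : PT fun x => mkS (n x) (p x) := by
  unfold mkS; fun_prop

@[fun_prop] lemma pt_G (hn : PT n) (hR : PT R) : PT fun x => G (n x) (R x) :=
  PT.map (by fun_prop) (PT.filter (PP.decide (PP.and (by fun_prop) (PP.and (by fun_prop)
    (PP.ball_lt (by fun_prop) (by fun_prop))))) (by fun_prop))

@[fun_prop] lemma pt_row (hB : PT B) (hk : PT k) : PT fun x => row (B x) (k x) := by
  unfold row; fun_prop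

@[fun_prop] lemma pt_upd (hn : PT n) (hB : PT B) (hk : PT k) (hs : PT s) :
    PT fun x => upd (n x) (B x) (k x) (s x) := by unfold upd; fun_prop

@[fun_prop] lemma pt_dt (hn : PT n) (hB : PT B) : PT fun x => dt (n x) (B x) := by
  unfold dt; fun_prop

@[fun_prop] lemma pt_wd (hs : PT s) : PT fun x => wd (s x) := by unfold wd; fun_prop

lemma wd_pos (s : Sl) : 0 < wd s := lt_max_of_lt_right one_pos

lemma pp_best (hn : PT n) (hH : PT H) (hB : PT B) (hk : PT k) (hs : PT s) :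
    PP fun x => Best (n x) (H x) (B x) (k x) (s x) := by
  refine PP.ball (PP.and (pp_div ?_ ?_ ?_ ?_ ?_ ?_) (PP.imp (pp_div ?_ ?_ ?_ ?_ ?_ ?_)
    (pp_div ?_ ?_ ?_ ?_ ?_ ?_))) hH
  all_goals first | fun_prop | exact fun _ => wd_pos _ | exact fun _ => mul_pos (wd_pos _) (wd_pos _)

@[fun_prop] lemma pt_step (hn : PT n) (hH : PT H) (hB : PT B) (hk : PT k) :
    PT fun x => step (n x) (H x) (B x) (k x) :=
  pt_upd hn hB hk (PT.optGetD (PT.find? (PP.decide (pp_best (by fun_prop) (by fun_prop) (by fun_prop)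
    (by fun_prop) (by fun_prop))) hH) (by fun_prop))

lemma step_mem (n : ℕ) (H l : List Sl) (ks : List ℕ) (h : l.length = n) :
    (ks.foldl (step n H) l).length = n ∧ ∀ s ∈ ks.foldl (step n H) l, s ∈ ([], 0, 0) :: (H ++ l) := by
  classical
  induction ks using List.reverseRecOn with
  | nil => simp +contextual [h]
  | append_singleton ks k ih =>
    rw [List.foldl_append, List.foldl_cons, List.foldl_nil, step]
    refine ⟨by simp [upd], fun s hs => ?_⟩
    obtain ⟨i, hi, rfl⟩ := List.mem_map.1 hs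
    split_ifs
    · cases e : H.find? _ with
      | none => simp
      | some w => simp [List.mem_of_find?_eq_some e]
    · rw [row, List.getD_eq_getElem _ _ (by rw [ih.1]; simpa using hi)]
      exact ih.2 _ (List.getElem_mem _)

@[fun_prop] lemma pt_bas (hn : PT n) (hR : PT R) : PT fun x => bas (n x) (R x) := by
  have h0 : PT fun x => B0 (n x) := by unfold B0; fun_prop
  obtain ⟨p, hp⟩ := hn.bound
  obtain ⟨q, hq⟩ := (show PT fun x => (([], 0, 0) : Sl) :: (G (n x) (R x) ++ B0 (n x)) by fun_prop).bound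
  refine PT.foldl (f := fun x => step (n x) (G (n x) (R x))) (by fun_prop) (by fun_prop) h0
    (p * (q + 1) + 1) fun x i => ?_
  obtain ⟨h1, h2⟩ := step_mem (n x) (G (n x) (R x)) (B0 (n x)) ((List.range (n x)).take i) (by simp [B0])
  refine (size_list_le _ _ fun s hs => (size_lt_of_mem (h2 s hs)).le.trans (hq x)).trans ?_
  have := hp x
  simp only [h1, eval_add, eval_mul, eval_one, size_nat] at *
  gcongr; omega

@[fun_prop] lemma pp_valid (hn : PT n) (hR : PT R) : PP fun x => Valid (n x) (R x) :=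
  PP.and (by fun_prop) (PP.and (PP.ball_lt (by fun_prop) hn) (PP.ball (by unfold Chk; fun_prop) hR))

end

end Pool.Agent.Par
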