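import Mathlib

set_option autoImplicit false

namespace Pool.Agent.H9Cov

open MeasureTheory FourierTransform SchwartzMap Real
open scoped ContDiff

variable {V : Type*} [NormedAddCommGroup V] [InnerProductSpace ℝ V] [FiniteDimensional ℝ V]
  [MeasurableSpace V] [BorelSpace V]

lemma fourier_cont {f : V → ℂ} (h1 : Integrable f) : Continuous (𝓕 f) :=
  VectorFourier.fourierIntegral_continuous Real.continuous_fourierChar
    (L := innerₗ V) continuous_inner h1

lemma fourier_ae {f : V → ℂ} (h1 : Integrable f) (h2 : MemLp f 2) :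
    (𝓕 f) =ᵐ[volume] ((𝓕 (h2.toLp f) : Lp (α := V) ℂ 2) : V → ℂ) := by
  apply ae_eq_of_integral_contDiff_smul_eq (fourier_cont h1).locallyIntegrable
    ((Lp.memLp _).locallyIntegrable (by norm_num))
  intro g hg hgc
  have hg₁ : HasCompactSupport (Complex.ofRealCLM ∘ g) := hgc.comp_left rfl
  have hg₂ : ContDiff ℝ ∞ (Complex.ofRealCLM ∘ g) := by fun_prop
  set ψ : 𝓢(V, ℂ) := hg₁.toSchwartzMap hg₂ with hψ
  have hψa : ∀ x, ψ x = (g x : ℂ) := fun x => rfl
  have key := congrArg (fun T : 𝓢'(V, ℂ) => T ψ)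
    (Lp.fourier_toTemperedDistribution_eq (h2.toLp f))
  simp only [TemperedDistribution.fourier_apply, Lp.toTemperedDistribution_apply] at key
  have e1 : ∫ x, (𝓕 ψ) x • (h2.toLp f : V → ℂ) x = ∫ x, (𝓕 ψ) x • f x := by
    apply integral_congr_ae
    filter_upwards [h2.coeFn_toLp] with x hx
    rw [hx]
  have e2 : ∫ x, (𝓕 ψ) x • f x = ∫ x, ψ x • 𝓕 f x := by
    simpa using! VectorFourier.integral_fourierIntegral_smul_eq_flip (L := innerₗ V)
      Real.continuous_fourierChar continuous_inner ψ.integrable h1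
  rw [e1, e2] at key
  simpa [hψa] using key

lemma plancherel {f : V → ℂ} (h1 : Integrable f) (h2 : MemLp f 2) :
    MemLp (𝓕 f) 2 ∧ ∫ x, ‖𝓕 f x‖ ^ 2 = ∫ x, ‖f x‖ ^ 2 := by
  have hae := fourier_ae h1 h2
  refine ⟨(memLp_congr_ae hae).2 (Lp.memLp _), ?_⟩
  have hn : ∀ u : Lp (α := V) ℂ 2, ∫ x, ‖u x‖ ^ 2 = ‖u‖ ^ 2 := by
    intro u
    have := L2.inner_def (𝕜 := ℂ) u u
    rw [inner_self_eq_norm_sq_to_K] at this
    simp only [inner_self_eq_norm_sq_to_K] at this
    have h3 : ((∫ x, ‖u x‖ ^ 2 : ℝ) : ℂ) = ((‖u‖ ^ 2 : ℝ) : ℂ) := by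
      rw [← integral_complex_ofReal]
      push_cast
      exact this.symm
    exact_mod_cast h3
  calc ∫ x, ‖𝓕 f x‖ ^ 2 = ∫ x, ‖((𝓕 (h2.toLp f) : Lp (α := V) ℂ 2 volume) : V → ℂ) x‖ ^ 2 := by
        apply integral_congr_ae
        filter_upwards [hae] with x hx
        rw [hx]
    _ = ‖h2.toLp f‖ ^ 2 := by rw [hn, Lp.norm_fourier_eq]
    _ = ∫ x, ‖f x‖ ^ 2 := by
        rw [← hn]
        apply integral_congr_ae
        filter_upwards [h2.coeFn_toLp] with x hx
        rw [hx]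

end Pool.Agent.H9Cov
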