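import Pool.Agent.Lib.helper10.NPDefs

/-! The second level of the polynomial hierarchy. -/

namespace Pool.Agent.Cx

/-- The class Sigma-2-p: polynomially bounded certificates checked by a language in coNP. -/
def InSigma2 (L : Language) : Prop :=
  ∃ R : Language, InCoNP R ∧ ∃ p : Polynomial ℕ,
    ∀ x, x ∈ L ↔ ∃ w : List Bool, w.length ≤ p.eval x.length ∧ pairStr x w ∈ R

/-- Every language in Sigma-2-p reduces to `L'`. -/
def Sigma2Hard (L' : Language) : Prop := ∀ L, InSigma2 L → Reduces L L'

/-- In Sigma-2-p and Sigma-2-p-hard. -/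
def Sigma2Complete (L : Language) : Prop := InSigma2 L ∧ Sigma2Hard L

end Pool.Agent.Cx
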