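import Pool.Agent.Lib.helper9.S2Defs
import Pool.Agent.Lib.helper10.NPSim
import Pool.Agent.Lib.helper10.NPPred

/-! Membership in and hardness for the second level of the polynomial hierarchy. -/

namespace Pool.Agent.Cx

open Function Polynomial Turing

variable {α β γ : Type} [Enc α] [Enc β] [Enc γ]

def unp (z : List Bool) : List Bool × List Bool :=
  ((unpStep^[z.length] ([], z)).1, (unpStep^[z.length] ([], z)).2.tail)

@[fun_prop] lemma PT.unp {f : α → List Bool} (hf : PT f) : PT fun a => unp (f a) := by
  have h1 : PT (fun z : List Bool => unpStep^[z.length] ([], z)) :=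
    PT.iterate_add (g := fun _ => unpStep) (by unfold unpStep; fun_prop) (by fun_prop)
      (by fun_prop) 4 (fun a ⟨u, v⟩ => by
        unfold unpStep
        cases h : v.headD false
        · simp
        · have := size_append u [v.tail.headD false]
          have := size_bool (v.tail.headD false)
          have := size_le_of_sublist ((List.tail_sublist v.tail).trans (List.tail_sublist v))
          simp at *; omega)
  exact (h1.fst.pair h1.snd.tail).comp hf

lemma len_pair (x w : List Bool) : (pairStr x w).length = 2 * x.length + 1 + w.length := by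
  induction x with
  | nil => simp [pairStr]; omega
  | cons b x ih => simp [pairStr] at ih ⊢; omega

@[simp] lemma unp_pairStr (x w : List Bool) : unp (pairStr x w) = (x, w) := by
  unfold unp; rw [unp_pair x w _ _ (by rw [len_pair]; omega)]; simp

@[fun_prop] lemma PT.pairStr {f g : α → List Bool} (hf : PT f) (hg : PT g) :
    PT fun a => pairStr (f a) (g a) := by unfold Cx.pairStr; fun_prop

attribute [irreducible] unp

theorem inSigma2_Lang [Dec α] [Dec β] [Dec γ] {P : α → Prop} {V : α × β × γ → Prop} (hV : PP V)
    (p q : ℕ[X]) (h1 : ∀ a, P a → ∃ b, size b ≤ p.eval (size a) ∧ ∀ c, V (a, b, c))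
    (h2 : ∀ a b, (∀ c, size c ≤ q.eval (size a) → V (a, b, c)) → P a) : InSigma2 (Lang P) := by
  obtain ⟨f, hf, e⟩ := hV
  refine ⟨{z | enc (decode (unp z).1 : α) = (unp z).1 ∧ ∀ c : List Bool, c.length ≤ q.eval z.length →
    V (decode (unp z).1, decode (unp z).2, decode c)}, inNP_raw (V := fun z =>
      (enc (decode (unp z.1).1 : α) != (unp z.1).1) ||
        !f (decode (unp z.1).1, decode (unp z.1).2, decode z.2)) (by fun_prop) q fun z => ?_, p,
    fun x => ?_⟩
  · simp only [Set.mem_compl_iff, Set.mem_ofPred_eq, e, Bool.or_eq_true, bne_iff_ne, not_and_or,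
      Bool.not_eq_true', not_forall, Bool.not_eq_true, and_or_left, exists_or, exists_prop]
    exact or_congr_left ⟨fun h => ⟨[], by simp, h⟩, fun ⟨_, _, h⟩ => h⟩
  · simp only [Set.mem_ofPred_eq, unp_pairStr]
    constructor
    · rintro ⟨a, h, rfl⟩
      obtain ⟨b, c, d⟩ := h1 a h
      exact ⟨enc b, c, by simp, by simp [d]⟩
    · rintro ⟨w, -, a, b⟩
      refine ⟨_, h2 _ (decode w) fun c hc => ?_, a⟩
      simpa using b (enc c) (hc.trans (eval_mono _ (by unfold size; rw [a, len_pair]; omega)))

/-- `τ` satisfies `φ` -/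
def Mod (τ : ℕ → Bool) (φ : CNF) : Prop := ∀ c ∈ φ, ∃ l ∈ c, τ l.1 = l.2

theorem cook_par {V : List Bool × List Bool → Bool} (hV : PT V) :
    ∃ g : List Bool × ℕ × ℕ → CNF, PT g ∧ ∀ x u q, (∃ w, w.length ≤ q ∧ V (x, u ++ w) = true) ↔
      ∃ τ, (∀ j < u.length, τ j = u.getD j false) ∧ Mod τ (g (x, u.length, q)) := by
  obtain ⟨f, ⟨M⟩, hf⟩ := inP_of_PT (L := {z | V (unp z) = true}) (hV.comp PT.id.unp) fun _ => Iff.rfl
  obtain ⟨R, D, A, nK, r0, r1, c0, cF, cT, cR, h⟩ := cook_core M.tm M.inputAlphabet M.outputAlphabet
  let rest : ℕ → ℕ → ℕ → CNF := fun n q T => [(var T r1 0 cR, false)] :: [(var 0 0 0 c0, true)] ::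
    ((List.range nK).filter (fun r => r + 1 != r0)).flatMap
      (fun r => (List.range ((T + 1) * D)).map fun j => [(var 0 (r + 1) j 0, true)]) ++
    (List.range q).map (fun j => [(var 0 r0 (n + j) 0, true),
      (var 0 r0 (n + j) cF, true), (var 0 r0 (n + j) cT, true)]) ++
    (List.range q).map (fun j => [(var 0 r0 (n + j) 0, false), (var 0 r0 (n + j + 1) 0, true)]) ++
    (List.range ((T + 1) * D)).map (fun j => [(var 0 r0 (n + q + j) 0, true)]) ++
    stepClauses R D A T ((T + 1) * D)
  have key : ∀ τ y q T, Mod τ (cookFormula R D A nK r0 r1 c0 cF cT cR y q T) ↔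
      Mod τ (rest y.length q T) ∧ ∀ j < y.length,
        τ (var 0 r0 j (bif y.getD j false then cT else cF)) = true := fun τ y q T => by
    have : (∀ j < y.length, τ (var 0 r0 j ((y.map fun b => bif b then cT else cF).getD j 0)) = true) ↔
        ∀ j < y.length, τ (var 0 r0 j (bif y.getD j false then cT else cF)) = true :=
      forall₂_congr fun j hj => by simp [hj]
    simp only [Mod, cookFormula, initClauses, rest, List.forall_mem_cons, List.forall_mem_append,
      List.cons_append, List.length_map, List.forall_mem_map, List.mem_range, List.mem_singleton,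
      exists_eq_left, this]
    tauto
  refine ⟨fun z => (rest (2 * z.1.length + 1 + z.2.1) z.2.2
      (M.time.eval (2 * z.1.length + 1 + z.2.1 + z.2.2)) ++
      (List.range (2 * z.1.length + 1)).map fun j =>
        [(var 0 r0 j (bif (pairStr z.1 []).getD j false then cT else cF), true)]).map
        (fun c => c.map fun l => (l.1 + z.2.1, l.2)) ++
      (List.range z.2.1).flatMap fun j =>
        [[(j, false), (var 0 r0 (2 * z.1.length + 1 + j) cT + z.2.1, true)],
          [(j, true), (var 0 r0 (2 * z.1.length + 1 + j) cF + z.2.1, true)]],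
    by simp only [rest, stepClauses, negPrem]; fun_prop, fun x u q => ?_⟩
  have e : ∀ w, pairStr x u ++ w = pairStr x (u ++ w) := fun w => by simp [pairStr]
  have := h (pairStr x u) q (M.time.eval (2 * x.length + 1 + u.length + q))
    (fun w => f (pairStr x (u ++ w))) fun w hw => by
      obtain ⟨h1, h2⟩ := M.outputsFun (pairStr x (u ++ w))
      rw [e]
      exact ⟨⟨h1, h2.trans (eval_mono _ (by simp [len_pair]; omega))⟩⟩
  simp only [← hf, Set.mem_ofPred_eq, unp_pairStr] at this
  rw [← this]
  change (∃ τ, Mod τ _) ↔ _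
  have g1 : ∀ j < 2 * x.length + 1, (pairStr x u).getD j false = (pairStr x []).getD j false :=
    fun j hj => by
      rw [show pairStr x u = pairStr x [] ++ u by simp [pairStr],
        List.getD_append _ _ _ _ (by rw [len_pair]; simpa using hj)]
  have g2 : ∀ j, (pairStr x u).getD (2 * x.length + 1 + j) false = u.getD j false := fun j => by
    rw [show pairStr x u = pairStr x [] ++ u by simp [pairStr],
      List.getD_append_right _ _ _ _ (by rw [len_pair]; simp), len_pair]; simp
  simp only [key, len_pair]
  have sh : ∀ τ (φ : CNF) m, Mod τ (φ.map fun c => c.map fun l => (l.1 + m, l.2)) ↔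
      Mod (fun n => τ (n + m)) φ := fun τ φ m => by simp [Mod]
  have ap : ∀ τ φ ψ, Mod τ (φ ++ ψ) ↔ Mod τ φ ∧ Mod τ ψ := fun _ _ _ => List.forall_mem_append
  simp only [sh, ap]
  generalize rest _ _ _ = φ
  simp only [Mod, List.forall_mem_map, List.mem_range, List.forall_mem_flatMap, List.forall_mem_cons,
    List.mem_singleton, exists_eq_left, List.mem_cons (a := (_ : ℕ × Bool)), exists_eq_or_imp,
    List.not_mem_nil, or_false]
  constructor
  · rintro ⟨τ, a, b⟩
    refine ⟨fun n => if n < u.length then u.getD n false else τ (n - u.length),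
      fun j hj => if_pos hj, ⟨by simpa using a, fun j hj => ?_⟩, fun j hj => ?_⟩
    · have := b j (by omega)
      rw [g1 j hj] at this
      simpa using this
    · have := b (2 * x.length + 1 + j) (by omega)
      rw [g2] at this
      simp only [if_pos hj]
      cases h : u.getD j false <;> simp_all
  · rintro ⟨τ, a, ⟨b, c⟩, d⟩
    refine ⟨fun n => τ (n + u.length), b, fun j hj => ?_⟩
    by_cases e : j < 2 * x.length + 1
    · rw [g1 j e]; exact c j e
    · obtain ⟨i, rfl⟩ := Nat.exists_eq_add_of_le (not_lt.1 e)
      have := d i (by omega)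
      rw [g2, ← a i (by omega)]
      revert this
      cases h : τ i <;> simp +contextual [h]

/-- some values of the first `m` variables extend to no satisfying assignment -/
def S2 (z : ℕ × CNF) : Prop := ∃ σ : ℕ → Bool, ∀ τ, (∀ j < z.1, τ j = σ j) → ¬ Mod τ z.2

def HardS2 (P : α → Prop) : Prop :=
  ∀ L, InSigma2 L → ∃ g : List Bool → α, PT g ∧ ∀ x, x ∈ L ↔ P (g x)

theorem HardS2.red {P : α → Prop} {Q : β → Prop} (h : HardS2 P) {r : α → β} (hr : PT r)
    (e : ∀ a, P a ↔ Q (r a)) : HardS2 Q := fun L hL =>
  let ⟨g, hg, h'⟩ := h L hL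
  ⟨fun x => r (g x), hr.comp hg, fun x => (h' x).trans (e _)⟩

theorem HardS2.hard [Dec α] {P : α → Prop} (h : HardS2 P) : Sigma2Hard (Lang P) := fun L hL =>
  let ⟨g, hg, h'⟩ := h L hL
  ⟨fun x => enc (g x), polyTime_of_PT hg, fun x => (h' x).trans mem_Lang.symm⟩

theorem hardS2 : HardS2 S2 := by
  rintro L ⟨R, ⟨R', h', p', e'⟩, p, e⟩
  obtain ⟨f, hf, e''⟩ := h'.pt
  let U : List Bool → List Bool → List Bool := fun x s =>
    (s.drop (p.eval x.length)).take ((s.take (p.eval x.length)).count true)
  obtain ⟨g, hg, h⟩ := cook_par (V := fun z => decide ((z.2.drop (2 * p.eval z.1.length)).length ≤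
    p'.eval (pairStr z.1 (U z.1 z.2)).length) && f (pairStr (pairStr z.1 (U z.1 z.2))
      (z.2.drop (2 * p.eval z.1.length)))) (by simp only [U]; fun_prop)
  refine ⟨fun x => (2 * p.eval x.length, g (x, 2 * p.eval x.length,
    p'.eval (2 * x.length + 1 + p.eval x.length))), by fun_prop, fun x => ?_⟩
  have lU : ∀ s, (U x s).length ≤ p.eval x.length := fun s => by
    have := List.count_le_length (a := true) (l := s.take (p.eval x.length))
    simp [U] at *; omega
  have k : ∀ u : List Bool, u.length = 2 * p.eval x.length → (pairStr x (U x u) ∈ R ↔ ∀ τ,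
      (∀ j < 2 * p.eval x.length, τ j = u.getD j false) → ¬ Mod τ (g (x, 2 * p.eval x.length,
        p'.eval (2 * x.length + 1 + p.eval x.length)))) := fun u hu => by
    have a : ∀ w, U x (u ++ w) = U x u := fun w => by
      have := List.count_le_length (a := true) (l := u.take (p.eval x.length))
      simp only [U]
      rw [List.take_append_of_le_length (by omega), List.drop_append_of_le_length (by omega),
        List.take_append_of_le_length (by simp at *; omega)]
    have := h x u (p'.eval (2 * x.length + 1 + p.eval x.length))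
    rw [hu] at this
    rw [← not_iff_not, ← Set.mem_compl_iff, e']
    push Not
    rw [← this]
    simp only [a, ← hu, List.drop_left, e'', Bool.and_eq_true, decide_eq_true_eq]
    refine exists_congr fun w => ⟨fun h => ⟨h.1.trans (eval_mono _ ?_), h⟩, And.right⟩
    rw [len_pair]; have := lU u; omega
  rw [e]
  constructor
  · rintro ⟨w, a, b⟩
    let u := List.replicate w.length true ++ List.replicate (p.eval x.length - w.length) false ++
      (w ++ List.replicate (p.eval x.length - w.length) false)
    refine ⟨_, (k u (by simp [u]; omega)).1 ?_⟩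
    convert b
    simp only [U, u]
    rw [List.take_left' (by simp; omega), List.drop_left' (by simp; omega)]
    simp [List.count_replicate]
  · rintro ⟨σ, a⟩
    refine ⟨_, lU _, (k ((List.range (2 * p.eval x.length)).map σ) (by simp)).2 fun τ b => a τ ?_⟩
    intro j hj
    simpa [hj] using b j hj

end Pool.Agent.Cx
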