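import Mathlib

set_option autoImplicit false

namespace Pool.Agent.Lib.helper9.SepDim

/-- Points with four coordinates and increasing edges, with the invariants of the construction. -/
structure Good {V : Type} (E : V → V → Prop) (p1 p2 p3 p4 : V → ℕ) : Prop where
  mono : ∀ a b, E a b → a ≠ b ∧ p1 a ≤ p1 b ∧ p2 a ≤ p2 b ∧ p3 a ≤ p3 b ∧ p4 a ≤ p4 b
  bow : ∀ a b c d, E a b → E c d → a ≠ c → a ≠ d → b ≠ c → b ≠ d →
    p1 a ≤ p1 d → p2 a ≤ p2 d → p3 a ≤ p3 d → p4 a ≤ p4 d →
    p1 c ≤ p1 b → p2 c ≤ p2 b → p3 c ≤ p3 b → p4 c ≤ p4 b → False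
  up : ∀ a b c, E a b → c ≠ a → c ≠ b → p1 a ≤ p1 c → p2 a ≤ p2 c →
    p1 c ≤ p1 b → p2 c ≤ p2 b → p3 c ≤ p3 b → p4 c ≤ p4 b → False
  inj : ∀ a b, p1 a = p1 b → p2 a = p2 b → a = b

/-- Every colouring with at most `k` colours has a monochromatic edge. -/
def NC {V : Type} (E : V → V → Prop) (k : ℕ) : Prop :=
  ∀ (col : V → ℕ) (C : Finset ℕ), C.card ≤ k → (∀ v, col v ∈ C) → ∃ a b, E a b ∧ col a = col b

theorem lex_le {L x y a b : ℕ} (ha : a < L) (hb : b < L) :
    x * L + a ≤ y * L + b ↔ x < y ∨ (x = y ∧ a ≤ b) := by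
  constructor
  · intro h
    rcases lt_trichotomy x y with h1 | h1 | h1
    · exact Or.inl h1
    · subst h1; exact Or.inr ⟨rfl, by omega⟩
    · exfalso
      have : (y + 1) * L ≤ x * L := Nat.mul_le_mul_right L h1
      nlinarith
  · rintro (h | ⟨rfl, h⟩)
    · have : (x + 1) * L ≤ y * L := Nat.mul_le_mul_right L h
      nlinarith
    · omega

theorem lex_eq {L x y a b : ℕ} (ha : a < L) (hb : b < L) (h : x * L + a = y * L + b) :
    x = y ∧ a = b := by
  have h1 := (lex_le ha hb).mp h.le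
  have h2 := (lex_le hb ha).mp h.ge
  omega

/-- Product pigeonhole principle. -/
theorem grid (m k : ℕ) : ∃ R N : ℕ, ∀ (col : Fin R × Fin N → ℕ) (C : Finset ℕ), C.card ≤ k →
    (∀ x, col x ∈ C) → ∃ (f : Fin m → Fin R) (g : Fin m → Fin N) (c : ℕ),
      StrictMono f ∧ StrictMono g ∧ c ∈ C ∧ ∀ i j, col (f i, g j) = c := by
  classical
  refine ⟨k * m + 1, k ^ (k * m + 1) * m + 1, ?_⟩
  intro col C hC hcol
  have h1 : Fintype.card (Fin (k * m + 1) → C) * m <
      Fintype.card (Fin (k ^ (k * m + 1) * m + 1)) := by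
    rw [Fintype.card_fun, Fintype.card_fin, Fintype.card_fin, Fintype.card_coe]
    have : C.card ^ (k * m + 1) ≤ k ^ (k * m + 1) := Nat.pow_le_pow_left hC _
    have := Nat.mul_le_mul_right m this
    omega
  obtain ⟨t, ht⟩ := Fintype.exists_lt_card_fiber_of_mul_lt_card
    (fun (j : Fin (k ^ (k * m + 1) * m + 1)) (i : Fin (k * m + 1)) =>
      (⟨col (i, j), hcol _⟩ : C)) h1
  have h2 : Fintype.card C * m < Fintype.card (Fin (k * m + 1)) := by
    rw [Fintype.card_fin, Fintype.card_coe]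
    have := Nat.mul_le_mul_right m hC
    omega
  obtain ⟨c, hc⟩ := Fintype.exists_lt_card_fiber_of_mul_lt_card t h2
  refine ⟨Finset.orderEmbOfCardLe _ hc.le, Finset.orderEmbOfCardLe _ ht.le, c.val,
    (Finset.orderEmbOfCardLe _ hc.le).strictMono, (Finset.orderEmbOfCardLe _ ht.le).strictMono,
    c.property, ?_⟩
  intro i j
  have a1 := Finset.orderEmbOfCardLe_mem _ hc.le i
  have a2 := Finset.orderEmbOfCardLe_mem _ ht.le j
  simp only [Finset.mem_filter, Finset.mem_univ, true_and] at a1 a2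
  have := congrFun a2 (Finset.orderEmbOfCardLe _ hc.le i)
  rw [a1] at this
  exact congrArg Subtype.val this

section step

variable {V X I : Type} (E : V → V → Prop) (x : I → V → X)

/-- Edges of the next graph: copies of the old graph and a matching from each copy to the grid. -/
def E' : X ⊕ (I × V) → X ⊕ (I × V) → Prop
  | Sum.inr a, Sum.inr b => a.1 = b.1 ∧ E a.2 b.2
  | Sum.inr a, Sum.inl y => y = x a.1 a.2
  | Sum.inl _, _ => False

/-- Interleaved coordinate. -/
def qa (r : X → ℕ) (M : ℕ) (t : I → ℕ) : X ⊕ (I × V) → ℕ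
  | Sum.inl y => r y * (M + 1) + M
  | Sum.inr a => r (x a.1 a.2) * (M + 1) + t a.1

/-- Block coordinate. -/
def qb (p : V → ℕ) (M L : ℕ) (t : I → ℕ) : X ⊕ (I × V) → ℕ
  | Sum.inl _ => M * L + 0
  | Sum.inr a => t a.1 * L + p a.2

end step

theorem step_good {V X I : Type} (E : V → V → Prop) (p1 p2 p3 p4 : V → ℕ)
    (hG : Good E p1 p2 p3 p4) (x : I → V → X) (r1 r2 : X → ℕ)
    (hr : ∀ y z, r1 y = r1 z → r2 y = r2 z → y = z)
    (h1 : ∀ S a b, r1 (x S a) ≤ r1 (x S b) ↔ p1 a ≤ p1 b)
    (h2 : ∀ S a b, r2 (x S a) ≤ r2 (x S b) ↔ p2 a ≤ p2 b)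
    (M L : ℕ) (t u : I → ℕ) (ht : ∀ S, t S < M) (hu : ∀ S, u S < M)
    (htu : ∀ S T, t S ≤ t T → u S ≤ u T → S = T) (htt : ∀ S T, t S = t T → S = T)
    (huu : ∀ S T, u S = u T → S = T)
    (hL : 0 < L) (h3 : ∀ v, p3 v < L) (h4 : ∀ v, p4 v < L) :
    Good (E' E x) (qa x r1 M t) (qa x r2 M u) (qb p3 M L t) (qb p4 M L u) := by
  have tM : ∀ S, t S < M + 1 := fun S => Nat.lt_succ_of_lt (ht S)
  have uM : ∀ S, u S < M + 1 := fun S => Nat.lt_succ_of_lt (hu S)
  have MM : M < M + 1 := Nat.lt_succ_self M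
  have same : ∀ (a b : I × V), qb (X := X) p3 M L t (Sum.inr a) ≤ qb (X := X) p3 M L t (Sum.inr b) →
      qb (X := X) p4 M L u (Sum.inr a) ≤ qb (X := X) p4 M L u (Sum.inr b) →
      a.1 = b.1 ∧ p3 a.2 ≤ p3 b.2 ∧ p4 a.2 ≤ p4 b.2 := by
    intro a b e3 e4
    simp only [qb] at e3 e4
    rw [lex_le (h3 _) (h3 _)] at e3
    rw [lex_le (h4 _) (h4 _)] at e4
    have hS : a.1 = b.1 := htu _ _ (by omega) (by omega)
    rw [hS] at e3 e4
    exact ⟨hS, by omega, by omega⟩
  have in1 : ∀ (S : I) (a b : V), qa x r1 M t (Sum.inr (S, a)) ≤ qa x r1 M t (Sum.inr (S, b)) ↔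
      p1 a ≤ p1 b := by
    intro S a b
    simp only [qa]
    rw [lex_le (tM _) (tM _), ← h1 S]
    omega
  have in2 : ∀ (S : I) (a b : V), qa x r2 M u (Sum.inr (S, a)) ≤ qa x r2 M u (Sum.inr (S, b)) ↔
      p2 a ≤ p2 b := by
    intro S a b
    simp only [qa]
    rw [lex_le (uM _) (uM _), ← h2 S]
    omega
  have to1 : ∀ (a : I × V) (y : X), qa x r1 M t (Sum.inr a) ≤ qa x r1 M t (Sum.inl y) ↔
      r1 (x a.1 a.2) ≤ r1 y := by
    intro a y
    simp only [qa]
    rw [lex_le (tM _) MM]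
    have := ht a.1
    omega
  have to2 : ∀ (a : I × V) (y : X), qa x r2 M u (Sum.inr a) ≤ qa x r2 M u (Sum.inl y) ↔
      r2 (x a.1 a.2) ≤ r2 y := by
    intro a y
    simp only [qa]
    rw [lex_le (uM _) MM]
    have := hu a.1
    omega
  have top3 : ∀ (a : I × V) (y : X), ¬ qb p3 M L t (Sum.inl y) ≤ qb (X := X) p3 M L t (Sum.inr a) := by
    intro a y
    simp only [qb]
    rw [lex_le hL (h3 _)]
    have := ht a.1
    omega
  have top4 : ∀ (a : I × V) (y : X), ¬ qb p4 M L u (Sum.inl y) ≤ qb (X := X) p4 M L u (Sum.inr a) := by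
    intro a y
    simp only [qb]
    rw [lex_le hL (h4 _)]
    have := hu a.1
    omega
  refine ⟨?_, ?_, ?_, ?_⟩
  · rintro (a | ⟨S, a⟩) (b | ⟨T, b⟩) hab
    · exact hab.elim
    · exact hab.elim
    · have hb : b = x S a := hab
      subst hb
      refine ⟨by simp, (to1 _ _).mpr le_rfl, (to2 _ _).mpr le_rfl, ?_, ?_⟩
      · exact (not_le.mp (top3 _ _)).le
      · exact (not_le.mp (top4 _ _)).le
    · obtain ⟨hS, hE⟩ := hab
      simp only at hS hE
      subst hS
      obtain ⟨n, m1, m2, m3, m4⟩ := hG.mono a b hE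
      refine ⟨by simpa using n, (in1 _ _ _).mpr m1, (in2 _ _ _).mpr m2, ?_, ?_⟩
      · simp only [qb]; omega
      · simp only [qb]; omega
  · rintro (a | ⟨S, a⟩) (b | ⟨S', b⟩) (c | ⟨T, c⟩) (d | ⟨T', d⟩) hab hcd nac nad nbc nbd
      a1 a2 a3 a4 c1 c2 c3 c4
    all_goals first | exact hab.elim | exact hcd.elim | skip
    · have hb : b = x S a := hab
      have hd : d = x T c := hcd
      rw [to1] at a1 c1
      rw [to2] at a2 c2
      simp only at a1 a2 c1 c2
      rw [← hb] at a1 a2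
      rw [← hd] at c1 c2
      exact nbd (by rw [hr b d (by omega) (by omega)])
    · have hb : b = x S a := hab
      obtain ⟨hT, hE⟩ := hcd
      simp only at hT hE
      subst hT
      obtain ⟨hS, e3, e4⟩ := same _ _ a3 a4
      simp only at hS e3 e4
      subst hS
      rw [to1, hb] at c1
      rw [to2, hb] at c2
      exact hG.up c d a hE (by simpa using nac) (by simpa using nad) ((h1 _ _ _).mp c1)
        ((h2 _ _ _).mp c2) ((in1 _ _ _).mp a1) ((in2 _ _ _).mp a2) e3 e4
    · have hd : d = x T c := hcd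
      obtain ⟨hS, hE⟩ := hab
      simp only at hS hE
      subst hS
      obtain ⟨hS, e3, e4⟩ := same _ _ c3 c4
      simp only at hS e3 e4
      subst hS
      rw [to1, hd] at a1
      rw [to2, hd] at a2
      exact hG.up a b c hE (by simpa using nac.symm) (by simpa using nbc.symm) ((h1 _ _ _).mp a1)
        ((h2 _ _ _).mp a2) ((in1 _ _ _).mp c1) ((in2 _ _ _).mp c2) e3 e4
    · obtain ⟨hS, hE⟩ := hab
      obtain ⟨hT, hF⟩ := hcd
      simp only at hS hE hT hF
      subst hS
      subst hT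
      obtain ⟨hS, e3, e4⟩ := same _ _ a3 a4
      obtain ⟨_, f3, f4⟩ := same _ _ c3 c4
      simp only at hS e3 e4 f3 f4
      subst hS
      exact hG.bow a b c d hE hF (by simpa using nac) (by simpa using nad) (by simpa using nbc)
        (by simpa using nbd) ((in1 _ _ _).mp a1) ((in2 _ _ _).mp a2) e3 e4
        ((in1 _ _ _).mp c1) ((in2 _ _ _).mp c2) f3 f4
  · rintro (a | ⟨S, a⟩) (b | ⟨S', b⟩) (c | ⟨T, c⟩) hab nca ncb a1 a2 c1 c2 c3 c4
    all_goals first | exact hab.elim | skip
    · have hb : b = x S a := hab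
      rw [to1] at a1
      rw [to2] at a2
      simp only [qa] at c1 c2 a1 a2
      rw [lex_le MM MM] at c1 c2
      rw [← hb] at a1 a2
      exact ncb (by rw [hr c b (by omega) (by omega)])
    · have hb : b = x S a := hab
      rw [to1, hb] at c1
      rw [to2, hb] at c2
      simp only [qa] at c1 c2 a1 a2
      rw [lex_le (tM _) (tM _)] at a1
      rw [lex_le (uM _) (uM _)] at a2
      have hS : S = T := htu _ _ (by omega) (by omega)
      subst hS
      have e1 := (h1 S c a).mp c1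
      have e2 := (h2 S c a).mp c2
      have e3 := (h1 S a c).mp (by omega)
      have e4 := (h2 S a c).mp (by omega)
      exact nca (by rw [hG.inj c a (by omega) (by omega)])
    · exact top3 _ _ c3
    · obtain ⟨hS, hE⟩ := hab
      simp only at hS hE
      subst hS
      obtain ⟨hS, e3, e4⟩ := same _ _ c3 c4
      simp only at hS e3 e4
      subst hS
      exact hG.up a b c hE (by simpa using nca) (by simpa using ncb) ((in1 _ _ _).mp a1)
        ((in2 _ _ _).mp a2) ((in1 _ _ _).mp c1) ((in2 _ _ _).mp c2) e3 e4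
  · rintro (a | ⟨S, a⟩) (b | ⟨T, b⟩) e1 e2
    · simp only [qa] at e1 e2
      rw [hr a b (lex_eq MM MM e1).1 (lex_eq MM MM e2).1]
    · simp only [qa] at e1
      have := (lex_eq MM (tM _) e1).2
      have := ht T
      omega
    · simp only [qa] at e1
      have := (lex_eq (tM _) MM e1).2
      have := ht S
      omega
    · have e1' := e1
      simp only [qa] at e1'
      have hS : S = T := htt _ _ (lex_eq (tM _) (tM _) e1').2
      subst hS
      have f1 := (in1 _ _ _).mp e1.le
      have f2 := (in1 _ _ _).mp e1.ge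
      have f3 := (in2 _ _ _).mp e2.le
      have f4 := (in2 _ _ _).mp e2.ge
      rw [hG.inj a b (by omega) (by omega)]

theorem exists_good (k : ℕ) : ∃ (V : Type) (_ : Finite V) (E : V → V → Prop)
    (p1 p2 p3 p4 : V → ℕ), Good E p1 p2 p3 p4 ∧ NC E k := by
  induction k with
  | zero =>
    refine ⟨Unit, inferInstance, fun _ _ => False, fun _ => 0, fun _ => 0, fun _ => 0, fun _ => 0,
      ⟨fun _ _ h => h.elim, fun _ _ _ _ h => h.elim, fun _ _ _ h => h.elim, fun _ _ _ _ => rfl⟩, ?_⟩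
    intro col C hC h
    have := h ()
    rw [Finset.card_eq_zero.mp (Nat.le_zero.mp hC)] at this
    simp at this
  | succ k ih =>
    classical
    obtain ⟨V, hV, E, p1, p2, p3, p4, hG, hN⟩ := ih
    obtain ⟨m0, hm0⟩ := (Set.finite_range (fun v => p1 v + p2 v + p3 v + p4 v)).bddAbove
    have hm : ∀ v, p1 v + p2 v + p3 v + p4 v < m0 + 1 := fun v =>
      Nat.lt_succ_of_le (hm0 ⟨v, rfl⟩)
    obtain ⟨R, N, hRN⟩ := grid (m0 + 1) (k + 1)
    let I : Type := {fg : (Fin (m0 + 1) → Fin R) × (Fin (m0 + 1) → Fin N) //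
      StrictMono fg.1 ∧ StrictMono fg.2}
    have hI : Finite I := inferInstance
    obtain ⟨M, ⟨e⟩⟩ := Finite.exists_equiv_fin I
    let P1 : V → Fin (m0 + 1) := fun v => ⟨p1 v, by have := hm v; omega⟩
    let P2 : V → Fin (m0 + 1) := fun v => ⟨p2 v, by have := hm v; omega⟩
    let x : I → V → Fin R × Fin N := fun S v => (S.val.1 (P1 v), S.val.2 (P2 v))
    refine ⟨(Fin R × Fin N) ⊕ (I × V), inferInstance, E' E x,
      qa x (fun y => y.1.val) M (fun S => (e S).val),
      qa x (fun y => y.2.val) M (fun S => M - 1 - (e S).val),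
      qb p3 M (m0 + 1) (fun S => (e S).val),
      qb p4 M (m0 + 1) (fun S => M - 1 - (e S).val), ?_, ?_⟩
    · apply step_good E p1 p2 p3 p4 hG
      · intro y z h1 h2
        exact Prod.ext (Fin.ext h1) (Fin.ext h2)
      · intro S a b
        exact S.property.1.le_iff_le
      · intro S a b
        exact S.property.2.le_iff_le
      · intro S
        exact (e S).isLt
      · intro S
        have := (e S).isLt
        omega
      · intro S T h1 h2
        have := (e S).isLt
        have := (e T).isLt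
        exact e.injective (Fin.ext (by omega))
      · intro S T h1
        exact e.injective (Fin.ext h1)
      · intro S T h1
        have := (e S).isLt
        have := (e T).isLt
        exact e.injective (Fin.ext (by omega))
      · omega
      · intro v
        have := hm v
        omega
      · intro v
        have := hm v
        omega
    · intro col C hC hcol
      obtain ⟨f, g, c, hf, hg, hc, hfg⟩ := hRN (fun y => col (Sum.inl y)) C hC (fun y => hcol _)
      let S : I := ⟨(f, g), hf, hg⟩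
      by_cases hex : ∃ v, col (Sum.inr (S, v)) = c
      · obtain ⟨v, hv⟩ := hex
        refine ⟨Sum.inr (S, v), Sum.inl (x S v), rfl, ?_⟩
        rw [hv]
        exact (hfg _ _).symm
      · push Not at hex
        obtain ⟨a, b, hab, hc'⟩ := hN (fun v => col (Sum.inr (S, v))) (C.erase c)
          (by rw [Finset.card_erase_of_mem hc]; omega)
          (fun v => Finset.mem_erase.mpr ⟨hex v, hcol _⟩)
        exact ⟨Sum.inr (S, a), Sum.inr (S, b), ⟨rfl, hab⟩, hc'⟩

/-- For every `k` there is a graph on `Fin n`, not `k`-colourable, with four separating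
coordinates. -/
theorem exists_graph (k : ℕ) : ∃ (n : ℕ) (G : SimpleGraph (Fin n)) (f : Fin 4 → Fin n → ℕ),
    ¬ G.Colorable k ∧ ∀ a b x y : Fin n, G.Adj a b → G.Adj x y →
      a ≠ x → a ≠ y → b ≠ x → b ≠ y →
      ∃ i : Fin 4, max (f i a) (f i b) < min (f i x) (f i y) ∨
        max (f i x) (f i y) < min (f i a) (f i b) := by
  obtain ⟨V, hV, E, p1, p2, p3, p4, hG, hN⟩ := exists_good k
  obtain ⟨n, ⟨e⟩⟩ := Finite.exists_equiv_fin V
  let G : SimpleGraph (Fin n) :=
    { Adj := fun a b => E (e.symm a) (e.symm b) ∨ E (e.symm b) (e.symm a)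
      symm := ⟨fun _ _ h => h.symm⟩
      loopless := ⟨fun a h => by
        rcases h with h | h <;> exact (hG.mono _ _ h).1 rfl⟩ }
  let f : Fin 4 → Fin n → ℕ := fun i a => ![p1 (e.symm a), p2 (e.symm a), p3 (e.symm a), p4 (e.symm a)] i
  have key : ∀ a b x y : Fin n, E (e.symm a) (e.symm b) → E (e.symm x) (e.symm y) →
      a ≠ x → a ≠ y → b ≠ x → b ≠ y →
      ∃ i : Fin 4, max (f i a) (f i b) < min (f i x) (f i y) ∨
        max (f i x) (f i y) < min (f i a) (f i b) := by
    intro a b x y hab hxy n1 n2 n3 n4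
    by_contra hcon
    push Not at hcon
    have c0 := hcon 0
    have c1 := hcon 1
    have c2 := hcon 2
    have c3 := hcon 3
    simp only [f, Matrix.cons_val_zero, Matrix.cons_val_one, Matrix.cons_val] at c0 c1 c2 c3
    obtain ⟨_, m1, m2, m3, m4⟩ := hG.mono _ _ hab
    obtain ⟨_, l1, l2, l3, l4⟩ := hG.mono _ _ hxy
    exact hG.bow _ _ _ _ hab hxy (e.symm.injective.ne n1) (e.symm.injective.ne n2)
      (e.symm.injective.ne n3) (e.symm.injective.ne n4) (by omega) (by omega) (by omega) (by omega)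
      (by omega) (by omega) (by omega) (by omega)
  refine ⟨n, G, f, ?_, ?_⟩
  · rintro ⟨col⟩
    obtain ⟨a, b, hab, hc⟩ := hN (fun v => (col (e v)).val) (Finset.range k) (by simp)
      (fun v => Finset.mem_range.mpr (col (e v)).isLt)
    have hadj : G.Adj (e a) (e b) := Or.inl (by simpa using hab)
    exact col.valid hadj (Fin.ext hc)
  · intro a b x y hab hxy n1 n2 n3 n4
    rcases hab with hab | hab <;> rcases hxy with hxy | hxy
    · exact key a b x y hab hxy n1 n2 n3 n4
    · obtain ⟨i, hi⟩ := key a b y x hab hxy n2 n1 n4 n3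
      exact ⟨i, by omega⟩
    · obtain ⟨i, hi⟩ := key b a x y hab hxy n3 n4 n1 n2
      exact ⟨i, by omega⟩
    · obtain ⟨i, hi⟩ := key b a y x hab hxy n4 n3 n2 n1
      exact ⟨i, by omega⟩

end Pool.Agent.Lib.helper9.SepDim
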