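import Mathlib

set_option autoImplicit false

namespace Pool.Agent.Lib.helper9.SetStab

open Equiv

variable {Q : Type} [CommGroup Q] [Fintype Q]

abbrev W (Q : Type) [CommGroup Q] := RegularWreathProduct (Perm (Fin 3)) Q

lemma prod_shift {M : Type} [CommMonoid M] (r : Q) (f : Q → M) : ∏ x, f (r * x) = ∏ x, f x :=
  Fintype.prod_equiv (Equiv.mulLeft r) _ _ (fun _ => rfl)

/-- total sign -/
def tot : W Q →* ℤˣ where
  toFun w := ∏ x, Perm.sign (w.left x)
  map_one' := by simp
  map_mul' a b := by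
    simp only [RegularWreathProduct.mul_left, Pi.mul_apply, map_mul, Finset.prod_mul_distrib]
    rw [prod_shift a.right⁻¹ (fun x => Perm.sign (b.left x))]

def e (hQ : ∀ x : Q, x * x = 1) (x : Q) : ℤˣ →* Q where
  toFun s := if s = 1 then 1 else x
  map_one' := by simp
  map_mul' s t := by
    rcases Int.units_eq_one_or s with rfl | rfl <;> rcases Int.units_eq_one_or t with rfl | rfl <;>
      simp [hQ]

omit [Fintype Q] in
lemma e_mul (hQ : ∀ x : Q, x * x = 1) (x y : Q) (s : ℤˣ) : e hQ (x * y) s = e hQ x s * e hQ y s := by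
  by_cases h : s = 1 <;> simp [e, h]

def psi (hQ : ∀ x : Q, x * x = 1) : (tot (Q := Q)).ker →* Q where
  toFun w := ∏ x, e hQ x (Perm.sign (w.1.left x))
  map_one' := by simp
  map_mul' a b := by
    have hb : ∏ x, Perm.sign (b.1.left x) = 1 := b.2
    simp only [Subgroup.coe_mul, RegularWreathProduct.mul_left, Pi.mul_apply, map_mul,
      Finset.prod_mul_distrib]
    congr 1
    rw [← prod_shift a.1.right]
    simp only [inv_mul_cancel_left, e_mul, Finset.prod_mul_distrib]
    rw [← map_prod, hb, map_one, one_mul]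

def rho : (tot (Q := Q)).ker →* Perm (Fin 3 × Q) :=
  (MulAction.toPermHom (W Q) (Fin 3 × Q)).comp (tot (Q := Q)).ker.subtype

lemma rho_inj : Function.Injective (rho (Q := Q)) :=
  MulAction.toPerm_injective.comp Subtype.val_injective

lemma rho_apply (w : (tot (Q := Q)).ker) (p : Fin 3 × Q) :
    rho w p = (w.1.left (w.1.right * p.2) p.1, w.1.right * p.2) := rfl

lemma odd_stab (s : Fin 3 → Bool) : ∃ τ : Perm (Fin 3), Perm.sign τ = -1 ∧ ∀ i, s (τ i) = s i := by
  revert s; decide

lemma even_trans (i j : Fin 3) : ∃ τ : Perm (Fin 3), Perm.sign τ = 1 ∧ τ i = j := by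
  revert i j; decide

lemma trans (a b : Fin 3 × Q) : ∃ w, rho w a = b := by
  obtain ⟨τ, h1, h2⟩ := even_trans a.1 b.1
  refine ⟨⟨⟨fun _ => τ, b.2 * a.2⁻¹⟩, ?_⟩, ?_⟩
  · simp [MonoidHom.mem_ker, tot, h1]
  · rw [rho_apply]; simp [h2]

lemma stab (hQ : ∀ x : Q, x * x = 1) (Δ : Set (Fin 3 × Q)) (y : Q) :
    ∃ w, rho w '' Δ = Δ ∧ psi hQ w = y := by
  classical
  by_cases hy : y = 1
  · exact ⟨1, by simp, by simp [hy]⟩
  choose τ h1 h2 using fun x : Q => odd_stab (fun i => decide ((i, x) ∈ Δ))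
  have hs : ∀ x, Perm.sign (if x = 1 ∨ x = y then τ x else 1) =
      (if x = 1 then -1 else 1) * (if x = y then -1 else 1) := by
    intro x
    by_cases a : x = 1
    · subst a; simp [h1, Ne.symm hy]
    · by_cases b : x = y
      · subst b; simp [h1, a]
      · simp [a, b]
  refine ⟨⟨⟨fun x => if x = 1 ∨ x = y then τ x else 1, 1⟩, ?_⟩, ?_, ?_⟩
  · simp only [MonoidHom.mem_ker, tot, MonoidHom.coe_mk, OneHom.coe_mk, hs,
      Finset.prod_mul_distrib]
    simp
  · apply Set.BijOn.image_eq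
    apply Equiv.bijOn
    intro p
    rw [rho_apply]
    simp only [one_mul]
    split_ifs
    · simpa using h2 p.2 p.1
    · simp
  · simp only [psi, MonoidHom.coe_mk, OneHom.coe_mk, hs, map_mul, Finset.prod_mul_distrib]
    have f : ∀ z : Q, ∏ x, e hQ x (if x = z then -1 else 1) = z := by
      intro z
      rw [Finset.prod_eq_single z]
      · simp [e]
      · intro b _ hb; simp [hb]
      · simp
    rw [f, f, one_mul]

end Pool.Agent.Lib.helper9.SetStab
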