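import Pool.Agent.Lib.helper9.SpB

/-! The tableau of the Cook-Levin theorem with the data needed for counting. -/

namespace Pool.Agent.Cx

open Function Polynomial Turing

def Good (nK D A : ℕ) (r : Rule) : Prop :=
  ∀ x ∈ r.1, x.1 ≤ nK ∧ (x.1 = 0 → x.2.1 = 0) ∧ x.2.1 < D ∧ x.2.2 < A

open Classical in
noncomputable def fixR (nK D A : ℕ) (R : List Rule) : List Rule :=
  (R.filter fun r => decide (Good nK D A r)).map fun r =>
    (r.1, r.2.1, r.2.2.filter fun x => decide (x.1 ≠ 0 ∧ x.1 ≤ nK))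

lemma fixR_good {nK D A : ℕ} {R : List Rule} {r : Rule} (h : r ∈ fixR nK D A R) :
    Good nK D A r ∧ ∀ x ∈ r.2.2, x.1 ≠ 0 ∧ x.1 ≤ nK := by
  obtain ⟨r, hr, rfl⟩ := List.mem_map.1 h
  exact ⟨by simpa [Good] using (List.mem_filter.1 hr).2, fun x hx => by simpa using (List.mem_filter.1 hx).2⟩

lemma refine_sys {nK D A : ℕ} {R : List Rule} {s s' : ℕ → ℕ → ℕ} (hA : ∀ k j, s k j < A)
    (h1 : ∃ r ∈ R, (∀ x ∈ r.1, x.1 ≤ nK ∧ (x.1 = 0 → x.2.1 = 0) ∧ x.2.1 < D ∧ s x.1 x.2.1 = x.2.2) ∧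
      ∀ k j, k ≤ nK → (k = 0 → j = 0) → (k, j, s' k j) ∈ r.2.1 ∨
        ∃ len, k ≠ 0 ∧ (k, len) ∈ r.2.2 ∧ len ≤ j ∧ s' k j = s k (j - len + D))
    (h2 : ∀ r ∈ R, (∀ x ∈ r.1, s x.1 x.2.1 = x.2.2) →
      (∀ x ∈ r.2.1, s' x.1 x.2.1 = x.2.2) ∧ ∀ x ∈ r.2.2, ∀ j, s' x.1 (j + x.2) = s x.1 (j + D)) :
    (∃ r ∈ fixR nK D A R, (∀ x ∈ r.1, x.1 ≤ nK ∧ (x.1 = 0 → x.2.1 = 0) ∧ x.2.1 < D ∧
      s x.1 x.2.1 = x.2.2) ∧ ∀ k j, k ≤ nK → (k = 0 → j = 0) → (k, j, s' k j) ∈ r.2.1 ∨
        ∃ len, k ≠ 0 ∧ (k, len) ∈ r.2.2 ∧ len ≤ j ∧ s' k j = s k (j - len + D)) ∧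
    ∀ r ∈ fixR nK D A R, (∀ x ∈ r.1, s x.1 x.2.1 = x.2.2) →
      (∀ x ∈ r.2.1, s' x.1 x.2.1 = x.2.2) ∧ ∀ x ∈ r.2.2, ∀ j, s' x.1 (j + x.2) = s x.1 (j + D) := by
  classical
  constructor
  · obtain ⟨r, hr, a, b⟩ := h1
    refine ⟨_, List.mem_map_of_mem (List.mem_filter.2 ⟨hr, by
      rw [decide_eq_true_eq]
      exact fun x hx => ⟨(a x hx).1, (a x hx).2.1, (a x hx).2.2.1, (a x hx).2.2.2 ▸ hA _ _⟩⟩), a,
      fun k j hk hj => (b k j hk hj).imp id fun ⟨len, c, d, e⟩ => ⟨len, c, by simp [d, c, hk], e⟩⟩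
  · intro r hr hp
    obtain ⟨r, hr', rfl⟩ := List.mem_map.1 hr
    obtain ⟨a, b⟩ := h2 r (List.mem_filter.1 hr').1 hp
    exact ⟨a, fun x hx => b x (List.mem_filter.1 hx).1⟩

theorem cook_core' (tm : FinTM2) (eI : tm.Γ tm.k₀ ≃ Bool) (eO : tm.Γ tm.k₁ ≃ Bool) :
    ∃ (R : List Rule) (D A nK r0 r1 c0 cF cT cR : ℕ), 0 < D ∧ 0 < A ∧ cR < A ∧ r0 ≠ 0 ∧ r0 ≤ nK ∧
      r1 ≤ nK ∧ (∀ r ∈ R, Good nK D A r ∧ ∀ x ∈ r.2.2, x.1 ≠ 0 ∧ x.1 ≤ nK) ∧ ∀ (y : List Bool) (q T : ℕ)
      (f : List Bool → Bool), (∀ w : List Bool, w.length ≤ q →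
        Nonempty (TM2OutputsInTime tm ((y ++ w).map eI.symm) (some [eO.symm (f w)]) T)) →
      ∃ s : List Bool → ℕ → ℕ → ℕ → ℕ, (∀ w t r j, s w t r j < A) ∧
        (∀ w w' : List Bool, (∀ j, j < w.length ∨ j < w'.length →
          s w 0 r0 (y.length + j) = s w' 0 r0 (y.length + j)) → w = w') ∧
        (∀ τ : ℕ → Bool, (∀ c ∈ cookFormula R D A nK r0 r1 c0 cF cT cR y q T, ∃ l ∈ c, τ l.1 = l.2) →
          ∃ w, w.length ≤ q ∧ f w = true ∧ ∀ t ≤ T, ∀ k j, k ≤ nK → (k = 0 → j = 0) →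
            j + t * D < (T + 1) * D → τ (var t k j (s w t k j)) = true) ∧
        ∀ w, w.length ≤ q → f w = true →
          ∀ c ∈ cookFormula R D A nK r0 r1 c0 cF cT cR y q T, ∃ l ∈ c, trueAsg (s w) l.1 = l.2 := by
  classical
  let _ := tm.kFin
  let _ := tm.ΛFin
  let _ := tm.σFin
  let _ := tm.Γk₀Fin
  set U : Set (Σ k, tm.Γ k) := (⋃ l, syms (tm.m l)) ∪ Set.range (Sigma.mk tm.k₀) ∪
    Set.range (fun b => ⟨tm.k₁, eO.symm b⟩) with hUdef
  have hU : U.Finite := ((Set.finite_iUnion fun l => syms_finite _).union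
    (Set.finite_range _)).union (Set.finite_range _)
  have hU1 : ∀ l, syms (tm.m l) ⊆ U := fun l x hx => Or.inl (Or.inl (Set.mem_iUnion.2 ⟨l, hx⟩))
  have hU2 : ∀ a, (⟨tm.k₀, a⟩ : Σ k, tm.Γ k) ∈ U := fun a => Or.inl (Or.inr ⟨a, rfl⟩)
  have hU3 : ∀ b, (⟨tm.k₁, eO.symm b⟩ : Σ k, tm.Γ k) ∈ U := fun b => Or.inr ⟨b, rfl⟩
  obtain ⟨cc, A0, hc0, hcA, hcc⟩ := exists_code U hU
  obtain ⟨lc, hlc⟩ := exists_injective_nat (Option tm.Λ × tm.σ)
  obtain ⟨A1, hA1⟩ := (Set.finite_range lc).bddAbove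
  obtain ⟨A, hcA, hA⟩ : ∃ A, (∀ k o, cc k o < A) ∧ ∀ C r j, snap lc cc C r j < A := by
    refine ⟨A0 + A1 + 1, fun k o => (hcA k o).trans (by omega), fun C r j => ?_⟩
    unfold snap
    split_ifs
    · have := hA1 ⟨(C.l, C.var), rfl⟩; omega
    · exact (hcA _ _).trans (by omega)
    · omega
  obtain ⟨R0, D, hD0, hR0⟩ := exists_system tm.m U hU lc hlc cc hcc
  have hR := fun C h => refine_sys (hA C) (hR0 C h).1 (hR0 C h).2
  set R := fixR (Fintype.card tm.K) D A R0
  refine ⟨R, D, A, Fintype.card tm.K, row tm.k₀, row tm.k₁, lc (some tm.main, tm.initialState),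
    cc _ (some (eI.symm false)), cc _ (some (eI.symm true)), cc _ (some (eO.symm false)),
    hD0, (Nat.zero_le _).trans_lt (hcA tm.k₀ none), hcA _ _, by simp [row], row_le _, row_le _,
    fun r hr => fixR_good hr, fun y q T f hf => ?_⟩
  let C : List Bool → ℕ → TM2.Cfg tm.Γ tm.Λ tm.σ := fun w t =>
    (next tm.m)^[t] (initList tm ((y ++ w).map eI.symm))
  let s : List Bool → ℕ → ℕ → ℕ → ℕ := fun w t => snap lc cc (C w t)
  have hi0 : ∀ L, (initList tm L).stk tm.k₀ = L := fun L => by simp [initList]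
  have hi1 : ∀ L k, k ≠ tm.k₀ → (initList tm L).stk k = [] := fun L k hk => by
    simp [initList, hk]
  have hCs : ∀ w t, C w (t + 1) = next tm.m (C w t) := fun w t => iterate_succ_apply' _ _ _
  have hval : ∀ w t k, ∀ a ∈ (C w t).stk k, (⟨k, a⟩ : Σ k, tm.Γ k) ∈ U := by
    intro w t
    induction t with
    | zero =>
      intro k a ha
      by_cases hk : k = tm.k₀
      · subst hk; exact hU2 a
      · have : (C w 0).stk k = [] := hi1 _ k hk
        simp [this] at ha
    | succ t ih => rw [hCs]; exact next_inv _ U hU1 _ ih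
  have hfin : ∀ w : List Bool, w.length ≤ q →
      s w T (row tm.k₁) 0 = cc _ (some (eO.symm (f w))) := by
    intro w hw
    obtain ⟨⟨⟨n, h1⟩, h2⟩⟩ := hf w hw
    have h3 := next_iter tm.m n _ _ h1
    have h4 : C w T = haltList tm [eO.symm (f w)] := by
      obtain ⟨d, rfl⟩ := Nat.exists_eq_add_of_le h2
      simp only [C]
      rw [iter_add, h3]
      exact iterate_fixed rfl _
    simp only [s]
    rw [snap_row, h4]
    simp [haltList]
  have hs0 : ∀ w j, s w 0 (row tm.k₀) j = cc _ (((y ++ w)[j]?).map eI.symm) := by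
    intro w j
    simp only [s]
    rw [snap_row]
    have : (C w 0).stk tm.k₀ = (y ++ w).map eI.symm := hi0 _
    rw [this, List.getElem?_map]
  have hs1 : ∀ w r j, r ≠ 0 → r ≤ Fintype.card tm.K → r ≠ row tm.k₀ → s w 0 r j = 0 := by
    intro w r j h0 h1 h2
    obtain ⟨k, rfl⟩ := exists_row h0 h1
    simp only [s]
    rw [snap_row]
    have : (C w 0).stk k = [] := hi1 _ k (fun e => h2 (by rw [e]))
    simp [this, hc0]
  have hs2 : ∀ w, s w 0 0 0 = lc (some tm.main, tm.initialState) := fun w => snap_zero _ _ _ _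
  have hy : ∀ w j, j < y.length → s w 0 (row tm.k₀) j =
      (y.map fun b => bif b then cc _ (some (eI.symm true)) else
        cc _ (some (eI.symm false))).getD j 0 := by
    intro w j hj
    rw [hs0, List.getElem?_append_left hj]
    simp only [List.getD_eq_getElem?_getD, List.getElem?_map, List.getElem?_eq_getElem hj,
      Option.map_some, Option.getD_some]
    cases y[j] <;> rfl
  have hw' : ∀ w j, s w 0 (row tm.k₀) (y.length + j) = cc _ ((w[j]?).map eI.symm) := by
    intro w j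
    rw [hs0, List.getElem?_append_right (by omega)]; simp
  refine ⟨s, fun _ _ _ _ => hA _ _ _, fun w w' h => List.ext_getElem? fun j => ?_, ?_, ?_⟩
  · by_cases hj : j < w.length ∨ j < w'.length
    · have := h j hj
      rw [hw', hw'] at this
      exact Option.map_injective eI.symm.injective (hcc _ _ _ (fun a _ => hU2 a) (fun a _ => hU2 a) this)
    · rw [List.getElem?_eq_none (by omega), List.getElem?_eq_none (by omega)]
  · intro τ hτ
    have hI : ∀ c ∈ initClauses (Fintype.card tm.K) (row tm.k₀) (lc (some tm.main, tm.initialState))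
        (cc _ (some (eI.symm false))) (cc _ (some (eI.symm true)))
        (y.map fun b => bif b then cc _ (some (eI.symm true)) else cc _ (some (eI.symm false))) q
        ((T + 1) * D), ∃ l ∈ c, τ l.1 = l.2 :=
      fun c hc => hτ c (List.mem_cons_of_mem _ (List.mem_append_left _ hc))
    simp only [initClauses, List.length_map, List.cons_append, List.mem_cons, List.mem_append,
      List.mem_flatMap, List.mem_map, List.mem_range, List.mem_filter, or_imp, forall_and] at hI
    obtain ⟨hI1, ⟨⟨⟨hI2, hI3⟩, hI4⟩, hI5⟩, hI6⟩ := hI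
    obtain ⟨w, hw, hP⟩ := exists_cert q
      (fun j o => τ (var 0 (row tm.k₀) (y.length + j) (cc _ (o.map eI.symm))) = true)
      (fun j hj => by simpa [hc0] using hI4 _ ⟨j, hj, rfl⟩)
      (fun j hj h => by
        have := hI5 _ ⟨j, hj, rfl⟩
        simp only [Option.map_none, hc0] at h ⊢
        simpa [h, add_assoc] using this)
    refine ⟨w, hw, ?_⟩
    have hF := forward (nK := Fintype.card tm.K) τ (s w)
      (fun c hc => hτ c (List.mem_cons_of_mem _ (List.mem_append_right _ hc)))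
      (fun t r j _ => hA _ _ _)
      (fun t => by simp only [s]; rw [hCs]; exact (hR _ (hval w t)).1)
      (fun r j h1 h2 h3 => by
        by_cases h0 : r = 0
        · subst h0
          rw [h2 rfl, hs2]
          simpa using hI1 _ rfl
        · by_cases hr : r = row tm.k₀
          · subst hr
            by_cases hj : j < y.length
            · rw [hy w j hj]
              simpa using hI3 _ ⟨j, hj, rfl⟩
            · obtain ⟨i, rfl⟩ := Nat.exists_eq_add_of_le (not_lt.1 hj)
              rw [hw']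
              by_cases hi : i < q
              · exact hP i hi
              · obtain ⟨i', rfl⟩ := Nat.exists_eq_add_of_le (not_lt.1 hi)
                rw [List.getElem?_eq_none (by omega), ← add_assoc]
                simpa [hc0] using hI6 _ ⟨i', by omega, rfl⟩
          · rw [hs1 w r j h0 h1 hr]
            obtain ⟨r', rfl⟩ := Nat.exists_eq_succ_of_ne_zero h0
            simpa using hI2 _ ⟨r', ⟨h1, by simpa using hr⟩, j, h3, rfl⟩)
    refine ⟨?_, hF⟩
    replace hF := hF T le_rfl (row tm.k₁) 0 (row_le _) (fun _ => rfl) (by nlinarith)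
    rw [hfin w hw] at hF
    have := hτ _ List.mem_cons_self
    by_contra hfw
    simp only [Bool.not_eq_true] at hfw
    rw [hfw] at hF
    simp [hF] at this
  · intro w hw hfw c hc
    rcases List.mem_cons.1 hc with rfl | hc
    · refine ⟨_, List.mem_cons_self, ?_⟩
      simp only [trueAsg_var, hfin w hw, hfw, decide_eq_false_iff_not]
      intro e
      have := hcc _ _ _ (by simpa using hU3 _) (by simpa using hU3 _) e
      simp at this
    rcases List.mem_append.1 hc with hc | hc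
    · simp only [initClauses, List.length_map, List.cons_append, List.mem_cons, List.mem_append,
        List.mem_flatMap, List.mem_map, List.mem_range, List.mem_filter] at hc
      rcases hc with rfl | ((((⟨r, ⟨h1, h2⟩, j, -, rfl⟩ | ⟨j, hj, rfl⟩) | ⟨j, hj, rfl⟩) |
        ⟨j, hj, rfl⟩) | ⟨j, hj, rfl⟩)
      · simp [trueAsg_var, hs2]
      · simp [trueAsg_var, hs1 w (r + 1) j (by omega) h1 (by simpa using h2)]
      · refine ⟨_, List.mem_cons_self, ?_⟩
        simp only [trueAsg_var, hy w j hj, decide_true]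
      · simp only [List.mem_cons, List.not_mem_nil, or_false, exists_eq_or_imp, exists_eq_left,
          trueAsg_var, hw', decide_eq_true_eq]
        cases w[j]? with
        | none => simp [hc0]
        | some b => cases b <;> simp
      · simp only [List.mem_cons, List.not_mem_nil, or_false, exists_eq_or_imp, exists_eq_left,
          trueAsg_var, add_assoc, hw', decide_eq_true_eq, decide_eq_false_iff_not]
        by_cases h : j < w.length
        · left
          intro e
          rw [← hc0 tm.k₀] at e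
          have := hcc _ _ _ (by simp) (fun a _ => hU2 a) e
          simp [h] at this
        · right
          rw [List.getElem?_eq_none (by omega)]; simp [hc0]
      · simp only [List.mem_cons, List.not_mem_nil, or_false, exists_eq_left,
          trueAsg_var, add_assoc, hw', decide_eq_true_eq]
        rw [List.getElem?_eq_none (by omega)]; simp [hc0]
    · exact backward (s w) (fun t => by simp only [s]; rw [hCs]; exact (hR _ (hval w t)).2) c hc

end Pool.Agent.Cx
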