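import Pool.Agent.Lib.helper9.ShA
import Pool.Agent.Lib.helper9.BinB

/-! The class #P, Turing reductions between counting problems, parsimonious Cook-Levin theorem. -/

namespace Pool.Agent.Cx

open Polynomial List

/-- The class #P: `F x` is the number of polynomially bounded certificates accepted by a test in P. -/
def InSharpP (F : List Bool → ℕ) : Prop :=
  ∃ R, InP R ∧ ∃ p : ℕ[X], ∀ x,
    F x = {w : List Bool | w.length ≤ p.eval x.length ∧ pairStr x w ∈ R}.ncard

/-- Polynomial-time Turing reduction of the function `F` to the oracle `O`: polynomially many adaptive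
queries of polynomial length, then `F x` is output in binary in polynomial time. -/
def CookF (F : List Bool → ℕ) (O : List Bool → List Bool) : Prop :=
  ∃ (q g : List Bool → List Bool) (p : ℕ[X]), PolyTime q ∧ PolyTime g ∧ ∀ x,
    (∀ i < p.eval x.length, (q (enc (x, hist O q x i))).length ≤ p.eval x.length) ∧
      g (enc (x, hist O q x (p.eval x.length))) = enc (F x : ℤ)

/-- the number of satisfying assignments to the variables below `z.1` -/
noncomputable def cntS (z : ℕ × CNF) : ℕ :=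
  {τ : ℕ → Bool | (∀ v, z.1 ≤ v → τ v = true) ∧ ∀ c ∈ z.2, ∃ l ∈ c, τ l.1 = l.2}.ncard

def cells (nK D T : ℕ) : List (ℕ × ℕ × ℕ) :=
  (range (T + 1) ×ˢ range (nK + 1) ×ˢ range ((T + 1) * D)).filter fun c =>
    decide ((c.2.1 = 0 → c.2.2 = 0) ∧ c.2.2 + c.1 * D < (T + 1) * D)

def cone (nK D A T : ℕ) : List ℕ :=
  (cells nK D T).flatMap fun c => (range A).map fun a => var c.1 c.2.1 c.2.2 a

def amo (nK D A T : ℕ) : CNF :=
  (cells nK D T).flatMap fun c => ((range A ×ˢ range A).filter fun p => decide (p.1 ≠ p.2)).map fun p =>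
    [(var c.1 c.2.1 c.2.2 p.1, false), (var c.1 c.2.1 c.2.2 p.2, false)]

def fin (ψ : CNF) (W : List ℕ) : ℕ × CNF := (size ψ + size W,
  ψ ++ ((range (size ψ + size W)).filter fun v => decide (v ∉ W)).map fun v => [(v, true)])

lemma mem_cells {nK D T t k j : ℕ} : (t, k, j) ∈ cells nK D T ↔
    t ≤ T ∧ k ≤ nK ∧ (k = 0 → j = 0) ∧ j + t * D < (T + 1) * D := by
  simp only [cells, mem_filter, mem_product, mem_range, decide_eq_true_eq]; omega

lemma mem_cone {nK D A T t k j a : ℕ} :
    var t k j a ∈ cone nK D A T ↔ (t, k, j) ∈ cells nK D T ∧ a < A := by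
  simp [cone, var_inj]

lemma cnt_fin {ψ : CNF} {W : List ℕ} : (∀ c ∈ (fin ψ W).2, ∀ l ∈ c, l.1 < (fin ψ W).1) ∧
    cntS (fin ψ W) = {τ : ℕ → Bool | (∀ v, v ∉ W → τ v = true) ∧ ∀ c ∈ ψ, ∃ l ∈ c, τ l.1 = l.2}.ncard := by
  constructor
  · intro c hc l hl
    rcases mem_append.1 hc with hc | hc
    · exact (var_lt_size hc hl).trans_le (Nat.le_add_right _ _)
    · obtain ⟨v, hv, rfl⟩ := mem_map.1 hc
      rw [mem_singleton.1 hl]; exact mem_range.1 (mem_filter.1 hv).1
  · unfold cntS; congr 1; ext τ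
    simp only [fin, Set.mem_ofPred_eq, mem_append, or_imp, forall_and, forall_mem_map, mem_filter,
      mem_range, decide_eq_true_eq, mem_singleton, exists_eq_left, and_imp]
    refine ⟨fun ⟨a, b, c⟩ => ⟨fun v hv => (lt_or_ge v _).elim (c v · hv) (a v), b⟩,
      fun ⟨a, b⟩ => ⟨fun v hv => a v fun h => ?_, b, fun v _ => a v⟩⟩
    have := size_lt_of_mem h
    simp at this; omega

lemma cook_neg {R : List Rule} {D A nK r0 r1 c0 cF cT cR q T : ℕ} {y : List Bool} (hD : 0 < D)
    (hA : 0 < A) (hc : cR < A) (h0 : r0 ≠ 0) (h1 : r0 ≤ nK) (h2 : r1 ≤ nK)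
    (hR : ∀ r ∈ R, Good nK D A r ∧ ∀ x ∈ r.2.2, x.1 ≠ 0 ∧ x.1 ≤ nK) (hT : y.length + q ≤ T) :
    ∀ c ∈ cookFormula R D A nK r0 r1 c0 cF cT cR y q T, (∃ l ∈ c, l.2 = true ∧ l.1 ∉ cone nK D A T) ∨
      ∀ l ∈ c, l.2 = false → l.1 ∈ cone nK D A T := by
  have hn : ∀ t < T, ∀ r ∈ R, ∀ l ∈ negPrem t r, l.1 ∈ cone nK D A T := fun t ht r hr l hl => by
    obtain ⟨x, hx, rfl⟩ := mem_map.1 hl
    obtain ⟨a, b, c, d⟩ := (hR r hr).1 x hx
    exact mem_cone.2 ⟨mem_cells.2 ⟨ht.le, a, b, by nlinarith⟩, d⟩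
  intro c hc
  rcases mem_cons.1 hc with rfl | hc
  · right; simp [mem_cone, mem_cells, *]
  rcases mem_append.1 hc with hc | hc
  · right
    simp only [initClauses, length_map, cons_append, mem_cons, mem_append, mem_flatMap, mem_map,
      mem_range, mem_filter] at hc
    rcases hc with rfl | ((((⟨r, -, j, -, rfl⟩ | ⟨j, hj, rfl⟩) | ⟨j, hj, rfl⟩) | ⟨j, hj, rfl⟩) |
      ⟨j, hj, rfl⟩) <;> simp [mem_cone, mem_cells, *]
    nlinarith
  · simp only [stepClauses, mem_flatMap, mem_range, mem_append, mem_map] at hc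
    obtain ⟨t, ht, r, hr, ⟨x, hx, rfl⟩ | ⟨x, hx, j, -, a, ha, rfl⟩⟩ := hc
    · right; simpa using fun a h => hn t ht r hr (a, false) h
    · by_cases h : j + D + t * D < (T + 1) * D
      · right
        have := (hR r hr).2 x hx
        simp only [mem_cons, forall_eq_or_imp, reduceCtorEq, false_imp_iff, true_and, true_imp_iff]
        exact ⟨mem_cone.2 ⟨mem_cells.2 ⟨ht.le, this.2, by simp [this.1], h⟩, ha⟩,
          fun l hl _ => hn t ht r hr l hl⟩
      · exact .inl ⟨_, mem_cons_self, rfl, fun e => h (by nlinarith [(mem_cells.1 (mem_cone.1 e).1).2.2.2])⟩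

lemma pt_fin {α : Type} [Enc α] {ψ : α → CNF} {W : α → List ℕ} (h : PT ψ) (h' : PT W) :
    PT fun a => fin (ψ a) (W a) := by unfold fin; fun_prop

theorem sharp_cook {F : List Bool → ℕ} (hF : InSharpP F) : ∃ g : List Bool → ℕ × CNF, PT g ∧
    ∀ x, (∀ c ∈ (g x).2, ∀ l ∈ c, l.1 < (g x).1) ∧ F x = cntS (g x) := by
  classical
  obtain ⟨Rl, ⟨f, ⟨M⟩, hf⟩, p, hp⟩ := hF
  obtain ⟨R, D, A, nK, r0, r1, c0, cF, cT, cR, hD, hA, hc, h0, h1, h2, hR, h⟩ :=
    cook_core' M.tm M.inputAlphabet M.outputAlphabet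
  let T := fun x : List Bool => M.time.eval ((pairStr x []).length + p.eval x.length) +
    ((pairStr x []).length + p.eval x.length)
  have hT : PT T := by unfold T; fun_prop
  refine ⟨fun x => fin (cookFormula R D A nK r0 r1 c0 cF cT cR (pairStr x []) (p.eval x.length) (T x) ++
    amo nK D A (T x)) (cone nK D A (T x)), ?_, fun x => ⟨cnt_fin.1, ?_⟩⟩
  · have := PT.cookFormula R D A nK r0 r1 c0 cF cT cR (y := fun x => pairStr x [])
      (q := fun x => p.eval x.length) (by fun_prop) (by fun_prop) hT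
    have h3 : PT fun x => cells nK D (T x) := PT.filter (PP.decide (PP.and (PP.imp (by fun_prop)
      (by fun_prop)) (by fun_prop))) (by fun_prop)
    have h4 : PT fun x => cone nK D A (T x) := by unfold cone; fun_prop
    have h5 : PT fun x => amo nK D A (T x) := by unfold amo; fun_prop
    exact pt_fin (this.append h5) h4
  have e : ∀ w, pairStr x [] ++ w = pairStr x w := fun w => by simp [pairStr]
  obtain ⟨s, s1, s2, s3, s4⟩ := h (pairStr x []) (p.eval x.length) (T x) (fun w => f (pairStr x w))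
    fun w hw => by
      obtain ⟨h1, h2⟩ := M.outputsFun (pairStr x w)
      rw [e]
      refine ⟨⟨h1, h2.trans ((eval_mono _ ?_).trans (Nat.le_add_right _ _))⟩⟩
      simp only [← e w, length_append]; omega
  have hq : (pairStr x []).length + p.eval x.length ≤ T x := Nat.le_add_left _ _
  rw [cnt_fin.2, hp]
  refine Set.ncard_congr (fun w _ v => if v ∈ cone nK D A (T x) then trueAsg (s w) v else true)
    (fun w hw => ⟨fun v hv => if_neg hv, fun c hc => ?_⟩) (fun w w' hw hw' e => s2 w w' fun j hj => ?_)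
    fun τ hτ => ?_
  · rcases mem_append.1 hc with hc | hc
    · rcases cook_neg hD hA ‹cR < A› h0 h1 h2 hR hq c hc with ⟨l, a, b, d⟩ | a
      · exact ⟨l, a, by simp [b, d]⟩
      · obtain ⟨l, b, d⟩ := s4 w hw.1 ((hf _).1 hw.2) c hc
        refine ⟨l, b, ?_⟩
        beta_reduce
        split_ifs with h
        · exact d
        · exact ((Bool.not_eq_false _).mp fun e => h (a l b e)).symm
    · simp only [amo, mem_flatMap, mem_map, mem_filter, decide_eq_true_eq] at hc
      obtain ⟨⟨t, k, j⟩, a, ⟨u, v⟩, ⟨b, d⟩, rfl⟩ := hc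
      simp only [mem_product, mem_range] at b
      simp [mem_cone, a, b, trueAsg_var]; omega
  · have := congrFun e (var 0 r0 ((pairStr x []).length + j) (s w 0 r0 ((pairStr x []).length + j)))
    have m : (0, r0, (pairStr x []).length + j) ∈ cells nK D (T x) := mem_cells.2
      ⟨by omega, h1, by simp [h0], by have := hw.1; have := hw'.1; rcases hj with hj | hj <;> nlinarith⟩
    simpa [mem_cone, m, s1, trueAsg_var] using this
  · obtain ⟨w, a, b, d⟩ := s3 τ fun c hc => hτ.2 c (mem_append_left _ hc)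
    refine ⟨w, ⟨a, (hf _).2 b⟩, funext fun v => ?_⟩
    split_ifs with h
    · simp only [cone, mem_flatMap, mem_map, mem_range] at h
      obtain ⟨⟨t, k, j⟩, m, u, hu, rfl⟩ := h
      have m' := mem_cells.1 m
      have := d t m'.1 k j m'.2.1 m'.2.2.1 m'.2.2.2
      rw [trueAsg_var]
      by_cases c : u = s w t k j
      · simp [c, this]
      · simpa [c, this] using hτ.2 [(var t k j u, false), (var t k j (s w t k j), false)]
          (mem_append_right _ (mem_flatMap.2 ⟨_, m, mem_map.2 ⟨(u, s w t k j), by simp [hu, s1, c], rfl⟩⟩))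
    · exact (hτ.1 v h).symm

variable {α : Type} [Enc α]

lemma ldiv (d : ℤ) (hd : 0 < d) (l : List Bool) : l.reverse.foldl (fun (c : ℤ × ℤ) b =>
    if d ≤ c.2 + c.2 + bif b then 1 else 0 then (c.1 + c.1 + 1, c.2 + c.2 + (bif b then 1 else 0) - d)
    else (c.1 + c.1, c.2 + c.2 + bif b then 1 else 0)) (0, 0) = (bin l / d, bin l % d) := by
  rw [foldl_reverse]
  induction l with
  | nil => simp [bin]
  | cons b l ih =>
    rw [foldr_cons, ih]
    have h1 := Int.emod_nonneg (bin l) hd.ne'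
    have h2 := Int.emod_lt_of_pos (bin l) hd
    have h3 := Int.emod_add_mul_ediv (bin l) d
    have h4 : ((bin (b :: l) : ℕ) : ℤ) = (bif b then 1 else 0) + 2 * bin l := by cases b <;> simp [bin]
    have h5 : (0 : ℤ) ≤ (bif b then 1 else 0) ∧ (bif b then 1 else 0 : ℤ) ≤ 1 := by cases b <;> simp
    split_ifs with h <;> rw [Prod.mk.injEq, eq_comm, @eq_comm _ _ (_ % _), Int.ediv_emod_unique hd] <;>
      refine ⟨by linarith, by linarith, by linarith⟩

lemma PT.divmod {f g : α → ℤ} (hf : PT f) (hg : PT g) (h0 : ∀ a, 0 ≤ f a) (h1 : ∀ a, 0 < g a) :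
    PT fun a => (f a / g a, f a % g a) := by
  obtain ⟨q, hq⟩ := hf.natAbs.bound
  refine (PT.foldl (f := fun a (c : ℤ × ℤ) (b : Bool) => if g a ≤ c.2 + c.2 + bif b then 1 else 0 then
      (c.1 + c.1 + 1, c.2 + c.2 + (bif b then 1 else 0) - g a)
    else (c.1 + c.1, c.2 + c.2 + bif b then 1 else 0)) (l := fun a => (f a).natAbs.bits.reverse)
    (init := fun _ => (0, 0)) (PP.ite (by fun_prop) (by fun_prop) (by fun_prop))
    (PT.reverse hf.natAbs) (by fun_prop) (8 * q + 11) fun a i => ?_).of_eq fun a => ?_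
  · rw [← List.reverse_reverse (List.take i _), ldiv _ (h1 a)]
    set l := (List.take i (f a).natAbs.bits.reverse).reverse
    have h3 := length_lt_size (f a).natAbs.bits
    have h4 : (bin l : ℤ) < 2 ^ q.eval (Cx.size a) := by
      exact_mod_cast (bin_lt l).trans_le (Nat.pow_le_pow_right two_pos (by have := hq a; simp [l] at this ⊢; omega))
    have h5 : (0 : ℤ) ≤ bin l := Nat.cast_nonneg _
    have := size_int_le (z := bin l / g a) (k := q.eval (Cx.size a)) (by
      rw [abs_of_nonneg (Int.ediv_nonneg h5 (h1 a).le)]; exact (Int.ediv_le_self _ h5).trans_lt h4)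
    have := size_int_le (z := bin l % g a) (k := q.eval (Cx.size a)) (by
      have := Int.emod_add_mul_ediv (bin l) (g a)
      have := mul_nonneg (h1 a).le (Int.ediv_nonneg h5 (h1 a).le)
      rw [abs_of_nonneg (Int.emod_nonneg _ (h1 a).ne')]; linarith)
    simp at *; omega
  · rw [ldiv _ (h1 a), bin_bits, Int.natAbs_of_nonneg (h0 a)]

end Pool.Agent.Cx
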