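import Mathlib

/-! Counting relation-preserving maps; reading off a digit of a weighted count. -/

namespace Pool.Agent.Pe

open Finset

variable {A B C D : Type}

noncomputable def H (r : A → A → Prop) (s : B → B → Prop) : ℕ :=
  Nat.card {f : A → B // ∀ x y, r x y → s (f x) (f y)}

lemma H_congr {r : A → A → Prop} {s : B → B → Prop} {r' : C → C → Prop} {s' : D → D → Prop} (e : A ≃ C)
    (e' : B ≃ D) (h : ∀ x y, r x y ↔ r' (e x) (e y)) (h' : ∀ x y, s x y ↔ s' (e' x) (e' y)) :
    H r s = H r' s' :=
  Nat.card_congr ((e.arrowCongr e').subtypeEquiv fun f => by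
    simp only [h, h', Equiv.arrowCongr_apply, Function.comp]
    exact ⟨fun a x y b => a _ _ (by simpa using b), fun a x y b => by simpa using a _ _ b⟩)

lemma H_sum (r : A → A → Prop) (r' : B → B → Prop) (s : C → C → Prop) :
    H (Sum.LiftRel r r') s = H r s * H r' s := by
  rw [H, H, H, ← Nat.card_prod]
  exact Nat.card_congr (((Equiv.sumArrowEquivProdArrow A B C).subtypeEquiv fun f =>
    ⟨fun h => ⟨fun x y a => h _ _ (.inl a), fun x y a => h _ _ (.inr a)⟩, fun h _ _ a => by
      cases a with
      | inl a => exact h.1 _ _ a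
      | inr a => exact h.2 _ _ a⟩).trans Equiv.subtypeProdEquivProd)

lemma H_conn [Finite A] [Finite B] [Finite C] {r : A → A → Prop} (s : B → B → Prop) (s' : C → C → Prop)
    (b : A) (h : ∀ x, ∃ u, r x u ∧ r b u) : H r (Sum.LiftRel s s') = H r s + H r s' := by
  rw [H, H, H, ← Nat.card_sum]
  refine (Nat.card_congr (Equiv.ofBijective (Sum.elim
    (fun f => ⟨fun x => .inl (f.1 x), fun x y a => .inl (f.2 x y a)⟩)
    fun f => ⟨fun x => .inr (f.1 x), fun x y a => .inr (f.2 x y a)⟩) ⟨?_, fun f => ?_⟩)).symm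
  · rintro (f | f) (g | g) e <;> simp [funext_iff] at e
    · exact congrArg _ (Subtype.ext (funext e))
    · exact (e b).elim
    · exact (e b).elim
    · exact congrArg _ (Subtype.ext (funext e))
  · have k : ∀ x, (f.1 x).isLeft = (f.1 b).isLeft := fun x => by
      obtain ⟨u, h1, h2⟩ := h x
      have : ∀ {x y}, Sum.LiftRel s s' x y → x.isLeft = y.isLeft := by rintro _ _ (_ | _) <;> rfl
      rw [this (f.2 _ _ h1), this (f.2 _ _ h2)]
    cases e : (f.1 b).isLeft
    · choose g hg using fun x => Sum.isRight_iff.1 (Sum.isLeft_eq_false.1 ((k x).trans e))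
      exact ⟨.inr ⟨g, fun x y a => by simpa [hg] using f.2 x y a⟩, Subtype.ext (funext fun x => (hg x).symm)⟩
    · choose g hg using fun x => Sum.isLeft_iff.1 ((k x).trans e)
      exact ⟨.inl ⟨g, fun x y a => by simpa [hg] using f.2 x y a⟩, Subtype.ext (funext fun x => (hg x).symm)⟩

lemma H_two {s : B → B → Prop} (h : ∀ x, s x x) :
    H (fun x y : Fin 2 => x ≤ y) s = Nat.card {p : B × B // s p.1 p.2} :=
  Nat.card_congr ((finTwoArrowEquiv B).subtypeEquiv fun f => by simp [Fin.forall_fin_two, h])

def bp (m : A → B → Prop) : A ⊕ B → A ⊕ B → Prop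
  | .inl i, .inl j => i = j
  | .inl i, .inr z => m i z
  | .inr _, .inl _ => False
  | .inr z, .inr y => z = y

open Classical in
lemma H_bp [Fintype A] [Fintype B] (m : A → B → Prop) : H (bp m) (fun x y : Fin 2 => x ≤ y) =
    ∑ g : A → Fin 2, 2 ^ (univ.filter fun z => ∀ i, m i z → g i = 0).card := by
  rw [H, Nat.card_congr (((Equiv.sumArrowEquivProdArrow A B (Fin 2)).subtypeEquiv
    (q := fun p => ∀ z i, m i z → p.1 i ≤ p.2 z) fun f => ⟨fun h z i a => h (.inl i) (.inr z) a, by
      rintro h (i | i) (j | j) a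
      · rw [show i = j from a]
      · exact h _ _ a
      · exact a.elim
      · rw [show i = j from a]⟩).trans (Equiv.subtypeProdEquivSigmaSubtype
        fun (g : A → Fin 2) (t : B → Fin 2) => ∀ z i, m i z → g i ≤ t z)), Nat.card_sigma]
  refine sum_congr rfl fun g _ => ?_
  rw [Nat.card_congr (Equiv.subtypePiEquivPi (p := fun z (t : Fin 2) => ∀ i, m i z → g i ≤ t)),
    Nat.card_pi, card_filter, ← prod_pow_eq_pow_sum]
  refine prod_congr rfl fun z _ => ?_
  split_ifs with h
  · rw [Nat.card_congr (Equiv.subtypeUnivEquiv fun t i a => by simp [h i a])]; simp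
  · simp only [not_forall] at h
    obtain ⟨i, a, h⟩ := h
    exact Nat.card_eq_one_iff_exists.2 ⟨⟨1, fun _ _ => Fin.le_last _⟩, fun t => Subtype.ext (by
      have := t.2 i a; change t.1 = 1; omega)⟩

lemma digit [Fintype A] (s : A → ℕ) {b : ℕ} (hb : Fintype.card A < b) (j : ℕ) :
    (∑ g, b ^ s g) / b ^ j % b = (univ.filter fun g => s g = j).card := by
  have e : ∑ g, b ^ s g = ∑ g with s g < j, b ^ s g + b ^ j * ((univ.filter fun g => s g = j).card +
      b * ∑ g with j < s g, b ^ (s g - j - 1)) := by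
    simp only [card_filter, sum_filter, mul_sum, ← sum_add_distrib]
    refine sum_congr rfl fun g _ => ?_
    rcases lt_trichotomy (s g) j with h | h | h
    · simp [h, h.ne, h.not_gt]
    · simp [h]
    · simp only [h, h.ne', h.not_gt, if_true, if_false, zero_add, ← pow_succ', ← pow_add]
      congr 1; omega
  have h0 : 0 < b := by omega
  have h1 : ∑ g with s g < j, b ^ s g < b ^ j := by
    rcases j with _ | j
    · simp
    refine (sum_le_card_nsmul _ _ (b ^ j) fun g hg => Nat.pow_le_pow_right h0 (by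
      simp at hg; omega)).trans_lt ?_
    rw [pow_succ', smul_eq_mul]
    exact Nat.mul_lt_mul_of_pos_right ((card_le_univ _).trans_lt hb) (by positivity)
  rw [e, Nat.add_mul_div_left _ _ (by positivity), Nat.div_eq_of_lt h1, zero_add, Nat.add_mul_mod_self_left,
    Nat.mod_eq_of_lt ((card_le_univ _).trans_lt hb)]

lemma card_getD (l : List A) (d : A) (p : A → Bool) :
    (univ.filter fun z : Fin l.length => p (l.getD z d) = true).card = l.countP p := by
  rw [card_filter]
  induction l with
  | nil => simp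
  | cons a l ih => simp only [List.length_cons, Fin.sum_univ_succ, List.countP_cons, ← ih]; simp [add_comm]

lemma cnt_range (p : ℕ → Bool) (n : ℕ) : (List.range (2 * n + 1)).countP p =
    (p 0).toNat + ∑ v ∈ range n, ((p (2 * v + 1)).toNat + (p (2 * v + 2)).toNat) := by
  induction n with
  | zero => cases h : p 0 <;> simp [h]
  | succ n ih =>
    rw [show 2 * (n + 1) + 1 = 2 * n + 1 + 1 + 1 by ring, List.range_succ, List.range_succ, sum_range_succ]
    simp only [List.countP_append, ih, List.countP_singleton, add_assoc]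
    cases p (2 * n + 1) <;> cases p (2 * n + 2) <;> simp

lemma card_pairs (n : ℕ) (P : ℕ × ℕ → Prop) [DecidablePred P] :
    Nat.card {p : Fin n × Fin n // P (p.1, p.2)} = ((range n ×ˢ range n).filter P).card := by
  rw [Nat.card_eq_fintype_card, Fintype.card_subtype]
  exact card_nbij (fun p => (p.1, p.2)) (fun p => by simp) (fun p _ q _ => by simp [Prod.ext_iff, Fin.ext_iff])
    fun p hp => by simp at hp; exact ⟨(⟨p.1, hp.1.1⟩, ⟨p.2, hp.1.2⟩), by simpa using hp.2, rfl⟩

end Pool.Agent.Pe
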