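import Pool.Agent.Lib.helper9.S2Hard

/-! A language that is linearly ordered inside polynomially many classes is NP-hard only if P = NP. -/

namespace Pool.Agent.Cx

open Polynomial List

open Classical in
/-- keep one element of least key in every class -/
noncomputable def prune {β : Type} (B : ℕ) (c : β → ℕ) (k : β → ℝ) (C : List β) : List β :=
  (range B).filterMap fun i => C.find? fun w => decide (c w = i ∧ ∀ v ∈ C, c v = i → k w ≤ k v)

lemma prune_sub {β : Type} {B : ℕ} {c : β → ℕ} {k : β → ℝ} {C : List β} {w : β}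
    (h : w ∈ prune B c k C) : w ∈ C := by
  obtain ⟨i, -, h⟩ := mem_filterMap.1 h
  exact mem_of_find?_eq_some h

lemma prune_dom {β : Type} {B : ℕ} {c : β → ℕ} {k : β → ℝ} {C : List β} {v : β} (h : v ∈ C)
    (hB : c v < B) : ∃ w ∈ prune B c k C, c w = c v ∧ k w ≤ k v := by
  classical
  obtain ⟨u, hu, hm⟩ := Set.exists_min_image {w | w ∈ C ∧ c w = c v} k
    (C.finite_toSet.subset fun _ h => h.1) ⟨v, h, rfl⟩
  cases e : C.find? fun w => decide (c w = c v ∧ ∀ v' ∈ C, c v' = c v → k w ≤ k v') with
  | none => exact absurd (decide_eq_true ⟨hu.2, fun v a b => hm v ⟨a, b⟩⟩) (find?_eq_none.1 e u hu.1)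
  | some w =>
    have := find?_some e
    rw [decide_eq_true_eq] at this
    exact ⟨w, mem_filterMap.2 ⟨c v, mem_range.2 hB, by convert e⟩, this.1, this.2 v h rfl⟩

def kids (P : ℕ) (S : List (List Bool)) : List (List Bool) :=
  (S.flatMap fun w => [w, w ++ [false], w ++ [true]]).filter fun w => decide (w.length ≤ P)

theorem sparse {L : Language} {c : List Bool → ℕ} {k : List Bool → ℝ} (hc : PT c)
    (hk : PP fun p : List Bool × List Bool => k p.1 ≤ k p.2)
    (hs : ∀ x y, c x = c y → k x ≤ k y → y ∈ L → x ∈ L) (H : NPHard L) :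
    ∀ L', InNP L' → InP L' := by
  classical
  rintro L' ⟨R, hR, p, hL⟩
  obtain ⟨r, hr, er⟩ := hR.pt
  let Q : List Bool × List Bool × ℕ → Prop := fun z => ∃ w : List Bool, w.length ≤ z.2.2 ∧
    (z.2.1 ++ w).length ≤ p.eval z.1.length ∧ r (pairStr z.1 (z.2.1 ++ w))
  have hQ : InNP (Lang Q) := by
    refine inNP_Lang (V := fun y : (List Bool × List Bool × ℕ) × List Bool =>
      decide (y.2.length ≤ y.1.2.2) && (decide ((y.1.2.1 ++ y.2).length ≤ p.eval y.1.1.length) &&
        r (pairStr y.1.1 (y.1.2.1 ++ y.2)))) (by fun_prop) (4 * X) ?_ fun a b h => ⟨b, by simpa using h⟩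
    rintro ⟨x, u, n⟩ ⟨w, h⟩
    refine ⟨w, (size_list_le w 3 fun b _ => size_bool b).trans ?_, by simpa using h⟩
    have := h.1
    simp at *; omega
  obtain ⟨f, hf, ef⟩ := H _ hQ
  have hf := hf.pt
  obtain ⟨q, hq⟩ := (show PT fun z : List Bool × List Bool × ℕ => c (f (enc z)) by fun_prop).bound
  let P := fun x : List Bool => p.eval x.length
  let st := fun (x : List Bool) (S : List (List Bool)) (n : ℕ) =>
    prune (q.eval (size x + 6 * P x + 4)) (fun w => c (f (enc (x, w, n))))
      (fun w => k (f (enc (x, w, n)))) (kids (P x) S)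
  have key : ∀ x n S, n ≤ P x → (∃ w ∈ S, Q (x, w, n)) →
      ∃ w ∈ (range n).reverse.foldl (st x) S, Q (x, w, 0) := fun x n => by
    induction n with
    | zero => simp
    | succ n ih =>
      rintro S hn ⟨w, hw, u, h1, h2, h3⟩
      rw [range_succ, reverse_append]
      refine ih _ (by omega) ?_
      obtain ⟨v, hv, hq'⟩ : ∃ v ∈ kids (P x) S, Q (x, v, n) := by
        rcases u with _ | ⟨b, u⟩
        · exact ⟨w, mem_filter.2 ⟨mem_flatMap.2 ⟨w, hw, by simp⟩, by simpa using h2⟩, [], by simp, h2, h3⟩
        · exact ⟨w ++ [b], mem_filter.2 ⟨mem_flatMap.2 ⟨w, hw, by cases b <;> simp⟩,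
            by simp [P] at h2 ⊢; omega⟩, u, by simpa using h1, by simpa using h2, by simpa using h3⟩
      have h4 : v.length ≤ P x := by simpa using (mem_filter.1 hv).2
      have h5 := size_list_le v 3 fun b _ => size_bool b
      have h6 := (hq (x, v, n)).trans (eval_mono q (b := size x + 6 * P x + 4) (by simp; omega))
      obtain ⟨w, a, b, d⟩ := prune_dom (c := fun w => c (f (enc (x, w, n))))
        (k := fun w => k (f (enc (x, w, n)))) hv (B := q.eval (size x + 6 * P x + 4))
        (by simp at h6; omega)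
      exact ⟨w, a, mem_Lang.1 ((ef _).2 (hs _ _ b d ((ef _).1 (mem_Lang.2 hq'))))⟩
  have hP : PT P := by fun_prop
  have h1 : PT fun x => (range (P x)).reverse.foldl (st x) [[]] := by
    obtain ⟨s, hs⟩ := hP.bound
    refine PT.foldl (PT.filterMap (PT.find? (PP.decide (PP.and (by fun_prop) (PP.ball (PP.imp
      (by fun_prop) (hk.comp (f := fun z : ((((List Bool × List (List Bool) × ℕ) × ℕ) × List Bool) ×
        List Bool) => (f (enc (z.1.1.1.1, z.1.2, z.1.1.1.2.2)), f (enc (z.1.1.1.1, z.2, z.1.1.1.2.2))))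
          (by fun_prop))) (by unfold kids; fun_prop)))) (by unfold kids; fun_prop)) (by fun_prop))
      (by fun_prop) (by fun_prop) (q.comp (X + 6 * s + 4) * (4 * s + 2) + 3) fun x i => ?_
    induction take i (range (P x)).reverse using List.reverseRecOn with
    | nil => simp
    | append_singleton l n _ =>
      rw [foldl_append]
      have := hs x
      rw [size_nat] at this
      refine (size_list_le _ (4 * P x + 1) fun w hw => ?_).trans ?_
      · have h4 : w.length ≤ P x := by simpa using (mem_filter.1 (prune_sub hw)).2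
        have h5 := size_list_le w 3 fun b _ => size_bool b
        omega
      · simp only [eval_add, eval_mul, eval_comp, eval_X, eval_ofNat]
        gcongr
        · exact (length_filterMap_le _ _).trans (by rw [length_range]; exact eval_mono _ (by omega))
        all_goals omega
  refine inP_of_PT (f := fun x => ((range (P x)).reverse.foldl (st x) [[]]).any fun w =>
    decide (w.length ≤ P x) && r (pairStr x w)) (PT.any (by fun_prop) h1) fun x => (hL x).trans ?_
  rw [any_eq_true]
  constructor
  · rintro ⟨w, a, b⟩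
    obtain ⟨w, d, u, h1, h2⟩ := key x (P x) [[]] le_rfl ⟨[], by simp, w, a, a, (er _).1 b⟩
    rw [length_eq_zero_iff.1 (Nat.le_zero.1 h1)] at h2
    exact ⟨w, d, by simpa using h2⟩
  · rintro ⟨w, -, h⟩
    simp only [Bool.and_eq_true, decide_eq_true_eq] at h
    exact ⟨w, h.1, (er _).2 h.2⟩

end Pool.Agent.Cx
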