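import Pool.Agent.Lib.helper9.SpA

/-! Polynomial advice and polynomial-time Turing reductions to a function oracle. -/

namespace Pool.Agent.Cx

open Polynomial List

/-- `F` is computed in polynomial time with polynomial advice that depends on the input length only. -/
def FPPoly (F : List Bool → List Bool) : Prop :=
  ∃ f, PolyTime f ∧ ∃ (p : ℕ[X]) (adv : ℕ → List Bool), (∀ m, (adv m).length ≤ p.eval m) ∧
    ∀ x, F x = f (pairStr x (adv x.length))

/-- The class P/poly. -/
def InPPoly (L : Language) : Prop :=
  ∃ R, InP R ∧ ∃ (p : ℕ[X]) (adv : ℕ → List Bool), (∀ m, (adv m).length ≤ p.eval m) ∧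
    ∀ x, x ∈ L ↔ pairStr x (adv x.length) ∈ R

/-- The answers of the oracle `O` to the first `i` queries; `q` computes the next query from the
input `x` and the earlier answers. -/
def hist (O q : List Bool → List Bool) (x : List Bool) : ℕ → List (List Bool)
  | 0 => []
  | i + 1 => hist O q x i ++ [O (q (enc (x, hist O q x i)))]

/-- Polynomial-time Turing reduction of `L` to the oracle `O`: polynomially many adaptive queries of
polynomial length, then a decision in P. -/
def Cook (L : Language) (O : List Bool → List Bool) : Prop :=
  ∃ (q : List Bool → List Bool) (D : Language) (p : ℕ[X]), PolyTime q ∧ InP D ∧ ∀ x,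
    (∀ i < p.eval x.length, (q (enc (x, hist O q x i))).length ≤ p.eval x.length) ∧
      (x ∈ L ↔ enc (x, hist O q x (p.eval x.length)) ∈ D)

lemma fppoly_of {α β : Type} [Enc α] [Dec α] [Enc β] {g : List Bool × α → β} (hg : PT g) (A : ℕ → α)
    (p : ℕ[X]) (hA : ∀ m, size (A m) ≤ p.eval m) : FPPoly fun x => enc (g (x, A x.length)) :=
  ⟨_, polyTime_of_PT (g := fun z => g ((unp z).1, decode (unp z).2)) (by fun_prop), p,
    fun m => enc (A m), hA, fun x => by simp⟩

theorem Cook.ppoly {L : Language} {O : List Bool → List Bool} (h : Cook L O) (hO : FPPoly O) :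
    InPPoly L := by
  obtain ⟨q, D, p, hq, hD, h⟩ := h
  obtain ⟨f, hf, r, adv, h1, h2⟩ := hO
  obtain ⟨d, hd, ed⟩ := hD.pt
  have hq := hq.pt
  have hf := hf.pt
  let o := fun z : List Bool × List Bool × List (List Bool) =>
    f (pairStr (z.2.1.take (p.eval z.1.length)) (z.2.2.getD (z.2.1.take (p.eval z.1.length)).length []))
  let g := fun (z : List Bool × List (List Bool)) (H : List (List Bool)) =>
    H ++ [o (z.1, q (enc (z.1, H)), z.2)]
  obtain ⟨s, hs⟩ := (show PT fun z : List Bool × List (List Bool) =>
    f (pairStr z.1 (z.2.getD z.1.length [])) by fun_prop).bound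
  have hg : PT fun z : List Bool × List (List Bool) => (g z)^[p.eval z.1.length] [] := by
    refine PT.iterate_add (by fun_prop) (by fun_prop) (by fun_prop) (s.comp (4 * p + X + 2) + 1)
      fun z H => ?_
    obtain ⟨x, A⟩ := z
    have a := size_append H [o (x, q (enc (x, H)), A)]
    have b := size_list_le ((q (enc (x, H))).take (p.eval x.length)) 3 fun b _ => size_bool b
    have c := length_take_le (p.eval x.length) (q (enc (x, H)))
    have e := eval_mono p (a := x.length) (b := size (x, A)) (by have := length_lt_size x; simp; omega)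
    have := (hs ((q (enc (x, H))).take (p.eval x.length), A)).trans (eval_mono s
      (b := 4 * p.eval (size (x, A)) + size (x, A) + 2) (by simp at *; omega))
    simp only [eval_add, eval_comp, eval_mul, eval_X, eval_ofNat, eval_one, size_cons, size_nil, g, o] at *
    omega
  let A := fun m => (range (p.eval m + 1)).map adv
  have e : ∀ x, ∀ i ≤ p.eval x.length, (g (x, A x.length))^[i] [] = hist O q x i := fun x i => by
    induction i with
    | zero => simp [hist]
    | succ i ih =>
      intro hi
      have := (h x).1 i hi
      rw [Function.iterate_succ_apply', ih (by omega), hist, h2]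
      simp [g, o, A, take_of_length_le this, min_eq_right this, Nat.lt_succ_of_le this]
  let V := fun z : List Bool × List (List Bool) => d (enc (z.1, (g z)^[p.eval z.1.length] []))
  have hV : PT V := by fun_prop
  refine ⟨{z | V ((unp z).1, decode (unp z).2)}, inP_of_PT (f := fun z => V ((unp z).1, decode (unp z).2))
    (by fun_prop) fun _ => Iff.rfl, (p + 1) * (4 * r.comp p + 2) + 1, fun m => enc (A m), fun m => ?_,
    fun x => by simp [V, (h x).2, ed, e x _ le_rfl]⟩
  refine (size_list_le _ (4 * r.eval (p.eval m) + 1) fun w hw => ?_).trans (by simp [A])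
  obtain ⟨k, hk, rfl⟩ := mem_map.1 hw
  have := size_list_le (adv k) 3 fun b _ => size_bool b
  have := (h1 k).trans (eval_mono r (Nat.lt_succ_iff.1 (mem_range.1 hk)))
  omega

end Pool.Agent.Cx
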