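import Mathlib

set_option autoImplicit false

namespace Pool.Agent.Lib.helper9.SpRank

open Matrix

variable {n F : Type} [Fintype n] [DecidableEq n] [Field F]

def Sp (J : Matrix n n F) : Subgroup (GL n F) where
  carrier := {g | (g : Matrix n n F)ᵀ * J * g = J}
  mul_mem' := by
    intro g h hg hh
    simp only [Set.mem_ofPred_eq, Units.val_mul, transpose_mul] at *
    calc (h : Matrix n n F)ᵀ * (g : Matrix n n F)ᵀ * J * (g * h)
        = (h : Matrix n n F)ᵀ * ((g : Matrix n n F)ᵀ * J * g) * h := by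
          simp only [Matrix.mul_assoc]
      _ = J := by rw [hg, hh]
  one_mem' := by simp
  inv_mem' := by
    intro g hg
    simp only [Set.mem_ofPred_eq] at *
    calc ((g⁻¹ : GL n F) : Matrix n n F)ᵀ * J * (g⁻¹ : GL n F)
        = ((g⁻¹ : GL n F) : Matrix n n F)ᵀ * ((g : Matrix n n F)ᵀ * J * g) * (g⁻¹ : GL n F) := by
          rw [hg]
      _ = ((g : Matrix n n F) * ((g⁻¹ : GL n F) : Matrix n n F))ᵀ * J *
          ((g : Matrix n n F) * ((g⁻¹ : GL n F) : Matrix n n F)) := by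
          simp only [transpose_mul, Matrix.mul_assoc]
      _ = J := by rw [Units.mul_inv]; simp

lemma mem_Sp {J : Matrix n n F} {g : GL n F} : g ∈ Sp J ↔ (g : Matrix n n F)ᵀ * J * g = J :=
  Iff.rfl

/-- symplectic transvection -/
def tv (J : Matrix n n F) (hJ : ∀ v, (J *ᵥ v) ⬝ᵥ v = 0) (v : n → F) : GL n F where
  val := 1 + vecMulVec v (J *ᵥ v)
  inv := 1 - vecMulVec v (J *ᵥ v)
  val_inv := by
    simp [Matrix.mul_sub, Matrix.add_mul, vecMulVec_mul_vecMulVec, hJ]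
  inv_val := by
    simp [Matrix.sub_mul, Matrix.mul_add, vecMulVec_mul_vecMulVec, hJ]

lemma tv_apply (J : Matrix n n F) (hJ : ∀ v, (J *ᵥ v) ⬝ᵥ v = 0) (v x : n → F) :
    (tv J hJ v : Matrix n n F) *ᵥ x = x + ((J *ᵥ v) ⬝ᵥ x) • v := by
  simp [tv, Matrix.add_mulVec, vecMulVec_mulVec]

lemma tv_mem (J : Matrix n n F) (hJ : ∀ v, (J *ᵥ v) ⬝ᵥ v = 0) (hT : Jᵀ = -J) (v : n → F) :
    tv J hJ v ∈ Sp J := by
  rw [mem_Sp]
  have h1 : v ᵥ* J = -(J *ᵥ v) := by
    rw [← mulVec_transpose, hT, neg_mulVec]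
  simp [tv, Matrix.add_mul, Matrix.mul_add, transpose_vecMulVec, vecMulVec_mul, mul_vecMulVec, h1,
    add_mulVec, neg_mulVec, vecMulVec_mulVec, hJ]

lemma exists_disjoint (J : Matrix n n F) (hJ : ∀ v, (J *ᵥ v) ⬝ᵥ v = 0) (hT : Jᵀ = -J)
    (hN : ∀ d : n → F, d ≠ 0 → ∃ v, (J *ᵥ v) ⬝ᵥ d ≠ 0) (W : Submodule F (n → F)) (k : ℕ) :
    ∀ U : Submodule F (n → F), Module.finrank F U + Module.finrank F W = Fintype.card n →
      Module.finrank F (U ⊓ W : Submodule F (n → F)) ≤ k →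
      ∃ g ∈ Sp J, ∀ x ∈ U, (g : Matrix n n F) *ᵥ x ∈ W → x = 0 := by
  induction k with
  | zero =>
    intro U _ h
    refine ⟨1, (Sp J).one_mem, fun x hx hx' => ?_⟩
    have : U ⊓ W = ⊥ := Submodule.finrank_eq_zero.1 (Nat.le_zero.1 h)
    have h2 : x ∈ U ⊓ W := ⟨hx, by simpa using hx'⟩
    rwa [this] at h2
  | succ k ih =>
    intro U hU h
    by_cases h0 : Module.finrank F (U ⊓ W : Submodule F (n → F)) ≤ k
    · exact ih U hU h0
    have hne : U ⊓ W ≠ ⊥ := by
      intro e; rw [e] at h0; simp at h0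
    obtain ⟨d, hd, hd0⟩ := Submodule.exists_mem_ne_zero_of_ne_bot hne
    have hlt : U ⊔ W ≠ ⊤ := by
      intro e
      have := Submodule.finrank_sup_add_finrank_inf_eq U W
      rw [e, hU] at this
      simp at this
      exact hne this
    obtain ⟨v, hv1, hv2⟩ : ∃ v, v ∉ U ⊔ W ∧ (J *ᵥ v) ⬝ᵥ d ≠ 0 := by
      obtain ⟨a, ha⟩ := hN d hd0
      obtain ⟨b, -, hb⟩ := SetLike.exists_of_lt (lt_top_iff_ne_top.2 hlt)
      by_cases h1 : a ∈ U ⊔ W
      · by_cases h2 : (J *ᵥ b) ⬝ᵥ d = 0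
        · refine ⟨a + b, fun h => hb ((Submodule.add_mem_iff_right _ h1).1 h), ?_⟩
          rwa [mulVec_add, add_dotProduct, h2, add_zero]
        · exact ⟨b, hb, h2⟩
      · exact ⟨a, h1, ha⟩
    set t := tv J hJ v with ht
    have hinj : Function.Injective (Matrix.mulVecLin (t : Matrix n n F)) := by
      intro x y hxy
      have := congrArg (fun z => ((t⁻¹ : GL n F) : Matrix n n F) *ᵥ z) hxy
      simpa [mulVec_mulVec] using this
    have hU' : Module.finrank F (U.map (Matrix.mulVecLin (t : Matrix n n F))) =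
        Module.finrank F U := (Submodule.equivMapOfInjective _ hinj U).finrank_eq.symm
    have hsub : U.map (Matrix.mulVecLin (t : Matrix n n F)) ⊓ W < U ⊓ W := by
      have key : ∀ y ∈ U.map (Matrix.mulVecLin (t : Matrix n n F)) ⊓ W,
          y ∈ U ∧ (J *ᵥ v) ⬝ᵥ y = 0 := by
        rintro y ⟨⟨x, hx, rfl⟩, hy⟩
        have hy' : x + ((J *ᵥ v) ⬝ᵥ x) • v ∈ W := by
          rw [← tv_apply J hJ]; exact hy
        have h3 : (J *ᵥ v) ⬝ᵥ x = 0 := by
          by_contra h3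
          apply hv1
          have : ((J *ᵥ v) ⬝ᵥ x) • v ∈ U ⊔ W :=
            (Submodule.add_mem_iff_right _ (Submodule.mem_sup_left hx)).1
              (Submodule.mem_sup_right hy')
          exact (Submodule.smul_mem_iff _ h3).1 this
        have h4 : Matrix.mulVecLin (t : Matrix n n F) x = x := by
          rw [Matrix.mulVecLin_apply, ht, tv_apply, h3]; simp
        rw [h4]
        exact ⟨hx, h3⟩
      refine lt_of_le_of_ne (fun y hy => ⟨(key y hy).1, hy.2⟩) (fun e => hv2 ?_)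
      exact (key d (e ▸ hd)).2
    have hlt2 := Submodule.finrank_lt_finrank_of_lt hsub
    obtain ⟨g, hg, hg'⟩ := ih (U.map (Matrix.mulVecLin (t : Matrix n n F))) (by rw [hU', hU])
      (by omega)
    refine ⟨g * t, (Sp J).mul_mem hg (tv_mem J hJ hT v), fun x hx hx' => ?_⟩
    have := hg' _ ⟨x, hx, rfl⟩ (by simpa [mulVec_mulVec] using hx')
    exact hinj (by simpa using this)

lemma rank_prop (J : Matrix n n F) (hJ : ∀ v, (J *ᵥ v) ⬝ᵥ v = 0) (hT : Jᵀ = -J)
    (hN : ∀ d : n → F, d ≠ 0 → ∃ v, (J *ᵥ v) ⬝ᵥ d ≠ 0) (a : Matrix n n F) :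
    ∃ g ∈ Sp J, (a * (g : Matrix n n F) * a).rank = a.rank := by
  obtain ⟨g, hg, h⟩ := exists_disjoint J hJ hT hN (LinearMap.ker a.mulVecLin) _
    (LinearMap.range a.mulVecLin)
    (by rw [LinearMap.finrank_range_add_finrank_ker]; simp) le_rfl
  refine ⟨g, hg, ?_⟩
  have e : LinearMap.ker (a * (g : Matrix n n F) * a).mulVecLin = LinearMap.ker a.mulVecLin := by
    ext x
    simp only [LinearMap.mem_ker, Matrix.mulVecLin_apply]
    constructor
    · intro hx
      exact h _ ⟨x, rfl⟩ (by simpa [mulVec_mulVec, Matrix.mul_assoc] using hx)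
    · intro hx
      rw [← mulVec_mulVec, hx, mulVec_zero]
  have h1 := LinearMap.finrank_range_add_finrank_ker (a * (g : Matrix n n F) * a).mulVecLin
  have h2 := LinearMap.finrank_range_add_finrank_ker a.mulVecLin
  rw [e] at h1
  unfold Matrix.rank
  omega

lemma J_dot {l : Type} [Fintype l] [DecidableEq l] (e : n ≃ l ⊕ l) (v d : n → F) :
    ((Matrix.J l F).submatrix e e *ᵥ v) ⬝ᵥ d =
      ∑ i, (v (e.symm (Sum.inl i)) * d (e.symm (Sum.inr i)) -
        v (e.symm (Sum.inr i)) * d (e.symm (Sum.inl i))) := by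
  rw [submatrix_mulVec_equiv, dotProduct, ← Equiv.sum_comp e.symm]
  simp [Matrix.J, fromBlocks_mulVec, neg_mulVec, Fintype.sum_sum_type, Finset.sum_sub_distrib]
  ring

end Pool.Agent.Lib.helper9.SpRank
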