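import Mathlib

/-! Outcomes of two-player games with possible infinite play. -/

namespace Pool.Agent.Cx

/-- Normal play on the move relation `M`. `Out M true p`: the player to move at `p` can force a
win. `Out M false p`: the other player can force a win. -/
inductive Out {P : Type} (M : P → P → Prop) : Bool → P → Prop
  | win {p q : P} : M p q → Out M false q → Out M true p
  | lose {p : P} : (∀ q, M p q → Out M true q) → Out M false p

/-- The outcome of `p`: `some true` if the player to move can force a win, `some false` if the
other player can, `none` (draw) if neither can. -/
def Outcome {P : Type} (M : P → P → Prop) (p : P) : Option Bool → Prop
  | some b => Out M b p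
  | none => ¬ Out M true p ∧ ¬ Out M false p

end Pool.Agent.Cx
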