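import Pool.Agent.Lib.helper9.EXPs
import Pool.Agent.Lib.helper9.TokDefs

/-! Token games on directed graphs: general facts. -/

namespace Pool.Agent.Cx

open Function Polynomial Turing

section out
variable {P Q : Type} {M : P → P → Prop} {p : P}

lemma out_true : Out M true p ↔ ∃ q, M p q ∧ Out M false q :=
  ⟨fun h => by cases h with | win a b => exact ⟨_, a, b⟩, fun ⟨_, a, b⟩ => .win a b⟩

lemma out_false : Out M false p ↔ ∀ q, M p q → Out M true q :=
  ⟨fun h => by cases h with | lose a => exact a, .lose⟩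

lemma not_out (Y : P → Prop) (h : ∀ p, Y p → ∀ q, M p q → ∃ r, M q r ∧ Y r) (hp : Y p) :
    ¬ Out M true p := by
  suffices ∀ b p, Out M b p → (b = true → ¬ Y p) ∧ (b = false → ∀ r, M p r → ¬ Y r) from
    fun o => (this _ _ o).1 rfl hp
  intro b p o
  induction o with
  | win a _ ih =>
    refine ⟨fun _ hp => ?_, by simp⟩
    obtain ⟨r, c, d⟩ := h _ hp _ a
    exact ih.2 rfl r c d
  | lose _ ih => exact ⟨by simp, fun _ r c => (ih r c).1 rfl⟩

lemma not_out' (Y : P → Prop)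
    (h : ∀ p, Y p → ∀ q, M p q → ∃ r, M q r ∧ (Y r ∨ Out M false r)) (hp : Y p) :
    ¬ Out M true p :=
  not_out (fun r => Y r ∨ Out M false r) (fun p a q b => a.elim (h p · q b) fun a =>
    let ⟨r, c, d⟩ := out_true.1 (out_false.1 a q b); ⟨r, c, Or.inr d⟩) (Or.inl hp)

lemma out_bisim {N : Q → Q → Prop} (R : P → Q → Prop)
    (h1 : ∀ p q, R p q → ∀ p', M p p' → ∃ q', N q q' ∧ R p' q')
    (h2 : ∀ p q, R p q → ∀ q', N q q' → ∃ p', M p p' ∧ R p' q') {b q} (h : R p q) :
    Out M b p ↔ Out N b q := by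
  constructor
  · intro o
    induction o generalizing q with
    | win a _ ih => obtain ⟨q', c, d⟩ := h1 _ _ h _ a; exact .win c (ih d)
    | lose _ ih => exact .lose fun q' c => let ⟨p', a, d⟩ := h2 _ _ h _ c; ih p' a d
  · intro o
    induction o generalizing p with
    | win a _ ih => obtain ⟨q', c, d⟩ := h2 _ _ h _ a; exact .win c (ih d)
    | lose _ ih => exact .lose fun q' c => let ⟨p', a, d⟩ := h1 _ _ h _ c; ih p' a d

lemma outcome_congr {N : Q → Q → Prop} {q} (h : ∀ b, Out M b p ↔ Out N b q) (o) :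
    Outcome M p o ↔ Outcome N q o := by cases o <;> simp [Outcome, h]

end out

variable {α β : Type} [Enc α] [Enc β]

lemma PP.outcome [Dec β] {S : α → List β} {M : α → β → β → Prop} {s : α → β} (hS : PT S) (hs : PT s)
    (hM : PP fun z : α × β × β => M z.1 z.2.1 z.2.2) (o) :
    PP fun a => Outcome (fun p q => q ∈ S a ∧ M a p q) (s a) o := by
  have hM' : ∀ {γ : Type} [Enc γ] {f : γ → α} {g h : γ → β}, PT f → PT g → PT h →
      PP fun x => M (f x) (g x) (h x) := fun hf hg hh => hM.comp (hf.pair (hg.pair hh))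
  have h1 : PP fun z : α × β => Out (fun p q => q ∈ S z.1 ∧ M z.1 p q) true z.2 := by
    have := (PP.safe (S := fun z : α × β => z.2 :: S z.1)
      (A := fun z => none :: (S z.1).map some) (R := fun z s t s' => (t = none ∧ s' = z.2) ∨
        (t ≠ none ∧ (¬ M z.1 s (t.getD s) ∨ (s' ∈ S z.1 ∧ M z.1 (t.getD s) s'))))
      (by fun_prop) (by fun_prop) (.or (by fun_prop) (.and (by fun_prop)
        (.or (.not (hM' (by fun_prop) (by fun_prop) (by fun_prop))) (.and (by fun_prop)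
          (hM' (by fun_prop) (by fun_prop) (by fun_prop))))))).not
    convert this using 2 with z
    simp only [List.forall_mem_cons, List.forall_mem_map, true_and, ne_eq, not_true, false_and,
      or_false, exists_eq_right, reduceCtorEq, not_false_iff, false_or, Option.getD_some]
    rw [iff_not_comm]
    constructor
    · rintro ⟨W, ⟨s, hs⟩, -, h⟩
      refine not_out (· ∈ W) (fun p hp q hq => ?_) (h s hs).1
      obtain ⟨r, a, b⟩ := (h p hp).2 q hq.1
      exact ⟨r, b.resolve_left (not_not.2 hq.2), a⟩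
    · intro h
      refine ⟨{p | p ∈ z.2 :: S z.1 ∧ ¬ Out (fun p q => q ∈ S z.1 ∧ M z.1 p q) true p},
        ⟨_, List.mem_cons_self, h⟩, fun _ h => h.1, fun p hp => ⟨⟨List.mem_cons_self, h⟩,
          fun q hq => ?_⟩⟩
      by_cases e : M z.1 p q
      · have := mt (Out.win ⟨hq, e⟩) hp.2
        rw [out_false] at this
        push Not at this
        obtain ⟨r, a, b⟩ := this
        exact ⟨r, ⟨List.mem_cons_of_mem _ a.1, b⟩, Or.inr a⟩
      · exact ⟨p, hp, Or.inl e⟩
  have h2 : PP fun a => Out (fun p q => q ∈ S a ∧ M a p q) true (s a) := h1.comp (PT.id.pair hs)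
  have h3 : PP fun a => Out (fun p q => q ∈ S a ∧ M a p q) false (s a) := by
    have := PP.ball (p := fun a q => M a (s a) q → Out (fun p q => q ∈ S a ∧ M a p q) true q)
      (.imp (hM' (by fun_prop) (by fun_prop) (by fun_prop)) h1) hS
    convert this using 2
    simp only [out_false, and_imp]
  rcases o with _ | _ | _
  exacts [h2.not.and h3.not, h3, h2]

theorem HardEX.not {P : α → Prop} (h : HardEX P) : HardEX fun a => ¬ P a := by
  rintro L ⟨f, ⟨⟨tm, eI, eO⟩, tf, hM⟩, p, hp, hf⟩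
  obtain ⟨g, hg, e⟩ := h Lᶜ ⟨fun x => !f x, ⟨⟨tm, eI, eO.trans Equiv.boolNot⟩, tf, fun x => by
    simpa [Equiv.boolNot] using hM x⟩, p, hp, fun x => by simp [hf]⟩
  exact ⟨g, hg, fun x => by simp [← e]⟩

abbrev TI := ℕ × List (ℕ × ℕ × ℕ) × List ℕ

def TMv (hit : Bool) (E : List (ℕ × ℕ × ℕ)) (p q : List ℕ) : Prop := ∃ e ∈ E, p.getD e.2.1 0 = e.1 ∧
  q = (p.set e.2.1 0).set e.2.2 (if p.getD e.2.2 0 = 0 ∨ hit = true then e.1 else 0)

def TVal (I : TI) : Prop := (∀ e ∈ I.2.1, 1 ≤ e.1 ∧ e.1 ≤ I.1 ∧ e.2.1 < I.2.2.length ∧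
  e.2.2 < I.2.2.length ∧ e.2.1 ≠ e.2.2) ∧ ∀ x ∈ I.2.2, x ≤ I.1

@[fun_prop] lemma PT.set {l : α → List β} {n : α → ℕ} {x : α → β} (hl : PT l) (hn : PT n)
    (hx : PT x) : PT fun a => (l a).set (n a) (x a) :=
  PT.of_eq (g := fun a => if n a < (l a).length then (l a).take (n a) ++ x a :: (l a).drop (n a + 1)
    else l a) (by fun_prop) fun a => by rw [List.set_eq_take_append_cons_drop]

theorem tok_mem (hit : Bool) (o) {C : TI → Prop} (hC : PP C) : InEXPTIME
    (Lang fun I : TI => C I ∧ TVal I ∧ Outcome (TMv hit I.2.1) I.2.2 o) := by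
  have hV : PP TVal := .and (.ball (by fun_prop) (by fun_prop)) (.ball (by fun_prop) (by fun_prop))
  refine inEXP_Lang (((hC.comp PT.id.fst).and ((hV.comp PT.id.fst).and (PP.outcome
    (S := fun z : TI × ℕ => wordsB (List.range (z.1.1 + 1)) z.1.2.2.length z.2)
    (M := fun z => TMv hit z.1.2.1) (s := fun z => z.1.2.2) (by fun_prop) (by fun_prop)
    (by unfold TMv; fun_prop) o)))) (X * X) fun ⟨t, E, p⟩ => and_congr_right fun _ =>
      and_congr_right fun h => outcome_congr (fun b => ?_) o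
  dsimp only
  rw [wordsB_eq _ _ _ (by
    have := length_lt_size p
    have := size_pos E
    simp only [eval_mul, eval_X, pow_mul, List.length_range, size_pair, size_nat]
    exact (Nat.pow_le_pow_left (le_trans (by omega) Nat.lt_two_pow_self.le) _).trans
      (Nat.pow_le_pow_right (by positivity) (by omega)))]
  have cl : ∀ q ∈ words (List.range (t + 1)) p.length, ∀ r, TMv hit E q r →
      r ∈ words (List.range (t + 1)) p.length := by
    simp only [mem_words, List.mem_range]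
    rintro q ⟨a, b⟩ _ ⟨e, he, -, rfl⟩
    refine ⟨by simpa, fun x hx => ?_⟩
    have := h.1 e he
    rcases List.mem_or_eq_of_mem_set hx with hx | rfl
    · rcases List.mem_or_eq_of_mem_set hx with hx | rfl
      exacts [b x hx, by omega]
    · split_ifs <;> simp only at this <;> omega
  exact out_bisim (fun q r => q = r ∧ q ∈ words (List.range (t + 1)) p.length)
    (fun _ _ ⟨e, a⟩ r b => ⟨r, e ▸ ⟨cl _ a _ b, b⟩, rfl, cl _ a _ b⟩)
    (fun _ _ ⟨e, a⟩ r b => ⟨r, e ▸ b.2, rfl, b.1⟩)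
    ⟨rfl, mem_words.2 ⟨rfl, fun x hx => List.mem_range.2 (Nat.lt_succ_of_le (h.2 x hx))⟩⟩

/-- moves of labelled tokens; token `0` has type `1`, the others have type `2` -/
def LM (hit : Bool) (n : ℕ) (V : T5 → Prop) (Ed : ℕ → T5 → T5 → Prop)
    (τ τ' : ℕ → Option T5) : Prop :=
  ∃ k ≤ n, ∃ u v, τ k = some u ∧ V v ∧ Ed (min k 1 + 1) u v ∧
    ((∃ l ≤ n, τ l = some v ∧ τ' = update (update τ l none) k (if hit then some v else none)) ∨
      ((∀ l ≤ n, τ l ≠ some v) ∧ τ' = update τ k (some v)))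

open Classical in
noncomputable def edges (vs : List T5) (Ed : ℕ → T5 → T5 → Prop) : List (ℕ × ℕ × ℕ) :=
  ([1, 2] ×ˢ List.range vs.length ×ˢ List.range vs.length).filter fun e =>
    decide (Ed e.1 (vs.getD e.2.1 default) (vs.getD e.2.2 default))

lemma tok_key {T : Type} [DecidableEq T] {hit : Bool} {n : ℕ} {V : T → Prop} {τ τ' : ℕ → Option T} {f : T → ℕ}
    (h1 : ∀ k ≤ n, ∀ u, τ k = some u → V u ∧ f u = min k 1 + 1 ∧ ∀ l ≤ n, τ l = some u → l = k)
    (h2 : ∀ u, (∀ k ≤ n, τ k ≠ some u) → f u = 0) {k} (hk : k ≤ n) {u v} (a : τ k = some u) (b : V v) (c : u ≠ v)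
    (d : (∃ l ≤ n, τ l = some v ∧ τ' = update (update τ l none) k (if hit then some v else none)) ∨
        ((∀ l ≤ n, τ l ≠ some v) ∧ τ' = update τ k (some v))) :
      let f' := update (update f u 0) v (if f v = 0 ∨ hit = true then min k 1 + 1 else 0)
      (∀ k ≤ n, ∀ u, τ' k = some u → V u ∧ f' u = min k 1 + 1 ∧ ∀ l ≤ n, τ' l = some u → l = k) ∧
        ∀ u, (∀ k ≤ n, τ' k ≠ some u) → f' u = 0 := by
  have a1 := h1 k hk u a
  have i1 : ∀ k ≤ n, ∀ l ≤ n, ∀ u, τ k = some u → τ l = some u → l = k :=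
    fun k a l b u c => (h1 k a u c).2.2 l b
  simp only [update_apply]
  rcases d with ⟨l, hl, d, rfl⟩ | ⟨d, rfl⟩
  · have a2 := h1 l hl v d
    refine ⟨fun k' hk' x => ?_, fun x hx => ?_⟩
    · have := h1 k' hk' x
      cases hit <;> simp only [update_apply] <;> grind
    · have := hx k hk
      by_cases e : ∃ k' ≤ n, τ k' = some x
      · obtain ⟨k', e, e'⟩ := e
        have := hx k' e
        cases hit <;> simp only [update_apply] at * <;> grind
      · have := h2 x (by simpa using e)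
        cases hit <;> simp only [update_apply] at * <;> grind
  · have := h2 v d
    refine ⟨fun k' hk' x => ?_, fun x hx => ?_⟩
    · have := h1 k' hk' x
      simp only [update_apply]; grind
    · have := hx k hk
      by_cases e : ∃ k' ≤ n, τ k' = some x
      · obtain ⟨k', e, e'⟩ := e
        have := hx k' e
        simp only [update_apply] at *; grind
      · have := h2 x (by simpa using e)
        simp only [update_apply] at *; grind

lemma tok_bridge {hit n} {V : T5 → Prop} {Ed} {vs : List T5} (nd : vs.Nodup) (hV : ∀ x, x ∈ vs ↔ V x)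
    (ir : ∀ k x, ¬ Ed k x x) {τ : ℕ → Option T5} {f : T5 → ℕ}
    (h1 : ∀ k ≤ n, ∀ u, τ k = some u → V u ∧ f u = min k 1 + 1 ∧ ∀ l ≤ n, τ l = some u → l = k)
    (h2 : ∀ u, (∀ k ≤ n, τ k ≠ some u) → f u = 0) (b) :
    Out (TMv hit (edges vs Ed)) b (vs.map f) ↔ Out (LM hit n V Ed) b τ := by
  classical
  have st : ∀ (f : T5 → ℕ) i (hi : i < vs.length) a, (vs.map f).set i a = vs.map (update f vs[i] a) :=
    fun f i hi a => List.ext_getElem (by simp) fun j _ hj => by
      simp [List.getElem_set, update_apply, nd.getElem_inj_iff, eq_comm]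
  refine out_bisim (fun p τ => ∃ f : T5 → ℕ, p = vs.map f ∧
    (∀ k ≤ n, ∀ u, τ k = some u → V u ∧ f u = min k 1 + 1 ∧ ∀ l ≤ n, τ l = some u → l = k) ∧
    ∀ u, (∀ k ≤ n, τ k ≠ some u) → f u = 0) ?_ ?_ ⟨f, rfl, h1, h2⟩
  · rintro _ τ ⟨f, rfl, h1, h2⟩ _ ⟨⟨y, i, j⟩, he, a, rfl⟩
    simp only [edges, List.mem_filter, List.mem_product, List.mem_range, decide_eq_true_eq] at he
    obtain ⟨⟨e1, hi, hj⟩, e2⟩ := he
    simp only [List.getD_eq_getElem?_getD, List.getElem?_map, List.getElem?_eq_getElem hi,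
      List.getElem?_eq_getElem hj, Option.map_some, Option.getD_some] at a e2 ⊢
    obtain ⟨k, hk, c⟩ : ∃ k ≤ n, τ k = some vs[i] := by
      by_contra! h
      have := h2 _ h
      simp at e1; omega
    obtain rfl : y = min k 1 + 1 := a.symm.trans (h1 k hk _ c).2.1
    obtain ⟨τ', d⟩ : ∃ τ', (∃ l ≤ n, τ l = some vs[j] ∧ τ' = update (update τ l none) k
        (if hit then some vs[j] else none)) ∨ ((∀ l ≤ n, τ l ≠ some vs[j]) ∧
          τ' = update τ k (some vs[j])) := by
      by_cases h : ∃ l ≤ n, τ l = some vs[j]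
      · exact let ⟨l, a, b⟩ := h; ⟨_, Or.inl ⟨l, a, b, rfl⟩⟩
      · exact ⟨_, Or.inr ⟨by simpa using h, rfl⟩⟩
    have v := (hV _).1 (List.getElem_mem hj)
    exact ⟨τ', ⟨k, hk, _, _, c, v, e2, d⟩, _, by rw [st _ _ hi, st _ _ hj],
      tok_key h1 h2 hk c v (fun e => ir _ _ (e ▸ e2)) d⟩
  · rintro _ τ ⟨f, rfl, h1, h2⟩ τ' ⟨k, hk, u, v, a, b, c, d⟩
    obtain ⟨i, hi, rfl⟩ := List.getElem_of_mem ((hV u).2 (h1 k hk u a).1)
    obtain ⟨j, hj, rfl⟩ := List.getElem_of_mem ((hV v).2 b)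
    refine ⟨_, ⟨(min k 1 + 1, i, j), ?_, by simp [hi, (h1 k hk _ a).2.1], rfl⟩, _, ?_,
      tok_key h1 h2 hk a b (fun e => ir _ _ (e ▸ c)) d⟩
    · simp [edges, hi, hj, c]; omega
    · simp only [st _ _ hi, st _ _ hj]
      simp [hj]

lemma edges_val {vs : List T5} {Ed} (ir : ∀ k x, ¬ Ed k x x) {f : T5 → ℕ} {t} (ht : 2 ≤ t)
    (hf : ∀ x, f x ≤ 2) : TVal (t, edges vs Ed, vs.map f) := by
  refine ⟨fun ⟨y, i, j⟩ he => ?_, fun x hx => ?_⟩
  · simp only [edges, List.mem_filter, List.mem_product, List.mem_range, decide_eq_true_eq] at he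
    obtain ⟨⟨e1, hi, hj⟩, e2⟩ := he
    simp at e1 ⊢
    exact ⟨by omega, by omega, hi, hj, fun e => ir _ _ (e ▸ e2)⟩
  · obtain ⟨x, -, rfl⟩ := List.mem_map.1 hx
    exact (hf x).trans ht

end Pool.Agent.Cx
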