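import Pool.Agent.Lib.helper9.TokA

/-! The token game built from a safety game: loops and dead positions. -/

namespace Pool.Agent.Tok

open Pool.Agent.Cx Function Finset

structure Par where
  hit : Bool
  (N m L : ℕ)
  act : ℕ → ℕ
  Ts : ℕ → ℕ → ℕ → ℕ → Prop
  A : ℕ → ℕ → ℕ → ℕ → Prop

variable (I : Par)

def V (x : T5) : Prop := x.1 < 9 ∧ x.2.1 ≤ I.N ∧ x.2.2.1 ≤ I.N ∧ x.2.2.2.1 ≤ I.N ∧ x.2.2.2.2 = 0

def Hon (x y : T5) : Prop := (x.1 = 0 ∧ y = (3, x.2.1, 0, 0, 0)) ∨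
  (x.1 = 1 ∧ y = (2, y.2.1, 0, 0, 0) ∧ y.2.1 < I.m) ∨
  (x.1 = 2 ∧ y = (0, y.2.1, 0, 0, 0) ∧ y.2.1 < I.L ∧ I.act y.2.1 = x.2.1) ∨
  (x.1 = 3 ∧ y = (1, x.2.1, 0, 0, 0))

def Ed (t : ℕ) (x y : T5) : Prop :=
  (x.1 = 8 ∧ y = (8, x.2.1, 1 - x.2.2.1, 0, 0)) ∨
  (t = 1 ∧ (Hon I x y ∨
    (x.1 ≤ 1 ∧ ((y.1 = 4 ∧ ¬ I.Ts x.1 x.2.1 y.2.1 y.2.2.1) ∨ y = (8, 0, 0, 0, 0))) ∨
    ((x.1 = 2 ∨ x.1 = 3) ∧ ((y.1 = 5 ∧ ¬ (x.1 = 3 ∧ I.A x.2.1 y.2.1 y.2.2.1 y.2.2.2.1)) ∨ y.1 = 6)) ∨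
    (4 ≤ x.1 ∧ x.1 < 7 ∧ y = (7, 0, 0, 0, 0)))) ∨
  (t = 2 ∧ ((x.1 = 4 ∧ y = (5, x.2.1, x.2.2.1, y.2.2.2.1, 0) ∧ y.2.2.2.1 ≠ x.2.2.1) ∨
    (x.1 = 5 ∧ (y = (4, x.2.1, x.2.2.2.1, 0, 0) ∨ y = (6, x.2.1, 0, 0, 0) ∨ y = (8, x.2.1, 0, 0, 0))) ∨
    (I.hit = true ∧ (x.1 = 4 ∨ x.1 = 6) ∧ y = (7, x.2.1, 0, 0, 0))))

abbrev Pos := ℕ → Option T5

abbrev G : Pos → Pos → Prop := LM I.hit I.N (V I) (Ed I)

def Own (τ : Pos) : Prop := ∀ k ≤ I.N, ∀ u, τ k = some u → (k ≠ 0 ∨ u.1 = 8) → u.2.1 = k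

def kd (x : Option T5) : ℕ := (x.map (·.1)).getD 7

@[simp] lemma kd_some (u : T5) : kd (some u) = u.1 := rfl
@[simp] lemma kd_none : kd none = 7 := rfl

def SL (τ : Pos) : Prop := Own I τ ∧ ∃ k ≤ I.N, kd (τ k) = 8

variable {I} {τ q : Pos} {k l : ℕ} {u v : T5}

lemma ed_irr (t x) : ¬ Ed I t x x := by
  obtain ⟨a, b, c, d, e⟩ := x
  simp only [Ed, Hon, Prod.mk.injEq]
  omega

lemma tgt_own (h : Own I τ) (hk : k ≤ I.N) (a : τ k = some u) (e : Ed I (min k 1 + 1) u v)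
    (b : k ≠ 0 ∨ v.1 = 8) : v.2.1 = k := by
  have := h k hk u a
  obtain ⟨a, b, c, d, e⟩ := u
  obtain ⟨a', b', c', d', e'⟩ := v
  simp only [Ed, Hon, Prod.mk.injEq] at *
  omega

lemma no_coll (h : Own I τ) (hk : k ≤ I.N) (a : τ k = some u) (e : Ed I (min k 1 + 1) u v)
    (hl : l ≤ I.N) (c : τ l = some v) (b : (k ≠ 0 ∧ l ≠ 0) ∨ v.1 = 8) : False := by
  have e1 := tgt_own h hk a e (by tauto)
  have e2 := h l hl v c (by tauto)
  obtain rfl : k = l := e1.symm.trans e2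
  obtain rfl : u = v := Option.some.inj (a.symm.trans c)
  exact ed_irr _ _ e

lemma Own.set (h : Own I τ) {x} (hx : ∀ u, x = some u → (k ≠ 0 ∨ u.1 = 8) → u.2.1 = k) :
    Own I (update τ k x) := fun l hl u => by
  rw [update_apply]
  split_ifs with e
  exacts [e ▸ hx u, h l hl u]

lemma Own.step (h : Own I τ) (g : G I τ q) : Own I q := by
  obtain ⟨k, hk, u, v, a, -, e, ⟨l, -, -, rfl⟩ | ⟨-, rfl⟩⟩ := g
  · refine (h.set (by simp)).set fun w hw => ?_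
    obtain rfl : v = w := by split_ifs at hw; exact Option.some.inj hw
    exact tgt_own h hk a e
  · exact h.set fun w hw => Option.some.inj hw ▸ tgt_own h hk a e

lemma SL.step (h : SL I τ) (g : G I τ q) : SL I q := by
  refine ⟨h.1.step g, ?_⟩
  obtain ⟨h, j, hj, b⟩ := h
  obtain ⟨k, hk, u, v, a, -, e, ⟨l, hl, c, rfl⟩ | ⟨-, rfl⟩⟩ := g
  · have : v.1 ≠ 8 := fun e' => no_coll h hk a e hl c (Or.inr e')
    have h1 : j ≠ l := by rintro rfl; simp [c, this] at b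
    have h2 : j ≠ k := by
      rintro rfl
      simp only [a, kd_some] at b
      simp only [Ed, Hon, Prod.ext_iff] at e
      omega
    exact ⟨j, hj, by simpa [h1, h2]⟩
  · refine ⟨j, hj, ?_⟩
    by_cases h2 : j = k
    · subst h2
      simp only [a, kd_some, update_self] at b ⊢
      simp only [Ed, Hon, Prod.ext_iff] at e
      omega
    · simpa [h2]

lemma esc0 (hN : 0 < I.N) (h : Own I τ) (hk : k ≤ I.N) (a : τ k = some u)
    (b : u.1 = 8 ∨ (k = 0 ∧ u.1 ≤ 1) ∨ (k ≠ 0 ∧ u.1 = 5)) : ∃ r, G I τ r ∧ SL I r := by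
  have := h k hk u a
  have e : Ed I (min k 1 + 1) u (8, k, if u.1 = 8 then 1 - u.2.2.1 else 0, 0, 0) := by
    rcases b with b | ⟨rfl, b⟩ | ⟨b, c⟩
    · simp [Ed, b, this (Or.inr b)]
    · simp [Ed, b, show u.1 ≠ 8 by omega]
    · simp [Ed, c, this (Or.inl b), show min k 1 = 1 by omega]
  have g : G I τ _ := ⟨k, hk, u, _, a, ⟨by simp, hk, by simp only; split_ifs <;> omega, by simp, rfl⟩,
    e, Or.inr ⟨fun l hl c => no_coll h hk a e hl c (Or.inr rfl), rfl⟩⟩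
  exact ⟨_, g, h.step g, k, hk, by simp⟩

lemma esc (hN : 0 < I.N) (h : Own I τ) (hk : k ≤ I.N) (a : τ k = some u)
    (b : u.1 = 8 ∨ (k = 0 ∧ u.1 ≤ 1) ∨ (k ≠ 0 ∧ u.1 = 5)) : ∃ r, G I τ r ∧ ¬ Out (G I) true r := by
  obtain ⟨r, c, d⟩ := esc0 hN h hk a b
  refine ⟨r, c, not_out (SL I) (fun p hp q hq => ?_) d⟩
  obtain ⟨h, k, hk, e⟩ := hp.step hq
  cases a : q k with
  | none => simp [a] at e
  | some u => exact esc0 hN h hk a (Or.inl (by simpa [a] using e))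

def S (n : ℕ) (g : ℕ → ℕ → ℕ) (τ : Pos) : ℕ := ∑ k ∈ range (n + 1), g k (kd (τ k))

lemma S_set {n g x} (hk : k ≤ n) :
    S n g (update τ k x) + g k (kd (τ k)) = S n g τ + g k (kd x) := by
  have hk' : k ∈ range (n + 1) := by simpa [Nat.lt_succ_iff]
  simp only [S, ← add_sum_erase _ _ hk', update_self]
  rw [sum_congr rfl fun l hl => by rw [update_of_ne (ne_of_mem_erase hl)]]
  omega

def wt (h : Bool) (k a : ℕ) : ℕ := if (k = 0 ∨ h = true) ∧ a < 7 then 1 else 0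

variable (I) in
def Z (τ : Pos) : Prop := Own I τ ∧ (∀ k ≤ I.N, 4 ≤ kd (τ k) ∧ kd (τ k) ≤ 7 ∧ (kd (τ k) = 5 → k = 0)) ∧
  ∀ u, τ 0 = some u → u.2.1 = 0 ∨ τ u.2.1 = none

lemma Z.set (h : Z I τ) (hk : k ≤ I.N) (a : τ k = some u) {b} (hb : b = 6 ∨ b = 7) :
    Z I (update τ k (some (b, k, 0, 0, 0))) := by
  refine ⟨h.1.set (by simp), fun l hl => ?_, fun w => ?_⟩
  · have := h.2.1 l hl
    rw [update_apply]
    split_ifs
    · simp only [kd_some]; omega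
    · exact this
  · have := h.2.2 w
    simp only [update_apply]
    grind

lemma Z.free (h : Z I τ) (hk : k ≤ I.N) (a : τ k = some u) (e : Ed I (min k 1 + 1) u v)
    (hv : v.2.1 = k) (hl : l ≤ I.N) : τ l ≠ some v := fun c => by
  have h1 := h.1 l hl v c
  have h2 := h.2.2 v
  obtain rfl : k = l := by grind
  obtain rfl : u = v := Option.some.inj (a.symm.trans c)
  exact ed_irr _ _ e

lemma z_out (h : Z I τ) : Out (G I) (S I.N (wt I.hit) τ % 2 == 1) τ := by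
  induction' hn : S I.N (fun _ a => 7 - a) τ using Nat.strong_induction_on with n ih generalizing τ
  have X : ∀ k ≤ I.N, ∀ u, τ k = some u → wt I.hit k u.1 = 1 →
      Out (G I) (S I.N (wt I.hit) τ % 2 == 0) (update τ k (some (7, k, 0, 0, 0))) := by
    intro k hk u a b
    have h1 := S_set (g := wt I.hit) (τ := τ) (x := some (7, k, 0, 0, 0)) hk
    have h2 := S_set (g := fun _ a => 7 - a) (τ := τ) (x := some (7, k, 0, 0, 0)) hk
    simp only [a, kd_some, b] at h1 h2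
    have : u.1 < 7 := by unfold wt at b; split_ifs at b with c; exact c.2
    convert ih _ (by omega) (h.set hk a (Or.inr rfl)) rfl using 1
    simp only [wt, lt_irrefl, and_false, if_false] at h1
    rw [Bool.eq_iff_iff]; simp only [beq_iff_eq]; omega
  rcases Nat.mod_two_eq_zero_or_one (S I.N (wt I.hit) τ) with p | p <;> simp only [p] at X ⊢
  · refine .lose ?_
    rintro _ ⟨k, hk, u, v, a, b, e, d⟩
    have h0 := h.2.1 k hk
    have h1 := h.1 k hk u a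
    simp only [a, kd_some] at h0
    have : (v = (7, k, 0, 0, 0) ∧ wt I.hit k u.1 = 1) ∨ (k ≠ 0 ∧ u.1 = 4 ∧ v.1 = 5 ∧ v.2.1 = k) := by
      simp only [Ed, Hon, Prod.ext_iff, wt] at e ⊢
      cases hh : I.hit <;> simp [hh] at e ⊢ <;> omega
    obtain rfl := (d.resolve_left fun ⟨l, hl, c, _⟩ => h.free hk a e
      (by rcases this with ⟨rfl, -⟩ | c; exacts [rfl, c.2.2.2]) hl c).2
    rcases this with ⟨rfl, c⟩ | ⟨c1, c2, c3, c4⟩
    · exact X k hk u a c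
    · have hz := h.set hk a (Or.inl rfl)
      have h1 := S_set (g := wt I.hit) (τ := τ) (x := some (6, k, 0, 0, 0)) hk
      have h2 := S_set (g := fun _ a => 7 - a) (τ := τ) (x := some (6, k, 0, 0, 0)) hk
      simp only [a, kd_some, c2, wt, Nat.reduceLT, Nat.lt_add_one] at h1 h2
      refine .win (q := update τ k (some (6, k, 0, 0, 0))) ⟨k, hk, v, (6, k, 0, 0, 0), by simp,
        by simp [V, hk], by simp [Ed, c3, c4, show min k 1 = 1 by omega],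
        Or.inr ⟨fun l hl => ?_, by simp⟩⟩ ?_
      · have := h.1 l hl (6, k, 0, 0, 0)
        have := h.2.2 (6, k, 0, 0, 0)
        simp only [update_apply]
        grind
      · convert ih _ (by omega) hz rfl using 1
        simp only [Bool.false_eq, beq_eq_false_iff_ne]; omega
  · obtain ⟨k, hk, a⟩ := exists_ne_zero_of_sum_ne_zero (s := range (I.N + 1))
      (f := fun k => wt I.hit k (kd (τ k))) fun e => by simp [S, e] at p
    have hk : k ≤ I.N := by simpa [Nat.lt_succ_iff] using hk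
    have h0 := h.2.1 k hk
    cases b : τ k with
    | none => simp [b, wt] at a
    | some u =>
      have h1 := h.1 k hk u b
      simp only [b, kd_some, wt, ne_eq, ite_eq_right_iff, one_ne_zero, imp_false, not_not] at a h0
      have e : Ed I (min k 1 + 1) u (7, k, 0, 0, 0) := by
        by_cases c : k = 0
        · simp [Ed, c, h0.1, a.2]
        · simp [Ed, h1 (Or.inl c), show min k 1 = 1 by omega, a.1.resolve_left c]; omega
      exact .win ⟨k, hk, u, _, b, by simp [V, hk], e, Or.inr ⟨fun l => h.free hk b e rfl, rfl⟩⟩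
        (X k hk u b (by simp [wt, a]))

end Pool.Agent.Tok
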