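import Pool.Agent.Lib.helper9.TokB

/-! The token game built from a safety game: honest positions. -/

namespace Pool.Agent.Tok

open Pool.Agent.Cx Function Finset

def H (N : ℕ) (x : T5) (σ : ℕ → ℕ) : Pos := fun k =>
  if k = 0 then some x else if k ≤ N then some (4, k, σ k, 0, 0) else none

variable {I : Par} {q : Pos} {k N : ℕ} {x y : T5} {σ : ℕ → ℕ}

@[simp] lemma H_0 : H N x σ 0 = some x := rfl

lemma H_k (h : k ≠ 0) (hk : k ≤ N) : H N x σ k = some (4, k, σ k, 0, 0) := by simp [H, h, hk]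

@[simp] lemma H_set0 : update (H N x σ) 0 (some y) = H N y σ := by
  funext l; rw [update_apply]; split_ifs with h <;> simp [H, h]

lemma H_set {v} (h : k ≠ 0) (hk : k ≤ N) :
    update (H N x σ) k (some (4, k, v, 0, 0)) = H N x (update σ k v) := by
  funext l; rw [update_apply]; split_ifs with e <;> simp [H, e, h, hk]

lemma H_own (h : x.1 = 8 → x.2.1 = 0) : Own I (H I.N x σ) := fun l hl u => by
  unfold H; grind

lemma H_free (a : y.1 ≠ 4) (b : y ≠ x) : ∀ l ≤ N, H N x σ l ≠ some y := fun l hl => by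
  unfold H; grind

lemma G_free {τ u v} (hk : k ≤ I.N) (a : τ k = some u) (b : V I v) (e : Ed I (min k 1 + 1) u v)
    (f : ∀ l ≤ I.N, τ l ≠ some v) : G I τ (update τ k (some v)) := ⟨k, hk, u, v, a, b, e, Or.inr ⟨f, rfl⟩⟩

lemma S_H (ev : I.N % 2 = 0) : S I.N (wt I.hit) (H I.N (7, 0, 0, 0, 0) σ) % 2 = 0 := by
  rw [S, sum_range_succ', sum_congr rfl (g := fun _ => if I.hit = true then 1 else 0) fun k hk => by
    simp [H_k (Nat.succ_ne_zero k) (mem_range.1 hk), wt]]
  split_ifs <;> simp [wt, ev]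

lemma land (ev : I.N % 2 = 0) (a : 4 ≤ y.1) (b : y.1 < 7) :
    ∃ r, G I (H I.N y σ) r ∧ Out (G I) false r := by
  refine ⟨_, G_free (Nat.zero_le _) H_0 (v := (7, 0, 0, 0, 0)) (by simp [V]) (by simp [Ed, a, b])
    (H_free (by simp) (by rintro rfl; simp at b)), ?_⟩
  have := z_out (I := I) (τ := H I.N (7, 0, 0, 0, 0) σ) ⟨H_own (by simp), fun k hk => by
    unfold H; split_ifs <;> simp [*], by simp⟩
  simpa [S_H ev] using this

lemma zk (ev : I.N % 2 = 0) (h : k ≠ 0) (hk : k ≤ I.N) {w} (a : 4 ≤ y.1) (b : y.1 < 7)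
    (c : (w = none ∧ y.2.1 = k) ∨ (w = some (7, k, 0, 0, 0) ∧ y.2.1 = 0)) :
    Out (G I) false (update (update (H I.N x σ) k w) 0 (if I.hit then some y else none)) := by
  have e : ∀ z, update (update (H I.N x σ) k w) 0 z =
      update (update (H I.N (7, 0, 0, 0, 0) σ) k w) 0 z := fun z => by
    funext l; simp only [update_apply, H]; grind
  have hw : kd w = 7 := by rcases c with ⟨rfl, -⟩ | ⟨rfl, -⟩ <;> rfl
  rw [e]
  have h1 := S_set (g := wt I.hit) (τ := H I.N (7, 0, 0, 0, 0) σ) (x := w) hk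
  have h2 := S_set (g := wt I.hit) (τ := update (H I.N (7, 0, 0, 0, 0) σ) k w)
    (x := if I.hit then some y else none) (Nat.zero_le I.N)
  have h3 := S_H (σ := σ) ev
  convert z_out (I := I) (τ := update (update (H I.N (7, 0, 0, 0, 0) σ) k w) 0
    (if I.hit then some y else none))
    ⟨((H_own (by simp)).set (by grind)).set (by grind), fun l hl => ?_, ?_⟩ using 1
  · rw [update_of_ne h.symm] at h2
    simp only [H_k h hk, H_0, hw, kd_some, wt] at h1 h2
    cases hh : I.hit <;> simp [hh, h, b] at h1 h2 h3 ⊢ <;> omega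
  · simp only [update_apply, H]
    split_ifs <;> simp [*]; omega
  · simp only [update_apply]
    grind

lemma kill (ev : I.N % 2 = 0) (h : k ≠ 0) (hk : k ≤ I.N) (a : 4 ≤ y.1) (b : y.1 < 7) (c : y.2.1 = k)
    (d : V I y) (e : Ed I 1 x y) :
    ∃ r, G I (update (H I.N x σ) k (some y)) r ∧ Out (G I) false r :=
  ⟨_, ⟨0, Nat.zero_le _, x, y, by simp [h.symm], d, e, Or.inl ⟨k, hk, by simp, rfl⟩⟩, by
    rw [update_idem]; exact zk ev h hk a b (Or.inl ⟨rfl, c⟩)⟩

lemma dturn (ev : I.N % 2 = 0) (hx : x.1 = 2 ∨ x.1 = 3) (g : G I (H I.N x σ) q) :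
    Out (G I) true q ∨ (∃ y, V I y ∧ Hon I x y ∧ q = H I.N y σ) ∨ (x.1 = 3 ∧ ∃ k ≠ 0, k ≤ I.N ∧
      ∃ v ≤ I.N, v ≠ σ k ∧ I.A x.2.1 k (σ k) v ∧ G I q (H I.N x (update σ k v))) := by
  obtain ⟨k, hk, u, v, a, b, e, d⟩ := g
  by_cases h : k = 0
  · subst h
    obtain rfl : x = u := Option.some.inj a
    have : Hon I x v ∨ v.1 = 5 ∨ v.1 = 6 := by simp only [Ed] at e; grind
    obtain rfl := (d.resolve_left fun ⟨l, hl, c, _⟩ => H_free (by unfold Hon at this; grind)
      (by rintro rfl; exact ed_irr _ _ e) l hl c).2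
    rw [H_set0]
    exact this.elim (fun c => Or.inr (Or.inl ⟨v, b, c, rfl⟩)) fun c =>
      Or.inl (out_true.2 (land ev (by omega) (by omega)))
  · obtain rfl : (4, k, σ k, 0, 0) = u := Option.some.inj ((H_k h hk).symm.trans a)
    have : (∃ w, v = (5, k, σ k, w, 0) ∧ w ≠ σ k) ∨ (I.hit = true ∧ v = (7, k, 0, 0, 0)) := by
      simp only [Ed] at e; grind
    obtain rfl := (d.resolve_left fun ⟨l, hl, c, _⟩ => H_free (by grind) (by grind) l hl c).2
    rcases this with ⟨w, rfl, c⟩ | ⟨c, rfl⟩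
    · by_cases f : x.1 = 3 ∧ I.A x.2.1 k (σ k) w
      · refine Or.inr (Or.inr ⟨f.1, k, h, hk, w, b.2.2.2.1, c, f.2, ?_⟩)
        have := G_free (τ := update (H I.N x σ) k (some (5, k, σ k, w, 0))) (v := (4, k, w, 0, 0))
          hk (update_self ..) (by simp [V, hk, show w ≤ I.N from b.2.2.2.1])
          (by simp [Ed, show min k 1 = 1 by omega]) fun l hl => by simp only [update_apply, H]; grind
        rwa [update_idem, H_set h hk] at this
      · exact Or.inl (out_true.2 (kill ev h hk (by simp) (by simp) rfl b (by simp only [Ed]; grind)))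
    · have := zk (x := x) (σ := σ) (y := (6, 0, 0, 0, 0)) ev h hk (by simp) (by simp)
        (Or.inr ⟨rfl, rfl⟩)
      rw [if_pos c] at this
      refine Or.inl (.win (G_free (u := x) (Nat.zero_le _) (by simp [Ne.symm h]) (by simp [V])
        (by simp [Ed, hx]) fun l hl => ?_) this)
      simp only [update_apply, H]; grind

lemma out_ex {P : Type} {M : P → P → Prop} {p} (h : ∃ r, M p r ∧ Out M false r) :
    ∃ r, M p r ∧ ¬ Out M true r := h.imp fun _ h => ⟨h.1, not_out (Out M false)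
      (fun _ a q b => out_true.1 (out_false.1 a q b)) h.2⟩

lemma aturn1 (ev : I.N % 2 = 0) (hN : 0 < I.N) (hx : x.1 ≤ 1)
    (t : ∀ k ≠ 0, k ≤ I.N → I.Ts x.1 x.2.1 k (σ k)) (g : G I (H I.N x σ) q) :
    (∃ r, G I q r ∧ ¬ Out (G I) true r) ∨ ∃ y, Hon I x y ∧ q = H I.N y σ := by
  have ow := (H_own (by omega)).step g
  obtain ⟨k, hk, u, v, a, b, e, d⟩ := g
  by_cases h : k = 0
  · subst h
    obtain rfl : x = u := Option.some.inj a
    have : Hon I x v ∨ (v.1 = 4 ∧ ¬ I.Ts x.1 x.2.1 v.2.1 v.2.2.1) ∨ v.1 = 8 := by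
      simp only [Ed] at e; grind
    obtain rfl := (d.resolve_left fun ⟨l, hl, c, _⟩ => by unfold Hon at this; unfold H at c; grind).2
    rcases this with c | c | c
    · exact Or.inr ⟨v, c, H_set0⟩
    · exact Or.inl (by rw [H_set0]; exact out_ex (land ev (by omega) (by omega)))
    · exact Or.inl (esc hN ow (Nat.zero_le _) (update_self ..) (Or.inl c))
  · obtain rfl : (4, k, σ k, 0, 0) = u := Option.some.inj ((H_k h hk).symm.trans a)
    have : v.1 = 5 ∨ v.1 = 7 := by simp only [Ed] at e; grind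
    obtain rfl := (d.resolve_left fun ⟨l, hl, c, _⟩ => H_free (by grind) (by grind) l hl c).2
    exact Or.inl (esc (u := x) hN ow (Nat.zero_le _) (by simp [Ne.symm h]) (by omega))

lemma aturn2 {w} (ev : I.N % 2 = 0) (hx : x.1 = 3) (h : k ≠ 0) (hk : k ≤ I.N)
    (hw : w ≠ σ k) (t : I.A x.2.1 k (σ k) w)
    (g : G I (update (H I.N x σ) k (some (5, k, σ k, w, 0))) q) :
    (∃ r, G I q r ∧ ¬ Out (G I) true r) ∨ q = H I.N x (update σ k w) := by
  have o : Own I (update (H I.N x σ) k (some (5, k, σ k, w, 0))) := (H_own (by omega)).set (by simp)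
  have ow := o.step g
  have hN : 0 < I.N := by omega
  obtain ⟨j, hj, u, v, a, b, e, d⟩ := g
  by_cases f : j = k
  · subst f
    obtain rfl : (5, j, σ j, w, 0) = u := by simpa using a
    have : v = (4, j, w, 0, 0) ∨ v = (6, j, 0, 0, 0) ∨ v = (8, j, 0, 0, 0) := by
      simp only [Ed] at e; grind
    obtain rfl := (d.resolve_left fun ⟨l, hl, c, _⟩ => by simp only [update_apply, H] at c; grind).2
    rw [update_idem] at ow ⊢
    rcases this with rfl | rfl | rfl
    · exact Or.inr (H_set h hk)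
    · exact Or.inl (out_ex (kill ev h hk (by simp) (by simp) rfl b (by simp [Ed, hx])))
    · exact Or.inl (esc hN ow hk (update_self ..) (Or.inl rfl))
  · refine Or.inl (esc (u := (5, k, σ k, w, 0)) hN ow hk ?_ (by simp [h]))
    rcases d with ⟨l, hl, c, rfl⟩ | ⟨-, rfl⟩
    · have : k ≠ l := by
        rintro rfl
        obtain rfl : (5, k, σ k, w, 0) = v := by simpa using c
        by_cases j0 : j = 0
        · subst j0
          obtain rfl : x = u := by simpa [h.symm] using a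
          simp [Ed, Hon, hx, t] at e
        · exact no_coll o hj a e hl c (Or.inl ⟨j0, h⟩)
      simp [this, Ne.symm f]
    · simp [Ne.symm f]

end Pool.Agent.Tok
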