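import Pool.Agent.Lib.helper9.TokC

/-! The token game built from a safety game: correctness. -/

namespace Pool.Agent.Tok

open Pool.Agent.Cx Function Finset

variable {I : Par} {x y : T5} {σ : ℕ → ℕ} {j : ℕ}

lemma hon (h : Hon I x y) (v : V I y) : G I (H I.N x σ) (H I.N y σ) := by
  have := G_free (τ := H I.N x σ) (Nat.zero_le _) H_0 v (by simp [Ed, h])
    (H_free (by unfold Hon at h; grind) (by unfold Hon at h; grind))
  rwa [H_set0] at this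

lemma tests (ev : I.N % 2 = 0) (hx : x.1 ≤ 1) (b : ∀ k, σ k ≤ I.N) (h : ¬ Out (G I) true (H I.N x σ)) :
    ∀ k ≠ 0, k ≤ I.N → I.Ts x.1 x.2.1 k (σ k) := fun k a c => by
  by_contra d
  have := kill (x := x) (σ := σ) (y := (4, k, σ k, 0, 0)) ev a c (by simp) (by simp) rfl
    (by simp [V, b, c]) (by simp [Ed, hx, d])
  rw [← H_k (x := x) a c, update_eq_self] at this
  exact h (out_true.2 this)

lemma eff (ev : I.N % 2 = 0) (hA : ∀ k u v v', I.A j k u v → v ≠ u → I.A j k v v' → v' = v)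
    (b : ∀ k, σ k ≤ I.N) (h : ¬ Out (G I) false (H I.N (3, j, 0, 0, 0) σ)) : ∃ σ', (∀ k, σ' k ≤ I.N) ∧
      ¬ Out (G I) true (H I.N (1, j, 0, 0, 0) σ') ∧ ∀ k, σ' k = σ k ∨ ∃ u v, I.A j k u v := by
  classical
  induction' hn : #{k ∈ range (I.N + 1) | ∃ v ≠ σ k, I.A j k (σ k) v} using Nat.strong_induction_on
    with n ih generalizing σ
  rw [out_false] at h
  push Not at h
  obtain ⟨q, g, h⟩ := h
  rcases dturn ev (by simp) g with c | ⟨y, -, c, rfl⟩ | ⟨-, k, c1, c2, v, c3, c4, c5, c6⟩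
  · exact absurd c h
  · obtain rfl : y = (1, j, 0, 0, 0) := by simpa [Hon] using c
    exact ⟨σ, b, h, fun _ => Or.inl rfl⟩
  · have lt : #{l ∈ range (I.N + 1) | ∃ w ≠ update σ k v l, I.A j l (update σ k v l) w} < n := by
      refine hn ▸ card_lt_card ⟨fun l hl => ?_, fun e => ?_⟩
      · by_cases e : l = k
        · subst e
          exact mem_filter.2 ⟨(mem_filter.1 hl).1, v, c4, c5⟩
        · simpa [e] using hl
      · obtain ⟨-, w, e1, e2⟩ := mem_filter.1 (e (mem_filter.2 ⟨mem_range.2 (by omega), v, c4, c5⟩))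
        rw [update_self] at e1 e2
        exact e1 (hA _ _ _ _ c5 c4 e2)
    obtain ⟨σ', d1, d2, d3⟩ := ih _ lt
      (fun l => by rw [update_apply]; split_ifs; exacts [c3, b l]) (mt (Out.win c6) h) rfl
    refine ⟨σ', d1, d2, fun l => ?_⟩
    by_cases e : l = k
    · exact Or.inr ⟨_, _, e ▸ c5⟩
    · simpa [e] using d3 l

lemma dno (ev : I.N % 2 = 0) (hm : 0 < I.m) (hx : x.1 = 2 ∨ x.1 = 3) :
    ¬ Out (G I) true (H I.N x σ) := by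
  refine not_out' (fun τ => ∃ x σ, (x.1 = 2 ∨ x.1 = 3) ∧ τ = H I.N x σ) ?_ ⟨x, σ, hx, rfl⟩
  rintro _ ⟨x, σ, hx, rfl⟩ q g
  rcases dturn ev hx g with c | ⟨y, b, c, rfl⟩ | ⟨-, k, -, -, v, -, -, -, c⟩
  · exact (out_true.1 c).imp fun _ h => ⟨h.1, Or.inr h.2⟩
  · by_cases e : y.1 = 0
    · exact ⟨_, hon (y := (3, y.2.1, 0, 0, 0)) (by simp [Hon, e]) (by simp [V, b.2.1]),
        Or.inl ⟨_, _, by simp, rfl⟩⟩
    · exact ⟨_, hon (y := (2, 0, 0, 0, 0)) (by unfold Hon at *; grind) (by simp [V]),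
        Or.inl ⟨_, _, by simp, rfl⟩⟩
  · exact ⟨_, c, Or.inl ⟨_, _, hx, rfl⟩⟩

variable (I) in
def Cl (W : Set (ℕ → ℕ)) : Prop := ∀ σ ∈ W, (∀ k, σ k ≤ I.N) ∧ ∀ a < I.m, ∃ j < I.L, I.act j = a ∧
  ∃ σ' ∈ W, ∀ k ≠ 0, k ≤ I.N → I.Ts 0 j k (σ k) ∧ I.Ts 1 j k (σ' k) ∧ (σ' k = σ k ∨ ∃ u v, I.A j k u v)

lemma safe {W} (ev : I.N % 2 = 0) (hN : 0 < I.N) (hL : I.L ≤ I.N) (hW : Cl I W)
    (hA : ∀ j < I.L, ∀ k u v u' v', I.A j k u v → I.Ts 1 j k v' → I.A j k u' v') (hj : j ≤ I.N)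
    (b : ∀ k, σ k ≤ I.N) (t : ∀ k ≠ 0, k ≤ I.N → I.Ts 0 j k (σ k)) {σ'} (h1 : σ' ∈ W)
    (h2 : ∀ k ≠ 0, k ≤ I.N → I.Ts 1 j k (σ' k) ∧ (σ' k = σ k ∨ I.A j k (σ k) (σ' k))) :
    ¬ Out (G I) true (H I.N (0, j, 0, 0, 0) σ) := by
  let Tg := fun j (σ : ℕ → ℕ) => j ≤ I.N ∧ (∀ k, σ k ≤ I.N) ∧ ∃ σ' ∈ W,
    ∀ k ≠ 0, k ≤ I.N → I.Ts 1 j k (σ' k) ∧ (σ' k = σ k ∨ I.A j k (σ k) (σ' k))
  let Y := fun τ => (∃ j σ, τ = H I.N (0, j, 0, 0, 0) σ ∧ (∀ k ≠ 0, k ≤ I.N → I.Ts 0 j k (σ k)) ∧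
    Tg j σ) ∨ (∃ j, ∃ σ ∈ W, τ = H I.N (1, j, 0, 0, 0) σ ∧ ∀ k ≠ 0, k ≤ I.N → I.Ts 1 j k (σ k)) ∨
    (∃ j σ, ∃ k ≠ 0, k ≤ I.N ∧ ∃ w ≠ σ k, I.A j k (σ k) w ∧
      τ = update (H I.N (3, j, 0, 0, 0) σ) k (some (5, k, σ k, w, 0)) ∧ Tg j (update σ k w)) ∨
    ¬ Out (G I) true τ
  have ef : ∀ j σ, Tg j σ → ∃ r, G I (H I.N (3, j, 0, 0, 0) σ) r ∧ Y r := by
    rintro j σ ⟨hj, b, σ', h1, h2⟩
    by_cases e : ∀ k ≠ 0, k ≤ I.N → σ' k = σ k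
    · refine ⟨_, hon (y := (1, j, 0, 0, 0)) (by simp [Hon]) (by simp [V, hj]),
        Or.inr (Or.inl ⟨j, σ', h1, ?_, fun k a c => (h2 k a c).1⟩)⟩
      funext k; unfold H; grind
    · push Not at e
      obtain ⟨k, a, c, e⟩ := e
      have := (hW _ h1).1
      refine ⟨_, G_free (v := (5, k, σ k, σ' k, 0)) c (H_k a c) (by simp [V, *])
        (by simp [Ed, e, show min k 1 = 1 by omega]) (H_free (by simp) (by simp)),
        Or.inr (Or.inr (Or.inl ⟨j, σ, k, a, c, _, e, (h2 k a c).2.resolve_left e, rfl, hj,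
          fun l => ?_, σ', h1, fun l d f => ?_⟩))⟩
      · rw [update_apply]; split_ifs; exacts [this k, b l]
      · have := h2 l d f
        rw [update_apply]; grind
  refine not_out Y ?_ (Or.inl ⟨j, σ, rfl, t, hj, b, σ', h1, h2⟩)
  have w : ∀ {q}, (∃ r, G I q r ∧ ¬ Out (G I) true r) → ∃ r, G I q r ∧ Y r :=
    fun h => h.imp fun _ h => ⟨h.1, Or.inr (Or.inr (Or.inr h.2))⟩
  rintro _ (⟨j, σ, rfl, t, h⟩ | ⟨j, σ, h, rfl, t⟩ | ⟨j, σ, k, a, c, v, d, e, rfl, h⟩ | h) q g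
  · rcases aturn1 ev hN (by simp) t g with c | ⟨y, c, rfl⟩
    · exact w c
    · obtain rfl : y = (3, j, 0, 0, 0) := by simpa [Hon] using c
      exact ef j σ h
  · rcases aturn1 ev hN (by simp) t g with c | ⟨y, c, rfl⟩
    · exact w c
    · obtain ⟨c, d⟩ : y = (2, y.2.1, 0, 0, 0) ∧ y.2.1 < I.m := by simpa [Hon] using c
      obtain ⟨i, e1, e2, σ', e3, e4⟩ := (hW σ h).2 _ d
      exact ⟨_, hon (y := (0, i, 0, 0, 0)) (by rw [c]; simp [Hon, e1, e2]) (by simp [V]; omega),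
        Or.inl ⟨i, σ, rfl, fun k a b => (e4 k a b).1, by omega, (hW σ h).1, σ', e3, fun k a b =>
          let ⟨_, f, g⟩ := e4 k a b; ⟨f, g.imp_right fun ⟨_, _, g⟩ => hA i e1 _ _ _ _ _ g f⟩⟩⟩
  · rcases aturn2 ev rfl a c d e g with c | rfl
    exacts [w c, ef j _ h]
  · have := mt (Out.win g) h
    rw [out_false] at this
    push Not at this
    exact w this

lemma main (ev : I.N % 2 = 0) (hN : 0 < I.N) (hL : I.L ≤ I.N) (hm : 0 < I.m) (hm' : I.m ≤ I.N)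
    (hA : ∀ j < I.L, ∀ k u v u' v', I.A j k u v → I.Ts 1 j k v' → I.A j k u' v')
    (hB : ∀ j k u v v', I.A j k u v → v ≠ u → I.A j k v v' → v' = v)
    (hT : ∀ b k v, I.Ts b I.L k v) (hC : ∀ k v, I.A I.L k I.N v) (o) :
    Outcome (G I) (H I.N (if o = some true then 0 else 3, I.L, 0, 0, 0) fun _ => I.N) o ↔
      ((∃ W, W.Nonempty ∧ Cl I W) ↔ o = none) := by
  have a : Out (G I) false (H I.N (3, I.L, 0, 0, 0) fun _ => I.N) →
      Out (G I) true (H I.N (0, I.L, 0, 0, 0) fun _ => I.N) :=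
    .win (hon (by simp [Hon]) (by simp [V, hL]))
  have b : Out (G I) true (H I.N (0, I.L, 0, 0, 0) fun _ => I.N) → ¬ ∃ W, W.Nonempty ∧ Cl I W :=
    fun h ⟨W, ⟨σ, c⟩, d⟩ => safe ev hN hL d hA hL (by simp) (by simp [hT]) c (by simp [hT, hC]) h
  have c : (¬ ∃ W, W.Nonempty ∧ Cl I W) → Out (G I) false (H I.N (3, I.L, 0, 0, 0) fun _ => I.N) := by
    rw [not_imp_comm]
    intro h
    obtain ⟨σ, c, d, -⟩ := eff ev (hB _) (by simp) h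
    refine ⟨{σ | (∀ k, σ k ≤ I.N) ∧ ∃ j, ¬ Out (G I) true (H I.N (1, j, 0, 0, 0) σ)},
      ⟨σ, c, _, d⟩, fun σ ⟨c, j, d⟩ => ⟨c, fun a ha => ?_⟩⟩
    have := mt (Out.win (hon (y := (2, a, 0, 0, 0)) (by simp [Hon, ha]) (by simp [V]; omega))) d
    rw [out_false] at this
    push Not at this
    obtain ⟨q, g, h⟩ := this
    rcases dturn ev (by simp) g with e | ⟨y, e1, e2, rfl⟩ | ⟨e, -⟩
    · exact absurd e h
    · obtain ⟨e2, e3, e4⟩ : y = (0, y.2.1, 0, 0, 0) ∧ y.2.1 < I.L ∧ I.act y.2.1 = a := by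
        simpa [Hon] using e2
      rw [e2] at h
      obtain ⟨σ', f1, f2, f3⟩ := eff ev (hB _) c
        (mt (Out.win (hon (y := (3, y.2.1, 0, 0, 0)) (by simp [Hon]) (by simp [V, e1.2.1]))) h)
      exact ⟨_, e3, e4, σ', ⟨f1, _, f2⟩, fun k a b =>
        ⟨tests ev (by simp) c h k a b, tests ev (by simp) f1 f2 k a b, f3 k⟩⟩
    · simp at e
  have d := dno (x := (3, I.L, 0, 0, 0)) (σ := fun _ => I.N) ev hm (by simp)
  rcases o with _ | _ | _ <;> simp only [Outcome, reduceCtorEq, if_false, if_true, iff_true,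
    iff_false, Option.some.injEq, Bool.false_eq_true]
  exacts [⟨fun h => not_not.1 (mt c h.2), fun h => ⟨d, fun e => b (a e) h⟩⟩,
    ⟨fun e => b (a e), c⟩, ⟨b, fun e => a (c e)⟩]

end Pool.Agent.Tok
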