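import Pool.Agent.Lib.helper9.TokD

/-! Token games on directed graphs are EXPTIME-hard. -/

namespace Pool.Agent.Tok

open Pool.Agent.Cx Function

def Ts (l : List (ℕ × ℕ)) (k v : ℕ) : Prop := ¬ ∃ x ∈ l, x.1 + 1 = k ∧ v ≠ x.2

def par (h : Bool) (I : ℕ × List Op) : Par where
  hit := h
  N := 2 * size I
  m := I.1 + 2
  L := I.2.length
  act j := (I.2.getD j (0, [], [])).1
  Ts b j := Ts (if b = 0 then (I.2.getD j (0, [], [])).2.1 else (I.2.getD j (0, [], [])).2.2)
  A j k u v := (j = I.2.length ∧ u = 2 * size I) ∨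
    ((∃ x ∈ (I.2.getD j (0, [], [])).2.2, x.1 + 1 = k) ∧ Ts (I.2.getD j (0, [], [])).2.2 k v)

lemma sg_iff (h) (I : ℕ × List Op) : SG I ↔ ∃ W, W.Nonempty ∧ Cl (par h I) W := by
  have bd : ∀ o ∈ I.2, (∀ x ∈ o.2.1, x.1 < size I ∧ x.2 < size I) ∧
      ∀ x ∈ o.2.2, x.1 < size I ∧ x.2 < size I := fun o ho => by
    have := size_lt_of_mem ho
    have := size_pair I.1 I.2
    have := size_pair o.1 o.2
    have := size_pair o.2.1 o.2.2
    refine ⟨fun x hx => ?_, fun x hx => ?_⟩ <;>
    · have := size_lt_of_mem hx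
      have := size_pair x.1 x.2
      simp only [Prod.mk.eta, size_nat] at *
      omega
  simp only [Cl, par, Ts, if_true, one_ne_zero, if_false, not_exists, not_and, not_not]
  constructor
  · rintro ⟨W, ⟨σ, hσ⟩, h⟩
    refine ⟨(fun σ k => min (σ (k - 1)) (size I)) '' W, ⟨_, σ, hσ, rfl⟩, ?_⟩
    rintro _ ⟨σ, hσ, rfl⟩
    refine ⟨fun i => by simp only; omega, fun a ha => ?_⟩
    obtain ⟨o, ho, rfl, σ', b, c⟩ := h σ hσ a ha
    obtain ⟨j, hj, rfl⟩ := List.getElem_of_mem ho
    refine ⟨j, hj, by simp [hj], _, ⟨σ', b, rfl⟩, fun k _ _ => ?_⟩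
    rw [List.getD_eq_getElem _ _ hj]
    obtain ⟨c1, c2, c3⟩ := c (k - 1)
    have : ∀ x ∈ I.2[j].2.2, x.1 + 1 = k → min (σ' (k - 1)) (size I) = x.2 := fun x hx e => by
      have := (bd _ ho).2 x hx; have := c2 x hx (by omega); omega
    refine ⟨fun x hx e => by have := (bd _ ho).1 x hx; have := c1 x hx (by omega); simp only; omega,
      this, or_iff_not_imp_left.2 fun e => ⟨0, _, Or.inr ⟨?_, this⟩⟩⟩
    by_contra! f
    exact e (by simp only [c3 fun x hx e => f x hx (by omega)])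
  · rintro ⟨W, ⟨σ, hσ⟩, h⟩
    refine ⟨{σ | ∃ σ0 ∈ W, ∀ i < size I, σ i = σ0 (i + 1)}, ⟨_, σ, hσ, fun _ _ => rfl⟩, ?_⟩
    rintro σ ⟨σ0, h0, e⟩ a ha
    obtain ⟨j, hj, b, σ', c, d⟩ := (h σ0 h0).2 a ha
    rw [List.getD_eq_getElem _ _ hj] at b d
    have ho := List.getElem_mem hj
    refine ⟨_, ho, b, fun i => if i < size I then σ' (i + 1) else σ i,
      ⟨σ', c, fun i hi => if_pos hi⟩, fun i => ?_⟩
    by_cases hi : i < size I
    · obtain ⟨d1, d2, d3⟩ := d (i + 1) (by omega) (by omega)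
      simp only [if_pos hi, e i hi]
      refine ⟨fun x hx e => d1 x hx (by omega), fun x hx e => d2 x hx (by omega), fun f =>
        d3.resolve_right ?_⟩
      rintro ⟨u, v, ⟨g, -⟩ | ⟨⟨x, hx, g⟩, -⟩⟩
      exacts [hj.ne g, f x hx (by omega)]
    · exact ⟨fun x hx e => by have := (bd _ ho).1 x hx; omega,
        fun x hx e => by have := (bd _ ho).2 x hx; omega, fun _ => if_neg hi⟩

def vs (N : ℕ) : List T5 :=
  List.range 9 ×ˢ List.range (N + 1) ×ˢ List.range (N + 1) ×ˢ List.range (N + 1) ×ˢ [0]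

def pl (N : ℕ) (x y : T5) : ℕ :=
  if y = x then 1 else if y = (4, y.2.1, N, 0, 0) ∧ y.2.1 ≠ 0 ∧ y.2.1 ≤ N then 2 else 0

section pt
variable {α : Type} [Enc α] {J : α → ℕ × List Op} {x y : α → T5} {t j k u v : α → ℕ} {h : Bool}

@[fun_prop] lemma pp_ts {l : α → List (ℕ × ℕ)} (hl : PT l) (hk : PT k) (hv : PT v) :
    PP fun a => Ts (l a) (k a) (v a) := by unfold Ts; fun_prop

@[fun_prop] lemma pp_pts (hJ : PT J) (ht : PT t) (hj : PT j) (hk : PT k) (hv : PT v) :
    PP fun a => (par h (J a)).Ts (t a) (j a) (k a) (v a) := by simp only [par]; fun_prop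

@[fun_prop] lemma pp_A (hJ : PT J) (hj : PT j) (hk : PT k) (hu : PT u) (hv : PT v) :
    PP fun a => (par h (J a)).A (j a) (k a) (u a) (v a) := by simp only [par]; fun_prop

@[fun_prop] lemma pp_hon (hJ : PT J) (hx : PT x) (hy : PT y) :
    PP fun a => Hon (par h (J a)) (x a) (y a) := by simp only [Hon, par]; fun_prop

lemma pp_ed (hJ : PT J) (ht : PT t) (hx : PT x) (hy : PT y) :
    PP fun a => Ed (par h (J a)) (t a) (x a) (y a) := by
  have : PP fun a => (par h (J a)).hit = true := PP.const (h = true)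
  refine .or (by fun_prop) (.or (.and (by fun_prop) (.or (by fun_prop) (.or (.and (by fun_prop)
    (.or (.and (by fun_prop) (.not (pp_pts hJ ?_ ?_ ?_ ?_))) (by fun_prop))) (.or (.and (by fun_prop)
    (.or (.and (by fun_prop) (.not (.and (by fun_prop) (pp_A hJ ?_ ?_ ?_ ?_)))) (by fun_prop)))
    (by fun_prop))))) (.and (by fun_prop) (.or (by fun_prop) (.or (by fun_prop)
    (.and this (by fun_prop)))))) <;> fun_prop

@[fun_prop] lemma pt_vs (hk : PT k) : PT fun a => vs (k a) := by unfold vs; fun_prop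

end pt

theorem tok_hard (hit : Bool) (o) {C : TI → Prop} {t} (ht : 2 ≤ t) (hC : ∀ x, C (t, x)) :
    HardEX fun I : TI => C I ∧ TVal I ∧ Outcome (TMv hit I.2.1) I.2.2 o := by
  classical
  have h : HardEX fun I => SG I ↔ o = none := by
    cases o
    · simpa using hardEX_sg
    · simpa using hardEX_sg.not
  refine h.red (r := fun I => (t, edges (vs (2 * size I)) (Ed (par hit I)), (vs (2 * size I)).map
    (pl (2 * size I) (if o = some true then 0 else 3, I.2.length, 0, 0, 0))))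
    (PT.pair (by fun_prop) (PT.pair (PT.filter (PP.decide (pp_ed (by fun_prop) (by fun_prop)
      (by fun_prop) (by fun_prop))) (by fun_prop)) (by unfold pl; fun_prop))) fun I => ?_
  have := length_lt_size I.2
  have := size_pair I.1 I.2
  simp only [Prod.mk.eta, size_nat] at *
  rw [and_iff_right (hC _), and_iff_right (edges_val ed_irr ht fun x => by unfold pl; grind),
    sg_iff hit, ← main (by simp [par]) (by simp [par]; omega) (by simp [par]; omega) (by simp [par])
      (by simp [par]; omega) (by simp only [par]; grind) (by simp only [par, Ts]; grind)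
      (by simp [par, Ts]) (by simp [par])]
  refine outcome_congr (fun b => (tok_bridge (List.nodup_range.product (List.nodup_range.product
    (List.nodup_range.product (List.nodup_range.product (List.nodup_singleton _)))))
    (fun ⟨a, b, c, d, e⟩ => by simp [V, par]) ed_irr ?_ ?_ b).symm) o
  · simp only [H, pl, V, par]
    grind
  · intro u h
    have := h 0 (Nat.zero_le _)
    have := h u.2.1
    simp only [H, pl, par] at *
    grind

theorem tok_compl (hit : Bool) (o) {C : TI → Prop} (h : PP C) {t} (ht : 2 ≤ t) (hC : ∀ x, C (t, x)) :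
    EXPTIMEComplete (Lang fun I : TI => C I ∧ TVal I ∧ Outcome (TMv hit I.2.1) I.2.2 o) :=
  ⟨tok_mem hit o h, (tok_hard hit o ht hC).hard⟩

end Pool.Agent.Tok
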