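import Pool.Agent.Lib.helper9.TubeCap

set_option autoImplicit false

namespace Pool.Agent.H9Tube

open MeasureTheory Set

/-- polynomial functions of two real variables -/
inductive P2 : (ℝ → ℝ → ℝ) → Prop
  | const (c : ℝ) : P2 fun _ _ => c
  | fst : P2 fun r _ => r
  | snd : P2 fun _ τ => τ
  | add {f g : ℝ → ℝ → ℝ} (hf : P2 f) (hg : P2 g) : P2 fun r τ => f r τ + g r τ
  | mul {f g : ℝ → ℝ → ℝ} (hf : P2 f) (hg : P2 g) : P2 fun r τ => f r τ * g r τ

namespace P2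

variable {f g : ℝ → ℝ → ℝ}

lemma neg (hf : P2 f) : P2 fun r τ => - f r τ := by simpa using (const (-1)).mul hf

lemma sub (hf : P2 f) (hg : P2 g) : P2 fun r τ => f r τ - g r τ := by
  simpa [sub_eq_add_neg] using hf.add hg.neg

lemma pow (hf : P2 f) (k : ℕ) : P2 fun r τ => f r τ ^ k := by
  induction k with
  | zero => simpa using const 1
  | succ k ih => simpa [pow_succ] using ih.mul hf

lemma sum {ι : Type*} (s : Finset ι) {F : ι → ℝ → ℝ → ℝ}
    (h : ∀ i ∈ s, P2 (F i)) : P2 fun r τ => ∑ i ∈ s, F i r τ := by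
  classical
  induction s using Finset.induction_on with
  | empty => simpa using const 0
  | insert a s ha ih =>
    simp only [Finset.sum_insert ha]
    exact (h a (by simp)).add (ih fun i hi => h i (by simp [hi]))

lemma qf (a N : ℕ) (hf : P2 f) (hg : P2 g) : P2 fun r τ => Qf a N (f r τ) (g r τ) :=
  sum _ fun _ _ => (const _).mul ((hf.pow _).mul (hg.pow _))

lemma cont (hf : P2 f) : Continuous fun p : ℝ × ℝ => f p.1 p.2 := by
  induction hf with
  | const c => fun_prop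
  | fst => fun_prop
  | snd => fun_prop
  | add _ _ h1 h2 => exact h1.add h2
  | mul _ _ h1 h2 => exact h1.mul h2

lemma deriv (hf : P2 f) : ∃ f', P2 f' ∧ ∀ r τ, HasDerivAt (fun r => f r τ) (f' r τ) r := by
  induction hf with
  | const c => exact ⟨_, const 0, fun r τ => hasDerivAt_const _ _⟩
  | fst => exact ⟨_, const 1, fun r τ => hasDerivAt_id _⟩
  | snd => exact ⟨_, const 0, fun r τ => hasDerivAt_const _ _⟩
  | add _ _ h1 h2 =>
    obtain ⟨f', a, b⟩ := h1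
    obtain ⟨g', c, d⟩ := h2
    exact ⟨_, a.add c, fun r τ => (b r τ).add (d r τ)⟩
  | mul hf hg h1 h2 =>
    obtain ⟨f', a, b⟩ := h1
    obtain ⟨g', c, d⟩ := h2
    exact ⟨_, (a.mul hg).add (hf.mul c), fun r τ => (b r τ).mul (d r τ)⟩

lemma sp {σ : Type} {n : ℕ} (hf : P2 f) {R T : (σ → ℝ) → (Fin n → ℝ) → ℝ} (hR : Sp R)
    (hT : Sp T) : Sp fun ω z => f (R ω z) (T ω z) := by
  induction hf with
  | const c => exact Sp.const c
  | fst => exact hR
  | snd => exact hT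
  | add _ _ h1 h2 => exact h1.add h2
  | mul _ _ h1 h2 => exact h1.mul h2

end P2

lemma ftc_min {g g' : ℝ → ℝ} (hg : ∀ r, HasDerivAt g (g' r) r) (hc : Continuous g') {r1 r2 : ℝ}
    (h12 : r1 ≤ r2) (h : ℝ) :
    ∫ u, (Icc r1 r2 ∩ Iic h).indicator g' u = g (min r2 h) - g (min r1 h) := by
  rw [← intervalIntegral.integral_eq_sub_of_hasDerivAt (fun x _ => hg x)
    (hc.intervalIntegrable _ _), intervalIntegral.integral_of_le (min_le_min_right _ h12),
    ← integral_indicator measurableSet_Ioc]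
  apply integral_congr_ae
  have h1 : ∀ᵐ u : ℝ, u ≠ r1 := by simp [ae_iff]
  filter_upwards [h1] with u hu
  have : u ∈ Icc r1 r2 ∩ Iic h ↔ u ∈ Ioc (min r1 h) (min r2 h) := by
    simp only [mem_inter_iff, mem_Icc, mem_Iic, mem_Ioc, min_lt_iff, le_min_iff]
    constructor
    · rintro ⟨⟨a, b⟩, c⟩; exact ⟨Or.inl (lt_of_le_of_ne a (Ne.symm hu)), b, c⟩
    · rintro ⟨a | a, b, c⟩
      · exact ⟨⟨a.le, b⟩, c⟩
      · linarith
  by_cases h2 : u ∈ Icc r1 r2 ∩ Iic h
  · rw [indicator_of_mem h2, indicator_of_mem (this.1 h2)]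
  · rw [indicator_of_notMem h2, indicator_of_notMem (fun h => h2 (this.2 h))]

/-- half-height of the fibre over `y` -/
noncomputable def sg {m : ℕ} (ε : ℝ) (y : Fin m → ℝ) : ℝ := Real.sqrt (ε ^ 2 - ∑ j, y j ^ 2)

lemma piece {m : ℕ} (ε : ℝ) {g g' : ℝ → ℝ → ℝ} (hg' : P2 g')
    (hg : ∀ r τ, HasDerivAt (fun r => g r τ) (g' r τ) r) {T h : (Fin m → ℝ) → ℝ}
    (hT : Continuous T) {S : Set (Fin (m + 1) → ℝ)} (hS : MeasurableSet S)
    (hSh : ∀ u y, (Fin.cons u y : Fin (m + 1) → ℝ) ∈ S ↔ u ≤ h y) :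
    Integrable ((bl m (ε ^ 2)).indicator fun y =>
        g (min (sg ε y) (h y)) (T y) - g (min (-sg ε y) (h y)) (T y)) ∧
    ∫ y, (bl m (ε ^ 2)).indicator (fun y =>
        g (min (sg ε y) (h y)) (T y) - g (min (-sg ε y) (h y)) (T y)) y =
      ∫ z in bl (m + 1) (ε ^ 2) ∩ S, g' (z 0) (T fun j => z j.succ) := by
  have hc : Continuous fun z : Fin (m + 1) → ℝ => g' (z 0) (T fun j => z j.succ) :=
    hg'.cont.comp (f := fun z : Fin (m + 1) → ℝ => (z 0, T fun j => z j.succ)) (by fun_prop)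
  have hI := int_ind hc (ε ^ 2) hS
  have key : ((bl m (ε ^ 2)).indicator fun y =>
      g (min (sg ε y) (h y)) (T y) - g (min (-sg ε y) (h y)) (T y)) = fun y => ∫ u : ℝ,
      (bl (m + 1) (ε ^ 2) ∩ S).indicator (fun z => g' (z 0) (T fun j => z j.succ))
        (Fin.cons u y) := by
    ext y
    by_cases hy : y ∈ bl m (ε ^ 2)
    · rw [indicator_of_mem hy, ← ftc_min (fun r => hg r (T y))
        (hg'.cont.comp (f := fun r : ℝ => (r, T y)) (by fun_prop))
        (by have := Real.sqrt_nonneg (ε ^ 2 - ∑ j, y j ^ 2); unfold sg; linarith)]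
      congr 1
      ext u
      have hy' : 0 ≤ ε ^ 2 - ∑ j, y j ^ 2 := sub_nonneg.2 hy
      have hmem : (Fin.cons u y : Fin (m + 1) → ℝ) ∈ bl (m + 1) (ε ^ 2) ∩ S ↔
          u ∈ Icc (-sg ε y) (sg ε y) ∩ Iic (h y) := by
        rw [mem_inter_iff, hSh, mem_inter_iff, mem_Icc, ← abs_le, sg, Real.le_sqrt (abs_nonneg _) hy',
          sq_abs]
        simp only [bl, mem_ofPred_eq, Fin.sum_univ_succ, Fin.cons_zero, Fin.cons_succ, mem_Iic]
        constructor <;> rintro ⟨a, b⟩ <;> exact ⟨by linarith, b⟩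
      by_cases hu : u ∈ Icc (-sg ε y) (sg ε y) ∩ Iic (h y)
      · rw [indicator_of_mem hu, indicator_of_mem (hmem.2 hu)]; simp
      · rw [indicator_of_notMem hu, indicator_of_notMem (fun h => hu (hmem.1 h))]
    · rw [indicator_of_notMem hy]
      have : ∀ u : ℝ, (bl (m + 1) (ε ^ 2) ∩ S).indicator (fun z => g' (z 0) (T fun j => z j.succ))
          (Fin.cons u y) = 0 := by
        intro u
        apply indicator_of_notMem
        rintro ⟨h3, -⟩
        simp only [bl, mem_ofPred_eq, Fin.sum_univ_succ, Fin.cons_zero, Fin.cons_succ] at h3 hy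
        exact hy (by nlinarith [sq_nonneg u])
      simp [this]
  rw [key]
  refine ⟨?_, ?_⟩
  · have := ((cons_mp m).integrable_comp_emb (cons_emb m)).2 hI
    rw [Measure.volume_eq_prod] at this
    exact this.integral_prod_right
  · rw [← fub2 hI, integral_indicator ((bl_closed _ _).measurableSet.inter hS)]

lemma sphere_null (n : ℕ) {r : ℝ} (hr : 0 ≤ r) :
    volume {x : Fin (n + 1) → ℝ | ∑ i, x i ^ 2 = r ^ 2} = 0 := by
  have h := (PiLp.volume_preserving_toLp (Fin (n + 1))).measure_preimage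
    (s := Metric.sphere 0 r) Metric.isClosed_sphere.measurableSet.nullMeasurableSet
  rw [Measure.addHaar_sphere] at h
  rw [← h]
  congr 1
  ext x
  simp only [mem_ofPred_eq, mem_preimage, mem_sphere_iff_norm, sub_zero]
  rw [← sq_eq_sq₀ (norm_nonneg _) hr, EuclideanSpace.real_norm_sq_eq]

/-- the body -/
def tube (k m : ℕ) (ε : ℝ) (a : Fin k → ℝ) (b : Fin m → ℝ) (t : ℝ) :
    Set ((Fin k → ℝ) × (Fin m → ℝ)) :=
  {p | (Real.sqrt (∑ i, p.1 i ^ 2) - 1) ^ 2 + ∑ j, p.2 j ^ 2 ≤ ε ^ 2 ∧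
    ∑ i, a i * p.1 i + ∑ j, b j * p.2 j ≤ t}

lemma tube_closed (k m : ℕ) (ε : ℝ) (a : Fin k → ℝ) (b : Fin m → ℝ) (t : ℝ) :
    IsClosed (tube k m ε a b t) := by
  unfold tube
  rw [ofPred_and]
  exact (isClosed_le (by fun_prop) continuous_const).inter
    (isClosed_le (by fun_prop) continuous_const)

lemma tube_compact (k m : ℕ) (ε : ℝ) (a : Fin k → ℝ) (b : Fin m → ℝ) (t : ℝ) :
    IsCompact (tube k m ε a b t) := by
  refine ((bl_compact k (2 * ε ^ 2 + 2)).prod (bl_compact m (ε ^ 2))).of_isClosed_subset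
    (tube_closed k m ε a b t) ?_
  rintro ⟨x, y⟩ ⟨h, -⟩
  have h1 : 0 ≤ ∑ i, x i ^ 2 := Finset.sum_nonneg fun i _ => sq_nonneg _
  have h2 : 0 ≤ ∑ i, y i ^ 2 := Finset.sum_nonneg fun i _ => sq_nonneg _
  have h3 := Real.sq_sqrt h1
  simp only at h
  refine ⟨?_, ?_⟩
  · show ∑ i, x i ^ 2 ≤ _
    nlinarith [sq_nonneg (Real.sqrt (∑ i, x i ^ 2) - 2)]
  · show ∑ i, y i ^ 2 ≤ _
    nlinarith [sq_nonneg (Real.sqrt (∑ i, x i ^ 2) - 1)]

lemma section_vol {n m : ℕ} {ε : ℝ} (h0 : 0 < ε) (h1 : ε < 1) (a : Fin (n + 1) → ℝ)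
    (b : Fin m → ℝ) (t : ℝ) (y : Fin m → ℝ) :
    ∫ x, (tube (n + 1) m ε a b t).indicator (fun _ => (1 : ℝ)) (x, y) =
      (bl m (ε ^ 2)).indicator (fun y =>
        (∫ _ in bl (n + 1) ((1 + sg ε y) ^ 2) ∩ {x | ∑ i, a i * x i ≤ t - ∑ j, b j * y j}, (1 : ℝ)) -
        ∫ _ in bl (n + 1) ((1 + -sg ε y) ^ 2) ∩ {x | ∑ i, a i * x i ≤ t - ∑ j, b j * y j},
          (1 : ℝ)) y := by
  by_cases hy : y ∈ bl m (ε ^ 2)
  · rw [indicator_of_mem hy]
    have hy' : 0 ≤ ε ^ 2 - ∑ j, y j ^ 2 := sub_nonneg.2 hy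
    have hs0 : 0 ≤ sg ε y := Real.sqrt_nonneg _
    have hs2 : sg ε y ^ 2 = ε ^ 2 - ∑ j, y j ^ 2 := Real.sq_sqrt hy'
    have hY : 0 ≤ ∑ i, y i ^ 2 := Finset.sum_nonneg fun i _ => sq_nonneg _
    have hs1 : sg ε y < 1 := by nlinarith
    set H : Set (Fin (n + 1) → ℝ) := {x | ∑ i, a i * x i ≤ t - ∑ j, b j * y j} with hH
    have mH : MeasurableSet H := (isClosed_le (by fun_prop) continuous_const).measurableSet
    have m1 := (bl_closed (n + 1) ((1 + sg ε y) ^ 2)).measurableSet.inter mH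
    have m2 := (bl_closed (n + 1) ((1 + -sg ε y) ^ 2)).measurableSet.inter mH
    have hsub : bl (n + 1) ((1 + -sg ε y) ^ 2) ∩ H ⊆ bl (n + 1) ((1 + sg ε y) ^ 2) ∩ H := by
      refine inter_subset_inter_left _ fun x hx => ?_
      simp only [bl, mem_ofPred_eq] at hx ⊢
      nlinarith
    rw [← setIntegral_sdiff m2 ((continuous_const.continuousOn.integrableOn_compact
      (bl_compact _ _)).mono_set inter_subset_left) hsub, ← integral_indicator (m1.diff m2)]
    apply integral_congr_ae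
    have hnull : ∀ᵐ x : Fin (n + 1) → ℝ, ∑ i, x i ^ 2 ≠ (1 + -sg ε y) ^ 2 := by
      rw [ae_iff]; simpa using sphere_null n (r := 1 + -sg ε y) (by linarith)
    filter_upwards [hnull] with x hx
    have hX : 0 ≤ ∑ i, x i ^ 2 := Finset.sum_nonneg fun i _ => sq_nonneg _
    have hX2 := Real.sq_sqrt hX
    have hX0 := Real.sqrt_nonneg (∑ i, x i ^ 2)
    have hmem : (x, y) ∈ tube (n + 1) m ε a b t ↔
        x ∈ (bl (n + 1) ((1 + sg ε y) ^ 2) ∩ H) \ (bl (n + 1) ((1 + -sg ε y) ^ 2) ∩ H) := by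
      simp only [tube, bl, hH, mem_ofPred_eq, mem_sdiff, mem_inter_iff, not_and, not_le]
      set R := Real.sqrt (∑ i, x i ^ 2)
      rw [← hX2] at hx ⊢
      constructor
      · rintro ⟨h2, h3⟩
        have h4 : |R - 1| ≤ sg ε y := abs_le_of_sq_le_sq' (by linarith) hs0 |> abs_le.2
        obtain ⟨h5, h6⟩ := abs_le.1 h4
        refine ⟨⟨by nlinarith, by linarith⟩, fun h7 => absurd (le_antisymm h7 (by nlinarith)) hx⟩
      · rintro ⟨⟨h2, h3⟩, h4⟩
        have h5 : (1 + -sg ε y) ^ 2 < R ^ 2 := by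
          by_contra h6
          have := h4 (not_lt.1 h6)
          linarith
        have h6 : R ≤ 1 + sg ε y := by
          by_contra h7
          nlinarith [not_le.1 h7]
        have h7 : 1 + -sg ε y ≤ R := by
          by_contra h8
          nlinarith [not_le.1 h8]
        exact ⟨by nlinarith, by linarith⟩
    by_cases hx2 : (x, y) ∈ tube (n + 1) m ε a b t
    · rw [indicator_of_mem hx2, indicator_of_mem (hmem.1 hx2)]
    · rw [indicator_of_notMem hx2, indicator_of_notMem (fun h => hx2 (hmem.2 h))]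
  · rw [indicator_of_notMem hy]
    have : ∀ x, (tube (n + 1) m ε a b t).indicator (fun _ => (1 : ℝ)) (x, y) = 0 := by
      intro x
      apply indicator_of_notMem
      rintro ⟨h3, -⟩
      simp only [bl, mem_ofPred_eq] at h3 hy
      exact hy (by nlinarith [sq_nonneg (Real.sqrt (∑ i, x i ^ 2) - 1)])
    simp [this]

lemma ball_cap {n : ℕ} (hn : Even n) : ∃ g g₁ : ℝ → ℝ → ℝ, P2 g ∧ P2 g₁ ∧
    ∀ (a : Fin (n + 1) → ℝ), ∑ i, a i ^ 2 ≠ 0 → ∀ c s : ℝ, 0 ≤ 1 + s →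
      ∫ _ in bl (n + 1) ((1 + s) ^ 2) ∩ {x | ∑ i, a i * x i ≤ c}, (1 : ℝ) =
        g s (c / nrm a) - g₁ (min s (c / nrm a - 1)) (c / nrm a) -
          g (min s (-(c / nrm a) - 1)) (c / nrm a) := by
  obtain ⟨K, N, hK⟩ := cap_mono hn 0
  have h1 : P2 fun s _ => 1 + s := (P2.const 1).add P2.fst
  refine ⟨fun s τ => K * (Qf 0 N ((1 + s) ^ 2) τ - Qf 0 N ((1 + s) ^ 2) (-(1 + s))),
    fun s τ => K * (Qf 0 N ((1 + s) ^ 2) τ - Qf 0 N ((1 + s) ^ 2) (1 + s)),
    (P2.const K).mul ((P2.qf _ _ (h1.pow 2) P2.snd).sub (P2.qf _ _ (h1.pow 2) h1.neg)),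
    (P2.const K).mul ((P2.qf _ _ (h1.pow 2) P2.snd).sub (P2.qf _ _ (h1.pow 2) h1)), ?_⟩
  intro a ha c s hs
  rw [cap_rot ha]
  have := hK (1 + s) (c / nrm a) hs
  simp only [Pi.zero_apply, pow_zero, Finset.prod_const_one] at this
  rw [this]
  set τ := c / nrm a
  rcases le_total τ (1 + s) with h2 | h2
  · rw [min_eq_right h2, min_eq_right (show τ - 1 ≤ s by linarith)]
    rcases le_total (-(1 + s)) τ with h3 | h3
    · rw [max_eq_right h3, min_eq_right (show -τ - 1 ≤ s by linarith)]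
      simp
    · rw [max_eq_left h3, min_eq_left (show s ≤ -τ - 1 by linarith)]
      simp
  · rw [min_eq_left h2, min_eq_left (show s ≤ τ - 1 by linarith),
      max_eq_right (show -(1 + s) ≤ 1 + s by linarith),
      min_eq_right (show -τ - 1 ≤ s by linarith)]
    simp
    ring

theorem tube_alg {σ : Type} {n m : ℕ} (hn : Even n) (hm : Even m) {ε : ℝ} (h0 : 0 < ε)
    (h1 : ε < 1) {a : (σ → ℝ) → Fin (n + 1) → ℝ} (ha : ∀ i, Alg fun ω => a ω i)
    {b : (σ → ℝ) → Fin m → ℝ} (hb : ∀ i, Alg fun ω => b ω i) {t : (σ → ℝ) → ℝ} (ht : Alg t) :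
    ∃ f, Alg f ∧ ∀ ω, ∑ i, a ω i ^ 2 ≠ 0 →
      (volume (tube (n + 1) m ε (a ω) (b ω) (t ω))).toReal = f ω := by
  obtain ⟨g, g₁, hg, hg₁, hB⟩ := ball_cap hn
  obtain ⟨g', pg', dg⟩ := hg.deriv
  obtain ⟨g₁', pg₁', dg₁⟩ := hg₁.deriv
  have hα : Alg fun ω => nrm (a ω) := (Alg.sum _ fun i _ => (ha i).pow 2).sqrt
  have hT : Sp fun ω (z : Fin (m + 1) → ℝ) => (t ω - ∑ j, b ω j * z j.succ) / nrm (a ω) :=
    (((Sp.alg ht).sub (Sp.sum Finset.univ fun j _ => (Sp.alg (hb j)).mul (Sp.coord j.succ))).mul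
      (Sp.alg hα.inv)).congr (by intro ω z; rw [div_eq_mul_inv])
  have A1 := cap_std hm h0.le (pg'.sp (Sp.coord 0) hT) (Alg.const ε)
  obtain ⟨f2, A2, E2⟩ := cap_alg hm h0.le (pg₁'.sp (Sp.coord 0) hT)
    (a := fun ω => Fin.cons (nrm (a ω)) (b ω))
    (fun i => by refine Fin.cases ?_ (fun j => ?_) i <;> simp [hα, hb]) (ht.sub hα)
  obtain ⟨f3, A3, E3⟩ := cap_alg hm h0.le (pg'.sp (Sp.coord 0) hT)
    (a := fun ω => Fin.cons (nrm (a ω)) (fun j => - b ω j))
    (fun i => by refine Fin.cases ?_ (fun j => ?_) i <;> simp [hα, (hb _).neg]) (ht.neg.sub hα)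
  refine ⟨_, (A1.sub A2).sub A3, fun ω hω => ?_⟩
  have hp : 0 < ∑ i, a ω i ^ 2 :=
    lt_of_le_of_ne (Finset.sum_nonneg fun i _ => sq_nonneg _) (Ne.symm hω)
  have hn : 0 < nrm (a ω) := Real.sqrt_pos.2 hp
  have hY : ∀ y : Fin m → ℝ, 0 ≤ ∑ i, y i ^ 2 := fun y => Finset.sum_nonneg fun i _ => sq_nonneg _
  rw [← E2 ω (by
      simp only [Fin.sum_univ_succ, Fin.cons_zero, Fin.cons_succ]
      have := hY (b ω); positivity),
    ← E3 ω (by
      simp only [Fin.sum_univ_succ, Fin.cons_zero, Fin.cons_succ]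
      have := hY (fun j => - b ω j); positivity)]
  set T : (Fin m → ℝ) → ℝ := fun y => (t ω - ∑ j, b ω j * y j) / nrm (a ω) with hTd
  have cT : Continuous T := by simp only [hTd]; fun_prop
  obtain ⟨i1, e1⟩ := piece ε pg' dg cT (h := fun _ => ε) (S := {z | z 0 ≤ ε})
    (isClosed_le (by fun_prop) continuous_const).measurableSet (by simp)
  obtain ⟨i2, e2⟩ := piece ε pg₁' dg₁ cT (h := fun y => T y - 1)
    (S := {z | ∑ i, (Fin.cons (nrm (a ω)) (b ω) : Fin (m + 1) → ℝ) i * z i ≤ t ω - nrm (a ω)})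
    (isClosed_le (by fun_prop) continuous_const).measurableSet (by
      intro u y
      simp only [mem_ofPred_eq, Fin.sum_univ_succ, Fin.cons_zero, Fin.cons_succ, hTd]
      rw [le_sub_iff_add_le (b := (1 : ℝ)), le_div_iff₀ hn]
      constructor <;> intro h <;> linarith)
  obtain ⟨i3, e3⟩ := piece ε pg' dg cT (h := fun y => - T y - 1)
    (S := {z | ∑ i, (Fin.cons (nrm (a ω)) (fun j => - b ω j) : Fin (m + 1) → ℝ) i * z i ≤
      - t ω - nrm (a ω)})
    (isClosed_le (by fun_prop) continuous_const).measurableSet (by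
      intro u y
      simp only [mem_ofPred_eq, Fin.sum_univ_succ, Fin.cons_zero, Fin.cons_succ, hTd, neg_mul,
        Finset.sum_neg_distrib]
      rw [le_sub_iff_add_le (b := (1 : ℝ)), ← neg_div, le_div_iff₀ hn]
      constructor <;> intro h <;> linarith)
  have e4 := integral_sub (i1.sub i2) i3
  have e5 := integral_sub i1 i2
  simp only [Pi.sub_apply] at e4
  rw [e5, e1, e2, e3] at e4
  simp only [hTd] at e4
  rw [← e4]
  have hmeas := (tube_closed (n + 1) m ε (a ω) (b ω) (t ω)).measurableSet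
  have hV : (volume (tube (n + 1) m ε (a ω) (b ω) (t ω))).toReal =
      ∫ p, (tube (n + 1) m ε (a ω) (b ω) (t ω)).indicator (fun _ => (1 : ℝ)) p := by
    rw [integral_indicator hmeas]; simp [Measure.real]
  rw [hV, Measure.volume_eq_prod, integral_prod_symm]
  swap
  · rw [← Measure.volume_eq_prod, integrable_indicator_iff hmeas]
    exact continuous_const.continuousOn.integrableOn_compact (tube_compact _ _ _ _ _ _)
  congr 1
  ext y
  rw [section_vol h0 h1]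
  by_cases hy : y ∈ bl m (ε ^ 2)
  · simp only [indicator_of_mem hy]
    have hy' : 0 ≤ ε ^ 2 - ∑ j, y j ^ 2 := sub_nonneg.2 hy
    have hs0 : 0 ≤ sg ε y := Real.sqrt_nonneg _
    have hs2 : sg ε y ^ 2 = ε ^ 2 - ∑ j, y j ^ 2 := Real.sq_sqrt hy'
    have hs1 : sg ε y ≤ ε := by nlinarith [hY y]
    rw [hB _ hω _ _ (by linarith), hB _ hω _ _ (by linarith), min_eq_left hs1,
      min_eq_left (show -sg ε y ≤ ε by linarith)]
    ring
  · simp [indicator_of_notMem hy]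

theorem tube_alg' {σ : Type} {n m : ℕ} (hn : Even n) (hm : Even m) {ε : ℝ} (h0 : 0 < ε)
    (h1 : ε < 1) (ia : Fin (n + 1) → σ) (c : ℝ) (hc : c ≠ 0)
    {b : (σ → ℝ) → Fin m → ℝ} (hb : ∀ i, Alg fun ω => b ω i) {t : (σ → ℝ) → ℝ} (ht : Alg t) :
    Alg fun ω => (volume (tube (n + 1) m ε (fun i => c * ω (ia i)) (b ω) (t ω))).toReal := by
  obtain ⟨f, hf, h⟩ := tube_alg hn hm h0 h1 (a := fun ω i => c * ω (ia i))
    (fun i => (Alg.const c).mul (Alg.coord _)) hb ht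
  refine Alg.of_eq_off (q := ∑ i, (MvPolynomial.C c * MvPolynomial.X (ia i)) ^ 2) ?_ hf
    fun ω hω => h ω (by simpa using hω)
  intro h2
  have := congrArg (MvPolynomial.eval fun _ => (1 : ℝ)) h2
  simp [hc] at this
  exact absurd this (by positivity)

end Pool.Agent.H9Tube
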