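import Mathlib

set_option autoImplicit false

namespace Pool.Agent.H9Tube

open Polynomial

variable {σ : Type}

/-- `f` is an algebraic function of the coordinates. -/
def Alg (f : (σ → ℝ) → ℝ) : Prop :=
  ∃ p : Polynomial (MvPolynomial σ ℝ), p ≠ 0 ∧
    ∀ ω, (p.map (MvPolynomial.eval ω)).eval (f ω) = 0

@[reducible] noncomputable def evAlg (σ : Type) : Algebra (MvPolynomial σ ℝ) ((σ → ℝ) → ℝ) :=
  (RingHom.pi fun ω : σ → ℝ => MvPolynomial.eval ω).toAlgebra

attribute [local instance] evAlg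

lemma alg_iff (f : (σ → ℝ) → ℝ) : Alg f ↔ IsAlgebraic (MvPolynomial σ ℝ) f := by
  have key : ∀ (p : Polynomial (MvPolynomial σ ℝ)) (ω : σ → ℝ),
      (aeval f p) ω = (p.map (MvPolynomial.eval ω)).eval (f ω) := by
    intro p ω
    rw [aeval_def, eval_map]
    have := Polynomial.hom_eval₂ p (algebraMap (MvPolynomial σ ℝ) ((σ → ℝ) → ℝ))
      (Pi.evalRingHom (fun _ => ℝ) ω) f
    exact this
  constructor
  · rintro ⟨p, hp, h⟩
    exact ⟨p, hp, funext fun ω => by rw [key, h]; rfl⟩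
  · rintro ⟨p, hp, h⟩
    exact ⟨p, hp, fun ω => by rw [← key, h]; rfl⟩

namespace Alg

variable {f g : (σ → ℝ) → ℝ}

lemma poly (q : MvPolynomial σ ℝ) : Alg fun ω => MvPolynomial.eval ω q :=
  (alg_iff _).2 (isAlgebraic_algebraMap q)

lemma const (c : ℝ) : Alg fun _ : σ → ℝ => c := by simpa using poly (MvPolynomial.C c)

lemma coord (i : σ) : Alg fun ω : σ → ℝ => ω i := by simpa using poly (MvPolynomial.X i)

lemma add (hf : Alg f) (hg : Alg g) : Alg fun ω => f ω + g ω :=
  (alg_iff _).2 (((alg_iff _).1 hf).add ((alg_iff _).1 hg))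

lemma mul (hf : Alg f) (hg : Alg g) : Alg fun ω => f ω * g ω :=
  (alg_iff _).2 (((alg_iff _).1 hf).mul ((alg_iff _).1 hg))

lemma neg (hf : Alg f) : Alg fun ω => - f ω := by simpa using (const (-1)).mul hf

lemma sub (hf : Alg f) (hg : Alg g) : Alg fun ω => f ω - g ω := by
  simpa [sub_eq_add_neg] using hf.add hg.neg

lemma pow (hf : Alg f) (n : ℕ) : Alg fun ω => f ω ^ n := by
  induction n with
  | zero => simpa using const 1
  | succ n ih => simpa [pow_succ] using ih.mul hf

lemma sum {ι : Type*} (s : Finset ι) {F : ι → (σ → ℝ) → ℝ} (h : ∀ i ∈ s, Alg (F i)) :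
    Alg fun ω => ∑ i ∈ s, F i ω := by
  classical
  induction s using Finset.induction_on with
  | empty => simpa using const 0
  | insert a s ha ih =>
    simp only [Finset.sum_insert ha]
    exact (h a (by simp)).add (ih fun i hi => h i (by simp [hi]))

lemma ite (P : (σ → ℝ) → Prop) [DecidablePred P] (hf : Alg f) (hg : Alg g) :
    Alg fun ω => if P ω then f ω else g ω := by
  obtain ⟨p, hp, h⟩ := hf
  obtain ⟨q, hq, h'⟩ := hg
  refine ⟨p * q, mul_ne_zero hp hq, fun ω => ?_⟩
  rw [Polynomial.map_mul, eval_mul]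
  by_cases hP : P ω <;> simp [hP, h, h']

lemma max (hf : Alg f) (hg : Alg g) : Alg fun ω => max (f ω) (g ω) := by
  simpa [max_def] using ite (fun ω => f ω ≤ g ω) hg hf

lemma min (hf : Alg f) (hg : Alg g) : Alg fun ω => min (f ω) (g ω) := by
  simpa [min_def] using ite (fun ω => f ω ≤ g ω) hf hg

lemma sqrt (hf : Alg f) : Alg fun ω => Real.sqrt (f ω) := by
  rw [alg_iff]
  apply IsAlgebraic.of_pow (n := 2) two_pos
  have : (fun ω => Real.sqrt (f ω)) ^ 2 = fun ω => Max.max (f ω) 0 := by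
    ext ω; simp [Real.sq_sqrt']
  rw [this, ← alg_iff]
  exact hf.max (const 0)

lemma inv (hf : Alg f) : Alg fun ω => (f ω)⁻¹ := by
  classical
  obtain ⟨p, hp, h⟩ := hf
  refine ⟨X * p.reverse, mul_ne_zero X_ne_zero (by simpa using hp), fun ω => ?_⟩
  rw [Polynomial.map_mul, eval_mul, map_X, eval_X]
  by_cases h0 : f ω = 0
  · simp [h0]
  · have := invertibleOfNonzero h0
    have h1 := (Polynomial.eval₂_reverse_eq_zero_iff (MvPolynomial.eval ω) (f ω) p).2
      (by rw [← eval_map]; exact h ω)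
    rw [invOf_eq_inv] at h1
    rw [eval_map, h1, mul_zero]

lemma div (hf : Alg f) (hg : Alg g) : Alg fun ω => f ω / g ω := by
  simpa [div_eq_mul_inv] using hf.mul hg.inv

lemma of_eq_off {q : MvPolynomial σ ℝ} (hq : q ≠ 0) (hg : Alg g)
    (h : ∀ ω, MvPolynomial.eval ω q ≠ 0 → f ω = g ω) : Alg f := by
  obtain ⟨p, hp, h'⟩ := hg
  refine ⟨C q * p, mul_ne_zero (C_ne_zero.2 hq) hp, fun ω => ?_⟩
  rw [Polynomial.map_mul, eval_mul, map_C, eval_C]
  by_cases h0 : MvPolynomial.eval ω q = 0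
  · simp [h0]
  · rw [h ω h0, h', mul_zero]

lemma exists_mv (hf : Alg f) : ∃ F : MvPolynomial (Option σ) ℝ, F ≠ 0 ∧
    ∀ ω, MvPolynomial.eval (fun x => Option.elim x (f ω) ω) F = 0 := by
  obtain ⟨p, hp, h⟩ := hf
  refine ⟨(MvPolynomial.optionEquivLeft ℝ σ).symm p, by simpa using hp, fun ω => ?_⟩
  rw [MvPolynomial.optionEquivLeft_elim_eval]
  simpa using h ω

end Alg

/-- polynomials in `z` with algebraic coefficients -/
inductive Sp {n : ℕ} : ((σ → ℝ) → (Fin n → ℝ) → ℝ) → Prop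
  | mono (c : (σ → ℝ) → ℝ) (hc : Alg c) (e : Fin n → ℕ) :
      Sp fun ω z => c ω * ∏ i, z i ^ e i
  | add {f g : (σ → ℝ) → (Fin n → ℝ) → ℝ} (hf : Sp f) (hg : Sp g) :
      Sp fun ω z => f ω z + g ω z

namespace Sp

variable {n : ℕ} {f g : (σ → ℝ) → (Fin n → ℝ) → ℝ}

lemma congr (hf : Sp f) (h : ∀ ω z, g ω z = f ω z) : Sp g := by
  have : g = f := by ext ω z; exact h ω z
  rwa [this]

lemma alg {c : (σ → ℝ) → ℝ} (hc : Alg c) : Sp (n := n) fun ω _ => c ω :=
  (mono c hc 0).congr (by simp)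

lemma const (c : ℝ) : Sp (σ := σ) (n := n) fun _ _ => c := alg (Alg.const c)

lemma coord (i : Fin n) : Sp (σ := σ) fun _ z => z i :=
  (mono _ (Alg.const 1) (Pi.single i 1)).congr (by
    intro ω z
    rw [Finset.prod_eq_single i] <;> simp +contextual)

lemma mul (hf : Sp f) (hg : Sp g) : Sp fun ω z => f ω z * g ω z := by
  induction hf with
  | mono c hc e =>
    induction hg with
    | mono c' hc' e' =>
      exact (mono _ (hc.mul hc') (e + e')).congr (by
        intro ω z
        simp only [Pi.add_apply, pow_add, Finset.prod_mul_distrib]; ring)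
    | add _ _ ih1 ih2 => exact (ih1.add ih2).congr (by intro ω z; ring)
  | add _ _ ih1 ih2 => exact (ih1.add ih2).congr (by intro ω z; ring)

lemma neg (hf : Sp f) : Sp fun ω z => - f ω z := ((const (-1)).mul hf).congr (by simp)

lemma sub (hf : Sp f) (hg : Sp g) : Sp fun ω z => f ω z - g ω z :=
  (hf.add hg.neg).congr (by simp [sub_eq_add_neg])

lemma pow (hf : Sp f) (k : ℕ) : Sp fun ω z => f ω z ^ k := by
  induction k with
  | zero => simpa using const 1
  | succ k ih => simpa [pow_succ] using ih.mul hf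

lemma sum {ι : Type*} (s : Finset ι) {F : ι → (σ → ℝ) → (Fin n → ℝ) → ℝ}
    (h : ∀ i ∈ s, Sp (F i)) : Sp fun ω z => ∑ i ∈ s, F i ω z := by
  classical
  induction s using Finset.induction_on with
  | empty => simpa using const 0
  | insert a s ha ih =>
    simp only [Finset.sum_insert ha]
    exact (h a (by simp)).add (ih fun i hi => h i (by simp [hi]))

lemma prod {ι : Type*} (s : Finset ι) {F : ι → (σ → ℝ) → (Fin n → ℝ) → ℝ}
    (h : ∀ i ∈ s, Sp (F i)) : Sp fun ω z => ∏ i ∈ s, F i ω z := by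
  classical
  induction s using Finset.induction_on with
  | empty => simpa using const 1
  | insert a s ha ih =>
    simp only [Finset.prod_insert ha]
    exact (h a (by simp)).mul (ih fun i hi => h i (by simp [hi]))

lemma subst (hf : Sp f) {ρ : (σ → ℝ) → (Fin n → ℝ) → (Fin n → ℝ)}
    (hρ : ∀ i, Sp fun ω z => ρ ω z i) : Sp fun ω z => f ω (ρ ω z) := by
  induction hf with
  | mono c hc e => exact (alg hc).mul (prod _ fun i _ => (hρ i).pow _)
  | add _ _ ih1 ih2 => exact ih1.add ih2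

lemma cont (hf : Sp f) (ω : σ → ℝ) : Continuous (f ω) := by
  induction hf with
  | mono c hc e => fun_prop
  | add _ _ ih1 ih2 => exact ih1.add ih2

end Sp

end Pool.Agent.H9Tube
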