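import Pool.Agent.Lib.helper9.TubeAlg

set_option autoImplicit false

namespace Pool.Agent.H9Tube

open MeasureTheory Set
open scoped Pointwise

/-- Euclidean ball of squared radius `q` -/
def bl (n : ℕ) (q : ℝ) : Set (Fin n → ℝ) := {z | ∑ i, z i ^ 2 ≤ q}

lemma bl_closed (n : ℕ) (q : ℝ) : IsClosed (bl n q) := isClosed_le (by fun_prop) continuous_const

lemma bl_compact (n : ℕ) (q : ℝ) : IsCompact (bl n q) := by
  refine (isCompact_Icc (a := fun _ => -Real.sqrt q) (b := fun _ => Real.sqrt q)).of_isClosed_subset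
    (bl_closed n q) fun z hz => ?_
  have h : ∀ i, |z i| ≤ Real.sqrt q := fun i => Real.abs_le_sqrt
    ((Finset.single_le_sum (f := fun i => z i ^ 2) (fun i _ => sq_nonneg _)
      (Finset.mem_univ i)).trans hz)
  exact ⟨fun i => (abs_le.1 (h i)).1, fun i => (abs_le.1 (h i)).2⟩

lemma smul_bl (n : ℕ) {R : ℝ} (hR : R ≠ 0) : R • bl n 1 = bl n (R ^ 2) := by
  ext z
  rw [mem_smul_set_iff_inv_smul_mem₀ hR]
  simp only [bl, mem_ofPred_eq, Pi.smul_apply, smul_eq_mul, mul_pow, ← Finset.mul_sum]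
  rw [inv_pow, inv_mul_le_iff₀ (by positivity), mul_one]

lemma hom_ball {m : ℕ} (hm : Even m) (e : Fin m → ℕ) : ∃ (K : ℝ) (N : ℕ), ∀ q : ℝ, 0 < q →
    ∫ z in bl m q, ∏ i, z i ^ e i = K * q ^ N := by
  set K := ∫ z in bl m 1, ∏ i, z i ^ e i with hK
  have key : ∀ R : ℝ, R ≠ 0 →
      ∫ z in bl m (R ^ 2), ∏ i, z i ^ e i = R ^ m * R ^ (∑ i, e i) * K := by
    intro R hR
    have h := Measure.setIntegral_comp_smul (volume : Measure (Fin m → ℝ))
      (fun z : Fin m → ℝ => ∏ i, z i ^ e i) (bl m 1) hR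
    rw [smul_bl m hR] at h
    simp only [Pi.smul_apply, smul_eq_mul, mul_pow, Finset.prod_mul_distrib,
      Finset.prod_pow_eq_pow_sum, integral_const_mul, Module.finrank_fin_fun] at h
    rw [← hK, abs_of_pos (inv_pos.2 (hm.pow_pos hR))] at h
    have h2 : R ^ m ≠ 0 := pow_ne_zero _ hR
    rw [mul_assoc, h]; field_simp
  rcases Nat.even_or_odd (∑ i, e i) with hd | hd
  · obtain ⟨a, ha⟩ := hm
    obtain ⟨b, hb⟩ := hd
    refine ⟨K, a + b, fun q hq => ?_⟩
    have := key (Real.sqrt q) (Real.sqrt_pos.2 hq).ne'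
    rw [Real.sq_sqrt hq.le] at this
    rw [this, hb, ← pow_add]
    have e2 : Real.sqrt q ^ (m + (b + b)) = (Real.sqrt q ^ 2) ^ (a + b) := by
      rw [← pow_mul]; congr 1; omega
    rw [e2, Real.sq_sqrt hq.le, mul_comm]
  · have h1 := key (-1) (by norm_num)
    rw [hm.neg_one_pow, hd.neg_one_pow, show ((-1 : ℝ)) ^ 2 = 1 by norm_num, ← hK] at h1
    have hK0 : K = 0 := by linarith
    refine ⟨0, 0, fun q hq => ?_⟩
    have := key (Real.sqrt q) (Real.sqrt_pos.2 hq).ne'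
    rw [Real.sq_sqrt hq.le] at this
    rw [this, hK0]; simp

/-- antiderivative of `u ^ a * (q - u ^ 2) ^ N` -/
noncomputable def Qf (a N : ℕ) (q τ : ℝ) : ℝ :=
  ∑ i ∈ Finset.range (N + 1),
    ((-1) ^ i * (N.choose i : ℝ) / ((a + 2 * i : ℕ) + 1)) * (q ^ (N - i) * τ ^ (a + 2 * i + 1))

lemma Qf_int (a N : ℕ) (q s t : ℝ) :
    ∫ u in s..t, u ^ a * (q - u ^ 2) ^ N = Qf a N q t - Qf a N q s := by
  have : ∀ u : ℝ, u ^ a * (q - u ^ 2) ^ N = ∑ i ∈ Finset.range (N + 1),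
      ((-1) ^ i * (N.choose i : ℝ) * q ^ (N - i)) * u ^ (a + 2 * i) := by
    intro u
    rw [show q - u ^ 2 = (-u ^ 2) + q by ring, add_pow, Finset.mul_sum]
    refine Finset.sum_congr rfl fun i _ => ?_
    rw [neg_pow]; ring
  simp only [this]
  rw [intervalIntegral.integral_finsetSum (fun i _ => by apply Continuous.intervalIntegrable; fun_prop)]
  simp only [intervalIntegral.integral_const_mul, integral_pow, Qf, ← Finset.sum_sub_distrib]
  refine Finset.sum_congr rfl fun i _ => ?_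
  have : ((a + 2 * i : ℕ) : ℝ) + 1 ≠ 0 := by positivity
  field_simp

lemma cons_eq (m : ℕ) : (fun p : ℝ × (Fin m → ℝ) => (Fin.cons p.1 p.2 : Fin (m + 1) → ℝ)) =
    (MeasurableEquiv.piFinSuccAbove (fun _ : Fin (m + 1) => ℝ) 0).symm := by
  ext p i
  simp [MeasurableEquiv.piFinSuccAbove, Fin.insertNthEquiv]

lemma cons_mp (m : ℕ) : MeasurePreserving
    (fun p : ℝ × (Fin m → ℝ) => (Fin.cons p.1 p.2 : Fin (m + 1) → ℝ)) volume volume := by
  rw [cons_eq]
  exact (volume_preserving_piFinSuccAbove (fun _ : Fin (m + 1) => ℝ) 0).symm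

lemma cons_emb (m : ℕ) : MeasurableEmbedding
    (fun p : ℝ × (Fin m → ℝ) => (Fin.cons p.1 p.2 : Fin (m + 1) → ℝ)) := by
  rw [cons_eq]
  exact (MeasurableEquiv.piFinSuccAbove (fun _ : Fin (m + 1) => ℝ) 0).symm.measurableEmbedding

lemma fub1 {m : ℕ} {F : (Fin (m + 1) → ℝ) → ℝ} (hF : Integrable F) :
    ∫ z, F z = ∫ u : ℝ, ∫ y : Fin m → ℝ, F (Fin.cons u y) := by
  rw [← (cons_mp m).integral_comp (cons_emb m), Measure.volume_eq_prod, integral_prod]
  rw [← Measure.volume_eq_prod]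
  exact ((cons_mp m).integrable_comp_emb (cons_emb m)).2 hF

lemma fub2 {m : ℕ} {F : (Fin (m + 1) → ℝ) → ℝ} (hF : Integrable F) :
    ∫ z, F z = ∫ y : Fin m → ℝ, ∫ u : ℝ, F (Fin.cons u y) := by
  rw [← (cons_mp m).integral_comp (cons_emb m), Measure.volume_eq_prod, integral_prod_symm]
  rw [← Measure.volume_eq_prod]
  exact ((cons_mp m).integrable_comp_emb (cons_emb m)).2 hF

lemma int_ind {n : ℕ} {g : (Fin n → ℝ) → ℝ} (hg : Continuous g) (q : ℝ) {S : Set (Fin n → ℝ)}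
    (hS : MeasurableSet S) : Integrable ((bl n q ∩ S).indicator g) := by
  rw [integrable_indicator_iff ((bl_closed n q).measurableSet.inter hS)]
  exact (hg.continuousOn.integrableOn_compact (bl_compact n q)).mono_set inter_subset_left

lemma cap_mono {m : ℕ} (hm : Even m) (e : Fin (m + 1) → ℕ) : ∃ (K : ℝ) (N : ℕ), ∀ r h : ℝ, 0 ≤ r →
    ∫ z in bl (m + 1) (r ^ 2) ∩ {z | z 0 ≤ h}, ∏ i, z i ^ e i =
      K * (Qf (e 0) N (r ^ 2) (max (-r) (min r h)) - Qf (e 0) N (r ^ 2) (-r)) := by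
  obtain ⟨K, N, hK⟩ := hom_ball hm (fun i => e i.succ)
  refine ⟨K, N, fun r h hr => ?_⟩
  have hS : MeasurableSet {z : Fin (m + 1) → ℝ | z 0 ≤ h} :=
    (isClosed_le (by fun_prop) continuous_const).measurableSet
  rw [← integral_indicator ((bl_closed _ _).measurableSet.inter hS),
    fub1 (int_ind (by fun_prop) _ hS), ← Qf_int, ← intervalIntegral.integral_const_mul,
    intervalIntegral.integral_of_le (le_max_left _ _), ← integral_indicator measurableSet_Ioc]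
  apply integral_congr_ae
  have h1 : ∀ᵐ u : ℝ, u ≠ r := by simp [ae_iff]
  have h2 : ∀ᵐ u : ℝ, u ≠ -r := by simp [ae_iff]
  filter_upwards [h1, h2] with u hu1 hu2
  by_cases hu : u ∈ Ioc (-r) (max (-r) (min r h))
  · rw [indicator_of_mem hu]
    obtain ⟨hu3, hu4⟩ := hu
    have hu5 : u ≤ min r h := by
      rcases le_max_iff.1 hu4 with h | h
      · linarith
      · exact h
    have hu6 : u < r := lt_of_le_of_ne (hu5.trans (min_le_left _ _)) hu1
    have hq : 0 < r ^ 2 - u ^ 2 := by nlinarith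
    have : (fun y : Fin m → ℝ => (bl (m + 1) (r ^ 2) ∩ {z | z 0 ≤ h}).indicator
        (fun z => ∏ i, z i ^ e i) (Fin.cons u y)) =
        (bl m (r ^ 2 - u ^ 2)).indicator fun y => u ^ e 0 * ∏ i, y i ^ e i.succ := by
      ext y
      have hmem : (Fin.cons u y : Fin (m + 1) → ℝ) ∈ bl (m + 1) (r ^ 2) ∩ {z | z 0 ≤ h} ↔
          y ∈ bl m (r ^ 2 - u ^ 2) := by
        simp only [bl, mem_inter_iff, mem_ofPred_eq, Fin.sum_univ_succ, Fin.cons_zero,
          Fin.cons_succ]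
        constructor
        · rintro ⟨h, -⟩; linarith
        · intro h; exact ⟨by linarith, hu5.trans (min_le_right _ _)⟩
      by_cases hy : y ∈ bl m (r ^ 2 - u ^ 2)
      · rw [indicator_of_mem hy, indicator_of_mem (hmem.2 hy)]
        simp [Fin.prod_univ_succ]
      · rw [indicator_of_notMem hy, indicator_of_notMem (fun h => hy (hmem.1 h))]
    rw [this, integral_indicator (bl_closed _ _).measurableSet, integral_const_mul, hK _ hq]
    ring
  · rw [indicator_of_notMem hu]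
    have : (fun y : Fin m → ℝ => (bl (m + 1) (r ^ 2) ∩ {z | z 0 ≤ h}).indicator
        (fun z => ∏ i, z i ^ e i) (Fin.cons u y)) = fun _ => 0 := by
      ext y
      apply indicator_of_notMem
      rintro ⟨h3, h4⟩
      simp only [bl, mem_ofPred_eq, Fin.sum_univ_succ, Fin.cons_zero, Fin.cons_succ] at h3 h4
      have h5 : 0 ≤ ∑ i, y i ^ 2 := Finset.sum_nonneg fun i _ => sq_nonneg _
      have h6 : |u| ≤ r := abs_le_of_sq_le_sq' (by linarith) hr |> abs_le.2
      exact hu ⟨lt_of_le_of_ne (abs_le.1 h6).1 (Ne.symm hu2),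
        le_max_of_le_right (le_min (abs_le.1 h6).2 h4)⟩
    rw [this]; simp

variable {σ : Type}

lemma Qf_alg (a N : ℕ) {q τ : (σ → ℝ) → ℝ} (hq : Alg q) (hτ : Alg τ) :
    Alg fun ω => Qf a N (q ω) (τ ω) :=
  Alg.sum _ fun _ _ => (Alg.const _).mul ((hq.pow _).mul (hτ.pow _))

lemma cap_std {m : ℕ} (hm : Even m) {r : ℝ} (hr : 0 ≤ r) {g : (σ → ℝ) → (Fin (m + 1) → ℝ) → ℝ}
    (hg : Sp g) {h : (σ → ℝ) → ℝ} (hh : Alg h) :
    Alg fun ω => ∫ z in bl (m + 1) (r ^ 2) ∩ {z | z 0 ≤ h ω}, g ω z := by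
  induction hg with
  | mono c hc e =>
    obtain ⟨K, N, hK⟩ := cap_mono hm e
    simp only [integral_const_mul, hK _ _ hr]
    exact hc.mul ((Alg.const K).mul ((Qf_alg _ _ (Alg.const _)
      ((Alg.const _).max ((Alg.const _).min hh))).sub (Alg.const _)))
  | @add f g hf hg ih1 ih2 =>
    have : ∀ ω, ∫ z in bl (m + 1) (r ^ 2) ∩ {z | z 0 ≤ h ω}, (f ω z + g ω z) =
        (∫ z in bl (m + 1) (r ^ 2) ∩ {z | z 0 ≤ h ω}, f ω z) +
          ∫ z in bl (m + 1) (r ^ 2) ∩ {z | z 0 ≤ h ω}, g ω z := fun ω =>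
      integral_add
        (((hf.cont ω).continuousOn.integrableOn_compact (bl_compact _ _)).mono_set inter_subset_left)
        (((hg.cont ω).continuousOn.integrableOn_compact (bl_compact _ _)).mono_set inter_subset_left)
    simp only [this]
    exact ih1.add ih2

/-! reflections -/

noncomputable def nrm {n : ℕ} (a : Fin n → ℝ) : ℝ := Real.sqrt (∑ i, a i ^ 2)

noncomputable def uu {n : ℕ} (a : Fin (n + 1) → ℝ) (i : Fin (n + 1)) : ℝ :=
  a i / nrm a + if i = 0 then 1 else 0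

noncomputable def rf {n : ℕ} (u z : Fin n → ℝ) : Fin n → ℝ :=
  fun i => 2 * ((∑ j, u j * z j) / ∑ j, u j ^ 2) * u i - z i

lemma rf_eq {n : ℕ} (u : Fin n → ℝ) : rf u = WithLp.ofLp ∘
    (Submodule.reflection (ℝ ∙ (WithLp.toLp 2 u : EuclideanSpace ℝ (Fin n)))) ∘ WithLp.toLp 2 := by
  ext z i
  simp only [Function.comp, Submodule.reflection_singleton_apply, rf]
  have h : ((‖(WithLp.toLp 2 u : EuclideanSpace ℝ (Fin n))‖ : ℝ) ^ 2) = ∑ j, u j ^ 2 := by
    rw [EuclideanSpace.real_norm_sq_eq]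
  simp [PiLp.inner_apply, mul_comm, h]
  ring

lemma rf_mp {n : ℕ} (u : Fin n → ℝ) : MeasurePreserving (rf u) volume volume := by
  rw [rf_eq]
  exact (PiLp.volume_preserving_ofLp _).comp
    ((LinearIsometryEquiv.measurePreserving _).comp (PiLp.volume_preserving_toLp _))

lemma rf_emb {n : ℕ} (u : Fin n → ℝ) : MeasurableEmbedding (rf u) := by
  apply Continuous.measurableEmbedding
  · unfold rf; fun_prop
  · rw [rf_eq]
    exact (WithLp.ofLp_injective 2).comp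
      ((LinearIsometryEquiv.injective _).comp (WithLp.toLp_injective 2))

lemma rf_sq {n : ℕ} (u z : Fin n → ℝ) : ∑ i, rf u z i ^ 2 = ∑ i, z i ^ 2 := by
  have := (Submodule.reflection (ℝ ∙ (WithLp.toLp 2 u : EuclideanSpace ℝ (Fin n)))).norm_map
    (WithLp.toLp 2 z)
  have h2 := congrArg (· ^ 2) this
  simp only [EuclideanSpace.real_norm_sq_eq] at h2
  rw [rf_eq]
  exact h2

lemma rf_dot {n : ℕ} {a : Fin (n + 1) → ℝ} (ha : ∑ i, a i ^ 2 ≠ 0) (z : Fin (n + 1) → ℝ) :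
    ∑ i, a i * rf (uu a) z i = nrm a * z 0 := by
  have h0 : 0 < ∑ i, a i ^ 2 :=
    lt_of_le_of_ne (Finset.sum_nonneg fun i _ => sq_nonneg _) (Ne.symm ha)
  have hn : 0 < nrm a := Real.sqrt_pos.2 h0
  have hn2 : nrm a ^ 2 = ∑ i, a i ^ 2 := Real.sq_sqrt h0.le
  have e1 : ∀ w : Fin (n + 1) → ℝ, ∑ j, uu a j * w j = (∑ j, a j * w j) / nrm a + w 0 := by
    intro w
    simp only [uu, add_mul, Finset.sum_add_distrib, ite_mul, one_mul, zero_mul,
      Finset.sum_ite_eq', Finset.mem_univ, if_true, Finset.sum_div]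
    congr 1
    exact Finset.sum_congr rfl fun j _ => by ring
  have e2 : ∑ j, a j * uu a j = nrm a + a 0 := by
    have := e1 a
    simp only [← sq, ← hn2] at this
    rw [show nrm a ^ 2 / nrm a = nrm a by field_simp] at this
    rw [← this]; exact Finset.sum_congr rfl fun j _ => by ring
  have e3 : ∑ j, uu a j ^ 2 = 2 * (nrm a + a 0) / nrm a := by
    have := e1 (uu a)
    simp only [← sq] at this
    rw [this, e2]; simp only [uu, if_true]; field_simp; ring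
  simp only [rf, mul_sub, Finset.sum_sub_distrib]
  have e4 : ∑ i, a i * (2 * ((∑ j, uu a j * z j) / ∑ j, uu a j ^ 2) * uu a i) =
      2 * ((∑ j, uu a j * z j) / ∑ j, uu a j ^ 2) * (nrm a + a 0) := by
    rw [← e2, Finset.mul_sum]; exact Finset.sum_congr rfl fun j _ => by ring
  rw [e4, e3]
  by_cases h1 : nrm a + a 0 = 0
  · have h2 : ∑ j, uu a j ^ 2 = 0 := by rw [e3, h1]; simp
    have h3 : ∀ j, uu a j = 0 := fun j => by
      have := (Finset.sum_eq_zero_iff_of_nonneg (fun i _ => sq_nonneg (uu a i))).1 h2 j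
        (Finset.mem_univ j)
      exact pow_eq_zero_iff two_ne_zero |>.1 this
    have h4 := e1 z
    simp only [h3, zero_mul, Finset.sum_const_zero] at h4
    rw [h1]
    field_simp at h4
    linarith
  · rw [e1]; field_simp; ring

lemma cap_rot {m : ℕ} {a : Fin (m + 1) → ℝ} (ha : ∑ i, a i ^ 2 ≠ 0) (q c : ℝ)
    (g : (Fin (m + 1) → ℝ) → ℝ) :
    ∫ z in bl (m + 1) q ∩ {z | ∑ i, a i * z i ≤ c}, g z =
      ∫ z in bl (m + 1) q ∩ {z | z 0 ≤ c / nrm a}, g (rf (uu a) z) := by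
  have h0 : 0 < ∑ i, a i ^ 2 :=
    lt_of_le_of_ne (Finset.sum_nonneg fun i _ => sq_nonneg _) (Ne.symm ha)
  have hn : 0 < nrm a := Real.sqrt_pos.2 h0
  rw [← (rf_mp (uu a)).setIntegral_preimage_emb (rf_emb _)]
  congr 2
  ext z
  simp only [bl, mem_preimage, mem_inter_iff, mem_ofPred_eq, rf_sq, rf_dot ha, le_div_iff₀ hn,
    mul_comm]

lemma cap_alg {m : ℕ} (hm : Even m) {r : ℝ} (hr : 0 ≤ r) {g : (σ → ℝ) → (Fin (m + 1) → ℝ) → ℝ}
    (hg : Sp g) {a : (σ → ℝ) → Fin (m + 1) → ℝ} (ha : ∀ i, Alg fun ω => a ω i)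
    {c : (σ → ℝ) → ℝ} (hc : Alg c) : ∃ f, Alg f ∧ ∀ ω, ∑ i, a ω i ^ 2 ≠ 0 →
      ∫ z in bl (m + 1) (r ^ 2) ∩ {z | ∑ i, a ω i * z i ≤ c ω}, g ω z = f ω := by
  have hn : Alg fun ω => nrm (a ω) := (Alg.sum _ fun i _ => (ha i).pow 2).sqrt
  have hu : ∀ i, Alg fun ω => uu (a ω) i := fun i => ((ha i).div hn).add (Alg.const _)
  have hρ : ∀ i, Sp fun ω z => rf (uu (a ω)) z i := by
    intro i
    refine (((Sp.const 2).mul ((Sp.sum Finset.univ fun j _ => (Sp.alg (hu j)).mul (Sp.coord j)).mul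
      (Sp.alg (Alg.sum Finset.univ fun j _ => (hu j).pow 2).inv))).mul (Sp.alg (hu i))).sub
      (Sp.coord i) |>.congr ?_
    intro ω z
    simp only [rf, div_eq_mul_inv]
  exact ⟨_, cap_std hm hr (hg.subst hρ) (hc.div hn), fun ω h => cap_rot h _ _ _⟩

end Pool.Agent.H9Tube
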