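import Mathlib

/-! Graphs without a complete minor have bounded weak colouring numbers (geodesic decomposition). -/

namespace Pool.Agent.H9W

open SimpleGraph Function

variable {V : Type} (G : SimpleGraph V)

/-- the edges between vertices of rank at least `j` -/
def up (rk : V → ℕ) (j : ℕ) : SimpleGraph V where
  Adj a b := G.Adj a b ∧ j ≤ rk a ∧ j ≤ rk b
  symm := ⟨fun _ _ h => ⟨h.1.symm, h.2.2, h.2.1⟩⟩
  loopless := ⟨fun _ h => h.1.ne rfl⟩

def Nr (r : ℕ) (u v : V) : Prop := ∃ p : G.Walk u v, p.length ≤ r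

def Touch (rk : V → ℕ) (j : ℕ) (x : V) (k : ℕ) : Prop :=
  ∃ y z, (up G rk j).Reachable x y ∧ G.Adj y z ∧ rk z = k

def NoMinor (t : ℕ) : Prop := ¬ ∃ f : Fin t → Set V, (∀ i, (G.induce (f i)).Connected) ∧
  (∀ i j, i ≠ j → Disjoint (f i) (f j)) ∧ ∀ i j, i ≠ j → ∃ u ∈ f i, ∃ v ∈ f j, G.Adj u v

def Fin1 (t : ℕ) (rk : V → ℕ) (j : ℕ) : Prop :=
  (∀ v r, {u | rk u = j ∧ Nr (up G rk j) r v u}.ncard ≤ (t + 1) * (2 * r + 1)) ∧
  ∃ N : Finset ℕ, N.card ≤ t ∧ ∀ x, rk x = j → ∀ k < j, Touch G rk j x k → k ∈ N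

def Inv (t : ℕ) (rk : V → ℕ) (i : ℕ) : Prop :=
  (∀ v, rk v ≤ i) ∧ (∀ k < i, (G.induce {v | rk v = k}).Connected ∧ Fin1 G t rk k) ∧
  ∀ x, rk x = i → ∀ k < i, ∀ l < i, k ≠ l → Touch G rk i x k → Touch G rk i x l →
    ∃ u v, rk u = k ∧ rk v = l ∧ G.Adj u v

variable {G}

lemma geo (K : SimpleGraph V) (a : V) (T : Finset V) (ha : a ∈ T) (hT : ∀ b ∈ T, K.Reachable b a) :
    ∃ H : Set V, (T : Set V) ⊆ H ∧ (∀ u ∈ H, K.Reachable u a) ∧ (K.induce H).Connected ∧
      ∀ v r, {u | u ∈ H ∧ Nr K r v u}.ncard ≤ T.card * (2 * r + 1) := by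
  classical
  have : ∀ u, ∃ w, (u = a → w = a) ∧ (K.Reachable u a → K.Reachable w a ∧ K.dist w a = K.dist u a - 1 ∧
      (u ≠ a → K.Adj u w)) := fun u => by
    by_cases c : u = a
    · exact ⟨a, by simp [c]⟩
    by_cases d : K.Reachable u a
    · obtain ⟨p, hp⟩ := d.exists_walk_length_eq_dist
      cases p with
      | nil => exact absurd rfl c
      | cons h q =>
        have := dist_le q
        have := h.reachable.dist_triangle_left a
        rw [dist_eq_one_iff_adj.2 h] at this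
        exact ⟨_, by simp [c], fun _ => ⟨⟨q⟩, by simp at hp; omega, fun _ => h⟩⟩
    · exact ⟨a, by simp [d]⟩
  choose par p0 p1 using this
  have it : ∀ b, K.Reachable b a → ∀ k, K.Reachable (par^[k] b) a ∧ K.dist (par^[k] b) a = K.dist b a - k :=
    fun b hb k => by
      induction k with
      | zero => simp [hb]
      | succ k ih => rw [iterate_succ_apply']; have := p1 _ ih.1; exact ⟨this.1, by omega⟩
  refine ⟨{u | ∃ b ∈ T, ∃ k ≤ K.dist b a, par^[k] b = u}, fun b hb => ⟨b, hb, 0, by simp, rfl⟩, ?_, ?_,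
    fun v r => ?_⟩
  · rintro _ ⟨b, hb, k, -, rfl⟩; exact (it b (hT b hb) k).1
  · refine (connected_iff_exists_forall_reachable _).2 ⟨⟨a, a, ha, 0, by simp, rfl⟩, ?_⟩
    rintro ⟨_, b, hb, k, hk, rfl⟩
    induction hk using Nat.decreasingInduction with
    | self =>
      have := it b (hT b hb) (K.dist b a)
      convert Reachable.refl _ using 2
      exact this.1.dist_eq_zero_iff.1 (by omega)
    | of_succ k hk ih =>
      have := it b (hT b hb) k
      refine ih.trans (Adj.reachable (Adj.symm ?_))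
      simpa [iterate_succ_apply', -iterate_succ] using (p1 _ this.1).2.2 fun e => by
        have := this.2; rw [e] at this; simp at this; omega
  · refine (Set.ncard_le_ncard (t := ((T ×ˢ Finset.range (2 * r + 1)).image fun z =>
      par^[K.dist z.1 a - (K.dist v a + r - z.2)] z.1 : Finset V)) ?_).trans ?_
    · rintro _ ⟨⟨b, hb, k, hk, rfl⟩, q, hq⟩
      have h := it b (hT b hb) k
      have h1 := q.reachable.dist_triangle_left a
      have h2 := q.reachable.symm.dist_triangle_left a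
      have h3 := dist_le q
      rw [dist_comm (v := v)] at h2
      simp only [Finset.coe_image, Set.mem_image, Finset.mem_coe, Finset.mem_product, Finset.mem_range]
      exact ⟨(b, K.dist v a + r - (K.dist b a - k)), ⟨hb, by simp only; omega⟩, by
        congr 1; simp only; omega⟩
    · rw [Set.ncard_coe_finset]
      exact Finset.card_image_le.trans (by simp)

lemma rk_of {rk : V → ℕ} {j : ℕ} {x y : V} (h : (up G rk j).Reachable x y) (hy : j ≤ rk y) : j ≤ rk x := by
  obtain ⟨_ | ⟨h, _⟩⟩ := h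
  exacts [hy, h.2.1]

lemma step [Finite V] {t i : ℕ} {rk : V → ℕ} (hG : NoMinor G t) (h : Inv G t rk i) {a : V} (ha : rk a = i) :
    ∃ rk', Inv G t rk' (i + 1) ∧ {v | rk' v = i + 1} ⊂ {v | rk v = i} := by
  classical
  obtain ⟨h0, h1, h2⟩ := h
  let N := (Finset.range i).filter (Touch G rk i a)
  have hN : N.card ≤ t := not_lt.1 fun c => by
    obtain ⟨e⟩ := Embedding.nonempty_of_card_le (α := Fin t) (β := N) (by simpa using c.le)
    have m := fun j => Finset.mem_filter.1 (e j).2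
    simp only [Finset.mem_range] at m
    have n : ∀ j k, j ≠ k → (e j).1 ≠ e k := fun j k c d => c (e.injective (Subtype.ext d))
    refine hG ⟨fun j => {v | rk v = e j}, fun j => (h1 _ (m j).1).1, fun j k c =>
      Set.disjoint_left.2 fun v p q => n j k c (p.symm.trans q), fun j k c => ?_⟩
    obtain ⟨u, v, p, q, d⟩ := h2 a ha _ (m j).1 _ (m k).1 (n j k c) (m j).2 (m k).2
    exact ⟨u, p, v, q, d⟩
  have : ∀ k, ∃ y, k ∈ N → (up G rk i).Reachable y a ∧ ∃ z, G.Adj y z ∧ rk z = k := fun k => by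
    by_cases c : k ∈ N
    · obtain ⟨y, z, p, q⟩ := (Finset.mem_filter.1 c).2
      exact ⟨y, fun _ => ⟨p.symm, z, q⟩⟩
    · exact ⟨a, by simp [c]⟩
  choose b hb using this
  obtain ⟨H, a1, a2, a3, a4⟩ := geo (up G rk i) a (insert a (N.image b)) (by simp) (by
    simp only [Finset.mem_insert, Finset.mem_image]
    rintro _ (rfl | ⟨k, hk, rfl⟩)
    exacts [.refl _, (hb k hk).1])
  have a5 : ∀ u ∈ H, rk u = i := fun u hu => (h0 u).antisymm (rk_of (a2 u hu) ha.ge)
  let rk' := fun v => if rk v = i ∧ v ∉ H then i + 1 else rk v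
  have e1 : ∀ j ≤ i, up G rk' j = up G rk j := fun j hj => by
    have : ∀ v, j ≤ rk' v ↔ j ≤ rk v := fun v => by simp only [rk']; split_ifs <;> omega
    ext; simp only [up, this]
  have e2 : ∀ k < i, ∀ v, rk' v = k ↔ rk v = k := fun k hk v => by simp only [rk']; split_ifs <;> omega
  have e3 : ∀ v, rk' v = i ↔ v ∈ H := fun v => by
    have := a5 v; simp only [rk']; split_ifs <;> grind
  have e4 : ∀ v, rk' v = i + 1 ↔ rk v = i ∧ v ∉ H := fun v => by
    have := h0 v; simp only [rk']; split_ifs <;> grind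
  have e5 : ∀ j ≤ i, ∀ k < j, ∀ x, Touch G rk' j x k ↔ Touch G rk j x k := fun j hj k hk x => by
    simp only [Touch, e1 j hj, e2 k (by omega)]
  have e6 : up G rk' (i + 1) ≤ up G rk i := e1 i le_rfl ▸ fun _ _ h => ⟨h.1, Nat.le_of_succ_le h.2.1, Nat.le_of_succ_le h.2.2⟩
  have tr : ∀ x k, (up G rk i).Reachable x a → k < i → Touch G rk i x k → k ∈ N :=
    fun x k c d ⟨y, z, p, q⟩ => Finset.mem_filter.2 ⟨by simpa, y, z, c.symm.trans p, q⟩
  refine ⟨rk', ⟨fun v => by have := h0 v; simp only [rk']; split_ifs <;> omega, fun k hk => ?_, ?_⟩,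
    fun v hv => ((e4 v).1 hv).1, fun c => ((e4 a).1 (c ha)).2 (a1 (by simp))⟩
  · obtain rfl | c : k = i ∨ k < i := by omega
    · rw [show {v | rk' v = k} = H from Set.ext e3]
      simp only [Fin1, e3, e1 k le_rfl]
      refine ⟨a3.mono fun _ _ h => (show (up G rk k).Adj _ _ from h).1, fun v r => (a4 v r).trans ?_, N, hN, fun x hx l hl c =>
        tr x l (a2 x hx) hl ((e5 k le_rfl l hl x).1 c)⟩
      gcongr
      exact (Finset.card_insert_le _ _).trans (by simpa using Finset.card_image_le.trans hN)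
    · obtain ⟨p, q, M, r, s⟩ := h1 k c
      rw [show {v | rk' v = k} = _ from Set.ext (e2 k c)]
      simp only [Fin1, e2 k c, e1 k c.le]
      exact ⟨p, q, M, r, fun x hx l hl d => s x hx l hl ((e5 k c.le l hl x).1 d)⟩
  · intro x hx
    have hx' := ((e4 x).1 hx).1
    have o : ∀ k < i, Touch G rk' (i + 1) x k → Touch G rk i x k :=
      fun k c ⟨y, z, p, q, r⟩ => ⟨y, z, p.mono e6, q, (e2 k c z).1 r⟩
    have w : ∀ k < i, Touch G rk' (i + 1) x k → Touch G rk' (i + 1) x i →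
        ∃ u v, rk' u = k ∧ rk' v = i ∧ G.Adj u v := fun k c d ⟨y, z, p, q, r⟩ => by
      have r := (e3 z).1 r
      have m := tr x k ((p.mono e6).trans (Reachable.trans (Adj.reachable
        ⟨q, rk_of (p.mono e6).symm hx'.ge, (a5 z r).ge⟩) (a2 z r))) c (o k c d)
      obtain ⟨-, u, s, f⟩ := hb k m
      exact ⟨u, b k, (e2 k c u).2 f, (e3 _).2 (a1 (by simp; exact .inr ⟨k, m, rfl⟩)), s.symm⟩
    intro k hk l hl n p q
    obtain rfl | c : k = i ∨ k < i := by omega
    · obtain ⟨u, v, r, s, d⟩ := w l (by omega) q p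
      exact ⟨v, u, s, r, d.symm⟩
    obtain rfl | d : l = i ∨ l < i := by omega
    · exact w k c p q
    simp only [e2 k c, e2 l d]
    exact h2 x hx' k c l d n (o k c p) (o l d q)

lemma dec [Finite V] {t : ℕ} (hG : NoMinor G t) : ∃ rk : V → ℕ, ∀ v, Fin1 G t rk (rk v) := by
  have : ∀ n i (rk : V → ℕ), {v | rk v = i}.ncard = n → Inv G t rk i → ∃ rk : V → ℕ, ∀ v, Fin1 G t rk (rk v) :=
    fun n => by
      induction n using Nat.strong_induction_on with
      | _ n ih =>
        intro i rk e h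
        by_cases c : ∃ a, rk a = i
        · obtain ⟨a, ha⟩ := c
          obtain ⟨r, p, q⟩ := step hG h ha
          exact ih _ (e ▸ Set.ncard_lt_ncard q) _ r rfl p
        · exact ⟨rk, fun v => (h.2.1 _ ((h.1 v).lt_of_ne fun e => c ⟨v, e⟩)).2⟩
  exact this _ 0 0 rfl ⟨by simp, by simp, by simp⟩

lemma sub {K : SimpleGraph V} (hK : K ≤ G) {rk : V → ℕ} {j : ℕ} {v w : V} (q : K.Walk v w)
    (h : ∀ x ∈ q.support, j ≤ rk x) :
    ∀ x ∈ q.support, Nr (up G rk j) q.length v x ∧ Nr (up G rk j) q.length x w := by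
  induction q with
  | nil => simp [Nr]
  | @cons v u w a q ih =>
    have ih := ih fun x hx => h x (by simp [hx])
    have b : (up G rk j).Adj v u := ⟨hK a, h v (by simp), h u (by simp)⟩
    intro x hx
    rcases List.mem_cons.1 hx with rfl | hx
    · obtain ⟨p, hp⟩ := (ih u (by simp)).2
      exact ⟨⟨.nil, by simp⟩, .cons b p, by simpa⟩
    · obtain ⟨⟨p, hp⟩, r, hr⟩ := ih x hx
      exact ⟨⟨.cons b p, by simpa⟩, r, by simp; omega⟩

lemma mn {K : SimpleGraph V} (hK : K ≤ G) (rk : V → ℕ) {v w : V} (q : K.Walk v w) {r : ℕ} (h : q.length ≤ r) :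
    ∃ m ∈ q.support, Nr (up G rk (rk m)) r v m ∧ Nr (up G rk (rk m)) r w m := by
  obtain ⟨m, a, b⟩ := Set.exists_min_image {x | x ∈ q.support} rk q.support.finite_toSet ⟨v, by simp⟩
  obtain ⟨⟨p, c⟩, s, d⟩ := sub hK q b m a
  exact ⟨m, a, ⟨p, c.trans h⟩, s.reverse, by simpa using d.trans h⟩

theorem wcol [Finite V] {t : ℕ} (hG : NoMinor G t) : ∃ W : ℕ → V → Finset V,
    (∀ r v, (W r v).card ≤ (t + 1) ^ r * ((t + 1) * (2 * r + 1))) ∧
    ∀ r v w (q : G.Walk v w), q.length ≤ r → ∃ m ∈ q.support, m ∈ W r v ∧ m ∈ W r w := by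
  classical
  obtain ⟨rk, h⟩ := dec hG
  have h : ∀ j, Fin1 G t rk j := fun j => by
    by_cases c : ∃ v, rk v = j
    · exact c.elim fun v e => e ▸ h v
    · exact ⟨by simp [not_exists.1 c], ∅, by simp [not_exists.1 c]⟩
  choose N h1 h2 using fun j => (h j).2
  have R : ∀ v r, ∃ F : Finset ℕ, F.card ≤ (t + 1) ^ r ∧ ∀ u, Nr (up G rk (rk u)) r v u → rk u ∈ F :=
    fun v r => by
      induction r with
      | zero => exact ⟨{rk v}, by simp, fun u ⟨p, hp⟩ => by simp [p.eq_of_length_eq_zero (by omega)]⟩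
      | succ r ih =>
        obtain ⟨F, a, b⟩ := ih
        refine ⟨F.biUnion fun x => insert x (N x), (Finset.card_biUnion_le_card_mul _ _ (t + 1) fun x _ =>
          (Finset.card_insert_le _ _).trans (by simpa using h1 x)).trans (by rw [pow_succ]; gcongr),
          fun u ⟨p, hp⟩ => Finset.mem_biUnion.2 ?_⟩
        have hp' : p.reverse.length ≤ r + 1 := by simpa
        generalize p.reverse = p at hp'
        cases p with
        | nil => exact ⟨_, b _ ⟨.nil, by simp⟩, by simp⟩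
        | @cons _ w _ c q =>
          obtain ⟨m, d, ⟨e, -⟩, f⟩ := mn (G := G) (K := up G rk (rk u)) (fun _ _ h => h.1) rk q (r := r)
            (by simpa using hp')
          refine ⟨_, b m f, Finset.mem_insert.2 ((rk_of (q.takeUntil m d).reachable.symm c.2.2).eq_or_lt.imp id
            fun g => h2 _ m rfl _ g ⟨w, u, e.reachable.symm, c.1.symm, rfl⟩)⟩
  choose F f1 f2 using R
  refine ⟨fun r v => (F v r).biUnion fun j => (Set.toFinite {u | rk u = j ∧ Nr (up G rk j) r v u}).toFinset,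
    fun r v => (Finset.card_biUnion_le_card_mul _ _ _ fun x _ => ?_).trans (Nat.mul_le_mul_right _ (f1 v r)),
    fun r v w q hq => ?_⟩
  · rw [← Set.ncard_eq_toFinset_card]; exact (h x).1 v r
  · obtain ⟨m, a, b, c⟩ := mn le_rfl rk q hq
    exact ⟨m, a, Finset.mem_biUnion.2 ⟨_, f2 v r m b, by simp [b]⟩, Finset.mem_biUnion.2 ⟨_, f2 w r m c, by simp [c]⟩⟩

end Pool.Agent.H9W
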